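import Pool.Agent.Shadow22.Airy

set_option autoImplicit false

/-!
Nonvanishing of the limit integral (module AIRY).
-/

namespace Pool.Agent.SHD

open Set Filter Topology MeasureTheory

/-- the real parts of the three rotations of `w` -/
private theorem airylim_three (x y s : ℝ) (hs : s ^ 2 = 3) (h : x * (x ^ 2 - 3 * y ^ 2) < 0) :
    (x < 0 ∧ 0 < -x - s * y ∧ 0 < -x + s * y) ∨ (0 < x ∧ -x - s * y < 0 ∧ 0 < -x + s * y) ∨
      (0 < x ∧ 0 < -x - s * y ∧ -x + s * y < 0) := by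
  have hp : x * ((-x - s * y) * (-x + s * y)) < 0 := by
    have e : x * ((-x - s * y) * (-x + s * y)) = x * (x ^ 2 - 3 * y ^ 2) := by
      rw [← hs]; ring
    rw [e]; exact h
  rcases lt_trichotomy x 0 with hx | hx | hx
  · left
    have h1 : 0 < (-x - s * y) * (-x + s * y) := by
      by_contra hc
      push Not at hc
      nlinarith
    rcases pos_and_pos_or_neg_and_neg_of_mul_pos h1 with h2 | h2
    · exact ⟨hx, h2.1, h2.2⟩
    · exfalso; linarith [h2.1, h2.2]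
  · rw [hx] at hp; simp at hp
  · right
    have h1 : (-x - s * y) * (-x + s * y) < 0 := by
      by_contra hc
      push Not at hc
      nlinarith
    rcases mul_neg_iff.1 h1 with h2 | h2
    · exact Or.inr ⟨hx, h2.1, h2.2⟩
    · exact Or.inl ⟨hx, h2.1, h2.2⟩

/-- choice of the index -/
private theorem airylim_pair (x y x' y' s : ℝ) (hs : s ^ 2 = 3) (hs0 : 0 < s)
    (h : x * (x ^ 2 - 3 * y ^ 2) < 0) (h' : x' * (x' ^ 2 - 3 * y' ^ 2) < 0)
    (hn : x * x' + y * y' < 0) :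
    (0 < x ∧ 0 < x') ∨ (0 < -x - s * y ∧ 0 < -x' - s * y') ∨
      (0 < -x + s * y ∧ 0 < -x' + s * y') := by
  rcases airylim_three x y s hs h with a | a | a <;>
    rcases airylim_three x' y' s hs h' with b | b | b
  · exfalso
    -- both near the negative axis
    have h1 : 0 < (-x - s * y) * (-x' + s * y') := mul_pos a.2.1 b.2.2
    have h2 : 0 < (-x + s * y) * (-x' - s * y') := mul_pos a.2.2 b.2.1
    have h3 : 0 < (-x - s * y) * (-x' - s * y') := mul_pos a.2.1 b.2.1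
    have h4 : 0 < (-x + s * y) * (-x' + s * y') := mul_pos a.2.2 b.2.2
    have h5 : 0 < x * x' := mul_pos_of_neg_of_neg a.1 b.1
    have e : 0 < x * x' + s ^ 2 * (y * y') := by nlinarith
    rw [hs] at e
    nlinarith
  · exact Or.inr (Or.inr ⟨a.2.2, b.2.2⟩)
  · exact Or.inr (Or.inl ⟨a.2.1, b.2.1⟩)
  · exact Or.inr (Or.inr ⟨a.2.2, b.2.2⟩)
  · exact Or.inl ⟨a.1, b.1⟩
  · exact Or.inl ⟨a.1, b.1⟩
  · exact Or.inr (Or.inl ⟨a.2.1, b.2.1⟩)
  · exact Or.inl ⟨a.1, b.1⟩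
  · exact Or.inl ⟨a.1, b.1⟩

private theorem airylim_cube (w : ℂ) : (w ^ 3).re = w.re * (w.re ^ 2 - 3 * w.im ^ 2) := by
  have e : w ^ 3 = w * (w * w) := by ring
  rw [e]
  simp only [Complex.mul_re, Complex.mul_im]
  ring

private theorem airylim_conj (w z : ℂ) :
    (w * (starRingEnd ℂ) z).re = w.re * z.re + w.im * z.im := by
  simp only [Complex.mul_re, Complex.conj_re, Complex.conj_im]
  ring

/-- choice of the cube root -/
theorem airy_root (c u v : ℂ) (hu : (u ^ 3 * c).re < 0) (hv : (v ^ 3 * c).re < 0)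
    (huv : (u * (starRingEnd ℂ) v).re < 0) :
    ∃ ϖ : ℂ, ϖ ^ 3 = c ∧ 0 < (ϖ * u).re ∧ 0 < (ϖ * v).re := by
  obtain ⟨p, hp⟩ := IsAlgClosed.exists_pow_nat_eq c (n := 3) (by norm_num)
  have hp0 : p ≠ 0 := by
    rintro rfl
    have : c = 0 := by rw [← hp]; simp
    rw [this] at hu
    simp at hu
  set s : ℝ := Real.sqrt 3 with hsdef
  have hs : s ^ 2 = 3 := Real.sq_sqrt (by norm_num)
  have hs0 : 0 < s := Real.sqrt_pos.2 (by norm_num)
  have hu3 : (p * u).re * ((p * u).re ^ 2 - 3 * (p * u).im ^ 2) < 0 := by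
    rw [← airylim_cube, mul_pow, hp, mul_comm]; exact hu
  have hv3 : (p * v).re * ((p * v).re ^ 2 - 3 * (p * v).im ^ 2) < 0 := by
    rw [← airylim_cube, mul_pow, hp, mul_comm]; exact hv
  have hn : (p * u).re * (p * v).re + (p * u).im * (p * v).im < 0 := by
    rw [← airylim_conj]
    have e : p * u * (starRingEnd ℂ) (p * v) =
        ((Complex.normSq p : ℝ) : ℂ) * (u * (starRingEnd ℂ) v) := by
      rw [map_mul, ← Complex.mul_conj]; ring
    rw [e, Complex.re_ofReal_mul]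
    exact mul_neg_of_pos_of_neg (Complex.normSq_pos.2 hp0) huv
  -- the rotations
  have hcub : ∀ e : ℝ, e ^ 2 = 3 → ((⟨-1 / 2, e / 2⟩ : ℂ)) ^ 3 = 1 := by
    intro e he
    have e1 : (⟨-1 / 2, e / 2⟩ : ℂ) ^ 3 =
        ((⟨-1 / 2, e / 2⟩ : ℂ)) * ((⟨-1 / 2, e / 2⟩ : ℂ) * (⟨-1 / 2, e / 2⟩ : ℂ)) := by ring
    rw [e1]
    apply Complex.ext
    · simp only [Complex.mul_re, Complex.mul_im, Complex.one_re]
      nlinarith
    · simp only [Complex.mul_re, Complex.mul_im, Complex.one_im]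
      have : e ^ 3 = 3 * e := by rw [pow_succ, he]
      nlinarith
  have hrot : ∀ (e : ℝ) (w : ℂ), ((⟨-1 / 2, e / 2⟩ : ℂ) * p * w).re =
      (-(p * w).re - e * (p * w).im) / 2 := by
    intro e w
    rw [mul_assoc, Complex.mul_re]
    ring
  rcases airylim_pair _ _ _ _ s hs hs0 hu3 hv3 hn with h | h | h
  · exact ⟨p, hp, h.1, h.2⟩
  · refine ⟨(⟨-1 / 2, s / 2⟩ : ℂ) * p, ?_, ?_, ?_⟩
    · rw [mul_pow, hcub s hs, hp, one_mul]
    · rw [hrot]; linarith [h.1]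
    · rw [hrot]; linarith [h.2]
  · refine ⟨(⟨-1 / 2, (-s) / 2⟩ : ℂ) * p, ?_, ?_, ?_⟩
    · rw [mul_pow, hcub (-s) (by rw [neg_sq]; exact hs), hp, one_mul]
    · rw [hrot]; linarith [h.1]
    · rw [hrot]; linarith [h.2]

private theorem airylim_half (p q x y x' y' : ℝ) (hx : 0 < x) (hx' : 0 < x') (hy : 0 < y)
    (hy' : y' < 0) (h1 : (x ^ 2 - y ^ 2) * p - 2 * x * y * q < 0)
    (h2 : (x' ^ 2 - y' ^ 2) * p - 2 * x' * y' * q < 0) (h : x * x' + y * y' < 0) : 0 < p := by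
  have e1 : ((x ^ 2 - y ^ 2) * p - 2 * x * y * q) * (x' * -y') < 0 :=
    mul_neg_of_neg_of_pos h1 (mul_pos hx' (by linarith))
  have e2 : ((x' ^ 2 - y' ^ 2) * p - 2 * x' * y' * q) * (x * y) < 0 :=
    mul_neg_of_neg_of_pos h2 (mul_pos hx hy)
  have e3 : ((x * x' + y * y') * (x * -y' + x' * y)) * p < 0 := by
    have : ((x * x' + y * y') * (x * -y' + x' * y)) * p =
        ((x ^ 2 - y ^ 2) * p - 2 * x * y * q) * (x' * -y') +
          ((x' ^ 2 - y' ^ 2) * p - 2 * x' * y' * q) * (x * y) := by ring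
    rw [this]; linarith
  have e4 : 0 < x * -y' + x' * y := add_pos (mul_pos hx (by linarith)) (mul_pos hx' hy)
  have e5 : (x * x' + y * y') * (x * -y' + x' * y) < 0 := mul_neg_of_neg_of_pos h e4
  by_contra hp
  push Not at hp
  have := mul_nonneg_of_nonpos_of_nonpos e5.le hp
  linarith

private theorem airylim_sq (w A : ℂ) :
    (w ^ 2 * A).re = (w.re ^ 2 - w.im ^ 2) * A.re - 2 * w.re * w.im * A.im := by
  have e : w ^ 2 * A = w * w * A := by ring
  rw [e]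
  simp only [Complex.mul_re, Complex.mul_im]
  ring

/-- the half plane -/
theorem airy_half (A ω₁ ω₂ : ℂ) (h1 : (ω₁ ^ 3).re < 0) (h2 : (ω₂ ^ 3).re < 0)
    (h1r : 0 < ω₁.re) (h2r : 0 < ω₂.re) (h1A : (ω₁ ^ 2 * A).re < 0) (h2A : (ω₂ ^ 2 * A).re < 0)
    (h12 : (ω₁ * (starRingEnd ℂ) ω₂).re < 0) : 0 < A.re := by
  rw [airylim_conj] at h12
  rw [airylim_sq] at h1A h2A
  have hxx := mul_pos h1r h2r
  have hy : ω₁.im * ω₂.im < 0 := by linarith
  rcases mul_neg_iff.1 hy with h | h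
  · exact airylim_half A.re A.im ω₁.re ω₁.im ω₂.re ω₂.im h1r h2r h.1 h.2 h1A h2A h12
  · exact airylim_half A.re A.im ω₂.re ω₂.im ω₁.re ω₁.im h2r h1r h.2 h.1 h2A h1A (by linarith)

/-- the final form -/
theorem airy_limit_ne (a : ℝ) (β c u v : ℂ) (ha : 0 ≤ a) (hab : 0 < a ∨ β ≠ 0)
    (hcu : (u ^ 3 * c).re < 0) (hcv : (v ^ 3 * c).re < 0)
    (huv : (u * (starRingEnd ℂ) v).re < 0) (hu : β = 0 ∨ (u ^ 2 * β).re < 0)
    (hv : β = 0 ∨ (v ^ 2 * β).re < 0) :
    (u * ∫ x in Ioi (0 : ℝ), Complex.exp (u ^ 2 * β * x ^ 2 / 2 + a * (u ^ 3 * c) * x ^ 3 / 6)) -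
      (v * ∫ x in Ioi (0 : ℝ), Complex.exp (v ^ 2 * β * x ^ 2 / 2 +
        a * (v ^ 3 * c) * x ^ 3 / 6)) ≠ 0 := by
  have hJ : ∀ w : ℂ, (w * ∫ x in Ioi (0 : ℝ), Complex.exp (w ^ 2 * β * x ^ 2 / 2 +
      a * (w ^ 3 * c) * x ^ 3 / 6)) = Shadow22.JR (β / 2) (a * c / 6) w := by
    intro w
    unfold Shadow22.JR
    rw [← integral_const_mul]
    refine integral_congr_ae (Eventually.of_forall fun r => ?_)
    simp only
    rw [mul_comm w]
    congr 2
    ring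
  rw [hJ u, hJ v]
  obtain ⟨p, hp, hpu, hpv⟩ := airy_root c u v hcu hcv huv
  have hc0 : c ≠ 0 := by
    rintro rfl
    simp at hcu
  have hp0 : p ≠ 0 := by
    rintro rfl
    apply hc0
    rw [← hp]; simp
  have hu3 : ((p * u) ^ 3).re < 0 := by
    rw [mul_pow, hp, mul_comm]; exact hcu
  have hv3 : ((p * v) ^ 3).re < 0 := by
    rw [mul_pow, hp, mul_comm]; exact hcv
  have hn : (p * u * (starRingEnd ℂ) (p * v)).re < 0 := by
    have e : p * u * (starRingEnd ℂ) (p * v) =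
        ((Complex.normSq p : ℝ) : ℂ) * (u * (starRingEnd ℂ) v) := by
      rw [map_mul, ← Complex.mul_conj]; ring
    rw [e, Complex.re_ofReal_mul]
    exact mul_neg_of_pos_of_neg (Complex.normSq_pos.2 hp0) huv
  have hbk : (a * c / 6 : ℂ) * p⁻¹ ^ 3 = ((a / 6 : ℝ) : ℂ) := by
    rw [inv_pow, hp]
    push_cast
    field_simp
  have hsq : ∀ w : ℂ, (p * w) ^ 2 * (β / 2 * p⁻¹ ^ 2) = w ^ 2 * β / 2 := by
    intro w
    field_simp
  have hsqre : ∀ w : ℂ, (w ^ 2 * β).re < 0 → ((p * w) ^ 2 * (β / 2 * p⁻¹ ^ 2)).re < 0 := by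
    intro w hw
    rw [hsq]
    have e : w ^ 2 * β / 2 = ((1 / 2 : ℝ) : ℂ) * (w ^ 2 * β) := by push_cast; ring
    rw [e, Complex.re_ofReal_mul]
    linarith
  have hcond : β = 0 ∨ (0 < (β / 2 * p⁻¹ ^ 2).re ∧ ((p * u) ^ 2 * (β / 2 * p⁻¹ ^ 2)).re < 0 ∧
      ((p * v) ^ 2 * (β / 2 * p⁻¹ ^ 2)).re < 0) := by
    by_cases hβ : β = 0
    · exact Or.inl hβ
    · right
      have h1 := hsqre u (hu.resolve_left hβ)
      have h2 := hsqre v (hv.resolve_left hβ)
      exact ⟨airy_half _ _ _ hu3 hv3 hpu hpv h1 h2 hn, h1, h2⟩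
  have hne : (β / 2 : ℂ) ≠ 0 ∨ (a * c / 6 : ℂ) ≠ 0 := by
    rcases hab with h | h
    · right
      have : (a : ℂ) ≠ 0 := by exact_mod_cast h.ne'
      exact div_ne_zero (mul_ne_zero this hc0) (by norm_num)
    · left
      exact div_ne_zero h (by norm_num)
  have hy : (p * u).im * (p * v).im < 0 := by
    rw [airylim_conj] at hn
    have := mul_pos hpu hpv
    linarith
  have eu : p⁻¹ * (p * u) = u := by field_simp
  have ev : p⁻¹ * (p * v) = v := by field_simp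
  rcases mul_neg_iff.1 hy with h | h
  · have := Shadow22.JR_pair (β / 2) (a * c / 6) p⁻¹ (p * u) (p * v) (a / 6) (by positivity)
      (inv_ne_zero hp0) hbk hpu h.1 hu3 hpv h.2 hv3 ?_ hne
    · rwa [eu, ev] at this
    · rcases hcond with h0 | h0
      · left; rw [h0]; simp
      · right
        refine ⟨h0.1, ?_, ?_⟩
        · rw [mul_comm]; exact h0.2.1
        · rw [mul_comm]; exact h0.2.2
  · have := Shadow22.JR_pair (β / 2) (a * c / 6) p⁻¹ (p * v) (p * u) (a / 6) (by positivity)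
      (inv_ne_zero hp0) hbk hpv h.2 hv3 hpu h.1 hu3 ?_ hne
    · rw [eu, ev] at this
      intro h0
      apply this
      linear_combination -h0
    · rcases hcond with h0 | h0
      · left; rw [h0]; simp
      · right
        refine ⟨h0.1, ?_, ?_⟩
        · rw [mul_comm]; exact h0.2.2
        · rw [mul_comm]; exact h0.2.1

end Pool.Agent.SHD
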