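import Mathlib

set_option autoImplicit false

/-!
Definitions for the shadow of a polynomial.
-/

noncomputable section

namespace Pool.Agent.SHD

open Polynomial Set

/-- The set of all zeros of the derivatives `(d/dz)^m P^n`, `n ≥ 1`, `m ≤ n * deg P`. -/
def zeroSet (P : ℂ[X]) : Set ℂ :=
  {z | ∃ n m : ℕ, 1 ≤ n ∧ m ≤ n * P.natDegree ∧ (derivative^[m] (P ^ n)).eval z = 0}

/-- The shadow of `P`. -/
def shadow (P : ℂ[X]) : Set ℂ := closure (zeroSet P)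

/-- The zeros of `P` are distinct and each of them is an extreme point of their convex hull. -/
def ConvexPosition (P : ℂ[X]) : Prop :=
  P.roots.Nodup ∧ ∀ z ∈ P.roots, z ∈ (convexHull ℝ {w : ℂ | w ∈ P.roots}).extremePoints ℝ

/-- The zeros of `P` are the `deg P` vertices of a regular polygon with centre `c`; `c + r` is one
of the vertices. -/
def RegularPolygon (P : ℂ[X]) : Prop :=
  ∃ c r : ℂ, r ≠ 0 ∧ {w : ℂ | w ∈ P.roots} = {w : ℂ | (w - c) ^ P.natDegree = r ^ P.natDegree}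

/-- The signed curvature of the plane curve `γ` at the parameter `t`. -/
def curvature (γ : ℝ → ℂ) (t : ℝ) : ℝ :=
  ((starRingEnd ℂ) (deriv γ t) * deriv (deriv γ) t).im / ‖deriv γ t‖ ^ 3

/-- `p` is an inflection point of the set `S`: near `p` the set `S` is a regular arc of class `C²`
(an embedded arc, parametrised by an open interval) whose signed curvature changes sign at `p`. -/
def IsInflectionPoint (S : Set ℂ) (p : ℂ) : Prop :=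
  ∃ (U : Set ℂ) (γ : ℝ → ℂ) (a t₀ b : ℝ), IsOpen U ∧ p ∈ U ∧ a < t₀ ∧ t₀ < b ∧
    ContDiffOn ℝ 2 γ (Ioo a b) ∧ (∀ t ∈ Ioo a b, deriv γ t ≠ 0) ∧
    Topology.IsEmbedding (fun t : Ioo a b => γ t) ∧ γ '' Ioo a b = S ∩ U ∧ γ t₀ = p ∧
    (((∀ t ∈ Ioo a t₀, curvature γ t < 0) ∧ ∀ t ∈ Ioo t₀ b, 0 < curvature γ t) ∨
      ((∀ t ∈ Ioo a t₀, 0 < curvature γ t) ∧ ∀ t ∈ Ioo t₀ b, curvature γ t < 0))

section

variable {ι : Type} [Fintype ι]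

/-- the polynomial with the zeros `b i` -/
def PP (b : ι → ℂ) : ℂ[X] := ∏ i, (X - C (b i))

/-- the Taylor coefficients of `P ^ n` at `z` -/
def Tn (b : ι → ℂ) (n m : ℕ) (z : ℂ) : ℂ := (hasseDeriv m (PP b ^ n)).eval z

/-- `h = P' / P` -/
def hh (b : ι → ℂ) (w : ℂ) : ℂ := ∑ i, (w - b i)⁻¹

/-- `h'` -/
def hh1 (b : ι → ℂ) (w : ℂ) : ℂ := -∑ i, ((w - b i)⁻¹) ^ 2

/-- `h''` -/
def hh2 (b : ι → ℂ) (w : ℂ) : ℂ := 2 * ∑ i, ((w - b i)⁻¹) ^ 3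

/-- `h'''` -/
def hh3 (b : ι → ℂ) (w : ℂ) : ℂ := -(6 * ∑ i, ((w - b i)⁻¹) ^ 4)

/-- `f = h - α / (w - z)`, the derivative of `log P(w) - α log (w - z)` -/
def ff (b : ι → ℂ) (z : ℂ) (α : ℝ) (w : ℂ) : ℂ := hh b w - α * (w - z)⁻¹

/-- `f'` -/
def ff1 (b : ι → ℂ) (z : ℂ) (α : ℝ) (w : ℂ) : ℂ := hh1 b w + α * ((w - z)⁻¹) ^ 2

/-- `f''` -/
def ff2 (b : ι → ℂ) (z : ℂ) (α : ℝ) (w : ℂ) : ℂ := hh2 b w - 2 * α * ((w - z)⁻¹) ^ 3

/-- `f'''` -/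
def ff3 (b : ι → ℂ) (z : ℂ) (α : ℝ) (w : ℂ) : ℂ := hh3 b w + 6 * α * ((w - z)⁻¹) ^ 4

/-- the level function `|P(w)| / |w - z|^α` -/
def lev (b : ι → ℂ) (z : ℂ) (α : ℝ) (w : ℂ) : ℝ := ‖(PP b).eval w‖ / ‖w - z‖ ^ α

/-- the union of the closed segments of a polygonal line -/
def segs : List ℂ → Set ℂ
  | a :: c :: l => segment ℝ a c ∪ segs (c :: l)
  | _ => ∅

/-- the integral over the segment from `a` to `c` -/
def seg (g : ℂ → ℂ) (a c : ℂ) : ℂ := ∫ t in (0 : ℝ)..1, g (a + t * (c - a)) * (c - a)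

/-- the integral over a polygonal line -/
def pint (g : ℂ → ℂ) : List ℂ → ℂ
  | a :: c :: l => seg g a c + pint g (c :: l)
  | _ => 0

/-- `w₀` is a saddle point, `u` and `v` are descending rays from `w₀`, and the polygonal line
`w₀ + u, p, w₀ + v` stays below the level of `w₀`. -/
structure Dom (b : ι → ℂ) (z : ℂ) (α : ℝ) (w₀ u v : ℂ) (p : List ℂ) : Prop where
  crit : ff b z α w₀ = 0
  avu : ∀ s ∈ Icc (0 : ℝ) 1, w₀ + s * u ≠ z ∧ ∀ i, w₀ + s * u ≠ b i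
  avv : ∀ s ∈ Icc (0 : ℝ) 1, w₀ + s * v ≠ z ∧ ∀ i, w₀ + s * v ≠ b i
  rayu : ∀ s ∈ Icc (0 : ℝ) 1, (u ^ 2 * ff1 b z α (w₀ + s * u)).re < 0
  rayv : ∀ s ∈ Icc (0 : ℝ) 1, (v ^ 2 * ff1 b z α (w₀ + s * v)).re < 0
  uv : (u * (starRingEnd ℂ) v).re < 0
  path : ∀ w ∈ segs ((w₀ + u) :: (p ++ [w₀ + v])), w ≠ z ∧ lev b z α w < lev b z α w₀

/-- The degenerate version: `w₀` is a double saddle point. -/
structure DomA (b : ι → ℂ) (z : ℂ) (α : ℝ) (w₀ u v : ℂ) (p : List ℂ) : Prop where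
  crit : ff b z α w₀ = 0
  crit1 : ff1 b z α w₀ = 0
  avu : ∀ s ∈ Icc (0 : ℝ) 1, w₀ + s * u ≠ z ∧ ∀ i, w₀ + s * u ≠ b i
  avv : ∀ s ∈ Icc (0 : ℝ) 1, w₀ + s * v ≠ z ∧ ∀ i, w₀ + s * v ≠ b i
  rayu : ∀ s ∈ Icc (0 : ℝ) 1, (u ^ 3 * ff2 b z α (w₀ + s * u)).re < 0
  rayv : ∀ s ∈ Icc (0 : ℝ) 1, (v ^ 3 * ff2 b z α (w₀ + s * v)).re < 0
  uv : (u * (starRingEnd ℂ) v).re < 0
  path : ∀ w ∈ segs ((w₀ + u) :: (p ++ [w₀ + v])), w ≠ z ∧ lev b z α w < lev b z α w₀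

/-- the ray hypotheses of the asymptotic theorem -/
structure RayHyp (b : ι → ℂ) (z : ℕ → ℂ) (α : ℕ → ℝ) (n : ℕ → ℕ) (w : ℕ → ℂ) (lam : ℕ → ℝ)
    (ξ : ℂ) (Θ : ℝ → ℂ) : Prop where
  bound : ∃ c C : ℝ, 0 < c ∧ (∀ᶠ k in Filter.atTop, ∀ x ∈ Icc (0 : ℝ) (1 / lam k),
    (n k * lam k * ξ * ff b (z k) (α k) (w k + lam k * x * ξ)).re ≤ -c * min x (x ^ 2) ∧
    ‖n k * lam k * ξ * ff b (z k) (α k) (w k + lam k * x * ξ)‖ ≤ C * (1 + x ^ 2))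
  lim : ∀ x : ℝ, 0 ≤ x → Filter.Tendsto
    (fun k => n k * lam k * ξ * ff b (z k) (α k) (w k + lam k * x * ξ)) Filter.atTop
    (nhds (Θ x))

/-- the centre `z` of the double saddle point `w` -/
def Zf (b : ι → ℂ) (w : ℂ) : ℂ := w + hh b w / hh1 b w

/-- the parameter `t` of the double saddle point `w` -/
def tf (b : ι → ℂ) (w : ℂ) : ℂ := -(hh b w) ^ 2 / hh1 b w

/-- `2 h'^2 - h h''` -/
def Kf (b : ι → ℂ) (w : ℂ) : ℂ := 2 * (hh1 b w) ^ 2 - hh b w * hh2 b w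

end

end Pool.Agent.SHD
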