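import Mathlib
import Pool.Agent.SHD.Defs

set_option autoImplicit false

/-!
Basic facts on the Taylor coefficients (module BASIC).
-/

namespace Pool.Agent.SHD

open Polynomial Set Filter Topology

variable {ι : Type} [Fintype ι]

theorem PP_monic (b : ι → ℂ) : (PP b).Monic :=
  monic_prod_of_monic _ _ fun i _ => monic_X_sub_C (b i)

theorem PP_natDegree (b : ι → ℂ) : (PP b).natDegree = Fintype.card ι := by
  unfold PP
  rw [natDegree_prod_of_monic _ _ fun i _ => monic_X_sub_C (b i)]
  simp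

theorem PP_roots (b : ι → ℂ) : (PP b).roots = Finset.univ.val.map b := by
  have h : PP b = ((Finset.univ.val.map b).map fun a => X - C a).prod := by
    unfold PP
    rw [Multiset.map_map]
    rfl
  rw [h, roots_multiset_prod_X_sub_C]

theorem PP_eval (b : ι → ℂ) (w : ℂ) : (PP b).eval w = ∏ i, (w - b i) := by
  unfold PP
  rw [eval_prod]
  simp

theorem PP_deriv (b : ι → ℂ) (w : ℂ) (hw : ∀ i, w ≠ b i) :
    (derivative (PP b)).eval w = (PP b).eval w * hh b w := by
  classical
  rw [PP_eval, hh, PP, derivative_prod_finset, eval_finset_sum, Finset.mul_sum]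
  refine Finset.sum_congr rfl fun i _ => ?_
  rw [eval_mul, eval_prod, derivative_X_sub_C, eval_one, mul_one]
  have h1 : w - b i ≠ 0 := sub_ne_zero.mpr (hw i)
  rw [← Finset.mul_prod_erase Finset.univ (fun i => w - b i) (Finset.mem_univ i)]
  simp only [eval_sub, eval_X, eval_C]
  field_simp

private theorem basic_natDegree (b : ι → ℂ) (n : ℕ) :
    (PP b ^ n).natDegree = n * Fintype.card ι := by
  rw [(PP_monic b).natDegree_pow, PP_natDegree]

private theorem basic_der (Q : ℂ[X]) (m : ℕ) :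
    derivative (hasseDeriv m Q) = (m + 1) • hasseDeriv (m + 1) Q := by
  have h := hasseDeriv_comp (R := ℂ) 1 m
  have h1 := congrArg (fun F : ℂ[X] →ₗ[ℂ] ℂ[X] => F Q) h
  simp only [LinearMap.comp_apply, hasseDeriv_one, LinearMap.smul_apply] at h1
  rw [h1, Nat.choose_one_right, add_comm 1 m]

theorem Tn_hasDeriv (b : ι → ℂ) (n m : ℕ) (z : ℂ) :
    HasDerivAt (Tn b n m) ((m + 1) * Tn b n (m + 1) z) z := by
  have h := (hasseDeriv m (PP b ^ n)).hasDerivAt z
  rw [basic_der] at h
  have h2 : ((m + 1) • hasseDeriv (m + 1) (PP b ^ n)).eval z = ((m : ℂ) + 1) * Tn b n (m + 1) z := by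
    rw [Tn, nsmul_eq_mul, eval_mul]
    congr 1
    rw [eval_natCast]
    push_cast
    rfl
  rw [h2] at h
  exact h

private theorem basic_coeff (b : ι → ℂ) (n m : ℕ) (z : ℂ) :
    (taylor z (PP b ^ n)).coeff m = Tn b n m z := taylor_coeff _ _ _

/-- Taylor's formula -/
theorem Tn_sum (b : ι → ℂ) (n : ℕ) (z w : ℂ) : ((PP b).eval w) ^ n =
    ∑ m ∈ Finset.range (n * Fintype.card ι + 1), Tn b n m z * (w - z) ^ m := by
  have h : (taylor z (PP b ^ n)).eval (w - z) = ((PP b).eval w) ^ n := by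
    rw [taylor_eval, sub_add_cancel, eval_pow]
  rw [← h, eval_eq_sum_range, natDegree_taylor, basic_natDegree]
  refine Finset.sum_congr rfl fun m _ => ?_
  rw [basic_coeff]

theorem Tn_zero (b : ι → ℂ) (n : ℕ) (z : ℂ) : Tn b n 0 z = ((PP b).eval z) ^ n := by
  rw [Tn, hasseDeriv_zero', eval_pow]

theorem Tn_top (b : ι → ℂ) (n : ℕ) (z : ℂ) : Tn b n (n * Fintype.card ι) z = 1 := by
  rw [Tn, ← basic_natDegree b n, hasseDeriv_natDegree_eq_C, eval_C]
  exact (PP_monic b).pow n

theorem Tn_big (b : ι → ℂ) (n m : ℕ) (z : ℂ) (hm : n * Fintype.card ι < m) : Tn b n m z = 0 := by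
  rw [Tn, hasseDeriv_eq_zero_of_lt_natDegree _ _ (by rw [basic_natDegree]; exact hm), eval_zero]

theorem Tn_iterate (b : ι → ℂ) (n m : ℕ) (z : ℂ) :
    (derivative^[m] (PP b ^ n)).eval z = (m.factorial : ℂ) * Tn b n m z := by
  rw [← factorial_smul_hasseDeriv, LinearMap.smul_apply, nsmul_eq_mul, eval_mul, eval_natCast, Tn]

theorem mem_zeroSet (b : ι → ℂ) (z : ℂ) : z ∈ zeroSet (PP b) ↔
    ∃ n m : ℕ, 1 ≤ n ∧ m ≤ n * Fintype.card ι ∧ Tn b n m z = 0 := by
  unfold zeroSet
  rw [mem_setOf_eq]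
  refine exists_congr fun n => exists_congr fun m => ?_
  rw [PP_natDegree, Tn_iterate, mul_eq_zero]
  have h : (m.factorial : ℂ) ≠ 0 := by exact_mod_cast m.factorial_ne_zero
  simp only [h, false_or]

private theorem basic_Xder (B : ℂ[X]) (k : ℕ) : (X * derivative B).coeff k = k * B.coeff k := by
  cases k with
  | zero => simp
  | succ k =>
    rw [coeff_X_mul, coeff_derivative]
    push_cast
    ring

private theorem basic_taylor_der (Q : ℂ[X]) (z : ℂ) :
    derivative (taylor z Q) = taylor z (derivative Q) := by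
  rw [taylor_apply, taylor_apply, derivative_comp]
  simp

/-- the recurrence from `P (P^n)' = n P' P^n` -/
theorem Tn_rec (b : ι → ℂ) (n M : ℕ) (hM : Fintype.card ι ≤ M) (z : ℂ) :
    ∑ j ∈ Finset.range (Fintype.card ι + 1),
      Tn b 1 j z * (((M : ℂ) - (n + 1) * j) * Tn b n (M - j) z) = 0 := by
  set A : ℂ[X] := taylor z (PP b ^ 1) with hA
  set B : ℂ[X] := taylor z (PP b ^ n) with hB
  have hAB : B = A ^ n := by
    rw [hB, hA, pow_one, taylor_pow]
  have h1 : A * (X * derivative B) = (n : ℂ[X]) * ((X * derivative A) * B) := by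
    rw [hAB, derivative_pow]
    cases n with
    | zero => simp
    | succ n =>
      simp only [Nat.add_sub_cancel, pow_succ, map_natCast]
      ring
  have h2 := congrArg (fun F : ℂ[X] => F.coeff M) h1
  rw [coeff_mul, ← C_eq_natCast, coeff_C_mul, coeff_mul,
    Finset.Nat.sum_antidiagonal_eq_sum_range_succ_mk,
    Finset.Nat.sum_antidiagonal_eq_sum_range_succ_mk, Finset.mul_sum] at h2
  simp only [basic_Xder] at h2
  have h3 : ∑ j ∈ Finset.range (M + 1),
      Tn b 1 j z * (((M : ℂ) - (n + 1) * j) * Tn b n (M - j) z) = 0 := by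
    rw [← sub_eq_zero, ← Finset.sum_sub_distrib] at h2
    rw [← h2]
    refine Finset.sum_congr rfl fun j hj => ?_
    have hj' : j ≤ M := Nat.lt_succ_iff.mp (Finset.mem_range.mp hj)
    rw [hA, hB, basic_coeff, basic_coeff, Nat.cast_sub hj']
    ring
  rw [← h3]
  refine Finset.sum_subset (Finset.range_mono (by omega)) fun j _ hj => ?_
  rw [Finset.mem_range, not_lt] at hj
  rw [Tn_big b 1 j z (by omega), zero_mul]

private theorem basic_ne (b : ι → ℂ) (n m : ℕ) (hm : m ≤ n * Fintype.card ι) :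
    hasseDeriv m (PP b ^ n) ≠ 0 := by
  intro h
  have h1 := congrArg (fun F : ℂ[X] => F.coeff (n * Fintype.card ι - m)) h
  simp only [hasseDeriv_coeff, coeff_zero, Nat.sub_add_cancel hm] at h1
  have h2 : (PP b ^ n).coeff (n * Fintype.card ι) = 1 := by
    have := ((PP_monic b).pow n).coeff_natDegree
    rwa [basic_natDegree] at this
  rw [h2, mul_one, Nat.cast_eq_zero] at h1
  exact (Nat.choose_pos hm).ne' h1

/-- the zeros of `Tn b n m` form a finite set -/
theorem Tn_zeros_finite (b : ι → ℂ) (n m : ℕ) (hm : m ≤ n * Fintype.card ι) :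
    {z | Tn b n m z = 0}.Finite :=
  finite_setOfPred_isRoot (basic_ne b n m hm)

/-- bound for the logarithmic derivative in a disc without zeros -/
theorem Tn_logDeriv (b : ι → ℂ) (n m : ℕ) (hm : m ≤ n * Fintype.card ι) (z : ℂ) (r : ℝ)
    (hr : 0 < r) (h : ∀ z' ∈ Metric.ball z r, Tn b n m z' ≠ 0) :
    ‖((m : ℂ) + 1) * Tn b n (m + 1) z‖ ≤ n * Fintype.card ι / r * ‖Tn b n m z‖ := by
  set H : ℂ[X] := hasseDeriv m (PP b ^ n) with hH
  have hHz : H.eval z ≠ 0 := h z (Metric.mem_ball_self hr)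
  have hder : (derivative H).eval z = ((m : ℂ) + 1) * Tn b n (m + 1) z := by
    have h1 := (Tn_hasDeriv b n m z).unique (H.hasDerivAt z)
    exact h1.symm
  have h1 := (IsAlgClosed.splits H).eval_derivative_div_eval_of_ne_zero hHz
  have hdeg : H.natDegree ≤ n * Fintype.card ι := by
    have h2 := natDegree_hasseDeriv_le (PP b ^ n) m
    rw [basic_natDegree] at h2
    exact h2.trans (Nat.sub_le _ _)
  have hcard : (Multiset.card H.roots : ℝ) ≤ n * Fintype.card ι := by
    exact_mod_cast (card_roots' H).trans hdeg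
  have hroot : ∀ ζ ∈ H.roots, r ≤ ‖z - ζ‖ := by
    intro ζ hζ
    by_contra hlt
    push Not at hlt
    have h3 : ζ ∈ Metric.ball z r := by
      rw [Metric.mem_ball, dist_eq_norm, norm_sub_rev]
      exact hlt
    exact h ζ h3 ((mem_roots (basic_ne b n m hm)).mp hζ)
  have h4 : ‖(derivative H).eval z / H.eval z‖ ≤ n * Fintype.card ι / r := by
    rw [h1]
    refine (norm_multiset_sum_le _).trans ?_
    rw [Multiset.map_map]
    have h5 : (Multiset.map (norm ∘ fun ζ => 1 / (z - ζ)) H.roots).sum ≤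
        Multiset.card (Multiset.map (norm ∘ fun ζ => 1 / (z - ζ)) H.roots) • (1 / r) := by
      refine Multiset.sum_le_card_nsmul _ _ fun x hx => ?_
      obtain ⟨ζ, hζ, rfl⟩ := Multiset.mem_map.mp hx
      rw [Function.comp_apply, norm_div, norm_one]
      exact one_div_le_one_div_of_le hr (hroot ζ hζ)
    refine h5.trans ?_
    rw [Multiset.card_map, nsmul_eq_mul, mul_one_div]
    exact div_le_div_of_nonneg_right hcard hr.le
  rw [norm_div, div_le_iff₀ (norm_pos_iff.mpr hHz), hder] at h4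
  exact h4

end Pool.Agent.SHD
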