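import Mathlib
import Pool.Agent.SHD.Basic

set_option autoImplicit false

/-!
Integrals over polygonal lines (module CONT).
-/

namespace Pool.Agent.SHD

open Polynomial Set Filter Topology

variable {ι : Type} [Fintype ι]

/-- the length of a polygonal line -/
noncomputable def plen : List ℂ → ℝ
  | a :: c :: l => ‖c - a‖ + plen (c :: l)
  | _ => 0

theorem pint_nil (g : ℂ → ℂ) (a : ℂ) : pint g [a] = 0 := rfl

theorem pint_cons (g : ℂ → ℂ) (a c : ℂ) (l : List ℂ) :
    pint g (a :: c :: l) = seg g a c + pint g (c :: l) := rfl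

private theorem cont_pint_aux (g : ℂ → ℂ) (a c : ℂ) : ∀ (l : List ℂ) (x : ℂ),
    pint g (x :: (l ++ [a, c])) = pint g (x :: (l ++ [a])) + seg g a c
  | [], x => by
      show seg g x a + (seg g a c + 0) = (seg g x a + 0) + seg g a c
      ring
  | y :: l, x => by
      have h := cont_pint_aux g a c l y
      show seg g x y + pint g (y :: (l ++ [a, c])) = (seg g x y + pint g (y :: (l ++ [a]))) + seg g a c
      rw [h]
      ring

theorem pint_concat (g : ℂ → ℂ) (l : List ℂ) (a c : ℂ) :
    pint g (l ++ [a, c]) = pint g (l ++ [a]) + seg g a c := by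
  cases l with
  | nil =>
    show seg g a c + 0 = 0 + seg g a c
    ring
  | cons x l => exact cont_pint_aux g a c l x

private theorem cont_segs_aux (a c : ℂ) : ∀ (l : List ℂ) (x : ℂ),
    segs (x :: (l ++ [a, c])) = segs (x :: (l ++ [a])) ∪ segment ℝ a c
  | [], x => by
      show segment ℝ x a ∪ (segment ℝ a c ∪ ∅) = (segment ℝ x a ∪ ∅) ∪ segment ℝ a c
      rw [Set.union_empty, Set.union_empty]
  | y :: l, x => by
      have h := cont_segs_aux a c l y
      show segment ℝ x y ∪ segs (y :: (l ++ [a, c])) = (segment ℝ x y ∪ segs (y :: (l ++ [a]))) ∪ segment ℝ a c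
      rw [h, Set.union_assoc]

theorem segs_concat (l : List ℂ) (a c : ℂ) :
    segs (l ++ [a, c]) = segs (l ++ [a]) ∪ segment ℝ a c := by
  cases l with
  | nil =>
    show segment ℝ a c ∪ ∅ = ∅ ∪ segment ℝ a c
    rw [Set.union_empty, Set.empty_union]
  | cons x l => exact cont_segs_aux a c l x

private theorem cont_mem (a c : ℂ) {t : ℝ} (ht : t ∈ Icc (0 : ℝ) 1) : a + t * (c - a) ∈ segment ℝ a c := by
  rw [segment_eq_image']
  refine ⟨t, ht, ?_⟩
  simp only [Complex.real_smul]

theorem seg_symm (g : ℂ → ℂ) (a c : ℂ) : seg g c a = -seg g a c := by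
  unfold seg
  have h := intervalIntegral.integral_comp_sub_left (a := (0 : ℝ)) (b := 1)
    (fun t : ℝ => g (a + t * (c - a)) * (c - a)) 1
  simp only [sub_zero, sub_self] at h
  rw [← h, ← intervalIntegral.integral_neg]
  congr 1
  funext t
  have e : c + (t : ℂ) * (a - c) = a + ((1 - t : ℝ) : ℂ) * (c - a) := by
    push_cast
    ring
  rw [e]
  ring

theorem segs_compact (l : List ℂ) : IsCompact (segs l) := by
  match l with
  | [] => exact isCompact_empty
  | [_] => exact isCompact_empty
  | a :: c :: l =>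
    show IsCompact (segment ℝ a c ∪ segs (c :: l))
    refine IsCompact.union ?_ (segs_compact (c :: l))
    rw [segment_eq_image']
    apply isCompact_Icc.image
    fun_prop

private theorem cont_norm_seg (g : ℂ → ℂ) (a c : ℂ) (C : ℝ) (h : ∀ w ∈ segment ℝ a c, ‖g w‖ ≤ C) :
    ‖seg g a c‖ ≤ C * ‖c - a‖ := by
  unfold seg
  have := intervalIntegral.norm_integral_le_of_norm_le_const (a := (0 : ℝ)) (b := 1) (C := C * ‖c - a‖)
    (f := fun t : ℝ => g (a + t * (c - a)) * (c - a)) (by
      intro t ht
      rw [Set.uIoc_of_le zero_le_one] at ht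
      rw [norm_mul]
      exact mul_le_mul_of_nonneg_right (h _ (cont_mem a c ⟨ht.1.le, ht.2⟩)) (norm_nonneg _))
  simpa using this

theorem norm_pint_le (g : ℂ → ℂ) (l : List ℂ) (C : ℝ) (h : ∀ w ∈ segs l, ‖g w‖ ≤ C) :
    ‖pint g l‖ ≤ C * plen l := by
  match l with
  | [] =>
    show ‖(0 : ℂ)‖ ≤ C * 0
    simp
  | [_] =>
    show ‖(0 : ℂ)‖ ≤ C * 0
    simp
  | a :: c :: l =>
    have h1 := norm_pint_le g (c :: l) C (fun w hw => h w (Or.inr hw))
    have h2 := cont_norm_seg g a c C (fun w hw => h w (Or.inl hw))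
    show ‖seg g a c + pint g (c :: l)‖ ≤ C * (‖c - a‖ + plen (c :: l))
    calc ‖seg g a c + pint g (c :: l)‖ ≤ ‖seg g a c‖ + ‖pint g (c :: l)‖ := norm_add_le _ _
      _ ≤ C * ‖c - a‖ + C * plen (c :: l) := add_le_add h2 h1
      _ = C * (‖c - a‖ + plen (c :: l)) := by ring

private theorem cont_contOn {g : ℂ → ℂ} {a c : ℂ} (hc : ContinuousOn g (segment ℝ a c)) :
    ContinuousOn (fun t : ℝ => g (a + t * (c - a)) * (c - a)) (Icc 0 1) := by
  apply ContinuousOn.mul _ continuousOn_const
  apply hc.comp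
  · fun_prop
  · intro t ht
    exact cont_mem a c ht

private theorem cont_intble {g : ℂ → ℂ} {a c : ℂ} (hc : ContinuousOn g (segment ℝ a c)) :
    IntervalIntegrable (fun t : ℝ => g (a + t * (c - a)) * (c - a)) MeasureTheory.volume 0 1 := by
  apply ContinuousOn.intervalIntegrable
  rw [Set.uIcc_of_le zero_le_one]
  exact cont_contOn hc

private theorem cont_seg_prim {g G : ℂ → ℂ} {a c : ℂ} (hg : ∀ w ∈ segment ℝ a c, HasDerivAt G (g w) w)
    (hc : ContinuousOn g (segment ℝ a c)) : seg g a c = G c - G a := by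
  have h1 : ∀ t ∈ Set.uIcc (0 : ℝ) 1,
      HasDerivAt (fun t : ℝ => G (a + t * (c - a))) (g (a + t * (c - a)) * (c - a)) t := by
    intro t ht
    rw [Set.uIcc_of_le zero_le_one] at ht
    have hl : HasDerivAt (fun t : ℝ => a + (t : ℂ) * (c - a)) (c - a) t := by
      have h := ((Complex.ofRealCLM.hasDerivAt (x := t)).mul_const (c - a)).const_add a
      simpa using h
    have := (hg _ (cont_mem a c ht)).scomp t hl
    simpa [smul_eq_mul, Function.comp_def, mul_comm] using this
  have h3 := intervalIntegral.integral_eq_sub_of_hasDerivAt h1 (cont_intble hc)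
  unfold seg
  rw [h3]
  simp

/-- integral of a function with a primitive -/
theorem pint_primitive (g G : ℂ → ℂ) (a : ℂ) (l : List ℂ)
    (hg : ∀ w ∈ segs (a :: l), HasDerivAt G (g w) w) (hc : ContinuousOn g (segs (a :: l))) :
    pint g (a :: l) = G ((a :: l).getLast (by simp)) - G a := by
  match l with
  | [] =>
    show (0 : ℂ) = G a - G a
    rw [sub_self]
  | c :: l =>
    have h1 := pint_primitive g G c l (fun w hw => hg w (Or.inr hw)) (hc.mono Set.subset_union_right)
    have h2 := cont_seg_prim (fun w hw => hg w (Or.inl hw)) (hc.mono Set.subset_union_left)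
    rw [pint_cons, h1, h2]
    simp only [List.getLast_cons_cons]
    ring

theorem pint_sum {κ : Type} (s : Finset κ) (g : κ → ℂ → ℂ) (l : List ℂ)
    (hc : ∀ k ∈ s, ContinuousOn (g k) (segs l)) :
    pint (fun w => ∑ k ∈ s, g k w) l = ∑ k ∈ s, pint (g k) l := by
  match l with
  | [] =>
    show (0 : ℂ) = ∑ k ∈ s, 0
    simp
  | [_] =>
    show (0 : ℂ) = ∑ k ∈ s, 0
    simp
  | a :: c :: l =>
    have h1 := pint_sum s g (c :: l) (fun k hk => (hc k hk).mono Set.subset_union_right)
    have h2 : seg (fun w => ∑ k ∈ s, g k w) a c = ∑ k ∈ s, seg (g k) a c := by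
      unfold seg
      rw [← intervalIntegral.integral_finsetSum]
      · congr 1
        funext t
        rw [Finset.sum_mul]
      · intro k hk
        exact cont_intble ((hc k hk).mono Set.subset_union_left)
    show seg (fun w => ∑ k ∈ s, g k w) a c + pint (fun w => ∑ k ∈ s, g k w) (c :: l) =
      ∑ k ∈ s, (seg (g k) a c + pint (g k) (c :: l))
    rw [h1, h2, Finset.sum_add_distrib]

theorem pint_mul (c : ℂ) (g : ℂ → ℂ) (l : List ℂ) :
    pint (fun w => c * g w) l = c * pint g l := by
  match l with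
  | [] =>
    show (0 : ℂ) = c * 0
    simp
  | [_] =>
    show (0 : ℂ) = c * 0
    simp
  | a :: x :: l =>
    have h1 := pint_mul c g (x :: l)
    have h2 : seg (fun w => c * g w) a x = c * seg g a x := by
      unfold seg
      rw [← intervalIntegral.integral_const_mul]
      congr 1
      funext t
      ring
    show seg (fun w => c * g w) a x + pint (fun w => c * g w) (x :: l) = c * (seg g a x + pint g (x :: l))
    rw [h1, h2]
    ring

theorem pint_congr (g g' : ℂ → ℂ) (l : List ℂ) (h : ∀ w ∈ segs l, g w = g' w) :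
    pint g l = pint g' l := by
  match l with
  | [] => rfl
  | [_] => rfl
  | a :: x :: l =>
    have h1 := pint_congr g g' (x :: l) (fun w hw => h w (Or.inr hw))
    have h2 : seg g a x = seg g' a x := by
      unfold seg
      apply intervalIntegral.integral_congr
      intro t ht
      rw [Set.uIcc_of_le zero_le_one] at ht
      show g (a + t * (x - a)) * (x - a) = g' (a + t * (x - a)) * (x - a)
      rw [h _ (Or.inl (cont_mem a x ht))]
    show seg g a x + pint g (x :: l) = seg g' a x + pint g' (x :: l)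
    rw [h1, h2]

private theorem cont_zpow {z w : ℂ} (hw : w - z ≠ 0) {k m : ℕ} (hk : k ≠ m) :
    HasDerivAt (fun w : ℂ => (w - z) ^ ((k : ℤ) - m) / ((k : ℂ) - m))
      ((w - z) ^ k / (w - z) ^ (m + 1)) w := by
  have hkm : ((k : ℂ) - m) ≠ 0 := by
    intro h
    exact hk (by exact_mod_cast sub_eq_zero.mp h)
  have h1 := hasDerivAt_zpow ((k : ℤ) - m) (w - z) (Or.inl hw)
  have h2 := (h1.comp w ((hasDerivAt_id w).sub_const z)).div_const ((k : ℂ) - m)
  have h3 : (w - z) ^ k / (w - z) ^ (m + 1) = (w - z) ^ ((k : ℤ) - m - 1) := by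
    rw [← zpow_natCast, ← zpow_natCast, ← zpow_sub₀ hw]
    congr 1
    push_cast
    ring
  rw [h3]
  have h4 : ((((k : ℤ) - m : ℤ) : ℂ) * (w - z) ^ ((k : ℤ) - m - 1) * 1) / ((k : ℂ) - m)
      = (w - z) ^ ((k : ℤ) - m - 1) := by
    rw [div_eq_iff hkm]
    push_cast
    ring
  rw [h4] at h2
  exact h2

/-- the coefficient of the Laurent expansion -/
theorem pint_main (b : ι → ℂ) (n m : ℕ) (z a : ℂ) (l : List ℂ)
    (hz : z ∉ segs (a :: (l ++ [a]))) :
    pint (fun w => ((PP b).eval w) ^ n / (w - z) ^ (m + 1)) (a :: (l ++ [a])) =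
      Tn b n m z * pint (fun w => (w - z)⁻¹) (a :: (l ++ [a])) := by
  set L := a :: (l ++ [a]) with hL
  have hne : ∀ w ∈ segs L, w - z ≠ 0 := by
    intro w hw h
    rw [sub_eq_zero] at h
    exact hz (h ▸ hw)
  have hcont : ∀ k : ℕ, ContinuousOn (fun w : ℂ => (w - z) ^ k / (w - z) ^ (m + 1)) (segs L) := by
    intro k
    apply ContinuousOn.div
    · fun_prop
    · fun_prop
    · intro w hw
      exact pow_ne_zero _ (hne w hw)
  have hterm : ∀ k : ℕ, pint (fun w => (w - z) ^ k / (w - z) ^ (m + 1)) L =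
      if k = m then pint (fun w => (w - z)⁻¹) L else 0 := by
    intro k
    split_ifs with hk
    · subst hk
      apply pint_congr
      intro w hw
      have := hne w hw
      rw [pow_succ]
      field_simp
    · have h := pint_primitive (fun w => (w - z) ^ k / (w - z) ^ (m + 1))
        (fun w : ℂ => (w - z) ^ ((k : ℤ) - m) / ((k : ℂ) - m)) a (l ++ [a])
        (fun w hw => cont_zpow (hne w hw) hk) (hcont k)
      rw [h]
      have hl : (a :: (l ++ [a])).getLast (by simp) = a := by
        rw [List.getLast_cons (by simp)]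
        simp
      rw [hl, sub_self]
  have e1 : pint (fun w => ((PP b).eval w) ^ n / (w - z) ^ (m + 1)) L =
      pint (fun w => ∑ k ∈ Finset.range (n * Fintype.card ι + 1),
        Tn b n k z * ((w - z) ^ k / (w - z) ^ (m + 1))) L := by
    apply pint_congr
    intro w _
    rw [Tn_sum b n z w, Finset.sum_div]
    apply Finset.sum_congr rfl
    intro k _
    rw [mul_div_assoc]
  rw [e1, pint_sum]
  · have e2 : ∀ k ∈ Finset.range (n * Fintype.card ι + 1),
        pint (fun w => Tn b n k z * ((w - z) ^ k / (w - z) ^ (m + 1))) L =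
        if k = m then Tn b n k z * pint (fun w => (w - z)⁻¹) L else 0 := by
      intro k _
      rw [pint_mul, hterm k]
      split_ifs
      · rfl
      · rw [mul_zero]
    rw [Finset.sum_congr rfl e2, Finset.sum_ite_eq']
    split_ifs with hm
    · rfl
    · rw [Tn_big b n m z (by
        rw [Finset.mem_range] at hm
        omega), zero_mul]
  · intro k _
    exact continuousOn_const.mul (hcont k)

end Pool.Agent.SHD
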