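import Mathlib
import Pool.Agent.SHD.Basic

set_option autoImplicit false

/-!
The exponential representation on rays (module EXPR).
-/

namespace Pool.Agent.SHD

open Polynomial Set Filter Topology

variable {ι : Type} [Fintype ι]

/-- derivative of a power of the inverse of a difference -/
theorem expr_inv_pow (c w : ℂ) (hw : w ≠ c) (k : ℕ) :
    HasDerivAt (fun x : ℂ => ((x - c)⁻¹) ^ k) (-(k * ((w - c)⁻¹) ^ (k + 1))) w := by
  have h1 : HasDerivAt (fun x : ℂ => x - c) 1 w := (hasDerivAt_id w).sub_const c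
  have h2 : HasDerivAt (fun x : ℂ => (x - c)⁻¹) (-1 / (w - c) ^ 2) w := h1.inv (sub_ne_zero.2 hw)
  have h3 := h2.pow k
  refine h3.congr_deriv ?_
  rcases k with _ | k
  · simp
  · simp only [Nat.add_sub_cancel]
    rw [neg_div, one_div, ← inv_pow]
    push_cast
    ring

theorem expr_hh (b : ι → ℂ) (w : ℂ) (hw : ∀ i, w ≠ b i) : HasDerivAt (hh b) (hh1 b w) w := by
  have h : HasDerivAt (fun x : ℂ => ∑ i, ((x - b i)⁻¹) ^ 1) (∑ i, -(((1 : ℕ) : ℂ) * ((w - b i)⁻¹) ^ (1 + 1))) w :=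
    HasDerivAt.fun_sum (fun i _ => expr_inv_pow (b i) w (hw i) 1)
  have e : hh b = fun x : ℂ => ∑ i, ((x - b i)⁻¹) ^ 1 := by
    funext x
    simp [hh]
  rw [e]
  refine h.congr_deriv ?_
  simp [hh1]

theorem expr_hh1 (b : ι → ℂ) (w : ℂ) (hw : ∀ i, w ≠ b i) : HasDerivAt (hh1 b) (hh2 b w) w := by
  have h : HasDerivAt (fun x : ℂ => -∑ i, ((x - b i)⁻¹) ^ 2)
      (-∑ i, -(((2 : ℕ) : ℂ) * ((w - b i)⁻¹) ^ (2 + 1))) w :=
    (HasDerivAt.fun_sum (fun i _ => expr_inv_pow (b i) w (hw i) 2)).neg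
  refine h.congr_deriv ?_
  rw [Finset.sum_neg_distrib, neg_neg, hh2, Finset.mul_sum]
  norm_num

theorem expr_hh2 (b : ι → ℂ) (w : ℂ) (hw : ∀ i, w ≠ b i) : HasDerivAt (hh2 b) (hh3 b w) w := by
  have h : HasDerivAt (fun x : ℂ => 2 * ∑ i, ((x - b i)⁻¹) ^ 3)
      (2 * ∑ i, -(((3 : ℕ) : ℂ) * ((w - b i)⁻¹) ^ (3 + 1))) w :=
    (HasDerivAt.fun_sum (fun i _ => expr_inv_pow (b i) w (hw i) 3)).const_mul 2
  refine h.congr_deriv ?_
  rw [Finset.sum_neg_distrib, hh3, ← Finset.mul_sum]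
  push_cast
  ring

theorem ff_hasDeriv (b : ι → ℂ) (z : ℂ) (α : ℝ) (w : ℂ) (hw : ∀ i, w ≠ b i) (hz : w ≠ z) :
    HasDerivAt (ff b z α) (ff1 b z α w) w := by
  have h1 := (expr_hh b w hw).sub ((expr_inv_pow z w hz 1).const_mul (α : ℂ))
  have e : ff b z α = fun x : ℂ => hh b x - (α : ℂ) * ((x - z)⁻¹) ^ 1 := by
    funext x
    simp [ff]
  rw [e]
  refine h1.congr_deriv ?_
  simp [ff1]

theorem ff1_hasDeriv (b : ι → ℂ) (z : ℂ) (α : ℝ) (w : ℂ) (hw : ∀ i, w ≠ b i) (hz : w ≠ z) :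
    HasDerivAt (ff1 b z α) (ff2 b z α w) w := by
  have h1 := (expr_hh1 b w hw).add ((expr_inv_pow z w hz 2).const_mul (α : ℂ))
  refine h1.congr_deriv ?_
  simp only [ff2]
  push_cast
  ring

theorem ff2_hasDeriv (b : ι → ℂ) (z : ℂ) (α : ℝ) (w : ℂ) (hw : ∀ i, w ≠ b i) (hz : w ≠ z) :
    HasDerivAt (ff2 b z α) (ff3 b z α w) w := by
  have h1 := (expr_hh2 b w hw).sub ((expr_inv_pow z w hz 3).const_mul (2 * (α : ℂ)))
  refine h1.congr_deriv ?_
  simp only [ff3]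
  push_cast
  ring

theorem expr_inv_cont (c : ℂ) (z : ℂ) (α : ℝ) (w : ℂ) (hw : w ≠ c) :
    ContinuousAt (fun q : ℂ × ℝ × ℂ => (q.2.2 - c)⁻¹) (z, α, w) := by
  apply ContinuousAt.inv₀
  · fun_prop
  · exact sub_ne_zero.2 hw

theorem expr_invz_cont (z : ℂ) (α : ℝ) (w : ℂ) (hz : w ≠ z) :
    ContinuousAt (fun q : ℂ × ℝ × ℂ => (q.2.2 - q.1)⁻¹) (z, α, w) := by
  apply ContinuousAt.inv₀
  · fun_prop
  · exact sub_ne_zero.2 hz

theorem expr_sum_cont (b : ι → ℂ) (k : ℕ) (z : ℂ) (α : ℝ) (w : ℂ) (hw : ∀ i, w ≠ b i) :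
    ContinuousAt (fun q : ℂ × ℝ × ℂ => ∑ i, ((q.2.2 - b i)⁻¹) ^ k) (z, α, w) := by
  apply tendsto_finsetSum
  intro i _
  exact (expr_inv_cont (b i) z α w (hw i)).pow k

theorem expr_al_cont (z : ℂ) (α : ℝ) (w : ℂ) :
    ContinuousAt (fun q : ℂ × ℝ × ℂ => ((q.2.1 : ℝ) : ℂ)) (z, α, w) := by
  fun_prop

/-- joint continuity in all variables -/
theorem ff_cont (b : ι → ℂ) (z : ℂ) (α : ℝ) (w : ℂ) (hw : ∀ i, w ≠ b i) (hz : w ≠ z) :
    ContinuousAt (fun q : ℂ × ℝ × ℂ => ff b q.1 q.2.1 q.2.2) (z, α, w) := by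
  have h := (expr_sum_cont b 1 z α w hw).sub ((expr_al_cont z α w).mul (expr_invz_cont z α w hz))
  refine h.congr (Eventually.of_forall fun q => ?_)
  simp [ff, hh]

theorem ff1_cont (b : ι → ℂ) (z : ℂ) (α : ℝ) (w : ℂ) (hw : ∀ i, w ≠ b i) (hz : w ≠ z) :
    ContinuousAt (fun q : ℂ × ℝ × ℂ => ff1 b q.1 q.2.1 q.2.2) (z, α, w) :=
  (expr_sum_cont b 2 z α w hw).neg.add ((expr_al_cont z α w).mul ((expr_invz_cont z α w hz).pow 2))

theorem ff2_cont (b : ι → ℂ) (z : ℂ) (α : ℝ) (w : ℂ) (hw : ∀ i, w ≠ b i) (hz : w ≠ z) :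
    ContinuousAt (fun q : ℂ × ℝ × ℂ => ff2 b q.1 q.2.1 q.2.2) (z, α, w) :=
  ((expr_sum_cont b 3 z α w hw).const_mul 2).sub
    (((expr_al_cont z α w).const_mul 2).mul ((expr_invz_cont z α w hz).pow 3))

theorem lev_cont (b : ι → ℂ) (z : ℂ) (α : ℝ) (w : ℂ) (hz : w ≠ z) :
    ContinuousAt (fun q : ℂ × ℝ × ℂ => lev b q.1 q.2.1 q.2.2) (z, α, w) := by
  have hpos : 0 < ‖w - z‖ := norm_pos_iff.2 (sub_ne_zero.2 hz)
  apply ContinuousAt.div
  · apply ContinuousAt.norm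
    exact (Polynomial.continuous (PP b)).continuousAt.comp (by fun_prop)
  · apply ContinuousAt.rpow
    · fun_prop
    · fun_prop
    · exact Or.inl hpos.ne'
  · exact (Real.rpow_pos_of_pos hpos α).ne'

theorem ray_exp (b : ι → ℂ) (z w ξ : ℂ) (n M : ℕ) (hn : 1 ≤ n)
    (hav : ∀ s ∈ Icc (0 : ℝ) 1, w + s * ξ ≠ z ∧ ∀ i, w + s * ξ ≠ b i) (s : ℝ)
    (hs : s ∈ Icc (0 : ℝ) 1) :
    ((PP b).eval (w + s * ξ)) ^ n / (w + s * ξ - z) ^ M =
      ((PP b).eval w) ^ n / (w - z) ^ M *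
        Complex.exp (∫ y in (0 : ℝ)..s, n * ξ * ff b z (M / n : ℝ) (w + y * ξ)) := by
  have hn0 : (n : ℂ) ≠ 0 := by
    have : n ≠ 0 := by omega
    exact_mod_cast this
  set g : ℝ → ℂ := fun y => n * ξ * ff b z (M / n : ℝ) (w + y * ξ) with hg
  set U : Set ℝ := {s | w + s * ξ ≠ z ∧ ∀ i, w + s * ξ ≠ b i} with hU
  have hUo : IsOpen U := by
    have e : U = {s : ℝ | w + s * ξ ≠ z} ∩ ⋂ i, {s : ℝ | w + s * ξ ≠ b i} := by
      ext s
      simp [hU]
    rw [e]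
    have hc : Continuous (fun s : ℝ => w + s * ξ) := by fun_prop
    exact (isOpen_ne_fun hc continuous_const).inter
      (isOpen_iInter_of_finite fun i => isOpen_ne_fun hc continuous_const)
  have hline : ∀ x : ℝ, HasDerivAt (fun s : ℝ => w + s * ξ) ξ x := by
    intro x
    have h1 : HasDerivAt (fun s : ℝ => (s : ℂ)) 1 x := by
      simpa using (hasDerivAt_id x).ofReal_comp
    simpa using (h1.mul_const ξ).const_add w
  have hgc : ∀ x ∈ U, ContinuousAt g x := by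
    intro x hx
    have h1 : ContinuousAt (fun y : ℝ => ff b z (M / n : ℝ) (w + y * ξ)) x := by
      have h2 : HasDerivAt (ff b z (M / n : ℝ)) (ff1 b z (M / n : ℝ) (w + x * ξ)) (w + x * ξ) :=
        ff_hasDeriv b z _ _ hx.2 hx.1
      exact ContinuousAt.comp (f := fun s : ℝ => w + s * ξ) h2.continuousAt (hline x).continuousAt
    exact h1.const_mul _
  have hsub : Icc (0 : ℝ) 1 ⊆ U := fun x hx => hav x hx
  have hI : ∀ x ∈ Icc (0 : ℝ) 1, HasDerivAt (fun s : ℝ => ∫ y in (0 : ℝ)..s, g y) (g x) x := by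
    intro x hx
    apply intervalIntegral.integral_hasDerivAt_right
    · apply ContinuousOn.intervalIntegrable
      intro y hy
      rw [uIcc_of_le hx.1] at hy
      exact (hgc y (hsub ⟨hy.1, hy.2.trans hx.2⟩)).continuousWithinAt
    · exact ContinuousOn.stronglyMeasurableAtFilter hUo
        (fun y hy => (hgc y hy).continuousWithinAt) x (hsub hx)
    · exact hgc x (hsub hx)
  set F : ℝ → ℂ := fun s => ((PP b).eval (w + s * ξ)) ^ n / (w + s * ξ - z) ^ M with hF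
  have hFd : ∀ x ∈ Icc (0 : ℝ) 1, HasDerivAt F (F x * g x) x := by
    intro x hx
    obtain ⟨hz, hb⟩ := hav x hx
    have hz' : w + x * ξ - z ≠ 0 := sub_ne_zero.2 hz
    have h1 : HasDerivAt (fun v : ℂ => (PP b).eval v) ((derivative (PP b)).eval (w + x * ξ)) (w + x * ξ) :=
      (PP b).hasDerivAt _
    have h2 : HasDerivAt (fun v : ℂ => ((PP b).eval v) ^ n / (v - z) ^ M)
        (((n * ((PP b).eval (w + x * ξ)) ^ (n - 1) * (derivative (PP b)).eval (w + x * ξ)) * (w + x * ξ - z) ^ M -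
          ((PP b).eval (w + x * ξ)) ^ n * (M * (w + x * ξ - z) ^ (M - 1) * 1)) / ((w + x * ξ - z) ^ M) ^ 2)
        (w + x * ξ) :=
      (h1.pow n).div (((hasDerivAt_id _).sub_const z).pow M) (pow_ne_zero _ hz')
    have h3 := HasDerivAt.comp_of_eq (h := fun s : ℝ => w + s * ξ) x h2 (hline x) rfl
    refine h3.congr_deriv ?_
    rw [PP_deriv b _ hb]
    simp only [hF, hg, ff]
    have hP : (PP b).eval (w + x * ξ) ^ n = (PP b).eval (w + x * ξ) ^ (n - 1) * (PP b).eval (w + x * ξ) := by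
      rw [← pow_succ]
      congr 1
      omega
    have hMn : ((M / n : ℝ) : ℂ) = M / n := by push_cast; rfl
    rw [hMn]
    rcases Nat.eq_zero_or_pos M with hM | hM
    · subst hM
      rw [hP]
      simp
      ring
    · have hM' : (w + x * ξ - z) ^ M = (w + x * ξ - z) ^ (M - 1) * (w + x * ξ - z) := by
        rw [← pow_succ]
        congr 1
        omega
      rw [hM', hP]
      have hq : (w + x * ξ - z) ^ (M - 1) ≠ 0 := pow_ne_zero _ hz'
      field_simp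
  have hconst : ∀ x ∈ Icc (0 : ℝ) 1,
      F x * Complex.exp (-∫ y in (0 : ℝ)..x, g y) = F 0 * Complex.exp (-∫ y in (0 : ℝ)..(0 : ℝ), g y) := by
    have hd : ∀ x ∈ Icc (0 : ℝ) 1, HasDerivAt (fun x : ℝ => F x * Complex.exp (-∫ y in (0 : ℝ)..x, g y)) 0 x := by
      intro x hx
      have h := (hFd x hx).mul ((hI x hx).neg.cexp)
      refine h.congr_deriv ?_
      ring
    exact constant_of_has_deriv_right_zero (fun x hx => (hd x hx).continuousAt.continuousWithinAt)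
      (fun x hx => (hd x ⟨hx.1, hx.2.le⟩).hasDerivWithinAt)
  have h := hconst s hs
  rw [intervalIntegral.integral_same, neg_zero, Complex.exp_zero, mul_one] at h
  have hF0 : F 0 = ((PP b).eval w) ^ n / (w - z) ^ M := by
    simp [hF]
  rw [hF0] at h
  show F s = _
  rw [← h, mul_assoc, ← Complex.exp_add, neg_add_cancel, Complex.exp_zero, mul_one]

end Pool.Agent.SHD
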