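import Mathlib
import Pool.Agent.SHD.Contour
import Pool.Agent.SHD.ExpRay

set_option autoImplicit false

/-!
The moving polygonal line (module PATHB).
-/

namespace Pool.Agent.SHD

open Polynomial Set Filter Topology

variable {ι : Type} [Fintype ι]

theorem pathb_segs_move (r : ℝ) (c c' : ℂ) (hc : ‖c' - c‖ ≤ r) (p : List ℂ) :
    ∀ (a a' : ℂ), ‖a' - a‖ ≤ r → ∀ x ∈ segs (a' :: (p ++ [c'])),
      ∃ y ∈ segs (a :: (p ++ [c])), ‖x - y‖ ≤ r := by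
  have key : ∀ (a a' d d' : ℂ), ‖a' - a‖ ≤ r → ‖d' - d‖ ≤ r → ∀ x ∈ segment ℝ a' d',
      ∃ y ∈ segment ℝ a d, ‖x - y‖ ≤ r := by
    intro a a' d d' ha hd x hx
    obtain ⟨s, t, hs, ht, hst, rfl⟩ := hx
    refine ⟨s • a + t • d, ⟨s, t, hs, ht, hst, rfl⟩, ?_⟩
    have h1 : s • a' + t • d' - (s • a + t • d) = s • (a' - a) + t • (d' - d) := by
      simp only [smul_sub]; ring
    rw [h1]
    calc ‖s • (a' - a) + t • (d' - d)‖ ≤ ‖s • (a' - a)‖ + ‖t • (d' - d)‖ := norm_add_le _ _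
      _ = s * ‖a' - a‖ + t * ‖d' - d‖ := by
          rw [norm_smul, norm_smul, Real.norm_of_nonneg hs, Real.norm_of_nonneg ht]
      _ ≤ s * r + t * r := by gcongr
      _ = r := by rw [← add_mul, hst, one_mul]
  induction p with
  | nil =>
    intro a a' ha x hx
    simp only [List.nil_append, segs, Set.union_empty] at hx ⊢
    exact key a a' c c' ha hc x hx
  | cons q p ih =>
    intro a a' ha x hx
    simp only [List.cons_append, segs] at hx ⊢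
    have hr : 0 ≤ r := (norm_nonneg _).trans hc
    rcases hx with hx | hx
    · obtain ⟨y, hy, hxy⟩ := key a a' q q ha (by simpa using hr) x hx
      exact ⟨y, Or.inl hy, hxy⟩
    · obtain ⟨y, hy, hxy⟩ := ih q q (by simpa using hr) x hx
      exact ⟨y, Or.inr hy, hxy⟩

/-- each point of the moved polygonal line is close to the original one -/
theorem segs_move (u v w w' : ℂ) (p : List ℂ) (x : ℂ)
    (hx : x ∈ segs ((w' + u) :: (p ++ [w' + v]))) :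
    ∃ y ∈ segs ((w + u) :: (p ++ [w + v])), ‖x - y‖ ≤ ‖w' - w‖ := by
  refine pathb_segs_move (‖w' - w‖) (w + v) (w' + v) ?_ p (w + u) (w' + u) ?_ x hx
  · rw [add_sub_add_right_eq_sub]
  · rw [add_sub_add_right_eq_sub]

theorem pathb_segs_nonempty (a c : ℂ) (p : List ℂ) : (segs (a :: (p ++ [c]))).Nonempty := by
  cases p with
  | nil =>
    simp only [List.nil_append, segs, Set.union_empty]
    exact ⟨a, left_mem_segment ℝ a c⟩
  | cons q p =>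
    simp only [List.cons_append, segs]
    exact ⟨a, Or.inl (left_mem_segment ℝ a q)⟩

theorem pathb_lev_pos (b : ι → ℂ) (z w : ℂ) (α : ℝ) (hwz : w ≠ z) (hwb : ∀ i, w ≠ b i) :
    0 < lev b z α w := by
  unfold lev
  refine div_pos (norm_pos_iff.mpr ?_) (Real.rpow_pos_of_pos (norm_pos_iff.mpr (sub_ne_zero.mpr hwz)) _)
  unfold PP
  rw [Polynomial.eval_prod]
  refine Finset.prod_ne_zero_iff.mpr fun i _ => ?_
  simpa using sub_ne_zero.mpr (hwb i)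

theorem pathb_lev_nonneg (b : ι → ℂ) (z w : ℂ) (α : ℝ) : 0 ≤ lev b z α w := by
  unfold lev; positivity

theorem path_bound (b : ι → ℂ) (z w : ℕ → ℂ) (α : ℕ → ℝ) (z₀ w₀ u v : ℂ) (α₀ : ℝ) (p : List ℂ)
    (hz : Tendsto z atTop (𝓝 z₀)) (hα : Tendsto α atTop (𝓝 α₀)) (hw : Tendsto w atTop (𝓝 w₀))
    (hwz : w₀ ≠ z₀) (hwb : ∀ i, w₀ ≠ b i)
    (path : ∀ x ∈ segs ((w₀ + u) :: (p ++ [w₀ + v])), x ≠ z₀ ∧ lev b z₀ α₀ x < lev b z₀ α₀ w₀) :
    ∃ ρ δ : ℝ, 0 < ρ ∧ ρ < 1 ∧ 0 < δ ∧ ∀ᶠ k in atTop,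
      ∀ x ∈ segs ((w k + u) :: (p ++ [w k + v])), δ ≤ ‖x - z k‖ ∧
        lev b (z k) (α k) x ≤ ρ * lev b (z k) (α k) (w k) := by
  set K : Set ℂ := segs ((w₀ + u) :: (p ++ [w₀ + v])) with hK
  have hKc : IsCompact K := segs_compact _
  have hKn : K.Nonempty := pathb_segs_nonempty _ _ _
  have hL : 0 < lev b z₀ α₀ w₀ := pathb_lev_pos b z₀ w₀ α₀ hwz hwb
  -- the minimum distance
  obtain ⟨x₁, hx₁, hmin⟩ := hKc.exists_isMinOn hKn
    (f := fun x : ℂ => ‖x - z₀‖) (by fun_prop)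
  have hd : 0 < ‖x₁ - z₀‖ := norm_pos_iff.mpr (sub_ne_zero.mpr (path x₁ hx₁).1)
  -- the maximum of lev
  have hcont : ContinuousOn (fun x : ℂ => lev b z₀ α₀ x) K := by
    intro x hx
    have h1 := lev_cont b z₀ α₀ x (path x hx).1
    have h2 : ContinuousAt (fun x : ℂ => ((z₀, α₀, x) : ℂ × ℝ × ℂ)) x := by fun_prop
    exact (ContinuousAt.comp (f := fun x : ℂ => ((z₀, α₀, x) : ℂ × ℝ × ℂ)) h1 h2).continuousWithinAt
  obtain ⟨x₂, hx₂, hmax⟩ := hKc.exists_isMaxOn hKn hcont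
  set M : ℝ := lev b z₀ α₀ x₂ / lev b z₀ α₀ w₀ with hM
  have hM0 : 0 ≤ M := div_nonneg (pathb_lev_nonneg _ _ _ _) hL.le
  have hM1 : M < 1 := (div_lt_one hL).mpr (path x₂ hx₂).2
  refine ⟨(M + 1) / 2, ‖x₁ - z₀‖ / 2, by linarith, by linarith, by linarith, ?_⟩
  have hP : ∀ y ∈ K, ∀ᶠ q : ((ℂ × ℝ × ℂ) × ℂ) × ℂ in 𝓝 (((z₀, α₀, w₀), (0 : ℂ)), y),
      ‖x₁ - z₀‖ / 2 < ‖q.2 + q.1.2 - q.1.1.1‖ ∧
      lev b q.1.1.1 q.1.1.2.1 (q.2 + q.1.2) <
        (M + 1) / 2 * lev b q.1.1.1 q.1.1.2.1 q.1.1.2.2 := by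
    intro y hy
    refine Filter.Eventually.and ?_ ?_
    · have h1 : ContinuousAt (fun q : ((ℂ × ℝ × ℂ) × ℂ) × ℂ => ‖q.2 + q.1.2 - q.1.1.1‖)
          (((z₀, α₀, w₀), (0 : ℂ)), y) := by fun_prop
      refine h1.eventually (lt_mem_nhds ?_)
      have h2 : ‖x₁ - z₀‖ ≤ ‖y - z₀‖ := hmin hy
      simp only [add_zero]
      linarith
    · have hyz : y ≠ z₀ := (path y hy).1
      have h1 : ContinuousAt (fun q : ((ℂ × ℝ × ℂ) × ℂ) × ℂ =>
          lev b q.1.1.1 q.1.1.2.1 (q.2 + q.1.2)) (((z₀, α₀, w₀), (0 : ℂ)), y) := by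
        have h2 : ContinuousAt (fun q : ((ℂ × ℝ × ℂ) × ℂ) × ℂ =>
          ((q.1.1.1, q.1.1.2.1, q.2 + q.1.2) : ℂ × ℝ × ℂ)) (((z₀, α₀, w₀), (0 : ℂ)), y) := by
          fun_prop
        refine ContinuousAt.comp (f := fun q : ((ℂ × ℝ × ℂ) × ℂ) × ℂ =>
          ((q.1.1.1, q.1.1.2.1, q.2 + q.1.2) : ℂ × ℝ × ℂ))
          (g := fun q : ℂ × ℝ × ℂ => lev b q.1 q.2.1 q.2.2) ?_ h2
        simp only [add_zero]
        exact lev_cont b z₀ α₀ y hyz
      have h3 : ContinuousAt (fun q : ((ℂ × ℝ × ℂ) × ℂ) × ℂ =>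
          (M + 1) / 2 * lev b q.1.1.1 q.1.1.2.1 q.1.1.2.2) (((z₀, α₀, w₀), (0 : ℂ)), y) := by
        refine ContinuousAt.mul continuousAt_const ?_
        have h2 : ContinuousAt (fun q : ((ℂ × ℝ × ℂ) × ℂ) × ℂ =>
          (q.1.1 : ℂ × ℝ × ℂ)) (((z₀, α₀, w₀), (0 : ℂ)), y) := by
          fun_prop
        refine ContinuousAt.comp (f := fun q : ((ℂ × ℝ × ℂ) × ℂ) × ℂ =>
          (q.1.1 : ℂ × ℝ × ℂ))
          (g := fun q : ℂ × ℝ × ℂ => lev b q.1 q.2.1 q.2.2) ?_ h2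
        exact lev_cont b z₀ α₀ w₀ hwz
      refine h1.eventually_lt h3 ?_
      simp only [add_zero]
      have h4 : lev b z₀ α₀ y ≤ lev b z₀ α₀ x₂ := hmax hy
      have h5 : lev b z₀ α₀ x₂ = M * lev b z₀ α₀ w₀ := by
        rw [hM, div_mul_cancel₀ _ hL.ne']
      rw [h5] at h4
      nlinarith
  have hE := hKc.eventually_forall_of_forall_eventually
    (P := fun (q : (ℂ × ℝ × ℂ) × ℂ) (y : ℂ) => ‖x₁ - z₀‖ / 2 < ‖y + q.2 - q.1.1‖ ∧
      lev b q.1.1 q.1.2.1 (y + q.2) < (M + 1) / 2 * lev b q.1.1 q.1.2.1 q.1.2.2) hP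
  rw [nhds_prod_eq, eventually_prod_iff] at hE
  obtain ⟨pa, hpa, pb, hpb, hE⟩ := hE
  have ht : Tendsto (fun k => ((z k, α k, w k) : ℂ × ℝ × ℂ)) atTop (𝓝 (z₀, α₀, w₀)) :=
    hz.prodMk_nhds (hα.prodMk_nhds hw)
  obtain ⟨ε, hε, hball⟩ := Metric.eventually_nhds_iff.mp hpb
  have hwε : ∀ᶠ k in atTop, dist (w k) w₀ < ε := (Metric.tendsto_nhds.mp hw) ε hε
  filter_upwards [ht.eventually hpa, hwε] with k hk1 hk2 x hx
  obtain ⟨y, hy, hxy⟩ := segs_move u v w₀ (w k) p x hx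
  have h6 : pb (x - y) := by
    apply hball
    rw [dist_zero_right]
    rw [dist_eq_norm] at hk2
    exact hxy.trans_lt hk2
  have h7 := hE hk1 h6 y hy
  have h8 : y + (x - y) = x := by ring
  simp only [h8] at h7
  exact ⟨h7.1.le, h7.2.le⟩

theorem pathb_plen_continuous (p : List ℂ) :
    Continuous (fun q : ℂ × ℂ => plen (q.1 :: (p ++ [q.2]))) := by
  have key : ∀ (p : List ℂ), (Continuous (fun c : ℂ => plen (p ++ [c]))) ∧
    Continuous (fun q : ℂ × ℂ => plen (q.1 :: (p ++ [q.2]))) := by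
    intro p
    induction p with
    | nil =>
      refine ⟨?_, ?_⟩
      · simp only [List.nil_append, plen]
        fun_prop
      · simp only [List.nil_append, plen]
        fun_prop
    | cons a p ih =>
      refine ⟨?_, ?_⟩
      · simp only [List.cons_append]
        exact ih.2.comp (by fun_prop : Continuous fun c : ℂ => ((a, c) : ℂ × ℂ))
      · simp only [List.cons_append, plen]
        have h1 : Continuous fun q : ℂ × ℂ => plen (a :: (p ++ [q.2])) :=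
          ih.2.comp (by fun_prop : Continuous fun q : ℂ × ℂ => ((a, q.2) : ℂ × ℂ))
        have h2 : Continuous fun q : ℂ × ℂ => ‖a - q.1‖ := by fun_prop
        exact h2.add h1
  exact (key p).2

theorem pathb_plen_nonneg (l : List ℂ) : 0 ≤ plen l := by
  induction l with
  | nil => simp [plen]
  | cons a l ih =>
    cases l with
    | nil => simp [plen]
    | cons c l =>
      simp only [plen]
      positivity

theorem pathb_lev_pow (b : ι → ℂ) (z x : ℂ) (n m : ℕ) (hn : n ≠ 0) :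
    (lev b z (((m : ℝ) + 1) / n) x) ^ n = ‖((PP b).eval x) ^ n / (x - z) ^ (m + 1)‖ := by
  unfold lev
  rw [div_pow, norm_div, norm_pow, norm_pow]
  congr 1
  rw [← Real.rpow_natCast, ← Real.rpow_mul (norm_nonneg _), ← Real.rpow_natCast]
  congr 1
  have : (n : ℝ) ≠ 0 := Nat.cast_ne_zero.mpr hn
  rw [div_mul_cancel₀ _ this]
  push_cast
  ring

/-- the contribution of the polygonal line is exponentially small -/
theorem path_part (b : ι → ℂ) (z w : ℕ → ℂ) (n m : ℕ → ℕ) (z₀ w₀ u v : ℂ) (α₀ : ℝ)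
    (p : List ℂ) (hn : Tendsto n atTop atTop)
    (hz : Tendsto z atTop (𝓝 z₀))
    (hα : Tendsto (fun k => ((m k : ℝ) + 1) / n k) atTop (𝓝 α₀)) (hw : Tendsto w atTop (𝓝 w₀))
    (hwz : w₀ ≠ z₀) (hwb : ∀ i, w₀ ≠ b i)
    (path : ∀ x ∈ segs ((w₀ + u) :: (p ++ [w₀ + v])), x ≠ z₀ ∧ lev b z₀ α₀ x < lev b z₀ α₀ w₀)
    (lam : ℕ → ℝ) (hlam : ∀ᶠ k in atTop, 1 / (n k : ℝ) ≤ lam k) (j : ℕ) :
    Tendsto (fun k => pint (fun x => ((PP b).eval x) ^ n k / (x - z k) ^ (m k + 1 + j))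
        ((w k + u) :: (p ++ [w k + v])) /
      (((PP b).eval (w k)) ^ n k / (w k - z k) ^ (m k + 1) * lam k)) atTop (𝓝 0) := by
  obtain ⟨ρ, δ, hρ0, hρ1, hδ, hE⟩ := path_bound b z w (fun k => ((m k : ℝ) + 1) / n k) z₀ w₀ u v α₀
    p hz hα hw hwz hwb path
  have hplen : Tendsto (fun k => plen ((w k + u) :: (p ++ [w k + v]))) atTop
      (𝓝 (plen ((w₀ + u) :: (p ++ [w₀ + v])))) := by
    have h1 : Tendsto (fun k => ((w k + u, w k + v) : ℂ × ℂ)) atTop (𝓝 (w₀ + u, w₀ + v)) :=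
      (hw.add_const u).prodMk_nhds (hw.add_const v)
    exact ((pathb_plen_continuous p).tendsto (w₀ + u, w₀ + v)).comp h1
  have hnρ : Tendsto (fun k => (n k : ℝ) * ρ ^ n k) atTop (𝓝 0) :=
    (tendsto_self_mul_const_pow_of_lt_one hρ0.le hρ1).comp hn
  have hlim : Tendsto (fun k => (δ ^ j)⁻¹ * (plen ((w k + u) :: (p ++ [w k + v])) *
      ((n k : ℝ) * ρ ^ n k))) atTop (𝓝 0) := by
    have := (hplen.mul hnρ).const_mul ((δ ^ j)⁻¹)
    simpa using this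
  refine squeeze_zero_norm' ?_ hlim
  filter_upwards [hE, hlam, hn.eventually (eventually_ge_atTop 1)] with k hk hlk hnk
  have hn0 : n k ≠ 0 := by omega
  have hnpos : (0 : ℝ) < n k := by exact_mod_cast hnk
  have hlam0 : 0 < lam k := lt_of_lt_of_le (by positivity) hlk
  set Λ : ℝ := ‖((PP b).eval (w k)) ^ n k / (w k - z k) ^ (m k + 1)‖ with hΛ
  have hΛ0 : 0 ≤ Λ := norm_nonneg _
  have hpt : ∀ x ∈ segs ((w k + u) :: (p ++ [w k + v])),
      ‖((PP b).eval x) ^ n k / (x - z k) ^ (m k + 1 + j)‖ ≤ (δ ^ j)⁻¹ * (ρ ^ n k * Λ) := by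
    intro x hx
    obtain ⟨h1, h2⟩ := hk x hx
    have h3 : ((PP b).eval x) ^ n k / (x - z k) ^ (m k + 1 + j) =
        ((x - z k) ^ j)⁻¹ * (((PP b).eval x) ^ n k / (x - z k) ^ (m k + 1)) := by
      rw [pow_add, div_mul_eq_div_div, div_eq_inv_mul]
    rw [h3, norm_mul, norm_inv, norm_pow]
    have h4 : ‖((PP b).eval x) ^ n k / (x - z k) ^ (m k + 1)‖ ≤ ρ ^ n k * Λ := by
      rw [hΛ, ← pathb_lev_pow b (z k) x (n k) (m k) hn0,
        ← pathb_lev_pow b (z k) (w k) (n k) (m k) hn0, ← mul_pow]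
      exact pow_le_pow_left₀ (pathb_lev_nonneg _ _ _ _) h2 _
    have h5 : (‖x - z k‖ ^ j)⁻¹ ≤ (δ ^ j)⁻¹ := by
      have : δ ^ j ≤ ‖x - z k‖ ^ j := pow_le_pow_left₀ hδ.le h1 j
      exact inv_anti₀ (by positivity) this
    exact mul_le_mul h5 h4 (norm_nonneg _) (by positivity)
  have hint := norm_pint_le _ _ _ hpt
  rw [norm_div, norm_mul, Complex.norm_real, Real.norm_of_nonneg hlam0.le, ← hΛ]
  have hpl : 0 ≤ plen ((w k + u) :: (p ++ [w k + v])) := pathb_plen_nonneg _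
  rcases hΛ0.eq_or_lt with h0 | hpos
  · rw [← h0, zero_mul, div_zero]
    positivity
  · rw [div_le_iff₀ (by positivity)]
    refine hint.trans ?_
    have h6 : 1 ≤ (n k : ℝ) * lam k := by
      rw [div_le_iff₀ hnpos] at hlk
      linarith [mul_comm (lam k) (n k : ℝ)]
    calc (δ ^ j)⁻¹ * (ρ ^ n k * Λ) * plen ((w k + u) :: (p ++ [w k + v]))
        = ((δ ^ j)⁻¹ * (ρ ^ n k * Λ) * plen ((w k + u) :: (p ++ [w k + v]))) * 1 := by ring
      _ ≤ ((δ ^ j)⁻¹ * (ρ ^ n k * Λ) * plen ((w k + u) :: (p ++ [w k + v]))) *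
          ((n k : ℝ) * lam k) := by
            refine mul_le_mul_of_nonneg_left h6 ?_
            positivity
      _ = _ := by ring

end Pool.Agent.SHD
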