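import Mathlib

set_option autoImplicit false

/-!
The limit of the ray integrals (module RAYL).
-/

namespace Pool.Agent.SHD

open Set Filter Topology MeasureTheory

private lemma rayl_bound {θ : ℝ → ℂ} {c L : ℝ} (hc : 0 < c)
    (hθc : ContinuousOn θ (Icc 0 L)) (h1 : ∀ x ∈ Icc 0 L, (θ x).re ≤ -c * min x (x ^ 2))
    {x : ℝ} (hx : x ∈ Icc 0 L) :
    ‖Complex.exp (∫ y in (0 : ℝ)..x, θ y)‖ ≤ Real.exp c * Real.exp (-c * x) := by
  have hsub : Icc 0 x ⊆ Icc 0 L := Icc_subset_Icc le_rfl hx.2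
  have hint : IntervalIntegrable θ volume 0 x := by
    apply ContinuousOn.intervalIntegrable
    rw [uIcc_of_le hx.1]
    exact hθc.mono hsub
  rw [Complex.norm_exp, ← Real.exp_add]
  apply Real.exp_le_exp.2
  have h2 : (∫ y in (0 : ℝ)..x, θ y).re = ∫ y in (0 : ℝ)..x, (θ y).re :=
    (Complex.reCLM.intervalIntegral_comp_comm hint).symm
  rw [h2]
  have h3 : ∫ y in (0 : ℝ)..x, (θ y).re ≤ ∫ y in (0 : ℝ)..x, (-c * (y - 1 / 4)) := by
    apply intervalIntegral.integral_mono_on hx.1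
    · apply ContinuousOn.intervalIntegrable
      rw [uIcc_of_le hx.1]
      exact Complex.continuous_re.comp_continuousOn (hθc.mono hsub)
    · exact (by fun_prop : Continuous fun y : ℝ => -c * (y - 1 / 4)).intervalIntegrable _ _
    · intro y hy
      refine (h1 y (hsub hy)).trans ?_
      have h4 : y - 1 / 4 ≤ min y (y ^ 2) := by
        apply le_min
        · linarith
        · nlinarith [sq_nonneg (y - 1 / 2)]
      nlinarith
  have h5 : ∫ y in (0 : ℝ)..x, (-c * (y - 1 / 4)) = -c * (x ^ 2 / 2 - x / 4) := by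
    rw [intervalIntegral.integral_const_mul, intervalIntegral.integral_sub
      (by exact continuous_id.intervalIntegrable _ _) (by exact intervalIntegrable_const)]
    simp only [integral_id, intervalIntegral.integral_const, smul_eq_mul]
    ring
  rw [h5] at h3
  have h6 : x - 1 ≤ x ^ 2 / 2 - x / 4 := by nlinarith [sq_nonneg (x - 5 / 4)]
  nlinarith

private lemma rayl_cont {θ φ : ℝ → ℂ} {L : ℝ} (hL : 0 ≤ L)
    (hθc : ContinuousOn θ (Icc 0 L)) (hφc : ContinuousOn φ (Icc 0 L)) :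
    ContinuousOn (fun x => Complex.exp (∫ y in (0 : ℝ)..x, θ y) * φ x) (Icc 0 L) := by
  have h1 : ContinuousOn (fun x => ∫ y in (0 : ℝ)..x, θ y) (Icc 0 L) := by
    have h2 := intervalIntegral.continuousOn_primitive_interval (μ := volume) (f := θ) (a := 0)
      (b := L) (by
        rw [uIcc_of_le hL]
        exact hθc.integrableOn_compact isCompact_Icc)
    rwa [uIcc_of_le hL] at h2
  exact (Complex.continuous_exp.comp_continuousOn h1).mul hφc

theorem ray_limit (θ : ℕ → ℝ → ℂ) (Θ : ℝ → ℂ) (φ : ℕ → ℝ → ℂ) (φ₀ : ℂ) (lam : ℕ → ℝ)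
    (c C B : ℝ) (hc : 0 < c) (hlam : ∀ k, 0 < lam k) (hlam0 : Tendsto lam atTop (𝓝 0))
    (hθc : ∀ᶠ k in atTop, ContinuousOn (θ k) (Icc 0 (1 / lam k)))
    (h1 : ∀ᶠ k in atTop, ∀ x ∈ Icc 0 (1 / lam k), (θ k x).re ≤ -c * min x (x ^ 2))
    (h2 : ∀ᶠ k in atTop, ∀ x ∈ Icc 0 (1 / lam k), ‖θ k x‖ ≤ C * (1 + x ^ 2))
    (h3 : ∀ x, 0 ≤ x → Tendsto (fun k => θ k x) atTop (𝓝 (Θ x)))
    (hφc : ∀ᶠ k in atTop, ContinuousOn (φ k) (Icc 0 (1 / lam k)))
    (hφ : ∀ᶠ k in atTop, ∀ x ∈ Icc 0 (1 / lam k), ‖φ k x‖ ≤ B)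
    (hφ3 : ∀ x, 0 ≤ x → Tendsto (fun k => φ k x) atTop (𝓝 φ₀)) :
    Tendsto (fun k => ∫ x in (0 : ℝ)..(1 / lam k),
        Complex.exp (∫ y in (0 : ℝ)..x, θ k y) * φ k x) atTop
      (𝓝 (φ₀ * ∫ x in Ioi (0 : ℝ), Complex.exp (∫ y in (0 : ℝ)..x, Θ y))) := by
  have hL : ∀ k, 0 < 1 / lam k := fun k => one_div_pos.2 (hlam k)
  have hLtop : Tendsto (fun k => 1 / lam k) atTop atTop := by
    have h4 : Tendsto lam atTop (𝓝[>] 0) :=
      tendsto_nhdsWithin_iff.2 ⟨hlam0, Eventually.of_forall hlam⟩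
    refine (h4.inv_tendsto_nhdsGT_zero).congr fun k => ?_
    rw [Pi.inv_apply, one_div]
  have e1 : ∀ k, ∫ x in (0 : ℝ)..(1 / lam k), Complex.exp (∫ y in (0 : ℝ)..x, θ k y) * φ k x =
      ∫ x in Ioi (0 : ℝ), (Ioc 0 (1 / lam k)).indicator
        (fun x => Complex.exp (∫ y in (0 : ℝ)..x, θ k y) * φ k x) x := by
    intro k
    rw [intervalIntegral.integral_of_le (hL k).le, setIntegral_indicator measurableSet_Ioc]
    congr 2
    ext x
    simp only [mem_inter_iff, mem_Ioi, mem_Ioc]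
    tauto
  have e2 : φ₀ * ∫ x in Ioi (0 : ℝ), Complex.exp (∫ y in (0 : ℝ)..x, Θ y) =
      ∫ x in Ioi (0 : ℝ), Complex.exp (∫ y in (0 : ℝ)..x, Θ y) * φ₀ := by
    rw [integral_mul_const, mul_comm]
  simp only [e1]
  rw [e2]
  refine tendsto_integral_filter_of_dominated_convergence
    (fun x => Real.exp c * Real.exp (-c * x) * |B|) ?_ ?_ ?_ ?_
  · filter_upwards [hθc, hφc] with k hk1 hk2
    have h4 := rayl_cont (hL k).le hk1 hk2
    have h5 : AEStronglyMeasurable (fun x => Complex.exp (∫ y in (0 : ℝ)..x, θ k y) * φ k x)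
        (volume.restrict (Ioc 0 (1 / lam k))) :=
      (h4.mono Ioc_subset_Icc_self).aestronglyMeasurable measurableSet_Ioc
    exact ((aestronglyMeasurable_indicator_iff measurableSet_Ioc).2 h5).restrict
  · filter_upwards [hθc, h1, hφ] with k hk1 hk2 hk3
    refine Eventually.of_forall fun x => ?_
    by_cases hx : x ∈ Ioc 0 (1 / lam k)
    · rw [indicator_of_mem hx, norm_mul]
      have hx' : x ∈ Icc 0 (1 / lam k) := Ioc_subset_Icc_self hx
      exact mul_le_mul (rayl_bound hc hk1 hk2 hx') ((hk3 x hx').trans (le_abs_self B))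
        (norm_nonneg _) (by positivity)
    · rw [indicator_of_notMem hx, norm_zero]
      positivity
  · have h4 : IntegrableOn (fun x : ℝ => Real.exp (-c * x)) (Ioi 0) := exp_neg_integrableOn_Ioi 0 hc
    exact (h4.const_mul (Real.exp c)).mul_const |B|
  · refine (ae_restrict_iff' measurableSet_Ioi).2 (Eventually.of_forall fun x hx => ?_)
    have hx0 : (0 : ℝ) < x := hx
    have hev : ∀ᶠ k in atTop, x < 1 / lam k := hLtop.eventually_gt_atTop x
    have hin : Tendsto (fun k => ∫ y in (0 : ℝ)..x, θ k y) atTop (𝓝 (∫ y in (0 : ℝ)..x, Θ y)) := by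
      refine intervalIntegral.tendsto_integral_filter_of_dominated_convergence
        (fun y => C * (1 + y ^ 2)) ?_ ?_ ?_ ?_
      · filter_upwards [hθc, hev] with k hk1 hk2
        rw [uIoc_of_le hx0.le]
        exact (hk1.mono (fun y hy => ⟨hy.1.le, hy.2.trans hk2.le⟩)).aestronglyMeasurable
          measurableSet_Ioc
      · filter_upwards [h2, hev] with k hk1 hk2
        refine Eventually.of_forall fun y hy => ?_
        rw [uIoc_of_le hx0.le] at hy
        exact hk1 y ⟨hy.1.le, hy.2.trans hk2.le⟩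
      · exact (by fun_prop : Continuous fun y : ℝ => C * (1 + y ^ 2)).intervalIntegrable _ _
      · refine Eventually.of_forall fun y hy => ?_
        rw [uIoc_of_le hx0.le] at hy
        exact h3 y hy.1.le
    have h5 : Tendsto (fun k => Complex.exp (∫ y in (0 : ℝ)..x, θ k y) * φ k x) atTop
        (𝓝 (Complex.exp (∫ y in (0 : ℝ)..x, Θ y) * φ₀)) :=
      ((Complex.continuous_exp.tendsto _).comp hin).mul (hφ3 x hx0.le)
    refine h5.congr' ?_
    filter_upwards [hev] with k hk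
    rw [indicator_of_mem (show x ∈ Ioc 0 (1 / lam k) from ⟨hx0, hk.le⟩)]

end Pool.Agent.SHD
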