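import Mathlib
import Pool.Agent.SHD.PathBound
import Pool.Agent.SHD.RayLimit

set_option autoImplicit false

/-!
The asymptotic theorem (module ASYM).
-/

namespace Pool.Agent.SHD

open Polynomial Set Filter Topology

variable {ι : Type} [Fintype ι]

/-- a ray which avoids a point stays away from it -/
theorem asym_dist (w₀ ξ y : ℂ) (h : ∀ s ∈ Icc (0 : ℝ) 1, w₀ + s * ξ ≠ y) :
    ∃ δ : ℝ, 0 < δ ∧ ∀ s ∈ Icc (0 : ℝ) 1, δ ≤ ‖w₀ + s * ξ - y‖ := by
  have hc : ContinuousOn (fun s : ℝ => ‖w₀ + s * ξ - y‖) (Icc (0 : ℝ) 1) := by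
    apply Continuous.continuousOn
    fun_prop
  obtain ⟨s₀, hs₀, hmin⟩ := isCompact_Icc.exists_isMinOn (nonempty_Icc.2 zero_le_one) hc
  refine ⟨‖w₀ + s₀ * ξ - y‖, norm_pos_iff.2 (sub_ne_zero.2 (h s₀ hs₀)), fun s hs => hmin hs⟩

/-- the moving ray stays away from the moving point -/
theorem asym_dist_seq (w y : ℕ → ℂ) (w₀ ξ y₀ : ℂ) (hw : Tendsto w atTop (𝓝 w₀))
    (hy : Tendsto y atTop (𝓝 y₀)) (h : ∀ s ∈ Icc (0 : ℝ) 1, w₀ + s * ξ ≠ y₀) :
    ∃ δ : ℝ, 0 < δ ∧ ∀ᶠ k in atTop, ∀ s ∈ Icc (0 : ℝ) 1, δ ≤ ‖w k + s * ξ - y k‖ := by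
  obtain ⟨δ, hδ, hd⟩ := asym_dist w₀ ξ y₀ h
  refine ⟨δ / 2, by positivity, ?_⟩
  have h1 : Tendsto (fun k => (w k - w₀) - (y k - y₀)) atTop (𝓝 0) := by
    have := (hw.sub_const w₀).sub (hy.sub_const y₀)
    simpa using this
  have h2 : ∀ᶠ k in atTop, ‖(w k - w₀) - (y k - y₀)‖ < δ / 2 := by
    have := h1.norm
    rw [norm_zero] at this
    exact this.eventually_lt_const (by positivity)
  filter_upwards [h2] with k hk s hs
  have h3 := hd s hs
  have h4 : w₀ + s * ξ - y₀ = (w k + s * ξ - y k) - ((w k - w₀) - (y k - y₀)) := by ring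
  have h5 : ‖w₀ + s * ξ - y₀‖ ≤ ‖w k + s * ξ - y k‖ + ‖(w k - w₀) - (y k - y₀)‖ := by
    rw [h4]
    exact norm_sub_le _ _
  linarith

/-- the moving ray stays away from the moving point and the zeros -/
theorem asym_away (b : ι → ℂ) (z w : ℕ → ℂ) (z₀ w₀ ξ : ℂ) (hz : Tendsto z atTop (𝓝 z₀))
    (hw : Tendsto w atTop (𝓝 w₀))
    (hav : ∀ s ∈ Icc (0 : ℝ) 1, w₀ + s * ξ ≠ z₀ ∧ ∀ i, w₀ + s * ξ ≠ b i) :
    ∃ δ : ℝ, 0 < δ ∧ ∀ᶠ k in atTop, ∀ s ∈ Icc (0 : ℝ) 1, δ ≤ ‖w k + s * ξ - z k‖ ∧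
      ∀ i, w k + s * ξ ≠ b i := by
  obtain ⟨δ, hδ, h1⟩ := asym_dist_seq w z w₀ ξ z₀ hw hz (fun s hs => (hav s hs).1)
  have h2 : ∀ i : ι, ∀ᶠ k in atTop, ∀ s ∈ Icc (0 : ℝ) 1, w k + s * ξ ≠ b i := by
    intro i
    obtain ⟨δ', hδ', h3⟩ := asym_dist_seq w (fun _ => b i) w₀ ξ (b i) hw tendsto_const_nhds
      (fun s hs => (hav s hs).2 i)
    filter_upwards [h3] with k hk s hs he
    have := hk s hs
    rw [he, sub_self, norm_zero] at this
    linarith
  refine ⟨δ, hδ, ?_⟩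
  filter_upwards [h1, eventually_all.2 h2] with k hk1 hk2 s hs
  exact ⟨hk1 s hs, fun i => hk2 i s hs⟩

/-- the ray integral in the rescaled variable -/
theorem asym_seg (b : ι → ℂ) (z w ξ : ℂ) (n m : ℕ) (hn : 1 ≤ n)
    (hav : ∀ s ∈ Icc (0 : ℝ) 1, w + s * ξ ≠ z ∧ ∀ i, w + s * ξ ≠ b i) (lam : ℝ)
    (hlam : 0 < lam) (j : ℕ) :
    seg (fun x => ((PP b).eval x) ^ n / (x - z) ^ (m + 1 + j)) w (w + ξ) =
      ((PP b).eval w) ^ n / (w - z) ^ (m + 1) * lam * (ξ *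
        ∫ x in (0 : ℝ)..(1 / lam), Complex.exp (∫ y in (0 : ℝ)..x,
          n * lam * ξ * ff b z (((m : ℝ) + 1) / n) (w + lam * y * ξ)) *
            ((w + lam * x * ξ - z)⁻¹) ^ j) := by
  have hlam' : lam ≠ 0 := hlam.ne'
  set A : ℂ := ((PP b).eval w) ^ n / (w - z) ^ (m + 1) with hA
  -- the integrand
  have h1 : ∀ s ∈ Icc (0 : ℝ) 1,
      ((PP b).eval (w + s * ξ)) ^ n / (w + s * ξ - z) ^ (m + 1 + j) =
      A * Complex.exp (∫ y in (0 : ℝ)..s, n * ξ * ff b z (((m : ℝ) + 1) / n) (w + y * ξ)) *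
        ((w + s * ξ - z)⁻¹) ^ j := by
    intro s hs
    have := ray_exp b z w ξ n (m + 1) hn hav s hs
    rw [pow_add, ← div_div, this, inv_pow, ← div_eq_mul_inv]
    push_cast
    rfl
  have h2 : seg (fun x => ((PP b).eval x) ^ n / (x - z) ^ (m + 1 + j)) w (w + ξ) =
      ∫ s in (0 : ℝ)..1, A * ξ *
        (Complex.exp (∫ y in (0 : ℝ)..s, n * ξ * ff b z (((m : ℝ) + 1) / n) (w + y * ξ)) *
        ((w + s * ξ - z)⁻¹) ^ j) := by
    unfold seg
    apply intervalIntegral.integral_congr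
    intro s hs
    rw [uIcc_of_le zero_le_one] at hs
    show (fun x => ((PP b).eval x) ^ n / (x - z) ^ (m + 1 + j)) (w + s * (w + ξ - w)) *
      (w + ξ - w) = _
    rw [add_sub_cancel_left]
    show ((PP b).eval (w + s * ξ)) ^ n / (w + s * ξ - z) ^ (m + 1 + j) * ξ = _
    rw [h1 s hs]
    ring
  rw [h2, intervalIntegral.integral_const_mul]
  have h3 := intervalIntegral.smul_integral_comp_mul_left (a := 0) (b := 1 / lam)
    (fun s : ℝ =>
      Complex.exp (∫ y in (0 : ℝ)..s, n * ξ * ff b z (((m : ℝ) + 1) / n) (w + y * ξ)) *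
        ((w + s * ξ - z)⁻¹) ^ j) lam
  rw [mul_zero, mul_one_div_cancel hlam'] at h3
  rw [← h3]
  have h4 : ∀ x : ℝ, (∫ y in (0 : ℝ)..(lam * x), n * ξ * ff b z (((m : ℝ) + 1) / n) (w + y * ξ)) =
      ∫ y in (0 : ℝ)..x, n * lam * ξ * ff b z (((m : ℝ) + 1) / n) (w + lam * y * ξ) := by
    intro x
    have h5 := intervalIntegral.smul_integral_comp_mul_left (a := 0) (b := x)
      (fun y : ℝ => n * ξ * ff b z (((m : ℝ) + 1) / n) (w + y * ξ)) lam
    rw [mul_zero] at h5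
    rw [← h5, ← intervalIntegral.integral_smul]
    apply intervalIntegral.integral_congr
    intro y _
    show lam • (n * ξ * ff b z (((m : ℝ) + 1) / n) (w + (lam * y : ℝ) * ξ)) = _
    rw [Complex.real_smul]
    push_cast
    ring
  have h6 : (∫ x in (0 : ℝ)..(1 / lam),
      (fun s : ℝ => Complex.exp (∫ y in (0 : ℝ)..s, n * ξ * ff b z (((m : ℝ) + 1) / n) (w + y * ξ)) *
        ((w + s * ξ - z)⁻¹) ^ j) (lam * x)) = ∫ x in (0 : ℝ)..(1 / lam),
        Complex.exp (∫ y in (0 : ℝ)..x,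
          n * lam * ξ * ff b z (((m : ℝ) + 1) / n) (w + lam * y * ξ)) *
            ((w + lam * x * ξ - z)⁻¹) ^ j := by
    apply intervalIntegral.integral_congr
    intro x _
    show Complex.exp (∫ y in (0 : ℝ)..(lam * x), n * ξ * ff b z (((m : ℝ) + 1) / n) (w + y * ξ)) *
        ((w + (lam * x : ℝ) * ξ - z)⁻¹) ^ j = _
    rw [h4 x]
    push_cast
    rfl
  rw [h6, Complex.real_smul]
  ring

/-- the contribution of a ray -/
theorem ray_part (b : ι → ℂ) (z w : ℕ → ℂ) (n m : ℕ → ℕ) (z₀ w₀ ξ : ℂ)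
    (hn : Tendsto n atTop atTop) (hz : Tendsto z atTop (𝓝 z₀)) (hw : Tendsto w atTop (𝓝 w₀))
    (hav : ∀ s ∈ Icc (0 : ℝ) 1, w₀ + s * ξ ≠ z₀ ∧ ∀ i, w₀ + s * ξ ≠ b i)
    (lam : ℕ → ℝ) (hlam : ∀ k, 0 < lam k) (hlam0 : Tendsto lam atTop (𝓝 0)) (Θ : ℝ → ℂ)
    (hR : RayHyp b z (fun k => ((m k : ℝ) + 1) / n k) n w lam ξ Θ) (j : ℕ) :
    Tendsto (fun k => seg (fun x => ((PP b).eval x) ^ n k / (x - z k) ^ (m k + 1 + j))
        (w k) (w k + ξ) /
      (((PP b).eval (w k)) ^ n k / (w k - z k) ^ (m k + 1) * lam k)) atTop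
      (𝓝 (((w₀ - z₀)⁻¹) ^ j *
        (ξ * ∫ x in Ioi (0 : ℝ), Complex.exp (∫ y in (0 : ℝ)..x, Θ y)))) := by
  obtain ⟨δ, hδ, haway⟩ := asym_away b z w z₀ w₀ ξ hz hw hav
  obtain ⟨c, C, hc, hb⟩ := hR.bound
  have hw0 : w₀ ≠ z₀ := by
    have := (hav 0 ⟨le_rfl, zero_le_one⟩).1
    simpa using this
  -- membership of the rescaled variable
  have hmem : ∀ k, ∀ x ∈ Icc (0 : ℝ) (1 / lam k), lam k * x ∈ Icc (0 : ℝ) 1 := by
    intro k x hx
    refine ⟨mul_nonneg (hlam k).le hx.1, ?_⟩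
    have := mul_le_mul_of_nonneg_left hx.2 (hlam k).le
    rwa [mul_one_div_cancel (hlam k).ne'] at this
  have key := ray_limit
    (fun k x => n k * lam k * ξ * ff b (z k) (((m k : ℝ) + 1) / n k) (w k + lam k * x * ξ)) Θ
    (fun k x => ((w k + lam k * x * ξ - z k)⁻¹) ^ j) (((w₀ - z₀)⁻¹) ^ j) lam c C ((δ⁻¹) ^ j)
    hc hlam hlam0 ?_ ?_ ?_ hR.lim ?_ ?_ ?_
  · -- conclusion
    have h1 := key.const_mul ξ
    have h2 : ξ * (((w₀ - z₀)⁻¹) ^ j *
        ∫ x in Ioi (0 : ℝ), Complex.exp (∫ y in (0 : ℝ)..x, Θ y)) = ((w₀ - z₀)⁻¹) ^ j *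
        (ξ * ∫ x in Ioi (0 : ℝ), Complex.exp (∫ y in (0 : ℝ)..x, Θ y)) := by ring
    rw [h2] at h1
    refine h1.congr' ?_
    filter_upwards [haway, hn.eventually_ge_atTop 1] with k hk hnk
    have hav' : ∀ s ∈ Icc (0 : ℝ) 1, w k + s * ξ ≠ z k ∧ ∀ i, w k + s * ξ ≠ b i := by
      intro s hs
      refine ⟨fun he => ?_, (hk s hs).2⟩
      have := (hk s hs).1
      rw [he, sub_self, norm_zero] at this
      linarith
    rw [asym_seg b (z k) (w k) ξ (n k) (m k) hnk hav' (lam k) (hlam k) j]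
    have hne : ((PP b).eval (w k)) ^ n k / (w k - z k) ^ (m k + 1) * (lam k : ℂ) ≠ 0 := by
      have h0 := hav' 0 ⟨le_rfl, zero_le_one⟩
      simp only [Complex.ofReal_zero, zero_mul, add_zero] at h0
      refine mul_ne_zero (div_ne_zero (pow_ne_zero _ ?_) (pow_ne_zero _ (sub_ne_zero.2 h0.1)))
        (Complex.ofReal_ne_zero.2 (hlam k).ne')
      rw [PP_eval]
      exact Finset.prod_ne_zero_iff.2 fun i _ => sub_ne_zero.2 (h0.2 i)
    rw [mul_div_cancel_left₀ _ hne]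
  · -- continuity of θ
    filter_upwards [haway] with k hk x hx
    have hs := hmem k x hx
    have h0 := hk _ hs
    push_cast at h0
    have hne : w k + lam k * x * ξ ≠ z k := by
      intro he
      have := h0.1
      rw [he, sub_self, norm_zero] at this
      linarith
    have h1 := (ff_hasDeriv b (z k) (((m k : ℝ) + 1) / n k) (w k + lam k * x * ξ) h0.2 hne).continuousAt
    have h2 : ContinuousAt (fun x : ℝ => w k + lam k * x * ξ) x := by fun_prop
    have h3 : ContinuousAt (fun x : ℝ => ff b (z k) (((m k : ℝ) + 1) / n k)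
        (w k + lam k * x * ξ)) x := ContinuousAt.comp_of_eq h1 h2 rfl
    exact (continuousAt_const.mul h3).continuousWithinAt
  · filter_upwards [hb] with k hk x hx
    exact (hk x hx).1
  · filter_upwards [hb] with k hk x hx
    exact (hk x hx).2
  · filter_upwards [haway] with k hk x hx
    have hs := hmem k x hx
    have h0 := hk _ hs
    push_cast at h0
    have hne : w k + lam k * x * ξ - z k ≠ 0 := by
      intro he
      have := h0.1
      rw [he, norm_zero] at this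
      linarith
    have h2 : ContinuousAt (fun x : ℝ => w k + lam k * x * ξ - z k) x := by fun_prop
    exact ((h2.inv₀ hne).pow j).continuousWithinAt
  · filter_upwards [haway] with k hk x hx
    have hs := hmem k x hx
    have h0 := (hk _ hs).1
    push_cast at h0
    rw [norm_pow, norm_inv]
    exact pow_le_pow_left₀ (by positivity) (inv_anti₀ hδ h0) j
  · intro x hx
    have h1 : Tendsto (fun k => w k + lam k * x * ξ - z k) atTop (𝓝 (w₀ + 0 * x * ξ - z₀)) := by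
      have h2 : Tendsto (fun k => (lam k : ℂ)) atTop (𝓝 0) := by
        have := (Complex.continuous_ofReal.tendsto 0).comp hlam0
        rw [Complex.ofReal_zero] at this
        exact this
      exact (hw.add ((h2.mul_const _).mul_const _)).sub hz
    have h3 : w₀ + 0 * x * ξ - z₀ = w₀ - z₀ := by ring
    rw [h3] at h1
    exact (h1.inv₀ (sub_ne_zero.2 hw0)).pow j

/-- the integral over the closed polygon -/
theorem asym_split (g : ℂ → ℂ) (a u v : ℂ) (p : List ℂ) :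
    pint g (a :: (((a + u) :: (p ++ [a + v])) ++ [a])) =
      seg g a (a + u) + pint g ((a + u) :: (p ++ [a + v])) - seg g a (a + v) := by
  have h1 : a :: (((a + u) :: (p ++ [a + v])) ++ [a]) =
      (a :: (a + u) :: p) ++ [a + v, a] := by simp
  rw [h1, pint_concat, seg_symm g a (a + v)]
  have h2 : (a :: (a + u) :: p) ++ [a + v] = a :: (a + u) :: (p ++ [a + v]) := by simp
  rw [h2, pint_cons]
  ring

/-- the closed polygon as a set -/
theorem asym_segs (a u v x : ℂ) (p : List ℂ)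
    (hx : x ∈ segs (a :: (((a + u) :: (p ++ [a + v])) ++ [a]))) :
    x ∈ segment ℝ a (a + u) ∨ x ∈ segs ((a + u) :: (p ++ [a + v])) ∨ x ∈ segment ℝ a (a + v) := by
  have h1 : a :: (((a + u) :: (p ++ [a + v])) ++ [a]) =
      (a :: (a + u) :: p) ++ [a + v, a] := by simp
  rw [h1, segs_concat] at hx
  have h2 : (a :: (a + u) :: p) ++ [a + v] = a :: (a + u) :: (p ++ [a + v]) := by simp
  rw [h2] at hx
  rcases hx with hx | hx
  · rcases hx with hx | hx
    · exact Or.inl hx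
    · exact Or.inr (Or.inl hx)
  · rw [segment_symm] at hx
    exact Or.inr (Or.inr hx)

/-- points of a ray -/
theorem asym_mem_ray (a u x : ℂ) (hx : x ∈ segment ℝ a (a + u)) :
    ∃ s ∈ Icc (0 : ℝ) 1, x = a + s * u := by
  rw [segment_eq_image'] at hx
  obtain ⟨s, hs, rfl⟩ := hx
  refine ⟨s, hs, ?_⟩
  show a + s • (a + u - a) = _
  rw [add_sub_cancel_left, Complex.real_smul]

theorem main_asymp (b : ι → ℂ) (z w : ℕ → ℂ) (n m : ℕ → ℕ) (z₀ w₀ u v : ℂ) (α₀ : ℝ)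
    (p : List ℂ) (hn : Tendsto n atTop atTop) (hz : Tendsto z atTop (𝓝 z₀))
    (hα : Tendsto (fun k => ((m k : ℝ) + 1) / n k) atTop (𝓝 α₀)) (hw : Tendsto w atTop (𝓝 w₀))
    (havu : ∀ s ∈ Icc (0 : ℝ) 1, w₀ + s * u ≠ z₀ ∧ ∀ i, w₀ + s * u ≠ b i)
    (havv : ∀ s ∈ Icc (0 : ℝ) 1, w₀ + s * v ≠ z₀ ∧ ∀ i, w₀ + s * v ≠ b i)
    (path : ∀ x ∈ segs ((w₀ + u) :: (p ++ [w₀ + v])), x ≠ z₀ ∧ lev b z₀ α₀ x < lev b z₀ α₀ w₀)
    (lam : ℕ → ℝ) (hlam : ∀ k, 0 < lam k) (hlam0 : Tendsto lam atTop (𝓝 0))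
    (hlam1 : ∀ᶠ k in atTop, 1 / (n k : ℝ) ≤ lam k) (Θu Θv : ℝ → ℂ)
    (hu : RayHyp b z (fun k => ((m k : ℝ) + 1) / n k) n w lam u Θu)
    (hv : RayHyp b z (fun k => ((m k : ℝ) + 1) / n k) n w lam v Θv)
    (hne : (u * ∫ x in Ioi (0 : ℝ), Complex.exp (∫ y in (0 : ℝ)..x, Θu y)) -
      (v * ∫ x in Ioi (0 : ℝ), Complex.exp (∫ y in (0 : ℝ)..x, Θv y)) ≠ 0) :
    (∀ᶠ k in atTop, Tn b (n k) (m k) (z k) ≠ 0) ∧
      Tendsto (fun k => Tn b (n k) (m k + 1) (z k) / Tn b (n k) (m k) (z k)) atTop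
        (𝓝 ((w₀ - z₀)⁻¹)) := by
  have h00 := havu 0 ⟨le_rfl, zero_le_one⟩
  simp only [Complex.ofReal_zero, zero_mul, add_zero] at h00
  obtain ⟨hwz, hwb⟩ := h00
  obtain ⟨δu, hδu, hau⟩ := asym_away b z w z₀ w₀ u hz hw havu
  obtain ⟨δv, hδv, hav⟩ := asym_away b z w z₀ w₀ v hz hw havv
  obtain ⟨ρ, δ, -, -, hδ, hpb⟩ := path_bound b z w (fun k => ((m k : ℝ) + 1) / n k) z₀ w₀ u v α₀ p
    hz hα hw hwz hwb path
  set D : ℂ := (u * ∫ x in Ioi (0 : ℝ), Complex.exp (∫ y in (0 : ℝ)..x, Θu y)) -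
      (v * ∫ x in Ioi (0 : ℝ), Complex.exp (∫ y in (0 : ℝ)..x, Θv y)) with hD
  -- the polygon avoids `z k`
  have hoff : ∀ᶠ k in atTop,
      z k ∉ segs (w k :: (((w k + u) :: (p ++ [w k + v])) ++ [w k])) := by
    filter_upwards [hau, hav, hpb] with k h1 h2 h3 hk
    rcases asym_segs (w k) u v (z k) p hk with h | h | h
    · obtain ⟨s, hs, he⟩ := asym_mem_ray _ _ _ h
      have := (h1 s hs).1
      rw [← he, sub_self, norm_zero] at this
      linarith
    · have := (h3 _ h).1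
      rw [sub_self, norm_zero] at this
      linarith
    · obtain ⟨s, hs, he⟩ := asym_mem_ray _ _ _ h
      have := (h2 s hs).1
      rw [← he, sub_self, norm_zero] at this
      linarith
  set W : ℕ → ℂ := fun k =>
    pint (fun x => (x - z k)⁻¹) (w k :: (((w k + u) :: (p ++ [w k + v])) ++ [w k])) with hW
  set A : ℕ → ℂ := fun k =>
    ((PP b).eval (w k)) ^ n k / (w k - z k) ^ (m k + 1) * lam k with hA
  -- the two coefficients
  have hj : ∀ j : ℕ, j ≤ 1 → Tendsto (fun k => Tn b (n k) (m k + j) (z k) * W k / A k) atTop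
      (𝓝 (((w₀ - z₀)⁻¹) ^ j * D)) := by
    intro j hj1
    have e1 := ray_part b z w n m z₀ w₀ u hn hz hw havu lam hlam hlam0 Θu hu j
    have e2 := ray_part b z w n m z₀ w₀ v hn hz hw havv lam hlam hlam0 Θv hv j
    have e3 := path_part b z w n m z₀ w₀ u v α₀ p hn hz hα hw hwz hwb path lam hlam1 j
    have e4 := (e1.add e3).sub e2
    have e5 : ((w₀ - z₀)⁻¹) ^ j * (u * ∫ x in Ioi (0 : ℝ), Complex.exp (∫ y in (0 : ℝ)..x, Θu y)) +
        0 - ((w₀ - z₀)⁻¹) ^ j * (v * ∫ x in Ioi (0 : ℝ), Complex.exp (∫ y in (0 : ℝ)..x, Θv y)) =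
        ((w₀ - z₀)⁻¹) ^ j * D := by
      rw [hD]
      ring
    rw [e5] at e4
    refine e4.congr' ?_
    filter_upwards [hoff] with k hk
    have e6 : Tn b (n k) (m k + j) (z k) * W k =
        pint (fun x => ((PP b).eval x) ^ n k / (x - z k) ^ (m k + 1 + j))
          (w k :: (((w k + u) :: (p ++ [w k + v])) ++ [w k])) := by
      have := pint_main b (n k) (m k + j) (z k) (w k) ((w k + u) :: (p ++ [w k + v])) hk
      rw [add_right_comm (m k) j 1] at this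
      exact this.symm
    rw [e6, asym_split, hA]
    ring
  have h0 := hj 0 (by norm_num)
  have h1 := hj 1 le_rfl
  rw [pow_zero, one_mul] at h0
  rw [pow_one] at h1
  simp only [add_zero] at h0
  have hev : ∀ᶠ k in atTop, Tn b (n k) (m k) (z k) * W k / A k ≠ 0 := h0.eventually_ne hne
  refine ⟨?_, ?_⟩
  · filter_upwards [hev] with k hk he
    rw [he, zero_mul, zero_div] at hk
    exact hk rfl
  · have h2 := h1.div h0 hne
    rw [mul_div_cancel_right₀ _ hne] at h2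
    refine h2.congr' ?_
    filter_upwards [hev] with k hk
    have hT : Tn b (n k) (m k) (z k) ≠ 0 := by
      intro he
      rw [he, zero_mul, zero_div] at hk
      exact hk rfl
    have hWk : W k ≠ 0 := by
      intro he
      rw [he, mul_zero, zero_div] at hk
      exact hk rfl
    have hAk : A k ≠ 0 := by
      intro he
      rw [he, div_zero] at hk
      exact hk rfl
    show Tn b (n k) (m k + 1) (z k) * W k / A k / (Tn b (n k) (m k) (z k) * W k / A k) = _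
    field_simp

end Pool.Agent.SHD
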