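import Mathlib
import Pool.Agent.SHD.AiryLim
import Pool.Agent.SHD.Asym

set_option autoImplicit false

/-!
Double saddle points (module AIRYSEQ).
-/

namespace Pool.Agent.SHD

open Polynomial Set Filter Topology

variable {ι : Type} [Fintype ι]

/-- the scale -/
noncomputable def alam (n : ℕ) (g : ℂ) : ℝ :=
  if g = 0 then (max 1 (n : ℝ)) ^ (-(1 / 3 : ℝ))
  else min ((max 1 (n : ℝ)) ^ (-(1 / 3 : ℝ))) ((max 1 (n : ℝ) * ‖g‖) ^ (-(1 / 2 : ℝ)))

private theorem airyseq_pow3 {x : ℝ} (hx : 0 < x) : (x ^ (-(1 / 3 : ℝ))) ^ 3 = x⁻¹ := by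
  rw [← Real.rpow_natCast, ← Real.rpow_mul hx.le]
  norm_num
  exact Real.rpow_neg_one x

private theorem airyseq_pow2 {x : ℝ} (hx : 0 < x) : (x ^ (-(1 / 2 : ℝ))) ^ 2 = x⁻¹ := by
  rw [← Real.rpow_natCast, ← Real.rpow_mul hx.le]
  norm_num
  exact Real.rpow_neg_one x

private theorem airyseq_pos (n : ℕ) (g : ℂ) : 0 < alam n g := by
  unfold alam
  have h1 : (0 : ℝ) < max 1 (n : ℝ) := lt_max_of_lt_left one_pos
  split_ifs with h
  · exact Real.rpow_pos_of_pos h1 _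
  · have h2 : 0 < ‖g‖ := norm_pos_iff.2 h
    exact lt_min (Real.rpow_pos_of_pos h1 _) (Real.rpow_pos_of_pos (mul_pos h1 h2) _)

private theorem airyseq_le (n : ℕ) (g : ℂ) : alam n g ≤ (max 1 (n : ℝ)) ^ (-(1 / 3 : ℝ)) := by
  unfold alam
  split_ifs with h
  · exact le_rfl
  · exact min_le_left _ _

theorem alam_facts (n : ℕ → ℕ) (g : ℕ → ℂ) (hn : Tendsto n atTop atTop)
    (hg : Tendsto g atTop (𝓝 0)) :
    (∀ k, 0 < alam (n k) (g k)) ∧ Tendsto (fun k => alam (n k) (g k)) atTop (𝓝 0) ∧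
    (∀ᶠ k in atTop, 1 / (n k : ℝ) ≤ alam (n k) (g k)) ∧
    (∀ᶠ k in atTop, (n k : ℝ) * alam (n k) (g k) ^ 3 ≤ 1 ∧
      (n k : ℝ) * alam (n k) (g k) ^ 2 * ‖g k‖ ≤ 1 ∧
      ((n k : ℝ) * alam (n k) (g k) ^ 3 = 1 ∨ (n k : ℝ) * alam (n k) (g k) ^ 2 * ‖g k‖ = 1)) := by
  have hpos : ∀ k, 0 < alam (n k) (g k) := fun k => airyseq_pos _ _
  have hn1 : ∀ᶠ k in atTop, 1 ≤ n k := hn.eventually_ge_atTop 1
  have hg1 : ∀ᶠ k in atTop, ‖g k‖ < 1 := by
    have := hg.norm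
    rw [norm_zero] at this
    exact this.eventually_lt_const one_pos
  refine ⟨hpos, ?_, ?_, ?_⟩
  · have h1 : Tendsto (fun k => (max 1 (n k : ℝ)) ^ (-(1 / 3 : ℝ))) atTop (𝓝 0) := by
      have h2 : Tendsto (fun k => max 1 (n k : ℝ)) atTop atTop :=
        tendsto_atTop_mono (fun k => le_max_right _ _) (tendsto_natCast_atTop_atTop.comp hn)
      exact (tendsto_rpow_neg_atTop (by norm_num)).comp h2
    exact squeeze_zero (fun k => (hpos k).le) (fun k => airyseq_le _ _) h1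
  · filter_upwards [hn1, hg1] with k hk hk1
    have h1 : (1 : ℝ) ≤ n k := by exact_mod_cast hk
    have h0 : (0 : ℝ) < n k := by linarith
    have e1 : 1 / (n k : ℝ) = (n k : ℝ) ^ (-1 : ℝ) := by
      rw [Real.rpow_neg_one, one_div]
    have e2 : (n k : ℝ) ^ (-1 : ℝ) ≤ (n k : ℝ) ^ (-(1 / 3 : ℝ)) :=
      Real.rpow_le_rpow_of_exponent_le h1 (by norm_num)
    unfold alam
    rw [max_eq_right h1]
    split_ifs with h
    · rw [e1]
      exact e2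
    · refine le_min (by rw [e1]; exact e2) ?_
      have h2 : 0 < ‖g k‖ := norm_pos_iff.2 h
      have h3 : 0 < (n k : ℝ) * ‖g k‖ := mul_pos h0 h2
      have h4 : (n k : ℝ) * ‖g k‖ ≤ n k := by nlinarith
      have h5 : (n k : ℝ) ^ (-(1 / 2 : ℝ)) ≤ ((n k : ℝ) * ‖g k‖) ^ (-(1 / 2 : ℝ)) :=
        Real.rpow_le_rpow_of_nonpos h3 h4 (by norm_num)
      have h6 : (n k : ℝ) ^ (-1 : ℝ) ≤ (n k : ℝ) ^ (-(1 / 2 : ℝ)) :=
        Real.rpow_le_rpow_of_exponent_le h1 (by norm_num)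
      rw [e1]
      exact h6.trans h5
  · filter_upwards [hn1] with k hk
    have h1 : (1 : ℝ) ≤ n k := by exact_mod_cast hk
    have h0 : (0 : ℝ) < n k := by linarith
    have hle := airyseq_le (n k) (g k)
    have hp := hpos k
    rw [max_eq_right h1] at hle
    have hA : (n k : ℝ) * alam (n k) (g k) ^ 3 ≤ 1 := by
      have h2 := pow_le_pow_left₀ hp.le hle 3
      rw [airyseq_pow3 h0] at h2
      have h3 := mul_le_mul_of_nonneg_left h2 h0.le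
      rwa [mul_inv_cancel₀ h0.ne'] at h3
    by_cases h : g k = 0
    · have e : alam (n k) (g k) = (n k : ℝ) ^ (-(1 / 3 : ℝ)) := by
        unfold alam
        rw [if_pos h, max_eq_right h1]
      refine ⟨hA, ?_, Or.inl ?_⟩
      · rw [h, norm_zero, mul_zero]
        exact zero_le_one
      · rw [e, airyseq_pow3 h0, mul_inv_cancel₀ h0.ne']
    · have h2 : 0 < ‖g k‖ := norm_pos_iff.2 h
      have h3 : 0 < (n k : ℝ) * ‖g k‖ := mul_pos h0 h2
      have e : alam (n k) (g k) = min ((n k : ℝ) ^ (-(1 / 3 : ℝ)))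
          (((n k : ℝ) * ‖g k‖) ^ (-(1 / 2 : ℝ))) := by
        unfold alam
        rw [if_neg h, max_eq_right h1]
      have e3 : (n k : ℝ) * (((n k : ℝ) * ‖g k‖) ^ (-(1 / 2 : ℝ))) ^ 2 * ‖g k‖ = 1 := by
        rw [airyseq_pow2 h3]
        field_simp
      have hB : (n k : ℝ) * alam (n k) (g k) ^ 2 * ‖g k‖ ≤ 1 := by
        have h4 : alam (n k) (g k) ≤ ((n k : ℝ) * ‖g k‖) ^ (-(1 / 2 : ℝ)) := by
          rw [e]
          exact min_le_right _ _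
        have h5 := pow_le_pow_left₀ hp.le h4 2
        have h6 := mul_le_mul_of_nonneg_right (mul_le_mul_of_nonneg_left h5 h0.le) h2.le
        rwa [e3] at h6
      refine ⟨hA, hB, ?_⟩
      rcases min_choice ((n k : ℝ) ^ (-(1 / 3 : ℝ)))
          (((n k : ℝ) * ‖g k‖) ^ (-(1 / 2 : ℝ))) with h7 | h7
      · left
        rw [e, h7, airyseq_pow3 h0, mul_inv_cancel₀ h0.ne']
      · right
        rw [e, h7]
        exact e3

private theorem airyseq_deriv1 (b : ι → ℂ) (z w ξ : ℂ) (α y : ℝ)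
    (hz : w + y * ξ ≠ z) (hb : ∀ i, w + y * ξ ≠ b i) :
    HasDerivAt (fun s : ℝ => ξ * ff b z α (w + s * ξ)) (ξ ^ 2 * ff1 b z α (w + y * ξ)) y := by
  have h1 : HasDerivAt (fun s : ℝ => w + (s : ℂ) * ξ) (1 * ξ) y := by
    have h2 : HasDerivAt (fun s : ℝ => (s : ℂ)) 1 y := Complex.ofRealCLM.hasDerivAt
    exact (h2.mul_const ξ).const_add w
  have h3 := (ff_hasDeriv b z α (w + y * ξ) hb hz).comp (y : ℝ) h1
  have h4 := h3.const_mul ξ
  have h5 : ξ ^ 2 * ff1 b z α (w + y * ξ) = ξ * (ff1 b z α (w + y * ξ) * (1 * ξ)) := by ring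
  rw [h5]
  exact h4

private theorem airyseq_deriv2 (b : ι → ℂ) (z w ξ : ℂ) (α y : ℝ)
    (hz : w + y * ξ ≠ z) (hb : ∀ i, w + y * ξ ≠ b i) :
    HasDerivAt (fun s : ℝ => ξ ^ 2 * ff1 b z α (w + s * ξ))
      (ξ ^ 3 * ff2 b z α (w + y * ξ)) y := by
  have h1 : HasDerivAt (fun s : ℝ => w + (s : ℂ) * ξ) (1 * ξ) y := by
    have h2 : HasDerivAt (fun s : ℝ => (s : ℂ)) 1 y := Complex.ofRealCLM.hasDerivAt
    exact (h2.mul_const ξ).const_add w
  have h3 := (ff1_hasDeriv b z α (w + y * ξ) hb hz).comp (y : ℝ) h1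
  have h4 := h3.const_mul (ξ ^ 2)
  have h5 : ξ ^ 3 * ff2 b z α (w + y * ξ) = ξ ^ 2 * (ff2 b z α (w + y * ξ) * (1 * ξ)) := by ring
  rw [h5]
  exact h4

/-- comparison of `ξ f` with a quadratic function -/
private theorem airyseq_quad (b : ι → ℂ) (z w ξ A : ℂ) (α s ε : ℝ) (hs : 0 ≤ s)
    (hf : ff b z α w = 0)
    (hav : ∀ y ∈ Icc (0 : ℝ) s, w + y * ξ ≠ z ∧ ∀ i, w + y * ξ ≠ b i)
    (hA : ∀ y ∈ Icc (0 : ℝ) s, ‖ξ ^ 3 * ff2 b z α (w + y * ξ) - A‖ ≤ ε) :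
    ‖ξ * ff b z α (w + s * ξ) - s * (ξ ^ 2 * ff1 b z α w) - s ^ 2 / 2 * A‖ ≤ ε * s ^ 2 := by
  have hε : 0 ≤ ε := (norm_nonneg _).trans (hA 0 ⟨le_rfl, hs⟩)
  have step1 : ∀ y ∈ Icc (0 : ℝ) s,
      ‖ξ ^ 2 * ff1 b z α (w + y * ξ) - ξ ^ 2 * ff1 b z α w - y * A‖ ≤ ε * s := by
    intro y hy
    have hsub : ∀ x ∈ Icc (0 : ℝ) y, x ∈ Icc (0 : ℝ) s := fun x hx => ⟨hx.1, hx.2.trans hy.2⟩
    have hd : ∀ x ∈ Icc (0 : ℝ) y, HasDerivWithinAt
        (fun x : ℝ => ξ ^ 2 * ff1 b z α (w + x * ξ) - x * A)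
        (ξ ^ 3 * ff2 b z α (w + x * ξ) - A) (Icc 0 y) x := by
      intro x hx
      have h1 := airyseq_deriv2 b z w ξ α x (hav x (hsub x hx)).1 (hav x (hsub x hx)).2
      have h2 : HasDerivAt (fun s : ℝ => (s : ℂ) * A) (1 * A) x :=
        (Complex.ofRealCLM.hasDerivAt (x := x)).mul_const A
      have h3 := h1.sub h2
      rw [one_mul] at h3
      exact h3.hasDerivWithinAt
    have h := (convex_Icc (0 : ℝ) y).norm_image_sub_le_of_norm_hasDerivWithin_le hd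
      (fun x hx => hA x (hsub x hx)) (left_mem_Icc.2 hy.1) (right_mem_Icc.2 hy.1)
    simp only [Complex.ofReal_zero, zero_mul, add_zero, sub_zero] at h
    rw [Real.norm_of_nonneg hy.1] at h
    have e : ξ ^ 2 * ff1 b z α (w + y * ξ) - ξ ^ 2 * ff1 b z α w - y * A =
        ξ ^ 2 * ff1 b z α (w + y * ξ) - y * A - ξ ^ 2 * ff1 b z α w := by ring
    rw [e]
    exact h.trans (mul_le_mul_of_nonneg_left hy.2 hε)
  have hd : ∀ y ∈ Icc (0 : ℝ) s, HasDerivWithinAt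
      (fun y : ℝ => ξ * ff b z α (w + y * ξ) - y * (ξ ^ 2 * ff1 b z α w) - (y : ℂ) ^ 2 / 2 * A)
      (ξ ^ 2 * ff1 b z α (w + y * ξ) - ξ ^ 2 * ff1 b z α w - y * A) (Icc 0 s) y := by
    intro y hy
    have h1 := airyseq_deriv1 b z w ξ α y (hav y hy).1 (hav y hy).2
    have h2 : HasDerivAt (fun s : ℝ => (s : ℂ)) 1 y := Complex.ofRealCLM.hasDerivAt
    have h3 := (h1.sub (h2.mul_const (ξ ^ 2 * ff1 b z α w))).sub
      (((h2.pow 2).div_const 2).mul_const A)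
    refine (h3.congr_deriv ?_).hasDerivWithinAt
    push_cast
    ring
  have h := (convex_Icc (0 : ℝ) s).norm_image_sub_le_of_norm_hasDerivWithin_le hd step1
    (left_mem_Icc.2 hs) (right_mem_Icc.2 hs)
  simp only [Complex.ofReal_zero, zero_mul, add_zero, hf, mul_zero, sub_zero, ne_eq,
    OfNat.ofNat_ne_zero, not_false_eq_true, zero_pow, zero_div] at h
  rw [Real.norm_of_nonneg hs] at h
  calc _ ≤ ε * s * s := h
    _ = ε * s ^ 2 := by ring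

/-- decay of the real part of `ξ f` along a ray -/
private theorem airyseq_re (b : ι → ℂ) (z w ξ : ℂ) (α s c e : ℝ) (hs : 0 ≤ s)
    (hf : ff b z α w = 0)
    (hav : ∀ y ∈ Icc (0 : ℝ) s, w + y * ξ ≠ z ∧ ∀ i, w + y * ξ ≠ b i)
    (he : (ξ ^ 2 * ff1 b z α w).re ≤ -e)
    (hA : ∀ y ∈ Icc (0 : ℝ) s, (ξ ^ 3 * ff2 b z α (w + y * ξ)).re ≤ -c) :
    (ξ * ff b z α (w + s * ξ)).re ≤ -e * s - c / 2 * s ^ 2 := by
  have step1 : ∀ y ∈ Icc (0 : ℝ) s, (ξ ^ 2 * ff1 b z α (w + y * ξ)).re ≤ -e - c * y := by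
    intro y hy
    have hsub : ∀ x ∈ Icc (0 : ℝ) y, x ∈ Icc (0 : ℝ) s := fun x hx => ⟨hx.1, hx.2.trans hy.2⟩
    have hd : ∀ x ∈ Icc (0 : ℝ) y, HasDerivAt
        (fun x : ℝ => (ξ ^ 2 * ff1 b z α (w + x * ξ)).re)
        (ξ ^ 3 * ff2 b z α (w + x * ξ)).re x := by
      intro x hx
      have h1 := airyseq_deriv2 b z w ξ α x (hav x (hsub x hx)).1 (hav x (hsub x hx)).2
      exact Complex.reCLM.hasFDerivAt.comp_hasDerivAt x h1
    have h := (convex_Icc (0 : ℝ) y).image_sub_le_mul_sub_of_deriv_le (C := -c)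
      (f := fun x : ℝ => (ξ ^ 2 * ff1 b z α (w + x * ξ)).re)
      (fun x hx => (hd x hx).continuousAt.continuousWithinAt)
      (fun x hx => (hd x (interior_subset hx)).differentiableAt.differentiableWithinAt)
      (fun x hx => by
        rw [(hd x (interior_subset hx)).deriv]
        exact hA x (hsub x (interior_subset hx))) 0 (left_mem_Icc.2 hy.1) y
        (right_mem_Icc.2 hy.1) hy.1
    simp only [Complex.ofReal_zero, zero_mul, add_zero, sub_zero] at h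
    linarith
  have hd : ∀ y ∈ Icc (0 : ℝ) s, HasDerivAt
      (fun y : ℝ => (ξ * ff b z α (w + y * ξ)).re + (e * y + c / 2 * y ^ 2))
      ((ξ ^ 2 * ff1 b z α (w + y * ξ)).re + (e + c * y)) y := by
    intro y hy
    have h1 := airyseq_deriv1 b z w ξ α y (hav y hy).1 (hav y hy).2
    have h2 : HasDerivAt (fun y : ℝ => (ξ * ff b z α (w + y * ξ)).re)
        (ξ ^ 2 * ff1 b z α (w + y * ξ)).re y :=
      Complex.reCLM.hasFDerivAt.comp_hasDerivAt y h1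
    have h3 : HasDerivAt (fun y : ℝ => e * y + c / 2 * y ^ 2) (e + c * y) y := by
      have h4 := ((hasDerivAt_id y).const_mul e).add (((hasDerivAt_id y).pow 2).const_mul (c / 2))
      refine h4.congr_deriv ?_
      simp only [id]
      push_cast
      ring
    exact h2.add h3
  have h := (convex_Icc (0 : ℝ) s).image_sub_le_mul_sub_of_deriv_le (C := 0)
    (f := fun y : ℝ => (ξ * ff b z α (w + y * ξ)).re + (e * y + c / 2 * y ^ 2))
    (fun y hy => (hd y hy).continuousAt.continuousWithinAt)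
    (fun y hy => (hd y (interior_subset hy)).differentiableAt.differentiableWithinAt)
    (fun y hy => by
      rw [(hd y (interior_subset hy)).deriv]
      linarith [step1 y (interior_subset hy)]) 0 (left_mem_Icc.2 hs) s (right_mem_Icc.2 hs) hs
  simp only [Complex.ofReal_zero, zero_mul, add_zero, hf, mul_zero, sub_zero,
    Complex.zero_re, ne_eq, OfNat.ofNat_ne_zero, not_false_eq_true, zero_pow] at h
  linarith

theorem airy_ray (b : ι → ℂ) (z w : ℕ → ℂ) (α : ℕ → ℝ) (n : ℕ → ℕ) (z₀ w₀ ξ : ℂ) (α₀ : ℝ)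
    (hn : Tendsto n atTop atTop) (hz : Tendsto z atTop (𝓝 z₀)) (hα : Tendsto α atTop (𝓝 α₀))
    (hw : Tendsto w atTop (𝓝 w₀)) (hcrit : ∀ᶠ k in atTop, ff b (z k) (α k) (w k) = 0)
    (hcrit1 : ff1 b z₀ α₀ w₀ = 0)
    (hav : ∀ s ∈ Icc (0 : ℝ) 1, w₀ + s * ξ ≠ z₀ ∧ ∀ i, w₀ + s * ξ ≠ b i)
    (hray : ∀ s ∈ Icc (0 : ℝ) 1, (ξ ^ 3 * ff2 b z₀ α₀ (w₀ + s * ξ)).re < 0) (c₀ : ℝ)
    (hc₀ : 0 < c₀) (hcone : ∀ᶠ k in atTop, (ξ ^ 2 * ff1 b (z k) (α k) (w k)).re ≤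
      -c₀ * ‖ff1 b (z k) (α k) (w k)‖) (a : ℝ) (β : ℂ)
    (ha : Tendsto (fun k => (n k : ℝ) * alam (n k) (ff1 b (z k) (α k) (w k)) ^ 3) atTop (𝓝 a))
    (hβ : Tendsto (fun k => (n k : ℂ) * (alam (n k) (ff1 b (z k) (α k) (w k)) : ℂ) ^ 2 *
      ff1 b (z k) (α k) (w k)) atTop (𝓝 β)) :
    RayHyp b z α n w (fun k => alam (n k) (ff1 b (z k) (α k) (w k))) ξ
      (fun x => ξ ^ 2 * β * x + a * (ξ ^ 3 * ff2 b z₀ α₀ w₀) * x ^ 2 / 2) := by
  set g : ℕ → ℂ := fun k => ff1 b (z k) (α k) (w k) with hgdef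
  have hq : Tendsto (fun k => (z k, α k, w k)) atTop (𝓝 (z₀, α₀, w₀)) :=
    hz.prodMk_nhds (hα.prodMk_nhds hw)
  have h0mem : (0 : ℝ) ∈ Icc (0 : ℝ) 1 := ⟨le_rfl, zero_le_one⟩
  have hav0 : w₀ ≠ z₀ ∧ ∀ i, w₀ ≠ b i := by
    have := hav 0 h0mem
    simpa using this
  have hg : Tendsto g atTop (𝓝 0) := by
    have h1 := (ff1_cont b z₀ α₀ w₀ hav0.2 hav0.1).tendsto.comp hq
    rw [hcrit1] at h1
    exact h1
  obtain ⟨hlam, hlam0, -, hfacts⟩ := alam_facts n g hn hg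
  -- the moving point
  have hmap : ∀ y : ℝ, ContinuousAt
      (fun q : (ℂ × ℝ × ℂ) × ℝ => (q.1.1, q.1.2.1, q.1.2.2 + (q.2 : ℂ) * ξ))
      ((z₀, α₀, w₀), y) := by
    intro y
    have : Continuous (fun q : (ℂ × ℝ × ℂ) × ℝ =>
        (q.1.1, q.1.2.1, q.1.2.2 + (q.2 : ℂ) * ξ)) := by fun_prop
    exact this.continuousAt
  have hf2 : ∀ y ∈ Icc (0 : ℝ) 1, ContinuousAt
      (fun q : (ℂ × ℝ × ℂ) × ℝ => ξ ^ 3 * ff2 b q.1.1 q.1.2.1 (q.1.2.2 + (q.2 : ℂ) * ξ))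
      ((z₀, α₀, w₀), y) := by
    intro y hy
    have h1 := ff2_cont b z₀ α₀ (w₀ + y * ξ) (hav y hy).2 (hav y hy).1
    have h2 : ContinuousAt (fun q : (ℂ × ℝ × ℂ) × ℝ =>
        ff2 b q.1.1 q.1.2.1 (q.1.2.2 + (q.2 : ℂ) * ξ)) ((z₀, α₀, w₀), y) :=
      ContinuousAt.comp (g := fun q : ℂ × ℝ × ℂ => ff2 b q.1 q.2.1 q.2.2)
        (f := fun q : (ℂ × ℝ × ℂ) × ℝ => (q.1.1, q.1.2.1, q.1.2.2 + (q.2 : ℂ) * ξ))
        (x := ((z₀, α₀, w₀), y)) h1 (hmap y)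
    exact continuousAt_const.mul h2
  have havo : ∀ y ∈ Icc (0 : ℝ) 1, ∀ᶠ q : (ℂ × ℝ × ℂ) × ℝ in 𝓝 ((z₀, α₀, w₀), y),
      q.1.2.2 + (q.2 : ℂ) * ξ ≠ q.1.1 ∧ ∀ i, q.1.2.2 + (q.2 : ℂ) * ξ ≠ b i := by
    intro y hy
    have hc : Continuous (fun q : (ℂ × ℝ × ℂ) × ℝ => q.1.2.2 + (q.2 : ℂ) * ξ) := by fun_prop
    have h1 : ∀ᶠ q : (ℂ × ℝ × ℂ) × ℝ in 𝓝 ((z₀, α₀, w₀), y),
        q.1.2.2 + (q.2 : ℂ) * ξ ≠ q.1.1 := by
      have h2 : Continuous (fun q : (ℂ × ℝ × ℂ) × ℝ => q.1.1) := by fun_prop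
      have h4 := (hc.sub h2).continuousAt.eventually_ne (x := ((z₀, α₀, w₀), y))
        (sub_ne_zero.2 (hav y hy).1)
      exact h4.mono fun q hq => sub_ne_zero.1 hq
    have h3 : ∀ᶠ q : (ℂ × ℝ × ℂ) × ℝ in 𝓝 ((z₀, α₀, w₀), y),
        ∀ i, q.1.2.2 + (q.2 : ℂ) * ξ ≠ b i := by
      rw [Filter.eventually_all]
      intro i
      exact hc.continuousAt.eventually_ne ((hav y hy).2 i)
    exact h1.and h3
  constructor
  · -- uniform constants
    have hcont : ContinuousOn (fun y : ℝ => ξ ^ 3 * ff2 b z₀ α₀ (w₀ + y * ξ)) (Icc 0 1) := by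
      intro y hy
      have h1 : ContinuousAt (fun y : ℝ => (((z₀, α₀, w₀) : ℂ × ℝ × ℂ), y)) y :=
        (continuous_const.prodMk continuous_id).continuousAt
      exact (ContinuousAt.comp
        (g := fun q : (ℂ × ℝ × ℂ) × ℝ => ξ ^ 3 * ff2 b q.1.1 q.1.2.1 (q.1.2.2 + (q.2 : ℂ) * ξ))
        (f := fun y : ℝ => (((z₀, α₀, w₀) : ℂ × ℝ × ℂ), y)) (x := y)
        (hf2 y hy) h1).continuousWithinAt
    obtain ⟨c, hc, hcb⟩ : ∃ c : ℝ, 0 < c ∧ ∀ y ∈ Icc (0 : ℝ) 1,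
        (ξ ^ 3 * ff2 b z₀ α₀ (w₀ + y * ξ)).re < -c := by
      obtain ⟨y0, hy0, hmax⟩ := isCompact_Icc.exists_isMaxOn (nonempty_Icc.2 zero_le_one)
        (Complex.continuous_re.comp_continuousOn hcont)
      refine ⟨-(ξ ^ 3 * ff2 b z₀ α₀ (w₀ + y0 * ξ)).re / 2, by linarith [hray y0 hy0], ?_⟩
      intro y hy
      have h1 := hmax hy
      have h2 := hray y0 hy0
      simp only [Function.comp_def, mem_ofPred_eq] at h1
      linarith
    obtain ⟨C, hC0, hC⟩ : ∃ C : ℝ, 0 ≤ C ∧ ∀ y ∈ Icc (0 : ℝ) 1,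
        ‖ξ ^ 3 * ff2 b z₀ α₀ (w₀ + y * ξ)‖ < C := by
      obtain ⟨C, hC⟩ := isCompact_Icc.exists_bound_of_continuousOn hcont
      have h0 := hC 0 h0mem
      refine ⟨C + 1, ?_, fun y hy => by linarith [hC y hy]⟩
      have := norm_nonneg (ξ ^ 3 * ff2 b z₀ α₀ (w₀ + ((0 : ℝ) : ℂ) * ξ))
      linarith
    have hev : ∀ᶠ q : ℂ × ℝ × ℂ in 𝓝 (z₀, α₀, w₀), ∀ y ∈ Icc (0 : ℝ) 1,
        (q.2.2 + (y : ℂ) * ξ ≠ q.1 ∧ ∀ i, q.2.2 + (y : ℂ) * ξ ≠ b i) ∧
        (ξ ^ 3 * ff2 b q.1 q.2.1 (q.2.2 + (y : ℂ) * ξ)).re < -c ∧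
        ‖ξ ^ 3 * ff2 b q.1 q.2.1 (q.2.2 + (y : ℂ) * ξ)‖ < C := by
      apply isCompact_Icc.eventually_forall_of_forall_eventually
      intro y hy
      refine (havo y hy).and (Filter.Eventually.and ?_ ?_)
      · exact (Complex.continuous_re.continuousAt.comp (hf2 y hy)).eventually_lt
          continuousAt_const (hcb y hy)
      · exact (hf2 y hy).norm.eventually_lt continuousAt_const (hC y hy)
    refine ⟨min c₀ (c / 2), ‖ξ‖ ^ 2 + C, lt_min hc₀ (by positivity), ?_⟩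
    filter_upwards [hq.eventually hev, hcrit, hfacts, hcone] with k hk hk0 hk1 hk2 x hx
    set l : ℝ := alam (n k) (g k) with hl
    have hl0 : 0 < l := hlam k
    have hx0 : 0 ≤ x := hx.1
    have hx1 : l * x ≤ 1 := by
      have h1 := mul_le_mul_of_nonneg_left hx.2 hl0.le
      rwa [mul_one_div_cancel hl0.ne'] at h1
    have hs0 : 0 ≤ l * x := mul_nonneg hl0.le hx0
    have hsub : ∀ y ∈ Icc (0 : ℝ) (l * x), y ∈ Icc (0 : ℝ) 1 :=
      fun y hy => ⟨hy.1, hy.2.trans hx1⟩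
    have e1 : (n k : ℂ) * l * ξ * ff b (z k) (α k) (w k + l * x * ξ) =
        (((n k : ℝ) * l : ℝ) : ℂ) * (ξ * ff b (z k) (α k) (w k + ((l * x : ℝ) : ℂ) * ξ)) := by
      push_cast
      ring
    have hnl0 : 0 ≤ (n k : ℝ) * l := by positivity
    obtain ⟨f1, f2, f3⟩ := hk1
    have f10 : 0 ≤ (n k : ℝ) * l ^ 3 := by positivity
    have f20 : 0 ≤ (n k : ℝ) * l ^ 2 * ‖g k‖ := by positivity
    constructor
    · rw [e1, Complex.re_ofReal_mul]
      have h1 := airyseq_re b (z k) (w k) ξ (α k) (l * x) c (c₀ * ‖g k‖) hs0 hk0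
        (fun y hy => (hk y (hsub y hy)).1) (by rw [← neg_mul]; exact hk2)
        (fun y hy => (hk y (hsub y hy)).2.1.le)
      have h2 := mul_le_mul_of_nonneg_left h1 hnl0
      have h3 : (n k : ℝ) * l * (-(c₀ * ‖g k‖) * (l * x) - c / 2 * (l * x) ^ 2) =
          -(c₀ * x * ((n k : ℝ) * l ^ 2 * ‖g k‖)) - c / 2 * x ^ 2 * ((n k : ℝ) * l ^ 3) := by
        ring
      rw [h3] at h2
      refine h2.trans ?_
      have hm0 : 0 ≤ min x (x ^ 2) := le_min hx0 (sq_nonneg x)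
      have hcx : 0 ≤ c₀ * x * ((n k : ℝ) * l ^ 2 * ‖g k‖) := by positivity
      have hcx2 : 0 ≤ c / 2 * x ^ 2 * ((n k : ℝ) * l ^ 3) := by positivity
      have hmc : min c₀ (c / 2) ≤ c₀ := min_le_left _ _
      have hmc2 : min c₀ (c / 2) ≤ c / 2 := min_le_right _ _
      have hmp : 0 < min c₀ (c / 2) := lt_min hc₀ (by positivity)
      rcases f3 with f3 | f3
      · have h4 : min x (x ^ 2) ≤ x ^ 2 := min_le_right _ _
        have h5 : min c₀ (c / 2) * min x (x ^ 2) ≤ c / 2 * x ^ 2 :=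
          mul_le_mul hmc2 h4 hm0 (by positivity)
        rw [f3]
        linarith
      · have h4 : min x (x ^ 2) ≤ x := min_le_left _ _
        have h5 : min c₀ (c / 2) * min x (x ^ 2) ≤ c₀ * x :=
          mul_le_mul hmc h4 hm0 hc₀.le
        rw [f3]
        linarith
    · rw [e1, norm_mul, Complex.norm_real, Real.norm_of_nonneg hnl0]
      have h1 := airyseq_quad b (z k) (w k) ξ 0 (α k) (l * x) C hs0 hk0
        (fun y hy => (hk y (hsub y hy)).1)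
        (fun y hy => by
          rw [sub_zero]
          exact (hk y (hsub y hy)).2.2.le)
      rw [mul_zero, sub_zero] at h1
      have h2 : ‖ξ * ff b (z k) (α k) (w k + ((l * x : ℝ) : ℂ) * ξ)‖ ≤
          C * (l * x) ^ 2 + l * x * (‖ξ‖ ^ 2 * ‖g k‖) := by
        have h3 := norm_add_le (ξ * ff b (z k) (α k) (w k + ((l * x : ℝ) : ℂ) * ξ) -
          ((l * x : ℝ) : ℂ) * (ξ ^ 2 * g k)) (((l * x : ℝ) : ℂ) * (ξ ^ 2 * g k))
        rw [sub_add_cancel, norm_mul (((l * x : ℝ) : ℂ)), Complex.norm_real,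
          Real.norm_of_nonneg hs0, norm_mul (ξ ^ 2), norm_pow] at h3
        linarith
      have h3 := mul_le_mul_of_nonneg_left h2 hnl0
      have h4 : (n k : ℝ) * l * (C * (l * x) ^ 2 + l * x * (‖ξ‖ ^ 2 * ‖g k‖)) =
          C * x ^ 2 * ((n k : ℝ) * l ^ 3) + ‖ξ‖ ^ 2 * x * ((n k : ℝ) * l ^ 2 * ‖g k‖) := by
        ring
      rw [h4] at h3
      refine h3.trans ?_
      have h5 : x ≤ 1 + x ^ 2 := by nlinarith [sq_nonneg (x - 1)]
      have h6 : C * x ^ 2 * ((n k : ℝ) * l ^ 3) ≤ C * x ^ 2 :=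
        mul_le_of_le_one_right (by positivity) f1
      have h7 : ‖ξ‖ ^ 2 * x * ((n k : ℝ) * l ^ 2 * ‖g k‖) ≤ ‖ξ‖ ^ 2 * x :=
        mul_le_of_le_one_right (by positivity) f2
      have h8 : ‖ξ‖ ^ 2 * x ≤ ‖ξ‖ ^ 2 * (1 + x ^ 2) :=
        mul_le_mul_of_nonneg_left h5 (by positivity)
      nlinarith
  · intro x hx
    set A : ℂ := ξ ^ 3 * ff2 b z₀ α₀ w₀ with hA
    -- the main part
    have hmain : Tendsto (fun k => ξ ^ 2 * ((n k : ℂ) * (alam (n k) (g k) : ℂ) ^ 2 * g k) * x +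
        (((n k : ℝ) * alam (n k) (g k) ^ 3 : ℝ) : ℂ) * A * x ^ 2 / 2) atTop
        (𝓝 (ξ ^ 2 * β * x + a * A * x ^ 2 / 2)) := by
      have h1 := (hβ.const_mul (ξ ^ 2)).mul_const (x : ℂ)
      have h2 := ((((Complex.continuous_ofReal.tendsto a).comp ha).mul_const A).mul_const
        ((x : ℂ) ^ 2)).div_const 2
      exact h1.add h2
    have hdiff : Tendsto (fun k => (n k : ℂ) * (alam (n k) (g k) : ℂ) * ξ *
        ff b (z k) (α k) (w k + (alam (n k) (g k) : ℂ) * x * ξ) -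
        (ξ ^ 2 * ((n k : ℂ) * (alam (n k) (g k) : ℂ) ^ 2 * g k) * x +
        (((n k : ℝ) * alam (n k) (g k) ^ 3 : ℝ) : ℂ) * A * x ^ 2 / 2)) atTop (𝓝 0) := by
      rw [Metric.tendsto_nhds]
      intro ε hε
      set ε' : ℝ := ε / (2 * (x ^ 2 + 1)) with hε'
      have hε'0 : 0 < ε' := by positivity
      have hev : ∀ᶠ q : (ℂ × ℝ × ℂ) × ℝ in 𝓝 ((z₀, α₀, w₀), (0 : ℝ)),
          (q.1.2.2 + (q.2 : ℂ) * ξ ≠ q.1.1 ∧ ∀ i, q.1.2.2 + (q.2 : ℂ) * ξ ≠ b i) ∧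
          ‖ξ ^ 3 * ff2 b q.1.1 q.1.2.1 (q.1.2.2 + (q.2 : ℂ) * ξ) - A‖ < ε' := by
        refine (havo 0 h0mem).and ?_
        have h1 : ContinuousAt (fun q : (ℂ × ℝ × ℂ) × ℝ =>
            ‖ξ ^ 3 * ff2 b q.1.1 q.1.2.1 (q.1.2.2 + (q.2 : ℂ) * ξ) - A‖)
            ((z₀, α₀, w₀), (0 : ℝ)) :=
          ((hf2 0 h0mem).sub continuousAt_const).norm
        refine h1.eventually_lt continuousAt_const ?_
        simp only [Complex.ofReal_zero, zero_mul, add_zero]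
        rw [hA, sub_self, norm_zero]
        exact hε'0
      rw [nhds_prod_eq, Filter.eventually_prod_iff] at hev
      obtain ⟨pa, hpa, pb, hpb, hab⟩ := hev
      obtain ⟨δ, hδ, hδb⟩ := Metric.eventually_nhds_iff.1 hpb
      have hlx : Tendsto (fun k => alam (n k) (g k) * x) atTop (𝓝 0) := by
        simpa using hlam0.mul_const x
      filter_upwards [hq.eventually hpa, hcrit, hfacts, hlx.eventually_lt_const hδ]
        with k hk hk0 hk1 hk2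
      set l : ℝ := alam (n k) (g k) with hl
      have hl0 : 0 < l := hlam k
      have hs0 : 0 ≤ l * x := mul_nonneg hl0.le hx
      have e1 : (n k : ℂ) * l * ξ * ff b (z k) (α k) (w k + l * x * ξ) -
          (ξ ^ 2 * ((n k : ℂ) * (l : ℂ) ^ 2 * g k) * x +
          (((n k : ℝ) * l ^ 3 : ℝ) : ℂ) * A * x ^ 2 / 2) =
          (((n k : ℝ) * l : ℝ) : ℂ) * (ξ * ff b (z k) (α k) (w k + ((l * x : ℝ) : ℂ) * ξ) -
            ((l * x : ℝ) : ℂ) * (ξ ^ 2 * ff1 b (z k) (α k) (w k)) -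
              ((l * x : ℝ) : ℂ) ^ 2 / 2 * A) := by
        simp only [hgdef]
        push_cast
        ring
      have hnl0 : 0 ≤ (n k : ℝ) * l := by positivity
      rw [dist_eq_norm, sub_zero, e1, norm_mul, Complex.norm_real, Real.norm_of_nonneg hnl0]
      have hy : ∀ y ∈ Icc (0 : ℝ) (l * x), pb y := by
        intro y hy
        apply hδb
        rw [Real.dist_eq, sub_zero, abs_of_nonneg hy.1]
        exact lt_of_le_of_lt hy.2 hk2
      have h1 := airyseq_quad b (z k) (w k) ξ A (α k) (l * x) ε' hs0 hk0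
        (fun y hy' => (hab hk (hy y hy')).1)
        (fun y hy' => (hab hk (hy y hy')).2.le)
      have h2 := mul_le_mul_of_nonneg_left h1 hnl0
      have h3 : (n k : ℝ) * l * (ε' * (l * x) ^ 2) = ε' * x ^ 2 * ((n k : ℝ) * l ^ 3) := by
        ring
      rw [h3] at h2
      have h4 : ε' * x ^ 2 * ((n k : ℝ) * l ^ 3) ≤ ε' * x ^ 2 :=
        mul_le_of_le_one_right (by positivity) hk1.1
      refine lt_of_le_of_lt (h2.trans h4) ?_
      rw [hε', div_mul_eq_mul_div, div_lt_iff₀ (by positivity)]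
      nlinarith [sq_nonneg x]
    have hsum := hdiff.add hmain
    rw [zero_add] at hsum
    refine hsum.congr fun k => ?_
    ring

/-- the integral of the limit exponent -/
private theorem airyseq_int (B A : ℂ) (a x : ℝ) :
    ∫ y in (0 : ℝ)..x, (B * y + a * A * (y : ℂ) ^ 2 / 2) =
      B * x ^ 2 / 2 + a * A * x ^ 3 / 6 := by
  have hd : ∀ y ∈ uIcc (0 : ℝ) x, HasDerivAt
      (fun y : ℝ => B * (y : ℂ) ^ 2 / 2 + a * A * (y : ℂ) ^ 3 / 6)
      (B * y + a * A * (y : ℂ) ^ 2 / 2) y := by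
    intro y _
    have h2 : HasDerivAt (fun s : ℝ => (s : ℂ)) 1 y := Complex.ofRealCLM.hasDerivAt
    have h3 := (((h2.pow 2).const_mul B).div_const 2).add
      (((h2.pow 3).const_mul ((a : ℂ) * A)).div_const 6)
    refine h3.congr_deriv ?_
    push_cast
    ring
  rw [intervalIntegral.integral_eq_sub_of_hasDerivAt hd
    (Continuous.intervalIntegrable (by fun_prop) _ _)]
  simp

theorem airy_seq (b : ι → ℂ) (z₀ w₀ u v : ℂ) (α₀ : ℝ) (p : List ℂ)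
    (hD : DomA b z₀ α₀ w₀ u v p) (z w : ℕ → ℂ) (n m : ℕ → ℕ) (hn : Tendsto n atTop atTop)
    (hz : Tendsto z atTop (𝓝 z₀))
    (hα : Tendsto (fun k => ((m k : ℝ) + 1) / n k) atTop (𝓝 α₀)) (hw : Tendsto w atTop (𝓝 w₀))
    (hcrit : ∀ᶠ k in atTop, ff b (z k) (((m k : ℝ) + 1) / n k) (w k) = 0) (c₀ : ℝ)
    (hc₀ : 0 < c₀)
    (hu : ∀ᶠ k in atTop, (u ^ 2 * ff1 b (z k) (((m k : ℝ) + 1) / n k) (w k)).re ≤
      -c₀ * ‖ff1 b (z k) (((m k : ℝ) + 1) / n k) (w k)‖)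
    (hv : ∀ᶠ k in atTop, (v ^ 2 * ff1 b (z k) (((m k : ℝ) + 1) / n k) (w k)).re ≤
      -c₀ * ‖ff1 b (z k) (((m k : ℝ) + 1) / n k) (w k)‖) :
    ∀ᶠ k in atTop, Tn b (n k) (m k) (z k) ≠ 0 := by
  by_contra hcon
  rw [Filter.not_eventually] at hcon
  have hfr : ∃ᶠ k in atTop, Tn b (n k) (m k) (z k) = 0 := hcon.mono fun k hk => not_not.1 hk
  set g : ℕ → ℂ := fun k => ff1 b (z k) (((m k : ℝ) + 1) / n k) (w k) with hgdef
  have hq : Tendsto (fun k => (z k, ((m k : ℝ) + 1) / n k, w k)) atTop (𝓝 (z₀, α₀, w₀)) :=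
    hz.prodMk_nhds (hα.prodMk_nhds hw)
  have h0mem : (0 : ℝ) ∈ Icc (0 : ℝ) 1 := ⟨le_rfl, zero_le_one⟩
  have hav0 : w₀ ≠ z₀ ∧ ∀ i, w₀ ≠ b i := by
    have := hD.avu 0 h0mem
    simpa using this
  have hg : Tendsto g atTop (𝓝 0) := by
    have h1 := (ff1_cont b z₀ α₀ w₀ hav0.2 hav0.1).tendsto.comp hq
    rw [hD.crit1] at h1
    exact h1
  obtain ⟨hlam, hlam0, hlam1, hfacts⟩ := alam_facts n g hn hg
  obtain ⟨f, hf, hf0⟩ := extraction_of_frequently_atTop hfr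
  have hft : Tendsto f atTop atTop := hf.tendsto_atTop
  obtain ⟨k0, hk0⟩ := eventually_atTop.1 (hft.eventually hfacts)
  -- bounded pairs
  set F : ℕ → ℕ := fun j => f (j + k0) with hF
  have hFt : Tendsto F atTop atTop := hft.comp (tendsto_add_atTop_nat k0)
  have hFf : ∀ j, (n (F j) : ℝ) * alam (n (F j)) (g (F j)) ^ 3 ≤ 1 ∧
      (n (F j) : ℝ) * alam (n (F j)) (g (F j)) ^ 2 * ‖g (F j)‖ ≤ 1 ∧
      ((n (F j) : ℝ) * alam (n (F j)) (g (F j)) ^ 3 = 1 ∨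
        (n (F j) : ℝ) * alam (n (F j)) (g (F j)) ^ 2 * ‖g (F j)‖ = 1) :=
    fun j => hk0 (j + k0) (Nat.le_add_left _ _)
  set q : ℕ → ℝ × ℂ := fun j => ((n (F j) : ℝ) * alam (n (F j)) (g (F j)) ^ 3,
    (n (F j) : ℂ) * (alam (n (F j)) (g (F j)) : ℂ) ^ 2 * g (F j)) with hqdef
  have hqn : ∀ j, ‖(n (F j) : ℂ) * (alam (n (F j)) (g (F j)) : ℂ) ^ 2 * g (F j)‖ =
      (n (F j) : ℝ) * alam (n (F j)) (g (F j)) ^ 2 * ‖g (F j)‖ := by
    intro j
    rw [norm_mul, norm_mul, norm_pow, Complex.norm_natCast, Complex.norm_real,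
      Real.norm_of_nonneg (hlam _).le]
  have hqb : ∀ j, q j ∈ Icc (0 : ℝ) 1 ×ˢ Metric.closedBall (0 : ℂ) 1 := by
    intro j
    refine ⟨⟨?_, (hFf j).1⟩, ?_⟩
    · have := hlam (F j)
      positivity
    · rw [mem_closedBall_zero_iff, hqn]
      exact (hFf j).2.1
  obtain ⟨⟨a, β⟩, hab, φ, hφ, hφt⟩ :=
    (isCompact_Icc.prod (isCompact_closedBall (0 : ℂ) 1)).tendsto_subseq hqb
  have hφT : Tendsto φ atTop atTop := hφ.tendsto_atTop
  have hG : Tendsto (fun j => F (φ j)) atTop atTop := hFt.comp hφT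
  have hat : Tendsto (fun j => (n (F (φ j)) : ℝ) * alam (n (F (φ j))) (g (F (φ j))) ^ 3)
      atTop (𝓝 a) := (continuous_fst.tendsto _).comp hφt
  have hβt : Tendsto (fun j => (n (F (φ j)) : ℂ) * (alam (n (F (φ j))) (g (F (φ j))) : ℂ) ^ 2 *
      g (F (φ j))) atTop (𝓝 β) := (continuous_snd.tendsto _).comp hφt
  have ha0 : 0 ≤ a := hab.1.1
  -- not both are zero
  have hne : 0 < a ∨ β ≠ 0 := by
    by_contra hno
    push Not at hno
    obtain ⟨h1, h2⟩ := hno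
    have h3 : a = 0 := le_antisymm h1 ha0
    rw [h3] at hat
    rw [h2] at hβt
    have hβn := hβt.norm
    rw [norm_zero] at hβn
    have e1 := (hat.eventually_lt_const one_pos).and (hβn.eventually_lt_const one_pos)
    obtain ⟨j, hj1, hj2⟩ := e1.exists
    rw [hqn] at hj2
    rcases (hFf (φ j)).2.2 with h4 | h4
    · rw [h4] at hj1
      exact lt_irrefl _ hj1
    · rw [h4] at hj2
      exact lt_irrefl _ hj2
  -- the cone condition in the limit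
  have hcone : ∀ ξ : ℂ, (∀ᶠ k in atTop, (ξ ^ 2 * g k).re ≤ -c₀ * ‖g k‖) →
      β = 0 ∨ (ξ ^ 2 * β).re < 0 := by
    intro ξ hξ
    by_cases hβ0 : β = 0
    · exact Or.inl hβ0
    · right
      have h1 : Tendsto (fun j => (ξ ^ 2 * ((n (F (φ j)) : ℂ) *
          (alam (n (F (φ j))) (g (F (φ j))) : ℂ) ^ 2 * g (F (φ j)))).re) atTop
          (𝓝 (ξ ^ 2 * β).re) :=
        (Complex.continuous_re.tendsto _).comp (hβt.const_mul (ξ ^ 2))
      have h2 := (hβt.norm).const_mul (-c₀)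
      have h3 : (ξ ^ 2 * β).re ≤ -c₀ * ‖β‖ := by
        refine le_of_tendsto_of_tendsto h1 h2 ?_
        filter_upwards [hG.eventually hξ] with j hj
        have h4 : 0 ≤ (n (F (φ j)) : ℝ) * alam (n (F (φ j))) (g (F (φ j))) ^ 2 := by
          positivity
        have h5 := mul_le_mul_of_nonneg_left hj h4
        have e1 : ξ ^ 2 * ((n (F (φ j)) : ℂ) *
            (alam (n (F (φ j))) (g (F (φ j))) : ℂ) ^ 2 * g (F (φ j))) =
            (((n (F (φ j)) : ℝ) * alam (n (F (φ j))) (g (F (φ j))) ^ 2 : ℝ) : ℂ) *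
              (ξ ^ 2 * g (F (φ j))) := by
          push_cast
          ring
        rw [hqn, e1, Complex.re_ofReal_mul]
        calc _ ≤ _ := h5
          _ = _ := by ring
      have h6 : 0 < ‖β‖ := norm_pos_iff.2 hβ0
      have h7 := mul_pos hc₀ h6
      linarith
  have hlimne := airy_limit_ne a β (ff2 b z₀ α₀ w₀) u v ha0 hne
    (by simpa using hD.rayu 0 h0mem) (by simpa using hD.rayv 0 h0mem) hD.uv (hcone u hu) (hcone v hv)
  have hRu := airy_ray b (fun j => z (F (φ j))) (fun j => w (F (φ j)))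
    (fun j => ((m (F (φ j)) : ℝ) + 1) / n (F (φ j))) (fun j => n (F (φ j))) z₀ w₀ u α₀
    (hn.comp hG) (hz.comp hG) (hα.comp hG) (hw.comp hG) (hG.eventually hcrit) hD.crit1 hD.avu
    hD.rayu c₀ hc₀ (hG.eventually hu) a β hat hβt
  have hRv := airy_ray b (fun j => z (F (φ j))) (fun j => w (F (φ j)))
    (fun j => ((m (F (φ j)) : ℝ) + 1) / n (F (φ j))) (fun j => n (F (φ j))) z₀ w₀ v α₀
    (hn.comp hG) (hz.comp hG) (hα.comp hG) (hw.comp hG) (hG.eventually hcrit) hD.crit1 hD.avv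
    hD.rayv c₀ hc₀ (hG.eventually hv) a β hat hβt
  have hmain := (main_asymp b (fun j => z (F (φ j))) (fun j => w (F (φ j)))
    (fun j => n (F (φ j))) (fun j => m (F (φ j))) z₀ w₀ u v α₀ p (hn.comp hG) (hz.comp hG)
    (hα.comp hG) (hw.comp hG) hD.avu hD.avv hD.path
    (fun j => alam (n (F (φ j))) (g (F (φ j)))) (fun j => hlam _) (hlam0.comp hG)
    (hG.eventually hlam1) _ _ hRu hRv (by
      simp only [airyseq_int]
      convert hlimne using 5)).1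
  obtain ⟨j, hj⟩ := hmain.exists
  exact hj (hf0 (φ j + k0))

end Pool.Agent.SHD
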