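import Mathlib
import Pool.Agent.SHD.Basic

set_option autoImplicit false

/-!
A disc without zeros: the ratios vary slowly (module DYN1).
-/

namespace Pool.Agent.SHD

open Polynomial Set Filter Topology

variable {ι : Type} [Fintype ι]

/-- no zero of any `Tn b n m`, `n ≥ 1`, in the disc -/
def ZeroFree (b : ι → ℂ) (z : ℂ) (r : ℝ) : Prop :=
  0 < r ∧ ∀ n m : ℕ, 1 ≤ n → m ≤ n * Fintype.card ι → ∀ z' ∈ Metric.ball z r, Tn b n m z' ≠ 0

/-- bound for the ratio in the half disc -/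
private theorem dyn1_ratio (b : ι → ℂ) (z : ℂ) (r a : ℝ) (hz : ZeroFree b z r) (ha : 0 < a)
    (n m : ℕ) (hn : 1 ≤ n) (hm : m ≤ n * Fintype.card ι) (ham : a * n ≤ m) (z' : ℂ)
    (hz' : z' ∈ Metric.ball z (r / 2)) :
    ‖Tn b n (m + 1) z' / Tn b n m z'‖ ≤ 2 * Fintype.card ι / (a * r) := by
  obtain ⟨hr, hz⟩ := hz
  have hn0 : (0 : ℝ) < n := by exact_mod_cast hn
  have hsub : ∀ z'' ∈ Metric.ball z' (r / 2), Tn b n m z'' ≠ 0 := by
    intro z'' hz''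
    refine hz n m hn hm z'' ?_
    rw [Metric.mem_ball] at hz'' hz' ⊢
    calc dist z'' z ≤ dist z'' z' + dist z' z := dist_triangle _ _ _
      _ < r / 2 + r / 2 := add_lt_add hz'' hz'
      _ = r := by ring
  have h1 := Tn_logDeriv b n m hm z' (r / 2) (by positivity) hsub
  have hT0 : Tn b n m z' ≠ 0 := hsub z' (Metric.mem_ball_self (by positivity))
  have hT : 0 < ‖Tn b n m z'‖ := norm_pos_iff.mpr hT0
  have hm1 : ‖(m : ℂ) + 1‖ = (m : ℝ) + 1 := by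
    have : ((m : ℂ) + 1) = ((m + 1 : ℕ) : ℂ) := by push_cast; ring
    rw [this, Complex.norm_natCast]
    push_cast
    ring
  rw [norm_mul, hm1] at h1
  rw [norm_div, div_le_iff₀ hT]
  have hm0 : (0 : ℝ) < (m : ℝ) + 1 := by positivity
  have h2 : ‖Tn b n (m + 1) z'‖ ≤ n * Fintype.card ι / (r / 2) / ((m : ℝ) + 1) * ‖Tn b n m z'‖ := by
    rw [div_mul_eq_mul_div, le_div_iff₀ hm0]
    linarith
  refine h2.trans (mul_le_mul_of_nonneg_right ?_ hT.le)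
  have h3 : a * n ≤ (m : ℝ) + 1 := by linarith
  have hD : (0 : ℝ) ≤ Fintype.card ι := Nat.cast_nonneg _
  calc (n : ℝ) * Fintype.card ι / (r / 2) / ((m : ℝ) + 1)
      ≤ (n : ℝ) * Fintype.card ι / (r / 2) / (a * n) := by
        apply div_le_div_of_nonneg_left _ (by positivity) h3
        positivity
    _ = 2 * Fintype.card ι / (a * r) := by
        field_simp

/-- the derivative of the ratio -/
private theorem dyn1_deriv (b : ι → ℂ) (n m : ℕ) (z' : ℂ) (h0 : Tn b n m z' ≠ 0) :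
    HasDerivAt (fun x => Tn b n (m + 1) x / Tn b n m x)
      (((((m + 1 : ℕ) : ℂ) + 1) * Tn b n (m + 1 + 1) z' * Tn b n m z' -
        Tn b n (m + 1) z' * (((m : ℂ) + 1) * Tn b n (m + 1) z')) / Tn b n m z' ^ 2) z' :=
  (Tn_hasDeriv b n (m + 1) z').div (Tn_hasDeriv b n m z') h0

theorem dyn_step (b : ι → ℂ) (z : ℂ) (r a B : ℝ) (hz : ZeroFree b z r) (ha : 0 < a)
    (hB : 0 < B) : ∃ (C : ℝ) (N : ℕ), 0 < C ∧ ∀ n m : ℕ, N ≤ n → a * n ≤ m →
      m + 2 ≤ n * Fintype.card ι → ‖Tn b n m z / Tn b n (m + 1) z‖ ≤ B →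
      ‖Tn b n (m + 1) z / Tn b n (m + 2) z - Tn b n m z / Tn b n (m + 1) z‖ ≤ C / n := by
  have hr : 0 < r := hz.1
  have hzf := hz.2
  have hD : (0 : ℝ) ≤ Fintype.card ι := Nat.cast_nonneg _
  obtain ⟨C1, hC1⟩ : ∃ C1 : ℝ, C1 = 2 * Fintype.card ι / (a * r) := ⟨_, rfl⟩
  have hC1n : 0 ≤ C1 := by rw [hC1]; positivity
  obtain ⟨C2, hC2⟩ : ∃ C2 : ℝ, C2 = C1 / (r / 4) := ⟨_, rfl⟩
  have hC2n : 0 ≤ C2 := by rw [hC2]; positivity
  obtain ⟨C3, hC3⟩ : ∃ C3 : ℝ, C3 = (C2 * B + C1) / a := ⟨_, rfl⟩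
  have hC3n : 0 ≤ C3 := by rw [hC3]; positivity
  refine ⟨2 * B ^ 2 * C3 + 1, ⌈2 * B * C3⌉₊ + 1, by positivity, ?_⟩
  intro n m hN ham hm hBm
  have hn1 : 1 ≤ n := by omega
  have hn0 : (0 : ℝ) < n := by exact_mod_cast hn1
  have hz0 : z ∈ Metric.ball z r := Metric.mem_ball_self hr
  have hT0 : Tn b n m z ≠ 0 := hzf n m hn1 (by omega) z hz0
  have hT1 : Tn b n (m + 1) z ≠ 0 := hzf n (m + 1) hn1 (by omega) z hz0
  have hT2 : Tn b n (m + 2) z ≠ 0 := hzf n (m + 2) hn1 (by omega) z hz0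
  have hzh : z ∈ Metric.ball z (r / 2) := Metric.mem_ball_self (by positivity)
  -- the Cauchy estimate
  have hcauchy : ‖deriv (fun x => Tn b n (m + 1) x / Tn b n m x) z‖ ≤ C2 := by
    rw [hC2]
    apply Complex.norm_deriv_le_of_forall_mem_sphere_norm_le (by positivity)
    · apply DifferentiableOn.diffContOnCl
      intro x hx
      have hx' : x ∈ Metric.ball z r := by
        have h1 : x ∈ Metric.closedBall z (r / 4) := Metric.closure_ball_subset_closedBall hx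
        rw [Metric.mem_closedBall] at h1
        rw [Metric.mem_ball]
        linarith
      exact (dyn1_deriv b n m x (hzf n m hn1 (by omega) x hx')).differentiableAt.differentiableWithinAt
    · intro x hx
      have hx' : x ∈ Metric.ball z (r / 2) := by
        rw [mem_sphere_iff_norm] at hx
        rw [Metric.mem_ball, dist_eq_norm, hx]
        linarith
      have h1 := dyn1_ratio b z r a hz ha n m hn1 (by omega) ham x hx'
      rw [hC1]
      exact h1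
  have hrho : ‖Tn b n (m + 1) z / Tn b n m z‖ ≤ C1 := by
    rw [hC1]
    exact dyn1_ratio b z r a hz ha n m hn1 (by omega) ham z hzh
  rw [(dyn1_deriv b n m z hT0).deriv] at hcauchy
  obtain ⟨ρ, hρ⟩ : ∃ ρ : ℂ, ρ = Tn b n (m + 1) z / Tn b n m z := ⟨_, rfl⟩
  obtain ⟨σ, hσ⟩ : ∃ σ : ℂ, σ = Tn b n (m + 2) z / Tn b n (m + 1) z := ⟨_, rfl⟩
  have hρ0 : ρ ≠ 0 := by rw [hρ]; exact div_ne_zero hT1 hT0
  have hσ0 : σ ≠ 0 := by rw [hσ]; exact div_ne_zero hT2 hT1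
  have hρi : Tn b n m z / Tn b n (m + 1) z = ρ⁻¹ := by rw [hρ, inv_div]
  have hσi : Tn b n (m + 1) z / Tn b n (m + 2) z = σ⁻¹ := by rw [hσ, inv_div]
  have hmul : ((m : ℂ) + 2) * (σ - ρ) =
      (((((m + 1 : ℕ) : ℂ) + 1) * Tn b n (m + 1 + 1) z * Tn b n m z -
        Tn b n (m + 1) z * (((m : ℂ) + 1) * Tn b n (m + 1) z)) / Tn b n m z ^ 2) * ρ⁻¹ - ρ := by
    rw [hρ, hσ]
    push_cast
    have e : Tn b n (m + 1 + 1) z = Tn b n (m + 2) z := rfl
    rw [e]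
    field_simp
    ring
  have hm2 : ‖(m : ℂ) + 2‖ = (m : ℝ) + 2 := by
    have : ((m : ℂ) + 2) = ((m + 2 : ℕ) : ℂ) := by push_cast; ring
    rw [this, Complex.norm_natCast]
    push_cast
    ring
  rw [hρi] at hBm
  rw [← hρ] at hrho
  have hdiff : ((m : ℝ) + 2) * ‖σ - ρ‖ ≤ C2 * B + C1 := by
    have h1 := congrArg norm hmul
    rw [norm_mul, hm2] at h1
    rw [h1]
    refine (norm_sub_le _ _).trans (add_le_add ?_ hrho)
    rw [norm_mul]
    exact mul_le_mul hcauchy hBm (norm_nonneg _) hC2n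
  have hdiff' : ‖σ - ρ‖ ≤ C3 / n := by
    have hm0 : a * n ≤ (m : ℝ) + 2 := by linarith
    have h1 : a * n * ‖σ - ρ‖ ≤ C2 * B + C1 :=
      (mul_le_mul_of_nonneg_right hm0 (norm_nonneg _)).trans hdiff
    rw [hC3, div_div, le_div_iff₀ (by positivity)]
    linarith
  have hρn : 0 < ‖ρ‖ := norm_pos_iff.mpr hρ0
  have hσn : 0 < ‖σ‖ := norm_pos_iff.mpr hσ0
  have hρB : 1 / B ≤ ‖ρ‖ := by
    rw [norm_inv] at hBm
    rw [one_div]
    exact (inv_le_comm₀ hρn hB).mp hBm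
  have hnbig : 2 * B * C3 ≤ n := by
    have h1 := Nat.le_ceil (2 * B * C3)
    have h2 : ((⌈2 * B * C3⌉₊ + 1 : ℕ) : ℝ) ≤ n := by exact_mod_cast hN
    push_cast at h2
    linarith
  have hsmall : C3 / n ≤ 1 / (2 * B) := by
    rw [div_le_div_iff₀ hn0 (by positivity)]
    linarith
  have hσB : 1 / (2 * B) ≤ ‖σ‖ := by
    have h1 : ‖ρ‖ - ‖σ - ρ‖ ≤ ‖σ‖ := by
      have := norm_sub_norm_le ρ (ρ - σ)
      have e : ρ - (ρ - σ) = σ := by ring
      rw [e, norm_sub_rev ρ σ] at this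
      linarith
    have h2 : 1 / B = 1 / (2 * B) + 1 / (2 * B) := by field_simp; ring
    linarith
  rw [hρi, hσi]
  have hinv : σ⁻¹ - ρ⁻¹ = (ρ - σ) * σ⁻¹ * ρ⁻¹ := by
    field_simp
  rw [hinv, norm_mul, norm_mul, norm_sub_rev ρ σ]
  have hσi' : ‖σ⁻¹‖ ≤ 2 * B := by
    rw [norm_inv]
    have := (inv_le_comm₀ (by positivity : (0 : ℝ) < 2 * B) hσn).mp (by rw [← one_div]; exact hσB)
    exact this
  have hmain : ‖σ - ρ‖ * ‖σ⁻¹‖ * ‖ρ⁻¹‖ ≤ C3 / n * (2 * B) * B := by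
    apply mul_le_mul _ hBm (norm_nonneg _) (by positivity)
    exact mul_le_mul hdiff' hσi' (norm_nonneg _) (by positivity)
  refine hmain.trans ?_
  have e : C3 / n * (2 * B) * B = 2 * B ^ 2 * C3 / n := by ring
  rw [e]
  apply div_le_div_of_nonneg_right _ hn0.le
  linarith

end Pool.Agent.SHD
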