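import Mathlib
import Pool.Agent.SHD.ExpRay

set_option autoImplicit false

/-!
Double saddle points: the maps `Zf` and `tf` (module LOC1).
-/

noncomputable section

namespace Pool.Agent.SHD

open Polynomial Set Filter Topology

variable {ι : Type} [Fintype ι]

theorem loc1_inv (c w : ℂ) (h : w ≠ c) :
    HasStrictDerivAt (fun x : ℂ => (x - c)⁻¹) (-((w - c)⁻¹) ^ 2) w := by
  have h1 : w - c ≠ 0 := sub_ne_zero.2 h
  have h2 : HasStrictDerivAt (fun x : ℂ => x - c) 1 w := by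
    have h0 := (hasStrictDerivAt_id w).sub (hasStrictDerivAt_const w c)
    rw [sub_zero] at h0
    exact h0
  have h3 := (hasStrictDerivAt_inv h1).comp w h2
  have h4 : -((w - c) ^ 2)⁻¹ * 1 = -((w - c)⁻¹) ^ 2 := by
    rw [mul_one, inv_pow]
  rw [h4] at h3
  exact h3

theorem loc1_hh (b : ι → ℂ) (w : ℂ) (hw : ∀ i, w ≠ b i) :
    HasStrictDerivAt (hh b) (hh1 b w) w := by
  have h1 : HasStrictDerivAt (fun x : ℂ => ∑ i, (x - b i)⁻¹) (∑ i, -((w - b i)⁻¹) ^ 2) w :=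
    HasStrictDerivAt.fun_sum (fun i _ => loc1_inv (b i) w (hw i))
  have h2 : (∑ i, -((w - b i)⁻¹) ^ 2) = hh1 b w := by
    rw [hh1, Finset.sum_neg_distrib]
  rw [h2] at h1
  exact h1

theorem loc1_hh1 (b : ι → ℂ) (w : ℂ) (hw : ∀ i, w ≠ b i) :
    HasStrictDerivAt (hh1 b) (hh2 b w) w := by
  have h1 : HasStrictDerivAt (fun x : ℂ => ∑ i, ((x - b i)⁻¹) ^ 2)
      (∑ i, ((2 : ℕ) : ℂ) * ((w - b i)⁻¹) ^ (2 - 1) * (-((w - b i)⁻¹) ^ 2)) w :=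
    HasStrictDerivAt.fun_sum (fun i _ => (loc1_inv (b i) w (hw i)).fun_pow 2)
  have h3 : HasStrictDerivAt (fun x : ℂ => -∑ i, ((x - b i)⁻¹) ^ 2)
      (-(∑ i, ((2 : ℕ) : ℂ) * ((w - b i)⁻¹) ^ (2 - 1) * (-((w - b i)⁻¹) ^ 2))) w := h1.neg
  have h2 : -(∑ i, ((2 : ℕ) : ℂ) * ((w - b i)⁻¹) ^ (2 - 1) * (-((w - b i)⁻¹) ^ 2)) =
      hh2 b w := by
    rw [hh2, Finset.mul_sum, ← Finset.sum_neg_distrib]
    refine Finset.sum_congr rfl (fun i _ => ?_)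
    push_cast
    ring
  rw [h2] at h3
  exact h3

theorem Zf_hasDeriv (b : ι → ℂ) (w : ℂ) (hw : ∀ i, w ≠ b i) (h1 : hh1 b w ≠ 0) :
    HasStrictDerivAt (Zf b) (Kf b w / (hh1 b w) ^ 2) w := by
  have h2 := (hasStrictDerivAt_id w).add ((loc1_hh b w hw).fun_div (loc1_hh1 b w hw) h1)
  have h3 : 1 + (hh1 b w * hh1 b w - hh b w * hh2 b w) / hh1 b w ^ 2 =
      Kf b w / (hh1 b w) ^ 2 := by
    rw [Kf]
    field_simp
    ring
  rw [h3] at h2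
  exact h2

theorem tf_hasDeriv (b : ι → ℂ) (w : ℂ) (hw : ∀ i, w ≠ b i) (h1 : hh1 b w ≠ 0) :
    HasStrictDerivAt (tf b) (-(hh b w * Kf b w) / (hh1 b w) ^ 2) w := by
  have h2 : HasStrictDerivAt (fun x => -(hh b x) ^ 2)
      (-(((2 : ℕ) : ℂ) * (hh b w) ^ (2 - 1) * hh1 b w)) w := ((loc1_hh b w hw).fun_pow 2).neg
  have h3 := h2.fun_div (loc1_hh1 b w hw) h1
  have h4 : (-(((2 : ℕ) : ℂ) * (hh b w) ^ (2 - 1) * hh1 b w) * hh1 b w -
      -(hh b w) ^ 2 * hh2 b w) / hh1 b w ^ 2 = -(hh b w * Kf b w) / (hh1 b w) ^ 2 := by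
    rw [Kf]
    push_cast
    congr 1
    ring
  rw [h4] at h3
  exact h3

theorem Zf_ne (b : ι → ℂ) (w : ℂ) (h0 : hh b w ≠ 0) (h1 : hh1 b w ≠ 0) : w ≠ Zf b w := by
  intro h
  have h2 : hh b w / hh1 b w = 0 := by
    rw [Zf] at h
    linear_combination -h
  exact (div_ne_zero h0 h1) h2

/-- `w` is a double saddle point for `z = Zf b w` and `α = tf b w` -/
theorem ff_Zf (b : ι → ℂ) (w : ℂ) (t : ℝ) (h0 : hh b w ≠ 0) (h1 : hh1 b w ≠ 0)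
    (ht : tf b w = t) : ff b (Zf b w) t w = 0 ∧ ff1 b (Zf b w) t w = 0 ∧
      ff2 b (Zf b w) t w = -Kf b w / hh b w := by
  have h2 : (w - Zf b w)⁻¹ = -(hh1 b w / hh b w) := by
    have : w - Zf b w = -(hh b w / hh1 b w) := by
      rw [Zf]
      ring
    rw [this, inv_neg, inv_div]
  refine ⟨?_, ?_, ?_⟩
  · rw [ff, h2, ← ht, tf]
    field_simp
    ring
  · rw [ff1, h2, ← ht, tf]
    field_simp
    ring
  · rw [ff2, h2, ← ht, tf, Kf]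
    field_simp
    ring

/-- a chart of the `z`-plane near `Zf b ws`; the envelope is the preimage of the real line -/
structure Chart (b : ι → ℂ) (ws : ℂ) (Φ : OpenPartialHomeomorph ℂ ℂ) (wc : ℂ → ℂ) : Prop where
  mem : Zf b ws ∈ Φ.source
  wc0 : wc (Zf b ws) = ws
  cont : ContinuousOn wc Φ.source
  val : ∀ z ∈ Φ.source, Φ z = tf b (wc z)
  inv : ∀ z ∈ Φ.source, Zf b (wc z) = z
  nb : ∀ z ∈ Φ.source, ∀ i, wc z ≠ b i
  n0 : ∀ z ∈ Φ.source, hh b (wc z) ≠ 0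
  n1 : ∀ z ∈ Φ.source, hh1 b (wc z) ≠ 0
  nK : ∀ z ∈ Φ.source, Kf b (wc z) ≠ 0
  derivΦ : ∀ z ∈ Φ.source, HasDerivAt Φ (-hh b (wc z)) z
  derivw : ∀ z ∈ Φ.source, HasDerivAt wc ((hh1 b (wc z)) ^ 2 / Kf b (wc z)) z
  derivs : ∀ t ∈ Φ.target, HasDerivAt Φ.symm (-(hh b (wc (Φ.symm t)))⁻¹) t

/-- the points where all conditions hold -/
def loc1Set (b : ι → ℂ) : Set ℂ :=
  {w | (∀ i, w ≠ b i) ∧ hh b w ≠ 0 ∧ hh1 b w ≠ 0 ∧ Kf b w ≠ 0}

theorem loc1_cont2 (b : ι → ℂ) (w : ℂ) (hw : ∀ i, w ≠ b i) : ContinuousAt (hh2 b) w := by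
  have h1 : ContinuousAt (fun x : ℂ => 2 * ∑ i, ((x - b i)⁻¹) ^ 3) w := by
    refine continuousAt_const.mul ?_
    refine tendsto_finsetSum _ (fun i _ => ?_)
    exact ((continuousAt_id.sub continuousAt_const).inv₀ (sub_ne_zero.2 (hw i))).pow 3
  exact h1

theorem loc1_open (b : ι → ℂ) : IsOpen (loc1Set b) := by
  rw [isOpen_iff_mem_nhds]
  rintro w ⟨hw, h0, h1, hK⟩
  have c0 : ContinuousAt (hh b) w := (loc1_hh b w hw).hasDerivAt.continuousAt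
  have c1 : ContinuousAt (hh1 b) w := (loc1_hh1 b w hw).hasDerivAt.continuousAt
  have c2 : ContinuousAt (hh2 b) w := loc1_cont2 b w hw
  have cK : ContinuousAt (Kf b) w := by
    have : ContinuousAt (fun x => 2 * (hh1 b x) ^ 2 - hh b x * hh2 b x) w :=
      (continuousAt_const.mul (c1.pow 2)).sub (c0.mul c2)
    exact this
  have e0 : ∀ᶠ x in 𝓝 w, ∀ i, x ≠ b i :=
    Filter.eventually_all.2 (fun i => isOpen_ne.mem_nhds (hw i))
  filter_upwards [e0, c0.eventually_ne h0, c1.eventually_ne h1, cK.eventually_ne hK] with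
    x a1 a2 a3 a4
  exact ⟨a1, a2, a3, a4⟩

theorem exists_chart (b : ι → ℂ) (ws : ℂ) (hb : ∀ i, ws ≠ b i) (h0 : hh b ws ≠ 0)
    (h1 : hh1 b ws ≠ 0) (hK : Kf b ws ≠ 0) : ∃ Φ wc, Chart b ws Φ wc := by
  have hZ := Zf_hasDeriv b ws hb h1
  have hT := tf_hasDeriv b ws hb h1
  have hZ0 : Kf b ws / (hh1 b ws) ^ 2 ≠ 0 := div_ne_zero hK (pow_ne_zero _ h1)
  have hT0 : -(hh b ws * Kf b ws) / (hh1 b ws) ^ 2 ≠ 0 :=
    div_ne_zero (neg_ne_zero.2 (mul_ne_zero h0 hK)) (pow_ne_zero _ h1)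
  let Ψ₀ : OpenPartialHomeomorph ℂ ℂ :=
    (hZ.hasStrictFDerivAt_equiv hZ0).toOpenPartialHomeomorph (Zf b)
  let Θ : OpenPartialHomeomorph ℂ ℂ :=
    (hT.hasStrictFDerivAt_equiv hT0).toOpenPartialHomeomorph (tf b)
  have hΨc : ∀ x, Ψ₀ x = Zf b x := fun x => rfl
  have hΘc : ∀ x, Θ x = tf b x := fun x => rfl
  have hΨm : ws ∈ Ψ₀.source :=
    (hZ.hasStrictFDerivAt_equiv hZ0).mem_toOpenPartialHomeomorph_source
  have hΘm : ws ∈ Θ.source :=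
    (hT.hasStrictFDerivAt_equiv hT0).mem_toOpenPartialHomeomorph_source
  let Ψ : OpenPartialHomeomorph ℂ ℂ := Ψ₀.restrOpen (loc1Set b) (loc1_open b)
  have hΨs : Ψ.source = Ψ₀.source ∩ loc1Set b := Ψ₀.restrOpen_source _ _
  have hΨ1 : ∀ x, Ψ x = Zf b x := fun x => rfl
  have hwsm : ws ∈ Ψ.source := by
    rw [hΨs]
    exact ⟨hΨm, hb, h0, h1, hK⟩
  let Φ : OpenPartialHomeomorph ℂ ℂ := Ψ.symm.trans Θ
  have hΦs : ∀ z, z ∈ Φ.source ↔ z ∈ Ψ.target ∧ Ψ.symm z ∈ Θ.source := by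
    intro z
    rw [OpenPartialHomeomorph.trans_source]
    rfl
  have hval : ∀ z, Φ z = tf b (Ψ.symm z) := fun z => rfl
  have hgood : ∀ z ∈ Φ.source, Ψ.symm z ∈ loc1Set b := by
    intro z hz
    have := Ψ.map_target ((hΦs z).1 hz).1
    rw [hΨs] at this
    exact this.2
  have hinv : ∀ z ∈ Φ.source, Zf b (Ψ.symm z) = z := by
    intro z hz
    rw [← hΨ1]
    exact Ψ.right_inv ((hΦs z).1 hz).1
  have hsymm0 : Ψ.symm (Zf b ws) = ws := by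
    rw [← hΨ1]
    exact Ψ.left_inv hwsm
  have hdw : ∀ z ∈ Φ.source,
      HasDerivAt Ψ.symm ((hh1 b (Ψ.symm z)) ^ 2 / Kf b (Ψ.symm z)) z := by
    intro z hz
    obtain ⟨g0, g1, g2, g3⟩ := hgood z hz
    have d1 : HasDerivAt Ψ (Kf b (Ψ.symm z) / (hh1 b (Ψ.symm z)) ^ 2) (Ψ.symm z) :=
      (Zf_hasDeriv b _ g0 g2).hasDerivAt
    have d2 := Ψ.hasDerivAt_symm ((hΦs z).1 hz).1
      (div_ne_zero g3 (pow_ne_zero _ g2)) d1
    rw [inv_div] at d2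
    exact d2
  have hdΦ : ∀ z ∈ Φ.source, HasDerivAt Φ (-hh b (Ψ.symm z)) z := by
    intro z hz
    obtain ⟨g0, g1, g2, g3⟩ := hgood z hz
    have d1 := (tf_hasDeriv b _ g0 g2).hasDerivAt
    have d2 := d1.comp z (hdw z hz)
    have d3 : -(hh b (Ψ.symm z) * Kf b (Ψ.symm z)) / hh1 b (Ψ.symm z) ^ 2 *
        ((hh1 b (Ψ.symm z)) ^ 2 / Kf b (Ψ.symm z)) = -hh b (Ψ.symm z) := by
      field_simp
    rw [d3] at d2
    exact d2
  refine ⟨Φ, Ψ.symm, ?_, hsymm0, ?_, fun z _ => hval z, hinv, fun z hz => (hgood z hz).1,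
    fun z hz => (hgood z hz).2.1, fun z hz => (hgood z hz).2.2.1, fun z hz => (hgood z hz).2.2.2,
    hdΦ, hdw, ?_⟩
  · rw [hΦs, hsymm0]
    refine ⟨?_, hΘm⟩
    rw [← hΨ1]
    exact Ψ.map_source hwsm
  · intro z hz
    exact (Ψ.continuousOn_symm z ((hΦs z).1 hz).1).mono (fun x hx => ((hΦs x).1 hx).1)
  · intro t ht
    have hz : Φ.symm t ∈ Φ.source := Φ.map_target ht
    have d2 := Φ.hasDerivAt_symm ht (neg_ne_zero.2 (hgood _ hz).2.1) (hdΦ _ hz)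
    rw [inv_neg] at d2
    exact d2

end Pool.Agent.SHD
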