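import Mathlib
import Pool.Agent.SHD.ExpRay

set_option autoImplicit false

/-!
Existence of roots (module ROOT).
-/

namespace Pool.Agent.SHD

open Polynomial Set Filter Topology

variable {ι : Type} [Fintype ι]

/-- a function with derivative close to `a` on a ball has a zero in it if it is small at the
centre -/
theorem root_ball (f f' : ℂ → ℂ) (c a : ℂ) (r e : ℝ) (hr : 0 ≤ r)
    (hf : ∀ w ∈ Metric.closedBall c r, HasDerivAt f (f' w) w)
    (he : ∀ w ∈ Metric.closedBall c r, ‖f' w - a‖ ≤ e) (hea : e < ‖a‖)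
    (h0 : ‖f c‖ ≤ (‖a‖ - e) * r) : ∃ w ∈ Metric.closedBall c r, f w = 0 := by
  have hcc : c ∈ Metric.closedBall c r := Metric.mem_closedBall_self hr
  have he0 : 0 ≤ e := (norm_nonneg _).trans (he c hcc)
  have ha : 0 < ‖a‖ := lt_of_le_of_lt he0 hea
  have ha0 : a ≠ 0 := norm_pos_iff.1 ha
  have hK : e / ‖a‖ < 1 := by rw [div_lt_one ha]; exact hea
  have hK0 : 0 ≤ e / ‖a‖ := div_nonneg he0 ha.le
  have hlip : ∀ w ∈ Metric.closedBall c r, ∀ w' ∈ Metric.closedBall c r,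
      ‖(w' - f w' / a) - (w - f w / a)‖ ≤ e / ‖a‖ * ‖w' - w‖ := by
    intro w hw w' hw'
    refine (convex_closedBall c r).norm_image_sub_le_of_norm_hasDerivWithin_le
      (f := fun w => w - f w / a) (f' := fun w => 1 - f' w / a) ?_ ?_ hw hw'
    · intro x hx
      exact ((hasDerivAt_id x).sub ((hf x hx).div_const a)).hasDerivWithinAt
    · intro x hx
      have e1 : 1 - f' x / a = -((f' x - a) / a) := by
        field_simp
        ring
      rw [e1, norm_neg, norm_div]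
      exact div_le_div_of_nonneg_right (he x hx) ha.le
  have hmaps : MapsTo (fun w => w - f w / a) (Metric.closedBall c r) (Metric.closedBall c r) := by
    intro w hw
    rw [Metric.mem_closedBall, dist_eq_norm]
    have h1 := hlip c hcc w hw
    have h2 : w - f w / a - c = ((w - f w / a) - (c - f c / a)) + -(f c / a) := by ring
    have h3 : ‖w - c‖ ≤ r := by
      rw [← dist_eq_norm]
      exact Metric.mem_closedBall.1 hw
    have h4 : ‖f c / a‖ ≤ (‖a‖ - e) * r / ‖a‖ := by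
      rw [norm_div]
      exact div_le_div_of_nonneg_right h0 ha.le
    calc ‖w - f w / a - c‖ = ‖((w - f w / a) - (c - f c / a)) + -(f c / a)‖ := by rw [h2]
      _ ≤ ‖(w - f w / a) - (c - f c / a)‖ + ‖-(f c / a)‖ := norm_add_le _ _
      _ ≤ e / ‖a‖ * r + (‖a‖ - e) * r / ‖a‖ := by
          rw [norm_neg]
          exact add_le_add (h1.trans (mul_le_mul_of_nonneg_left h3 hK0)) h4
      _ = r := by
          field_simp
          ring
  have hcon : ContractingWith (Real.toNNReal (e / ‖a‖))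
      (hmaps.restrict (fun w => w - f w / a) (Metric.closedBall c r) (Metric.closedBall c r)) := by
    refine ⟨?_, ?_⟩
    · rw [← NNReal.coe_lt_coe, Real.coe_toNNReal _ hK0]
      exact_mod_cast hK
    · refine LipschitzWith.of_dist_le_mul ?_
      rintro ⟨x, hx⟩ ⟨y, hy⟩
      rw [Real.coe_toNNReal _ hK0]
      show dist (x - f x / a) (y - f y / a) ≤ e / ‖a‖ * dist x y
      rw [dist_eq_norm, dist_eq_norm]
      exact hlip y hy x hx
  obtain ⟨y, hy, hfix, -⟩ := ContractingWith.exists_fixedPoint'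
    (Metric.isClosed_closedBall.isComplete) hmaps hcon hcc (edist_ne_top _ _)
  refine ⟨y, hy, ?_⟩
  have h5 : y - f y / a = y := hfix
  have h6 : f y / a = 0 := by
    have := sub_eq_self.1 h5
    exact this
  rcases div_eq_zero_iff.1 h6 with h | h
  · exact h
  · exact absurd h ha0

private theorem root_diag (w₀ : ℂ) (p : ℕ → ℂ → Prop)
    (h : ∀ ε : ℝ, 0 < ε → ∀ᶠ k in atTop, ∃ w ∈ Metric.closedBall w₀ ε, p k w) :
    ∃ w : ℕ → ℂ, Tendsto w atTop (𝓝 w₀) ∧ ∀ᶠ k in atTop, p k (w k) := by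
  classical
  let Q : ℕ → ℕ → Prop := fun k j => ∃ w ∈ Metric.closedBall w₀ (1 / ((j : ℝ) + 1)), p k w
  let J : ℕ → ℕ := fun k => Nat.findGreatest (Q k) k
  let w : ℕ → ℂ := fun k => if hk : Q k (J k) then hk.choose else w₀
  have hQ : ∀ j : ℕ, ∀ᶠ k in atTop, Q k j := fun j => h _ (by positivity)
  have key : ∀ j : ℕ, ∀ᶠ k in atTop, j ≤ J k ∧ Q k (J k) := by
    intro j
    filter_upwards [hQ j, eventually_ge_atTop j] with k hk hjk
    refine ⟨Nat.le_findGreatest hjk hk, ?_⟩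
    exact Nat.findGreatest_spec hjk hk
  have hw : ∀ k, Q k (J k) → w k ∈ Metric.closedBall w₀ (1 / ((J k : ℝ) + 1)) ∧ p k (w k) := by
    intro k hk
    have e1 : w k = hk.choose := dif_pos hk
    rw [e1]
    exact hk.choose_spec
  refine ⟨w, ?_, ?_⟩
  · rw [Metric.tendsto_nhds]
    intro ε hε
    obtain ⟨j, hj⟩ := exists_nat_one_div_lt hε
    filter_upwards [key j] with k hk
    have h1 := (hw k hk.2).1
    rw [Metric.mem_closedBall] at h1
    refine lt_of_le_of_lt (h1.trans ?_) hj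
    apply one_div_le_one_div_of_le (by positivity)
    have : (j : ℝ) ≤ J k := by exact_mod_cast hk.1
    linarith
  · filter_upwards [key 0] with k hk
    exact (hw k hk.2).2

theorem root_seq (b : ι → ℂ) (z₀ w₀ : ℂ) (α₀ : ℝ) (hwz : w₀ ≠ z₀) (hwb : ∀ i, w₀ ≠ b i)
    (h0 : ff b z₀ α₀ w₀ = 0) (h1 : ff1 b z₀ α₀ w₀ ≠ 0) (z : ℕ → ℂ) (α : ℕ → ℝ)
    (hz : Tendsto z atTop (𝓝 z₀)) (hα : Tendsto α atTop (𝓝 α₀)) :
    ∃ w : ℕ → ℂ, Tendsto w atTop (𝓝 w₀) ∧ ∀ᶠ k in atTop, ff b (z k) (α k) (w k) = 0 := by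
  refine root_diag w₀ (fun k w => ff b (z k) (α k) w = 0) ?_
  intro ε hε
  have ha : 0 < ‖ff1 b z₀ α₀ w₀‖ := norm_pos_iff.2 h1
  have E1 : ∀ᶠ q : ℂ × ℝ × ℂ in 𝓝 (z₀, α₀, w₀), ‖ff1 b q.1 q.2.1 q.2.2 - ff1 b z₀ α₀ w₀‖ ≤
      ‖ff1 b z₀ α₀ w₀‖ / 2 := by
    have := (ff1_cont b z₀ α₀ w₀ hwb hwz).eventually
      (Metric.closedBall_mem_nhds (ff1 b z₀ α₀ w₀) (half_pos ha))
    filter_upwards [this] with q hq
    rwa [dist_eq_norm] at hq
  have E2 : ∀ᶠ q : ℂ × ℝ × ℂ in 𝓝 (z₀, α₀, w₀), q.2.2 ≠ q.1 := by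
    have hc : ContinuousAt (fun q : ℂ × ℝ × ℂ => q.2.2 - q.1) (z₀, α₀, w₀) := by fun_prop
    have := hc.eventually_ne (sub_ne_zero.2 hwz)
    filter_upwards [this] with q hq
    exact sub_ne_zero.1 hq
  have E3 : ∀ᶠ q : ℂ × ℝ × ℂ in 𝓝 (z₀, α₀, w₀), ∀ i, q.2.2 ≠ b i := by
    rw [eventually_all]
    intro i
    have hc : ContinuousAt (fun q : ℂ × ℝ × ℂ => q.2.2) (z₀, α₀, w₀) := by fun_prop
    exact hc.eventually_ne (hwb i)
  obtain ⟨δ, hδ, hball⟩ := Metric.eventually_nhds_iff_ball.1 (E1.and (E2.and E3))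
  have hr : 0 < min ε (δ / 2) := lt_min hε (half_pos hδ)
  have hff : ∀ᶠ k in atTop, ‖ff b (z k) (α k) w₀‖ ≤
      (‖ff1 b z₀ α₀ w₀‖ - ‖ff1 b z₀ α₀ w₀‖ / 2) * min ε (δ / 2) := by
    have hc := (ff_cont b z₀ α₀ w₀ hwb hwz).tendsto.comp
      (hz.prodMk_nhds (hα.prodMk_nhds (tendsto_const_nhds (x := w₀))))
    have hpos : 0 < (‖ff1 b z₀ α₀ w₀‖ - ‖ff1 b z₀ α₀ w₀‖ / 2) * min ε (δ / 2) := by
      apply mul_pos _ hr
      linarith
    have h2 := hc.eventually (Metric.closedBall_mem_nhds _ hpos)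
    filter_upwards [h2] with k hk
    simp only [Function.comp_apply, dist_eq_norm, h0, sub_zero] at hk
    exact hk
  filter_upwards [hff, hz.eventually (Metric.ball_mem_nhds _ hδ),
    hα.eventually (Metric.ball_mem_nhds _ hδ)] with k hk hzk hαk
  have hmem : ∀ w ∈ Metric.closedBall w₀ (min ε (δ / 2)),
      (z k, α k, w) ∈ Metric.ball ((z₀, α₀, w₀) : ℂ × ℝ × ℂ) δ := by
    intro w hw
    rw [Metric.mem_ball, Prod.dist_eq, Prod.dist_eq]
    have h3 : dist w w₀ < δ :=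
      lt_of_le_of_lt ((Metric.mem_closedBall.1 hw).trans (min_le_right _ _)) (half_lt_self hδ)
    exact max_lt hzk (max_lt hαk h3)
  obtain ⟨w, hw, hw0⟩ := root_ball (ff b (z k) (α k)) (ff1 b (z k) (α k)) w₀ (ff1 b z₀ α₀ w₀)
    (min ε (δ / 2)) (‖ff1 b z₀ α₀ w₀‖ / 2) hr.le
    (fun w hw => ff_hasDeriv b (z k) (α k) w (hball _ (hmem w hw)).2.2 (hball _ (hmem w hw)).2.1)
    (fun w hw => (hball _ (hmem w hw)).1) (by linarith) hk
  exact ⟨w, Metric.closedBall_subset_closedBall (min_le_left _ _) hw, hw0⟩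

end Pool.Agent.SHD
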