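import Mathlib
import Pool.Agent.SHD.Loc1
import Pool.Agent.SHD.RootSeq

set_option autoImplicit false

/-!
The local structure near the double saddle point (module LOC2).
-/

noncomputable section

namespace Pool.Agent.SHD

open Polynomial Set Filter Topology

variable {ι : Type} [Fintype ι]

/-- `τ_z(w) = h(w) (w - z)`; the saddle points for `(z, α)` are the solutions of `τ_z(w) = α` -/
def tau (b : ι → ℂ) (z w : ℂ) : ℂ := hh b w * (w - z)

/-- the derivative of `tau` in `w` -/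
def tau1 (b : ι → ℂ) (z w : ℂ) : ℂ := hh1 b w * (w - z) + hh b w

theorem loc2_hh_hasDeriv (b : ι → ℂ) (w : ℂ) (hw : ∀ i, w ≠ b i) :
    HasDerivAt (hh b) (hh1 b w) w := by
  have h : HasDerivAt (fun w : ℂ => ∑ i, (w - b i)⁻¹) (∑ i, -((w - b i)⁻¹) ^ 2) w := by
    apply HasDerivAt.fun_sum
    intro i _
    have h1 : HasDerivAt (fun w : ℂ => w - b i) 1 w := (hasDerivAt_id w).sub_const _
    have h2 := h1.inv (sub_ne_zero.mpr (hw i))
    refine h2.congr_deriv ?_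
    rw [inv_pow, neg_div, one_div]
  rw [Finset.sum_neg_distrib] at h
  exact h

theorem tau_hasDeriv (b : ι → ℂ) (z w : ℂ) (hw : ∀ i, w ≠ b i) :
    HasDerivAt (tau b z) (tau1 b z w) w := by
  have h1 := loc2_hh_hasDeriv b w hw
  have h2 : HasDerivAt (fun w : ℂ => w - z) 1 w := (hasDerivAt_id w).sub_const _
  have h3 := h1.mul h2
  refine h3.congr_deriv ?_
  unfold tau1
  ring

theorem ff_eq_zero_iff (b : ι → ℂ) (z w : ℂ) (α : ℝ) (hz : w ≠ z) :
    ff b z α w = 0 ↔ tau b z w = α := by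
  have hne : w - z ≠ 0 := sub_ne_zero.mpr hz
  unfold ff tau
  constructor
  · intro h
    have h' : hh b w = α * (w - z)⁻¹ := sub_eq_zero.mp h
    rw [h', mul_assoc, inv_mul_cancel₀ hne, mul_one]
  · intro h
    rw [← h, mul_assoc, mul_inv_cancel₀ hne, mul_one, sub_self]

theorem ff1_of_crit (b : ι → ℂ) (z w : ℂ) (α : ℝ) (hz : w ≠ z) (h : tau b z w = α) :
    ff1 b z α w = tau1 b z w / (w - z) := by
  have hne : w - z ≠ 0 := sub_ne_zero.mpr hz
  unfold ff1 tau1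
  rw [← h]
  unfold tau
  field_simp

theorem loc2_tau_eq (b : ι → ℂ) (z w : ℂ) (hw : ∀ i, w ≠ b i) :
    tau b z w = Fintype.card ι + ∑ i, (b i - z) * (w - b i)⁻¹ := by
  unfold tau hh
  rw [Finset.sum_mul]
  have h1 : (Fintype.card ι : ℂ) = ∑ _i : ι, (1 : ℂ) := by simp
  rw [h1, ← Finset.sum_add_distrib]
  apply Finset.sum_congr rfl
  intro i _
  have hne : w - b i ≠ 0 := sub_ne_zero.mpr (hw i)
  field_simp
  ring

theorem loc2_tau1_eq (b : ι → ℂ) (z w : ℂ) (hw : ∀ i, w ≠ b i) :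
    tau1 b z w = -∑ i, (b i - z) * ((w - b i)⁻¹) ^ 2 := by
  unfold tau1 hh hh1
  rw [neg_mul, Finset.sum_mul, ← Finset.sum_neg_distrib, ← Finset.sum_neg_distrib,
    ← Finset.sum_add_distrib]
  apply Finset.sum_congr rfl
  intro i _
  have hne : w - b i ≠ 0 := sub_ne_zero.mpr (hw i)
  field_simp
  ring

/-- the quadratic coefficient at a double saddle point `c`: exact formula -/
theorem tau_quad_exact (b : ι → ℂ) (z c w : ℂ) (hc : ∀ i, c ≠ b i) (hw : ∀ i, w ≠ b i)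
    (h : tau1 b z c = 0) :
    tau b z w - tau b z c = (w - c) ^ 2 * ∑ i, (b i - z) / ((w - b i) * (c - b i) ^ 2) := by
  rw [loc2_tau1_eq b z c hc] at h
  have h' : ∑ i, (b i - z) * ((c - b i)⁻¹) ^ 2 = 0 := neg_eq_zero.mp h
  rw [loc2_tau_eq b z w hw, loc2_tau_eq b z c hc]
  have e : (Fintype.card ι : ℂ) + ∑ i, (b i - z) * (w - b i)⁻¹ -
      (Fintype.card ι + ∑ i, (b i - z) * (c - b i)⁻¹) =
      (∑ i, (b i - z) * (w - b i)⁻¹ - ∑ i, (b i - z) * (c - b i)⁻¹) +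
        (w - c) * ∑ i, (b i - z) * ((c - b i)⁻¹) ^ 2 := by
    rw [h']
    ring
  rw [e, Finset.mul_sum, Finset.mul_sum, ← Finset.sum_sub_distrib, ← Finset.sum_add_distrib]
  apply Finset.sum_congr rfl
  intro i _
  have hne : w - b i ≠ 0 := sub_ne_zero.mpr (hw i)
  have hnc : c - b i ≠ 0 := sub_ne_zero.mpr (hc i)
  field_simp
  ring

theorem loc2_tau1_exact (b : ι → ℂ) (z c w : ℂ) (hc : ∀ i, c ≠ b i) (hw : ∀ i, w ≠ b i)
    (h : tau1 b z c = 0) :
    tau1 b z w = (w - c) * ∑ i, ((b i - z) / ((w - b i) * (c - b i) ^ 2) +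
      (b i - z) / ((w - b i) ^ 2 * (c - b i))) := by
  rw [loc2_tau1_eq b z c hc] at h
  have h' : ∑ i, (b i - z) * ((c - b i)⁻¹) ^ 2 = 0 := neg_eq_zero.mp h
  rw [loc2_tau1_eq b z w hw]
  have e : -∑ i, (b i - z) * ((w - b i)⁻¹) ^ 2 =
      ∑ i, (b i - z) * ((c - b i)⁻¹) ^ 2 - ∑ i, (b i - z) * ((w - b i)⁻¹) ^ 2 := by
    rw [h', zero_sub]
  rw [e, Finset.mul_sum, ← Finset.sum_sub_distrib]
  apply Finset.sum_congr rfl
  intro i _
  have hne : w - b i ≠ 0 := sub_ne_zero.mpr (hw i)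
  have hnc : c - b i ≠ 0 := sub_ne_zero.mpr (hc i)
  field_simp
  ring

/-- the facts at the double saddle point of a chart -/
theorem loc2_chart_facts (b : ι → ℂ) (ws : ℂ) (Φ : OpenPartialHomeomorph ℂ ℂ) (wc : ℂ → ℂ)
    (hC : Chart b ws Φ wc) (z : ℂ) (hz : z ∈ Φ.source) :
    tau1 b z (wc z) = 0 ∧ tau b z (wc z) = Φ z := by
  have h1 := hC.n1 z hz
  have hi := hC.inv z hz
  have hv := hC.val z hz
  have e : wc z - z = -(hh b (wc z) / hh1 b (wc z)) := by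
    have : wc z - Zf b (wc z) = -(hh b (wc z) / hh1 b (wc z)) := by
      unfold Zf
      ring
    rw [hi] at this
    exact this
  constructor
  · unfold tau1
    rw [e]
    field_simp
    ring
  · rw [hv]
    unfold tau tf
    rw [e]
    field_simp

/-- uniform quadratic approximation -/
theorem tau_quad (b : ι → ℂ) (ws : ℂ) (Φ : OpenPartialHomeomorph ℂ ℂ) (wc : ℂ → ℂ)
    (hC : Chart b ws Φ wc) (ts : ℝ) (hts : tf b ws = ts) (q : ℂ)
    (hq : q = ff2 b (Zf b ws) ts ws * (ws - Zf b ws) / 2) (ε : ℝ) (hε : 0 < ε) :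
    ∃ R > 0, ∃ δ > 0, ∀ z ∈ Metric.ball (Zf b ws) δ, z ∈ Φ.source ∧
      ∀ w ∈ Metric.ball ws R, (∀ i, w ≠ b i) ∧ w ≠ z ∧
        ‖tau b z w - Φ z - q * (w - wc z) ^ 2‖ ≤ ε * ‖w - wc z‖ ^ 2 ∧
        ‖tau1 b z w - 2 * q * (w - wc z)‖ ≤ ε * ‖w - wc z‖ := by
  have hm := hC.mem
  have hb : ∀ i, ws ≠ b i := by
    have := hC.nb _ hm
    rwa [hC.wc0] at this
  have h0 : hh b ws ≠ 0 := by
    have := hC.n0 _ hm
    rwa [hC.wc0] at this
  have h1 : hh1 b ws ≠ 0 := by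
    have := hC.n1 _ hm
    rwa [hC.wc0] at this
  have hwz : ws ≠ Zf b ws := Zf_ne b ws h0 h1
  have hwz' : ws - Zf b ws ≠ 0 := sub_ne_zero.mpr hwz
  have hbi : ∀ i, ws - b i ≠ 0 := fun i => sub_ne_zero.mpr (hb i)
  obtain ⟨-, hf1, -⟩ := ff_Zf b ws ts h0 h1 hts
  -- the value of q
  have hq1 : q = ∑ i, (b i - Zf b ws) / ((ws - b i) * (ws - b i) ^ 2) := by
    have e1 : (ts : ℂ) * ((ws - Zf b ws)⁻¹) ^ 2 = ∑ i, ((ws - b i)⁻¹) ^ 2 := by
      unfold ff1 hh1 at hf1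
      linear_combination hf1
    have e2 : ff2 b (Zf b ws) ts ws * (ws - Zf b ws) / 2 =
        (∑ i, ((ws - b i)⁻¹) ^ 3) * (ws - Zf b ws) - (ts : ℂ) * ((ws - Zf b ws)⁻¹) ^ 2 := by
      unfold ff2 hh2
      field_simp
    rw [hq, e2, e1, Finset.sum_mul, ← Finset.sum_sub_distrib]
    apply Finset.sum_congr rfl
    intro i _
    have := hbi i
    field_simp
    ring
  have hcw : ContinuousAt wc (Zf b ws) := hC.cont.continuousAt (Φ.open_source.mem_nhds hm)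
  -- continuity
  have hcz : ContinuousAt (fun p : ℂ × ℂ => p.1) (Zf b ws, ws) := continuousAt_fst
  have hcww : ContinuousAt (fun p : ℂ × ℂ => p.2) (Zf b ws, ws) := continuousAt_snd
  have hcc : ContinuousAt (fun p : ℂ × ℂ => wc p.1) (Zf b ws, ws) :=
    ContinuousAt.comp (f := fun p : ℂ × ℂ => p.1) hcw continuousAt_fst
  have hS : ContinuousAt (fun p : ℂ × ℂ =>
      ∑ i, (b i - p.1) / ((p.2 - b i) * (wc p.1 - b i) ^ 2)) (Zf b ws, ws) := by
    apply tendsto_finsetSum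
    intro i _
    apply ContinuousAt.div
    · exact continuousAt_const.sub hcz
    · exact (hcww.sub continuousAt_const).mul ((hcc.sub continuousAt_const).pow 2)
    · simp only [hC.wc0]
      exact mul_ne_zero (hbi i) (pow_ne_zero _ (hbi i))
  have hS2 : ContinuousAt (fun p : ℂ × ℂ =>
      ∑ i, ((b i - p.1) / ((p.2 - b i) * (wc p.1 - b i) ^ 2) +
        (b i - p.1) / ((p.2 - b i) ^ 2 * (wc p.1 - b i)))) (Zf b ws, ws) := by
    apply tendsto_finsetSum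
    intro i _
    apply ContinuousAt.add
    · apply ContinuousAt.div
      · exact continuousAt_const.sub hcz
      · exact (hcww.sub continuousAt_const).mul ((hcc.sub continuousAt_const).pow 2)
      · simp only [hC.wc0]
        exact mul_ne_zero (hbi i) (pow_ne_zero _ (hbi i))
    · apply ContinuousAt.div
      · exact continuousAt_const.sub hcz
      · exact ((hcww.sub continuousAt_const).pow 2).mul (hcc.sub continuousAt_const)
      · simp only [hC.wc0]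
        exact mul_ne_zero (pow_ne_zero _ (hbi i)) (hbi i)
  have v1 : ∑ i, (b i - Zf b ws) / ((ws - b i) * (wc (Zf b ws) - b i) ^ 2) = q := by
    simp only [hC.wc0]
    exact hq1.symm
  have v2 : ∑ i, ((b i - Zf b ws) / ((ws - b i) * (wc (Zf b ws) - b i) ^ 2) +
        (b i - Zf b ws) / ((ws - b i) ^ 2 * (wc (Zf b ws) - b i))) = 2 * q := by
    simp only [hC.wc0]
    rw [hq1, two_mul, ← Finset.sum_add_distrib]
    apply Finset.sum_congr rfl
    intro i _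
    congr 2
    ring
  have E1 : ∀ᶠ p : ℂ × ℂ in 𝓝 (Zf b ws, ws),
      ‖(∑ i, (b i - p.1) / ((p.2 - b i) * (wc p.1 - b i) ^ 2)) - q‖ < ε := by
    have := Metric.continuousAt_iff'.mp hS ε hε
    simp only [v1] at this
    filter_upwards [this] with p hp
    rwa [dist_eq_norm] at hp
  have E2 : ∀ᶠ p : ℂ × ℂ in 𝓝 (Zf b ws, ws),
      ‖(∑ i, ((b i - p.1) / ((p.2 - b i) * (wc p.1 - b i) ^ 2) +
        (b i - p.1) / ((p.2 - b i) ^ 2 * (wc p.1 - b i)))) - 2 * q‖ < ε := by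
    have := Metric.continuousAt_iff'.mp hS2 ε hε
    simp only [v2] at this
    filter_upwards [this] with p hp
    rwa [dist_eq_norm] at hp
  have E3 : ∀ᶠ p : ℂ × ℂ in 𝓝 (Zf b ws, ws), ∀ i, p.2 ≠ b i := by
    rw [Filter.eventually_all]
    intro i
    exact hcww.eventually_ne (hb i)
  have E4 : ∀ᶠ p : ℂ × ℂ in 𝓝 (Zf b ws, ws), p.2 - p.1 ≠ 0 :=
    (hcww.sub hcz).eventually_ne hwz'
  have E5 : ∀ᶠ p : ℂ × ℂ in 𝓝 (Zf b ws, ws), p.1 ∈ Φ.source :=
    hcz.eventually (Φ.open_source.mem_nhds hm)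
  have E := E1.and (E2.and (E3.and (E4.and E5)))
  obtain ⟨η, hη, hE⟩ := Metric.eventually_nhds_iff_ball.mp E
  have key : ∀ z ∈ Metric.ball (Zf b ws) η, ∀ w ∈ Metric.ball ws η,
      (z, w) ∈ Metric.ball (Zf b ws, ws) η := by
    intro z hz w hw
    rw [Metric.mem_ball, Prod.dist_eq]
    exact max_lt hz hw
  refine ⟨η, hη, η, hη, ?_⟩
  intro z hz
  have hzs : z ∈ Φ.source := (hE _ (key z hz ws (Metric.mem_ball_self hη))).2.2.2.2
  refine ⟨hzs, ?_⟩
  intro w hw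
  obtain ⟨g1, g2, g3, g4, -⟩ := hE _ (key z hz w hw)
  simp only at g1 g2 g3 g4
  obtain ⟨t1, t0⟩ := loc2_chart_facts b ws Φ wc hC z hzs
  have hcb : ∀ i, wc z ≠ b i := hC.nb z hzs
  refine ⟨g3, sub_ne_zero.mp g4, ?_, ?_⟩
  · have e := tau_quad_exact b z (wc z) w hcb g3 t1
    have e' : tau b z w - Φ z - q * (w - wc z) ^ 2 =
        (w - wc z) ^ 2 * ((∑ i, (b i - z) / ((w - b i) * (wc z - b i) ^ 2)) - q) := by
      rw [← t0, e]
      ring
    rw [e', norm_mul, norm_pow, mul_comm]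
    exact mul_le_mul_of_nonneg_right g1.le (by positivity)
  · have e := loc2_tau1_exact b z (wc z) w hcb g3 t1
    have e' : tau1 b z w - 2 * q * (w - wc z) =
        (w - wc z) * ((∑ i, ((b i - z) / ((w - b i) * (wc z - b i) ^ 2) +
          (b i - z) / ((w - b i) ^ 2 * (wc z - b i)))) - 2 * q) := by
      rw [e]
      ring
    rw [e', norm_mul, mul_comm]
    exact mul_le_mul_of_nonneg_right g2.le (norm_nonneg _)

/-- the two saddle points near the double saddle point -/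
theorem double_root (b : ι → ℂ) (ws : ℂ) (Φ : OpenPartialHomeomorph ℂ ℂ) (wc : ℂ → ℂ)
    (hC : Chart b ws Φ wc) (ts : ℝ) (hts : tf b ws = ts) (σ : ℂ)
    (hσ : σ ^ 2 * (ff2 b (Zf b ws) ts ws * (ws - Zf b ws)) = 2) (ε : ℝ) (hε : 0 < ε) :
    ∃ δ > 0, ∀ z ∈ Metric.ball (Zf b ws) δ, z ∈ Φ.source ∧ ∀ α : ℝ, |α - ts| < δ →
      ∀ ρ : ℂ, ρ ^ 2 = α - Φ z → ∃ w, ‖w - wc z - σ * ρ‖ ≤ ε * ‖ρ‖ ∧ w ≠ z ∧
        ff b z α w = 0 ∧
        ‖ff1 b z α w - ff2 b (Zf b ws) ts ws * σ * ρ‖ ≤ ε * ‖ρ‖ := by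
  have hm := hC.mem
  have h0 : hh b ws ≠ 0 := by
    have := hC.n0 _ hm
    rwa [hC.wc0] at this
  have h1 : hh1 b ws ≠ 0 := by
    have := hC.n1 _ hm
    rwa [hC.wc0] at this
  have hwz' : ws - Zf b ws ≠ 0 := sub_ne_zero.mpr (Zf_ne b ws h0 h1)
  have hΦ0 : Φ (Zf b ws) = ts := by
    rw [hC.val _ hm, hC.wc0, hts]
  obtain ⟨q, hq⟩ : ∃ q, q = ff2 b (Zf b ws) ts ws * (ws - Zf b ws) / 2 := ⟨_, rfl⟩
  have hqσ : q * σ ^ 2 = 1 := by
    rw [hq]
    linear_combination hσ / 2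
  have hff2 : ff2 b (Zf b ws) ts ws = 2 * q / (ws - Zf b ws) := by
    rw [hq]
    field_simp
  have hq0 : q ≠ 0 := by
    rintro rfl
    simp at hqσ
  have hσ0 : σ ≠ 0 := by
    rintro rfl
    simp at hqσ
  obtain ⟨s, hs⟩ : ∃ s, s = ‖σ‖ := ⟨_, rfl⟩
  obtain ⟨κ, hκ⟩ : ∃ κ, κ = ‖q‖ := ⟨_, rfl⟩
  obtain ⟨D, hD⟩ : ∃ D, D = ‖ws - Zf b ws‖ := ⟨_, rfl⟩
  have hs0 : 0 < s := by rw [hs]; exact norm_pos_iff.mpr hσ0
  have hκ0 : 0 < κ := by rw [hκ]; exact norm_pos_iff.mpr hq0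
  have hD0 : 0 < D := by rw [hD]; exact norm_pos_iff.mpr hwz'
  obtain ⟨ε', hε'⟩ : ∃ e, e = min ε (min (s / 4) (ε * D / (16 * κ))) := ⟨_, rfl⟩
  have hε'0 : 0 < ε' := by
    rw [hε']
    refine lt_min hε (lt_min (by positivity) (by positivity))
  have hε'1 : ε' ≤ ε := by rw [hε']; exact min_le_left _ _
  have hε'2 : ε' ≤ s / 4 := by
    rw [hε']; exact (min_le_right _ _).trans (min_le_left _ _)
  have hε'3 : 16 * κ * ε' ≤ ε * D := by
    have : ε' ≤ ε * D / (16 * κ) := by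
      rw [hε']; exact (min_le_right _ _).trans (min_le_right _ _)
    rw [le_div_iff₀ (by positivity)] at this
    linarith
  obtain ⟨ε₂, hε₂⟩ : ∃ e, e = κ * ε' / s := ⟨_, rfl⟩
  have hε₂0 : 0 < ε₂ := by rw [hε₂]; positivity
  have hε₂s : ε₂ * s = κ * ε' := by rw [hε₂]; field_simp
  obtain ⟨R, hR, δ₀, hδ₀, H⟩ := tau_quad b ws Φ wc hC ts hts q hq ε₂ hε₂0
  obtain ⟨η₀, hη₀⟩ : ∃ e, e = min (D / 4) (ε * D ^ 2 / (16 * κ * s)) := ⟨_, rfl⟩
  have hη₀0 : 0 < η₀ := by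
    rw [hη₀]
    exact lt_min (by positivity) (by positivity)
  have hη₀1 : η₀ ≤ D / 4 := by rw [hη₀]; exact min_le_left _ _
  have hη₀2 : 16 * κ * s * η₀ ≤ ε * D ^ 2 := by
    have : η₀ ≤ ε * D ^ 2 / (16 * κ * s) := by rw [hη₀]; exact min_le_right _ _
    rw [le_div_iff₀ (by positivity)] at this
    linarith
  obtain ⟨R₁, hR₁⟩ : ∃ e, e = min R η₀ := ⟨_, rfl⟩
  have hR₁0 : 0 < R₁ := by rw [hR₁]; exact lt_min hR hη₀0
  have hR₁R : R₁ ≤ R := by rw [hR₁]; exact min_le_left _ _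
  have hR₁η : R₁ ≤ η₀ := by rw [hR₁]; exact min_le_right _ _
  obtain ⟨β, hβ⟩ : ∃ e, e = (R₁ / (4 * s)) ^ 2 / 2 := ⟨_, rfl⟩
  have hβ0 : 0 < β := by rw [hβ]; positivity
  have hcw : ContinuousAt wc (Zf b ws) := hC.cont.continuousAt (Φ.open_source.mem_nhds hm)
  have hcΦ : ContinuousAt Φ (Zf b ws) := (hC.derivΦ _ hm).continuousAt
  obtain ⟨δ₁, hδ₁, H1⟩ := Metric.continuousAt_iff.mp hcw (R₁ / 2) (by positivity)
  obtain ⟨δ₂, hδ₂, H2⟩ := Metric.continuousAt_iff.mp hcΦ β hβ0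
  rw [hC.wc0] at H1
  rw [hΦ0] at H2
  obtain ⟨δ, hδ⟩ : ∃ e, e = min δ₀ (min η₀ (min δ₁ (min δ₂ β))) := ⟨_, rfl⟩
  have hδ0 : 0 < δ := by
    rw [hδ]
    exact lt_min hδ₀ (lt_min hη₀0 (lt_min hδ₁ (lt_min hδ₂ hβ0)))
  have hδa : δ ≤ δ₀ := by rw [hδ]; exact min_le_left _ _
  have hδb : δ ≤ η₀ := by rw [hδ]; exact (min_le_right _ _).trans (min_le_left _ _)
  have hδc : δ ≤ δ₁ := by
    rw [hδ]
    exact (min_le_right _ _).trans ((min_le_right _ _).trans (min_le_left _ _))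
  have hδd : δ ≤ δ₂ := by
    rw [hδ]
    exact (min_le_right _ _).trans ((min_le_right _ _).trans
      ((min_le_right _ _).trans (min_le_left _ _)))
  have hδe : δ ≤ β := by
    rw [hδ]
    exact (min_le_right _ _).trans ((min_le_right _ _).trans
      ((min_le_right _ _).trans (min_le_right _ _)))
  refine ⟨δ, hδ0, ?_⟩
  intro z hz
  have hzd : dist z (Zf b ws) < δ := hz
  obtain ⟨hzs, Hz⟩ := H z (Metric.ball_subset_ball hδa hz)
  refine ⟨hzs, ?_⟩
  intro α hα ρ hρ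
  obtain ⟨t1, t0⟩ := loc2_chart_facts b ws Φ wc hC z hzs
  have hcz : ‖wc z - ws‖ < R₁ / 2 := by
    rw [← dist_eq_norm]
    exact H1 (hzd.trans_le hδc)
  have hΦz : ‖Φ z - ts‖ < β := by
    rw [← dist_eq_norm]
    exact H2 (hzd.trans_le hδd)
  have hρn : 4 * s * ‖ρ‖ < R₁ := by
    have e1 : ‖ρ‖ ^ 2 < (R₁ / (4 * s)) ^ 2 := by
      rw [← norm_pow, hρ]
      have e2 : (α : ℂ) - Φ z = ((α - ts : ℝ) : ℂ) - (Φ z - ts) := by
        push_cast
        ring
      rw [e2]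
      refine (norm_sub_le _ _).trans_lt ?_
      rw [Complex.norm_real, Real.norm_eq_abs]
      have : |α - ts| < β := hα.trans_le hδe
      have e3 : (R₁ / (4 * s)) ^ 2 = β + β := by rw [hβ]; ring
      rw [e3]
      exact add_lt_add this hΦz
    have e4 : ‖ρ‖ < R₁ / (4 * s) := lt_of_pow_lt_pow_left₀ 2 (by positivity) e1
    rw [lt_div_iff₀ (by positivity)] at e4
    linarith
  rcases eq_or_ne ρ 0 with hρ0 | hρ0
  · subst hρ0
    have hα' : (α : ℂ) = Φ z := by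
      have : (α : ℂ) - Φ z = 0 := by rw [← hρ]; ring
      exact sub_eq_zero.mp this
    have hwR : wc z ∈ Metric.ball ws R := by
      rw [Metric.mem_ball, dist_eq_norm]
      linarith
    obtain ⟨-, hne, -, -⟩ := Hz (wc z) hwR
    have ht : tau b z (wc z) = α := by rw [t0, hα']
    refine ⟨wc z, by simp, hne, (ff_eq_zero_iff b z _ α hne).mpr ht, ?_⟩
    rw [ff1_of_crit b z _ α hne ht, t1]
    simp
  · have hρp : 0 < ‖ρ‖ := norm_pos_iff.mpr hρ0
    -- every point of the small ball is in the ball of radius R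
    have hball : ∀ w ∈ Metric.closedBall (wc z + σ * ρ) (ε' * ‖ρ‖), ‖w - ws‖ < R₁ ∧
        ‖w - wc z‖ ≤ (s + ε') * ‖ρ‖ ∧ ‖w - (wc z + σ * ρ)‖ ≤ ε' * ‖ρ‖ := by
      intro w hw
      rw [Metric.mem_closedBall, dist_eq_norm] at hw
      have e1 : ‖w - wc z‖ ≤ (s + ε') * ‖ρ‖ := by
        have : w - wc z = (w - (wc z + σ * ρ)) + σ * ρ := by ring
        rw [this]
        refine (norm_add_le _ _).trans ?_
        rw [norm_mul, ← hs]
        linarith
      refine ⟨?_, e1, hw⟩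
      have e2 : w - ws = (w - wc z) + (wc z - ws) := by ring
      rw [e2]
      refine (norm_add_le _ _).trans_lt ?_
      have e3 : (s + ε') * ‖ρ‖ ≤ 2 * s * ‖ρ‖ :=
        mul_le_mul_of_nonneg_right (by linarith) hρp.le
      linarith
    have hdiff : ∀ w ∈ Metric.closedBall (wc z + σ * ρ) (ε' * ‖ρ‖),
        ‖tau1 b z w - 2 * q * (σ * ρ)‖ ≤ 4 * κ * ε' * ‖ρ‖ := by
      intro w hw
      obtain ⟨g1, g2, g3⟩ := hball w hw
      have hwR : w ∈ Metric.ball ws R := by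
        rw [Metric.mem_ball, dist_eq_norm]
        linarith
      obtain ⟨-, -, -, g4⟩ := Hz w hwR
      have e1 : tau1 b z w - 2 * q * (σ * ρ) =
          (tau1 b z w - 2 * q * (w - wc z)) + 2 * q * (w - (wc z + σ * ρ)) := by ring
      rw [e1]
      refine (norm_add_le _ _).trans ?_
      rw [norm_mul, norm_mul, ← hκ]
      have e2 : ‖(2 : ℂ)‖ = 2 := by simp
      rw [e2]
      have e3 : ε₂ * ‖w - wc z‖ ≤ 2 * (κ * ε') * ‖ρ‖ := by
        have e4 : ε₂ * ‖w - wc z‖ ≤ ε₂ * ((2 * s) * ‖ρ‖) := by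
          refine mul_le_mul_of_nonneg_left (g2.trans ?_) hε₂0.le
          exact mul_le_mul_of_nonneg_right (by linarith) hρp.le
        have e5 : ε₂ * ((2 * s) * ‖ρ‖) = 2 * (ε₂ * s) * ‖ρ‖ := by ring
        rw [e5, hε₂s] at e4
        exact e4
      have e6 : 2 * κ * ‖w - (wc z + σ * ρ)‖ ≤ 2 * κ * (ε' * ‖ρ‖) :=
        mul_le_mul_of_nonneg_left g3 (by positivity)
      nlinarith [g4, e3, e6]
    have hcen : wc z + σ * ρ ∈ Metric.closedBall (wc z + σ * ρ) (ε' * ‖ρ‖) :=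
      Metric.mem_closedBall_self (by positivity)
    have na : ‖2 * q * (σ * ρ)‖ = 2 * κ * s * ‖ρ‖ := by
      rw [norm_mul, norm_mul, norm_mul, ← hκ, ← hs]
      simp only [Complex.norm_ofNat]
      ring
    have he : 4 * κ * ε' * ‖ρ‖ ≤ κ * s * ‖ρ‖ := by
      have : 4 * ε' ≤ s := by linarith
      have h2 : (4 * ε') * (κ * ‖ρ‖) ≤ s * (κ * ‖ρ‖) :=
        mul_le_mul_of_nonneg_right this (by positivity)
      linarith
    have hpos : 0 < κ * s * ‖ρ‖ := by positivity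
    obtain ⟨w, hw, hfw⟩ := root_ball (fun w => tau b z w - α) (tau1 b z) (wc z + σ * ρ)
      (2 * q * (σ * ρ)) (ε' * ‖ρ‖) (4 * κ * ε' * ‖ρ‖) (by positivity)
      (by
        intro w hw
        obtain ⟨g1, g2, g3⟩ := hball w hw
        have hwR : w ∈ Metric.ball ws R := by
          rw [Metric.mem_ball, dist_eq_norm]
          linarith
        exact (tau_hasDeriv b z w (Hz w hwR).1).sub_const _)
      hdiff (by rw [na]; linarith)
      (by
        obtain ⟨g1, g2, g3⟩ := hball _ hcen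
        have hwR : wc z + σ * ρ ∈ Metric.ball ws R := by
          rw [Metric.mem_ball, dist_eq_norm]
          linarith
        obtain ⟨-, -, g4, -⟩ := Hz _ hwR
        have e1 : tau b z (wc z + σ * ρ) - Φ z - q * (wc z + σ * ρ - wc z) ^ 2 =
            tau b z (wc z + σ * ρ) - α := by
          have : q * (wc z + σ * ρ - wc z) ^ 2 = (q * σ ^ 2) * ρ ^ 2 := by ring
          rw [this, hqσ, hρ]
          ring
        rw [e1] at g4
        have e2 : wc z + σ * ρ - wc z = σ * ρ := by ring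
        rw [e2, norm_mul, ← hs] at g4
        refine g4.trans ?_
        rw [na]
        have e3 : ε₂ * (s * ‖ρ‖) ^ 2 = (ε₂ * s) * s * ‖ρ‖ ^ 2 := by ring
        rw [e3, hε₂s]
        have e4 : κ * s * ‖ρ‖ * (ε' * ‖ρ‖) ≤
            (2 * κ * s * ‖ρ‖ - 4 * κ * ε' * ‖ρ‖) * (ε' * ‖ρ‖) :=
          mul_le_mul_of_nonneg_right (by linarith) (by positivity)
        calc κ * ε' * s * ‖ρ‖ ^ 2 = κ * s * ‖ρ‖ * (ε' * ‖ρ‖) := by ring
          _ ≤ _ := e4)
    obtain ⟨g1, g2, g3⟩ := hball w hw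
    have hwR : w ∈ Metric.ball ws R := by
      rw [Metric.mem_ball, dist_eq_norm]
      linarith
    obtain ⟨-, hne, -, -⟩ := Hz w hwR
    have ht : tau b z w = α := sub_eq_zero.mp hfw
    refine ⟨w, ?_, hne, (ff_eq_zero_iff b z w α hne).mpr ht, ?_⟩
    · have : w - wc z - σ * ρ = w - (wc z + σ * ρ) := by ring
      rw [this]
      exact g3.trans (mul_le_mul_of_nonneg_right hε'1 hρp.le)
    · rw [ff1_of_crit b z w α hne ht, hff2]
      have hwzn : w - z ≠ 0 := sub_ne_zero.mpr hne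
      have hzn : ‖z - Zf b ws‖ < η₀ := by
        rw [← dist_eq_norm]
        exact hzd.trans_le hδb
      have hdist : D / 2 ≤ ‖w - z‖ := by
        have e1 : ws - Zf b ws = (w - z) - (w - ws) + (z - Zf b ws) := by ring
        have e2 : D ≤ ‖w - z‖ + ‖w - ws‖ + ‖z - Zf b ws‖ := by
          rw [hD, e1]
          refine (norm_add_le _ _).trans ?_
          have := norm_sub_le (w - z) (w - ws)
          linarith
        linarith
      have e0 : tau1 b z w / (w - z) - 2 * q / (ws - Zf b ws) * σ * ρ =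
          (tau1 b z w - 2 * q * (σ * ρ)) / (w - z) +
            2 * q * (σ * ρ) * (((ws - Zf b ws) - (w - z)) / ((w - z) * (ws - Zf b ws))) := by
        field_simp
        ring
      rw [e0]
      refine (norm_add_le _ _).trans ?_
      rw [norm_div, norm_mul, na, norm_div, norm_mul, ← hD]
      have b1 : ‖tau1 b z w - 2 * q * (σ * ρ)‖ / ‖w - z‖ ≤ ε / 2 * ‖ρ‖ := by
        rw [div_le_iff₀ (by linarith)]
        refine (hdiff w hw).trans ?_
        have c1 : ε / 2 * ‖ρ‖ * (D / 2) ≤ ε / 2 * ‖ρ‖ * ‖w - z‖ :=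
          mul_le_mul_of_nonneg_left hdist (by positivity)
        have c2 : 16 * κ * ε' * ‖ρ‖ ≤ ε * D * ‖ρ‖ :=
          mul_le_mul_of_nonneg_right hε'3 hρp.le
        linarith
      have b2 : ‖ws - Zf b ws - (w - z)‖ ≤ 2 * η₀ := by
        have : ws - Zf b ws - (w - z) = -(w - ws) + (z - Zf b ws) := by ring
        rw [this]
        refine (norm_add_le _ _).trans ?_
        rw [norm_neg]
        linarith
      have b3 : 2 * κ * s * ‖ρ‖ * (‖ws - Zf b ws - (w - z)‖ / (‖w - z‖ * D)) ≤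
          ε / 2 * ‖ρ‖ := by
        rw [← mul_div_assoc, div_le_iff₀ (mul_pos (by linarith) hD0)]
        have c1 : 2 * κ * s * ‖ρ‖ * ‖ws - Zf b ws - (w - z)‖ ≤
            2 * κ * s * ‖ρ‖ * (2 * η₀) :=
          mul_le_mul_of_nonneg_left b2 (by positivity)
        have c2 : ε / 2 * ‖ρ‖ * (D / 2 * D) ≤ ε / 2 * ‖ρ‖ * (‖w - z‖ * D) := by
          refine mul_le_mul_of_nonneg_left ?_ (by positivity)
          exact mul_le_mul_of_nonneg_right hdist hD0.le
        have c3 : 16 * κ * s * η₀ * ‖ρ‖ ≤ ε * D ^ 2 * ‖ρ‖ :=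
          mul_le_mul_of_nonneg_right hη₀2 hρp.le
        calc 2 * κ * s * ‖ρ‖ * ‖ws - Zf b ws - (w - z)‖ ≤ 2 * κ * s * ‖ρ‖ * (2 * η₀) := c1
          _ = (16 * κ * s * η₀ * ‖ρ‖) / 4 := by ring
          _ ≤ (ε * D ^ 2 * ‖ρ‖) / 4 := by linarith
          _ = ε / 2 * ‖ρ‖ * (D / 2 * D) := by ring
          _ ≤ _ := c2
      linarith

end Pool.Agent.SHD
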