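import Mathlib
import Pool.Agent.SHD.Loc2

set_option autoImplicit false

/-!
The ratios are close to saddle points (module DYN2).
-/

namespace Pool.Agent.SHD

open Polynomial Set Filter Topology

variable {ι : Type} [Fintype ι]

/-- Taylor expansion of `P` at `z`. -/
private lemma dyn2_sum (b : ι → ℂ) (z w : ℂ) : (PP b).eval w =
    ∑ m ∈ Finset.range (Fintype.card ι + 1), Tn b 1 m z * (w - z) ^ m := by
  have h := Tn_sum b 1 z w
  rw [pow_one, one_mul] at h
  exact h

/-- The derivative of `P` from the Taylor expansion. -/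
private lemma dyn2_deriv (b : ι → ℂ) (z w : ℂ) : (derivative (PP b)).eval w * (w - z) =
    ∑ m ∈ Finset.range (Fintype.card ι + 1), Tn b 1 m z * ((m : ℂ) * (w - z) ^ m) := by
  have h1 : HasDerivAt (fun w => (PP b).eval w) ((derivative (PP b)).eval w) w := (PP b).hasDerivAt w
  have h2 : HasDerivAt (fun w => ∑ m ∈ Finset.range (Fintype.card ι + 1), Tn b 1 m z * (w - z) ^ m)
      (∑ m ∈ Finset.range (Fintype.card ι + 1), Tn b 1 m z * ((m : ℂ) * (w - z) ^ (m - 1) * 1)) w := by
    apply HasDerivAt.fun_sum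
    intro m _
    apply HasDerivAt.const_mul
    exact ((hasDerivAt_id w).sub_const z).fun_pow m
  have h3 : (fun w => (PP b).eval w) =
      fun w => ∑ m ∈ Finset.range (Fintype.card ι + 1), Tn b 1 m z * (w - z) ^ m :=
    funext (fun w => dyn2_sum b z w)
  rw [h3] at h1
  have h4 := h1.unique h2
  rw [h4, Finset.sum_mul]
  apply Finset.sum_congr rfl
  intro m _
  rcases Nat.eq_zero_or_pos m with hm | hm
  · rw [hm]
    simp
  · obtain ⟨k, rfl⟩ : ∃ k, m = k + 1 := ⟨m - 1, by omega⟩
    rw [Nat.add_sub_cancel, pow_succ]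
    ring

/-- if the ratios `T_{M-1-i} / T_{M-i}`, `i < card ι`, are close to each other, they are close to
`w - z` for a saddle point `w` -/
theorem dyn_rec (b : ι → ℂ) (z : ℂ) (B C c : ℝ) (hB : 0 < B) (hC : 0 < C) (hc : 0 < c) :
    ∃ (C' : ℝ) (N : ℕ), 0 < C' ∧ ∀ n M : ℕ, N ≤ n → Fintype.card ι ≤ M →
      M ≤ n * Fintype.card ι → Tn b n M z ≠ 0 → ∀ x : ℂ, ‖x‖ ≤ B →
      (∀ i < Fintype.card ι, Tn b n (M - 1 - i) z ≠ 0 ∧
        ‖Tn b n (M - 1 - i) z / Tn b n (M - i) z - x‖ ≤ C / n) →
      c ≤ ‖(PP b).eval (z + x)‖ → ‖tau b z (z + x) - (M : ℂ) / n‖ ≤ C' / n := by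
  set d := Fintype.card ι with hd
  set R : ℝ := B + C + 1 with hR
  have hR1 : 1 ≤ R := by linarith
  set S : ℝ := ∑ j ∈ Finset.range (d + 1), ‖Tn b 1 j z‖ with hS
  have hS0 : 0 ≤ S := Finset.sum_nonneg (fun _ _ => norm_nonneg _)
  set K : ℝ := 3 * d * (d * C * R ^ d) + d * R ^ d with hK
  have hK0 : 0 ≤ K := by positivity
  refine ⟨S * K / c + 1, 1, by positivity, ?_⟩
  intro n M hn hdM hMn hT x hx hrat hP
  have hn0 : (0 : ℝ) < n := by exact_mod_cast (by omega : 0 < n)
  have hn1 : (1 : ℝ) ≤ n := by exact_mod_cast hn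
  have hnC : (n : ℂ) ≠ 0 := by exact_mod_cast (by omega : n ≠ 0)
  -- products of ratios
  have hrho : ∀ j, j ≤ d → ‖Tn b n (M - j) z / Tn b n M z - x ^ j‖ ≤ (j * C * R ^ j) / n := by
    intro j
    induction j with
    | zero =>
      intro _
      rw [Nat.sub_zero, div_self hT]
      simp
    | succ j ih =>
      intro hj
      have ih' := ih (by omega)
      obtain ⟨r1, r2⟩ := hrat j (by omega)
      have hTj : Tn b n (M - j) z ≠ 0 := by
        rcases Nat.eq_zero_or_pos j with h | h
        · rw [h, Nat.sub_zero]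
          exact hT
        · have := (hrat (j - 1) (by omega)).1
          rwa [show M - 1 - (j - 1) = M - j by omega] at this
      have e1 : M - (j + 1) = M - 1 - j := by omega
      rw [e1]
      set r := Tn b n (M - 1 - j) z / Tn b n (M - j) z with hr
      set q := Tn b n (M - j) z / Tn b n M z with hq
      have e2 : Tn b n (M - 1 - j) z / Tn b n M z = q * r := by
        rw [hq, hr]
        field_simp
      rw [e2]
      have e3 : q * r - x ^ (j + 1) = (q - x ^ j) * r + x ^ j * (r - x) := by ring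
      rw [e3]
      have hr2 : ‖r‖ ≤ R := by
        have h1 : ‖r‖ ≤ ‖r - x‖ + ‖x‖ := by
          have := norm_add_le (r - x) x
          rwa [sub_add_cancel] at this
        have h2 : C / n ≤ C := div_le_self hC.le hn1
        linarith
      have hxj : ‖x ^ j‖ ≤ R ^ j := by
        rw [norm_pow]
        exact pow_le_pow_left₀ (norm_nonneg _) (by linarith) j
      calc ‖(q - x ^ j) * r + x ^ j * (r - x)‖ ≤ ‖(q - x ^ j) * r‖ + ‖x ^ j * (r - x)‖ := norm_add_le _ _
        _ = ‖q - x ^ j‖ * ‖r‖ + ‖x ^ j‖ * ‖r - x‖ := by rw [norm_mul, norm_mul]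
        _ ≤ (j * C * R ^ j) / n * R + R ^ j * (C / n) := by
            apply add_le_add
            · exact mul_le_mul ih' hr2 (norm_nonneg _) (by positivity)
            · exact mul_le_mul hxj r2 (norm_nonneg _) (by positivity)
        _ = (j * C * R ^ (j + 1) + C * R ^ j) / n := by
            field_simp
            ring
        _ ≤ (((j + 1 : ℕ) : ℝ) * C * R ^ (j + 1)) / n := by
            apply div_le_div_of_nonneg_right _ hn0.le
            have h3 : R ^ j ≤ R ^ (j + 1) := pow_le_pow_right₀ hR1 (by omega)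
            push_cast
            nlinarith [mul_le_mul_of_nonneg_left h3 hC.le]
  -- the recurrence divided by n T_M
  have hrec := Tn_rec b n M hdM z
  have h0 : ∑ j ∈ Finset.range (d + 1), Tn b 1 j z *
      ((((M : ℂ) - (n + 1) * j) / n) * (Tn b n (M - j) z / Tn b n M z)) = 0 := by
    have e : ∀ j, Tn b 1 j z * ((((M : ℂ) - (n + 1) * j) / n) * (Tn b n (M - j) z / Tn b n M z)) =
        (Tn b 1 j z * (((M : ℂ) - (n + 1) * j) * Tn b n (M - j) z)) / (n * Tn b n M z) := by
      intro j
      field_simp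
    simp only [e]
    rw [← Finset.sum_div, hrec, zero_div]
  have hPne : (PP b).eval (z + x) ≠ 0 := by
    intro h
    rw [h, norm_zero] at hP
    linarith
  have hwb : ∀ i, z + x ≠ b i := by
    intro i h
    apply hPne
    rw [PP_eval]
    exact Finset.prod_eq_zero (Finset.mem_univ i) (sub_eq_zero.2 h)
  have s1 := dyn2_sum b z (z + x)
  have s2 := dyn2_deriv b z (z + x)
  rw [add_sub_cancel_left] at s1 s2
  rw [PP_deriv b _ hwb] at s2
  have hmain : (PP b).eval (z + x) * ((M : ℂ) / n - tau b z (z + x)) =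
      ∑ j ∈ Finset.range (d + 1), Tn b 1 j z *
        ((((M : ℂ) - (n + 1) * j) / n) * (x ^ j - Tn b n (M - j) z / Tn b n M z) + (j : ℂ) / n * x ^ j) := by
    have e1 : (PP b).eval (z + x) * ((M : ℂ) / n - tau b z (z + x)) =
        (M : ℂ) / n * (PP b).eval (z + x) - (PP b).eval (z + x) * hh b (z + x) * x := by
      unfold tau
      rw [add_sub_cancel_left]
      ring
    rw [e1, s2, s1, Finset.mul_sum, ← Finset.sum_sub_distrib]
    have e2 : ∑ j ∈ Finset.range (d + 1), Tn b 1 j z *
        ((((M : ℂ) - (n + 1) * j) / n) * (x ^ j - Tn b n (M - j) z / Tn b n M z) + (j : ℂ) / n * x ^ j) =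
        ∑ j ∈ Finset.range (d + 1), (Tn b 1 j z * ((((M : ℂ) - (n + 1) * j) / n) * x ^ j + (j : ℂ) / n * x ^ j)) -
        ∑ j ∈ Finset.range (d + 1), Tn b 1 j z *
          ((((M : ℂ) - (n + 1) * j) / n) * (Tn b n (M - j) z / Tn b n M z)) := by
      rw [← Finset.sum_sub_distrib]
      apply Finset.sum_congr rfl
      intro j _
      ring
    rw [e2, h0, sub_zero]
    apply Finset.sum_congr rfl
    intro j _
    field_simp
    ring
  have hbound : ‖(PP b).eval (z + x)‖ * ‖(M : ℂ) / n - tau b z (z + x)‖ ≤ S * K / n := by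
    rw [← norm_mul, hmain, hS, Finset.sum_mul, Finset.sum_div]
    apply norm_sum_le_of_le
    intro j hj
    have hjd : j ≤ d := by
      have := Finset.mem_range.1 hj
      omega
    rw [norm_mul, mul_div_assoc]
    apply mul_le_mul_of_nonneg_left _ (norm_nonneg _)
    have hjR : (j : ℝ) ≤ d := by exact_mod_cast hjd
    have hRj : R ^ j ≤ R ^ d := pow_le_pow_right₀ hR1 hjd
    have b1 : ‖((M : ℂ) - (n + 1) * j) / n‖ ≤ 3 * d := by
      rw [norm_div, Complex.norm_natCast, div_le_iff₀ hn0]
      have t1 : ‖(M : ℂ) - (n + 1) * j‖ ≤ M + (n + 1) * j := by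
        refine (norm_sub_le _ _).trans ?_
        rw [Complex.norm_natCast, norm_mul, Complex.norm_natCast]
        have t2 : ‖(n : ℂ) + 1‖ = n + 1 := by
          have : ((n : ℂ) + 1) = ((n + 1 : ℕ) : ℂ) := by push_cast; ring
          rw [this, Complex.norm_natCast]
          push_cast
          ring
        rw [t2]
      have t3 : (M : ℝ) ≤ n * d := by exact_mod_cast hMn
      have t4 : ((n : ℝ) + 1) * j ≤ (2 * n) * d := by
        apply mul_le_mul (by linarith) hjR (by positivity) (by positivity)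
      linarith
    have b2 : ‖x ^ j - Tn b n (M - j) z / Tn b n M z‖ ≤ (d * C * R ^ d) / n := by
      rw [norm_sub_rev]
      refine (hrho j hjd).trans ?_
      apply div_le_div_of_nonneg_right _ hn0.le
      apply mul_le_mul _ hRj (by positivity) (by positivity)
      exact mul_le_mul_of_nonneg_right hjR hC.le
    have b3 : ‖(j : ℂ) / n * x ^ j‖ ≤ (d * R ^ d) / n := by
      rw [norm_mul, norm_div, Complex.norm_natCast, Complex.norm_natCast, norm_pow]
      have : ‖x‖ ^ j ≤ R ^ d := (pow_le_pow_left₀ (norm_nonneg _) (by linarith) j).trans hRj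
      rw [div_mul_eq_mul_div]
      apply div_le_div_of_nonneg_right _ hn0.le
      exact mul_le_mul hjR this (by positivity) (by positivity)
    calc ‖(((M : ℂ) - (n + 1) * j) / n) * (x ^ j - Tn b n (M - j) z / Tn b n M z) + (j : ℂ) / n * x ^ j‖
        ≤ ‖((M : ℂ) - (n + 1) * j) / n‖ * ‖x ^ j - Tn b n (M - j) z / Tn b n M z‖ + ‖(j : ℂ) / n * x ^ j‖ := by
          refine (norm_add_le _ _).trans ?_
          rw [norm_mul]
      _ ≤ 3 * d * ((d * C * R ^ d) / n) + (d * R ^ d) / n := by
          apply add_le_add _ b3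
          exact mul_le_mul b1 b2 (norm_nonneg _) (by positivity)
      _ = K / n := by
          rw [hK]
          ring
  rw [norm_sub_rev]
  have h5 : c * ‖(M : ℂ) / n - tau b z (z + x)‖ ≤ S * K / n :=
    (mul_le_mul_of_nonneg_right hP (norm_nonneg _)).trans hbound
  have h6 : ‖(M : ℂ) / n - tau b z (z + x)‖ ≤ S * K / n / c := by
    rw [le_div_iff₀ hc]
    linarith
  refine h6.trans ?_
  rw [div_right_comm]
  apply div_le_div_of_nonneg_right _ hn0.le
  linarith

end Pool.Agent.SHD
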