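import Mathlib

set_option autoImplicit false

/-!
Trapping and constancy of the sign (module DYN3). Here `r k` is a finite sequence of points that
moves slowly and whose points are trapped near the two square roots `wc ± σ ρ k`.
-/

namespace Pool.Agent.SHD

open Set Filter Topology

/-- if `y ^ 2` is close to `1` then the square of the real part of `y` is at least `1 / 2` -/
private theorem dyn3_re_sq (z : ℂ) (h : ‖z ^ 2 - 1‖ ≤ 1 / 2) : 1 / 2 ≤ z.re ^ 2 := by
  have h1 : |(z ^ 2 - 1).re| ≤ 1 / 2 := (Complex.abs_re_le_norm _).trans h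
  have h2 : (z ^ 2 - 1).re = z.re ^ 2 - z.im ^ 2 - 1 := by
    simp [pow_two, Complex.mul_re]
  rw [h2] at h1
  have h3 := (abs_le.1 h1).1
  nlinarith [sq_nonneg z.im]

/-- sign constancy: `y ^ 2` is close to `1` and `y` moves slowly -/
theorem dyn_sign (y : ℕ → ℂ) (a c : ℕ) (hac : a ≤ c)
    (h1 : ∀ k, a ≤ k → k ≤ c → ‖y k ^ 2 - 1‖ ≤ 1 / 2)
    (h2 : ∀ k, a ≤ k → k < c → ‖y (k + 1) - y k‖ ≤ 1 / 2) (h0 : (y a).re < 0) :
    (y c).re < 0 := by
  have key : ∀ k, a ≤ k → k ≤ c → (y k).re < 0 := by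
    intro k hk
    induction k, hk using Nat.le_induction with
    | base => intro _; exact h0
    | succ k hk ih =>
      intro hkc
      have hk' := ih (by omega)
      have hsq := dyn3_re_sq _ (h1 k hk (by omega))
      have hmove : |(y (k + 1) - y k).re| ≤ 1 / 2 :=
        (Complex.abs_re_le_norm _).trans (h2 k hk (by omega))
      rw [Complex.sub_re] at hmove
      have h3 := (abs_le.1 hmove).2
      nlinarith
  exact key c hac le_rfl

/-- trapping: a slowly moving sequence that avoids an annulus stays inside -/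
theorem dyn_trap (r : ℕ → ℂ) (ws : ℂ) (R δ : ℝ) (a c d : ℕ) (hR : 0 < R) (hδ : 0 < δ)
    (hd : d * δ ≤ R / 4)
    (h0 : ‖r a - ws‖ ≤ R / 4)
    (hstep : ∀ k, a ≤ k → k < c → ‖r k - ws‖ ≤ R → ‖r (k + 1) - r k‖ ≤ δ)
    (hann : ∀ k, a + d ≤ k → k ≤ c → (∀ j, a ≤ j → j ≤ k → ‖r j - ws‖ ≤ R) →
      ¬ (R / 2 ≤ ‖r k - ws‖)) (hδR : δ ≤ R / 4) :
    ∀ k, a ≤ k → k ≤ c → ‖r k - ws‖ ≤ R := by
  have key : ∀ k, a ≤ k → k ≤ c → (∀ j, a ≤ j → j ≤ k → ‖r j - ws‖ ≤ R) ∧
      (k ≤ a + d → ‖r k - ws‖ ≤ R / 4 + ((k : ℝ) - a) * δ) := by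
    intro k hk
    induction k, hk using Nat.le_induction with
    | base =>
      intro _
      refine ⟨fun j hj hj' => ?_, fun _ => by simpa using h0⟩
      obtain rfl : j = a := le_antisymm hj' hj
      linarith
    | succ k hk ih =>
      intro hkc
      obtain ⟨ih1, ih2⟩ := ih (by omega)
      have hst := hstep k hk (by omega) (ih1 k hk le_rfl)
      have htri : ‖r (k + 1) - ws‖ ≤ ‖r (k + 1) - r k‖ + ‖r k - ws‖ := by
        have e : r (k + 1) - ws = (r (k + 1) - r k) + (r k - ws) := by ring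
        rw [e]
        exact norm_add_le _ _
      have hsecond : k + 1 ≤ a + d →
          ‖r (k + 1) - ws‖ ≤ R / 4 + (((k + 1 : ℕ) : ℝ) - a) * δ := by
        intro hle
        have := ih2 (by omega)
        push_cast
        nlinarith
      refine ⟨fun j hj hj' => ?_, hsecond⟩
      rcases Nat.lt_or_ge j (k + 1) with hlt | hge
      · exact ih1 j hj (by omega)
      · obtain rfl : j = k + 1 := le_antisymm hj' hge
        rcases Nat.lt_or_ge (a + d) (k + 1) with hlt2 | hge2
        · have hn := hann k (by omega) (by omega) ih1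
          push Not at hn
          linarith
        · have h5 := hsecond hge2
          have h6 : (((k + 1 : ℕ) : ℝ) - a) ≤ d := by
            have : ((k + 1 : ℕ) : ℝ) ≤ ((a + d : ℕ) : ℝ) := by exact_mod_cast hge2
            push_cast at this ⊢
            linarith
          have h7 : (((k + 1 : ℕ) : ℝ) - a) * δ ≤ d * δ :=
            mul_le_mul_of_nonneg_right h6 hδ.le
          linarith
  intro k hk hkc
  exact (key k hk hkc).1 k hk le_rfl

end Pool.Agent.SHD
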