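import Mathlib
import Pool.Agent.SHD.Basic

set_option autoImplicit false

/-!
Few derivatives and many derivatives (module ENDS).
-/

namespace Pool.Agent.SHD

open Polynomial Set Filter Topology

variable {ι : Type} [Fintype ι]

/-- the factor `G / (1 + y i X)` for `G = (∏ (1 + y X))^n`, `n ≥ 1` -/
private noncomputable def endsH (y : ι → ℂ) (n : ℕ) (i : ι) : ℂ[X] :=
  open Classical in
  (∏ k ∈ Finset.univ.erase i, (1 + C (y k) * X)) * (∏ k, (1 + C (y k) * X)) ^ (n - 1)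

private lemma endsH_mul (y : ι → ℂ) (n : ℕ) (hn : 1 ≤ n) (i : ι) :
    (1 + C (y i) * X) * endsH y n i = (∏ k, (1 + C (y k) * X)) ^ n := by
  classical
  unfold endsH
  rw [← mul_assoc, Finset.mul_prod_erase Finset.univ (fun k => (1 + C (y k) * X : ℂ[X]))
    (Finset.mem_univ i), ← pow_succ']
  congr 1
  omega

private lemma ends_deriv (y : ι → ℂ) (n : ℕ) :
    derivative ((∏ k, (1 + C (y k) * X)) ^ n : ℂ[X]) = ∑ i, C ((n : ℂ) * y i) * endsH y n i := by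
  classical
  rw [derivative_pow, derivative_prod_finset, Finset.mul_sum]
  refine Finset.sum_congr rfl fun i _ => ?_
  unfold endsH
  have h1 : derivative (1 + C (y i) * X : ℂ[X]) = C (y i) := by simp
  have h2 : @Finset.erase ι (fun a b => Classical.propDecidable (a = b)) Finset.univ i
      = Finset.univ.erase i := by
    ext; simp
  rw [h1, h2, C_mul]
  ring

private lemma ends_rec_H (y : ι → ℂ) (n : ℕ) (hn : 1 ≤ n) (i : ι) (l : ℕ) :
    (endsH y n i).coeff (l + 1)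
      = ((∏ k, (1 + C (y k) * X)) ^ n : ℂ[X]).coeff (l + 1) - y i * (endsH y n i).coeff l := by
  rw [← endsH_mul y n hn i]
  rw [add_mul, one_mul, coeff_add, mul_assoc, coeff_C_mul, coeff_X_mul]
  ring

private lemma ends_rec_H0 (y : ι → ℂ) (n : ℕ) (hn : 1 ≤ n) (i : ι) :
    (endsH y n i).coeff 0 = ((∏ k, (1 + C (y k) * X)) ^ n : ℂ[X]).coeff 0 := by
  rw [← endsH_mul y n hn i]
  rw [add_mul, one_mul, coeff_add, mul_assoc, coeff_C_mul, mul_coeff_zero X]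
  simp

private lemma ends_coeff_zero (y : ι → ℂ) (n : ℕ) :
    ((∏ k, (1 + C (y k) * X)) ^ n : ℂ[X]).coeff 0 = 1 := by
  rw [coeff_zero_eq_eval_zero, eval_pow, eval_prod]
  simp

private lemma ends_rec_G (y : ι → ℂ) (n l : ℕ) :
    ((l : ℂ) + 1) * ((∏ k, (1 + C (y k) * X)) ^ n : ℂ[X]).coeff (l + 1)
      = n * ∑ i, y i * (endsH y n i).coeff l := by
  have h := congrArg (fun p : ℂ[X] => p.coeff l) (ends_deriv y n)
  simp only [coeff_derivative, finset_sum_coeff, coeff_C_mul] at h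
  rw [mul_comm, h, Finset.mul_sum]
  refine Finset.sum_congr rfl fun i _ => ?_
  ring

theorem coeff_ne (y : ι → ℂ) (ε : ℝ) (hε : 0 ≤ ε) (h0 : 0 < ‖∑ i, y i‖)
    (h1 : ∀ i, 2 * ε * ‖y i‖ < ‖∑ i, y i‖)
    (h2 : ∑ i, ‖y i‖ ^ 2 * (2 * ε) / (‖∑ i, y i‖ - 2 * ε * ‖y i‖) ≤ ‖∑ i, y i‖ / 2) (n l : ℕ)
    (hl : (l : ℝ) ≤ ε * n) : ((∏ i, (1 + C (y i) * X)) ^ n : ℂ[X]).coeff l ≠ 0 := by
  set c : ℝ := ‖∑ i, y i‖ with hc
  set G : ℂ[X] := (∏ i, (1 + C (y i) * X)) ^ n with hG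
  rcases Nat.eq_zero_or_pos l with hl0 | hl0
  · rw [hl0, hG, ends_coeff_zero]; exact one_ne_zero
  have hn : 1 ≤ n := by
    rcases Nat.eq_zero_or_pos n with h | h
    · rw [h] at hl
      have : (0 : ℝ) < (l : ℝ) := by exact_mod_cast hl0
      simp at hl
      rw [hl] at hl0; omega
    · exact h
  have hnr : (0 : ℝ) < (n : ℝ) := by exact_mod_cast hn
  -- inductive statement
  have key : ∀ j : ℕ, (j : ℝ) ≤ ε * n → G.coeff j ≠ 0 ∧ ∀ i,
      ‖(endsH y n i).coeff j - G.coeff j‖ * (c - 2 * ε * ‖y i‖) ≤ 2 * ε * ‖y i‖ * ‖G.coeff j‖ := by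
    intro j
    induction j with
    | zero =>
      intro _
      refine ⟨by rw [hG, ends_coeff_zero]; exact one_ne_zero, fun i => ?_⟩
      rw [ends_rec_H0 y n hn i, ← hG, sub_self, norm_zero, zero_mul]
      positivity
    | succ j ih =>
      intro hj
      push_cast at hj
      obtain ⟨ih1, ih2⟩ := ih (by linarith)
      have hA : 0 < ‖G.coeff j‖ := norm_pos_iff.2 ih1
      -- the main sum
      have hsum : c / 2 * ‖G.coeff j‖ ≤ ‖∑ i, y i * (endsH y n i).coeff j‖ := by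
        have e1 : ∑ i, y i * (endsH y n i).coeff j
            = (∑ i, y i) * G.coeff j + ∑ i, y i * ((endsH y n i).coeff j - G.coeff j) := by
          rw [Finset.sum_mul, ← Finset.sum_add_distrib]
          exact Finset.sum_congr rfl fun i _ => by ring
        have e2 : ‖∑ i, y i * ((endsH y n i).coeff j - G.coeff j)‖ ≤ c / 2 * ‖G.coeff j‖ := by
          calc ‖∑ i, y i * ((endsH y n i).coeff j - G.coeff j)‖
              ≤ ∑ i, ‖y i * ((endsH y n i).coeff j - G.coeff j)‖ := norm_sum_le _ _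
            _ ≤ ∑ i, (‖y i‖ ^ 2 * (2 * ε) / (c - 2 * ε * ‖y i‖)) * ‖G.coeff j‖ := by
                refine Finset.sum_le_sum fun i _ => ?_
                rw [norm_mul]
                have hpos : 0 < c - 2 * ε * ‖y i‖ := by linarith [h1 i]
                rw [div_mul_eq_mul_div, le_div_iff₀ hpos]
                have := mul_le_mul_of_nonneg_left (ih2 i) (norm_nonneg (y i))
                nlinarith
            _ = (∑ i, ‖y i‖ ^ 2 * (2 * ε) / (c - 2 * ε * ‖y i‖)) * ‖G.coeff j‖ := by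
                rw [Finset.sum_mul]
            _ ≤ c / 2 * ‖G.coeff j‖ := mul_le_mul_of_nonneg_right h2 hA.le
        rw [e1]
        have e3 := norm_sub_norm_le ((∑ i, y i) * G.coeff j)
          (-(∑ i, y i * ((endsH y n i).coeff j - G.coeff j)))
        rw [sub_neg_eq_add, norm_neg, norm_mul, ← hc] at e3
        linarith
      have hrec := ends_rec_G y n j
      rw [← hG] at hrec
      have hnorm : ((j : ℝ) + 1) * ‖G.coeff (j + 1)‖ = n * ‖∑ i, y i * (endsH y n i).coeff j‖ := by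
        have := congrArg norm hrec
        rw [norm_mul, norm_mul, Complex.norm_natCast] at this
        have e4 : ‖((j : ℂ) + 1)‖ = (j : ℝ) + 1 := by
          have : ((j : ℂ) + 1) = (((j + 1 : ℕ)) : ℂ) := by push_cast; ring
          rw [this, Complex.norm_natCast]; push_cast; ring
        rw [e4] at this
        exact this
      have hj1 : (0 : ℝ) < (j : ℝ) + 1 := by positivity
      have hlow : (n : ℝ) * (c / 2 * ‖G.coeff j‖) ≤ ((j : ℝ) + 1) * ‖G.coeff (j + 1)‖ := by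
        rw [hnorm]; exact mul_le_mul_of_nonneg_left hsum hnr.le
      have hB : 0 < ‖G.coeff (j + 1)‖ := by
        have h3 : 0 < (n : ℝ) * (c / 2 * ‖G.coeff j‖) := by positivity
        have h4 : 0 < ((j : ℝ) + 1) * ‖G.coeff (j + 1)‖ := lt_of_lt_of_le h3 hlow
        exact (mul_pos_iff_of_pos_left hj1).1 h4
      -- |a_j| c ≤ 2 ε |a_{j+1}|
      have hratio : c * ‖G.coeff j‖ ≤ 2 * ε * ‖G.coeff (j + 1)‖ := by
        have h3 : (n : ℝ) * (c / 2 * ‖G.coeff j‖) ≤ (ε * n) * ‖G.coeff (j + 1)‖ :=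
          hlow.trans (mul_le_mul_of_nonneg_right hj hB.le)
        have h4 : (n : ℝ) * (c * ‖G.coeff j‖) ≤ (n : ℝ) * (2 * ε * ‖G.coeff (j + 1)‖) := by
          nlinarith
        exact le_of_mul_le_mul_left h4 hnr
      refine ⟨norm_pos_iff.1 hB, fun i => ?_⟩
      rw [ends_rec_H y n hn i j, ← hG]
      have e5 : G.coeff (j + 1) - y i * (endsH y n i).coeff j - G.coeff (j + 1)
          = -(y i * (endsH y n i).coeff j) := by ring
      rw [e5, norm_neg, norm_mul]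
      have hpos : 0 < c - 2 * ε * ‖y i‖ := by linarith [h1 i]
      have e6 : ‖(endsH y n i).coeff j‖ ≤ ‖G.coeff j‖ + ‖(endsH y n i).coeff j - G.coeff j‖ := by
        have := norm_add_le (G.coeff j) ((endsH y n i).coeff j - G.coeff j)
        rwa [add_sub_cancel] at this
      have e7 : ‖(endsH y n i).coeff j‖ * (c - 2 * ε * ‖y i‖) ≤ c * ‖G.coeff j‖ := by
        have h3 := mul_le_mul_of_nonneg_right e6 hpos.le
        have h4 := ih2 i
        nlinarith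
      calc ‖y i‖ * ‖(endsH y n i).coeff j‖ * (c - 2 * ε * ‖y i‖)
          = ‖y i‖ * (‖(endsH y n i).coeff j‖ * (c - 2 * ε * ‖y i‖)) := by ring
        _ ≤ ‖y i‖ * (2 * ε * ‖G.coeff (j + 1)‖) :=
            mul_le_mul_of_nonneg_left (e7.trans hratio) (norm_nonneg _)
        _ = 2 * ε * ‖y i‖ * ‖G.coeff (j + 1)‖ := by ring
  exact (key l hl).1

private lemma ends_taylor (b : ι → ℂ) (z : ℂ) (n : ℕ) :
    taylor z (PP b ^ n) = (∏ i, (X + C (z - b i))) ^ n := by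
  rw [taylor_pow]
  congr 1
  unfold PP
  rw [taylor_apply, prod_comp]
  refine Finset.prod_congr rfl fun i _ => ?_
  rw [sub_comp, X_comp, C_comp, C_sub]
  ring

private lemma ends_Tn (b : ι → ℂ) (z : ℂ) (n m : ℕ) :
    Tn b n m z = ((∏ i, (X + C (z - b i))) ^ n : ℂ[X]).coeff m := by
  unfold Tn
  rw [← taylor_coeff, ends_taylor]

/-- `Tn` in terms of the reciprocals of `z - b i` -/
theorem Tn_low (b : ι → ℂ) (z : ℂ) (hz : ∀ i, z ≠ b i) (n m : ℕ) :
    Tn b n m z = ((PP b).eval z) ^ n *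
      ((∏ i, (1 + C ((z - b i)⁻¹) * X)) ^ n : ℂ[X]).coeff m := by
  rw [ends_Tn]
  have h1 : (∏ i, (X + C (z - b i)) : ℂ[X])
      = C ((PP b).eval z) * ∏ i, (1 + C ((z - b i)⁻¹) * X) := by
    rw [PP_eval, map_prod, ← Finset.prod_mul_distrib]
    refine Finset.prod_congr rfl fun i _ => ?_
    have h2 : z - b i ≠ 0 := sub_ne_zero.2 (hz i)
    rw [mul_add, mul_one, ← mul_assoc, ← C_mul, mul_inv_cancel₀ h2, C_1, one_mul, add_comm]
  rw [h1, mul_pow, ← C_pow, coeff_C_mul]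

private lemma ends_rev_lin (a : ℂ) : (X + C a : ℂ[X]).reverse = 1 + C a * X := by
  ext k
  rw [coeff_reverse, natDegree_X_add_C]
  rcases k with _ | _ | k
  · simp [revAt_le]
  · simp [revAt_le, coeff_X, coeff_one]
  · rw [revAt_eq_self_of_lt (by omega)]
    simp [coeff_X, coeff_C, coeff_one]

private lemma ends_rev_prod (a : ι → ℂ) (s : Finset ι) :
    (∏ i ∈ s, (X + C (a i)) : ℂ[X]).reverse = ∏ i ∈ s, (1 + C (a i) * X) := by
  classical
  induction s using Finset.induction_on with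
  | empty =>
    simp only [Finset.prod_empty]
    have : (1 : ℂ[X]) = C 1 := by simp
    rw [this, reverse_C]
  | insert i s hi ih =>
    rw [Finset.prod_insert hi, Finset.prod_insert hi, reverse_mul_of_domain, ih, ends_rev_lin]

private lemma ends_rev_pow (p : ℂ[X]) (n : ℕ) : (p ^ n).reverse = p.reverse ^ n := by
  induction n with
  | zero =>
    simp only [pow_zero]
    have : (1 : ℂ[X]) = C 1 := by simp
    rw [this, reverse_C]
  | succ n ih => rw [pow_succ, pow_succ, reverse_mul_of_domain, ih]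

theorem Tn_high (b : ι → ℂ) (z : ℂ) (n l : ℕ) (hl : l ≤ n * Fintype.card ι) :
    Tn b n (n * Fintype.card ι - l) z = ((∏ i, (1 + C (z - b i) * X)) ^ n : ℂ[X]).coeff l := by
  rw [ends_Tn, ← ends_rev_prod (fun i => z - b i) Finset.univ, ← ends_rev_pow, coeff_reverse]
  have hdeg : ((∏ i, (X + C (z - b i))) ^ n : ℂ[X]).natDegree = n * Fintype.card ι := by
    have hm : (∏ i, (X + C (z - b i)) : ℂ[X]).Monic :=
      monic_prod_of_monic _ _ fun i _ => monic_X_add_C _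
    rw [hm.natDegree_pow, natDegree_prod_of_monic _ _ fun i _ => monic_X_add_C _]
    have h1 : ∀ i, (X + C (z - b i) : ℂ[X]).natDegree = 1 := fun i => natDegree_X_add_C _
    rw [Finset.sum_congr rfl fun i _ => h1 i]
    simp
  rw [hdeg, revAt_le hl]

theorem end_low (b : ι → ℂ) (z₀ : ℂ) (hz : ∀ i, z₀ ≠ b i) (ε : ℝ) (hε : 0 ≤ ε)
    (h0 : 0 < ‖∑ i, (z₀ - b i)⁻¹‖) (h1 : ∀ i, 2 * ε * ‖(z₀ - b i)⁻¹‖ < ‖∑ i, (z₀ - b i)⁻¹‖)
    (h2 : ∑ i, ‖(z₀ - b i)⁻¹‖ ^ 2 * (2 * ε) /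
      (‖∑ i, (z₀ - b i)⁻¹‖ - 2 * ε * ‖(z₀ - b i)⁻¹‖) < ‖∑ i, (z₀ - b i)⁻¹‖ / 2) :
    ∀ᶠ z in 𝓝 z₀, ∀ n m : ℕ, (m : ℝ) ≤ ε * n → Tn b n m z ≠ 0 := by
  have hinv : ∀ i, ContinuousAt (fun z : ℂ => (z - b i)⁻¹) z₀ := fun i =>
    (continuousAt_id.sub continuousAt_const).inv₀ (sub_ne_zero.2 (hz i))
  have hS : ContinuousAt (fun z : ℂ => ‖∑ i, (z - b i)⁻¹‖) z₀ :=
    (tendsto_finsetSum _ fun i _ => hinv i).norm
  have hne : ∀ᶠ z in 𝓝 z₀, ∀ i, z ≠ b i :=
    eventually_all.2 fun i => (continuousAt_id.eventually_ne (hz i))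
  have e0 : ∀ᶠ z in 𝓝 z₀, 0 < ‖∑ i, (z - b i)⁻¹‖ := hS.eventually (lt_mem_nhds h0)
  have e1 : ∀ᶠ z in 𝓝 z₀, ∀ i, 2 * ε * ‖(z - b i)⁻¹‖ < ‖∑ i, (z - b i)⁻¹‖ :=
    eventually_all.2 fun i =>
      (((continuousAt_const.mul (hinv i).norm)).eventually_lt hS (h1 i))
  have hL : ContinuousAt (fun z : ℂ => ∑ i, ‖(z - b i)⁻¹‖ ^ 2 * (2 * ε) /
      (‖∑ i, (z - b i)⁻¹‖ - 2 * ε * ‖(z - b i)⁻¹‖)) z₀ := by
    refine tendsto_finsetSum _ fun i _ => ?_
    refine ContinuousAt.div ?_ ?_ ?_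
    · exact ((hinv i).norm.pow 2).mul continuousAt_const
    · exact hS.sub (continuousAt_const.mul (hinv i).norm)
    · have := h1 i
      exact ne_of_gt (by linarith)
  have e2 : ∀ᶠ z in 𝓝 z₀, ∑ i, ‖(z - b i)⁻¹‖ ^ 2 * (2 * ε) /
      (‖∑ i, (z - b i)⁻¹‖ - 2 * ε * ‖(z - b i)⁻¹‖) < ‖∑ i, (z - b i)⁻¹‖ / 2 :=
    hL.eventually_lt (hS.div_const 2) h2
  filter_upwards [hne, e0, e1, e2] with z k1 k2 k3 k4 n m hm
  rw [Tn_low b z k1 n m]
  refine mul_ne_zero (pow_ne_zero _ ?_) (coeff_ne _ ε hε k2 k3 k4.le n m hm)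
  rw [PP_eval]
  exact Finset.prod_ne_zero_iff.2 fun i _ => sub_ne_zero.2 (k1 i)

theorem end_high (b : ι → ℂ) (z₀ : ℂ) (ε : ℝ) (hε : 0 ≤ ε)
    (h0 : 0 < ‖∑ i, (z₀ - b i)‖) (h1 : ∀ i, 2 * ε * ‖z₀ - b i‖ < ‖∑ i, (z₀ - b i)‖)
    (h2 : ∑ i, ‖z₀ - b i‖ ^ 2 * (2 * ε) /
      (‖∑ i, (z₀ - b i)‖ - 2 * ε * ‖z₀ - b i‖) < ‖∑ i, (z₀ - b i)‖ / 2) :
    ∀ᶠ z in 𝓝 z₀, ∀ n m : ℕ, m ≤ n * Fintype.card ι →
      ((Fintype.card ι : ℝ) - ε) * n ≤ m → Tn b n m z ≠ 0 := by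
  have hid : ∀ i, ContinuousAt (fun z : ℂ => z - b i) z₀ := fun i =>
    continuousAt_id.sub continuousAt_const
  have hS : ContinuousAt (fun z : ℂ => ‖∑ i, (z - b i)‖) z₀ :=
    (tendsto_finsetSum _ fun i _ => hid i).norm
  have e0 : ∀ᶠ z in 𝓝 z₀, 0 < ‖∑ i, (z - b i)‖ := hS.eventually (lt_mem_nhds h0)
  have e1 : ∀ᶠ z in 𝓝 z₀, ∀ i, 2 * ε * ‖z - b i‖ < ‖∑ i, (z - b i)‖ :=
    eventually_all.2 fun i =>
      (((continuousAt_const.mul (hid i).norm)).eventually_lt hS (h1 i))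
  have hL : ContinuousAt (fun z : ℂ => ∑ i, ‖z - b i‖ ^ 2 * (2 * ε) /
      (‖∑ i, (z - b i)‖ - 2 * ε * ‖z - b i‖)) z₀ := by
    refine tendsto_finsetSum _ fun i _ => ?_
    refine ContinuousAt.div ?_ ?_ ?_
    · exact ((hid i).norm.pow 2).mul continuousAt_const
    · exact hS.sub (continuousAt_const.mul (hid i).norm)
    · have := h1 i
      exact ne_of_gt (by linarith)
  have e2 : ∀ᶠ z in 𝓝 z₀, ∑ i, ‖z - b i‖ ^ 2 * (2 * ε) /
      (‖∑ i, (z - b i)‖ - 2 * ε * ‖z - b i‖) < ‖∑ i, (z - b i)‖ / 2 :=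
    hL.eventually_lt (hS.div_const 2) h2
  filter_upwards [e0, e1, e2] with z k2 k3 k4 n m hm hmε
  have hl : n * Fintype.card ι - m ≤ n * Fintype.card ι := Nat.sub_le _ _
  have e : n * Fintype.card ι - (n * Fintype.card ι - m) = m := by omega
  have h5 := Tn_high b z n (n * Fintype.card ι - m) hl
  rw [e] at h5
  rw [h5]
  refine coeff_ne _ ε hε k2 k3 k4.le n _ ?_
  rw [Nat.cast_sub hm]
  push_cast
  linarith

end Pool.Agent.SHD
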