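import Mathlib
import Pool.Agent.SHD.Asym
import Pool.Agent.SHD.RootSeq

set_option autoImplicit false

/-!
Simple saddle points (module GAUSS).
-/

namespace Pool.Agent.SHD

open Polynomial Set Filter Topology

variable {ι : Type} [Fintype ι]

/-- the square root of a number in the right half plane has argument less than `π / 4` -/
theorem gauss_sqrt (c : ℂ) (hc : 0 < c.re) :
    0 < (((Real.pi : ℂ) / c) ^ (1 / 2 : ℂ)).re ∧
      |(((Real.pi : ℂ) / c) ^ (1 / 2 : ℂ)).im| < (((Real.pi : ℂ) / c) ^ (1 / 2 : ℂ)).re := by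
  have hc0 : c ≠ 0 := by
    rintro rfl
    simp at hc
  have hz : 0 < ((Real.pi : ℂ) / c).re := by
    rw [Complex.div_re]
    have h1 : 0 < Complex.normSq c := Complex.normSq_pos.2 hc0
    have h2 : (0 : ℝ) < Real.pi := Real.pi_pos
    simp only [Complex.ofReal_re, Complex.ofReal_im, zero_mul, zero_div, add_zero]
    positivity
  set z : ℂ := (Real.pi : ℂ) / c with hzdef
  have hz0 : z ≠ 0 := by
    intro h
    rw [h] at hz
    simp at hz
  set r : ℂ := z ^ (1 / 2 : ℂ) with hr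
  have hrr : r ^ 2 = z := by
    have h1 := Complex.cpow_nat_inv_pow z (n := 2) two_ne_zero
    rw [hr, one_div]
    exact_mod_cast h1
  have hre : 0 < r.re := by
    rw [hr, Complex.cpow_def_of_ne_zero hz0, Complex.exp_re]
    refine mul_pos (Real.exp_pos _) ?_
    have him : (Complex.log z * (1 / 2 : ℂ)).im = Complex.arg z / 2 := by
      have h1 : (1 / 2 : ℂ) = ((1 / 2 : ℝ) : ℂ) := by push_cast; ring
      rw [h1, Complex.im_mul_ofReal, Complex.log_im]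
      ring
    rw [him]
    have h2 : |Complex.arg z| < Real.pi / 2 := Complex.abs_arg_lt_pi_div_two_iff.2 (Or.inl hz)
    have h3 := abs_lt.1 h2
    apply Real.cos_pos_of_mem_Ioo
    constructor <;> linarith [Real.pi_pos, h3.1, h3.2]
  refine ⟨hre, ?_⟩
  have h4 : 0 < r.re ^ 2 - r.im ^ 2 := by
    have h5 : (r ^ 2).re = r.re ^ 2 - r.im ^ 2 := by
      rw [sq, Complex.mul_re]
      ring
    rw [← h5, hrr]
    exact hz
  rw [← abs_of_pos hre]
  exact sq_lt_sq.1 (by linarith)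

theorem gauss_ne (g u v : ℂ) (hu : (u ^ 2 * g).re < 0) (hv : (v ^ 2 * g).re < 0)
    (huv : (u * (starRingEnd ℂ) v).re < 0) :
    (u * ∫ x in Ioi (0 : ℝ), Complex.exp (u ^ 2 * g * x ^ 2 / 2)) -
      (v * ∫ x in Ioi (0 : ℝ), Complex.exp (v ^ 2 * g * x ^ 2 / 2)) ≠ 0 := by
  have key : ∀ a : ℂ, a.re < 0 → (∫ x in Ioi (0 : ℝ), Complex.exp (a * x ^ 2 / 2)) =
      ((Real.pi : ℂ) / (-(a / 2))) ^ (1 / 2 : ℂ) / 2 := by
    intro a ha
    have h1 : 0 < (-(a / 2)).re := by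
      have h2 : (-(a / 2)).re = -(a.re / 2) := by
        rw [Complex.neg_re]
        have : a / 2 = a / ((2 : ℝ) : ℂ) := by push_cast; ring
        rw [this, Complex.div_ofReal_re]
      rw [h2]
      linarith
    rw [← integral_gaussian_complex_Ioi h1]
    congr 1
    ext x
    congr 1
    ring
  rw [key _ hu, key _ hv]
  have hpos : ∀ a : ℂ, a.re < 0 → 0 < (-(a / 2)).re := by
    intro a ha
    have h2 : (-(a / 2)).re = -(a.re / 2) := by
      rw [Complex.neg_re]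
      have : a / 2 = a / ((2 : ℝ) : ℂ) := by push_cast; ring
      rw [this, Complex.div_ofReal_re]
    rw [h2]
    linarith
  obtain ⟨h1, h2⟩ := gauss_sqrt _ (hpos _ hu)
  obtain ⟨h3, h4⟩ := gauss_sqrt _ (hpos _ hv)
  set r : ℂ := ((Real.pi : ℂ) / (-(u ^ 2 * g / 2))) ^ (1 / 2 : ℂ) with hr
  set t : ℂ := ((Real.pi : ℂ) / (-(v ^ 2 * g / 2))) ^ (1 / 2 : ℂ) with ht
  intro h
  have h5 : u * r = v * t := by linear_combination 2 * h
  have h6 : (u * (starRingEnd ℂ) v) * (r * (starRingEnd ℂ) t) =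
      ((Complex.normSq (v * t) : ℝ) : ℂ) := by
    rw [Complex.normSq_eq_conj_mul_self, map_mul]
    linear_combination (starRingEnd ℂ) v * (starRingEnd ℂ) t * h5
  have hY : 0 < (r * (starRingEnd ℂ) t).re := by
    rw [Complex.mul_re, Complex.conj_re, Complex.conj_im]
    have h7 : |r.im * t.im| < r.re * t.re := by
      rw [abs_mul]
      exact mul_lt_mul'' h2 h4 (abs_nonneg _) (abs_nonneg _)
    have h8 := (abs_lt.1 h7).1
    linarith
  have hYn : 0 < Complex.normSq (r * (starRingEnd ℂ) t) := by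
    apply Complex.normSq_pos.2
    intro h7
    rw [h7] at hY
    simp at hY
  have h9 : (u * (starRingEnd ℂ) v) * ((Complex.normSq (r * (starRingEnd ℂ) t) : ℝ) : ℂ) =
      ((Complex.normSq (v * t) : ℝ) : ℂ) * (starRingEnd ℂ) (r * (starRingEnd ℂ) t) := by
    rw [← h6, ← Complex.mul_conj (r * (starRingEnd ℂ) t)]
    ring
  have h10 := congrArg Complex.re h9
  rw [Complex.re_mul_ofReal, Complex.re_ofReal_mul, Complex.conj_re] at h10
  have h11 : (u * (starRingEnd ℂ) v).re * Complex.normSq (r * (starRingEnd ℂ) t) < 0 :=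
    mul_neg_of_neg_of_pos huv hYn
  have h12 : 0 ≤ Complex.normSq (v * t) * (r * (starRingEnd ℂ) t).re :=
    mul_nonneg (Complex.normSq_nonneg _) hY.le
  linarith

/-- the derivative of `ξ f` along a ray -/
theorem gauss_deriv (b : ι → ℂ) (z w ξ : ℂ) (α y : ℝ)
    (hz : w + y * ξ ≠ z) (hb : ∀ i, w + y * ξ ≠ b i) :
    HasDerivAt (fun s : ℝ => ξ * ff b z α (w + s * ξ)) (ξ ^ 2 * ff1 b z α (w + y * ξ)) y := by
  have h1 : HasDerivAt (fun s : ℝ => w + (s : ℂ) * ξ) (1 * ξ) y := by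
    have h2 : HasDerivAt (fun s : ℝ => (s : ℂ)) 1 y := Complex.ofRealCLM.hasDerivAt
    exact (h2.mul_const ξ).const_add w
  have h3 := (ff_hasDeriv b z α (w + y * ξ) hb hz).comp (y : ℝ) h1
  have h4 := h3.const_mul ξ
  have h5 : ξ ^ 2 * ff1 b z α (w + y * ξ) = ξ * (ff1 b z α (w + y * ξ) * (1 * ξ)) := by ring
  rw [h5]
  exact h4

/-- comparison of `ξ f` with a linear function -/
theorem gauss_lin (b : ι → ℂ) (z w ξ A : ℂ) (α s ε : ℝ) (hs : 0 ≤ s)
    (hf : ff b z α w = 0)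
    (hav : ∀ y ∈ Icc (0 : ℝ) s, w + y * ξ ≠ z ∧ ∀ i, w + y * ξ ≠ b i)
    (hA : ∀ y ∈ Icc (0 : ℝ) s, ‖ξ ^ 2 * ff1 b z α (w + y * ξ) - A‖ ≤ ε) :
    ‖ξ * ff b z α (w + s * ξ) - s * A‖ ≤ ε * s := by
  have hd : ∀ y ∈ Icc (0 : ℝ) s, HasDerivWithinAt
      (fun y : ℝ => ξ * ff b z α (w + y * ξ) - y * A)
      (ξ ^ 2 * ff1 b z α (w + y * ξ) - A) (Icc 0 s) y := by
    intro y hy
    have h1 := gauss_deriv b z w ξ α y (hav y hy).1 (hav y hy).2
    have h2 : HasDerivAt (fun s : ℝ => (s : ℂ) * A) (1 * A) y :=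
      (Complex.ofRealCLM.hasDerivAt (x := y)).mul_const A
    have h3 := h1.sub h2
    rw [one_mul] at h3
    exact h3.hasDerivWithinAt
  have h := (convex_Icc (0 : ℝ) s).norm_image_sub_le_of_norm_hasDerivWithin_le hd hA
    (left_mem_Icc.2 hs) (right_mem_Icc.2 hs)
  simp only [Complex.ofReal_zero, zero_mul, add_zero, hf, mul_zero, sub_zero] at h
  rwa [Real.norm_of_nonneg hs] at h

/-- decay of the real part of `ξ f` along a ray -/
theorem gauss_re (b : ι → ℂ) (z w ξ : ℂ) (α s c : ℝ) (hs : 0 ≤ s)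
    (hf : ff b z α w = 0)
    (hav : ∀ y ∈ Icc (0 : ℝ) s, w + y * ξ ≠ z ∧ ∀ i, w + y * ξ ≠ b i)
    (hA : ∀ y ∈ Icc (0 : ℝ) s, (ξ ^ 2 * ff1 b z α (w + y * ξ)).re ≤ -c) :
    (ξ * ff b z α (w + s * ξ)).re ≤ -c * s := by
  have hd : ∀ y ∈ Icc (0 : ℝ) s, HasDerivAt
      (fun y : ℝ => (ξ * ff b z α (w + y * ξ)).re)
      (ξ ^ 2 * ff1 b z α (w + y * ξ)).re y := by
    intro y hy
    have h1 := gauss_deriv b z w ξ α y (hav y hy).1 (hav y hy).2
    exact Complex.reCLM.hasFDerivAt.comp_hasDerivAt y h1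
  have h := (convex_Icc (0 : ℝ) s).image_sub_le_mul_sub_of_deriv_le (C := -c)
    (f := fun y : ℝ => (ξ * ff b z α (w + y * ξ)).re)
    (fun y hy => (hd y hy).continuousAt.continuousWithinAt)
    (fun y hy => (hd y (interior_subset hy)).differentiableAt.differentiableWithinAt)
    (fun y hy => by
      rw [(hd y (interior_subset hy)).deriv]
      exact hA y (interior_subset hy)) 0 (left_mem_Icc.2 hs) s (right_mem_Icc.2 hs) hs
  simp only [Complex.ofReal_zero, zero_mul, add_zero, hf, mul_zero, sub_zero,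
    Complex.zero_re] at h
  exact h

/-- a continuous family with negative real part on a compact ray: uniform bound -/
theorem gauss_ray (b : ι → ℂ) (z w : ℕ → ℂ) (α : ℕ → ℝ) (n : ℕ → ℕ) (z₀ w₀ ξ : ℂ) (α₀ : ℝ)
    (hn : Tendsto n atTop atTop) (hz : Tendsto z atTop (𝓝 z₀)) (hα : Tendsto α atTop (𝓝 α₀))
    (hw : Tendsto w atTop (𝓝 w₀)) (hcrit : ∀ᶠ k in atTop, ff b (z k) (α k) (w k) = 0)
    (hav : ∀ s ∈ Icc (0 : ℝ) 1, w₀ + s * ξ ≠ z₀ ∧ ∀ i, w₀ + s * ξ ≠ b i)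
    (hray : ∀ s ∈ Icc (0 : ℝ) 1, (ξ ^ 2 * ff1 b z₀ α₀ (w₀ + s * ξ)).re < 0) :
    RayHyp b z α n w (fun k => 1 / Real.sqrt (max 1 (n k : ℝ))) ξ
      (fun x => ξ ^ 2 * ff1 b z₀ α₀ w₀ * x) := by
  -- facts on the scale
  have hlam : ∀ k, 0 < 1 / Real.sqrt (max 1 (n k : ℝ)) := fun k => by positivity
  have hnl : ∀ᶠ k in atTop, (n k : ℝ) * (1 / Real.sqrt (max 1 (n k : ℝ))) *
      (1 / Real.sqrt (max 1 (n k : ℝ))) = 1 := by
    filter_upwards [hn.eventually_ge_atTop 1] with k hk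
    have h1 : (1 : ℝ) ≤ n k := by exact_mod_cast hk
    rw [max_eq_right h1]
    have h2 : 0 < Real.sqrt (n k : ℝ) := Real.sqrt_pos.2 (by linarith)
    have h3 : Real.sqrt (n k : ℝ) * Real.sqrt (n k : ℝ) = n k :=
      Real.mul_self_sqrt (by linarith)
    field_simp
    rw [sq, h3]
  have hlam0 : Tendsto (fun k => 1 / Real.sqrt (max 1 (n k : ℝ))) atTop (𝓝 0) := by
    have h1 : Tendsto (fun k => max 1 (n k : ℝ)) atTop atTop :=
      tendsto_atTop_mono (fun k => le_max_right _ _) (tendsto_natCast_atTop_atTop.comp hn)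
    have h2 : Tendsto (fun k => Real.sqrt (max 1 (n k : ℝ))) atTop atTop :=
      Real.tendsto_sqrt_atTop.comp h1
    simp only [one_div]
    exact tendsto_inv_atTop_zero.comp h2
  have hq : Tendsto (fun k => (z k, α k, w k)) atTop (𝓝 (z₀, α₀, w₀)) :=
    hz.prodMk_nhds (hα.prodMk_nhds hw)
  -- the moving point
  have hmap : ∀ y : ℝ, ContinuousAt
      (fun q : (ℂ × ℝ × ℂ) × ℝ => (q.1.1, q.1.2.1, q.1.2.2 + (q.2 : ℂ) * ξ))
      ((z₀, α₀, w₀), y) := by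
    intro y
    have : Continuous (fun q : (ℂ × ℝ × ℂ) × ℝ =>
        (q.1.1, q.1.2.1, q.1.2.2 + (q.2 : ℂ) * ξ)) := by fun_prop
    exact this.continuousAt
  have hf1 : ∀ y ∈ Icc (0 : ℝ) 1, ContinuousAt
      (fun q : (ℂ × ℝ × ℂ) × ℝ => ξ ^ 2 * ff1 b q.1.1 q.1.2.1 (q.1.2.2 + (q.2 : ℂ) * ξ))
      ((z₀, α₀, w₀), y) := by
    intro y hy
    have h1 := ff1_cont b z₀ α₀ (w₀ + y * ξ) (hav y hy).2 (hav y hy).1
    have h2 : ContinuousAt (fun q : (ℂ × ℝ × ℂ) × ℝ =>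
        ff1 b q.1.1 q.1.2.1 (q.1.2.2 + (q.2 : ℂ) * ξ)) ((z₀, α₀, w₀), y) :=
      ContinuousAt.comp (g := fun q : ℂ × ℝ × ℂ => ff1 b q.1 q.2.1 q.2.2)
        (f := fun q : (ℂ × ℝ × ℂ) × ℝ => (q.1.1, q.1.2.1, q.1.2.2 + (q.2 : ℂ) * ξ))
        (x := ((z₀, α₀, w₀), y)) h1 (hmap y)
    exact continuousAt_const.mul h2
  have havo : ∀ y ∈ Icc (0 : ℝ) 1, ∀ᶠ q : (ℂ × ℝ × ℂ) × ℝ in 𝓝 ((z₀, α₀, w₀), y),
      q.1.2.2 + (q.2 : ℂ) * ξ ≠ q.1.1 ∧ ∀ i, q.1.2.2 + (q.2 : ℂ) * ξ ≠ b i := by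
    intro y hy
    have hc : Continuous (fun q : (ℂ × ℝ × ℂ) × ℝ => q.1.2.2 + (q.2 : ℂ) * ξ) := by fun_prop
    have h1 : ∀ᶠ q : (ℂ × ℝ × ℂ) × ℝ in 𝓝 ((z₀, α₀, w₀), y),
        q.1.2.2 + (q.2 : ℂ) * ξ ≠ q.1.1 := by
      have h2 : Continuous (fun q : (ℂ × ℝ × ℂ) × ℝ => q.1.1) := by fun_prop
      have h4 := (hc.sub h2).continuousAt.eventually_ne (x := ((z₀, α₀, w₀), y))
        (sub_ne_zero.2 (hav y hy).1)
      exact h4.mono fun q hq => sub_ne_zero.1 hq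
    have h3 : ∀ᶠ q : (ℂ × ℝ × ℂ) × ℝ in 𝓝 ((z₀, α₀, w₀), y),
        ∀ i, q.1.2.2 + (q.2 : ℂ) * ξ ≠ b i := by
      rw [Filter.eventually_all]
      intro i
      exact hc.continuousAt.eventually_ne ((hav y hy).2 i)
    exact h1.and h3
  constructor
  · -- uniform constants
    have hcont : ContinuousOn (fun y : ℝ => ξ ^ 2 * ff1 b z₀ α₀ (w₀ + y * ξ)) (Icc 0 1) := by
      intro y hy
      have h1 : ContinuousAt (fun y : ℝ => (((z₀, α₀, w₀) : ℂ × ℝ × ℂ), y)) y :=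
        (continuous_const.prodMk continuous_id).continuousAt
      exact (ContinuousAt.comp
        (g := fun q : (ℂ × ℝ × ℂ) × ℝ => ξ ^ 2 * ff1 b q.1.1 q.1.2.1 (q.1.2.2 + (q.2 : ℂ) * ξ))
        (f := fun y : ℝ => (((z₀, α₀, w₀) : ℂ × ℝ × ℂ), y)) (x := y)
        (hf1 y hy) h1).continuousWithinAt
    obtain ⟨c, hc, hcb⟩ : ∃ c : ℝ, 0 < c ∧ ∀ y ∈ Icc (0 : ℝ) 1,
        (ξ ^ 2 * ff1 b z₀ α₀ (w₀ + y * ξ)).re < -c := by
      obtain ⟨y0, hy0, hmax⟩ := isCompact_Icc.exists_isMaxOn (nonempty_Icc.2 zero_le_one)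
        (Complex.continuous_re.comp_continuousOn hcont)
      refine ⟨-(ξ ^ 2 * ff1 b z₀ α₀ (w₀ + y0 * ξ)).re / 2, by linarith [hray y0 hy0], ?_⟩
      intro y hy
      have h1 := hmax hy
      have h2 := hray y0 hy0
      simp only [Function.comp_def, mem_ofPred_eq] at h1
      linarith
    obtain ⟨C, hC⟩ : ∃ C : ℝ, ∀ y ∈ Icc (0 : ℝ) 1,
        ‖ξ ^ 2 * ff1 b z₀ α₀ (w₀ + y * ξ)‖ < C := by
      obtain ⟨C, hC⟩ := isCompact_Icc.exists_bound_of_continuousOn hcont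
      exact ⟨C + 1, fun y hy => by linarith [hC y hy]⟩
    have hev : ∀ᶠ q : ℂ × ℝ × ℂ in 𝓝 (z₀, α₀, w₀), ∀ y ∈ Icc (0 : ℝ) 1,
        (q.2.2 + (y : ℂ) * ξ ≠ q.1 ∧ ∀ i, q.2.2 + (y : ℂ) * ξ ≠ b i) ∧
        (ξ ^ 2 * ff1 b q.1 q.2.1 (q.2.2 + (y : ℂ) * ξ)).re < -c ∧
        ‖ξ ^ 2 * ff1 b q.1 q.2.1 (q.2.2 + (y : ℂ) * ξ)‖ < C := by
      apply isCompact_Icc.eventually_forall_of_forall_eventually
      intro y hy
      refine (havo y hy).and (Filter.Eventually.and ?_ ?_)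
      · exact (Complex.continuous_re.continuousAt.comp (hf1 y hy)).eventually_lt
          continuousAt_const (hcb y hy)
      · exact (hf1 y hy).norm.eventually_lt continuousAt_const (hC y hy)
    refine ⟨c, max C 0, hc, ?_⟩
    filter_upwards [hq.eventually hev, hcrit, hnl] with k hk hk0 hk1 x hx
    set l : ℝ := 1 / Real.sqrt (max 1 (n k : ℝ)) with hl
    have hl0 : 0 < l := hlam k
    have hx0 : 0 ≤ x := hx.1
    have hx1 : l * x ≤ 1 := by
      have h1 := mul_le_mul_of_nonneg_left hx.2 hl0.le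
      rwa [mul_one_div_cancel hl0.ne'] at h1
    have hs0 : 0 ≤ l * x := mul_nonneg hl0.le hx0
    have hsub : ∀ y ∈ Icc (0 : ℝ) (l * x), y ∈ Icc (0 : ℝ) 1 :=
      fun y hy => ⟨hy.1, hy.2.trans hx1⟩
    have e1 : (n k : ℂ) * l * ξ * ff b (z k) (α k) (w k + l * x * ξ) =
        (((n k : ℝ) * l : ℝ) : ℂ) * (ξ * ff b (z k) (α k) (w k + ((l * x : ℝ) : ℂ) * ξ)) := by
      push_cast
      ring
    have hnl0 : 0 ≤ (n k : ℝ) * l := by positivity
    constructor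
    · rw [e1, Complex.re_ofReal_mul]
      have h1 := gauss_re b (z k) (w k) ξ (α k) (l * x) c hs0 hk0
        (fun y hy => (hk y (hsub y hy)).1) (fun y hy => (hk y (hsub y hy)).2.1.le)
      have h2 := mul_le_mul_of_nonneg_left h1 hnl0
      have h3 : (n k : ℝ) * l * (-c * (l * x)) = -c * x := by
        linear_combination -c * x * hk1
      rw [h3] at h2
      refine h2.trans ?_
      have h4 : min x (x ^ 2) ≤ x := min_le_left _ _
      nlinarith
    · rw [e1, norm_mul, Complex.norm_real, Real.norm_of_nonneg hnl0]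
      have h1 := gauss_lin b (z k) (w k) ξ 0 (α k) (l * x) C hs0 hk0
        (fun y hy => (hk y (hsub y hy)).1)
        (fun y hy => by
          rw [sub_zero]
          exact (hk y (hsub y hy)).2.2.le)
      rw [mul_zero, sub_zero] at h1
      have h2 := mul_le_mul_of_nonneg_left h1 hnl0
      have h3 : (n k : ℝ) * l * (C * (l * x)) = C * x := by
        linear_combination C * x * hk1
      rw [h3] at h2
      refine h2.trans ?_
      have h4 : C * x ≤ max C 0 * x := mul_le_mul_of_nonneg_right (le_max_left _ _) hx0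
      have h5 : x ≤ 1 + x ^ 2 := by nlinarith [sq_nonneg (x - 1)]
      exact h4.trans (mul_le_mul_of_nonneg_left h5 (le_max_right _ _))
  · intro x hx
    rw [Metric.tendsto_nhds]
    intro ε hε
    set A : ℂ := ξ ^ 2 * ff1 b z₀ α₀ w₀ with hA
    set ε' : ℝ := ε / (2 * (x + 1)) with hε'
    have hε'0 : 0 < ε' := by positivity
    have h0mem : (0 : ℝ) ∈ Icc (0 : ℝ) 1 := ⟨le_rfl, zero_le_one⟩
    have hev : ∀ᶠ q : (ℂ × ℝ × ℂ) × ℝ in 𝓝 ((z₀, α₀, w₀), (0 : ℝ)),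
        (q.1.2.2 + (q.2 : ℂ) * ξ ≠ q.1.1 ∧ ∀ i, q.1.2.2 + (q.2 : ℂ) * ξ ≠ b i) ∧
        ‖ξ ^ 2 * ff1 b q.1.1 q.1.2.1 (q.1.2.2 + (q.2 : ℂ) * ξ) - A‖ < ε' := by
      refine (havo 0 h0mem).and ?_
      have h1 : ContinuousAt (fun q : (ℂ × ℝ × ℂ) × ℝ =>
          ‖ξ ^ 2 * ff1 b q.1.1 q.1.2.1 (q.1.2.2 + (q.2 : ℂ) * ξ) - A‖) ((z₀, α₀, w₀), (0 : ℝ)) :=
        ((hf1 0 h0mem).sub continuousAt_const).norm
      refine h1.eventually_lt continuousAt_const ?_
      simp only [Complex.ofReal_zero, zero_mul, add_zero]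
      rw [hA, sub_self, norm_zero]
      exact hε'0
    rw [nhds_prod_eq, Filter.eventually_prod_iff] at hev
    obtain ⟨pa, hpa, pb, hpb, hab⟩ := hev
    obtain ⟨δ, hδ, hδb⟩ := Metric.eventually_nhds_iff.1 hpb
    have hlx : Tendsto (fun k => 1 / Real.sqrt (max 1 (n k : ℝ)) * x) atTop (𝓝 0) := by
      simpa using hlam0.mul_const x
    filter_upwards [hq.eventually hpa, hcrit, hnl, hlx.eventually_lt_const hδ]
      with k hk hk0 hk1 hk2
    set l : ℝ := 1 / Real.sqrt (max 1 (n k : ℝ)) with hl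
    have hl0 : 0 < l := hlam k
    have hs0 : 0 ≤ l * x := mul_nonneg hl0.le hx
    have e1 : (n k : ℂ) * l * ξ * ff b (z k) (α k) (w k + l * x * ξ) - A * x =
        (((n k : ℝ) * l : ℝ) : ℂ) * (ξ * ff b (z k) (α k) (w k + ((l * x : ℝ) : ℂ) * ξ) -
          ((l * x : ℝ) : ℂ) * A) := by
      have h2 : (((n k : ℝ) * l * l : ℝ) : ℂ) = 1 := by
        rw [hk1]
        simp
      push_cast at h2 ⊢
      linear_combination A * x * h2
    have hnl0 : 0 ≤ (n k : ℝ) * l := by positivity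
    rw [dist_eq_norm, e1, norm_mul, Complex.norm_real, Real.norm_of_nonneg hnl0]
    have hy : ∀ y ∈ Icc (0 : ℝ) (l * x), pb y := by
      intro y hy
      apply hδb
      rw [Real.dist_eq, sub_zero, abs_of_nonneg hy.1]
      exact lt_of_le_of_lt hy.2 hk2
    have h1 := gauss_lin b (z k) (w k) ξ A (α k) (l * x) ε' hs0 hk0
      (fun y hy' => (hab hk (hy y hy')).1)
      (fun y hy' => (hab hk (hy y hy')).2.le)
    have h2 := mul_le_mul_of_nonneg_left h1 hnl0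
    have h3 : (n k : ℝ) * l * (ε' * (l * x)) = ε' * x := by
      linear_combination ε' * x * hk1
    rw [h3] at h2
    refine lt_of_le_of_lt h2 ?_
    rw [hε', div_mul_eq_mul_div, div_lt_iff₀ (by positivity)]
    nlinarith

theorem gauss_seq (b : ι → ℂ) (z₀ w₀ u v : ℂ) (α₀ : ℝ) (p : List ℂ)
    (hD : Dom b z₀ α₀ w₀ u v p) (z : ℕ → ℂ) (n m : ℕ → ℕ) (hn : Tendsto n atTop atTop)
    (hz : Tendsto z atTop (𝓝 z₀))
    (hα : Tendsto (fun k => ((m k : ℝ) + 1) / n k) atTop (𝓝 α₀)) :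
    (∀ᶠ k in atTop, Tn b (n k) (m k) (z k) ≠ 0) ∧
      Tendsto (fun k => Tn b (n k) (m k + 1) (z k) / Tn b (n k) (m k) (z k)) atTop
        (𝓝 ((w₀ - z₀)⁻¹)) := by
  have h0mem : (0 : ℝ) ∈ Icc (0 : ℝ) 1 := ⟨le_rfl, zero_le_one⟩
  have h0 := hD.avu 0 h0mem
  simp only [Complex.ofReal_zero, zero_mul, add_zero] at h0
  have hu0 := hD.rayu 0 h0mem
  have hv0 := hD.rayv 0 h0mem
  simp only [Complex.ofReal_zero, zero_mul, add_zero] at hu0 hv0
  have h1 : ff1 b z₀ α₀ w₀ ≠ 0 := by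
    intro h
    rw [h, mul_zero] at hu0
    simp at hu0
  obtain ⟨w, hw, hcrit⟩ := root_seq b z₀ w₀ α₀ h0.1 h0.2 hD.crit h1 z
    (fun k => ((m k : ℝ) + 1) / n k) hz hα
  have hRu := gauss_ray b z w (fun k => ((m k : ℝ) + 1) / n k) n z₀ w₀ u α₀ hn hz hα hw hcrit
    hD.avu hD.rayu
  have hRv := gauss_ray b z w (fun k => ((m k : ℝ) + 1) / n k) n z₀ w₀ v α₀ hn hz hα hw hcrit
    hD.avv hD.rayv
  have hlam0 : Tendsto (fun k => 1 / Real.sqrt (max 1 (n k : ℝ))) atTop (𝓝 0) := by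
    have h1 : Tendsto (fun k => max 1 (n k : ℝ)) atTop atTop :=
      tendsto_atTop_mono (fun k => le_max_right _ _) (tendsto_natCast_atTop_atTop.comp hn)
    have h2 : Tendsto (fun k => Real.sqrt (max 1 (n k : ℝ))) atTop atTop :=
      Real.tendsto_sqrt_atTop.comp h1
    simp only [one_div]
    exact tendsto_inv_atTop_zero.comp h2
  refine main_asymp b z w n m z₀ w₀ u v α₀ p hn hz hα hw hD.avu hD.avv hD.path
    (fun k => 1 / Real.sqrt (max 1 (n k : ℝ))) (fun k => by positivity) hlam0 ?_ _ _ hRu hRv ?_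
  · filter_upwards [hn.eventually_ge_atTop 1] with k hk
    have h1 : (1 : ℝ) ≤ n k := by exact_mod_cast hk
    rw [max_eq_right h1]
    apply one_div_le_one_div_of_le (Real.sqrt_pos.2 (by linarith))
    rw [Real.sqrt_le_left (by linarith)]
    nlinarith
  · have hint : ∀ (a : ℂ) (x : ℝ), (∫ y in (0 : ℝ)..x, a * (y : ℂ)) = a * x ^ 2 / 2 := by
      intro a x
      rw [intervalIntegral.integral_const_mul]
      have h2 : (∫ y in (0 : ℝ)..x, (y : ℂ)) = ((∫ y in (0 : ℝ)..x, y : ℝ) : ℂ) :=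
        intervalIntegral.integral_ofReal
      rw [h2, integral_id]
      push_cast
      ring
    simp only [hint]
    exact gauss_ne _ u v hu0 hv0 hD.uv

end Pool.Agent.SHD
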