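import Mathlib
import Pool.Agent.SHD.Loc1

set_option autoImplicit false

/-!
The geometry of the boundary (modules GEO1, GEO2).
-/

noncomputable section

namespace Pool.Agent.SHD

open Polynomial Set Filter Topology

variable {ι : Type} [Fintype ι]

/-- derivative of `h` -/
private theorem geo_hh_deriv (b : ι → ℂ) (w : ℂ) (hw : ∀ i, w ≠ b i) :
    HasDerivAt (hh b) (hh1 b w) w := by
  have h1 : HasDerivAt (fun w => ∑ i, (w - b i)⁻¹) (∑ i, -1 / (w - b i) ^ 2) w := by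
    apply HasDerivAt.fun_sum
    intro i _
    exact ((hasDerivAt_id w).sub_const (b i)).fun_inv (sub_ne_zero.mpr (hw i))
  refine h1.congr_deriv ?_
  unfold hh1
  rw [← Finset.sum_neg_distrib]
  apply Finset.sum_congr rfl
  intro i _
  rw [inv_pow, neg_div, one_div]

private theorem geo_im_inv (k : ℂ) : (-k⁻¹).im = k.im / ‖k‖ ^ 2 := by
  rw [Complex.neg_im, Complex.inv_im, Complex.normSq_eq_norm_sq]
  ring

private theorem pos_of_mul_neg_of_neg_left' {s y : ℝ} (h : s * y < 0) (hs : s < 0) : 0 < y := by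
  by_contra hy
  have := mul_nonneg_of_nonpos_of_nonpos hs.le (not_lt.mp hy)
  linarith

private theorem neg_of_mul_pos_of_neg_left' {s y : ℝ} (h : 0 < s * y) (hs : s < 0) : y < 0 := by
  by_contra hy
  have := mul_nonpos_of_nonpos_of_nonneg hs.le (not_lt.mp hy)
  linarith

private theorem neg_of_mul_neg_left' {s y : ℝ} (h : s * y < 0) (hs : 0 < s) : y < 0 := by
  by_contra hy
  have := mul_nonneg hs.le (not_lt.mp hy)
  linarith

private theorem pos_of_mul_pos_left' {s y : ℝ} (h : 0 < s * y) (hs : 0 < s) : 0 < y := by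
  by_contra hy
  have := mul_nonpos_of_nonneg_of_nonpos hs.le (not_lt.mp hy)
  linarith

/-- the derivative of the inverse chart on the real line -/
private theorem geo_deriv (b : ι → ℂ) (ws : ℂ) (Φ : OpenPartialHomeomorph ℂ ℂ) (wc : ℂ → ℂ)
    (hC : Chart b ws Φ wc) (t : ℝ) (h : (t : ℂ) ∈ Φ.target) :
    HasDerivAt (fun t : ℝ => Φ.symm (t : ℂ)) (-(hh b (wc (Φ.symm (t : ℂ))))⁻¹) t :=
  (hC.derivs _ h).comp_ofReal

/-- GEO1: the parametrised envelope -/
theorem geo_curve (b : ι → ℂ) (ws : ℂ) (Φ : OpenPartialHomeomorph ℂ ℂ) (wc : ℂ → ℂ)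
    (hC : Chart b ws Φ wc) (a c : ℝ) (h : ∀ t ∈ Ioo a c, (t : ℂ) ∈ Φ.target) :
    ContDiffOn ℝ 2 (fun t : ℝ => Φ.symm (t : ℂ)) (Ioo a c) ∧
      (∀ t ∈ Ioo a c, deriv (fun t : ℝ => Φ.symm (t : ℂ)) t ≠ 0) ∧
      ∀ t ∈ Ioo a c, 0 < t → ∃ x > 0, curvature (fun t : ℝ => Φ.symm (t : ℂ)) t =
        x * (Kf b (wc (Φ.symm t)) / (hh b (wc (Φ.symm t))) ^ 4).im := by
  refine ⟨?_, ?_, ?_⟩
  · have h1 : DifferentiableOn ℂ Φ.symm Φ.target := fun s hs =>
      (hC.derivs s hs).differentiableAt.differentiableWithinAt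
    have h2 : ContDiffOn ℂ 2 Φ.symm Φ.target := h1.contDiffOn Φ.open_target
    have h3 : ContDiffOn ℝ 2 Φ.symm Φ.target := h2.restrict_scalars ℝ
    have h4 : ContDiffOn ℝ 2 (fun t : ℝ => (t : ℂ)) (Ioo a c) :=
      Complex.ofRealCLM.contDiff.contDiffOn
    exact h3.comp h4 h
  · intro t ht
    rw [(geo_deriv b ws Φ wc hC t (h t ht)).deriv]
    exact neg_ne_zero.mpr (inv_ne_zero (hC.n0 _ (Φ.map_target (h t ht))))
  · intro t ht htpos
    have htt := h t ht
    have hsrc : Φ.symm (t : ℂ) ∈ Φ.source := Φ.map_target htt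
    obtain ⟨W, hW⟩ : ∃ W : ℂ, W = wc (Φ.symm (t : ℂ)) := ⟨_, rfl⟩
    have n0 : hh b W ≠ 0 := by rw [hW]; exact hC.n0 _ hsrc
    have n1 : hh1 b W ≠ 0 := by rw [hW]; exact hC.n1 _ hsrc
    have nK : Kf b W ≠ 0 := by rw [hW]; exact hC.nK _ hsrc
    have nb : ∀ i, W ≠ b i := by rw [hW]; exact hC.nb _ hsrc
    have htf : tf b W = t := by
      rw [hW, ← hC.val _ hsrc, Φ.right_inv htt]
    have htne : (t : ℂ) ≠ 0 := by exact_mod_cast htpos.ne'
    have hh1eq : hh1 b W = -(hh b W) ^ 2 / t := by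
      have e : -(hh b W) ^ 2 / hh1 b W = t := htf
      rw [div_eq_iff n1] at e
      rw [eq_div_iff htne, e]
      ring
    -- first derivative
    have d1 : deriv (fun t : ℝ => Φ.symm (t : ℂ)) t = -(hh b W)⁻¹ := by
      rw [(geo_deriv b ws Φ wc hC t htt).deriv, hW]
    -- second derivative
    have dG : HasDerivAt (fun s : ℂ => -(hh b (wc (Φ.symm s)))⁻¹)
        (-(hh1 b W) ^ 3 / (Kf b W * (hh b W) ^ 3)) (t : ℂ) := by
      have e1 : HasDerivAt (fun s => wc (Φ.symm s))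
          ((hh1 b W) ^ 2 / Kf b W * (-(hh b W)⁻¹)) (t : ℂ) := by
        have a1 := hC.derivw _ hsrc
        have a2 := hC.derivs _ htt
        rw [← hW] at a1 a2
        exact HasDerivAt.comp (t : ℂ) a1 a2
      have e2 : HasDerivAt (fun s => hh b (wc (Φ.symm s)))
          (hh1 b W * ((hh1 b W) ^ 2 / Kf b W * (-(hh b W)⁻¹))) (t : ℂ) := by
        have a1 := geo_hh_deriv b W nb
        rw [hW] at a1
        rw [hW]
        rw [hW] at e1
        exact HasDerivAt.comp (t : ℂ) a1 e1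
      have n0' : hh b (wc (Φ.symm (t : ℂ))) ≠ 0 := hC.n0 _ hsrc
      have e3 := (e2.fun_inv n0').fun_neg
      refine e3.congr_deriv ?_
      rw [← hW]
      field_simp
    have d2 : deriv (deriv (fun t : ℝ => Φ.symm (t : ℂ))) t =
        -(hh1 b W) ^ 3 / (Kf b W * (hh b W) ^ 3) := by
      have e : deriv (fun t : ℝ => Φ.symm (t : ℂ)) =ᶠ[𝓝 t]
          fun s : ℝ => -(hh b (wc (Φ.symm (s : ℂ))))⁻¹ := by
        filter_upwards [isOpen_Ioo.mem_nhds ht] with s hs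
        exact (geo_deriv b ws Φ wc hC s (h s hs)).deriv
      rw [e.deriv_eq]
      exact dG.comp_ofReal.deriv
    have nk4 : Kf b W / (hh b W) ^ 4 ≠ 0 := div_ne_zero nK (pow_ne_zero 4 n0)
    refine ⟨‖hh b W‖ / (t ^ 3 * ‖Kf b W / (hh b W) ^ 4‖ ^ 2), ?_, ?_⟩
    · have := norm_pos_iff.mpr n0
      have := norm_pos_iff.mpr nk4
      positivity
    · rw [← hW]
      unfold curvature
      rw [d1, d2]
      have e1 : (starRingEnd ℂ) (-(hh b W)⁻¹) * (-(hh1 b W) ^ 3 / (Kf b W * (hh b W) ^ 3)) =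
          (((‖hh b W‖ ^ 2)⁻¹ * (t ^ 3)⁻¹ : ℝ) : ℂ) * (-(Kf b W / (hh b W) ^ 4)⁻¹) := by
        have e2 : (starRingEnd ℂ) (-(hh b W)⁻¹) * (-(hh b W)⁻¹) = (((‖hh b W‖ ^ 2)⁻¹ : ℝ) : ℂ) := by
          rw [mul_comm, Complex.mul_conj, Complex.normSq_eq_norm_sq, norm_neg, norm_inv, inv_pow]
        have e3 : -(hh1 b W) ^ 3 / (Kf b W * (hh b W) ^ 3) =
            (-(hh b W)⁻¹) * (((t ^ 3)⁻¹ : ℝ) : ℂ) * (-(Kf b W / (hh b W) ^ 4)⁻¹) := by
          rw [hh1eq]
          push_cast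
          field_simp
        rw [e3, ← mul_assoc, ← mul_assoc, e2]
        push_cast
        ring
      have hn : ‖hh b W‖ ≠ 0 := norm_ne_zero_iff.mpr n0
      have hn4 : ‖Kf b W / (hh b W) ^ 4‖ ≠ 0 := norm_ne_zero_iff.mpr nk4
      obtain ⟨k, hk⟩ : ∃ k : ℂ, k = Kf b W / (hh b W) ^ 4 := ⟨_, rfl⟩
      rw [← hk] at hn4 e1 ⊢
      rw [e1, Complex.im_ofReal_mul, geo_im_inv, norm_neg, norm_inv]
      field_simp

/-- GEO2: the boundary -/
theorem geo_frontier (Φ : OpenPartialHomeomorph ℂ ℂ) (zs : ℂ) (hz : zs ∈ Φ.source)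
    (ts : ℝ) (hts : Φ zs = ts) (S : Set ℂ) (hS : IsClosed S)
    (hin : ∀ᶠ z in 𝓝 zs, 0 < (Φ z).im → z ∈ S)
    (hout : ∀ᶠ z in 𝓝 zs, (Φ z).im < 0 → z ∉ S) :
    ∃ δ₀ > 0, ∀ δ, 0 < δ → δ < δ₀ → ∃ U : Set ℂ, IsOpen U ∧ zs ∈ U ∧
      (∀ t ∈ Ioo (ts - δ) (ts + δ), (t : ℂ) ∈ Φ.target) ∧
      (fun t : ℝ => Φ.symm (t : ℂ)) '' Ioo (ts - δ) (ts + δ) = frontier S ∩ U ∧
      Topology.IsEmbedding (fun t : Ioo (ts - δ) (ts + δ) => Φ.symm ((t : ℝ) : ℂ)) := by
  have hzt : (ts : ℂ) ∈ Φ.target := by rw [← hts]; exact Φ.map_source hz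
  have hsym : Φ.symm (ts : ℂ) = zs := by rw [← hts]; exact Φ.left_inv hz
  obtain ⟨V, hV, hVo, hzV⟩ := eventually_nhds_iff.mp (hin.and hout)
  -- a disc in the target
  have hpre : Φ.target ∩ Φ.symm ⁻¹' V ∈ 𝓝 (ts : ℂ) := by
    refine inter_mem (Φ.open_target.mem_nhds hzt) ?_
    have hc : ContinuousAt Φ.symm (ts : ℂ) := Φ.symm.continuousAt hzt
    apply hc
    rw [hsym]
    exact hVo.mem_nhds hzV
  obtain ⟨ε, hε, hball⟩ := Metric.mem_nhds_iff.mp hpre
  refine ⟨ε / 2, by positivity, fun δ hδ hδε => ?_⟩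
  obtain ⟨Q, hQdef⟩ : ∃ Q : Set ℂ, Q = {w : ℂ | |w.re - ts| < δ ∧ |w.im| < δ} := ⟨_, rfl⟩
  have hQo : IsOpen Q := by
    rw [hQdef]
    exact (isOpen_lt (Complex.continuous_re.sub continuous_const).abs continuous_const).inter
      (isOpen_lt Complex.continuous_im.abs continuous_const)
  have hQb : ∀ w ∈ Q, w ∈ Φ.target ∧ Φ.symm w ∈ V := by
    intro w hw
    rw [hQdef] at hw
    obtain ⟨h1, h2⟩ := hw
    apply hball
    rw [Metric.mem_ball, dist_eq_norm]
    have h3 := Complex.norm_le_abs_re_add_abs_im (w - (ts : ℂ))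
    rw [Complex.sub_re, Complex.sub_im, Complex.ofReal_re, Complex.ofReal_im, sub_zero] at h3
    linarith
  have hline : ∀ t ∈ Ioo (ts - δ) (ts + δ), (t : ℂ) ∈ Q := by
    intro t ht
    rw [hQdef]
    refine ⟨?_, ?_⟩
    · rw [Complex.ofReal_re, abs_lt]
      constructor
      · linarith [ht.1]
      · linarith [ht.2]
    · rw [Complex.ofReal_im, abs_zero]
      exact hδ
  have hUo : IsOpen (Φ.source ∩ Φ ⁻¹' Q) := Φ.isOpen_inter_preimage hQo
  have htt : ∀ t ∈ Ioo (ts - δ) (ts + δ), (t : ℂ) ∈ Φ.target := fun t ht =>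
    (hQb _ (hline t ht)).1
  refine ⟨Φ.source ∩ Φ ⁻¹' Q, hUo, ⟨hz, ?_⟩, htt, ?_, ?_⟩
  · show Φ zs ∈ Q
    rw [hts]
    exact hline ts ⟨by linarith, by linarith⟩
  · ext z
    constructor
    · rintro ⟨t, ht, rfl⟩
      have h1 := htt t ht
      have hzs : Φ.symm (t : ℂ) ∈ Φ.source := Φ.map_target h1
      refine ⟨?_, hzs, ?_⟩
      · -- approach from both sides
        have hcont : ContinuousAt (fun y : ℝ => Φ.symm ((t : ℂ) + y * Complex.I)) 0 := by
          have e1 : ContinuousAt Φ.symm ((t : ℂ) + ((0 : ℝ) : ℂ) * Complex.I) := by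
            rw [Complex.ofReal_zero, zero_mul, add_zero]
            exact Φ.symm.continuousAt h1
          have e2 : ContinuousAt (fun y : ℝ => (t : ℂ) + y * Complex.I) 0 := by fun_prop
          exact ContinuousAt.comp (f := fun y : ℝ => (t : ℂ) + y * Complex.I) e1 e2
        have hlim : Tendsto (fun y : ℝ => Φ.symm ((t : ℂ) + y * Complex.I)) (𝓝 0)
            (𝓝 (Φ.symm (t : ℂ))) := by
          have := hcont.tendsto
          simpa using this
        have hQy : ∀ᶠ y : ℝ in 𝓝 0, (t : ℂ) + y * Complex.I ∈ Q := by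
          have e2 : ContinuousAt (fun y : ℝ => (t : ℂ) + y * Complex.I) 0 := by fun_prop
          apply e2
          have : (t : ℂ) + ((0 : ℝ) : ℂ) * Complex.I = t := by
            rw [Complex.ofReal_zero, zero_mul, add_zero]
          show Q ∈ 𝓝 ((t : ℂ) + ((0 : ℝ) : ℂ) * Complex.I)
          rw [this]
          exact hQo.mem_nhds (hline t ht)
        have him : ∀ y : ℝ, ((t : ℂ) + y * Complex.I).im = y := fun y => by simp
        have hpos : ∀ᶠ y : ℝ in 𝓝[>] 0, Φ.symm ((t : ℂ) + y * Complex.I) ∈ S := by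
          filter_upwards [hQy.filter_mono nhdsWithin_le_nhds, self_mem_nhdsWithin] with y hy hy0
          obtain ⟨hy1, hy2⟩ := hQb _ hy
          apply (hV _ hy2).1
          rw [Φ.right_inv hy1, him]
          exact hy0
        have hneg : ∀ᶠ y : ℝ in 𝓝[<] 0, Φ.symm ((t : ℂ) + y * Complex.I) ∈ Sᶜ := by
          filter_upwards [hQy.filter_mono nhdsWithin_le_nhds, self_mem_nhdsWithin] with y hy hy0
          obtain ⟨hy1, hy2⟩ := hQb _ hy
          apply (hV _ hy2).2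
          rw [Φ.right_inv hy1, him]
          exact hy0
        rw [frontier_eq_closure_inter_closure]
        exact ⟨mem_closure_of_tendsto (hlim.mono_left nhdsWithin_le_nhds) hpos,
          mem_closure_of_tendsto (hlim.mono_left nhdsWithin_le_nhds) hneg⟩
      · show Φ (Φ.symm (t : ℂ)) ∈ Q
        rw [Φ.right_inv h1]
        exact hline t ht
    · rintro ⟨hf, hzs, hzQ⟩
      have hzQ' : Φ z ∈ Q := hzQ
      have hzV' : z ∈ V := by
        have := (hQb _ hzQ').2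
        rwa [Φ.left_inv hzs] at this
      have hci : ContinuousAt (fun z => (Φ z).im) z :=
        Complex.continuous_im.continuousAt.comp (Φ.continuousAt hzs)
      have hVn : ∀ᶠ z' in 𝓝 z, z' ∈ V := hVo.mem_nhds hzV'
      have him : (Φ z).im = 0 := by
        rcases lt_trichotomy (Φ z).im 0 with h1 | h1 | h1
        · exfalso
          have h2 : ∀ᶠ z' in 𝓝 z, (Φ z').im < 0 := hci.eventually (gt_mem_nhds h1)
          have h3 : ∀ᶠ z' in 𝓝 z, z' ∈ Sᶜ := by
            filter_upwards [hVn, h2] with z' h4 h5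
            exact (hV z' h4).2 h5
          have h4 : z ∈ S := hS.closure_eq ▸ frontier_subset_closure hf
          exact (h3.self_of_nhds) h4
        · exact h1
        · exfalso
          have h2 : ∀ᶠ z' in 𝓝 z, 0 < (Φ z').im := hci.eventually (lt_mem_nhds h1)
          have h3 : S ∈ 𝓝 z := by
            filter_upwards [hVn, h2] with z' h4 h5
            exact (hV z' h4).1 h5
          exact hf.2 (mem_interior_iff_mem_nhds.mpr h3)
      have hre : ((Φ z).re : ℂ) = Φ z := by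
        apply Complex.ext
        · rw [Complex.ofReal_re]
        · rw [Complex.ofReal_im, him]
      refine ⟨(Φ z).re, ?_, ?_⟩
      · rw [hQdef] at hzQ'
        have := abs_lt.mp hzQ'.1
        constructor
        · linarith [this.1]
        · linarith [this.2]
      · show Φ.symm ((Φ z).re : ℂ) = z
        rw [hre, Φ.left_inv hzs]
  · have e1 : IsEmbedding (Φ.symm.source.domRestrict Φ.symm) :=
      Φ.symm.isOpenEmbedding_restrict.isEmbedding
    have e2 : IsEmbedding (fun t : Ioo (ts - δ) (ts + δ) =>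
        (⟨((t : ℝ) : ℂ), htt t t.2⟩ : Φ.symm.source)) := by
      apply IsEmbedding.of_comp (g := Subtype.val)
      · exact (Complex.continuous_ofReal.comp continuous_subtype_val).subtype_mk _
      · exact continuous_subtype_val
      · exact Complex.isometry_ofReal.isEmbedding.comp IsEmbedding.subtypeVal
    exact e1.comp e2

/-- GEO3 -/
theorem geo (b : ι → ℂ) (ws : ℂ) (Φ : OpenPartialHomeomorph ℂ ℂ) (wc : ℂ → ℂ)
    (hC : Chart b ws Φ wc) (ts : ℝ) (hts : tf b ws = ts) (tpos : 0 < ts) (S : Set ℂ)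
    (hS : IsClosed S) (hin : ∀ᶠ z in 𝓝 (Zf b ws), 0 < (Φ z).im → z ∈ S)
    (hout : ∀ᶠ z in 𝓝 (Zf b ws), (Φ z).im < 0 → z ∉ S) (s : ℝ) (hs : s ≠ 0)
    (hsign : ∃ δ > 0, ∀ w ∈ Metric.ball ws δ, ∀ t : ℝ, tf b w = t →
      (t < ts → s * (Kf b w / (hh b w) ^ 4).im < 0) ∧
      (ts < t → 0 < s * (Kf b w / (hh b w) ^ 4).im)) :
    IsInflectionPoint (frontier S) (Zf b ws) := by
  have hz : Zf b ws ∈ Φ.source := hC.mem
  have hΦ : Φ (Zf b ws) = ts := by rw [hC.val _ hz, hC.wc0, hts]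
  obtain ⟨δ₀, hδ₀, hfr⟩ := geo_frontier Φ (Zf b ws) hz ts hΦ S hS hin hout
  obtain ⟨δ₁, hδ₁, hsg⟩ := hsign
  have hzt : (ts : ℂ) ∈ Φ.target := by rw [← hΦ]; exact Φ.map_source hz
  have hsym : Φ.symm (ts : ℂ) = Zf b ws := by rw [← hΦ]; exact Φ.left_inv hz
  -- the saddle point stays near `ws`
  have hnear : ∀ᶠ t : ℝ in 𝓝 ts, wc (Φ.symm (t : ℂ)) ∈ Metric.ball ws δ₁ := by
    have c1 : ContinuousAt wc (Zf b ws) := hC.cont.continuousAt (Φ.open_source.mem_nhds hz)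
    have c2 : ContinuousAt (fun t : ℝ => Φ.symm (t : ℂ)) ts :=
      ContinuousAt.comp (f := fun t : ℝ => (t : ℂ)) (Φ.symm.continuousAt hzt)
        Complex.continuous_ofReal.continuousAt
    have c3 : ContinuousAt (fun t : ℝ => wc (Φ.symm (t : ℂ))) ts := by
      rw [← hsym] at c1
      exact ContinuousAt.comp (f := fun t : ℝ => Φ.symm (t : ℂ)) c1 c2
    apply c3
    show Metric.ball ws δ₁ ∈ 𝓝 (wc (Φ.symm (ts : ℂ)))
    rw [hsym, hC.wc0]
    exact Metric.ball_mem_nhds _ hδ₁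
  obtain ⟨δ₂, hδ₂, hnear'⟩ := Metric.eventually_nhds_iff.mp hnear
  obtain ⟨δ, hδ, h0, h2, h3⟩ : ∃ δ > 0, δ < δ₀ ∧ δ < δ₂ ∧ δ < ts := by
    refine ⟨min δ₀ (min δ₂ ts) / 2, by positivity, ?_, ?_, ?_⟩
    · have := min_le_left δ₀ (min δ₂ ts)
      have h : 0 < min δ₀ (min δ₂ ts) := by positivity
      linarith
    · have := (min_le_right δ₀ (min δ₂ ts)).trans (min_le_left δ₂ ts)
      have h : 0 < min δ₀ (min δ₂ ts) := by positivity
      linarith
    · have := (min_le_right δ₀ (min δ₂ ts)).trans (min_le_right δ₂ ts)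
      have h : 0 < min δ₀ (min δ₂ ts) := by positivity
      linarith
  obtain ⟨U, hUo, hzU, htt, himg, hemb⟩ := hfr δ hδ h0
  obtain ⟨g1, g2, g3⟩ := geo_curve b ws Φ wc hC (ts - δ) (ts + δ) htt
  have hkey : ∀ t ∈ Ioo (ts - δ) (ts + δ), ∃ x > 0,
      curvature (fun t : ℝ => Φ.symm (t : ℂ)) t =
        x * (Kf b (wc (Φ.symm t)) / (hh b (wc (Φ.symm t))) ^ 4).im ∧
      (t < ts → s * (Kf b (wc (Φ.symm t)) / (hh b (wc (Φ.symm t))) ^ 4).im < 0) ∧
      (ts < t → 0 < s * (Kf b (wc (Φ.symm t)) / (hh b (wc (Φ.symm t))) ^ 4).im) := by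
    intro t ht
    have ht0 : 0 < t := by linarith [ht.1]
    obtain ⟨x, hx, hcv⟩ := g3 t ht ht0
    refine ⟨x, hx, hcv, ?_⟩
    have hsrc : Φ.symm (t : ℂ) ∈ Φ.source := Φ.map_target (htt t ht)
    apply hsg
    · apply hnear'
      rw [Real.dist_eq, abs_lt]
      constructor
      · linarith [ht.1]
      · linarith [ht.2]
    · rw [← hC.val _ hsrc, Φ.right_inv (htt t ht)]
  refine ⟨U, fun t : ℝ => Φ.symm (t : ℂ), ts - δ, ts, ts + δ, hUo, hzU, by linarith, by linarith,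
    g1, g2, hemb, himg, hsym, ?_⟩
  rcases lt_or_gt_of_ne hs with hs' | hs'
  · right
    constructor
    · intro t ht
      obtain ⟨x, hx, hcv, h4, -⟩ := hkey t ⟨ht.1, by linarith [ht.2]⟩
      rw [hcv]
      exact mul_pos hx (pos_of_mul_neg_of_neg_left' (h4 ht.2) hs')
    · intro t ht
      obtain ⟨x, hx, hcv, -, h4⟩ := hkey t ⟨by linarith [ht.1], ht.2⟩
      rw [hcv]
      exact mul_neg_of_pos_of_neg hx (neg_of_mul_pos_of_neg_left' (h4 ht.1) hs')
  · left
    constructor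
    · intro t ht
      obtain ⟨x, hx, hcv, h4, -⟩ := hkey t ⟨ht.1, by linarith [ht.2]⟩
      rw [hcv]
      exact mul_neg_of_pos_of_neg hx (neg_of_mul_neg_left' (h4 ht.2) hs')
    · intro t ht
      obtain ⟨x, hx, hcv, -, h4⟩ := hkey t ⟨by linarith [ht.1], ht.2⟩
      rw [hcv]
      exact mul_pos hx (pos_of_mul_pos_left' (h4 ht.1) hs')

/-- GEO4: a sign change of a real analytic function -/
theorem sign_change (G : ℝ → ℝ) (t₁ t₂ : ℝ) (h12 : t₁ < t₂)
    (hG : ∀ t ∈ Icc t₁ t₂, AnalyticAt ℝ G t) (h1 : G t₁ < 0) (h2 : 0 < G t₂) :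
    ∃ ts ∈ Ioo t₁ t₂, ∃ δ > 0, (∀ t ∈ Ioo (ts - δ) ts, G t < 0) ∧
      ∀ t ∈ Ioo ts (ts + δ), 0 < G t := by
  classical
  set S : Set ℝ := {t | t ∈ Icc t₁ t₂ ∧ G t < 0} with hS
  have hSne : S.Nonempty := ⟨t₁, ⟨le_rfl, h12.le⟩, h1⟩
  have hSbdd : BddAbove S := ⟨t₂, fun t ht => ht.1.2⟩
  set ts := sSup S with hts
  have hcont : ∀ t ∈ Icc t₁ t₂, ContinuousAt G t := fun t ht => (hG t ht).continuousAt
  have ht1 : t₁ ≤ ts := le_csSup hSbdd ⟨⟨le_rfl, h12.le⟩, h1⟩
  have ht2 : ts ≤ t₂ := csSup_le hSne fun t ht => ht.1.2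
  have hright : ∀ t, ts < t → t ≤ t₂ → 0 ≤ G t := by
    intro t h3 h4
    by_contra h5
    push Not at h5
    have : t ≤ ts := le_csSup hSbdd ⟨⟨ht1.trans h3.le, h4⟩, h5⟩
    linarith
  have hle : G ts ≤ 0 := by
    by_contra h3
    push Not at h3
    have h4 : ∀ᶠ t in 𝓝 ts, 0 < G t := (hcont ts ⟨ht1, ht2⟩).eventually_const_lt h3
    obtain ⟨ε, hε, hb⟩ := Metric.eventually_nhds_iff.mp h4
    obtain ⟨t, ht, hlt⟩ := exists_lt_of_lt_csSup hSne (show ts - ε < sSup S by rw [← hts]; linarith)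
    have h5 : t ≤ ts := le_csSup hSbdd ht
    have h6 := hb (y := t) (by rw [Real.dist_eq, abs_lt]; constructor <;> linarith)
    linarith [ht.2]
  have hlt2 : ts < t₂ := by
    rcases lt_or_eq_of_le ht2 with h | h
    · exact h
    · rw [h] at hle
      linarith
  have hge : 0 ≤ G ts := by
    by_contra h3
    push Not at h3
    have h4 : ∀ᶠ t in 𝓝 ts, G t < 0 := (hcont ts ⟨ht1, ht2⟩).eventually_lt_const h3
    obtain ⟨ε, hε, hb⟩ := Metric.eventually_nhds_iff.mp h4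
    have h5 : ts < min (ts + ε / 2) t₂ := lt_min (by linarith) hlt2
    have h6 := hright _ h5 (min_le_right _ _)
    have h7 := hb (y := min (ts + ε / 2) t₂) (by
      rw [Real.dist_eq, abs_lt]
      have := min_le_left (ts + ε / 2) t₂
      constructor <;> linarith)
    linarith
  have h0 : G ts = 0 := le_antisymm hle hge
  have hlt1 : t₁ < ts := by
    rcases lt_or_eq_of_le ht1 with h | h
    · exact h
    · rw [← h] at h0
      linarith
  -- points of `S` close to `ts` from the left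
  have hnear : ∀ ε > 0, ∃ t, ts - ε < t ∧ t < ts ∧ G t < 0 := by
    intro ε hε
    obtain ⟨t, ht, hlt⟩ := exists_lt_of_lt_csSup hSne (show ts - ε < sSup S by rw [← hts]; linarith)
    refine ⟨t, hlt, lt_of_le_of_ne (le_csSup hSbdd ht) ?_, ht.2⟩
    rintro rfl
    linarith [ht.2]
  have hne : ∀ᶠ t in 𝓝[≠] ts, G t ≠ 0 := by
    rcases (hG ts ⟨ht1, ht2⟩).eventually_eq_zero_or_eventually_ne_zero with h | h
    · exfalso
      obtain ⟨ε, hε, hb⟩ := Metric.eventually_nhds_iff.mp h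
      obtain ⟨t, h3, h4, h5⟩ := hnear ε hε
      have := hb (y := t) (by rw [Real.dist_eq, abs_lt]; constructor <;> linarith)
      linarith
    · exact h
  rw [eventually_nhdsWithin_iff] at hne
  obtain ⟨ε, hε, hb⟩ := Metric.eventually_nhds_iff.mp hne
  have hb' : ∀ t, |t - ts| < ε → t ≠ ts → G t ≠ 0 := fun t h3 h4 =>
    hb (y := t) (by rwa [Real.dist_eq]) h4
  set δ := min ε (min (ts - t₁) (t₂ - ts)) with hδ
  have hδ0 : 0 < δ := lt_min hε (lt_min (by linarith) (by linarith))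
  have hδ1 : δ ≤ ε := min_le_left _ _
  have hδ2 : δ ≤ ts - t₁ := (min_le_right _ _).trans (min_le_left _ _)
  have hδ3 : δ ≤ t₂ - ts := (min_le_right _ _).trans (min_le_right _ _)
  refine ⟨ts, ⟨hlt1, hlt2⟩, δ, hδ0, ?_, ?_⟩
  · rintro t ⟨h3, h4⟩
    have h5 : G t ≠ 0 := hb' t (by rw [abs_lt]; constructor <;> linarith) h4.ne
    by_contra h6
    push Not at h6
    have h7 : 0 < G t := lt_of_le_of_ne h6 h5.symm
    obtain ⟨s, h8, h9, h10⟩ := hnear (ts - t) (by linarith)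
    have hts' : t < s := by linarith
    have hc : ContinuousOn G (Icc t s) := fun x hx =>
      (hcont x ⟨by linarith [hx.1], by linarith [hx.2]⟩).continuousWithinAt
    obtain ⟨x, hx, hx0⟩ := intermediate_value_Icc' hts'.le hc ⟨h10.le, h7.le⟩
    exact hb' x (by rw [abs_lt]; constructor <;> linarith [hx.1, hx.2]) (by linarith [hx.2]) hx0
  · rintro t ⟨h3, h4⟩
    have h5 : G t ≠ 0 := hb' t (by rw [abs_lt]; constructor <;> linarith) h3.ne'
    exact lt_of_le_of_ne (hright t h3 (by linarith)) h5.symm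

end Pool.Agent.SHD
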