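import Mathlib
import Pool.Agent.SHD.Loc2

set_option autoImplicit false

/-!
The data needed for the description of the shadow near a point of the envelope.
-/

noncomputable section

namespace Pool.Agent.SHD

open Polynomial Set Filter Topology

variable {ι : Type} [Fintype ι]

/-- All hypotheses of the analytic part. -/
structure Good (b : ι → ℂ) (ws : ℂ) (ts : ℝ) (σ u v : ℂ) (p : List ℂ) (ε₀ ε₁ : ℝ) : Prop where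
  nb : ∀ i, ws ≠ b i
  n0 : hh b ws ≠ 0
  n1 : hh1 b ws ≠ 0
  nK : Kf b ws ≠ 0
  hts : tf b ws = ts
  tpos : 0 < ts
  tlt : ts < Fintype.card ι
  hσ : σ ^ 2 * (ff2 b (Zf b ws) ts ws * (ws - Zf b ws)) = 2
  domA : DomA b (Zf b ws) ts ws u v p
  coneu : (u ^ 2 * (ff2 b (Zf b ws) ts ws * σ)).re < 0
  coneui : (u ^ 2 * (ff2 b (Zf b ws) ts ws * (Complex.I * σ))).re < 0
  conev : (v ^ 2 * (ff2 b (Zf b ws) ts ws * σ)).re < 0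
  conevi : (v ^ 2 * (ff2 b (Zf b ws) ts ws * (Complex.I * σ))).re < 0
  low : ∀ᶠ z in 𝓝 (Zf b ws), ∀ n m : ℕ, (m : ℝ) ≤ ε₀ * n → Tn b n m z ≠ 0
  high : ∀ᶠ z in 𝓝 (Zf b ws), ∀ n m : ℕ, m ≤ n * Fintype.card ι →
    ((Fintype.card ι : ℝ) - ε₁) * n ≤ m → Tn b n m z ≠ 0
  dom : ∀ α ∈ Icc ε₀ ((Fintype.card ι : ℝ) - ε₁), α ≠ ts →
    ∃ w₀ u v p, Dom b (Zf b ws) α w₀ u v p
  near : ∀ ε > 0, ∃ η > 0, η < ε ∧
    (∃ w₀ u v p, Dom b (Zf b ws) (ts + η) w₀ u v p ∧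
      ‖w₀ - ws - σ * Real.sqrt η‖ ≤ ‖σ‖ * Real.sqrt η / 4) ∧
    (∃ w₀ u v p, Dom b (Zf b ws) (ts - η) w₀ u v p ∧
      ‖w₀ - ws - Complex.I * σ * Real.sqrt η‖ ≤ ‖σ‖ * Real.sqrt η / 4)

end Pool.Agent.SHD
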