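import Mathlib
import Pool.Agent.SHD.Good
import Pool.Agent.SHD.Gauss
import Pool.Agent.SHD.Dyn1
import Pool.Agent.SHD.Dyn2
import Pool.Agent.SHD.Dyn3

set_option autoImplicit false

/-!
The inner side belongs to the shadow (modules DYN4, INNER).
-/

noncomputable section

namespace Pool.Agent.SHD

open Polynomial Set Filter Topology

variable {ι : Type} [Fintype ι]

/-- the point `z + T_k / T_{k+1}` -/
def rr (b : ι → ℂ) (n : ℕ) (z : ℂ) (k : ℕ) : ℂ := z + Tn b n k z / Tn b n (k + 1) z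

/-- the principal square root of `α - Φ z`, `α = (k + 1) / n` -/
def rho (Φ : ℂ → ℂ) (n : ℕ) (z : ℂ) (k : ℕ) : ℂ :=
  (((((k : ℝ) + 1) / n : ℝ) : ℂ) - Φ z) ^ (1 / 2 : ℂ)

/-- facts on the principal square root for `Im (Φ z) > 0` -/
theorem rho_facts (Φ : ℂ → ℂ) (n : ℕ) (z : ℂ) (k : ℕ) (hi : 0 < (Φ z).im) :
    rho Φ n z k ^ 2 = (((((k : ℝ) + 1) / n : ℝ) : ℂ) - Φ z) ∧ 0 < (rho Φ n z k).re ∧
      (rho Φ n z k).im < 0 := by
  set x : ℂ := (((((k : ℝ) + 1) / n : ℝ) : ℂ) - Φ z) with hx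
  have him : x.im < 0 := by
    rw [hx, Complex.sub_im, Complex.ofReal_im]
    linarith
  have hx0 : x ≠ 0 := by
    intro h
    rw [h] at him
    simp at him
  have hrho : rho Φ n z k = x ^ (1 / 2 : ℂ) := rfl
  have harg : Complex.arg x < 0 := Complex.arg_neg_iff.2 him
  have harg2 : -Real.pi < Complex.arg x := Complex.neg_pi_lt_arg x
  have hexp : x ^ (1 / 2 : ℂ) = Complex.exp (Complex.log x / 2) := by
    rw [Complex.cpow_def_of_ne_zero hx0]
    congr 1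
    ring
  have hre : (Complex.log x / 2).re = (Complex.log x).re / 2 := by
    rw [show (2 : ℂ) = ((2 : ℝ) : ℂ) by norm_num, Complex.div_ofReal_re]
  have him2 : (Complex.log x / 2).im = Complex.arg x / 2 := by
    rw [show (2 : ℂ) = ((2 : ℝ) : ℂ) by norm_num, Complex.div_ofReal_im, Complex.log_im]
  refine ⟨?_, ?_, ?_⟩
  · rw [hrho, hexp, ← Complex.exp_nat_mul]
    rw [show ((2 : ℕ) : ℂ) * (Complex.log x / 2) = Complex.log x by push_cast; ring]
    exact Complex.exp_log hx0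
  · rw [hrho, hexp, Complex.exp_re, him2]
    apply mul_pos (Real.exp_pos _)
    apply Real.cos_pos_of_mem_Ioo
    constructor <;> linarith
  · rw [hrho, hexp, Complex.exp_im, him2]
    apply mul_neg_of_pos_of_neg (Real.exp_pos _)
    apply Real.sin_neg_of_neg_of_neg_pi_lt
    · linarith
    · linarith [Real.pi_pos]

private theorem dyn4_rho_sq (Φ : ℂ → ℂ) (n : ℕ) (z : ℂ) (k : ℕ) (hi : 0 < (Φ z).im) :
    (Φ z).im ≤ ‖rho Φ n z k‖ ^ 2 := by
  rw [← norm_pow, (rho_facts Φ n z k hi).1]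
  have h := Complex.abs_im_le_norm ((((((k : ℝ) + 1) / n : ℝ) : ℂ)) - Φ z)
  rw [Complex.sub_im, Complex.ofReal_im, zero_sub, abs_neg, abs_of_pos hi] at h
  exact h

private theorem dyn4_rho_norm (Φ : ℂ → ℂ) (n : ℕ) (z : ℂ) (k : ℕ) (hi : 0 < (Φ z).im) :
    Real.sqrt (Φ z).im ≤ ‖rho Φ n z k‖ := by
  apply Real.sqrt_le_iff.2 ⟨norm_nonneg _, dyn4_rho_sq Φ n z k hi⟩

/-- the square root moves slowly -/
theorem rho_step (Φ : ℂ → ℂ) (n : ℕ) (z : ℂ) (k : ℕ) (hi : 0 < (Φ z).im) (hn : 1 ≤ n) :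
    ‖rho Φ n z (k + 1) - rho Φ n z k‖ ≤ 1 / (n * Real.sqrt (Φ z).im) := by
  have hn0 : (0 : ℝ) < n := by exact_mod_cast hn
  obtain ⟨h1, h2, h3⟩ := rho_facts Φ n z k hi
  obtain ⟨h1', h2', h3'⟩ := rho_facts Φ n z (k + 1) hi
  have hs : 0 < Real.sqrt (Φ z).im := Real.sqrt_pos.2 hi
  have hsum : ‖rho Φ n z k‖ ≤ ‖rho Φ n z (k + 1) + rho Φ n z k‖ := by
    rw [← sq_le_sq₀ (norm_nonneg _) (norm_nonneg _), ← Complex.normSq_eq_norm_sq,
      ← Complex.normSq_eq_norm_sq, Complex.normSq_apply, Complex.normSq_apply, Complex.add_re,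
      Complex.add_im]
    nlinarith
  have hprod : (rho Φ n z (k + 1) - rho Φ n z k) * (rho Φ n z (k + 1) + rho Φ n z k) =
      (((1 : ℝ) / n : ℝ) : ℂ) := by
    have : (rho Φ n z (k + 1) - rho Φ n z k) * (rho Φ n z (k + 1) + rho Φ n z k) =
      rho Φ n z (k + 1) ^ 2 - rho Φ n z k ^ 2 := by ring
    rw [this, h1, h1']
    push_cast
    ring
  have hnorm : ‖rho Φ n z (k + 1) - rho Φ n z k‖ * ‖rho Φ n z (k + 1) + rho Φ n z k‖ = 1 / n := by
    rw [← norm_mul, hprod, Complex.norm_real, Real.norm_of_nonneg (by positivity)]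
  have hge : Real.sqrt (Φ z).im ≤ ‖rho Φ n z (k + 1) + rho Φ n z k‖ :=
    (dyn4_rho_norm Φ n z k hi).trans hsum
  rw [le_div_iff₀ (by positivity)]
  have h4 : ‖rho Φ n z (k + 1) - rho Φ n z k‖ * Real.sqrt (Φ z).im ≤ 1 / n := by
    rw [← hnorm]
    exact mul_le_mul_of_nonneg_left hge (norm_nonneg _)
  have h5 : 1 / (n : ℝ) * n = 1 := by field_simp
  nlinarith

private theorem dyn4_ev (A B : ℝ) (hB : 0 < B) : ∀ᶠ n : ℕ in atTop, A / (n : ℝ) ≤ B :=
  (tendsto_const_div_atTop_nhds_zero_nat A).eventually_le_const hB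

private theorem dyn4_ev2 (A : ℝ) : ∀ᶠ n : ℕ in atTop, A ≤ (n : ℝ) :=
  tendsto_natCast_atTop_atTop.eventually_ge_atTop A

private theorem dyn4_sq (x R : ℝ) (hR : 0 < R) (h : 49 / 100 * R ≤ x) :
    24 / 100 * R ^ 2 ≤ x ^ 2 := by nlinarith

private theorem dyn4_half (x y : ℝ) (h0 : 0 ≤ x) (h : x < 1 / 10) (h3 : -(1 / 40) ≤ x * x - y * y - 1) :
    False := by nlinarith [mul_self_nonneg y]

private theorem dyn4_abs (x y n : ℝ) (hn : 0 < n) (h : |x / n - y| ≤ 2 / n) :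
    n * y - 2 ≤ x ∧ x ≤ n * y + 2 := by
  have h' := abs_le.1 h
  have e1 : x / n * n = x := by field_simp
  have e3 : (2 : ℝ) / n * n = 2 := by field_simp
  have h1 := mul_le_mul_of_nonneg_right h'.1 hn.le
  have h2 := mul_le_mul_of_nonneg_right h'.2 hn.le
  constructor <;> linarith

/-- going back at most `i` steps -/
private theorem dyn4_back (r : ℕ → ℂ) (a k : ℕ) (δ : ℝ) (hstep : ∀ j, a ≤ j → j < k →
    ‖r (j + 1) - r j‖ ≤ δ) : ∀ i, a + i ≤ k → ‖r (k - i) - r k‖ ≤ i * δ := by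
  intro i
  induction i with
  | zero =>
    intro _
    simp
  | succ i ih =>
    intro h
    have h1 := ih (by omega)
    have h2 := hstep (k - (i + 1)) (by omega) (by omega)
    rw [show k - (i + 1) + 1 = k - i by omega] at h2
    have h3 : r (k - (i + 1)) - r k = (r (k - i) - r k) - (r (k - i) - r (k - (i + 1))) := by ring
    rw [h3]
    refine (norm_sub_le _ _).trans ?_
    push_cast
    linarith

/-- a difference of two quotients -/
private theorem dyn4_quot (D D' σ ρ ρ' : ℂ) (e s A M : ℝ) (hσ : σ ≠ 0) (hs : 0 < s)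
    (hρ : s ≤ ‖ρ‖) (hρ' : s ≤ ‖ρ'‖) (hD : ‖D' - D‖ ≤ A) (hM : ‖D‖ ≤ M) (he : ‖ρ' - ρ‖ ≤ e) :
    ‖D' / (σ * ρ') - D / (σ * ρ)‖ ≤ A / (‖σ‖ * s) + M * e / (‖σ‖ * s ^ 2) := by
  have hσ0 : 0 < ‖σ‖ := norm_pos_iff.2 hσ
  have h1 : ρ ≠ 0 := by
    intro h
    rw [h, norm_zero] at hρ
    linarith
  have h2 : ρ' ≠ 0 := by
    intro h
    rw [h, norm_zero] at hρ'
    linarith
  have h3 : D' / (σ * ρ') - D / (σ * ρ) = (D' - D) / (σ * ρ') - D * (ρ' - ρ) / (σ * (ρ' * ρ)) := by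
    field_simp
    ring
  have hA : 0 ≤ A := (norm_nonneg _).trans hD
  have hM0 : 0 ≤ M := (norm_nonneg _).trans hM
  have he0 : 0 ≤ e := (norm_nonneg _).trans he
  rw [h3]
  refine (norm_sub_le _ _).trans (add_le_add ?_ ?_)
  · rw [norm_div, norm_mul]
    apply div_le_div₀ hA hD (by positivity)
    exact mul_le_mul_of_nonneg_left hρ' hσ0.le
  · rw [norm_div, norm_mul, norm_mul, norm_mul]
    apply div_le_div₀ (by positivity) _ (by positivity)
    · apply mul_le_mul_of_nonneg_left _ hσ0.le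
      rw [pow_two]
      exact mul_le_mul hρ' hρ hs.le (norm_nonneg _)
    · exact mul_le_mul hM he (norm_nonneg _) hM0

private theorem dyn4_core (b : ι → ℂ) (z ws : ℂ) (Φ : ℂ → ℂ) (wcz q σ : ℂ) (ts R c₀ r η : ℝ)
    (hR : 0 < R) (hq : σ ^ 2 * q = 1) (hwc : ‖wcz - ws‖ ≤ R / 100)
    (hquad : ∀ w, ‖w - ws‖ ≤ R →
      ‖tau b z w - Φ z - q * (w - wcz) ^ 2‖ ≤ ‖q‖ / 100 * ‖w - wcz‖ ^ 2)
    (hc₀ : 0 < c₀) (hP : ∀ w, ‖w - ws‖ ≤ R → c₀ ≤ ‖(PP b).eval w‖)
    (hΦ : ‖Φ z - ts‖ ≤ ‖q‖ * R ^ 2 / 100) (hi : 0 < (Φ z).im) (hZ : ZeroFree b z r)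
    (tpos : 0 < ts) (tlt : ts < Fintype.card ι) (hη : 0 < η) (hη1 : η ≤ ‖q‖ * R ^ 2 / 100)
    (hη2 : η ≤ ts / 4) (hη3 : η ≤ (Fintype.card ι - ts) / 2) :
    ∃ N : ℕ, ∀ n a c : ℕ,
        N ≤ n → a ≤ c → |((a : ℝ) + 1) / n - (ts - η)| ≤ 2 / n →
        |((c : ℝ) + 1) / n - (ts + η)| ≤ 2 / n → ‖rr b n z a - ws‖ ≤ R / 4 →
        ((rr b n z a - wcz) / (σ * rho Φ n z a)).re < 0 →
        ((rr b n z c - wcz) / (σ * rho Φ n z c)).re < 0 := by
  set d := Fintype.card ι with hd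
  set I := (Φ z).im with hI
  set s := Real.sqrt I with hs
  have hs0 : 0 < s := Real.sqrt_pos.2 hi
  have hsI : s ^ 2 = I := Real.sq_sqrt hi.le
  have hσ0 : σ ≠ 0 := by
    rintro rfl
    simp at hq
  have hq0 : q ≠ 0 := by
    rintro rfl
    simp at hq
  have hσn : 0 < ‖σ‖ := norm_pos_iff.2 hσ0
  have hqn : 0 < ‖q‖ := norm_pos_iff.2 hq0
  have hqσ : ‖σ‖ ^ 2 * ‖q‖ = 1 := by
    rw [← norm_pow, ← norm_mul, hq, norm_one]
  obtain ⟨C, N1, hC, hstep⟩ := dyn_step b z r (ts / 2) (‖ws - z‖ + R) hZ (by positivity)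
    (by positivity)
  have hdC : 0 < d * C + 1 := by positivity
  obtain ⟨C', N2, hC', hrec⟩ := dyn_rec b z (‖ws - z‖ + R) (d * C + 1) c₀ (by positivity) hdC hc₀
  set K : ℝ := C / (‖σ‖ * s) + (2 * R) * (1 / s) / (‖σ‖ * s ^ 2) with hK
  have hK0 : 0 ≤ K := by positivity
  have hqR : 0 < ‖q‖ * R ^ 2 / 100 := by positivity
  have htd : 0 < (d : ℝ) - ts := by linarith
  have hall : ∀ᶠ n : ℕ in atTop, (N1 ≤ n ∧ N2 ≤ n ∧ 1 ≤ n) ∧ (d * C / n ≤ R / 4 ∧ C / n ≤ R / 4) ∧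
      ((2 + C') / n ≤ ‖q‖ * R ^ 2 / 100) ∧ (C' / n ≤ I / 100) ∧ ((d + 1) * K / n ≤ 1 / 10) ∧
      (12 / ts ≤ n) ∧ (6 / (d - ts) ≤ n) ∧ ((d + 4) / (2 * η) ≤ n) := by
    refine (((eventually_ge_atTop N1).and ((eventually_ge_atTop N2).and
      (eventually_ge_atTop 1)))).and (((dyn4_ev _ _ (by positivity)).and
      (dyn4_ev _ _ (by positivity))).and ((dyn4_ev _ _ hqR).and
      ((dyn4_ev _ _ (by positivity)).and ((dyn4_ev _ _ (by norm_num)).and
      ((dyn4_ev2 _).and ((dyn4_ev2 _).and (dyn4_ev2 _)))))))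
  obtain ⟨N, hN⟩ := eventually_atTop.1 hall
  refine ⟨N, ?_⟩
  intro n a c hn hac ha hc hra hre
  obtain ⟨⟨g1, g2, g3⟩, ⟨g4, g5⟩, g6, g7, g8, g9, g10, g11⟩ := hN n hn
  have hn0 : (0 : ℝ) < n := by exact_mod_cast g3
  have g9' : 12 ≤ n * ts := by rwa [div_le_iff₀ tpos] at g9
  have g10' : 6 ≤ n * (d - ts) := by rwa [div_le_iff₀ htd] at g10
  have g11' : (d + 4 : ℝ) ≤ n * (2 * η) := by rwa [div_le_iff₀ (by positivity)] at g11
  have ha' := abs_le.1 ha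
  have hc' := abs_le.1 hc
  obtain ⟨ha1, ha2⟩ := dyn4_abs _ _ _ hn0 ha
  obtain ⟨hc1, hc2⟩ := dyn4_abs _ _ _ hn0 hc
  have hnη : n * η ≤ n * (ts / 4) := mul_le_mul_of_nonneg_left hη2 hn0.le
  have hnη' : n * η ≤ n * ((d - ts) / 2) := mul_le_mul_of_nonneg_left hη3 hn0.le
  have halow : ts / 2 * n ≤ a := by linarith
  have hchigh' : (c : ℝ) + 2 ≤ n * d := by linarith
  have hchigh : c + 2 ≤ n * d := by exact_mod_cast hchigh'
  have hadc' : (a : ℝ) + d ≤ c := by linarith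
  have hadc : a + d ≤ c := by exact_mod_cast hadc'
  have hTne : ∀ m, m ≤ n * d → Tn b n m z ≠ 0 := fun m hm =>
    hZ.2 n m g3 hm z (Metric.mem_ball_self hZ.1)
  -- the parameters
  have hα : ∀ k : ℕ, a ≤ k → k ≤ c → |((k : ℝ) + 1) / n - ts| ≤ η + 2 / n := by
    intro k hk1 hk2
    have hk1' : (a : ℝ) ≤ k := by exact_mod_cast hk1
    have hk2' : (k : ℝ) ≤ c := by exact_mod_cast hk2
    have h1 : ((a : ℝ) + 1) / n ≤ ((k : ℝ) + 1) / n := by gcongr
    have h2 : ((k : ℝ) + 1) / n ≤ ((c : ℝ) + 1) / n := by gcongr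
    rw [abs_le]
    constructor <;> linarith [ha'.1, hc'.2]
  have hxk : ∀ k, rr b n z k - z = Tn b n k z / Tn b n (k + 1) z := by
    intro k
    unfold rr
    ring
  have hxB : ∀ k, ‖rr b n z k - ws‖ ≤ R → ‖Tn b n k z / Tn b n (k + 1) z‖ ≤ ‖ws - z‖ + R := by
    intro k hk
    rw [← hxk, show rr b n z k - z = (ws - z) + (rr b n z k - ws) by ring]
    exact (norm_add_le _ _).trans (add_le_add le_rfl hk)
  have hst : ∀ k, a ≤ k → k < c → ‖rr b n z k - ws‖ ≤ R →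
      ‖rr b n z (k + 1) - rr b n z k‖ ≤ C / n := by
    intro k hk1 hk2 hk3
    have hk1' : (a : ℝ) ≤ k := by exact_mod_cast hk1
    have := hstep n k g1 (by linarith) (le_trans (by omega) hchigh) (hxB k hk3)
    rw [← hxk k, ← hxk (k + 1)] at this
    rwa [show rr b n z (k + 1) - z - (rr b n z k - z) = rr b n z (k + 1) - rr b n z k by ring] at this
  -- the main estimate
  have hA : ∀ k, a + d ≤ k → k ≤ c → (∀ j, a ≤ j → j ≤ k → ‖rr b n z j - ws‖ ≤ R) →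
      ‖rho Φ n z k ^ 2 - q * (rr b n z k - wcz) ^ 2‖ ≤
        ‖q‖ / 100 * ‖rr b n z k - wcz‖ ^ 2 + C' / n := by
    intro k hk1 hk2 hj
    have hRk := hj k (by omega) le_rfl
    have hback := dyn4_back (rr b n z) a k (C / n) (fun j h1 h2 => hst j h1 (by omega)
      (hj j h1 h2.le))
    have hx : ‖rr b n z k - z‖ ≤ ‖ws - z‖ + R := by
      rw [hxk]
      exact hxB k hRk
    have hkd : k + 1 ≤ n * d := le_trans (by omega) hchigh
    have hrec1 := hrec n (k + 1) g2 (by omega) hkd (hTne _ hkd) (rr b n z k - z) hx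
      (by
        intro i hi'
        refine ⟨hTne _ (le_trans (by omega) hkd), ?_⟩
        rw [show k + 1 - 1 - i = k - i by omega, show k + 1 - i = k - i + 1 by omega, ← hxk,
          show rr b n z (k - i) - z - (rr b n z k - z) = rr b n z (k - i) - rr b n z k by ring]
        refine (hback i (by omega)).trans ?_
        have hid : (i : ℝ) ≤ d := by exact_mod_cast hi'.le
        have h1 : (i : ℝ) * (C / n) ≤ d * (C / n) :=
          mul_le_mul_of_nonneg_right hid (by positivity)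
        have h2 : (d * C + 1) / n = d * (C / n) + 1 / n := by ring
        have h3 : 0 < 1 / (n : ℝ) := by positivity
        linarith)
      (by
        rw [show z + (rr b n z k - z) = rr b n z k by ring]
        exact hP _ hRk)
    rw [show z + (rr b n z k - z) = rr b n z k by ring] at hrec1
    have hquad1 := hquad _ hRk
    rw [(rho_facts Φ n z k hi).1]
    have h5 : ((((k : ℝ) + 1) / n : ℝ) : ℂ) = (((k + 1 : ℕ) : ℂ)) / n := by
      push_cast
      ring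
    have h6 : ((((k : ℝ) + 1) / n : ℝ) : ℂ) - Φ z - q * (rr b n z k - wcz) ^ 2 =
        (tau b z (rr b n z k) - Φ z - q * (rr b n z k - wcz) ^ 2) -
        (tau b z (rr b n z k) - ((k + 1 : ℕ) : ℂ) / n) := by
      rw [h5]
      ring
    rw [h6]
    exact (norm_sub_le _ _).trans (add_le_add hquad1 hrec1)
  have hlow : ∀ w, ‖w - ws‖ ≤ R → ‖w - wcz‖ ≤ 2 * R := by
    intro w hw
    have : w - wcz = (w - ws) - (wcz - ws) := by ring
    rw [this]
    refine (norm_sub_le _ _).trans ?_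
    linarith
  -- trapping
  have htrap := dyn_trap (rr b n z) ws R (C / n) a c d hR (by positivity)
    (by rw [← mul_div_assoc]; exact g4) hra hst (by
      intro k hk1 hk2 hj hcon
      have h1 := hA k hk1 hk2 hj
      have h2 : ‖q * (rr b n z k - wcz) ^ 2‖ ≤ ‖rho Φ n z k ^ 2‖ +
          ‖rho Φ n z k ^ 2 - q * (rr b n z k - wcz) ^ 2‖ := by
        have : q * (rr b n z k - wcz) ^ 2 = rho Φ n z k ^ 2 -
          (rho Φ n z k ^ 2 - q * (rr b n z k - wcz) ^ 2) := by ring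
        calc ‖q * (rr b n z k - wcz) ^ 2‖ = ‖rho Φ n z k ^ 2 -
          (rho Φ n z k ^ 2 - q * (rr b n z k - wcz) ^ 2)‖ := by rw [← this]
          _ ≤ _ := norm_sub_le _ _
      rw [norm_mul, norm_pow] at h2
      have h3 : ‖rho Φ n z k ^ 2‖ ≤ η + 2 / n + ‖q‖ * R ^ 2 / 100 := by
        rw [(rho_facts Φ n z k hi).1]
        have : ((((k : ℝ) + 1) / n : ℝ) : ℂ) - Φ z =
          (((((k : ℝ) + 1) / n - ts : ℝ) : ℝ) : ℂ) - (Φ z - ts) := by
          push_cast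
          ring
        rw [this]
        refine (norm_sub_le _ _).trans (add_le_add ?_ hΦ)
        rw [Complex.norm_real]
        exact hα k (by omega) hk2
      have h4 : 49 / 100 * R ≤ ‖rr b n z k - wcz‖ := by
        have h5 : rr b n z k - ws = (rr b n z k - wcz) + (wcz - ws) := by ring
        have h6 := norm_add_le (rr b n z k - wcz) (wcz - ws)
        rw [← h5] at h6
        linarith
      have h5 : 24 / 100 * R ^ 2 ≤ ‖rr b n z k - wcz‖ ^ 2 := dyn4_sq _ _ hR h4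
      have h6 : (2 + C') / (n : ℝ) = 2 / n + C' / n := by ring
      have h7 := mul_le_mul_of_nonneg_left h5 hqn.le
      have h8 : 0 < ‖q‖ * R ^ 2 := by positivity
      linarith) g5
  have hA' : ∀ k, a + d ≤ k → k ≤ c →
      ‖rho Φ n z k ^ 2 - q * (rr b n z k - wcz) ^ 2‖ ≤
        ‖q‖ / 100 * ‖rr b n z k - wcz‖ ^ 2 + C' / n := fun k h1 h2 =>
    hA k h1 h2 (fun j h3 h4 => htrap j h3 (by omega))
  set y : ℕ → ℂ := fun k => (rr b n z k - wcz) / (σ * rho Φ n z k) with hy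
  have hρ0 : ∀ k, rho Φ n z k ≠ 0 := by
    intro k h
    have := (rho_facts Φ n z k hi).2.1
    rw [h] at this
    simp at this
  have hysq : ∀ k, a + d ≤ k → k ≤ c → ‖y k ^ 2 - 1‖ ≤ 1 / 40 := by
    intro k hk1 hk2
    have h1 := hA' k hk1 hk2
    have hD : rr b n z k - wcz = σ * rho Φ n z k * y k := by
      rw [hy]
      field_simp [hρ0 k]
    rw [hD] at h1
    have h2 : rho Φ n z k ^ 2 - q * (σ * rho Φ n z k * y k) ^ 2 = -(rho Φ n z k ^ 2 * (y k ^ 2 - 1)) := by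
      linear_combination (-(rho Φ n z k ^ 2 * y k ^ 2)) * hq
    rw [h2, norm_neg, norm_mul, norm_pow, norm_mul, norm_mul] at h1
    have h3 := dyn4_rho_sq Φ n z k hi
    have h4 : ‖q‖ / 100 * (‖σ‖ * ‖rho Φ n z k‖ * ‖y k‖) ^ 2 =
        ‖rho Φ n z k‖ ^ 2 * (‖y k‖ ^ 2 / 100) := by
      linear_combination (‖rho Φ n z k‖ ^ 2 * ‖y k‖ ^ 2 / 100) * hqσ
    rw [h4] at h1
    have hρpos : 0 < ‖rho Φ n z k‖ ^ 2 := lt_of_lt_of_le hi h3
    have h5 : C' / n ≤ ‖rho Φ n z k‖ ^ 2 * (1 / 100) := by linarith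
    have h6 : ‖rho Φ n z k‖ ^ 2 * ‖y k ^ 2 - 1‖ ≤ ‖rho Φ n z k‖ ^ 2 * (‖y k‖ ^ 2 / 100 + 1 / 100) := by
      rw [mul_add]
      linarith
    have h7 : ‖y k ^ 2 - 1‖ ≤ ‖y k‖ ^ 2 / 100 + 1 / 100 := le_of_mul_le_mul_left h6 hρpos
    have h8 : ‖y k‖ ^ 2 ≤ ‖y k ^ 2 - 1‖ + 1 := by
      rw [← norm_pow]
      calc ‖y k ^ 2‖ = ‖(y k ^ 2 - 1) + 1‖ := by ring_nf
        _ ≤ ‖y k ^ 2 - 1‖ + ‖(1 : ℂ)‖ := norm_add_le _ _
        _ = _ := by rw [norm_one]
    linarith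
  have hystep : ∀ k, a ≤ k → k < c → ‖y (k + 1) - y k‖ ≤ K / n := by
    intro k hk1 hk2
    have h1 := dyn4_quot (rr b n z k - wcz) (rr b n z (k + 1) - wcz) σ (rho Φ n z k)
      (rho Φ n z (k + 1)) (1 / (n * s)) s (C / n) (2 * R) hσ0 hs0 (dyn4_rho_norm Φ n z k hi)
      (dyn4_rho_norm Φ n z (k + 1) hi) (by
        rw [show rr b n z (k + 1) - wcz - (rr b n z k - wcz) = rr b n z (k + 1) - rr b n z k by ring]
        exact hst k hk1 hk2 (htrap k hk1 hk2.le)) (hlow _ (htrap k hk1 hk2.le))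
      (rho_step Φ n z k hi g3)
    refine h1.trans (le_of_eq ?_)
    rw [hK]
    field_simp
  have hKd : d * (K / n) ≤ 1 / 10 := by
    have h1 : (d + 1) * K / n = d * (K / n) + K / n := by ring
    have h2 : 0 ≤ K / n := by positivity
    linarith
  have hK1 : K / n ≤ 1 / 10 := by
    have h1 : (d + 1) * K / n = d * (K / n) + K / n := by ring
    have h2 : 0 ≤ d * (K / n) := by positivity
    linarith
  -- the sign at `a + d`
  have hback2 := dyn4_back y a (a + d) (K / n) (fun j h1 h2 => hystep j h1 (by omega)) d le_rfl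
  rw [Nat.add_sub_cancel] at hback2
  have hstart : (y (a + d)).re < 0 := by
    have h1 := hysq (a + d) le_rfl hadc
    have h2 : |(y a - y (a + d)).re| ≤ 1 / 10 := (Complex.abs_re_le_norm _).trans (hback2.trans hKd)
    rw [Complex.sub_re, abs_le] at h2
    have h3 : |(y (a + d) ^ 2 - 1).re| ≤ 1 / 40 := (Complex.abs_re_le_norm _).trans h1
    rw [Complex.sub_re, Complex.one_re, pow_two, Complex.mul_re, abs_le] at h3
    by_contra hcon
    push Not at hcon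
    have h4 : (y (a + d)).re < 1 / 10 := by
      have : (y a).re < 0 := hre
      linarith [h2.1]
    exact dyn4_half _ _ hcon h4 h3.1
  exact dyn_sign y (a + d) c hadc (fun k h1 h2 => (hysq k h1 h2).trans (by norm_num))
    (fun k h1 h2 => (hystep k (by omega) h2).trans (hK1.trans (by norm_num))) hstart

/-- DYN4: in a disc without zeros the sign of the real part cannot change -/
theorem dyn_main (b : ι → ℂ) (ws : ℂ) (Φ : OpenPartialHomeomorph ℂ ℂ) (wc : ℂ → ℂ)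
    (hC : Chart b ws Φ wc) (ts : ℝ) (hts : tf b ws = ts) (tpos : 0 < ts)
    (tlt : ts < Fintype.card ι) (σ : ℂ)
    (hσ : σ ^ 2 * (ff2 b (Zf b ws) ts ws * (ws - Zf b ws)) = 2) :
    ∃ R > 0, ∃ η₁ > 0, ∃ δ > 0, ∀ z ∈ Metric.ball (Zf b ws) δ, z ∈ Φ.source ∧
      (0 < (Φ z).im → ∀ r, ZeroFree b z r → ∀ η, 0 < η → η < η₁ → ∃ N : ℕ, ∀ n a c : ℕ,
        N ≤ n → a ≤ c → |((a : ℝ) + 1) / n - (ts - η)| ≤ 2 / n →
        |((c : ℝ) + 1) / n - (ts + η)| ≤ 2 / n → ‖rr b n z a - ws‖ ≤ R / 4 →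
        ((rr b n z a - wc z) / (σ * rho Φ n z a)).re < 0 →
        ((rr b n z c - wc z) / (σ * rho Φ n z c)).re < 0) := by
  set q : ℂ := ff2 b (Zf b ws) ts ws * (ws - Zf b ws) / 2 with hq
  have hσq : σ ^ 2 * q = 1 := by
    rw [hq]
    linear_combination hσ / 2
  have hq0 : q ≠ 0 := by
    intro h
    rw [h] at hσq
    simp at hσq
  have hqn : 0 < ‖q‖ := norm_pos_iff.2 hq0
  obtain ⟨R₀, hR₀, δ₀, hδ₀, hquad⟩ := tau_quad b ws Φ wc hC ts hts q hq (‖q‖ / 100) (by positivity)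
  set R := R₀ / 2 with hRdef
  have hR : 0 < R := by positivity
  have hRR : ∀ w, ‖w - ws‖ ≤ R → w ∈ Metric.ball ws R₀ := by
    intro w hw
    rw [Metric.mem_ball, dist_eq_norm]
    linarith
  have hZ0 : Zf b ws ∈ Metric.ball (Zf b ws) δ₀ := Metric.mem_ball_self hδ₀
  have hcomp : IsCompact (Metric.closedBall ws R) := isCompact_closedBall ws R
  obtain ⟨w₁, hw₁, hmin⟩ := hcomp.exists_isMinOn ⟨ws, Metric.mem_closedBall_self hR.le⟩
    ((PP b).continuous.norm.continuousOn)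
  have hc₀ : 0 < ‖(PP b).eval w₁‖ := by
    rw [norm_pos_iff, PP_eval, Finset.prod_ne_zero_iff]
    intro i _
    rw [Metric.mem_closedBall, dist_eq_norm] at hw₁
    exact sub_ne_zero.2 (((hquad _ hZ0).2 w₁ (hRR w₁ hw₁)).1 i)
  have hΦc : ContinuousAt Φ (Zf b ws) := (hC.derivΦ _ hC.mem).continuousAt
  have hwcc : ContinuousAt wc (Zf b ws) := (hC.derivw _ hC.mem).continuousAt
  have hΦ0 : Φ (Zf b ws) = ts := by
    rw [hC.val _ hC.mem, hC.wc0, hts]
  obtain ⟨δ₁, hδ₁, h1⟩ := Metric.continuousAt_iff.1 hΦc (‖q‖ * R ^ 2 / 100) (by positivity)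
  obtain ⟨δ₂, hδ₂, h2⟩ := Metric.continuousAt_iff.1 hwcc (R / 100) (by positivity)
  refine ⟨R, hR, min (‖q‖ * R ^ 2 / 100) (min (ts / 4) ((Fintype.card ι - ts) / 2)),
    lt_min (by positivity) (lt_min (by positivity) (by linarith)), min δ₀ (min δ₁ δ₂),
    lt_min hδ₀ (lt_min hδ₁ hδ₂), ?_⟩
  intro z hz
  rw [Metric.mem_ball, lt_min_iff, lt_min_iff] at hz
  obtain ⟨hz0, hz1, hz2⟩ := hz
  obtain ⟨hsrc, hqz⟩ := hquad z hz0
  refine ⟨hsrc, ?_⟩
  intro hi r hZ η hη hη'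
  rw [lt_min_iff, lt_min_iff] at hη'
  have h1' := h1 hz1
  have h2' := h2 hz2
  rw [hΦ0, dist_eq_norm] at h1'
  rw [hC.wc0, dist_eq_norm] at h2'
  exact dyn4_core b z ws Φ (wc z) q σ ts R _ r η hR hσq h2'.le
    (fun w hw => (hqz w (hRR w hw)).2.2.1) hc₀
    (fun w hw => hmin (by rw [Metric.mem_closedBall, dist_eq_norm]; exact hw)) h1'.le hi hZ tpos tlt hη
    hη'.1.le hη'.2.1.le hη'.2.2.le

theorem inner_sqrt_lim (ρ : ℕ → ℂ) (s : ℂ) (m : ℝ) (hm : 0 < m)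
    (h : Tendsto (fun k => ρ k ^ 2) atTop (𝓝 (s ^ 2)))
    (hb : ∀ k, m ≤ ‖ρ k + s‖) : Tendsto ρ atTop (𝓝 s) := by
  rw [tendsto_iff_norm_sub_tendsto_zero] at h ⊢
  have h2 : Tendsto (fun k => ‖ρ k ^ 2 - s ^ 2‖ / m) atTop (𝓝 0) := by
    simpa using h.div_const m
  refine squeeze_zero (fun k => norm_nonneg _) (fun k => ?_) h2
  rw [le_div_iff₀ hm]
  have h3 : ρ k ^ 2 - s ^ 2 = (ρ k - s) * (ρ k + s) := by ring
  rw [h3, norm_mul]
  exact mul_le_mul_of_nonneg_left (hb k) (norm_nonneg _)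

theorem inner_quot (w ws σ s t : ℂ) (x : ℝ) (hx : 0 < x) (hσ : σ ≠ 0) (hs : ‖s‖ = x)
    (h : ‖w - ws - σ * t‖ ≤ ‖σ‖ * x / 4) :
    ‖(w - ws) / (σ * s) - t / s‖ ≤ 1 / 4 := by
  have hs0 : s ≠ 0 := by
    intro h0
    rw [h0, norm_zero] at hs
    exact hx.ne hs
  have h1 : (w - ws) / (σ * s) - t / s = (w - ws - σ * t) / (σ * s) := by
    field_simp
  have hσ0 : 0 < ‖σ‖ := norm_pos_iff.mpr hσ
  rw [h1, norm_div, norm_mul, hs, div_le_iff₀ (by positivity)]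
  linarith

/-- INNER -/
theorem inner (b : ι → ℂ) (ws : ℂ) (ts : ℝ) (σ u v : ℂ) (p : List ℂ) (ε₀ ε₁ : ℝ)
    (hG : Good b ws ts σ u v p ε₀ ε₁) (Φ : OpenPartialHomeomorph ℂ ℂ) (wc : ℂ → ℂ)
    (hC : Chart b ws Φ wc) : ∃ δ > 0, ∀ z ∈ Metric.ball (Zf b ws) δ, 0 < (Φ z).im →
      z ∈ shadow (PP b) := by
  have hσ0 : σ ≠ 0 := by
    intro h0
    have := hG.hσ
    rw [h0] at this
    norm_num at this
  have hσp : 0 < ‖σ‖ := norm_pos_iff.mpr hσ0
  obtain ⟨R, hR, η₁, hη₁, δ, hδ, hdyn⟩ :=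
    dyn_main b ws Φ wc hC ts hG.hts hG.tpos hG.tlt σ hG.hσ
  obtain ⟨η, hη, hηε, ⟨wp, up, vp, pp, hDp, hwp⟩, ⟨wm, um, vm, pm, hDm, hwm⟩⟩ :=
    hG.near (min η₁ (min ts ((R / (5 * ‖σ‖)) ^ 2)))
      (lt_min hη₁ (lt_min hG.tpos (by positivity)))
  have hη1 : η < η₁ := lt_of_lt_of_le hηε (min_le_left _ _)
  have hη2 : η < ts := lt_of_lt_of_le hηε ((min_le_right _ _).trans (min_le_left _ _))
  have hη3 : η < (R / (5 * ‖σ‖)) ^ 2 :=
    lt_of_lt_of_le hηε ((min_le_right _ _).trans (min_le_right _ _))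
  set x : ℝ := Real.sqrt η with hxdef
  have hx : 0 < x := Real.sqrt_pos.mpr hη
  have hxx : x ^ 2 = η := Real.sq_sqrt hη.le
  have hx3 : x < R / (5 * ‖σ‖) := by
    rw [hxdef, Real.sqrt_lt' (by positivity)]
    exact hη3
  have hx4 : ‖σ‖ * x * (5 / 4) < R / 4 := by
    rw [lt_div_iff₀ (by positivity)] at hx3
    nlinarith
  by_contra hcon
  push Not at hcon
  -- the sequences
  have hseq : ∀ k : ℕ, ∃ (z : ℂ) (r : ℝ) (N : ℕ), dist z (Zf b ws) < min δ (1 / ((k : ℝ) + 1)) ∧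
      0 < (Φ z).im ∧ ZeroFree b z r ∧ (∀ n a c : ℕ,
        N ≤ n → a ≤ c → |((a : ℝ) + 1) / n - (ts - η)| ≤ 2 / n →
        |((c : ℝ) + 1) / n - (ts + η)| ≤ 2 / n → ‖rr b n z a - ws‖ ≤ R / 4 →
        ((rr b n z a - wc z) / (σ * rho Φ n z a)).re < 0 →
        ((rr b n z c - wc z) / (σ * rho Φ n z c)).re < 0) := by
    intro k
    obtain ⟨z, hz, him, hns⟩ := hcon (min δ (1 / ((k : ℝ) + 1)))
      (lt_min hδ (by positivity))
    have hopen : IsOpen (shadow (PP b))ᶜ := isClosed_closure.isOpen_compl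
    obtain ⟨r, hr, hball⟩ := Metric.isOpen_iff.mp hopen z hns
    have hZ : ZeroFree b z r := by
      refine ⟨hr, fun n m hn hm z' hz' h0 => ?_⟩
      exact hball hz' (subset_closure ((mem_zeroSet b z').mpr ⟨n, m, hn, hm, h0⟩))
    have hzδ : z ∈ Metric.ball (Zf b ws) δ :=
      Metric.ball_subset_ball (min_le_left _ _) hz
    obtain ⟨N, hN⟩ := (hdyn z hzδ).2 him r hZ η hη hη1
    exact ⟨z, r, N, hz, him, hZ, hN⟩
  choose z r N hz him hZ hN using hseq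
  set n : ℕ → ℕ := fun k => max (N k) (k + 1) with hndef
  have hnN : ∀ k, N k ≤ n k := fun k => le_max_left _ _
  have hnk : ∀ k, k + 1 ≤ n k := fun k => le_max_right _ _
  have hnpos : ∀ k, (0 : ℝ) < n k := fun k => by
    have := hnk k
    exact_mod_cast (by omega : 0 < n k)
  have hntop : Tendsto n atTop atTop :=
    tendsto_atTop_mono (fun k => (Nat.le_succ k).trans (hnk k)) tendsto_id
  have hntop' : Tendsto (fun k => (n k : ℝ)) atTop atTop :=
    tendsto_natCast_atTop_atTop.comp hntop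
  have h2n : Tendsto (fun k => 2 / (n k : ℝ)) atTop (𝓝 0) :=
    hntop'.const_div_atTop 2
  have hzlim : Tendsto z atTop (𝓝 (Zf b ws)) := by
    rw [tendsto_iff_dist_tendsto_zero]
    refine squeeze_zero (fun k => dist_nonneg) (fun k => ((hz k).le.trans (min_le_right _ _)))
      tendsto_one_div_add_atTop_nhds_zero_nat
  have hΦ0 : Φ (Zf b ws) = ts := by
    rw [hC.val _ hC.mem, hC.wc0, hG.hts]
  have hΦlim : Tendsto (fun k => Φ (z k)) atTop (𝓝 (ts : ℂ)) := by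
    rw [← hΦ0]
    exact (Φ.continuousAt hC.mem).tendsto.comp hzlim
  have hwlim : Tendsto (fun k => wc (z k)) atTop (𝓝 ws) := by
    have h1 : ContinuousAt wc (Zf b ws) :=
      hC.cont.continuousAt (Φ.open_source.mem_nhds hC.mem)
    have h2 := h1.tendsto.comp hzlim
    rw [hC.wc0] at h2
    exact h2
  -- indices
  have key : ∀ t : ℝ, 0 ≤ t → ∀ k : ℕ,
      |(((⌊(n k : ℝ) * t⌋₊ : ℕ) : ℝ) + 1) / n k - t| ≤ 2 / n k := by
    intro t ht k
    have hn0 := hnpos k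
    have h1 := Nat.floor_le (mul_nonneg hn0.le ht)
    have h2 := Nat.lt_floor_add_one ((n k : ℝ) * t)
    rw [abs_le]
    constructor
    · rw [neg_le_sub_iff_le_add, ← sub_le_iff_le_add]
      have : t ≤ (((⌊(n k : ℝ) * t⌋₊ : ℕ) : ℝ) + 1) / n k := by
        rw [le_div_iff₀ hn0]
        linarith
      have h3 : 0 < 2 / (n k : ℝ) := by positivity
      linarith
    · rw [sub_le_iff_le_add]
      rw [div_le_iff₀ hn0]
      have h3 : (2 / (n k : ℝ) + t) * n k = 2 + n k * t := by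
        field_simp
      rw [h3]
      linarith
  have keylim : ∀ t : ℝ, 0 ≤ t → Tendsto
      (fun k => (((⌊(n k : ℝ) * t⌋₊ : ℕ) : ℝ) + 1) / n k) atTop (𝓝 t) := by
    intro t ht
    rw [tendsto_iff_dist_tendsto_zero]
    refine squeeze_zero (fun k => dist_nonneg) (fun k => ?_) h2n
    rw [Real.dist_eq]
    exact key t ht k
  -- the general limit
  have main : ∀ (t : ℝ) (w₀ u' v' : ℂ) (p' : List ℂ), 0 ≤ t → Dom b (Zf b ws) t w₀ u' v' p' →
      ∀ s : ℂ, s ^ 2 = (t : ℂ) - ts → s ≠ 0 →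
      (∀ k, x ≤ ‖rho Φ (n k) (z k) ⌊(n k : ℝ) * t⌋₊ + s‖) →
      Tendsto (fun k => rr b (n k) (z k) ⌊(n k : ℝ) * t⌋₊) atTop (𝓝 w₀) ∧
      Tendsto (fun k => ((rr b (n k) (z k) ⌊(n k : ℝ) * t⌋₊ - wc (z k)) /
        (σ * rho Φ (n k) (z k) ⌊(n k : ℝ) * t⌋₊)).re) atTop
        (𝓝 ((w₀ - ws) / (σ * s)).re) := by
    intro t w₀ u' v' p' ht hD s hs hs0 hlow
    have hne : w₀ ≠ Zf b ws := by
      have := (hD.avu 0 (by simp)).1
      simpa using this
    have hsub : w₀ - Zf b ws ≠ 0 := sub_ne_zero.mpr hne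
    have h1 := (gauss_seq b (Zf b ws) w₀ u' v' t p' hD z n (fun k => ⌊(n k : ℝ) * t⌋₊) hntop
      hzlim (keylim t ht)).2
    have h2 := h1.inv₀ (inv_ne_zero hsub)
    have h3 : Tendsto (fun k => rr b (n k) (z k) ⌊(n k : ℝ) * t⌋₊) atTop (𝓝 w₀) := by
      have h4 := hzlim.add h2
      rw [inv_inv, add_sub_cancel] at h4
      refine h4.congr (fun k => ?_)
      simp only [rr, inv_div]
    have h5 : Tendsto (fun k => rho Φ (n k) (z k) ⌊(n k : ℝ) * t⌋₊) atTop (𝓝 s) := by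
      refine inner_sqrt_lim _ s x hx ?_ hlow
      rw [hs]
      have h6 : Tendsto (fun k => ((((((⌊(n k : ℝ) * t⌋₊ : ℕ) : ℝ) + 1) / n k : ℝ)) : ℂ) -
          Φ (z k)) atTop (𝓝 ((t : ℂ) - ts)) :=
        ((Complex.continuous_ofReal.tendsto t).comp (keylim t ht)).sub hΦlim
      refine h6.congr (fun k => ?_)
      exact (rho_facts Φ (n k) (z k) _ (him k)).1.symm
    refine ⟨h3, ?_⟩
    have h7 : Tendsto (fun k => (rr b (n k) (z k) ⌊(n k : ℝ) * t⌋₊ - wc (z k)) /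
        (σ * rho Φ (n k) (z k) ⌊(n k : ℝ) * t⌋₊)) atTop (𝓝 ((w₀ - ws) / (σ * s))) :=
      (h3.sub hwlim).div (tendsto_const_nhds.mul h5) (mul_ne_zero hσ0 hs0)
    exact (Complex.continuous_re.tendsto _).comp h7
  have hxI : ‖-(Complex.I * (x : ℂ))‖ = x := by
    rw [norm_neg, norm_mul, Complex.norm_I, one_mul, Complex.norm_real, Real.norm_eq_abs,
      abs_of_pos hx]
  have hxR : ‖(x : ℂ)‖ = x := by
    rw [Complex.norm_real, Real.norm_eq_abs, abs_of_pos hx]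
  have hx0 : (x : ℂ) ≠ 0 := by exact_mod_cast hx.ne'
  have htm : 0 ≤ ts - η := by linarith
  have htp : 0 ≤ ts + η := by linarith
  obtain ⟨hm1, hm2⟩ := main (ts - η) wm um vm pm htm hDm (-(Complex.I * (x : ℂ)))
    (by
      rw [neg_sq, mul_pow, Complex.I_sq, ← Complex.ofReal_pow, hxx]
      push_cast
      ring)
    (by
      rw [neg_ne_zero]
      exact mul_ne_zero Complex.I_ne_zero hx0)
    (fun k => by
      have h1 := (rho_facts Φ (n k) (z k) ⌊(n k : ℝ) * (ts - η)⌋₊ (him k)).2.2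
      refine le_trans ?_ (Complex.abs_im_le_norm _)
      rw [Complex.add_im, Complex.neg_im, Complex.mul_im, Complex.I_re, Complex.I_im,
        Complex.ofReal_re, Complex.ofReal_im, abs_of_neg (by linarith)]
      linarith)
  obtain ⟨hp1, hp2⟩ := main (ts + η) wp up vp pp htp hDp (x : ℂ)
    (by
      rw [← Complex.ofReal_pow, hxx]
      push_cast
      ring)
    hx0
    (fun k => by
      have h1 := (rho_facts Φ (n k) (z k) ⌊(n k : ℝ) * (ts + η)⌋₊ (him k)).2.1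
      refine le_trans ?_ (Complex.abs_re_le_norm _)
      rw [Complex.add_re, Complex.ofReal_re, abs_of_pos (by linarith)]
      linarith)
  have hqm : ((wm - ws) / (σ * -(Complex.I * (x : ℂ)))).re < 0 := by
    have h1 := inner_quot wm ws σ (-(Complex.I * (x : ℂ))) (Complex.I * (x : ℂ)) x hx hσ0 hxI
      (by
        have h2 : σ * (Complex.I * (x : ℂ)) = Complex.I * σ * (x : ℂ) := by ring
        rw [h2]
        exact hwm)
    have h3 : Complex.I * (x : ℂ) / -(Complex.I * (x : ℂ)) = -1 := by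
      rw [div_neg, div_self (mul_ne_zero Complex.I_ne_zero hx0)]
    rw [h3] at h1
    have h4 := (Complex.abs_re_le_norm _).trans h1
    rw [abs_le, Complex.sub_re, Complex.neg_re, Complex.one_re] at h4
    linarith [h4.2]
  have hqp : 0 < ((wp - ws) / (σ * (x : ℂ))).re := by
    have h1 := inner_quot wp ws σ (x : ℂ) (x : ℂ) x hx hσ0 hxR hwp
    rw [div_self hx0] at h1
    have h4 := (Complex.abs_re_le_norm _).trans h1
    rw [abs_le, Complex.sub_re, Complex.one_re] at h4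
    linarith [h4.1]
  have hdist : ‖wm - ws‖ < R / 4 := by
    have h1 : wm - ws = (wm - ws - Complex.I * σ * (x : ℂ)) + Complex.I * σ * (x : ℂ) := by ring
    rw [h1]
    refine lt_of_le_of_lt (norm_add_le _ _) ?_
    have h2 : ‖Complex.I * σ * (x : ℂ)‖ = ‖σ‖ * x := by
      rw [norm_mul, norm_mul, Complex.norm_I, one_mul, hxR]
    rw [h2]
    have h3 := hwm
    linarith
  have e1 : ∀ᶠ k in atTop, ‖rr b (n k) (z k) ⌊(n k : ℝ) * (ts - η)⌋₊ - ws‖ < R / 4 :=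
    (hm1.sub_const ws).norm.eventually (gt_mem_nhds hdist)
  have e2 := hm2.eventually (gt_mem_nhds hqm)
  have e3 := hp2.eventually (lt_mem_nhds hqp)
  obtain ⟨k, ⟨h1, h2⟩, h3⟩ := ((e1.and e2).and e3).exists
  have hle : ⌊(n k : ℝ) * (ts - η)⌋₊ ≤ ⌊(n k : ℝ) * (ts + η)⌋₊ :=
    Nat.floor_mono (mul_le_mul_of_nonneg_left (by linarith) (hnpos k).le)
  have h4 := hN k (n k) _ _ (hnN k) hle (key _ htm k) (key _ htp k) h1.le h2
  exact absurd h4 (not_lt.mpr h3.le)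

end Pool.Agent.SHD
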