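import Mathlib
import Pool.Agent.SHD.Good
import Pool.Agent.SHD.AirySeq
import Pool.Agent.SHD.Gauss

set_option autoImplicit false

/-!
No zeros on the outer side (module OUTER).
-/

namespace Pool.Agent.SHD

open Polynomial Set Filter Topology

variable {ι : Type} [Fintype ι]

/-- the square root in the first quadrant of a number in the closed upper half plane -/
private theorem outer_sqrt (w : ℂ) (h : 0 ≤ w.im) :
    ∃ ρ : ℂ, ρ ^ 2 = w ∧ 0 ≤ ρ.re ∧ 0 ≤ ρ.im := by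
  have h1 : |w.re| ≤ ‖w‖ := Complex.abs_re_le_norm w
  have h2 := abs_le.1 h1
  have ha : 0 ≤ (‖w‖ + w.re) / 2 := by linarith [h2.1]
  have hb : 0 ≤ (‖w‖ - w.re) / 2 := by linarith [h2.2]
  have hsq : ‖w‖ ^ 2 = w.re ^ 2 + w.im ^ 2 := by
    rw [← Complex.normSq_eq_norm_sq, Complex.normSq_apply]
    ring
  have hprod : Real.sqrt ((‖w‖ + w.re) / 2) * Real.sqrt ((‖w‖ - w.re) / 2) = w.im / 2 := by
    rw [← Real.sqrt_mul ha]
    have h3 : (‖w‖ + w.re) / 2 * ((‖w‖ - w.re) / 2) = (w.im / 2) ^ 2 := by nlinarith [hsq]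
    rw [h3, Real.sqrt_sq (by linarith)]
  refine ⟨⟨Real.sqrt ((‖w‖ + w.re) / 2), Real.sqrt ((‖w‖ - w.re) / 2)⟩, ?_,
    Real.sqrt_nonneg _, Real.sqrt_nonneg _⟩
  apply Complex.ext
  · rw [pow_two, Complex.mul_re]
    have h4 := Real.mul_self_sqrt ha
    have h5 := Real.mul_self_sqrt hb
    show Real.sqrt ((‖w‖ + w.re) / 2) * Real.sqrt ((‖w‖ + w.re) / 2) -
      Real.sqrt ((‖w‖ - w.re) / 2) * Real.sqrt ((‖w‖ - w.re) / 2) = w.re
    rw [h4, h5]
    ring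
  · rw [pow_two, Complex.mul_im]
    show Real.sqrt ((‖w‖ + w.re) / 2) * Real.sqrt ((‖w‖ - w.re) / 2) +
      Real.sqrt ((‖w‖ - w.re) / 2) * Real.sqrt ((‖w‖ + w.re) / 2) = w.im
    rw [mul_comm (Real.sqrt ((‖w‖ - w.re) / 2)), hprod]
    ring

/-- the cone inequality -/
private theorem outer_cone_ineq (U c g ρ : ℂ) (r ε : ℝ) (hε : 0 < ε) (hr : 0 < r)
    (h1 : (U * c).re ≤ -r) (h2 : (U * (Complex.I * c)).re ≤ -r) (hρ1 : 0 ≤ ρ.re)
    (hρ2 : 0 ≤ ρ.im) (hU : ‖U‖ * ε ≤ r / 2) (hg : ‖g - c * ρ‖ ≤ ε * ‖ρ‖) :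
    (U * g).re ≤ -((r / 2) / (‖c‖ + ε)) * ‖g‖ := by
  have e1 : (U * (c * ρ)).re = ρ.re * (U * c).re + ρ.im * (U * (Complex.I * c)).re := by
    simp only [Complex.mul_re, Complex.mul_im, Complex.I_re, Complex.I_im]
    ring
  have hn : ‖ρ‖ ≤ ρ.re + ρ.im := by
    have := Complex.norm_le_abs_re_add_abs_im ρ
    rwa [abs_of_nonneg hρ1, abs_of_nonneg hρ2] at this
  have e2 : (U * (c * ρ)).re ≤ -r * ‖ρ‖ := by
    rw [e1]
    have a1 := mul_le_mul_of_nonneg_left h1 hρ1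
    have a2 := mul_le_mul_of_nonneg_left h2 hρ2
    have a3 := mul_le_mul_of_nonneg_left hn hr.le
    linarith
  have e3 : (U * g).re ≤ (U * (c * ρ)).re + ‖U‖ * (ε * ‖ρ‖) := by
    have a1 : U * g = U * (c * ρ) + U * (g - c * ρ) := by ring
    have a2 : (U * (g - c * ρ)).re ≤ ‖U * (g - c * ρ)‖ := Complex.re_le_norm _
    rw [norm_mul] at a2
    have a3 := mul_le_mul_of_nonneg_left hg (norm_nonneg U)
    rw [a1, Complex.add_re]
    linarith
  have hρ0 := norm_nonneg ρ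
  have e4 : (U * g).re ≤ -(r / 2) * ‖ρ‖ := by
    have a1 : ‖U‖ * (ε * ‖ρ‖) ≤ r / 2 * ‖ρ‖ := by
      rw [← mul_assoc]
      exact mul_le_mul_of_nonneg_right hU hρ0
    linarith
  have e5 : ‖g‖ ≤ (‖c‖ + ε) * ‖ρ‖ := by
    have a1 : ‖g‖ ≤ ‖g - c * ρ‖ + ‖c * ρ‖ := by
      have := norm_add_le (g - c * ρ) (c * ρ)
      rwa [sub_add_cancel] at this
    rw [norm_mul] at a1
    linarith
  have hpos : 0 < ‖c‖ + ε := by linarith [norm_nonneg c]
  have e6 : (r / 2) / (‖c‖ + ε) * ‖g‖ ≤ r / 2 * ‖ρ‖ := by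
    rw [div_mul_eq_mul_div, div_le_iff₀ hpos]
    have := mul_le_mul_of_nonneg_left e5 (by linarith : (0 : ℝ) ≤ r / 2)
    linarith
  linarith

/-- the cone condition for the saddle points near the double saddle point -/
theorem outer_cone (b : ι → ℂ) (ws : ℂ) (ts : ℝ) (σ u v : ℂ) (p : List ℂ) (ε₀ ε₁ : ℝ)
    (hG : Good b ws ts σ u v p ε₀ ε₁) (Φ : OpenPartialHomeomorph ℂ ℂ) (wc : ℂ → ℂ)
    (hC : Chart b ws Φ wc) (z : ℕ → ℂ) (α : ℕ → ℝ) (hz : Tendsto z atTop (𝓝 (Zf b ws)))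
    (hα : Tendsto α atTop (𝓝 ts)) (hi : ∀ᶠ k in atTop, (Φ (z k)).im ≤ 0) :
    ∃ (w : ℕ → ℂ) (c₀ : ℝ), 0 < c₀ ∧ Tendsto w atTop (𝓝 ws) ∧
      (∀ᶠ k in atTop, ff b (z k) (α k) (w k) = 0) ∧
      (∀ᶠ k in atTop, (u ^ 2 * ff1 b (z k) (α k) (w k)).re ≤ -c₀ * ‖ff1 b (z k) (α k) (w k)‖) ∧
      (∀ᶠ k in atTop, (v ^ 2 * ff1 b (z k) (α k) (w k)).re ≤ -c₀ * ‖ff1 b (z k) (α k) (w k)‖) := by
  obtain ⟨c, hc⟩ : ∃ c : ℂ, c = ff2 b (Zf b ws) ts ws * σ := ⟨_, rfl⟩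
  obtain ⟨r, hr, hr1, hr2, hr3, hr4⟩ : ∃ r : ℝ, 0 < r ∧ (u ^ 2 * c).re ≤ -r ∧
      (u ^ 2 * (Complex.I * c)).re ≤ -r ∧ (v ^ 2 * c).re ≤ -r ∧
      (v ^ 2 * (Complex.I * c)).re ≤ -r := by
    have h1 : (u ^ 2 * c).re < 0 := by rw [hc]; exact hG.coneu
    have h2 : (u ^ 2 * (Complex.I * c)).re < 0 := by
      rw [hc]
      have e : Complex.I * (ff2 b (Zf b ws) ts ws * σ) =
        ff2 b (Zf b ws) ts ws * (Complex.I * σ) := by ring
      rw [e]
      exact hG.coneui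
    have h3 : (v ^ 2 * c).re < 0 := by rw [hc]; exact hG.conev
    have h4 : (v ^ 2 * (Complex.I * c)).re < 0 := by
      rw [hc]
      have e : Complex.I * (ff2 b (Zf b ws) ts ws * σ) =
        ff2 b (Zf b ws) ts ws * (Complex.I * σ) := by ring
      rw [e]
      exact hG.conevi
    refine ⟨min (min (-(u ^ 2 * c).re) (-(u ^ 2 * (Complex.I * c)).re))
      (min (-(v ^ 2 * c).re) (-(v ^ 2 * (Complex.I * c)).re)), ?_, ?_, ?_, ?_, ?_⟩
    · exact lt_min (lt_min (by linarith) (by linarith)) (lt_min (by linarith) (by linarith))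
    · have := (min_le_left (min (-(u ^ 2 * c).re) (-(u ^ 2 * (Complex.I * c)).re))
        (min (-(v ^ 2 * c).re) (-(v ^ 2 * (Complex.I * c)).re))).trans (min_le_left _ _)
      linarith
    · have := (min_le_left (min (-(u ^ 2 * c).re) (-(u ^ 2 * (Complex.I * c)).re))
        (min (-(v ^ 2 * c).re) (-(v ^ 2 * (Complex.I * c)).re))).trans (min_le_right _ _)
      linarith
    · have := (min_le_right (min (-(u ^ 2 * c).re) (-(u ^ 2 * (Complex.I * c)).re))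
        (min (-(v ^ 2 * c).re) (-(v ^ 2 * (Complex.I * c)).re))).trans (min_le_left _ _)
      linarith
    · have := (min_le_right (min (-(u ^ 2 * c).re) (-(u ^ 2 * (Complex.I * c)).re))
        (min (-(v ^ 2 * c).re) (-(v ^ 2 * (Complex.I * c)).re))).trans (min_le_right _ _)
      linarith
  obtain ⟨ε, hε, hεu, hεv⟩ : ∃ ε : ℝ, 0 < ε ∧ ‖u ^ 2‖ * ε ≤ r / 2 ∧ ‖v ^ 2‖ * ε ≤ r / 2 := by
    have hD : 0 < 1 + ‖u ^ 2‖ + ‖v ^ 2‖ := by positivity
    have hu0 := norm_nonneg (u ^ 2)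
    have hv0 := norm_nonneg (v ^ 2)
    refine ⟨(r / 2) / (1 + ‖u ^ 2‖ + ‖v ^ 2‖), by positivity, ?_, ?_⟩
    · rw [mul_div_assoc', div_le_iff₀ hD, mul_comm]
      exact mul_le_mul_of_nonneg_left (by linarith) (by linarith)
    · rw [mul_div_assoc', div_le_iff₀ hD, mul_comm]
      exact mul_le_mul_of_nonneg_left (by linarith) (by linarith)
  obtain ⟨δ, hδ, hroot⟩ := double_root b ws Φ wc hC ts hG.hts σ hG.hσ ε hε
  have hch : ∀ k, ∃ w : ℂ, (z k ∈ Metric.ball (Zf b ws) δ ∧ |α k - ts| < δ ∧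
      (Φ (z k)).im ≤ 0) → ∃ ρ : ℂ, 0 ≤ ρ.re ∧ 0 ≤ ρ.im ∧ ρ ^ 2 = α k - Φ (z k) ∧
        ‖w - wc (z k) - σ * ρ‖ ≤ ε * ‖ρ‖ ∧ ff b (z k) (α k) w = 0 ∧
        ‖ff1 b (z k) (α k) w - c * ρ‖ ≤ ε * ‖ρ‖ := by
    intro k
    by_cases hk : z k ∈ Metric.ball (Zf b ws) δ ∧ |α k - ts| < δ ∧ (Φ (z k)).im ≤ 0
    · obtain ⟨ρ, hρ, hρ1, hρ2⟩ := outer_sqrt (α k - Φ (z k)) (by
        rw [Complex.sub_im, Complex.ofReal_im]
        linarith [hk.2.2])
      obtain ⟨w, hw1, _, hw3, hw4⟩ := (hroot (z k) hk.1).2 (α k) hk.2.1 ρ hρ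
      exact ⟨w, fun _ => ⟨ρ, hρ1, hρ2, hρ, hw1, hw3, by rw [hc]; exact hw4⟩⟩
    · exact ⟨0, fun h => absurd h hk⟩
  choose w hw using hch
  have hev : ∀ᶠ k in atTop, z k ∈ Metric.ball (Zf b ws) δ ∧ |α k - ts| < δ ∧
      (Φ (z k)).im ≤ 0 := by
    have h1 : ∀ᶠ k in atTop, z k ∈ Metric.ball (Zf b ws) δ :=
      hz.eventually (Metric.ball_mem_nhds _ hδ)
    have h2 : ∀ᶠ k in atTop, |α k - ts| < δ := by
      have h3 : ∀ᶠ k in atTop, α k ∈ Metric.ball ts δ := hα.eventually (Metric.ball_mem_nhds _ hδ)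
      filter_upwards [h3] with k hk
      rwa [Metric.mem_ball, Real.dist_eq] at hk
    filter_upwards [h1, h2, hi] with k a1 a2 a3 using ⟨a1, a2, a3⟩
  refine ⟨w, (r / 2) / (‖c‖ + ε), by positivity, ?_, ?_, ?_, ?_⟩
  · -- the limit
    have hcw : Tendsto (fun k => wc (z k)) atTop (𝓝 ws) := by
      have h1 : ContinuousAt wc (Zf b ws) :=
        hC.cont.continuousAt (Φ.open_source.mem_nhds hC.mem)
      have h2 := h1.tendsto.comp hz
      rwa [hC.wc0] at h2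
    have hΦ : Tendsto (fun k => Φ (z k)) atTop (𝓝 (ts : ℂ)) := by
      have h1 : ContinuousAt Φ (Zf b ws) := Φ.continuousAt hC.mem
      have h2 := h1.tendsto.comp hz
      rwa [hC.val _ hC.mem, hC.wc0, hG.hts] at h2
    have hd : Tendsto (fun k => (α k : ℂ) - Φ (z k)) atTop (𝓝 0) := by
      have h1 : Tendsto (fun k => (α k : ℂ)) atTop (𝓝 (ts : ℂ)) :=
        (Complex.continuous_ofReal.tendsto ts).comp hα
      have h2 := h1.sub hΦ
      rwa [sub_self] at h2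
    have hsq : Tendsto (fun k => (‖σ‖ + ε) * Real.sqrt ‖(α k : ℂ) - Φ (z k)‖) atTop (𝓝 0) := by
      have h1 : Tendsto (fun k => Real.sqrt ‖(α k : ℂ) - Φ (z k)‖) atTop (𝓝 (Real.sqrt 0)) := by
        have h0 := hd.norm
        rw [norm_zero] at h0
        exact (Real.continuous_sqrt.tendsto 0).comp h0
      rw [Real.sqrt_zero] at h1
      have h2 := h1.const_mul (‖σ‖ + ε)
      rwa [mul_zero] at h2
    have hdiff : Tendsto (fun k => w k - wc (z k)) atTop (𝓝 0) := by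
      refine squeeze_zero_norm' ?_ hsq
      filter_upwards [hev] with k hk
      obtain ⟨ρ, _, _, h3, h4, _, _⟩ := hw k hk
      have h5 : ‖ρ‖ = Real.sqrt ‖(α k : ℂ) - Φ (z k)‖ := by
        rw [← h3, norm_pow, Real.sqrt_sq (norm_nonneg _)]
      rw [← h5]
      have h6 : ‖w k - wc (z k)‖ ≤ ‖w k - wc (z k) - σ * ρ‖ + ‖σ * ρ‖ := by
        have := norm_add_le (w k - wc (z k) - σ * ρ) (σ * ρ)
        rwa [sub_add_cancel] at this
      rw [norm_mul] at h6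
      linarith
    have h7 := hdiff.add hcw
    rw [zero_add] at h7
    refine h7.congr fun k => ?_
    ring
  · filter_upwards [hev] with k hk
    obtain ⟨ρ, _, _, _, _, h5, _⟩ := hw k hk
    exact h5
  · filter_upwards [hev] with k hk
    obtain ⟨ρ, h1, h2, _, _, _, h6⟩ := hw k hk
    exact outer_cone_ineq (u ^ 2) c _ ρ r ε hε hr hr1 hr2 h1 h2 hεu h6
  · filter_upwards [hev] with k hk
    obtain ⟨ρ, h1, h2, _, _, _, h6⟩ := hw k hk
    exact outer_cone_ineq (v ^ 2) c _ ρ r ε hε hr hr3 hr4 h1 h2 hεv h6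

theorem outer (b : ι → ℂ) (ws : ℂ) (ts : ℝ) (σ u v : ℂ) (p : List ℂ) (ε₀ ε₁ : ℝ)
    (hG : Good b ws ts σ u v p ε₀ ε₁) (Φ : OpenPartialHomeomorph ℂ ℂ) (wc : ℂ → ℂ)
    (hC : Chart b ws Φ wc) : ∃ δ > 0, ∀ z ∈ Metric.ball (Zf b ws) δ, (Φ z).im < 0 →
      ∀ n m : ℕ, 1 ≤ n → m ≤ n * Fintype.card ι → Tn b n m z ≠ 0 := by
  by_contra hcon
  push Not at hcon
  have hch : ∀ k : ℕ, ∃ z : ℂ, z ∈ Metric.ball (Zf b ws) (1 / ((k : ℝ) + 1)) ∧ (Φ z).im < 0 ∧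
      ∃ n m : ℕ, 1 ≤ n ∧ m ≤ n * Fintype.card ι ∧ Tn b n m z = 0 := by
    intro k
    obtain ⟨z, h1, h2, n, m, h3, h4, h5⟩ := hcon (1 / ((k : ℝ) + 1)) (by positivity)
    exact ⟨z, h1, h2, n, m, h3, h4, h5⟩
  choose z hz1 hz2 n m hn1 hm1 hT using hch
  have hz : Tendsto z atTop (𝓝 (Zf b ws)) := by
    rw [tendsto_iff_dist_tendsto_zero]
    refine squeeze_zero (fun k => dist_nonneg) (fun k => ?_)
      tendsto_one_div_add_atTop_nhds_zero_nat
    exact (Metric.mem_ball.1 (hz1 k)).le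
  -- `n` tends to infinity
  have hn : Tendsto n atTop atTop := by
    by_contra hnot
    rw [tendsto_atTop] at hnot
    push Not at hnot
    obtain ⟨N, hN⟩ := hnot
    have hfin : (⋃ i ∈ Finset.range N, ⋃ j ∈ Finset.range (i * Fintype.card ι + 1),
        {z | Tn b i j z = 0}).Finite := by
      refine Set.Finite.biUnion (Finset.finite_toSet _) fun i _ => ?_
      refine Set.Finite.biUnion (Finset.finite_toSet _) fun j hj => ?_
      have hj' : j ∈ Finset.range (i * Fintype.card ι + 1) := hj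
      rw [Finset.mem_range] at hj'
      exact Tn_zeros_finite b i j (by omega)
    have hcl : IsClosed ((⋃ i ∈ Finset.range N, ⋃ j ∈ Finset.range (i * Fintype.card ι + 1),
        {z | Tn b i j z = 0}) \ {Zf b ws}) := (hfin.subset sdiff_subset).isClosed
    have hev : ∀ᶠ k in atTop, z k ∈ ((⋃ i ∈ Finset.range N,
        ⋃ j ∈ Finset.range (i * Fintype.card ι + 1), {z | Tn b i j z = 0}) \ {Zf b ws})ᶜ := by
      refine hz.eventually (hcl.isOpen_compl.mem_nhds ?_)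
      intro h
      exact h.2 rfl
    obtain ⟨k, hk1, hk2⟩ := (hN.and_eventually hev).exists
    have hk3 : z k ≠ Zf b ws := by
      intro h
      have h1 := hz2 k
      rw [h, hC.val _ hC.mem, hC.wc0, hG.hts, Complex.ofReal_im] at h1
      exact lt_irrefl _ h1
    refine hk2 ⟨?_, hk3⟩
    simp only [mem_iUnion]
    refine ⟨n k, Finset.mem_range.2 ?_, m k, Finset.mem_range.2 ?_, hT k⟩
    · exact hk1
    · have := hm1 k
      omega
  -- a subsequence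
  have hbd : ∀ k, ((m k : ℝ) + 1) / n k ∈ Icc (0 : ℝ) ((Fintype.card ι : ℝ) + 1) := by
    intro k
    have hnk : (1 : ℝ) ≤ n k := by exact_mod_cast hn1 k
    have hmk : (m k : ℝ) ≤ n k * Fintype.card ι := by exact_mod_cast hm1 k
    refine ⟨by positivity, ?_⟩
    rw [div_le_iff₀ (by linarith)]
    nlinarith
  obtain ⟨α₀, _, φ, hφ, hlim⟩ := isCompact_Icc.tendsto_subseq hbd
  have hnφ : Tendsto (fun k => n (φ k)) atTop atTop := hn.comp hφ.tendsto_atTop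
  have hzφ : Tendsto (fun k => z (φ k)) atTop (𝓝 (Zf b ws)) := hz.comp hφ.tendsto_atTop
  have hαφ : Tendsto (fun k => ((m (φ k) : ℝ) + 1) / n (φ k)) atTop (𝓝 α₀) := hlim
  have hcontra : ¬ ∀ᶠ k in atTop, Tn b (n (φ k)) (m (φ k)) (z (φ k)) ≠ 0 := by
    intro h
    obtain ⟨k, hk⟩ := h.exists
    exact hk (hT (φ k))
  rcases lt_or_ge α₀ ε₀ with hlow | hlow
  · -- small α
    refine hcontra ?_
    filter_upwards [hzφ.eventually hG.low, hαφ.eventually_lt_const hlow] with k h1 h2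
    refine h1 _ _ ?_
    have hnk : (1 : ℝ) ≤ n (φ k) := by exact_mod_cast hn1 (φ k)
    rw [div_lt_iff₀ (by linarith)] at h2
    linarith
  rcases lt_or_ge ((Fintype.card ι : ℝ) - ε₁) α₀ with hhigh | hhigh
  · -- large α
    refine hcontra ?_
    have h0 : Tendsto (fun k => ((m (φ k) : ℝ) + 1) / n (φ k) - 1 / (n (φ k) : ℝ)) atTop
        (𝓝 α₀) := by
      have h1 : Tendsto (fun k => 1 / (n (φ k) : ℝ)) atTop (𝓝 0) :=
        tendsto_one_div_atTop_nhds_zero_nat.comp hnφ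
      have h2 := hαφ.sub h1
      rwa [sub_zero] at h2
    filter_upwards [hzφ.eventually hG.high, h0.eventually_const_lt hhigh] with k h1 h2
    refine h1 _ _ (hm1 (φ k)) ?_
    have hnk : (1 : ℝ) ≤ n (φ k) := by exact_mod_cast hn1 (φ k)
    rw [← sub_div, add_sub_cancel_right, lt_div_iff₀ (by linarith)] at h2
    exact h2.le
  by_cases hts : α₀ = ts
  · -- the double saddle point
    rw [hts] at hαφ
    obtain ⟨w, c₀, hc₀, hw, hcrit, hu, hv⟩ := outer_cone b ws ts σ u v p ε₀ ε₁ hG Φ wc hC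
      (fun k => z (φ k)) (fun k => ((m (φ k) : ℝ) + 1) / n (φ k)) hzφ hαφ
      (Eventually.of_forall fun k => (hz2 (φ k)).le)
    exact hcontra (airy_seq b (Zf b ws) ws u v ts p hG.domA (fun k => z (φ k)) w
      (fun k => n (φ k)) (fun k => m (φ k)) hnφ hzφ hαφ hw hcrit c₀ hc₀ hu hv)
  · obtain ⟨w₀, u', v', p', hD⟩ := hG.dom α₀ ⟨hlow, hhigh⟩ hts
    exact hcontra (gauss_seq b (Zf b ws) w₀ u' v' α₀ p' hD (fun k => z (φ k))
      (fun k => n (φ k)) (fun k => m (φ k)) hnφ hzφ hαφ).1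

end Pool.Agent.SHD
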