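import Mathlib
import Pool.Agent.SHD.Outer
import Pool.Agent.SHD.Inner
import Pool.Agent.SHD.Ends
import Pool.Agent.SHD.Geo

set_option autoImplicit false

/-!
The analytic part: the assembly.
-/

namespace Pool.Agent.SHD

open Polynomial Set Filter Topology

variable {ι : Type} [Fintype ι]

theorem good_inflection (b : ι → ℂ) (ws : ℂ) (ts : ℝ) (σ u v : ℂ) (p : List ℂ) (ε₀ ε₁ : ℝ)
    (hG : Good b ws ts σ u v p ε₀ ε₁) (s : ℝ) (hs : s ≠ 0)
    (hsign : ∃ δ > 0, ∀ w ∈ Metric.ball ws δ, ∀ t : ℝ, tf b w = t →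
      (t < ts → s * (Kf b w / (hh b w) ^ 4).im < 0) ∧
      (ts < t → 0 < s * (Kf b w / (hh b w) ^ 4).im)) :
    IsInflectionPoint (frontier (shadow (PP b))) (Zf b ws) := by
  obtain ⟨Φ, wc, hC⟩ := exists_chart b ws hG.nb hG.n0 hG.n1 hG.nK
  obtain ⟨δ₁, hδ₁, hout⟩ := outer b ws ts σ u v p ε₀ ε₁ hG Φ wc hC
  obtain ⟨δ₂, hδ₂, hin⟩ := inner b ws ts σ u v p ε₀ ε₁ hG Φ wc hC
  refine geo b ws Φ wc hC ts hG.hts hG.tpos (shadow (PP b)) isClosed_closure ?_ ?_ s hs hsign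
  · filter_upwards [Metric.ball_mem_nhds _ hδ₂] with z hz h
    exact hin z hz h
  · filter_upwards [Metric.ball_mem_nhds _ hδ₁, Φ.open_source.mem_nhds hC.mem] with z hz hzs h hmem
    have hcont : ContinuousAt Φ z := Φ.continuousAt hzs
    have h1 : ∀ᶠ z' in 𝓝 z, z' ∈ Metric.ball (Zf b ws) δ₁ := Metric.isOpen_ball.mem_nhds hz
    have h2 : ∀ᶠ z' in 𝓝 z, (Φ z').im < 0 :=
      (Complex.continuous_im.continuousAt.comp hcont).eventually (gt_mem_nhds h)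
    rw [shadow, mem_closure_iff_frequently] at hmem
    obtain ⟨z', h3, h4, h5⟩ := (hmem.and_eventually (h1.and h2)).exists
    rw [mem_zeroSet] at h3
    obtain ⟨n, m, hn, hm, h0⟩ := h3
    exact hout z' h4 h5 n m hn hm h0

end Pool.Agent.SHD
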