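/-!
Fixed point complex arithmetic on natural numbers, for evaluation in the kernel. Everything is
written with the kernel accelerated functions on `Nat` and with recursors.
-/

set_option autoImplicit false

noncomputable section

namespace Pool.Agent.SHD

/-- `((xp - xq) + i (yp - yq)) / 2 ^ 80` -/
structure CP where
  xp : Nat
  xq : Nat
  yp : Nat
  yq : Nat

def CP.add (a b : CP) : CP :=
  CP.rec (fun x x' y y' => CP.rec (fun p p' q q' =>
    ⟨Nat.add x p, Nat.add x' p', Nat.add y q, Nat.add y' q'⟩) b) a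

def CP.sub (a b : CP) : CP :=
  CP.rec (fun x x' y y' => CP.rec (fun p p' q q' =>
    ⟨Nat.add x p', Nat.add x' p, Nat.add y q', Nat.add y' q⟩) b) a

def CP.smul (k : Nat) (a : CP) : CP :=
  CP.rec (fun x x' y y' => ⟨Nat.mul k x, Nat.mul k x', Nat.mul k y, Nat.mul k y'⟩) a

/-- multiplication with `A / 2 ^ 30` -/
def CP.amul (A : Nat) (a : CP) : CP :=
  CP.rec (fun x x' y y' => ⟨Nat.shiftRight (Nat.mul A x) 30, Nat.shiftRight (Nat.mul A x') 30,
    Nat.shiftRight (Nat.mul A y) 30, Nat.shiftRight (Nat.mul A y') 30⟩) a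

def CP.mul (a b : CP) : CP :=
  CP.rec (fun x x' y y' => CP.rec (fun p p' q q' =>
    ⟨Nat.shiftRight (Nat.add (Nat.add (Nat.mul x p) (Nat.mul x' p'))
        (Nat.add (Nat.mul y q') (Nat.mul y' q))) 80,
     Nat.shiftRight (Nat.add (Nat.add (Nat.mul x p') (Nat.mul x' p))
        (Nat.add (Nat.mul y q) (Nat.mul y' q'))) 80,
     Nat.shiftRight (Nat.add (Nat.add (Nat.mul x q) (Nat.mul x' q'))
        (Nat.add (Nat.mul y p) (Nat.mul y' p'))) 80,
     Nat.shiftRight (Nat.add (Nat.add (Nat.mul x q') (Nat.mul x' q))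
        (Nat.add (Nat.mul y p') (Nat.mul y' p))) 80⟩) b) a

def nmax (a b : Nat) : Nat := Nat.add a (Nat.sub b a)

/-- a lower estimate of `sqrt (M ^ 2 + m ^ 2)`, at least `M` -/
def gest2 (M m : Nat) : Nat :=
  nmax M (nmax (Nat.div (Nat.add (Nat.mul 12 M) (Nat.mul 5 m)) 13)
    (Nat.div (Nat.add (Nat.mul 21 M) (Nat.mul 20 m)) 29))

def gest1 (X Y M : Nat) : Nat := gest2 M (Nat.sub (Nat.add X Y) M)

/-- a lower estimate of `sqrt (X ^ 2 + Y ^ 2)` -/
def gest (X Y : Nat) : Nat := gest1 X Y (nmax X Y)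

/-- one Newton step, rounded up: `sqrt N ≤ mup1 N g` for `0 < g` -/
def mup1 (N g : Nat) : Nat := Nat.succ (Nat.shiftRight (Nat.add (Nat.div N g) g) 1)

/-- upper bound of `sqrt (X ^ 2 + Y ^ 2)` -/
def mup (X Y : Nat) : Nat := mup1 (Nat.add (Nat.mul X X) (Nat.mul Y Y)) (gest X Y)

/-- the distance of two natural numbers -/
def adist (x y : Nat) : Nat := Nat.add (Nat.sub x y) (Nat.sub y x)

/-- upper bound of the modulus, unit `2 ^ (-80)` -/
def CP.nup (a : CP) : Nat := CP.rec (fun x x' y y' => mup (adist x x') (adist y y')) a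

/-- the inverse of `(xp - xq) + i (yp - yq)`, `N = |.| ^ 2`, multiplied by `2 ^ s` -/
def inv (s xp xq yp yq N : Nat) : CP :=
  ⟨Nat.div (Nat.shiftLeft xp s) N, Nat.div (Nat.shiftLeft xq s) N,
    Nat.div (Nat.shiftLeft yq s) N, Nat.div (Nat.shiftLeft yp s) N⟩

/-- `⌊a / 2 ^ k⌋ + 1` -/
def rsh (a k : Nat) : Nat := Nat.succ (Nat.shiftRight a k)

/-- `⌊w 2 ^ s / ρ ^ p⌋ + 1` -/
def mterm (w ρ p s : Nat) : Nat := Nat.succ (Nat.div (Nat.shiftLeft w s) (Nat.pow ρ p))

/-- the series of the inverse hyperbolic tangent: `k` terms -/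
def ath (k : Nat) : Nat → Nat → Nat → Nat → Nat :=
  Nat.rec (fun _ _ _ acc => acc)
    (fun _ ih t y2 d acc => ih (Nat.shiftRight (Nat.mul t y2) 80) y2 (Nat.add d 2)
      (Nat.add acc (Nat.div t d))) k

def lg3 (t y y2 : Nat) : Nat :=
  Nat.add (Nat.mul (Nat.add t 120) 837963523372001241319907) (Nat.mul 2 (ath 12 y y2 1 0))

def lg2 (t y : Nat) : Nat := lg3 t y (Nat.shiftRight (Nat.mul y y) 80)

def lg1 (n t : Nat) : Nat :=
  cond (and (Nat.beq (Nat.shiftRight n 120) 1) (Nat.ble t 1048576))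
    (lg2 t (Nat.div (Nat.shiftLeft (Nat.sub n 1329227995784915872903807060280344576) 80)
      (Nat.add n 1329227995784915872903807060280344576))) 0

/-- lower approximation of `log N`, unit `2 ^ (-80)`, if `2 ^ 120 ≤ N / 2 ^ t < 2 ^ 121`; else `0` -/
def lg (N t : Nat) : Nat := lg1 (Nat.shiftRight N t) t

end Pool.Agent.SHD
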