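import Mathlib
import Pool.Agent.SHD.NBase

set_option autoImplicit false

/-!
Soundness of the fixed point arithmetic (module NUMA).
-/

noncomputable section

namespace Pool.Agent.SHD

/-- the complex number represented by `a` -/
def CP.val (a : CP) : ℂ := ⟨((a.xp : ℝ) - a.xq) / 2 ^ 80, ((a.yp : ℝ) - a.yq) / 2 ^ 80⟩

namespace NAaux

lemma fl (N d : ℕ) (hd : 0 < d) : ((N / d : ℕ) : ℝ) ≤ (N : ℝ) / d ∧ (N : ℝ) / d < ((N / d : ℕ) : ℝ) + 1 := by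
  refine ⟨Nat.cast_div_le, ?_⟩
  have hd' : (0 : ℝ) < d := by exact_mod_cast hd
  rw [div_lt_iff₀ hd']
  have h := Nat.lt_div_mul_add (a := N) hd
  have h2 : ((N / d * d + d : ℕ) : ℝ) = (((N / d : ℕ) : ℝ) + 1) * d := by push_cast; ring
  rw [← h2]
  exact_mod_cast h

lemma fls (N k : ℕ) : ((Nat.shiftRight N k : ℕ) : ℝ) ≤ (N : ℝ) / 2 ^ k ∧
    (N : ℝ) / 2 ^ k < ((Nat.shiftRight N k : ℕ) : ℝ) + 1 := by
  have h : Nat.shiftRight N k = N / 2 ^ k := Nat.shiftRight_eq_div_pow N k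
  rw [h]
  have := fl N (2 ^ k) (by positivity)
  push_cast at this
  exact this

lemma norm_le_of {z : ℂ} {e : ℝ} (h1 : |z.re| ≤ e) (h2 : |z.im| ≤ e) : ‖z‖ ≤ 2 * e := by
  have := Complex.norm_le_abs_re_add_abs_im z
  linarith

lemma mul_def (a b : CP) : CP.mul a b =
    ⟨Nat.shiftRight ((a.xp * b.xp + a.xq * b.xq) + (a.yp * b.yq + a.yq * b.yp)) 80,
     Nat.shiftRight ((a.xp * b.xq + a.xq * b.xp) + (a.yp * b.yp + a.yq * b.yq)) 80,
     Nat.shiftRight ((a.xp * b.yp + a.xq * b.yq) + (a.yp * b.xp + a.yq * b.xq)) 80,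
     Nat.shiftRight ((a.xp * b.yq + a.xq * b.yp) + (a.yp * b.xq + a.yq * b.xp)) 80⟩ := rfl

lemma two_floors {P Q k : ℕ} {z : ℝ} (hz : z = ((P : ℝ) - Q) / 2 ^ k) :
    |((Nat.shiftRight P k : ℕ) : ℝ) - ((Nat.shiftRight Q k : ℕ) : ℝ) - z| ≤ 1 := by
  obtain ⟨a1, a2⟩ := fls P k
  obtain ⟨b1, b2⟩ := fls Q k
  have e : ((P : ℝ) - Q) / 2 ^ k = (P : ℝ) / 2 ^ k - (Q : ℝ) / 2 ^ k := by ring
  rw [hz, e, abs_le]
  constructor <;> linarith

end NAaux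

open NAaux

theorem CP.val_add (a b : CP) : (CP.add a b).val = a.val + b.val := by
  have h : CP.add a b = ⟨a.xp + b.xp, a.xq + b.xq, a.yp + b.yp, a.yq + b.yq⟩ := rfl
  rw [h]
  apply Complex.ext
  · simp only [CP.val, Complex.add_re]
    push_cast
    ring
  · simp only [CP.val, Complex.add_im]
    push_cast
    ring

theorem CP.val_sub (a b : CP) : (CP.sub a b).val = a.val - b.val := by
  have h : CP.sub a b = ⟨a.xp + b.xq, a.xq + b.xp, a.yp + b.yq, a.yq + b.yp⟩ := rfl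
  rw [h]
  apply Complex.ext
  · simp only [CP.val, Complex.sub_re]
    push_cast
    ring
  · simp only [CP.val, Complex.sub_im]
    push_cast
    ring

theorem CP.val_smul (k : ℕ) (a : CP) : (CP.smul k a).val = k * a.val := by
  have h : CP.smul k a = ⟨k * a.xp, k * a.xq, k * a.yp, k * a.yq⟩ := rfl
  rw [h]
  apply Complex.ext
  · simp only [CP.val, Complex.mul_re, Complex.natCast_re, Complex.natCast_im]
    push_cast
    ring
  · simp only [CP.val, Complex.mul_im, Complex.natCast_re, Complex.natCast_im]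
    push_cast
    ring

theorem CP.val_amul (A : ℕ) (a : CP) :
    ‖(CP.amul A a).val - ((A : ℝ) / 2 ^ 30 : ℝ) * a.val‖ ≤ 2 / 2 ^ 80 := by
  have h : CP.amul A a = ⟨Nat.shiftRight (A * a.xp) 30, Nat.shiftRight (A * a.xq) 30,
    Nat.shiftRight (A * a.yp) 30, Nat.shiftRight (A * a.yq) 30⟩ := rfl
  have h1 := two_floors (P := A * a.xp) (Q := A * a.xq) (k := 30)
    (z := (A : ℝ) / 2 ^ 30 * ((a.xp : ℝ) - a.xq)) (by push_cast; ring)
  have h2 := two_floors (P := A * a.yp) (Q := A * a.yq) (k := 30)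
    (z := (A : ℝ) / 2 ^ 30 * ((a.yp : ℝ) - a.yq)) (by push_cast; ring)
  have key : ‖(CP.amul A a).val - ((A : ℝ) / 2 ^ 30 : ℝ) * a.val‖ ≤ 2 * (1 / 2 ^ 80) := by
    apply norm_le_of
    · rw [h]
      simp only [CP.val, Complex.sub_re, Complex.mul_re, Complex.ofReal_re, Complex.ofReal_im, zero_mul, sub_zero]
      rw [show (((Nat.shiftRight (A * a.xp) 30 : ℕ) : ℝ) - (Nat.shiftRight (A * a.xq) 30 : ℕ)) / 2 ^ 80 -
        (A : ℝ) / 2 ^ 30 * (((a.xp : ℝ) - a.xq) / 2 ^ 80) =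
        (((Nat.shiftRight (A * a.xp) 30 : ℕ) : ℝ) - (Nat.shiftRight (A * a.xq) 30 : ℕ) -
        (A : ℝ) / 2 ^ 30 * ((a.xp : ℝ) - a.xq)) / 2 ^ 80 by ring, abs_div,
        abs_of_pos (by positivity : (0 : ℝ) < 2 ^ 80)]
      exact div_le_div_of_nonneg_right h1 (by positivity)
    · rw [h]
      simp only [CP.val, Complex.sub_im, Complex.mul_im, Complex.ofReal_re, Complex.ofReal_im, zero_mul, add_zero]
      rw [show (((Nat.shiftRight (A * a.yp) 30 : ℕ) : ℝ) - (Nat.shiftRight (A * a.yq) 30 : ℕ)) / 2 ^ 80 -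
        (A : ℝ) / 2 ^ 30 * (((a.yp : ℝ) - a.yq) / 2 ^ 80) =
        (((Nat.shiftRight (A * a.yp) 30 : ℕ) : ℝ) - (Nat.shiftRight (A * a.yq) 30 : ℕ) -
        (A : ℝ) / 2 ^ 30 * ((a.yp : ℝ) - a.yq)) / 2 ^ 80 by ring, abs_div,
        abs_of_pos (by positivity : (0 : ℝ) < 2 ^ 80)]
      exact div_le_div_of_nonneg_right h2 (by positivity)
  linarith

theorem CP.val_mul (a b : CP) : ‖(CP.mul a b).val - a.val * b.val‖ ≤ 2 / 2 ^ 80 := by
  obtain ⟨x, x', y, y'⟩ := a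
  obtain ⟨p, p', q, q'⟩ := b
  have h1 := two_floors (P := (x * p + x' * p') + (y * q' + y' * q)) (Q := (x * p' + x' * p) + (y * q + y' * q'))
    (k := 80) (z := (((x : ℝ) - x') * (p - p') - ((y : ℝ) - y') * (q - q')) / 2 ^ 80) (by push_cast; ring)
  have h2 := two_floors (P := (x * q + x' * q') + (y * p + y' * p')) (Q := (x * q' + x' * q) + (y * p' + y' * p))
    (k := 80) (z := (((x : ℝ) - x') * (q - q') + ((y : ℝ) - y') * (p - p')) / 2 ^ 80) (by push_cast; ring)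
  have key : ‖(CP.mul ⟨x, x', y, y'⟩ ⟨p, p', q, q'⟩).val - (CP.mk x x' y y').val * (CP.mk p p' q q').val‖ ≤
      2 * (1 / 2 ^ 80) := by
    rw [mul_def]
    apply norm_le_of
    · simp only [CP.val, Complex.sub_re, Complex.mul_re]
      rw [show ∀ A B : ℝ, (A - B) / 2 ^ 80 - (((x : ℝ) - x') / 2 ^ 80 * (((p : ℝ) - p') / 2 ^ 80) -
        ((y : ℝ) - y') / 2 ^ 80 * (((q : ℝ) - q') / 2 ^ 80)) =
        (A - B - (((x : ℝ) - x') * (p - p') - ((y : ℝ) - y') * (q - q')) / 2 ^ 80) / 2 ^ 80 by intro A B; ring,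
        abs_div, abs_of_pos (by positivity : (0 : ℝ) < 2 ^ 80)]
      exact div_le_div_of_nonneg_right h1 (by positivity)
    · simp only [CP.val, Complex.sub_im, Complex.mul_im]
      rw [show ∀ A B : ℝ, (A - B) / 2 ^ 80 - (((x : ℝ) - x') / 2 ^ 80 * (((q : ℝ) - q') / 2 ^ 80) +
        ((y : ℝ) - y') / 2 ^ 80 * (((p : ℝ) - p') / 2 ^ 80)) =
        (A - B - (((x : ℝ) - x') * (q - q') + ((y : ℝ) - y') * (p - p')) / 2 ^ 80) / 2 ^ 80 by intro A B; ring,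
        abs_div, abs_of_pos (by positivity : (0 : ℝ) < 2 ^ 80)]
      exact div_le_div_of_nonneg_right h2 (by positivity)
  linarith

/-- the real part of a product, without rounding problems -/
theorem CP.val_mul_re (a b : CP) :
    (a.val * b.val).re ≤ (((CP.mul a b).xp : ℝ) - (CP.mul a b).xq + 1) / 2 ^ 80 := by
  obtain ⟨x, x', y, y'⟩ := a
  obtain ⟨p, p', q, q'⟩ := b
  have h1 := two_floors (P := (x * p + x' * p') + (y * q' + y' * q)) (Q := (x * p' + x' * p) + (y * q + y' * q'))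
    (k := 80) (z := (((x : ℝ) - x') * (p - p') - ((y : ℝ) - y') * (q - q')) / 2 ^ 80) (by push_cast; ring)
  rw [abs_le] at h1
  rw [mul_def]
  simp only [CP.val, Complex.mul_re]
  rw [show ((x : ℝ) - x') / 2 ^ 80 * (((p : ℝ) - p') / 2 ^ 80) - ((y : ℝ) - y') / 2 ^ 80 * (((q : ℝ) - q') / 2 ^ 80) =
    ((((x : ℝ) - x') * (p - p') - ((y : ℝ) - y') * (q - q')) / 2 ^ 80) / 2 ^ 80 by ring]
  apply div_le_div_of_nonneg_right _ (by positivity)
  linarith [h1.1]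

namespace NAaux

lemma nmax_eq (a b : ℕ) : nmax a b = max a b := by
  show a + (b - a) = max a b
  omega

lemma le_sqrt_of {a X Y : ℝ} (h : a ^ 2 ≤ X ^ 2 + Y ^ 2) : a ≤ Real.sqrt (X ^ 2 + Y ^ 2) := Real.le_sqrt_of_sq_le h

lemma gest2_le (M m : ℕ) : (gest2 M m : ℝ) ≤ Real.sqrt ((M : ℝ) ^ 2 + (m : ℝ) ^ 2) := by
  have hM : (0 : ℝ) ≤ M := Nat.cast_nonneg M
  have hm : (0 : ℝ) ≤ m := Nat.cast_nonneg m
  have h : gest2 M m = nmax M (nmax ((12 * M + 5 * m) / 13) ((21 * M + 20 * m) / 29)) := rfl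
  rw [h, nmax_eq, nmax_eq]
  push_cast
  refine max_le ?_ (max_le ?_ ?_)
  · apply le_sqrt_of
    nlinarith
  · have h1 := (fl (12 * M + 5 * m) 13 (by norm_num)).1
    refine h1.trans ?_
    apply le_sqrt_of
    push_cast
    nlinarith [sq_nonneg (5 * (M : ℝ) - 12 * m)]
  · have h1 := (fl (21 * M + 20 * m) 29 (by norm_num)).1
    refine h1.trans ?_
    apply le_sqrt_of
    push_cast
    nlinarith [sq_nonneg (20 * (M : ℝ) - 21 * m)]

lemma gest_def (X Y : ℕ) : gest X Y = gest2 (max X Y) (min X Y) := by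
  have h : gest X Y = gest2 (nmax X Y) (X + Y - nmax X Y) := rfl
  rw [h, nmax_eq]
  congr 1
  omega

lemma max_min_sq (X Y : ℕ) : ((max X Y : ℕ) : ℝ) ^ 2 + ((min X Y : ℕ) : ℝ) ^ 2 = (X : ℝ) ^ 2 + (Y : ℝ) ^ 2 := by
  rcases le_total X Y with h | h
  · rw [max_eq_right h, min_eq_left h]
    ring
  · rw [max_eq_left h, min_eq_right h]

end NAaux

theorem gest_le (X Y : ℕ) : (gest X Y : ℝ) ≤ Real.sqrt ((X : ℝ) ^ 2 + (Y : ℝ) ^ 2) := by
  rw [gest_def, ← max_min_sq]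
  exact gest2_le _ _

theorem gest_pos (X Y : ℕ) (h : 0 < X * X + Y * Y) : 0 < gest X Y := by
  rw [gest_def]
  have h1 : ∀ M m : ℕ, M ≤ gest2 M m := by
    intro M m
    have h : gest2 M m = nmax M (nmax ((12 * M + 5 * m) / 13) ((21 * M + 20 * m) / 29)) := rfl
    rw [h, nmax_eq]
    exact le_max_left _ _
  refine lt_of_lt_of_le ?_ (h1 _ _)
  rcases Nat.eq_zero_or_pos (max X Y) with h2 | h2
  · have hX : X = 0 := by omega
    have hY : Y = 0 := by omega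
    subst hX hY
    omega
  · exact h2

namespace NAaux

lemma mup1_ge (N g : ℕ) (hg : 0 < g) : Real.sqrt N ≤ mup1 N g := by
  have h : mup1 N g = Nat.shiftRight (N / g + g) 1 + 1 := rfl
  rw [h]
  have hg' : (0 : ℝ) < g := by exact_mod_cast hg
  have hN : (0 : ℝ) ≤ N := Nat.cast_nonneg N
  obtain ⟨n, hn⟩ : ∃ n : ℕ, n = Nat.shiftRight (N / g + g) 1 := ⟨_, rfl⟩
  rw [← hn]
  have h1 : N / g + g ≤ 2 * n + 1 := by
    have e : Nat.shiftRight (N / g + g) 1 = (N / g + g) / 2 ^ 1 := Nat.shiftRight_eq_div_pow _ _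
    rw [hn, e]
    omega
  have h2 : N + 1 ≤ (N / g + 1) * g := by
    have := Nat.lt_div_mul_add (a := N) hg
    nlinarith
  -- real form
  have h3 : ((N / g : ℕ) : ℝ) + g ≤ 2 * n + 1 := by exact_mod_cast h1
  have h4 : (N : ℝ) + 1 ≤ (((N / g : ℕ) : ℝ) + 1) * g := by exact_mod_cast h2
  push_cast
  apply Real.sqrt_le_left _ |>.2
  · obtain ⟨q, hq⟩ : ∃ q : ℝ, q = ((N / g : ℕ) : ℝ) := ⟨_, rfl⟩
    rw [← hq] at h3 h4
    have hq0 : 0 ≤ q := by rw [hq]; positivity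
    have h5 : q + 1 + g ≤ 2 * ((n : ℝ) + 1) := by linarith
    have h6 : (q + 1 + g) ^ 2 ≤ (2 * ((n : ℝ) + 1)) ^ 2 := by
      apply pow_le_pow_left₀ (by linarith) h5
    nlinarith [sq_nonneg (q + 1 - g)]
  · positivity

end NAaux

theorem mup_ge (X Y : ℕ) : Real.sqrt ((X : ℝ) ^ 2 + (Y : ℝ) ^ 2) ≤ mup X Y := by
  have h : mup X Y = mup1 (X * X + Y * Y) (gest X Y) := rfl
  have e : (X : ℝ) ^ 2 + (Y : ℝ) ^ 2 = ((X * X + Y * Y : ℕ) : ℝ) := by push_cast; ring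
  rcases Nat.eq_zero_or_pos (X * X + Y * Y) with h0 | h0
  · rw [e, h0]
    simp
  · rw [h, e]
    exact mup1_ge _ _ (gest_pos X Y h0)

/-- `⌊N / mup⌋` is a lower bound -/
theorem div_mup_le (X Y : ℕ) :
    (((X * X + Y * Y) / mup X Y : ℕ) : ℝ) ≤ Real.sqrt ((X : ℝ) ^ 2 + (Y : ℝ) ^ 2) := by
  have h1 := mup_ge X Y
  have e : (X : ℝ) ^ 2 + (Y : ℝ) ^ 2 = ((X * X + Y * Y : ℕ) : ℝ) := by push_cast; ring
  rcases Nat.eq_zero_or_pos (X * X + Y * Y) with h0 | h0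
  · rw [h0]
    simp
  · have hpos : (0 : ℝ) < ((X * X + Y * Y : ℕ) : ℝ) := by exact_mod_cast h0
    rw [e] at h1 ⊢
    have h2 : 0 < Real.sqrt ((X * X + Y * Y : ℕ) : ℝ) := Real.sqrt_pos.2 hpos
    refine Nat.cast_div_le.trans ?_
    rw [div_le_iff₀ (lt_of_lt_of_le h2 h1)]
    calc ((X * X + Y * Y : ℕ) : ℝ) = Real.sqrt ((X * X + Y * Y : ℕ) : ℝ) * Real.sqrt ((X * X + Y * Y : ℕ) : ℝ) :=
        (Real.mul_self_sqrt hpos.le).symm
      _ ≤ _ := mul_le_mul_of_nonneg_left h1 h2.le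

theorem adist_eq (x y : ℕ) : (adist x y : ℝ) = |(x : ℝ) - y| := by
  have h : adist x y = (x - y) + (y - x) := rfl
  rw [h]
  rcases le_total x y with h1 | h1
  · have e : x - y = 0 := Nat.sub_eq_zero_of_le h1
    have h2 : (x : ℝ) ≤ y := by exact_mod_cast h1
    rw [e, zero_add, Nat.cast_sub h1, abs_of_nonpos (by linarith)]
    ring
  · have e : y - x = 0 := Nat.sub_eq_zero_of_le h1
    have h2 : (y : ℝ) ≤ x := by exact_mod_cast h1
    rw [e, add_zero, Nat.cast_sub h1, abs_of_nonneg (by linarith)]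

theorem CP.nup_ge (a : CP) : ‖a.val‖ ≤ (CP.nup a : ℝ) / 2 ^ 80 := by
  have h : CP.nup a = mup (adist a.xp a.xq) (adist a.yp a.yq) := rfl
  have h1 := mup_ge (adist a.xp a.xq) (adist a.yp a.yq)
  rw [← h, adist_eq, adist_eq, sq_abs, sq_abs] at h1
  have h2 : ‖a.val‖ = Real.sqrt (((a.xp : ℝ) - a.xq) ^ 2 + ((a.yp : ℝ) - a.yq) ^ 2) / 2 ^ 80 := by
    rw [Complex.norm_eq_sqrt_sq_add_sq]
    simp only [CP.val]
    rw [show (((a.xp : ℝ) - a.xq) / 2 ^ 80) ^ 2 + (((a.yp : ℝ) - a.yq) / 2 ^ 80) ^ 2 =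
      (((a.xp : ℝ) - a.xq) ^ 2 + ((a.yp : ℝ) - a.yq) ^ 2) / (2 ^ 80) ^ 2 by ring,
      Real.sqrt_div (by positivity), Real.sqrt_sq (by positivity)]
  rw [h2]
  exact div_le_div_of_nonneg_right h1 (by positivity)

theorem rsh_gt (a k : ℕ) : (a : ℝ) / 2 ^ k < rsh a k := by
  have h : rsh a k = Nat.shiftRight a k + 1 := rfl
  rw [h]
  push_cast
  exact (fls a k).2

theorem mterm_gt (w ρ p s : ℕ) (hρ : 0 < ρ) : (w : ℝ) * 2 ^ s / (ρ : ℝ) ^ p < mterm w ρ p s := by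
  have h : mterm w ρ p s = Nat.shiftLeft w s / ρ ^ p + 1 := rfl
  have e : Nat.shiftLeft w s = w * 2 ^ s := Nat.shiftLeft_eq w s
  rw [h, e]
  have h1 := (fl (w * 2 ^ s) (ρ ^ p) (by positivity)).2
  push_cast at h1 ⊢
  exact h1

namespace NAaux

lemma two_divs {P Q N : ℕ} (hN : 0 < N) {z : ℝ} (hz : z = ((P : ℝ) - Q) / N) :
    |((P / N : ℕ) : ℝ) - ((Q / N : ℕ) : ℝ) - z| ≤ 1 := by
  obtain ⟨a1, a2⟩ := fl P N hN
  obtain ⟨b1, b2⟩ := fl Q N hN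
  have e : ((P : ℝ) - Q) / N = (P : ℝ) / N - (Q : ℝ) / N := by ring
  rw [hz, e, abs_le]
  constructor <;> linarith

end NAaux

/-- `xp, xq` and `yp, yq` are the positive and negative parts of `x`, `y` -/
theorem inv_val (s xp xq yp yq : ℕ) (hx : xp = 0 ∨ xq = 0) (hy : yp = 0 ∨ yq = 0)
    (hN : 0 < (xp + xq) * (xp + xq) + (yp + yq) * (yp + yq)) :
    ‖(inv s xp xq yp yq ((xp + xq) * (xp + xq) + (yp + yq) * (yp + yq))).val -
      ((2 : ℂ) ^ s / 2 ^ 80) * ((⟨(xp : ℝ) - xq, (yp : ℝ) - yq⟩ : ℂ))⁻¹‖ ≤ 2 / 2 ^ 80 := by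
  obtain ⟨N, hNd⟩ : ∃ N : ℕ, N = (xp + xq) * (xp + xq) + (yp + yq) * (yp + yq) := ⟨_, rfl⟩
  rw [← hNd] at hN ⊢
  have hdef : inv s xp xq yp yq N = ⟨xp * 2 ^ s / N, xq * 2 ^ s / N, yq * 2 ^ s / N, yp * 2 ^ s / N⟩ := by
    have h : inv s xp xq yp yq N = ⟨Nat.shiftLeft xp s / N, Nat.shiftLeft xq s / N,
      Nat.shiftLeft yq s / N, Nat.shiftLeft yp s / N⟩ := rfl
    have e : ∀ w : ℕ, Nat.shiftLeft w s = w * 2 ^ s := fun w => Nat.shiftLeft_eq w s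
    rw [h, e, e, e, e]
  have hsq : (N : ℝ) = ((xp : ℝ) - xq) ^ 2 + ((yp : ℝ) - yq) ^ 2 := by
    rw [hNd]
    push_cast
    rcases hx with hx | hx <;> rcases hy with hy | hy <;> subst hx hy <;> push_cast <;> ring
  have hN' : (0 : ℝ) < N := by exact_mod_cast hN
  have h2s : ((2 : ℂ) ^ s / 2 ^ 80) = (((2 : ℝ) ^ s / 2 ^ 80 : ℝ) : ℂ) := by push_cast; ring
  have h1 := two_divs (P := xp * 2 ^ s) (Q := xq * 2 ^ s) hN (z := (2 : ℝ) ^ s * (((xp : ℝ) - xq) / N))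
    (by push_cast; ring)
  have h2 := two_divs (P := yq * 2 ^ s) (Q := yp * 2 ^ s) hN (z := (2 : ℝ) ^ s * (-((yp : ℝ) - yq) / N))
    (by push_cast; ring)
  have hns : Complex.normSq (⟨(xp : ℝ) - xq, (yp : ℝ) - yq⟩ : ℂ) = N := by
    rw [Complex.normSq_mk, hsq]
    ring
  have key : ‖(inv s xp xq yp yq N).val -
      ((2 : ℂ) ^ s / 2 ^ 80) * ((⟨(xp : ℝ) - xq, (yp : ℝ) - yq⟩ : ℂ))⁻¹‖ ≤ 2 * (1 / 2 ^ 80) := by
    rw [hdef, h2s]
    apply norm_le_of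
    · rw [Complex.sub_re, Complex.re_ofReal_mul, Complex.inv_re, hns]
      simp only [CP.val]
      rw [show ∀ A B : ℝ, (A - B) / 2 ^ 80 - (2 : ℝ) ^ s / 2 ^ 80 * (((xp : ℝ) - xq) / N) =
        (A - B - (2 : ℝ) ^ s * (((xp : ℝ) - xq) / N)) / 2 ^ 80 by intro A B; ring,
        abs_div, abs_of_pos (by positivity : (0 : ℝ) < 2 ^ 80)]
      exact div_le_div_of_nonneg_right h1 (by positivity)
    · rw [Complex.sub_im, Complex.im_ofReal_mul, Complex.inv_im, hns]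
      simp only [CP.val]
      rw [show ∀ A B : ℝ, (A - B) / 2 ^ 80 - (2 : ℝ) ^ s / 2 ^ 80 * (-((yp : ℝ) - yq) / N) =
        (A - B - (2 : ℝ) ^ s * (-((yp : ℝ) - yq) / N)) / 2 ^ 80 by intro A B; ring,
        abs_div, abs_of_pos (by positivity : (0 : ℝ) < 2 ^ 80)]
      exact div_le_div_of_nonneg_right h2 (by positivity)
  linarith

end Pool.Agent.SHD
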