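import Mathlib
import Pool.Agent.SHD.NBase

set_option autoImplicit false

/-!
Soundness of the logarithm (module NUMB).
-/

noncomputable section

namespace Pool.Agent.SHD

open Finset in
private theorem NB_log2 :
    |(837963523372001241319907 : ℝ) / 2 ^ 80 - Real.log 2| ≤ 1 / 2 ^ 80 := by
  have h1 := Real.sum_range_le_log_div (x := 1 / 3) (by norm_num) (by norm_num) 28
  have h2 := Real.log_div_le_sum_range_add (x := 1 / 3) (by norm_num) (by norm_num) 28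
  have e : ((1 : ℝ) + 1 / 3) / (1 - 1 / 3) = 2 := by norm_num
  rw [e] at h1 h2
  norm_num [Finset.sum_range_succ] at h1 h2
  rw [abs_le]
  constructor <;> linarith

private theorem NB_shl (a k : ℕ) : Nat.shiftLeft a k = a * 2 ^ k := Nat.shiftLeft_eq a k

private theorem NB_div (a b m k : ℕ) :
    Nat.div (Nat.shiftLeft (Nat.sub a m) k) (Nat.add b m) = ((a - m) * 2 ^ k) / (b + m) := by
  rw [NB_shl]; rfl

/-- the running term of the series -/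
private def NB_t (y y2 : ℕ) : ℕ → ℕ
  | 0 => y
  | k + 1 => (NB_t y y2 k * y2) / 2 ^ 80

private theorem NB_ath_succ (k t y2 d acc : ℕ) :
    ath (k + 1) t y2 d acc = ath k ((t * y2) / 2 ^ 80) y2 (d + 2) (acc + t / d) := by
  have : ath (k + 1) t y2 d acc
      = ath k (Nat.shiftRight (Nat.mul t y2) 80) y2 (Nat.add d 2) (Nat.add acc (Nat.div t d)) := rfl
  rw [this]
  congr 1
  exact Nat.shiftRight_eq_div_pow _ _

private theorem NB_ath_gen (y y2 k j acc : ℕ) :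
    ath k (NB_t y y2 j) y2 (2 * j + 1) acc
      = acc + ∑ i ∈ Finset.range k, NB_t y y2 (j + i) / (2 * (j + i) + 1) := by
  induction k generalizing j acc with
  | zero => 
    have : ath 0 (NB_t y y2 j) y2 (2 * j + 1) acc = acc := rfl
    simp [this]
  | succ k ih =>
    rw [NB_ath_succ]
    have h1 : NB_t y y2 j * y2 / 2 ^ 80 = NB_t y y2 (j + 1) := rfl
    have h2 : 2 * j + 1 + 2 = 2 * (j + 1) + 1 := by ring
    rw [h1, h2, ih, Finset.sum_range_succ']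
    have h3 : ∀ i, j + 1 + i = j + (i + 1) := fun i => by ring
    simp only [h3, Nat.add_zero]
    ring

private theorem NB_ath (y y2 : ℕ) :
    ath 12 y y2 1 0 = ∑ i ∈ Finset.range 12, NB_t y y2 i / (2 * i + 1) := by
  have := NB_ath_gen y y2 12 0 0
  simpa [NB_t] using this

private theorem NB_floor (a b : ℕ) (hb : 0 < b) :
    ((a / b : ℕ) : ℝ) ≤ (a : ℝ) / b ∧ (a : ℝ) / b ≤ ((a / b : ℕ) : ℝ) + 1 := by
  have h : (0 : ℝ) < b := by exact_mod_cast hb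
  refine ⟨Nat.cast_div_le, ?_⟩
  rw [div_le_iff₀ h]
  have := Nat.lt_div_mul_add (a := a) hb
  have h2 : (a : ℝ) ≤ ((a / b : ℕ) : ℝ) * b + b := by exact_mod_cast this.le
  linarith

/-- errors of the powers -/
private theorem NB_pow (x : ℝ) (y y2 : ℕ) (hx0 : 0 ≤ x) (hx : x ≤ 1 / 3)
    (h1 : (y : ℝ) / 2 ^ 80 ≤ x) (h2 : x ≤ (y : ℝ) / 2 ^ 80 + 1 / 2 ^ 80)
    (hy2 : y2 = (y * y) / 2 ^ 80) (k : ℕ) :
    (NB_t y y2 k : ℝ) / 2 ^ 80 ≤ x ^ (2 * k + 1) ∧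
      x ^ (2 * k + 1) ≤ (NB_t y y2 k : ℝ) / 2 ^ 80 + 2 / 2 ^ 80 := by
  have hY0 : (0 : ℝ) ≤ (y : ℝ) / 2 ^ 80 := by positivity
  have hq := NB_floor (y * y) (2 ^ 80) (by positivity)
  have hc80 : ((2 ^ 80 : ℕ) : ℝ) = 2 ^ 80 := by norm_num
  rw [← hy2, Nat.cast_mul, hc80] at hq
  obtain ⟨q1, q2⟩ := hq
  have f1 : (y2 : ℝ) / 2 ^ 80 ≤ x ^ 2 := by
    have : (y2 : ℝ) / 2 ^ 80 ≤ ((y : ℝ) / 2 ^ 80) ^ 2 := by
      have e : ((y : ℝ) / 2 ^ 80) ^ 2 = ((y : ℝ) * y / 2 ^ 80) / 2 ^ 80 := by ring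
      rw [e]; gcongr
    nlinarith
  have f2 : x ^ 2 ≤ (y2 : ℝ) / 2 ^ 80 + (5 / 3) / 2 ^ 80 := by
    have e : ((y : ℝ) / 2 ^ 80) ^ 2 = ((y : ℝ) * y / 2 ^ 80) / 2 ^ 80 := by ring
    have a1 : ((y : ℝ) / 2 ^ 80) ^ 2 ≤ (y2 : ℝ) / 2 ^ 80 + 1 / 2 ^ 80 := by
      rw [e, ← add_div]; gcongr
    have a2 : x ^ 2 - ((y : ℝ) / 2 ^ 80) ^ 2 ≤ (2 / 3) / 2 ^ 80 := by
      have : x ^ 2 - ((y : ℝ) / 2 ^ 80) ^ 2 = (x + (y : ℝ) / 2 ^ 80) * (x - (y : ℝ) / 2 ^ 80) := by ring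
      rw [this]
      have b1 : x + (y : ℝ) / 2 ^ 80 ≤ 2 / 3 := by linarith
      have b2 : x - (y : ℝ) / 2 ^ 80 ≤ 1 / 2 ^ 80 := by linarith
      calc (x + (y : ℝ) / 2 ^ 80) * (x - (y : ℝ) / 2 ^ 80) ≤ (2 / 3) * (1 / 2 ^ 80) :=
            mul_le_mul b1 b2 (by linarith) (by norm_num)
        _ = (2 / 3) / 2 ^ 80 := by norm_num
    have e3 : ((5 : ℝ) / 3) / 2 ^ 80 = 1 / 2 ^ 80 + (2 / 3) / 2 ^ 80 := by norm_num
    linarith
  have hy20 : (0 : ℝ) ≤ (y2 : ℝ) / 2 ^ 80 := by positivity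
  have hx2 : x ^ 2 ≤ 1 / 9 := by nlinarith
  induction k with
  | zero =>
    simp only [NB_t, mul_zero, zero_add, pow_one]
    refine ⟨h1, ?_⟩
    have : (1 : ℝ) / 2 ^ 80 ≤ 2 / 2 ^ 80 := by norm_num
    linarith
  | succ k ih =>
    obtain ⟨i1, i2⟩ := ih
    have hf := NB_floor (NB_t y y2 k * y2) (2 ^ 80) (by positivity)
    have hd : NB_t y y2 k * y2 / 2 ^ 80 = NB_t y y2 (k + 1) := rfl
    rw [hd, Nat.cast_mul, hc80] at hf
    obtain ⟨f3, f4⟩ := hf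
    have hT0 : (0 : ℝ) ≤ (NB_t y y2 k : ℝ) / 2 ^ 80 := by positivity
    have hp0 : 0 ≤ x ^ (2 * k + 1) := by positivity
    have hp1 : x ^ (2 * k + 1) ≤ 1 / 3 := by
      calc x ^ (2 * k + 1) ≤ x ^ 1 := pow_le_pow_of_le_one hx0 (by linarith) (by omega)
        _ ≤ 1 / 3 := by simpa using hx
    have e : x ^ (2 * (k + 1) + 1) = x ^ (2 * k + 1) * x ^ 2 := by ring
    have e2 : ((NB_t y y2 k : ℝ) / 2 ^ 80) * ((y2 : ℝ) / 2 ^ 80)
        = ((NB_t y y2 k : ℝ) * y2 / 2 ^ 80) / 2 ^ 80 := by ring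
    rw [e]
    constructor
    · calc (NB_t y y2 (k + 1) : ℝ) / 2 ^ 80 ≤ ((NB_t y y2 k : ℝ) * y2 / 2 ^ 80) / 2 ^ 80 := by
            gcongr
        _ = ((NB_t y y2 k : ℝ) / 2 ^ 80) * ((y2 : ℝ) / 2 ^ 80) := e2.symm
        _ ≤ x ^ (2 * k + 1) * x ^ 2 := mul_le_mul i1 f1 hy20 hp0
    · have c1 : ((NB_t y y2 k : ℝ) / 2 ^ 80) * ((y2 : ℝ) / 2 ^ 80)
          ≤ (NB_t y y2 (k + 1) : ℝ) / 2 ^ 80 + 1 / 2 ^ 80 := by
        rw [e2, ← add_div]; gcongr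
      have c2 : x ^ (2 * k + 1) * (x ^ 2 - (y2 : ℝ) / 2 ^ 80) ≤ (1 / 3) * ((5 / 3) / 2 ^ 80) :=
        mul_le_mul hp1 (by linarith) (by linarith) (by norm_num)
      have c3 : (x ^ (2 * k + 1) - (NB_t y y2 k : ℝ) / 2 ^ 80) * ((y2 : ℝ) / 2 ^ 80)
          ≤ (2 / 2 ^ 80) * (1 / 9) :=
        mul_le_mul (by linarith) (by linarith) hy20 (by positivity)
      have c4 : x ^ (2 * k + 1) * x ^ 2
          = x ^ (2 * k + 1) * (x ^ 2 - (y2 : ℝ) / 2 ^ 80)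
            + (x ^ (2 * k + 1) - (NB_t y y2 k : ℝ) / 2 ^ 80) * ((y2 : ℝ) / 2 ^ 80)
            + ((NB_t y y2 k : ℝ) / 2 ^ 80) * ((y2 : ℝ) / 2 ^ 80) := by ring
      rw [c4]
      have c5 : (1 / 3) * (((5 : ℝ) / 3) / 2 ^ 80) + (2 / 2 ^ 80) * (1 / 9) + 1 / 2 ^ 80
          ≤ 2 / 2 ^ 80 := by norm_num
      linarith

/-- the sum of twelve terms -/
private theorem NB_sum (x : ℝ) (y y2 : ℕ) (hx0 : 0 ≤ x) (hx : x ≤ 1 / 3)
    (h1 : (y : ℝ) / 2 ^ 80 ≤ x) (h2 : x ≤ (y : ℝ) / 2 ^ 80 + 1 / 2 ^ 80)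
    (hy2 : y2 = (y * y) / 2 ^ 80) :
    (ath 12 y y2 1 0 : ℝ) / 2 ^ 80 ≤ ∑ i ∈ Finset.range 12, x ^ (2 * i + 1) / (2 * i + 1) ∧
      ∑ i ∈ Finset.range 12, x ^ (2 * i + 1) / (2 * i + 1)
        ≤ (ath 12 y y2 1 0 : ℝ) / 2 ^ 80 + 36 / 2 ^ 80 := by
  rw [NB_ath]
  push_cast
  rw [Finset.sum_div]
  constructor
  · refine Finset.sum_le_sum fun i _ => ?_
    have := (NB_pow x y y2 hx0 hx h1 h2 hy2 i).1
    have hf := (NB_floor (NB_t y y2 i) (2 * i + 1) (by omega)).1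
    push_cast at hf
    calc ((NB_t y y2 i / (2 * i + 1) : ℕ) : ℝ) / 2 ^ 80
        ≤ ((NB_t y y2 i : ℝ) / (2 * i + 1)) / 2 ^ 80 := by gcongr
      _ = ((NB_t y y2 i : ℝ) / 2 ^ 80) / (2 * i + 1) := by ring
      _ ≤ _ := by gcongr
  · have hs : ∑ i ∈ Finset.range 12, x ^ (2 * i + 1) / (2 * i + 1)
        ≤ ∑ i ∈ Finset.range 12, (((NB_t y y2 i / (2 * i + 1) : ℕ) : ℝ) / 2 ^ 80 + 3 / 2 ^ 80) := by
      refine Finset.sum_le_sum fun i _ => ?_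
      have := (NB_pow x y y2 hx0 hx h1 h2 hy2 i).2
      have hf := (NB_floor (NB_t y y2 i) (2 * i + 1) (by omega)).2
      push_cast at hf
      have hi : (0 : ℝ) < 2 * i + 1 := by positivity
      have hi1 : (1 : ℝ) ≤ 2 * i + 1 := by
        have : (0 : ℝ) ≤ i := by positivity
        linarith
      calc x ^ (2 * i + 1) / (2 * i + 1)
          ≤ ((NB_t y y2 i : ℝ) / 2 ^ 80 + 2 / 2 ^ 80) / (2 * i + 1) := by gcongr
        _ = ((NB_t y y2 i : ℝ) / (2 * i + 1)) / 2 ^ 80 + (2 / 2 ^ 80) / (2 * i + 1) := by ring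
        _ ≤ (((NB_t y y2 i / (2 * i + 1) : ℕ) : ℝ) + 1) / 2 ^ 80 + (2 / 2 ^ 80) := by
            apply add_le_add
            · gcongr
            · exact div_le_self (by positivity) hi1
        _ = _ := by ring
    rw [Finset.sum_add_distrib] at hs
    simp only [Finset.sum_const, Finset.card_range] at hs
    have : (12 : ℕ) • ((3 : ℝ) / 2 ^ 80) = 36 / 2 ^ 80 := by
      rw [nsmul_eq_mul]; norm_num
    rw [this] at hs
    exact hs

/-- `2 artanh x` against the partial sum -/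
private theorem NB_art (x : ℝ) (hx0 : 0 ≤ x) (hx : x ≤ 1 / 3) :
    2 * ∑ i ∈ Finset.range 12, x ^ (2 * i + 1) / (2 * i + 1) ≤ Real.log ((1 + x) / (1 - x)) ∧
      Real.log ((1 + x) / (1 - x))
        ≤ 2 * (∑ i ∈ Finset.range 12, x ^ (2 * i + 1) / (2 * i + 1)) + 1 / 2 ^ 42 := by
  have h1 := Real.sum_range_le_log_div hx0 (by linarith) 12
  have h2 := Real.log_div_le_sum_range_add hx0 (by linarith) 14
  refine ⟨by linarith, ?_⟩
  rw [Finset.sum_range_succ, Finset.sum_range_succ] at h2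
  have a1 : x ^ (2 * 12 + 1) / (2 * ((12 : ℕ) : ℝ) + 1) ≤ (1 / 3) ^ 25 / 25 := by
    have : x ^ (2 * 12 + 1) ≤ (1 / 3) ^ 25 := pow_le_pow_left₀ hx0 hx 25
    calc _ ≤ (1 / 3) ^ 25 / (2 * ((12 : ℕ) : ℝ) + 1) := by gcongr
      _ = _ := by norm_num
  have a2 : x ^ (2 * 13 + 1) / (2 * ((13 : ℕ) : ℝ) + 1) ≤ (1 / 3) ^ 27 / 27 := by
    have : x ^ (2 * 13 + 1) ≤ (1 / 3) ^ 27 := pow_le_pow_left₀ hx0 hx 27
    calc _ ≤ (1 / 3) ^ 27 / (2 * ((13 : ℕ) : ℝ) + 1) := by gcongr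
      _ = _ := by norm_num
  have a3 : x ^ (2 * 14 + 1) / (1 - x ^ 2) ≤ (1 / 3) ^ 29 / (8 / 9) := by
    have t1 : x ^ (2 * 14 + 1) ≤ (1 / 3) ^ 29 := pow_le_pow_left₀ hx0 hx 29
    have t2 : 8 / 9 ≤ 1 - x ^ 2 := by nlinarith
    exact div_le_div₀ (by positivity) t1 (by norm_num) t2
  have a4 : 2 * (((1 : ℝ) / 3) ^ 25 / 25 + (1 / 3) ^ 27 / 27 + (1 / 3) ^ 29 / (8 / 9)) ≤ 1 / 2 ^ 42 := by
    norm_num
  linarith

private theorem NB_lg1 (n t : ℕ) : lg1 n t =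
    cond (and (Nat.beq (Nat.shiftRight n 120) 1) (Nat.ble t 1048576))
    (lg2 t (Nat.div (Nat.shiftLeft (Nat.sub n 1329227995784915872903807060280344576) 80)
      (Nat.add n 1329227995784915872903807060280344576))) 0 := rfl

private theorem NB_lg2 (t y : ℕ) : lg2 t y =
    (t + 120) * 837963523372001241319907 + 2 * ath 12 y (Nat.shiftRight (y * y) 80) 1 0 := rfl

private theorem NB_shr (a k : ℕ) : Nat.shiftRight a k = a / 2 ^ k := Nat.shiftRight_eq_div_pow a k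

private theorem NB_P : (1329227995784915872903807060280344576 : ℕ) = 2 ^ 120 := by norm_num

private theorem NB_unf (n t : ℕ) (h : 1 ≤ lg1 n t) :
    t ≤ 1048576 ∧ 2 ^ 120 ≤ n ∧ n < 2 * 2 ^ 120 ∧
    lg1 n t = (t + 120) * 837963523372001241319907
      + 2 * ath 12 (((n - 2 ^ 120) * 2 ^ 80) / (n + 2 ^ 120))
        ((((n - 2 ^ 120) * 2 ^ 80) / (n + 2 ^ 120) * (((n - 2 ^ 120) * 2 ^ 80) / (n + 2 ^ 120)))
          / 2 ^ 80) 1 0 := by
  rw [NB_lg1] at h ⊢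
  rcases hb : (and (Nat.beq (Nat.shiftRight n 120) 1) (Nat.ble t 1048576)) with _ | _
  · rw [hb] at h
    exact absurd h (by simp)
  · rw [cond_true, NB_lg2, NB_P, NB_div, NB_shr]
    rw [Bool.and_eq_true] at hb
    obtain ⟨hc1, hc2⟩ := hb
    have ht : t ≤ 1048576 := Nat.le_of_ble_eq_true hc2
    have hn1 : n / 2 ^ 120 = 1 := by
      have := Nat.eq_of_beq_eq_true hc1
      rw [← this, NB_shr]
    have hlow : 2 ^ 120 ≤ n := by
      by_contra hh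
      rw [Nat.div_eq_of_lt (by omega)] at hn1
      omega
    have hup : n < 2 * 2 ^ 120 := by
      have := Nat.lt_div_mul_add (a := n) (b := 2 ^ 120) (by positivity)
      rw [hn1] at this
      omega
    exact ⟨ht, hlow, hup, rfl⟩

/-- the core estimate -/
private theorem NB_core (n y : ℕ) (hlow : 2 ^ 120 ≤ n) (hup : n < 2 * 2 ^ 120)
    (hy : y = ((n - 2 ^ 120) * 2 ^ 80) / (n + 2 ^ 120)) :
    2 * ((ath 12 y ((y * y) / 2 ^ 80) 1 0 : ℝ) / 2 ^ 80) ≤ Real.log n - 120 * Real.log 2 ∧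
    Real.log n - 120 * Real.log 2
      ≤ 2 * ((ath 12 y ((y * y) / 2 ^ 80) 1 0 : ℝ) / 2 ^ 80) + 72 / 2 ^ 80 + 1 / 2 ^ 42 := by
  have hnR : (2 : ℝ) ^ 120 ≤ n := by exact_mod_cast hlow
  have hnR2 : (n : ℝ) ≤ 2 * 2 ^ 120 := by exact_mod_cast hup.le
  have hn0 : (0 : ℝ) < n := lt_of_lt_of_le (by positivity) hnR
  obtain ⟨x, hxd⟩ : ∃ x : ℝ, x = ((n : ℝ) - 2 ^ 120) / (n + 2 ^ 120) := ⟨_, rfl⟩
  have hd0 : (0 : ℝ) < (n : ℝ) + 2 ^ 120 := by positivity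
  have hx0 : 0 ≤ x := by rw [hxd]; exact div_nonneg (by linarith) hd0.le
  have hx3 : x ≤ 1 / 3 := by
    rw [hxd, div_le_div_iff₀ hd0 (by norm_num)]
    linarith
  have hfl := NB_floor ((n - 2 ^ 120) * 2 ^ 80) (n + 2 ^ 120) (by positivity)
  rw [← hy] at hfl
  have hcast : (((n - 2 ^ 120) * 2 ^ 80 : ℕ) : ℝ) / ((n + 2 ^ 120 : ℕ) : ℝ) = x * 2 ^ 80 := by
    have c1 : ((2 ^ 120 : ℕ) : ℝ) = 2 ^ 120 := by norm_num
    have c2 : ((2 ^ 80 : ℕ) : ℝ) = 2 ^ 80 := by norm_num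
    rw [Nat.cast_mul, Nat.cast_sub hlow, Nat.cast_add, c1, c2, hxd]
    ring
  rw [hcast] at hfl
  have hy1 : (y : ℝ) / 2 ^ 80 ≤ x := by
    rw [div_le_iff₀ (by positivity)]; exact hfl.1
  have hy2 : x ≤ (y : ℝ) / 2 ^ 80 + 1 / 2 ^ 80 := by
    rw [← add_div, le_div_iff₀ (by positivity)]; exact hfl.2
  obtain ⟨s1, s2⟩ := NB_sum x y _ hx0 hx3 hy1 hy2 rfl
  obtain ⟨a1, a2⟩ := NB_art x hx0 hx3
  have hxx : (1 + x) / (1 - x) = n / 2 ^ 120 := by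
    have : (1 : ℝ) - x = 2 * 2 ^ 120 / (n + 2 ^ 120) := by
      rw [hxd]; field_simp; ring
    have h' : (1 : ℝ) + x = 2 * n / (n + 2 ^ 120) := by
      rw [hxd]; field_simp; ring
    rw [this, h']
    field_simp
  have hlogn : Real.log ((1 + x) / (1 - x)) = Real.log n - 120 * Real.log 2 := by
    rw [hxx, Real.log_div hn0.ne' (by positivity), Real.log_pow]
    norm_num
  rw [hlogn] at a1 a2
  constructor
  · linarith
  · have e4 : (36 : ℝ) / 2 ^ 80 * 2 = 72 / 2 ^ 80 := by norm_num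
    linarith

private theorem NB_fin (N t n : ℕ) (hnd : n = N / 2 ^ t) (hlow : 2 ^ 120 ≤ n) :
    0 < N ∧ Real.log n ≤ Real.log N - t * Real.log 2 ∧
      Real.log N - t * Real.log 2 ≤ Real.log n + 1 / 2 ^ 120 := by
  have hnR : (2 : ℝ) ^ 120 ≤ n := by exact_mod_cast hlow
  have hn0 : (0 : ℝ) < n := lt_of_lt_of_le (by positivity) hnR
  have hNpos : 0 < N := by
    rcases Nat.eq_zero_or_pos N with h0 | h0
    · exfalso
      rw [h0, Nat.zero_div] at hnd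
      rw [hnd] at hn0
      simp at hn0
    · exact h0
  have hNR : (0 : ℝ) < N := by exact_mod_cast hNpos
  have hNn := NB_floor N (2 ^ t) (by positivity)
  rw [← hnd] at hNn
  push_cast at hNn
  have hl : Real.log ((N : ℝ) / 2 ^ t) = Real.log N - t * Real.log 2 := by
    rw [Real.log_div hNR.ne' (by positivity), Real.log_pow]
  refine ⟨hNpos, ?_, ?_⟩
  · rw [← hl]
    exact Real.log_le_log hn0 hNn.1
  · rw [← hl]
    have b1 : Real.log ((N : ℝ) / 2 ^ t) ≤ Real.log ((n : ℝ) + 1) :=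
      Real.log_le_log (by positivity) hNn.2
    have b2 : Real.log ((n : ℝ) + 1) = Real.log n + Real.log (1 + 1 / n) := by
      rw [← Real.log_mul hn0.ne' (by positivity)]
      congr 1
      field_simp
    have b3 : Real.log (1 + 1 / (n : ℝ)) ≤ 1 / n := by
      have := Real.log_le_sub_one_of_pos (x := 1 + 1 / (n : ℝ)) (by positivity)
      linarith
    have b4 : (1 : ℝ) / n ≤ 1 / 2 ^ 120 := one_div_le_one_div_of_le (by positivity) hnR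
    linarith

/-- `lg` is `0` or an approximation of the logarithm (from below up to rounding) -/
theorem lg_spec (N t : ℕ) (h : 1 ≤ lg N t) :
    0 < N ∧ |(lg N t : ℝ) / 2 ^ 80 - Real.log N| ≤ 1 / 2 ^ 41 := by
  have hlg : lg N t = lg1 (N / 2 ^ t) t := by
    show lg1 (Nat.shiftRight N t) t = _
    rw [NB_shr]
  rw [hlg] at h ⊢
  obtain ⟨n, hn⟩ : ∃ n, n = N / 2 ^ t := ⟨_, rfl⟩
  rw [← hn] at h ⊢
  obtain ⟨ht, hlow, hup, hl⟩ := NB_unf n t h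
  obtain ⟨hNpos, f1, f2⟩ := NB_fin N t n hn hlow
  obtain ⟨y, hy⟩ : ∃ y, y = ((n - 2 ^ 120) * 2 ^ 80) / (n + 2 ^ 120) := ⟨_, rfl⟩
  rw [← hy] at hl
  obtain ⟨c1, c2⟩ := NB_core n y hlow hup hy
  refine ⟨hNpos, ?_⟩
  have hL2 := abs_le.1 NB_log2
  have htR : (t : ℝ) ≤ 1048576 := by exact_mod_cast ht
  have ht0 : (0 : ℝ) ≤ t := by positivity
  have hval : (lg1 n t : ℝ) / 2 ^ 80 = (t + 120) * (837963523372001241319907 / 2 ^ 80)
      + 2 * ((ath 12 y ((y * y) / 2 ^ 80) 1 0 : ℝ) / 2 ^ 80) := by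
    rw [hl]
    push_cast
    ring
  have e1 : ((t : ℝ) + 120) * (837963523372001241319907 / 2 ^ 80)
      ≤ (t + 120) * Real.log 2 + (1048576 + 120) * (1 / 2 ^ 80) := by
    have : ((t : ℝ) + 120) * (837963523372001241319907 / 2 ^ 80 - Real.log 2)
        ≤ (1048576 + 120) * (1 / 2 ^ 80) := by
      calc ((t : ℝ) + 120) * (837963523372001241319907 / 2 ^ 80 - Real.log 2)
          ≤ ((t : ℝ) + 120) * (1 / 2 ^ 80) :=
            mul_le_mul_of_nonneg_left hL2.2 (by linarith)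
        _ ≤ (1048576 + 120) * (1 / 2 ^ 80) :=
            mul_le_mul_of_nonneg_right (by linarith) (by positivity)
    linarith
  have e2 : (t + 120) * Real.log 2 - (1048576 + 120) * (1 / 2 ^ 80)
      ≤ ((t : ℝ) + 120) * (837963523372001241319907 / 2 ^ 80) := by
    have : ((t : ℝ) + 120) * (-(837963523372001241319907 / 2 ^ 80 - Real.log 2))
        ≤ (1048576 + 120) * (1 / 2 ^ 80) := by
      calc ((t : ℝ) + 120) * (-(837963523372001241319907 / 2 ^ 80 - Real.log 2))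
          ≤ ((t : ℝ) + 120) * (1 / 2 ^ 80) :=
            mul_le_mul_of_nonneg_left (by linarith [hL2.1]) (by linarith)
        _ ≤ (1048576 + 120) * (1 / 2 ^ 80) :=
            mul_le_mul_of_nonneg_right (by linarith) (by positivity)
    linarith
  have e3 : (1048576 + 120) * ((1 : ℝ) / 2 ^ 80) + 72 / 2 ^ 80 + 1 / 2 ^ 120 + 1 / 2 ^ 42
      ≤ 1 / 2 ^ 41 := by
    norm_num
  have e5 : (0 : ℝ) ≤ 72 / 2 ^ 80 := by positivity
  have e6 : (0 : ℝ) ≤ 1 / 2 ^ 120 := by positivity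
  have e7 : (0 : ℝ) ≤ 1 / 2 ^ 42 := by positivity
  rw [hval, abs_le]
  constructor
  · linarith
  · linarith

end Pool.Agent.SHD
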