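import Pool.Agent.SHD.NBase

/-!
The executable checker of the numerical certificate: evaluation at one point. Points have the
coordinates `(x - 2 ^ 36) / 2 ^ 30` etc.
-/

set_option autoImplicit false

noncomputable section

namespace Pool.Agent.SHD

/-- a cluster: weight and centre -/
structure Cl where
  w : Nat
  x : Nat
  y : Nat

def clusters : List Cl :=
  [⟨54, 69458722816, 68893540352⟩, ⟨16, 69410488320, 69137858560⟩,
   ⟨49, 66859302912, 69825724416⟩, ⟨71, 67021832192, 67688726528⟩,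
   ⟨307, 69388468224, 68381835264⟩, ⟨479, 69482840064, 68636639232⟩,
   ⟨24, 68043145216, 72552022016⟩]

/-- sums over the zeros `b` at a point `c`: `Sp` approximates `∑ (c - b)⁻¹ ^ p`, `Mp` is an upper
bound of `∑ (|c - b| - R)⁻¹ ^ p` (unit `2 ^ (-60)`), `Q = ∏ (2 ^ 60 |c - β| ^ 2)` -/
structure Ev where
  S1 : CP
  S2 : CP
  S3 : CP
  S4 : CP
  M3 : Nat
  M4 : Nat
  M5 : Nat
  Q : Nat
  ok : Bool

def ev0 : Ev := ⟨⟨0, 0, 0, 0⟩, ⟨0, 0, 0, 0⟩, ⟨0, 0, 0, 0⟩, ⟨0, 0, 0, 0⟩, 0, 0, 0, 1, true⟩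

/-- `N = 2 ^ 60 |c - β| ^ 2`, `ρ` a lower bound of `|c - β| - R` (unit `2 ^ (-30)`),
`u = (c - β)⁻¹` -/
def ev5 (w N ρ : Nat) (u u2 : CP) (E : Ev) : Ev :=
  Ev.rec (fun S1 S2 S3 S4 M3 M4 M5 Q ok =>
    ⟨S1.add (CP.smul w u), S2.add (CP.smul w u2), S3.add (CP.smul w (u2.mul u)),
      S4.add (CP.smul w (u2.mul u2)), Nat.add M3 (mterm w ρ 3 150), Nat.add M4 (mterm w ρ 4 180),
      Nat.add M5 (mterm w ρ 5 210), Nat.mul Q (Nat.pow N w),
      and ok (and (Nat.ble 281474976710656 N) (Nat.ble 1 ρ))⟩) E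

def ev4 (w N ρ : Nat) (u : CP) (E : Ev) : Ev := ev5 w N ρ u (CP.mul u u) E

def ev3 (w ρ xp xq yp yq N : Nat) (E : Ev) : Ev := ev4 w N ρ (inv 110 xp xq yp yq N) E

def ev2 (w R xp xq yp yq X Y : Nat) (E : Ev) : Ev :=
  ev3 w (Nat.sub (gest X Y) (Nat.succ R)) xp xq yp yq (Nat.add (Nat.mul X X) (Nat.mul Y Y)) E

def ev1 (w R xp xq yp yq : Nat) (E : Ev) : Ev :=
  ev2 w R xp xq yp yq (Nat.add xp xq) (Nat.add yp yq) E

def evq (cx cy R : Nat) (q : Cl) (E : Ev) : Ev :=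
  Cl.rec (fun w x y => ev1 w R (Nat.sub cx x) (Nat.sub x cx) (Nat.sub cy y) (Nat.sub y cy) E) q

/-- evaluation at the point `(cx, cy)` with the radius `R` (unit `2 ^ (-30)`) -/
def ev (cx cy R : Nat) (l : List Cl) : Ev := List.rec ev0 (fun q _ ih => evq cx cy R q ih) l

/-- the data at the point `c` related to the centre `z`: `N = 2 ^ 160 |c - z| ^ 2`, `ρ` a lower
bound of `|c - z| - R` (unit `2 ^ (-30)`), `v = (c - z)⁻¹`, `v2 = v ^ 2`, `v3 = v ^ 3` -/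
structure Zv where
  N : Nat
  ρ : Nat
  v : CP
  v2 : CP
  v3 : CP
  ok : Bool

def zv4 (N ρ : Nat) (v v2 : CP) : Zv :=
  ⟨N, ρ, v, v2, CP.mul v2 v, and (Nat.ble 22300745198530623141535718272648361505980416 N)
    (Nat.ble 1 ρ)⟩

def zv3 (N ρ : Nat) (v : CP) : Zv := zv4 N ρ v (CP.mul v v)

def zv2 (R xp xq yp yq X Y N : Nat) : Zv :=
  zv3 N (Nat.sub (Nat.shiftRight (gest X Y) 50) (Nat.succ R)) (inv 160 xp xq yp yq N)

def zv1 (R xp xq yp yq X Y : Nat) : Zv :=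
  zv2 R xp xq yp yq X Y (Nat.add (Nat.mul X X) (Nat.mul Y Y))

def zv0 (R xp xq yp yq : Nat) : Zv := zv1 R xp xq yp yq (Nat.add xp xq) (Nat.add yp yq)

/-- coordinates of the centre `z*`, unit `2 ^ (-80)`, offset `2 ^ 86`; the true centre is at most
`2 ^ (-56)` away -/
def zX : Nat := 78136370258991714766621959

def zY : Nat := 77227130698435348977117863

def zv (cx cy R : Nat) : Zv :=
  zv0 R (Nat.sub (Nat.shiftLeft cx 50) zX) (Nat.sub zX (Nat.shiftLeft cx 50))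
    (Nat.sub (Nat.shiftLeft cy 50) zY) (Nat.sub zY (Nat.shiftLeft cy 50))

/-- upper bound of `|f|`, unit `2 ^ (-80)`, `α = A / 2 ^ 30` -/
def F0 (A : Nat) (S1 v : CP) : Nat :=
  Nat.add (CP.nup (CP.sub S1 (CP.amul A v))) 2251799813685248

/-- upper bound of `|f'|` -/
def F1 (A : Nat) (S2 v2 : CP) : Nat :=
  Nat.add (CP.nup (CP.sub (CP.amul A v2) S2)) 1152921504606846976

/-- upper bound of `|f''|` -/
def F2 (A : Nat) (S3 v3 : CP) : Nat :=
  Nat.add (Nat.mul 2 (CP.nup (CP.sub S3 (CP.amul A v3)))) 590295810358705651712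

/-- upper bound of `|f'''|` -/
def F3 (A : Nat) (S4 v4 : CP) : Nat :=
  Nat.add (Nat.mul 6 (CP.nup (CP.sub (CP.amul A v4) S4))) 604462909807314587353088

/-- the slack of the level of the saddle point: `|Λ(w₀) - Λ(wc)|` and the numerical errors -/
def slack (A r0 ρ M4 F1w F2w : Nat) : Nat :=
  Nat.add 1125899906842624 (rsh (Nat.mul (Nat.add F1w (Nat.add (rsh (Nat.mul F2w r0) 30)
    (rsh (Nat.mul 3 (Nat.mul (Nat.add M4 (mterm A ρ 4 150)) (Nat.mul r0 r0))) 40)))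
      (Nat.mul r0 r0)) 61)

/-- constants derived from the centre `wc` of a block: `HW` and `LW` the logarithms of
`∏ |wc - b| ^ 2` and `|wc - z| ^ 2` up to constants, `s0`, `s1` the slacks for `A0`, `A1` -/
structure BC where
  A0 : Nat
  A1 : Nat
  HW : Nat
  LW : Nat
  s0 : Nat
  s1 : Nat

/-- existence of a saddle point in the ball `wc, r0` for all `α` -/
def root5 (r0 F d1 G e : Nat) : Bool :=
  Nat.ble (Nat.add F d1) (Nat.shiftRight (Nat.mul (Nat.sub G e) r0) 30)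

def root4 (r0 F d1 d2 d3 N up F2m M : Nat) : Bool :=
  root5 r0 F d1 (Nat.sub (Nat.div N up) 1152921504606846976)
    (Nat.add d2 (Nat.add (rsh (Nat.mul (Nat.add F2m (Nat.mul 2 d3)) r0) 30)
      (rsh (Nat.mul 3 (Nat.mul M (Nat.mul r0 r0))) 40)))

def root3 (r0 F d1 d2 d3 X Y F2m M : Nat) : Bool :=
  root4 r0 F d1 d2 d3 (Nat.add (Nat.mul X X) (Nat.mul Y Y)) (mup X Y) F2m M

def root2 (r0 Am dA A1 ρ M4 : Nat) (S1 S2 S3 v v2 v3 : CP) : Bool :=
  CP.rec (fun x x' y y' => root3 r0 (F0 Am S1 v) (rsh (Nat.mul dA (Nat.add (CP.nup v) 2199023255552)) 30)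
    (rsh (Nat.mul dA (Nat.add (CP.nup v2) 1125899906842624)) 30) (rsh (Nat.mul dA (Nat.add (CP.nup v3) 288230376151711744)) 30)
    (adist x x') (adist y y') (F2 Am S3 v3) (Nat.add M4 (mterm A1 ρ 4 150)))
    (CP.sub (CP.amul Am v2) S2)

def root1 (r0 Am A1 ρ M4 : Nat) (S1 S2 S3 v v2 v3 : CP) : Bool :=
  root2 r0 Am (Nat.sub A1 Am) A1 ρ M4 S1 S2 S3 v v2 v3

/-- the inequality of a value cell for one `α` -/
def valA (A R H lz HW LW s ρ M3 : Nat) (S1 S2 v v2 : CP) : Bool :=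
  Nat.ble (Nat.add (Nat.add (Nat.shiftRight H 1) (Nat.shiftRight (Nat.mul A LW) 31))
      (Nat.add (Nat.add (rsh (Nat.mul (F0 A S1 v) R) 30)
        (rsh (Nat.mul (F1 A S2 v2) (Nat.mul R R)) 61))
        (Nat.add (rsh (Nat.div (Nat.mul (Nat.add M3 (mterm A ρ 3 120)) (Nat.mul R (Nat.mul R R))) 3)
          70) s)))
    (Nat.add (Nat.shiftRight HW 1) (Nat.shiftRight (Nat.mul A lz) 31))

/-- a value cell: the ball `c, R` lies below the level; `t`, `tz` are the exponents for the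
logarithms -/
def valCell (C : BC) (cx cy R t tz : Nat) : Bool :=
  BC.rec (fun A0 A1 HW LW s0 s1 =>
    Zv.rec (fun N ρ v v2 _ okz =>
      Ev.rec (fun S1 S2 _ _ M3 _ _ Q ok =>
        and (and ok okz) (and (and (Nat.ble 1 (lg Q t)) (Nat.ble 1 (lg N tz)))
          (and (valA A0 R (lg Q t) (lg N tz) HW LW s0 ρ M3 S1 S2 v v2)
            (valA A1 R (lg Q t) (lg N tz) HW LW s1 ρ M3 S1 S2 v v2))))
        (ev cx cy R clusters)) (zv cx cy R)) C

/-- the inequality of a ray cell for one `α`; `uu = u ^ 2`, `L2 = |u| ^ 2` -/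
def rayA (A R ρ L2 M4 F2c : Nat) (uu g : CP) : Bool :=
  CP.rec (fun x x' _ _ => Nat.ble (Nat.add x (Nat.add 3 (rsh (Nat.mul L2
    (Nat.add 1152921504606846976 (Nat.add (rsh (Nat.mul F2c R) 30)
      (rsh (Nat.mul 3 (Nat.mul (Nat.add M4 (mterm A ρ 4 150)) (Nat.mul R R))) 40)))) 80))) x')
    (CP.mul uu g)

def rayCell (A0 A1 : Nat) (uu : CP) (L2 : Nat) (cx cy R : Nat) : Bool :=
  Zv.rec (fun _ ρ _ v2 v3 okz =>
    Ev.rec (fun _ S2 S3 _ _ M4 _ _ ok => and (and ok okz)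
      (and (rayA A0 R ρ L2 M4 (F2 A0 S3 v3) uu (CP.sub (CP.amul A0 v2) S2))
        (rayA A1 R ρ L2 M4 (F2 A1 S3 v3) uu (CP.sub (CP.amul A1 v2) S2))))
      (ev cx cy R clusters)) (zv cx cy R)

/-- the same for the third power of the direction and the second derivative of `f`;
`uuu = u ^ 3`, `L3` an upper bound of `|u| ^ 3`, `g = S3 - α v ^ 3` -/
def ray3A (A R ρ L3 M5 F3c : Nat) (uuu g : CP) : Bool :=
  CP.rec (fun x x' _ _ => Nat.ble (Nat.add (Nat.add (Nat.mul 2 x)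
    (rsh (Nat.mul 4 (CP.nup g)) 80)) (Nat.add 5 (rsh (Nat.mul L3
    (Nat.add 590295810358705651712 (Nat.add (rsh (Nat.mul F3c R) 30)
      (rsh (Nat.mul 12 (Nat.mul (Nat.add M5 (mterm A ρ 5 180)) (Nat.mul R R))) 40)))) 80)))
      (Nat.mul 2 x')) (CP.mul uuu g)

def ray3Cell (A0 A1 : Nat) (uuu : CP) (L3 : Nat) (cx cy R : Nat) : Bool :=
  Zv.rec (fun _ ρ _ v2 v3 okz =>
    Ev.rec (fun _ _ S3 S4 _ _ M5 _ ok => and (and ok okz)
      (and (ray3A A0 R ρ L3 M5 (F3 A0 S4 (CP.mul v2 v2)) uuu (CP.sub S3 (CP.amul A0 v3)))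
        (ray3A A1 R ρ L3 M5 (F3 A1 S4 (CP.mul v2 v2)) uuu (CP.sub S3 (CP.amul A1 v3)))))
      (ev cx cy R clusters)) (zv cx cy R)

end Pool.Agent.SHD
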