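import Mathlib
import Pool.Agent.SHD.Defs
import Pool.Agent.SHD.NDefs
import Pool.Agent.SHD.NA

set_option autoImplicit false

/-!
Soundness of the evaluation of the sums over the zeros (module NUMC).
-/

noncomputable section

namespace Pool.Agent.SHD

open Polynomial

/-- a point with the coordinates `(x - 2 ^ 36) / 2 ^ 30`, `(y - 2 ^ 36) / 2 ^ 30` -/
def ptv (x y : ℕ) : ℂ := ⟨((x : ℝ) - 2 ^ 36) / 2 ^ 30, ((y : ℝ) - 2 ^ 36) / 2 ^ 30⟩

/-- the numerical centre -/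
def zcv : ℂ := ⟨((zX : ℝ) - 2 ^ 86) / 2 ^ 80, ((zY : ℝ) - 2 ^ 86) / 2 ^ 80⟩

/-- `m` consists of `q.w` numbers close to the centre of the cluster `q` -/
def NearC (q : Cl) (m : Multiset ℂ) : Prop :=
  m.card = q.w ∧ ∀ b ∈ m, ‖b - ptv q.x q.y‖ ≤ 1 / 2 ^ 80

/-- `m` is the union of multisets close to the clusters of the list `l` -/
def NearL : List Cl → Multiset ℂ → Prop
  | [], m => m = 0
  | q :: l, m => ∃ m₁ m₂, m = m₁ + m₂ ∧ NearC q m₁ ∧ NearL l m₂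

/-- the zeros `b i` form the seven clusters -/
def Near {ι : Type} [Fintype ι] (b : ι → ℂ) : Prop := NearL clusters (Finset.univ.val.map b)

/-- correctness of the sums over the multiset `m` at the point `c` -/
structure EvM (E : Ev) (c : ℂ) (R : ℝ) (m : Multiset ℂ) : Prop where
  s1 : ‖E.S1.val - (m.map fun b => (c - b)⁻¹).sum‖ ≤ m.card * (2 ^ 13 / 2 ^ 80)
  s2 : ‖E.S2.val - (m.map fun b => (c - b)⁻¹ ^ 2).sum‖ ≤ m.card * (2 ^ 21 / 2 ^ 80)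
  s3 : ‖E.S3.val - (m.map fun b => (c - b)⁻¹ ^ 3).sum‖ ≤ m.card * (2 ^ 28 / 2 ^ 80)
  s4 : ‖E.S4.val - (m.map fun b => (c - b)⁻¹ ^ 4).sum‖ ≤ m.card * (2 ^ 35 / 2 ^ 80)
  far : ∀ b ∈ m, R < ‖c - b‖
  m3 : (m.map fun b => (‖c - b‖ - R)⁻¹ ^ 3).sum ≤ E.M3 / 2 ^ 60
  m4 : (m.map fun b => (‖c - b‖ - R)⁻¹ ^ 4).sum ≤ E.M4 / 2 ^ 60
  m5 : (m.map fun b => (‖c - b‖ - R)⁻¹ ^ 5).sum ≤ E.M5 / 2 ^ 60
  q0 : 0 < E.Q
  q : |Real.log E.Q - (m.map fun b => 2 * Real.log ‖c - b‖ + 60 * Real.log 2).sum| ≤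
    m.card * (1 / 2 ^ 72)

private lemma NUMC1_sum_err {m : Multiset ℂ} {g : ℂ → ℂ} {v : ℂ} {e : ℝ}
    (h : ∀ b ∈ m, ‖v - g b‖ ≤ e) : ‖(m.card : ℂ) * v - (m.map g).sum‖ ≤ m.card * e := by
  induction m using Multiset.induction_on with
  | empty => simp
  | cons a m ih =>
    have h1 := h a (Multiset.mem_cons_self a m)
    have h2 := ih fun b hb => h b (Multiset.mem_cons_of_mem hb)
    rw [Multiset.card_cons, Multiset.map_cons, Multiset.sum_cons]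
    push_cast
    have e1 : ((m.card : ℂ) + 1) * v - (g a + (m.map g).sum) =
        ((m.card : ℂ) * v - (m.map g).sum) + (v - g a) := by ring
    rw [e1]
    refine (norm_add_le _ _).trans ?_
    linarith

private lemma NUMC1_sum_errR {m : Multiset ℂ} {g : ℂ → ℝ} {v : ℝ} {e : ℝ}
    (h : ∀ b ∈ m, |v - g b| ≤ e) : |(m.card : ℝ) * v - (m.map g).sum| ≤ m.card * e := by
  induction m using Multiset.induction_on with
  | empty => simp
  | cons a m ih =>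
    have h1 := h a (Multiset.mem_cons_self a m)
    have h2 := ih fun b hb => h b (Multiset.mem_cons_of_mem hb)
    rw [Multiset.card_cons, Multiset.map_cons, Multiset.sum_cons]
    push_cast
    have e1 : ((m.card : ℝ) + 1) * v - (g a + (m.map g).sum) =
        ((m.card : ℝ) * v - (m.map g).sum) + (v - g a) := by ring
    rw [e1]
    refine (abs_add_le _ _).trans ?_
    linarith

private lemma NUMC1_sum_leR {m : Multiset ℂ} {g : ℂ → ℝ} {e : ℝ}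
    (h : ∀ b ∈ m, g b ≤ e) : (m.map g).sum ≤ m.card * e := by
  induction m using Multiset.induction_on with
  | empty => simp
  | cons a m ih =>
    have h1 := h a (Multiset.mem_cons_self a m)
    have h2 := ih fun b hb => h b (Multiset.mem_cons_of_mem hb)
    rw [Multiset.card_cons, Multiset.map_cons, Multiset.sum_cons]
    push_cast
    linarith

private lemma NUMC1_far {c β b : ℂ} (hb : ‖b - β‖ ≤ 1 / 2 ^ 80) :
    ‖c - β‖ - 1 / 2 ^ 80 ≤ ‖c - b‖ := by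
  have h1 : ‖c - β‖ ≤ ‖c - b‖ + ‖b - β‖ := by
    have e : c - β = (c - b) + (b - β) := by ring
    rw [e]
    exact norm_add_le _ _
  linarith

private lemma NUMC1_pt {c β b : ℂ} {U : CP} (h6 : 1 / 2 ^ 6 ≤ ‖c - β‖)
    (hb : ‖b - β‖ ≤ 1 / 2 ^ 80) (hu : ‖U.val - (c - β)⁻¹‖ ≤ 2 / 2 ^ 80) :
    ‖U.val - (c - b)⁻¹‖ ≤ 2 ^ 13 / 2 ^ 80 ∧
    ‖(U.mul U).val - (c - b)⁻¹ ^ 2‖ ≤ 2 ^ 21 / 2 ^ 80 ∧
    ‖((U.mul U).mul U).val - (c - b)⁻¹ ^ 3‖ ≤ 2 ^ 28 / 2 ^ 80 ∧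
    ‖((U.mul U).mul (U.mul U)).val - (c - b)⁻¹ ^ 4‖ ≤ 2 ^ 35 / 2 ^ 80 := by
  have h7 := NUMC1_far (c := c) hb
  have hcb : 1 / 65 ≤ ‖c - b‖ := by
    have : (1 : ℝ) / 65 + 1 / 2 ^ 80 ≤ 1 / 2 ^ 6 := by norm_num
    linarith
  have hcb0 : c - b ≠ 0 := by
    intro h
    rw [h, norm_zero] at hcb
    norm_num at hcb
  have hcβ0 : c - β ≠ 0 := by
    intro h
    rw [h, norm_zero] at h6
    norm_num at h6
  set a := (c - β)⁻¹ with ha
  set d := (c - b)⁻¹ with hd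
  have hda : ‖d‖ ≤ 65 := by
    rw [hd, norm_inv]
    calc ‖c - b‖⁻¹ ≤ (1 / 65 : ℝ)⁻¹ := inv_anti₀ (by norm_num) hcb
      _ = 65 := by norm_num
  have haa : ‖a‖ ≤ 64 := by
    rw [ha, norm_inv]
    calc ‖c - β‖⁻¹ ≤ (1 / 2 ^ 6 : ℝ)⁻¹ := inv_anti₀ (by norm_num) h6
      _ = 64 := by norm_num
  have e1 : d - a = d * a * (b - β) := by
    rw [ha, hd]
    field_simp
    ring
  have hd1 : ‖a - d‖ ≤ 4160 / 2 ^ 80 := by
    rw [norm_sub_rev, e1, norm_mul, norm_mul]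
    calc ‖d‖ * ‖a‖ * ‖b - β‖ ≤ 65 * 64 * (1 / 2 ^ 80) := by gcongr
      _ = 4160 / 2 ^ 80 := by norm_num
  have hE1 : ‖U.val - d‖ ≤ 4162 / 2 ^ 80 := by
    have e : U.val - d = (U.val - a) + (a - d) := by ring
    rw [e]
    refine (norm_add_le _ _).trans ?_
    have : (4162 : ℝ) / 2 ^ 80 = 2 / 2 ^ 80 + 4160 / 2 ^ 80 := by norm_num
    linarith
  have hU : ‖U.val‖ ≤ 65 := by
    have e : U.val = (U.val - a) + a := by ring
    rw [e]
    refine (norm_add_le _ _).trans ?_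
    have : (2 : ℝ) / 2 ^ 80 ≤ 1 := by norm_num
    linarith
  have hE2 : ‖(U.mul U).val - d ^ 2‖ ≤ 541062 / 2 ^ 80 := by
    have e : (U.mul U).val - d ^ 2 = ((U.mul U).val - U.val * U.val) + (U.val - d) * (U.val + d) := by ring
    rw [e]
    refine (norm_add_le _ _).trans ?_
    rw [norm_mul]
    calc ‖(U.mul U).val - U.val * U.val‖ + ‖U.val - d‖ * ‖U.val + d‖
        ≤ 2 / 2 ^ 80 + 4162 / 2 ^ 80 * (65 + 65) := by
          gcongr
          · exact CP.val_mul U U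
          · exact (norm_add_le _ _).trans (add_le_add hU hda)
      _ ≤ 541062 / 2 ^ 80 := by norm_num
  have hd2 : ‖d ^ 2‖ ≤ 4225 := by
    rw [norm_pow]
    calc ‖d‖ ^ 2 ≤ 65 ^ 2 := by gcongr
      _ = 4225 := by norm_num
  have hU2 : ‖(U.mul U).val‖ ≤ 4226 := by
    have e : (U.mul U).val = ((U.mul U).val - d ^ 2) + d ^ 2 := by ring
    rw [e]
    refine (norm_add_le _ _).trans ?_
    have : (541062 : ℝ) / 2 ^ 80 ≤ 1 := by norm_num
    linarith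
  refine ⟨?_, ?_, ?_, ?_⟩
  · refine hE1.trans ?_
    norm_num
  · refine hE2.trans ?_
    norm_num
  · have e : ((U.mul U).mul U).val - d ^ 3 = (((U.mul U).mul U).val - (U.mul U).val * U.val) +
        (((U.mul U).val - d ^ 2) * U.val + d ^ 2 * (U.val - d)) := by ring
    rw [e]
    refine (norm_add_le _ _).trans ?_
    refine (add_le_add (CP.val_mul _ _) (norm_add_le _ _)).trans ?_
    rw [norm_mul, norm_mul]
    calc 2 / 2 ^ 80 + (‖(U.mul U).val - d ^ 2‖ * ‖U.val‖ + ‖d ^ 2‖ * ‖U.val - d‖)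
        ≤ 2 / 2 ^ 80 + (541062 / 2 ^ 80 * 65 + 4225 * (4162 / 2 ^ 80)) := by gcongr
      _ ≤ 2 ^ 28 / 2 ^ 80 := by norm_num
  · have e : ((U.mul U).mul (U.mul U)).val - d ^ 4 =
        (((U.mul U).mul (U.mul U)).val - (U.mul U).val * (U.mul U).val) +
        ((U.mul U).val - d ^ 2) * ((U.mul U).val + d ^ 2) := by ring
    rw [e]
    refine (norm_add_le _ _).trans ?_
    rw [norm_mul]
    calc ‖((U.mul U).mul (U.mul U)).val - (U.mul U).val * (U.mul U).val‖ +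
          ‖(U.mul U).val - d ^ 2‖ * ‖(U.mul U).val + d ^ 2‖
        ≤ 2 / 2 ^ 80 + 541062 / 2 ^ 80 * (4226 + 4225) := by
          gcongr
          · exact CP.val_mul _ _
          · exact (norm_add_le _ _).trans (add_le_add hU2 hd2)
      _ ≤ 2 ^ 35 / 2 ^ 80 := by norm_num

private lemma NUMC1_log {x y : ℝ} (hx : 1 / 65 ≤ x) (hy : 1 / 65 ≤ y) (hxy : |x - y| ≤ 1 / 2 ^ 80) :
    |Real.log x - Real.log y| ≤ 65 / 2 ^ 80 := by
  have key : ∀ {x y : ℝ}, 1 / 65 ≤ x → 1 / 65 ≤ y → |x - y| ≤ 1 / 2 ^ 80 →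
      Real.log x - Real.log y ≤ 65 / 2 ^ 80 := by
    intro x y hx hy hxy
    have hx0 : 0 < x := lt_of_lt_of_le (by norm_num) hx
    have hy0 : 0 < y := lt_of_lt_of_le (by norm_num) hy
    rw [← Real.log_div hx0.ne' hy0.ne']
    refine (Real.log_le_sub_one_of_pos (div_pos hx0 hy0)).trans ?_
    have h1 : x / y - 1 = (x - y) / y := by field_simp
    rw [h1, div_le_iff₀ hy0]
    have h2 : x - y ≤ 1 / 2 ^ 80 := (le_abs_self _).trans hxy
    have h3 : (65 : ℝ) / 2 ^ 80 * (1 / 65) ≤ 65 / 2 ^ 80 * y := by gcongr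
    have h4 : (65 : ℝ) / 2 ^ 80 * (1 / 65) = 1 / 2 ^ 80 := by norm_num
    linarith
  rw [abs_le]
  constructor
  · have := key hy hx (by rw [abs_sub_comm]; exact hxy)
    linarith
  · exact key hx hy hxy

private lemma NUMC1_core (w N ρ : ℕ) (U : CP) (E : Ev) (c β : ℂ) (R : ℝ) (m m' : Multiset ℂ)
    (hm' : m'.card = w) (hb : ∀ b ∈ m', ‖b - β‖ ≤ 1 / 2 ^ 80) (hE : EvM E c R m)
    (hN : (N : ℝ) = 2 ^ 60 * ‖c - β‖ ^ 2) (h6 : 1 / 2 ^ 6 ≤ ‖c - β‖)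
    (hu : ‖U.val - (c - β)⁻¹‖ ≤ 2 / 2 ^ 80) (hρ1 : 1 ≤ ρ)
    (hρ : (ρ : ℝ) / 2 ^ 30 + R + 1 / 2 ^ 80 ≤ ‖c - β‖) :
    EvM (ev4 w N ρ U E) c R (m' + m) := by
  obtain ⟨S1, S2, S3, S4, M3, M4, M5, Q, ok⟩ := E
  obtain ⟨hs1, hs2, hs3, hs4, hfar, hm3, hm4, hm5, hq0, hq⟩ := hE
  simp only at hs1 hs2 hs3 hs4 hm3 hm4 hm5 hq0 hq
  have hρ0 : (0 : ℝ) < ρ := by exact_mod_cast hρ1
  have hcb : ∀ b ∈ m', (ρ : ℝ) / 2 ^ 30 ≤ ‖c - b‖ - R := by
    intro b hbm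
    have := NUMC1_far (c := c) (hb b hbm)
    linarith
  have hcb2 : ∀ b ∈ m', 1 / 65 ≤ ‖c - b‖ := by
    intro b hbm
    have := NUMC1_far (c := c) (hb b hbm)
    have h65 : (1 : ℝ) / 65 + 1 / 2 ^ 80 ≤ 1 / 2 ^ 6 := by norm_num
    linarith
  have hterm : ∀ p : ℕ, (m'.map fun b => (‖c - b‖ - R)⁻¹ ^ p).sum ≤
      (mterm w ρ p (30 * p + 60) : ℝ) / 2 ^ 60 := by
    intro p
    have h1 : ∀ b ∈ m', (‖c - b‖ - R)⁻¹ ^ p ≤ (2 ^ 30 / (ρ : ℝ)) ^ p := by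
      intro b hbm
      have h2 := hcb b hbm
      have h3 : 0 < (ρ : ℝ) / 2 ^ 30 := by positivity
      have h4 : (‖c - b‖ - R)⁻¹ ≤ 2 ^ 30 / (ρ : ℝ) := by
        rw [← inv_div]
        exact inv_anti₀ h3 h2
      have h5 : 0 ≤ (‖c - b‖ - R)⁻¹ := inv_nonneg.2 (h3.le.trans h2)
      gcongr
    refine (NUMC1_sum_leR h1).trans ?_
    rw [hm', le_div_iff₀ (by positivity)]
    refine le_trans (le_of_eq ?_) (mterm_gt w ρ p (30 * p + 60) hρ1).le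
    rw [div_pow, pow_add, pow_mul]
    ring
  have hU := fun b hbm => NUMC1_pt (c := c) (U := U) h6 (hb b hbm) hu
  have hS : ∀ (V : CP) (S : CP) (g : ℂ → ℂ) (e : ℝ), (∀ b ∈ m', ‖V.val - g b‖ ≤ e) →
      ‖S.val - (m.map g).sum‖ ≤ m.card * e →
      ‖(S.add (CP.smul w V)).val - ((m' + m).map g).sum‖ ≤ (m' + m).card * e := by
    intro V S g e h1 h2
    have h3 := NUMC1_sum_err h1
    rw [CP.val_add, CP.val_smul, Multiset.map_add, Multiset.sum_add, Multiset.card_add, ← hm']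
    push_cast
    have e1 : S.val + (m'.card : ℂ) * V.val - ((m'.map g).sum + (m.map g).sum) =
        ((m'.card : ℂ) * V.val - (m'.map g).sum) + (S.val - (m.map g).sum) := by ring
    rw [e1]
    refine (norm_add_le _ _).trans ?_
    linarith
  refine ⟨hS U S1 _ _ (fun b hbm => (hU b hbm).1) hs1, hS (U.mul U) S2 _ _ (fun b hbm => (hU b hbm).2.1) hs2,
    hS ((U.mul U).mul U) S3 _ _ (fun b hbm => (hU b hbm).2.2.1) hs3,
    hS ((U.mul U).mul (U.mul U)) S4 _ _ (fun b hbm => (hU b hbm).2.2.2) hs4, ?_, ?_, ?_, ?_, ?_, ?_⟩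
  · intro b hbm
    rcases Multiset.mem_add.1 hbm with h | h
    · have h1 := hcb b h
      have h3 : 0 < (ρ : ℝ) / 2 ^ 30 := by positivity
      linarith
    · exact hfar b h
  · show _ ≤ ((M3 + mterm w ρ 3 150 : ℕ) : ℝ) / 2 ^ 60
    rw [Multiset.map_add, Multiset.sum_add]
    push_cast
    have := hterm 3
    rw [add_div]
    linarith
  · show _ ≤ ((M4 + mterm w ρ 4 180 : ℕ) : ℝ) / 2 ^ 60
    rw [Multiset.map_add, Multiset.sum_add]
    push_cast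
    have := hterm 4
    rw [add_div]
    linarith
  · show _ ≤ ((M5 + mterm w ρ 5 210 : ℕ) : ℝ) / 2 ^ 60
    rw [Multiset.map_add, Multiset.sum_add]
    push_cast
    have := hterm 5
    rw [add_div]
    linarith
  · show 0 < Q * N ^ w
    have hN0 : 0 < N := by
      rcases Nat.eq_zero_or_pos N with h | h
      · exfalso
        rw [h] at hN
        have : 0 < (2 : ℝ) ^ 60 * ‖c - β‖ ^ 2 := by
          have : 0 < ‖c - β‖ := lt_of_lt_of_le (by norm_num) h6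
          positivity
        rw [← hN] at this
        simp at this
      · exact h
    exact Nat.mul_pos hq0 (pow_pos hN0 w)
  · show |Real.log ((Q * N ^ w : ℕ) : ℝ) - _| ≤ _
    have hcβ : 0 < ‖c - β‖ := lt_of_lt_of_le (by norm_num) h6
    have hN0 : (0 : ℝ) < N := by
      rw [hN]
      positivity
    have hQ0 : (0 : ℝ) < Q := by exact_mod_cast hq0
    have hlogN : Real.log N = 2 * Real.log ‖c - β‖ + 60 * Real.log 2 := by
      rw [hN, Real.log_mul (by positivity) (by positivity), Real.log_pow, Real.log_pow]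
      push_cast
      ring
    push_cast
    rw [Real.log_mul hQ0.ne' (pow_pos hN0 w).ne', Real.log_pow, Multiset.map_add, Multiset.sum_add,
      Multiset.card_add, ← hm']
    push_cast
    have h1 : ∀ b ∈ m', |Real.log N - (2 * Real.log ‖c - b‖ + 60 * Real.log 2)| ≤ 1 / 2 ^ 72 := by
      intro b hbm
      rw [hlogN]
      have e1 : 2 * Real.log ‖c - β‖ + 60 * Real.log 2 - (2 * Real.log ‖c - b‖ + 60 * Real.log 2) =
          2 * (Real.log ‖c - β‖ - Real.log ‖c - b‖) := by ring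
      rw [e1, abs_mul, abs_of_pos (by norm_num : (0 : ℝ) < 2)]
      have h2 : |‖c - β‖ - ‖c - b‖| ≤ 1 / 2 ^ 80 := by
        refine (abs_norm_sub_norm_le _ _).trans ?_
        have e2 : c - β - (c - b) = b - β := by ring
        rw [e2]
        exact hb b hbm
      have h3 := NUMC1_log (le_trans (by norm_num) h6) (hcb2 b hbm) h2
      refine (mul_le_mul_of_nonneg_left h3 (by norm_num)).trans ?_
      norm_num
    have h2 := NUMC1_sum_errR h1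
    have e1 : Real.log Q + (m'.card : ℝ) * Real.log N -
        ((m'.map fun b => 2 * Real.log ‖c - b‖ + 60 * Real.log 2).sum +
          (m.map fun b => 2 * Real.log ‖c - b‖ + 60 * Real.log 2).sum) =
        ((m'.card : ℝ) * Real.log N - (m'.map fun b => 2 * Real.log ‖c - b‖ + 60 * Real.log 2).sum) +
        (Real.log Q - (m.map fun b => 2 * Real.log ‖c - b‖ + 60 * Real.log 2).sum) := by ring
    rw [e1]
    refine (abs_add_le _ _).trans ?_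
    linarith

private lemma NUMC1_norm (cx cy x y : ℕ) :
    ‖ptv cx cy - ptv x y‖ = Real.sqrt ((((cx - x) + (x - cx) : ℕ) : ℝ) ^ 2 +
      (((cy - y) + (y - cy) : ℕ) : ℝ) ^ 2) / 2 ^ 30 := by
  have h1 := adist_eq cx x
  have h2 := adist_eq cy y
  have e1 : (((cx - x) + (x - cx) : ℕ) : ℝ) = |(cx : ℝ) - x| := h1
  have e2 : (((cy - y) + (y - cy) : ℕ) : ℝ) = |(cy : ℝ) - y| := h2
  rw [e1, e2, sq_abs, sq_abs]
  have e3 : ptv cx cy - ptv x y = ⟨((cx : ℝ) - x) / 2 ^ 30, ((cy : ℝ) - y) / 2 ^ 30⟩ := by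
    apply Complex.ext
    · simp only [ptv, Complex.sub_re]
      ring
    · simp only [ptv, Complex.sub_im]
      ring
  rw [e3, Complex.norm_def, Complex.normSq_mk]
  have e4 : ((cx : ℝ) - x) / 2 ^ 30 * (((cx : ℝ) - x) / 2 ^ 30) +
      ((cy : ℝ) - y) / 2 ^ 30 * (((cy : ℝ) - y) / 2 ^ 30) =
      (((cx : ℝ) - x) ^ 2 + ((cy : ℝ) - y) ^ 2) / (2 ^ 30) ^ 2 := by ring
  rw [e4, Real.sqrt_div (by positivity), Real.sqrt_sq (by positivity)]

theorem evq_ok (cx cy R : ℕ) (q : Cl) (E : Ev) (m m' : Multiset ℂ) (hm' : NearC q m')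
    (hE : E.ok = true → EvM E (ptv cx cy) (R / 2 ^ 30) m) (h : (evq cx cy R q E).ok = true) :
    EvM (evq cx cy R q E) (ptv cx cy) (R / 2 ^ 30) (m' + m) := by
  obtain ⟨w, x, y⟩ := q
  obtain ⟨hcard, hnear⟩ := hm'
  simp only at hcard hnear
  set xp := cx - x with hxp
  set xq := x - cx with hxq
  set yp := cy - y with hyp
  set yq := y - cy with hyq
  set X := xp + xq with hX
  set Y := yp + yq with hY
  set N := X * X + Y * Y with hNdef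
  set ρ := gest X Y - (R + 1) with hρdef
  have hev : evq cx cy R ⟨w, x, y⟩ E = ev4 w N ρ (inv 110 xp xq yp yq N) E := rfl
  rw [hev] at h ⊢
  have hok : E.ok = true ∧ 281474976710656 ≤ N ∧ 1 ≤ ρ := by
    obtain ⟨S1, S2, S3, S4, M3, M4, M5, Q, ok⟩ := E
    have h' : (ok && (Nat.ble 281474976710656 N && Nat.ble 1 ρ)) = true := h
    rw [Bool.and_eq_true, Bool.and_eq_true] at h'
    exact ⟨h'.1, Nat.le_of_ble_eq_true h'.2.1, Nat.le_of_ble_eq_true h'.2.2⟩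
  obtain ⟨hok1, hN48, hρ1⟩ := hok
  have hnorm := NUMC1_norm cx cy x y
  rw [← hxp, ← hxq, ← hyp, ← hyq, ← hX, ← hY] at hnorm
  have hNr : (N : ℝ) = (X : ℝ) ^ 2 + (Y : ℝ) ^ 2 := by
    rw [hNdef]
    push_cast
    ring
  have hN2 : (N : ℝ) = 2 ^ 60 * ‖ptv cx cy - ptv x y‖ ^ 2 := by
    rw [hnorm, div_pow, Real.sq_sqrt (by positivity), ← hNr]
    field_simp
  have h48 : (2 : ℝ) ^ 48 ≤ N := by
    have : ((281474976710656 : ℕ) : ℝ) ≤ N := by exact_mod_cast hN48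
    refine le_trans (le_of_eq ?_) this
    norm_num
  have h6 : 1 / 2 ^ 6 ≤ ‖ptv cx cy - ptv x y‖ := by
    have h1 : ((1 : ℝ) / 2 ^ 6) ^ 2 ≤ ‖ptv cx cy - ptv x y‖ ^ 2 := by
      rw [hN2] at h48
      have : (2 : ℝ) ^ 48 = 2 ^ 60 * (1 / 2 ^ 6) ^ 2 := by norm_num
      rw [this] at h48
      exact le_of_mul_le_mul_left h48 (by positivity)
    exact (pow_le_pow_iff_left₀ (by positivity) (norm_nonneg _) (by norm_num)).1 h1
  have hN0 : 0 < N := lt_of_lt_of_le (by norm_num) hN48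
  have hinv := inv_val 110 xp xq yp yq (by omega) (by omega) hN0
  rw [← hX, ← hY, ← hNdef] at hinv
  have hval : ((2 : ℂ) ^ 110 / 2 ^ 80) * ((⟨(xp : ℝ) - xq, (yp : ℝ) - yq⟩ : ℂ))⁻¹ =
      (ptv cx cy - ptv x y)⁻¹ := by
    have e1 : (xp : ℝ) - xq = (cx : ℝ) - x := by
      rcases le_total cx x with hle | hle
      · have : xp = 0 := by omega
        rw [this, hxq, Nat.cast_sub hle]
        simp
      · have : xq = 0 := by omega
        rw [this, hxp, Nat.cast_sub hle]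
        simp
    have e2 : (yp : ℝ) - yq = (cy : ℝ) - y := by
      rcases le_total cy y with hle | hle
      · have : yp = 0 := by omega
        rw [this, hyq, Nat.cast_sub hle]
        simp
      · have : yq = 0 := by omega
        rw [this, hyp, Nat.cast_sub hle]
        simp
    rw [e1, e2]
    have e3 : ptv cx cy - ptv x y = (⟨(cx : ℝ) - x, (cy : ℝ) - y⟩ : ℂ) / 2 ^ 30 := by
      have e4 : ((2 : ℂ) ^ 30) = (((2 : ℝ) ^ 30 : ℝ) : ℂ) := by push_cast; rfl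
      rw [e4]
      apply Complex.ext
      · simp only [ptv, Complex.sub_re, Complex.div_ofReal_re]
        ring
      · simp only [ptv, Complex.sub_im, Complex.div_ofReal_im]
        ring
    rw [e3, inv_div]
    rw [show (2 : ℂ) ^ 110 / 2 ^ 80 = 2 ^ 30 by norm_num]
    rfl
  rw [hval] at hinv
  refine NUMC1_core w N ρ _ E (ptv cx cy) (ptv x y) (R / 2 ^ 30) m m' hcard hnear (hE hok1)
    hN2 h6 hinv hρ1 ?_
  have hg := gest_le X Y
  have hgR : (ρ : ℝ) + R + 1 = gest X Y := by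
    have : ρ + R + 1 = gest X Y := by omega
    exact_mod_cast this
  rw [hnorm]
  have h1 : ((gest X Y : ℕ) : ℝ) / 2 ^ 30 ≤ Real.sqrt ((X : ℝ) ^ 2 + (Y : ℝ) ^ 2) / 2 ^ 30 := by gcongr
  refine le_trans ?_ h1
  rw [← hgR]
  have h2 : (1 : ℝ) / 2 ^ 80 ≤ 1 / 2 ^ 30 := by norm_num
  rw [add_div, add_div]
  linarith

theorem ev_okM (cx cy R : ℕ) (l : List Cl) (m : Multiset ℂ) (hm : NearL l m)
    (h : (ev cx cy R l).ok = true) : EvM (ev cx cy R l) (ptv cx cy) (R / 2 ^ 30) m := by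
  induction l generalizing m with
  | nil =>
    have hm0 : m = 0 := hm
    subst hm0
    have e : ev cx cy R [] = ev0 := rfl
    rw [e]
    have hz : (⟨0, 0, 0, 0⟩ : CP).val = 0 := by
      unfold CP.val
      apply Complex.ext <;> simp
    refine ⟨?_, ?_, ?_, ?_, ?_, ?_, ?_, ?_, ?_, ?_⟩
    · simp [ev0, hz]
    · simp [ev0, hz]
    · simp [ev0, hz]
    · simp [ev0, hz]
    · intro b hb
      exact absurd hb (Multiset.notMem_zero b)
    · simp [ev0]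
    · simp [ev0]
    · simp [ev0]
    · simp [ev0]
    · simp [ev0]
  | cons q l ih =>
    obtain ⟨m₁, m₂, rfl, h1, h2⟩ := hm
    have e : ev cx cy R (q :: l) = evq cx cy R q (ev cx cy R l) := rfl
    rw [e] at h ⊢
    exact evq_ok cx cy R q (ev cx cy R l) m₂ m₁ h1 (fun hok => ih m₂ h2 hok) h

/-- correctness of the sums over the zeros `b i` at the point `c` -/
structure EvI {ι : Type} [Fintype ι] (E : Ev) (c : ℂ) (R : ℝ) (b : ι → ℂ) : Prop where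
  s1 : ‖E.S1.val - ∑ i, (c - b i)⁻¹‖ ≤ 2 ^ 23 / 2 ^ 80
  s2 : ‖E.S2.val - ∑ i, (c - b i)⁻¹ ^ 2‖ ≤ 2 ^ 31 / 2 ^ 80
  s3 : ‖E.S3.val - ∑ i, (c - b i)⁻¹ ^ 3‖ ≤ 2 ^ 38 / 2 ^ 80
  s4 : ‖E.S4.val - ∑ i, (c - b i)⁻¹ ^ 4‖ ≤ 2 ^ 45 / 2 ^ 80
  far : ∀ i, R < ‖c - b i‖
  m3 : ∑ i, (‖c - b i‖ - R)⁻¹ ^ 3 ≤ E.M3 / 2 ^ 60
  m4 : ∑ i, (‖c - b i‖ - R)⁻¹ ^ 4 ≤ E.M4 / 2 ^ 60
  m5 : ∑ i, (‖c - b i‖ - R)⁻¹ ^ 5 ≤ E.M5 / 2 ^ 60
  q0 : 0 < E.Q
  q : |Real.log E.Q - (2 * Real.log ‖(PP b).eval c‖ + 60000 * Real.log 2)| ≤ 1 / 2 ^ 60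

private lemma NUMC1_card : ∀ (l : List Cl) (m : Multiset ℂ), NearL l m → m.card = (l.map Cl.w).sum
  | [], m, h => by
    have hm0 : m = 0 := h
    rw [hm0]
    rfl
  | q :: l, m, h => by
    obtain ⟨m₁, m₂, rfl, h1, h2⟩ := h
    rw [Multiset.card_add, h1.1, NUMC1_card l m₂ h2, List.map_cons, List.sum_cons]

theorem ev_ok {ι : Type} [Fintype ι] (b : ι → ℂ) (hb : Near b) (cx cy R : ℕ)
    (h : (ev cx cy R clusters).ok = true) :
    EvI (ev cx cy R clusters) (ptv cx cy) (R / 2 ^ 30) b := by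
  have hM := ev_okM cx cy R clusters (Finset.univ.val.map b) hb h
  have hcard : (Finset.univ.val.map b).card = 1000 := by
    rw [NUMC1_card clusters _ hb]
    rfl
  obtain ⟨hs1, hs2, hs3, hs4, hfar, hm3, hm4, hm5, hq0, hq⟩ := hM
  rw [hcard] at hs1 hs2 hs3 hs4 hq
  have hsC : ∀ g : ℂ → ℂ, ((Finset.univ.val.map b).map g).sum = ∑ i, g (b i) := by
    intro g
    rw [Multiset.map_map]
    rfl
  have hsR : ∀ g : ℂ → ℝ, ((Finset.univ.val.map b).map g).sum = ∑ i, g (b i) := by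
    intro g
    rw [Multiset.map_map]
    rfl
  rw [hsC] at hs1 hs2 hs3 hs4
  rw [hsR] at hm3 hm4 hm5 hq
  have hfar' : ∀ i, (R : ℝ) / 2 ^ 30 < ‖ptv cx cy - b i‖ := fun i =>
    hfar (b i) (Multiset.mem_map_of_mem b (Finset.mem_univ_val i))
  refine ⟨hs1.trans ?_, hs2.trans ?_, hs3.trans ?_, hs4.trans ?_, hfar', hm3, hm4, hm5, hq0, ?_⟩
  · norm_num
  · norm_num
  · norm_num
  · norm_num
  · have hlog : ∑ i, (2 * Real.log ‖ptv cx cy - b i‖ + 60 * Real.log 2) =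
        2 * Real.log ‖(PP b).eval (ptv cx cy)‖ + 60000 * Real.log 2 := by
      rw [Finset.sum_add_distrib, ← Finset.mul_sum, Finset.sum_const]
      have h1 : (Finset.univ : Finset ι).card = 1000 := by
        rw [← hcard, Multiset.card_map]
        rfl
      rw [h1]
      unfold PP
      rw [Polynomial.eval_prod, norm_prod, Real.log_prod]
      · simp only [Polynomial.eval_sub, Polynomial.eval_X, Polynomial.eval_C, nsmul_eq_mul]
        push_cast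
        ring
      · intro i _
        rw [Polynomial.eval_sub, Polynomial.eval_X, Polynomial.eval_C]
        have h2 : 0 < ‖ptv cx cy - b i‖ := lt_of_le_of_lt (by positivity) (hfar' i)
        exact h2.ne'
    rw [← hlog]
    refine hq.trans ?_
    norm_num

/-- correctness of the data related to `z` at the point `c` -/
structure ZvI (Z : Zv) (c : ℂ) (R : ℝ) (z : ℂ) : Prop where
  v1 : ‖Z.v.val - (c - z)⁻¹‖ ≤ 2 ^ 41 / 2 ^ 80
  v2 : ‖Z.v2.val - (c - z)⁻¹ ^ 2‖ ≤ 2 ^ 50 / 2 ^ 80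
  v3 : ‖Z.v3.val - (c - z)⁻¹ ^ 3‖ ≤ 2 ^ 58 / 2 ^ 80
  v4 : ‖(CP.mul Z.v2 Z.v2).val - (c - z)⁻¹ ^ 4‖ ≤ 80 * 2 ^ 60 / 2 ^ 80
  rho0 : 0 < Z.ρ
  rho : (Z.ρ : ℝ) / 2 ^ 30 ≤ ‖c - z‖ - R
  n0 : 0 < Z.N
  n : |Real.log Z.N - (2 * Real.log ‖c - z‖ + 160 * Real.log 2)| ≤ 1 / 2 ^ 46

private theorem numc2_sub (a b : ℕ) :
    ((a - b : ℕ) : ℝ) - ((b - a : ℕ) : ℝ) = (a : ℝ) - b := by
  rcases le_total a b with h | h
  · rw [Nat.sub_eq_zero_of_le h, Nat.cast_sub h]; push_cast; ring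
  · rw [Nat.sub_eq_zero_of_le h, Nat.cast_sub h]; push_cast; ring

private theorem numc2_add (a b : ℕ) :
    (((a - b : ℕ) : ℝ) + ((b - a : ℕ) : ℝ)) ^ 2 = ((a : ℝ) - b) ^ 2 := by
  rcases le_total a b with h | h
  · rw [Nat.sub_eq_zero_of_le h, Nat.cast_sub h]; push_cast; ring
  · rw [Nat.sub_eq_zero_of_le h, Nat.cast_sub h]; push_cast; ring

private theorem numc2_or (a b : ℕ) : a - b = 0 ∨ b - a = 0 := by omega

private theorem numc2_unf1 (cx cy R : ℕ) : zv cx cy R =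
    zv0 R (cx <<< 50 - zX) (zX - cx <<< 50) (cy <<< 50 - zY) (zY - cy <<< 50) := by
  unfold zv
  generalize zX = a
  generalize zY = b
  rfl

private theorem numc2_unf0 (R xp xq yp yq : ℕ) : zv0 R xp xq yp yq =
    ⟨(xp + xq) * (xp + xq) + (yp + yq) * (yp + yq),
      (gest (xp + xq) (yp + yq) >>> 50) - (R + 1),
      inv 160 xp xq yp yq ((xp + xq) * (xp + xq) + (yp + yq) * (yp + yq)),
      CP.mul (inv 160 xp xq yp yq ((xp + xq) * (xp + xq) + (yp + yq) * (yp + yq)))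
        (inv 160 xp xq yp yq ((xp + xq) * (xp + xq) + (yp + yq) * (yp + yq))),
      CP.mul (CP.mul (inv 160 xp xq yp yq ((xp + xq) * (xp + xq) + (yp + yq) * (yp + yq)))
        (inv 160 xp xq yp yq ((xp + xq) * (xp + xq) + (yp + yq) * (yp + yq))))
        (inv 160 xp xq yp yq ((xp + xq) * (xp + xq) + (yp + yq) * (yp + yq))),
      and (Nat.ble 22300745198530623141535718272648361505980416
        ((xp + xq) * (xp + xq) + (yp + yq) * (yp + yq)))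
        (Nat.ble 1 ((gest (xp + xq) (yp + yq) >>> 50) - (R + 1)))⟩ := rfl

private theorem numc2_sq (X Y a b xp xq yp yq : ℝ) (hx2 : (xp + xq) ^ 2 = (X - a) ^ 2)
    (hy2 : (yp + yq) ^ 2 = (Y - b) ^ 2) :
    (X - a) * (X - a) + (Y - b) * (Y - b) = (xp + xq) * (xp + xq) + (yp + yq) * (yp + yq) := by
  linear_combination -hx2 - hy2

/-- the perturbation of the inverse -/
private theorem numc2_inv (a b : ℂ) (ha : 1 / 2 ^ 8 ≤ ‖a‖) (hab : ‖a - b‖ ≤ 1 / 2 ^ 56) :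
    ‖a⁻¹ - b⁻¹‖ ≤ (2 ^ 40 + 1) / 2 ^ 80 ∧ ‖b⁻¹‖ ≤ 2 ^ 8 + 1 / 2 ^ 30 := by
  have hb : 1 / 2 ^ 8 - 1 / 2 ^ 56 ≤ ‖b‖ := by
    have h1 : ‖a‖ ≤ ‖a - b‖ + ‖b‖ := by
      have := norm_add_le (a - b) b
      simpa using this
    linarith
  have ha0 : 0 < ‖a‖ := by
    have : (0 : ℝ) < 1 / 2 ^ 8 := by positivity
    linarith
  have hb0 : 0 < ‖b‖ := by
    have : (0 : ℝ) < 1 / 2 ^ 8 - 1 / 2 ^ 56 := by norm_num
    linarith
  have ha1 : a ≠ 0 := norm_pos_iff.mp ha0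
  have hb1 : b ≠ 0 := norm_pos_iff.mp hb0
  have hinva : ‖a‖⁻¹ ≤ 2 ^ 8 := by
    have := inv_anti₀ (by positivity : (0 : ℝ) < 1 / 2 ^ 8) ha
    refine this.trans (le_of_eq ?_)
    norm_num
  have hinvb : ‖b‖⁻¹ ≤ 2 ^ 8 + 1 / 2 ^ 39 := by
    have := inv_anti₀ (by norm_num : (0 : ℝ) < 1 / 2 ^ 8 - 1 / 2 ^ 56) hb
    refine this.trans ?_
    norm_num
  refine ⟨?_, ?_⟩
  · have e : a⁻¹ - b⁻¹ = -(a - b) * a⁻¹ * b⁻¹ := by
      field_simp
      ring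
    rw [e, norm_mul, norm_mul, norm_neg, norm_inv, norm_inv]
    have hp : ‖a - b‖ * ‖a‖⁻¹ * ‖b‖⁻¹ ≤ (1 / 2 ^ 56) * 2 ^ 8 * (2 ^ 8 + 1 / 2 ^ 39) := by
      have h1 : 0 ≤ ‖a‖⁻¹ := inv_nonneg.mpr ha0.le
      have h2 : 0 ≤ ‖b‖⁻¹ := inv_nonneg.mpr hb0.le
      gcongr
    refine hp.trans ?_
    norm_num
  · rw [norm_inv]
    refine hinvb.trans ?_
    norm_num

/-- the perturbation of the logarithm -/
private theorem numc2_log (x y : ℝ) (hx : 1 / 2 ^ 8 ≤ x) (hxy : |x - y| ≤ 1 / 2 ^ 56) :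
    |2 * Real.log x - 2 * Real.log y| ≤ 1 / 2 ^ 46 := by
  have h1 := abs_le.mp hxy
  have hy : 1 / 2 ^ 9 ≤ y := by
    have : (1 : ℝ) / 2 ^ 9 ≤ 1 / 2 ^ 8 - 1 / 2 ^ 56 := by norm_num
    linarith [h1.2]
  have hy' : 1 / 2 ^ 8 - 1 / 2 ^ 56 ≤ y := by linarith [h1.2]
  have hx0 : 0 < x := lt_of_lt_of_le (by positivity) hx
  have hy0 : 0 < y := lt_of_lt_of_le (by positivity) hy
  have a1 : Real.log x - Real.log y ≤ (x - y) / y := by
    rw [← Real.log_div hx0.ne' hy0.ne']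
    refine (Real.log_le_sub_one_of_pos (div_pos hx0 hy0)).trans (le_of_eq ?_)
    field_simp
  have a2 : Real.log y - Real.log x ≤ (y - x) / x := by
    rw [← Real.log_div hy0.ne' hx0.ne']
    refine (Real.log_le_sub_one_of_pos (div_pos hy0 hx0)).trans (le_of_eq ?_)
    field_simp
  have b1 : (x - y) / y ≤ 1 / 2 ^ 47 := by
    rw [div_le_iff₀ hy0]
    have : (1 : ℝ) / 2 ^ 56 ≤ 1 / 2 ^ 47 * (1 / 2 ^ 9) := by norm_num
    nlinarith [h1.2, h1.1]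
  have b2 : (y - x) / x ≤ 1 / 2 ^ 47 := by
    rw [div_le_iff₀ hx0]
    have : (1 : ℝ) / 2 ^ 56 ≤ 1 / 2 ^ 47 * (1 / 2 ^ 8) := by norm_num
    nlinarith [h1.2, h1.1]
  rw [abs_le]
  have e : (1 : ℝ) / 2 ^ 46 = 2 * (1 / 2 ^ 47) := by norm_num
  constructor
  · rw [e]; linarith
  · rw [e]; linarith

/-- the errors of the powers -/
private theorem numc2_pow (v v2 : CP) (w : ℂ) (hw : ‖w‖ ≤ 2 ^ 8 + 1 / 2 ^ 30)
    (hv : ‖v.val - w‖ ≤ (2 ^ 40 + 3) / 2 ^ 80) (hv2 : v2 = CP.mul v v) :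
    ‖v2.val - w ^ 2‖ ≤ (2 ^ 49 + 2 ^ 13) / 2 ^ 80 ∧
    ‖(CP.mul v2 v).val - w ^ 3‖ ≤ 2 ^ 58 / 2 ^ 80 ∧
    ‖(CP.mul v2 v2).val - w ^ 4‖ ≤ 80 * 2 ^ 60 / 2 ^ 80 := by
  subst hv2
  have hvn : ‖v.val‖ ≤ 2 ^ 8 + 1 / 2 ^ 29 := by
    have h1 : ‖v.val‖ ≤ ‖v.val - w‖ + ‖w‖ := by
      have := norm_add_le (v.val - w) w
      simpa using this
    have h2 : ((2 : ℝ) ^ 40 + 3) / 2 ^ 80 + (2 ^ 8 + 1 / 2 ^ 30) ≤ 2 ^ 8 + 1 / 2 ^ 29 := by norm_num
    linarith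
  have h2 : ‖(CP.mul v v).val - w ^ 2‖ ≤ (2 ^ 49 + 2 ^ 13) / 2 ^ 80 := by
    have e : (CP.mul v v).val - w ^ 2 =
        ((CP.mul v v).val - v.val * v.val) + (v.val - w) * (v.val + w) := by ring
    rw [e]
    refine (norm_add_le _ _).trans ?_
    rw [norm_mul]
    have h3 : ‖v.val + w‖ ≤ (2 ^ 8 + 1 / 2 ^ 29) + (2 ^ 8 + 1 / 2 ^ 30) :=
      (norm_add_le _ _).trans (add_le_add hvn hw)
    have h4 := CP.val_mul v v
    have h5 : ‖v.val - w‖ * ‖v.val + w‖ ≤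
        (2 ^ 40 + 3) / 2 ^ 80 * ((2 ^ 8 + 1 / 2 ^ 29) + (2 ^ 8 + 1 / 2 ^ 30)) := by
      gcongr
    refine (add_le_add h4 h5).trans ?_
    norm_num
  have hw2 : ‖w ^ 2‖ ≤ 2 ^ 16 + 1 := by
    rw [norm_pow]
    have : ‖w‖ ^ 2 ≤ (2 ^ 8 + 1 / 2 ^ 30) ^ 2 := by gcongr
    refine this.trans ?_
    norm_num
  have hv2n : ‖(CP.mul v v).val‖ ≤ 2 ^ 16 + 2 := by
    have h1 : ‖(CP.mul v v).val‖ ≤ ‖(CP.mul v v).val - w ^ 2‖ + ‖w ^ 2‖ := by
      have := norm_add_le ((CP.mul v v).val - w ^ 2) (w ^ 2)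
      simpa using this
    have h3 : ((2 : ℝ) ^ 49 + 2 ^ 13) / 2 ^ 80 + (2 ^ 16 + 1) ≤ 2 ^ 16 + 2 := by norm_num
    linarith
  refine ⟨h2, ?_, ?_⟩
  · have e : (CP.mul (CP.mul v v) v).val - w ^ 3 =
        ((CP.mul (CP.mul v v) v).val - (CP.mul v v).val * v.val) +
        (((CP.mul v v).val - w ^ 2) * v.val + w ^ 2 * (v.val - w)) := by ring
    rw [e]
    refine (norm_add_le _ _).trans ?_
    have h4 := CP.val_mul (CP.mul v v) v
    have h5 : ‖((CP.mul v v).val - w ^ 2) * v.val + w ^ 2 * (v.val - w)‖ ≤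
        (2 ^ 49 + 2 ^ 13) / 2 ^ 80 * (2 ^ 8 + 1 / 2 ^ 29) +
        (2 ^ 16 + 1) * ((2 ^ 40 + 3) / 2 ^ 80) := by
      refine (norm_add_le _ _).trans ?_
      rw [norm_mul, norm_mul]
      gcongr
    refine (add_le_add h4 h5).trans ?_
    norm_num
  · have e : (CP.mul (CP.mul v v) (CP.mul v v)).val - w ^ 4 =
        ((CP.mul (CP.mul v v) (CP.mul v v)).val - (CP.mul v v).val * (CP.mul v v).val) +
        ((CP.mul v v).val - w ^ 2) * ((CP.mul v v).val + w ^ 2) := by ring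
    rw [e]
    refine (norm_add_le _ _).trans ?_
    rw [norm_mul]
    have h4 := CP.val_mul (CP.mul v v) (CP.mul v v)
    have h3 : ‖(CP.mul v v).val + w ^ 2‖ ≤ (2 ^ 16 + 2) + (2 ^ 16 + 1) :=
      (norm_add_le _ _).trans (add_le_add hv2n hw2)
    have h5 : ‖(CP.mul v v).val - w ^ 2‖ * ‖(CP.mul v v).val + w ^ 2‖ ≤
        (2 ^ 49 + 2 ^ 13) / 2 ^ 80 * ((2 ^ 16 + 2) + (2 ^ 16 + 1)) := by
      gcongr
    refine (add_le_add h4 h5).trans ?_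
    norm_num

theorem zv_ok (z : ℂ) (hz : ‖z - zcv‖ ≤ 1 / 2 ^ 56) (cx cy R : ℕ)
    (h : (zv cx cy R).ok = true) : ZvI (zv cx cy R) (ptv cx cy) (R / 2 ^ 30) z := by
  obtain ⟨X, hX⟩ : ∃ X, X = cx <<< 50 := ⟨_, rfl⟩
  obtain ⟨Y, hY⟩ : ∃ Y, Y = cy <<< 50 := ⟨_, rfl⟩
  have hXr : (X : ℝ) = cx * 2 ^ 50 := by rw [hX, Nat.shiftLeft_eq]; push_cast; ring
  have hYr : (Y : ℝ) = cy * 2 ^ 50 := by rw [hY, Nat.shiftLeft_eq]; push_cast; ring
  obtain ⟨xp, hxp⟩ : ∃ a, a = X - zX := ⟨_, rfl⟩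
  obtain ⟨xq, hxq⟩ : ∃ a, a = zX - X := ⟨_, rfl⟩
  obtain ⟨yp, hyp⟩ : ∃ a, a = Y - zY := ⟨_, rfl⟩
  obtain ⟨yq, hyq⟩ : ∃ a, a = zY - Y := ⟨_, rfl⟩
  obtain ⟨N, hN⟩ : ∃ N, N = (xp + xq) * (xp + xq) + (yp + yq) * (yp + yq) := ⟨_, rfl⟩
  obtain ⟨ρ, hρ⟩ : ∃ ρ, ρ = (gest (xp + xq) (yp + yq) >>> 50) - (R + 1) := ⟨_, rfl⟩
  obtain ⟨v, hv⟩ : ∃ v, v = inv 160 xp xq yp yq N := ⟨_, rfl⟩
  have hZ : zv cx cy R = ⟨N, ρ, v, CP.mul v v, CP.mul (CP.mul v v) v,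
      and (Nat.ble 22300745198530623141535718272648361505980416 N) (Nat.ble 1 ρ)⟩ := by
    rw [numc2_unf1, ← hX, ← hY, ← hxp, ← hxq, ← hyp, ← hyq, numc2_unf0, ← hN, ← hρ, ← hv]
  rw [hZ] at h ⊢
  have h' : Nat.ble 22300745198530623141535718272648361505980416 N = true ∧ Nat.ble 1 ρ = true := by
    simpa using h
  have hN1 : 22300745198530623141535718272648361505980416 ≤ N := Nat.le_of_ble_eq_true h'.1
  have hρ1 : 1 ≤ ρ := Nat.le_of_ble_eq_true h'.2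
  have hx : (xp : ℝ) - xq = (X : ℝ) - zX := by rw [hxp, hxq]; exact numc2_sub _ _
  have hy : (yp : ℝ) - yq = (Y : ℝ) - zY := by rw [hyp, hyq]; exact numc2_sub _ _
  have hx2 : ((xp : ℝ) + xq) ^ 2 = ((X : ℝ) - zX) ^ 2 := by rw [hxp, hxq]; exact numc2_add _ _
  have hy2 : ((yp : ℝ) + yq) ^ 2 = ((Y : ℝ) - zY) ^ 2 := by rw [hyp, hyq]; exact numc2_add _ _
  obtain ⟨D, hD⟩ : ∃ D : ℂ, D = ⟨(xp : ℝ) - xq, (yp : ℝ) - yq⟩ := ⟨_, rfl⟩
  have hDn : ‖D‖ ^ 2 = N := by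
    rw [← Complex.normSq_eq_norm_sq, Complex.normSq_apply, hD]
    simp only
    rw [hN]
    push_cast
    rw [hx, hy]
    exact numc2_sq _ _ _ _ _ _ _ _ hx2 hy2
  have hDc : ptv cx cy - zcv = D / 2 ^ 80 := by
    have e : (2 : ℂ) ^ 80 = ((2 ^ 80 : ℝ) : ℂ) := by push_cast; ring
    rw [e, hD]
    apply Complex.ext
    · rw [Complex.div_ofReal_re]
      simp only [ptv, zcv, Complex.sub_re]
      rw [hx, hXr]
      ring
    · rw [Complex.div_ofReal_im]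
      simp only [ptv, zcv, Complex.sub_im]
      rw [hy, hYr]
      ring
  have hD72 : (2 : ℝ) ^ 72 ≤ ‖D‖ := by
    have h1 : ((2 : ℝ) ^ 72) ^ 2 ≤ ‖D‖ ^ 2 := by
      rw [hDn]
      have : ((22300745198530623141535718272648361505980416 : ℕ) : ℝ) ≤ N := by exact_mod_cast hN1
      refine le_trans (le_of_eq ?_) this
      norm_num
    exact le_of_sq_le_sq h1 (norm_nonneg _)
  have hD0 : 0 < ‖D‖ := lt_of_lt_of_le (by positivity) hD72
  have hac : ‖ptv cx cy - zcv‖ = ‖D‖ / 2 ^ 80 := by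
    rw [hDc, norm_div]
    congr 1
    rw [norm_pow]
    norm_num
  have ha : 1 / 2 ^ 8 ≤ ‖ptv cx cy - zcv‖ := by
    rw [hac, le_div_iff₀ (by positivity)]
    refine le_trans (le_of_eq ?_) hD72
    norm_num
  have hab : ‖(ptv cx cy - zcv) - (ptv cx cy - z)‖ ≤ 1 / 2 ^ 56 := by
    refine le_trans (le_of_eq ?_) hz
    congr 1
    ring
  obtain ⟨hinv, hw⟩ := numc2_inv _ _ ha hab
  have hNpos : 0 < (xp + xq) * (xp + xq) + (yp + yq) * (yp + yq) := by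
    rw [← hN]; omega
  have hv1 : ‖v.val - (ptv cx cy - z)⁻¹‖ ≤ (2 ^ 40 + 3) / 2 ^ 80 := by
    have h1 := inv_val 160 xp xq yp yq (by rw [hxp, hxq]; exact numc2_or _ _)
      (by rw [hyp, hyq]; exact numc2_or _ _) hNpos
    rw [← hN, ← hv, ← hD] at h1
    have e1 : ((2 : ℂ) ^ 160 / 2 ^ 80) * D⁻¹ = (ptv cx cy - zcv)⁻¹ := by
      rw [hDc, inv_div]
      have : (2 : ℂ) ^ 160 / 2 ^ 80 = 2 ^ 80 := by norm_num
      rw [this, div_eq_mul_inv]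
    rw [e1] at h1
    have e2 : v.val - (ptv cx cy - z)⁻¹ = (v.val - (ptv cx cy - zcv)⁻¹) +
        ((ptv cx cy - zcv)⁻¹ - (ptv cx cy - z)⁻¹) := by ring
    rw [e2]
    refine (norm_add_le _ _).trans ((add_le_add h1 hinv).trans (le_of_eq ?_))
    ring
  obtain ⟨p2, p3, p4⟩ := numc2_pow v (CP.mul v v) _ hw hv1 rfl
  refine ⟨?_, ?_, p3, p4, hρ1, ?_, ?_, ?_⟩
  · refine hv1.trans ?_
    norm_num
  · refine p2.trans ?_
    norm_num
  · -- the radius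
    have g1 := gest_le (xp + xq) (yp + yq)
    have g2 : Real.sqrt ((((xp + xq : ℕ)) : ℝ) ^ 2 + (((yp + yq : ℕ)) : ℝ) ^ 2) = ‖D‖ := by
      rw [Real.sqrt_eq_iff_mul_self_eq_of_pos hD0, ← sq, hDn, hN]
      push_cast
      ring
    rw [g2] at g1
    have g3 : ((gest (xp + xq) (yp + yq) >>> 50 : ℕ) : ℝ) ≤ ‖D‖ / 2 ^ 50 := by
      rw [Nat.shiftRight_eq_div_pow]
      have : (((gest (xp + xq) (yp + yq) / 2 ^ 50 : ℕ)) : ℝ) ≤
          (gest (xp + xq) (yp + yq) : ℝ) / ((2 ^ 50 : ℕ) : ℝ) := Nat.cast_div_le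
      refine this.trans ?_
      rw [Nat.cast_pow, Nat.cast_ofNat]
      gcongr
    have g4 : (ρ : ℝ) = ((gest (xp + xq) (yp + yq) >>> 50 : ℕ) : ℝ) - (R + 1) := by
      have : ρ + (R + 1) = gest (xp + xq) (yp + yq) >>> 50 := by omega
      rw [← this]
      push_cast
      ring
    have g5 : ‖ptv cx cy - zcv‖ ≤ 1 / 2 ^ 56 + ‖ptv cx cy - z‖ := by
      have := norm_add_le ((ptv cx cy - zcv) - (ptv cx cy - z)) (ptv cx cy - z)
      rw [sub_add_cancel] at this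
      linarith
    rw [hac] at g5
    have g6 : (ρ : ℝ) / 2 ^ 30 ≤ (‖D‖ / 2 ^ 50 - (R + 1)) / 2 ^ 30 := by
      rw [g4]; gcongr
    have g7 : (‖D‖ / 2 ^ 50 - (R + 1)) / 2 ^ 30 = ‖D‖ / 2 ^ 80 - R / 2 ^ 30 - 1 / 2 ^ 30 := by
      ring
    have g8 : (1 : ℝ) / 2 ^ 56 ≤ 1 / 2 ^ 30 := by norm_num
    show (ρ : ℝ) / 2 ^ 30 ≤ ‖ptv cx cy - z‖ - R / 2 ^ 30
    linarith
  · show 0 < N
    omega
  · show |Real.log (N : ℝ) - (2 * Real.log ‖ptv cx cy - z‖ + 160 * Real.log 2)| ≤ 1 / 2 ^ 46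
    have e1 : Real.log (N : ℝ) = 2 * Real.log ‖ptv cx cy - zcv‖ + 160 * Real.log 2 := by
      rw [← hDn, hac, Real.log_pow, Real.log_div hD0.ne' (by positivity), Real.log_pow]
      push_cast
      ring
    have e2 := numc2_log ‖ptv cx cy - zcv‖ ‖ptv cx cy - z‖ ha
      ((abs_norm_sub_norm_le _ _).trans hab)
    rw [e1]
    refine le_trans (le_of_eq ?_) e2
    congr 1
    ring

end Pool.Agent.SHD
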