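import Pool.Agent.SHD.NDefs

/-!
The executable checker of a block of the certificate.
-/

set_option autoImplicit false

noncomputable section

namespace Pool.Agent.SHD

/-- a cell of a ray: parameter `s` (unit `2 ^ (-30)`) and radius -/
structure RC where
  s : Nat
  R : Nat

/-- a value cell of the path: centre, radius, exponents for the logarithms -/
structure PC where
  x : Nat
  y : Nat
  R : Nat
  t : Nat
  tz : Nat

/-- The data of a block. `A0 A1`: the interval of `α`, times `2 ^ 30`. `x y`: the centre `wc`, `r` the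
radius `r0` (unit `2 ^ (-30)`), `t tz` the exponents for the logarithms at `wc`; `ux uy vx vy` the
rays, `ru`, `rv` the cells of the rays, `e0`, `e1` the value cells at the ends of the rays (their
centres are not used), `p` the other cells of the path. Coordinates have the offset `2 ^ 36`. -/
structure BD where
  A0 : Nat
  A1 : Nat
  x : Nat
  y : Nat
  r : Nat
  t : Nat
  tz : Nat
  ux : Nat
  uy : Nat
  vx : Nat
  vy : Nat
  e0 : PC
  e1 : PC
  ru : List RC
  rv : List RC
  p : List PC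

/-- `2 ^ 36` -/
def off : Nat := 68719476736

/-- `2 ^ 30` -/
def one30 : Nat := 1073741824

/-- the coordinate `x + (s / 2 ^ 30) (up - uq)` -/
def rpt (x up uq s : Nat) : Nat :=
  Nat.sub (Nat.add x (Nat.shiftRight (Nat.mul s up) 30)) (Nat.shiftRight (Nat.mul s uq) 30)

/-- the cells of a ray: `cell cx cy R` is the check of a cell, `L` an upper bound of `|u|`; the list
continues the cell with the parameter `s` and the radius `R` -/
def rayList (cell : Nat → Nat → Nat → Bool) (L r0 x y xp xq yp yq : Nat) (l : List RC) :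
    (s R : Nat) → Bool :=
  List.rec (fun s _ => Nat.beq s one30)
    (fun q _ ih s R => RC.rec (fun s' R' => and (Nat.ble s s')
      (and (Nat.ble (Nat.add (Nat.shiftRight (Nat.mul L (Nat.sub s' s)) 30)
          (Nat.add 8 (Nat.mul 2 r0))) (Nat.add R R'))
        (and (cell (rpt x xp xq s') (rpt y yp yq s') R') (ih s' R')))) q) l

/-- a whole ray -/
def rayChk (cell : Nat → Nat → Nat → Bool) (r0 x y xp xq yp yq : Nat) (l : List RC) : Bool :=
  List.rec false (fun q l _ => RC.rec (fun s R => and (and (Nat.ble xq x) (Nat.ble yq y))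
    (and (Nat.beq s 0) (and (Nat.ble (Nat.add r0 4) R) (and (cell x y R)
      (rayList cell (mup (Nat.add xp xq) (Nat.add yp yq)) r0 x y xp xq yp yq l 0 R))))) q) l

/-- an upper bound of the distance of two points -/
def dist2 (x y x' y' : Nat) : Nat := mup (adist x x') (adist y y')

/-- the cells of the path; `x`, `y`, `R` is the previous cell, `dx`, `dy`, `Rd` the last one -/
def pathList (cell : Nat → Nat → Nat → Nat → Nat → Bool) (r0 dx dy Rd : Nat) (l : List PC) :
    (x y R : Nat) → Bool :=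
  List.rec (fun x y R => Nat.ble (Nat.add (dist2 x y dx dy) (Nat.mul 2 r0)) (Nat.add R Rd))
    (fun q _ ih x y R => PC.rec (fun x' y' R' t tz =>
      and (Nat.ble (Nat.add (dist2 x y x' y') (Nat.mul 2 r0)) (Nat.add R R'))
        (and (cell x' y' R' t tz) (ih x' y' R'))) q) l

/-- the whole path -/
def pathChk (cell : Nat → Nat → Nat → Nat → Nat → Bool) (r0 cx cy dx dy : Nat) (e0 e1 : PC)
    (l : List PC) : Bool :=
  PC.rec (fun _ _ R0 t0 tz0 => PC.rec (fun _ _ R1 t1 tz1 =>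
    and (cell cx cy R0 t0 tz0) (and (cell dx dy R1 t1 tz1) (pathList cell r0 dx dy R1 l cx cy R0)))
    e1) e0

/-- `Re (u * conj v) < 0` -/
def uvNeg (xp xq yp yq xp' xq' yp' yq' : Nat) : Bool :=
  Nat.ble (Nat.succ (Nat.add (Nat.add (Nat.mul xp xp') (Nat.mul xq xq'))
      (Nat.add (Nat.mul yp yp') (Nat.mul yq yq'))))
    (Nat.add (Nat.add (Nat.mul xp xq') (Nat.mul xq xp')) (Nat.add (Nat.mul yp yq') (Nat.mul yq yp')))

/-- `u ^ 2`, unit `2 ^ (-80)`, `u = ((xp - xq) + i (yp - yq)) / 2 ^ 30` -/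
def usq (xp xq yp yq : Nat) : CP :=
  ⟨Nat.shiftLeft (Nat.add (Nat.add (Nat.mul xp xp) (Nat.mul xq xq)) (Nat.mul 2 (Nat.mul yp yq))) 20,
   Nat.shiftLeft (Nat.add (Nat.add (Nat.mul yp yp) (Nat.mul yq yq)) (Nat.mul 2 (Nat.mul xp xq))) 20,
   Nat.shiftLeft (Nat.mul 2 (Nat.add (Nat.mul xp yp) (Nat.mul xq yq))) 20,
   Nat.shiftLeft (Nat.mul 2 (Nat.add (Nat.mul xp yq) (Nat.mul xq yp))) 20⟩

/-- `|u| ^ 2` for a reduced `u`, unit `2 ^ (-80)` -/
def unsq (X Y : Nat) : Nat := Nat.shiftLeft (Nat.add (Nat.mul X X) (Nat.mul Y Y)) 20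

/-- `u`, unit `2 ^ (-80)` -/
def ucp (xp xq yp yq : Nat) : CP :=
  ⟨Nat.shiftLeft xp 50, Nat.shiftLeft xq 50, Nat.shiftLeft yp 50, Nat.shiftLeft yq 50⟩

/-- the constants of a block, together with the root condition (if `root`) -/
def blkC2 (root : Bool) (A0 A1 r0 t tz : Nat) (Z : Zv) (E : Ev) (k : BC → Bool) : Bool :=
  Zv.rec (fun N ρ v v2 v3 okz => Ev.rec (fun S1 S2 S3 _ _ M4 _ Q ok =>
    and (and ok okz) (and (and (Nat.ble 1 (lg Q t)) (Nat.ble 1 (lg N tz)))
      (and (cond root (root1 r0 (Nat.shiftRight (Nat.add A0 A1) 1) A1 ρ M4 S1 S2 S3 v v2 v3) true)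
        (k ⟨A0, A1, lg Q t, lg N tz, slack A0 r0 ρ M4 (F1 A0 S2 v2) (F2 A0 S3 v3),
          slack A1 r0 ρ M4 (F1 A1 S2 v2) (F2 A1 S3 v3)⟩)))) E) Z

def blkC (root : Bool) (A0 A1 x y r0 t tz : Nat) (k : BC → Bool) : Bool :=
  blkC2 root A0 A1 r0 t tz (zv x y r0) (ev x y r0 clusters) k

/-- the check of the rays and the path, `rc` the check of a ray cell -/
def chk3 (root : Bool) (rcu rcv : Nat → Nat → Nat → Bool) (A0 A1 x y r0 t tz : Nat) (e0 e1 : PC)
    (ru rv : List RC) (p : List PC) (xp xq yp yq xp' xq' yp' yq' : Nat) : Bool :=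
  and (and (Nat.ble (Nat.succ A0) A1) (and (Nat.ble 1 r0) (Nat.ble A1 1073741824000)))
    (and (uvNeg xp xq yp yq xp' xq' yp' yq')
    (and (and (rayChk rcu r0 x y xp xq yp yq ru) (rayChk rcv r0 x y xp' xq' yp' yq' rv))
      (blkC root A0 A1 x y r0 t tz fun C => pathChk (valCell C) r0
        (Nat.sub (Nat.add x xp) xq) (Nat.sub (Nat.add y yp) yq)
        (Nat.sub (Nat.add x xp') xq') (Nat.sub (Nat.add y yp') yq') e0 e1 p)))

def chk2 (A0 A1 x y r0 t tz : Nat) (e0 e1 : PC) (ru rv : List RC) (p : List PC)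
    (xp xq yp yq xp' xq' yp' yq' : Nat) : Bool :=
  chk3 true (rayCell A0 A1 (usq xp xq yp yq) (unsq (Nat.add xp xq) (Nat.add yp yq)))
    (rayCell A0 A1 (usq xp' xq' yp' yq') (unsq (Nat.add xp' xq') (Nat.add yp' yq')))
    A0 A1 x y r0 t tz e0 e1 ru rv p xp xq yp yq xp' xq' yp' yq'

/-- the check of a block -/
def chkBlk (B : BD) : Bool :=
  BD.rec (fun A0 A1 x y r0 t tz ux uy vx vy e0 e1 ru rv p =>
    chk2 A0 A1 x y r0 t tz e0 e1 ru rv p (Nat.sub ux off) (Nat.sub off ux) (Nat.sub uy off)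
      (Nat.sub off uy) (Nat.sub vx off) (Nat.sub off vx) (Nat.sub vy off) (Nat.sub off vy)) B

/-- `u ^ 3` and an upper bound of `|u| ^ 3` -/
def u3 (xp xq yp yq : Nat) : CP := CP.mul (usq xp xq yp yq) (ucp xp xq yp yq)

def un3 (X Y : Nat) : Nat := rsh (Nat.mul (unsq X Y) (mup X Y)) 30

def chk2R (A0 A1 x y r0 t tz : Nat) (e0 e1 : PC) (ru rv : List RC) (p : List PC)
    (xp xq yp yq xp' xq' yp' yq' : Nat) : Bool :=
  chk3 false (ray3Cell A0 A1 (u3 xp xq yp yq) (un3 (Nat.add xp xq) (Nat.add yp yq)))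
    (ray3Cell A0 A1 (u3 xp' xq' yp' yq') (un3 (Nat.add xp' xq') (Nat.add yp' yq')))
    A0 A1 x y r0 t tz e0 e1 ru rv p xp xq yp yq xp' xq' yp' yq'

/-- the check of the region around the double saddle point: for all `α` in the interval and all
points `w₀` in the ball `wc, r0` with `f w₀ = 0` the path is below the level of `w₀` and
`Re (u ^ 3 f'') < 0` on the rays -/
def chkReg (B : BD) : Bool :=
  BD.rec (fun A0 A1 x y r0 t tz ux uy vx vy e0 e1 ru rv p =>
    chk2R A0 A1 x y r0 t tz e0 e1 ru rv p (Nat.sub ux off) (Nat.sub off ux) (Nat.sub uy off)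
      (Nat.sub off uy) (Nat.sub vx off) (Nat.sub off vx) (Nat.sub vy off) (Nat.sub off vy)) B

end Pool.Agent.SHD
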