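import Mathlib
import Pool.Agent.SHD.NC
import Pool.Agent.SHD.ExpRay

set_option autoImplicit false

/-!
Bounds for `f` and its derivatives in a ball and the Taylor estimates (module NUMD).
-/

noncomputable section

namespace Pool.Agent.SHD

open Polynomial Set

variable {ι : Type} [Fintype ι]

/-- `f''''` -/
def ff4 (b : ι → ℂ) (z : ℂ) (α : ℝ) (w : ℂ) : ℂ :=
  24 * ∑ i, ((w - b i)⁻¹) ^ 5 - 24 * α * ((w - z)⁻¹) ^ 5

private lemma numd1_inv4 (c w : ℂ) (h : w ≠ c) :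
    HasDerivAt (fun w : ℂ => ((w - c)⁻¹) ^ 4) (-(4 * ((w - c)⁻¹) ^ 5)) w := by
  have h0 : w - c ≠ 0 := sub_ne_zero.2 h
  have h1 := (((hasDerivAt_id w).sub_const c).inv h0).pow 4
  refine h1.congr_deriv ?_
  have e : ((fun x : ℂ => id x - c)⁻¹) w = (w - c)⁻¹ := rfl
  rw [e, show (4 : ℕ) - 1 = 3 from rfl, id_eq]
  push_cast
  rw [neg_div, one_div, ← inv_pow]
  ring

theorem ff3_hasDeriv (b : ι → ℂ) (z : ℂ) (α : ℝ) (w : ℂ) (hw : ∀ i, w ≠ b i) (hz : w ≠ z) :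
    HasDerivAt (ff3 b z α) (ff4 b z α w) w := by
  have h1 : HasDerivAt (fun w : ℂ => ∑ i, ((w - b i)⁻¹) ^ 4) (∑ i, -(4 * ((w - b i)⁻¹) ^ 5)) w :=
    HasDerivAt.fun_sum fun i _ => numd1_inv4 (b i) w (hw i)
  have h2 := ((h1.const_mul 6).neg).add ((numd1_inv4 z w hz).const_mul (6 * (α : ℂ)))
  refine h2.congr_deriv ?_
  unfold ff4
  rw [Finset.sum_neg_distrib, ← Finset.mul_sum]
  ring

/-- the logarithm of the level function -/
def Lam (b : ι → ℂ) (z : ℂ) (α : ℝ) (w : ℂ) : ℝ :=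
  Real.log ‖(PP b).eval w‖ - α * Real.log ‖w - z‖

private lemma numd1_PP_ne (b : ι → ℂ) (w : ℂ) (hw : ∀ i, w ≠ b i) : (PP b).eval w ≠ 0 := by
  unfold PP
  rw [eval_prod]
  refine Finset.prod_ne_zero_iff.2 fun i _ => ?_
  rw [eval_sub, eval_X, eval_C]
  exact sub_ne_zero.2 (hw i)

private lemma numd1_log_lev (b : ι → ℂ) (z : ℂ) (α : ℝ) (w : ℂ) (hw : ∀ i, w ≠ b i) (hz : w ≠ z) :
    Real.log (lev b z α w) = Lam b z α w ∧ 0 < lev b z α w := by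
  have h1 : 0 < ‖(PP b).eval w‖ := norm_pos_iff.2 (numd1_PP_ne b w hw)
  have h2 : 0 < ‖w - z‖ := norm_pos_iff.2 (sub_ne_zero.2 hz)
  have h3 : 0 < ‖w - z‖ ^ α := Real.rpow_pos_of_pos h2 α
  unfold lev Lam
  refine ⟨?_, by positivity⟩
  rw [Real.log_div h1.ne' h3.ne', Real.log_rpow h2]

theorem lev_lt_of_Lam (b : ι → ℂ) (z : ℂ) (α : ℝ) (w w' : ℂ) (hw : ∀ i, w ≠ b i) (hz : w ≠ z)
    (hw' : ∀ i, w' ≠ b i) (hz' : w' ≠ z) (h : Lam b z α w < Lam b z α w') :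
    lev b z α w < lev b z α w' := by
  obtain ⟨e1, p1⟩ := numd1_log_lev b z α w hw hz
  obtain ⟨e2, p2⟩ := numd1_log_lev b z α w' hw' hz'
  rw [← e1, ← e2] at h
  exact (Real.log_lt_log_iff p1 p2).1 h

/-! general Taylor estimates -/

theorem tay1 (f f1 : ℂ → ℂ) (c : ℂ) (R M : ℝ)
    (hf : ∀ w ∈ Metric.closedBall c R, HasDerivAt f (f1 w) w)
    (hM : ∀ w ∈ Metric.closedBall c R, ‖f1 w‖ ≤ M) (w : ℂ) (hw : w ∈ Metric.closedBall c R) :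
    ‖f w - f c‖ ≤ M * ‖w - c‖ := by
  have hR : 0 ≤ R := dist_nonneg.trans (Metric.mem_closedBall.1 hw)
  exact (convex_closedBall c R).norm_image_sub_le_of_norm_hasDerivWithin_le
    (fun x hx => (hf x hx).hasDerivWithinAt) hM (Metric.mem_closedBall_self hR) hw

/-- a function on the unit interval with a bound for the derivative -/
private lemma numd1_bound {E : Type*} [NormedAddCommGroup E] [NormedSpace ℝ E] (F F' : ℝ → E) (B B' : ℝ → ℝ)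
    (hF : ∀ t ∈ Icc (0 : ℝ) 1, HasDerivAt F (F' t) t) (hB : ∀ t, HasDerivAt B (B' t) t)
    (h0 : F 0 = 0) (hB0 : 0 ≤ B 0) (hb : ∀ t ∈ Icc (0 : ℝ) 1, ‖F' t‖ ≤ B' t) : ‖F 1‖ ≤ B 1 := by
  have h := image_norm_le_of_norm_deriv_right_le_deriv_boundary (f := F) (f' := F') (a := 0) (b := 1)
    (B := B) (B' := B')
    (fun t ht => (hF t ht).continuousAt.continuousWithinAt)
    (fun t ht => (hF t ⟨ht.1, ht.2.le⟩).hasDerivWithinAt)
    (by rw [h0, norm_zero]; exact hB0) hB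
    (fun t ht => hb t ⟨ht.1, ht.2.le⟩)
  exact h ⟨zero_le_one, le_rfl⟩

private lemma numd1_seg {c w : ℂ} {R : ℝ} (hw : w ∈ Metric.closedBall c R) {t : ℝ} (ht : t ∈ Icc (0 : ℝ) 1) :
    c + t * (w - c) ∈ Metric.closedBall c R := by
  rw [Metric.mem_closedBall, dist_eq_norm] at hw ⊢
  have e : c + t * (w - c) - c = t * (w - c) := by ring
  rw [e, norm_mul, Complex.norm_real, Real.norm_of_nonneg ht.1]
  have h1 : 0 ≤ ‖w - c‖ := norm_nonneg _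
  nlinarith [ht.2]

private lemma numd1_line (c ξ : ℂ) (t : ℝ) : HasDerivAt (fun s : ℝ => c + s * ξ) ξ t := by
  have h1 : HasDerivAt (fun s : ℝ => (s : ℂ)) 1 t := Complex.ofRealCLM.hasDerivAt
  have h2 := (h1.mul_const ξ).const_add c
  rwa [one_mul] at h2

theorem tay2 (f f1 f2 : ℂ → ℂ) (c : ℂ) (R M : ℝ)
    (hf : ∀ w ∈ Metric.closedBall c R, HasDerivAt f (f1 w) w)
    (hf1 : ∀ w ∈ Metric.closedBall c R, HasDerivAt f1 (f2 w) w)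
    (hM : ∀ w ∈ Metric.closedBall c R, ‖f2 w‖ ≤ M) (w : ℂ) (hw : w ∈ Metric.closedBall c R) :
    ‖f w - f c - f1 c * (w - c)‖ ≤ M * ‖w - c‖ ^ 2 / 2 := by
  have hF : ∀ t ∈ Icc (0 : ℝ) 1, HasDerivAt (fun s : ℝ => f (c + s * (w - c)) - f c - s * (f1 c * (w - c)))
      (f1 (c + t * (w - c)) * (w - c) - f1 c * (w - c)) t := by
    intro t ht
    have h1 := (hf _ (numd1_seg hw ht)).comp t (numd1_line c (w - c) t)
    have h2 := (numd1_line 0 (f1 c * (w - c)) t)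
    simp only [zero_add] at h2
    exact (h1.sub_const (f c)).sub h2
  have h := numd1_bound (fun s : ℝ => f (c + s * (w - c)) - f c - s * (f1 c * (w - c)))
    (fun t => f1 (c + t * (w - c)) * (w - c) - f1 c * (w - c))
    (fun t => M * ‖w - c‖ ^ 2 * t ^ 2 / 2) (fun t => M * ‖w - c‖ ^ 2 * t) hF ?_ ?_ ?_ ?_
  · simp only [Complex.ofReal_one, one_mul, one_pow, mul_one] at h
    have e : c + (w - c) = w := by ring
    rwa [e] at h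
  · intro t
    have := ((hasDerivAt_pow 2 t).const_mul (M * ‖w - c‖ ^ 2)).div_const 2
    refine this.congr_deriv ?_
    simp
    ring
  · simp
  · simp
  · intro t ht
    have h1 := tay1 f1 f2 c R M hf1 hM _ (numd1_seg hw ht)
    have e : c + t * (w - c) - c = t * (w - c) := by ring
    rw [e, norm_mul, Complex.norm_real, Real.norm_of_nonneg ht.1] at h1
    rw [← sub_mul, norm_mul]
    calc ‖f1 (c + t * (w - c)) - f1 c‖ * ‖w - c‖ ≤ (M * (t * ‖w - c‖)) * ‖w - c‖ :=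
          mul_le_mul_of_nonneg_right h1 (norm_nonneg _)
      _ = _ := by ring

private lemma numd1_log (c ξ b : ℂ) (t : ℝ) (h : c + t * ξ ≠ b) :
    HasDerivAt (fun s : ℝ => Real.log ‖c + s * ξ - b‖) ((c + t * ξ - b)⁻¹ * ξ).re t := by
  have h0 : c + t * ξ - b ≠ 0 := sub_ne_zero.2 h
  have hre : HasDerivAt (fun s : ℝ => (c + s * ξ - b).re) ξ.re t := by
    have := Complex.reCLM.hasFDerivAt.comp_hasDerivAt t ((numd1_line c ξ t).sub_const b)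
    exact this
  have him : HasDerivAt (fun s : ℝ => (c + s * ξ - b).im) ξ.im t := by
    have := Complex.imCLM.hasFDerivAt.comp_hasDerivAt t ((numd1_line c ξ t).sub_const b)
    exact this
  have hsq : HasDerivAt (fun s : ℝ => (c + s * ξ - b).re * (c + s * ξ - b).re +
      (c + s * ξ - b).im * (c + s * ξ - b).im) _ t := (hre.mul hre).add (him.mul him)
  have hpos : 0 < Complex.normSq (c + t * ξ - b) := Complex.normSq_pos.2 h0
  have hn : (c + t * ξ - b).re * (c + t * ξ - b).re + (c + t * ξ - b).im * (c + t * ξ - b).im =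
      Complex.normSq (c + t * ξ - b) := (Complex.normSq_apply _).symm
  have hl := (hsq.log (by rw [hn]; exact hpos.ne')).const_mul (1 / 2 : ℝ)
  have e : (fun s : ℝ => Real.log ‖c + s * ξ - b‖) = fun s : ℝ => 1 / 2 *
      Real.log ((c + s * ξ - b).re * (c + s * ξ - b).re + (c + s * ξ - b).im * (c + s * ξ - b).im) := by
    funext s
    rw [← Complex.normSq_apply, Complex.normSq_eq_norm_sq, Real.log_pow]
    push_cast
    ring
  rw [e]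
  refine hl.congr_deriv ?_
  rw [hn, Complex.mul_re, Complex.inv_re, Complex.inv_im]
  field_simp
  ring

private lemma numd1_Lam (b : ι → ℂ) (z : ℂ) (α : ℝ) (c ξ : ℂ) (t : ℝ) (hw : ∀ i, c + t * ξ ≠ b i)
    (hz : c + t * ξ ≠ z) (hev : ∀ᶠ s : ℝ in nhds t, ∀ i, c + s * ξ ≠ b i) :
    HasDerivAt (fun s : ℝ => Lam b z α (c + s * ξ)) (ff b z α (c + t * ξ) * ξ).re t := by
  have h1 : HasDerivAt (fun s : ℝ => ∑ i, Real.log ‖c + s * ξ - b i‖)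
      (∑ i, ((c + t * ξ - b i)⁻¹ * ξ).re) t := HasDerivAt.fun_sum fun i _ => numd1_log c ξ (b i) t (hw i)
  have h2 := h1.sub ((numd1_log c ξ z t hz).const_mul α)
  have e : (fun s : ℝ => Lam b z α (c + s * ξ)) =ᶠ[nhds t] fun s : ℝ =>
      (∑ i, Real.log ‖c + s * ξ - b i‖) - α * Real.log ‖c + s * ξ - z‖ := by
    filter_upwards [hev] with s hs
    unfold Lam PP
    rw [eval_prod, norm_prod, Real.log_prod (fun i _ => by
      rw [eval_sub, eval_X, eval_C]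
      exact norm_ne_zero_iff.2 (sub_ne_zero.2 (hs i)))]
    simp only [eval_sub, eval_X, eval_C]
  refine (h2.congr_of_eventuallyEq e).congr_deriv ?_
  unfold ff hh
  rw [sub_mul, Complex.sub_re, Finset.sum_mul, Complex.re_sum]
  congr 1
  have e2 : (α : ℂ) * (c + t * ξ - z)⁻¹ * ξ = (α : ℂ) * ((c + t * ξ - z)⁻¹ * ξ) := by ring
  rw [e2, Complex.re_ofReal_mul]

private lemma numd1_ev (b : ι → ℂ) (c ξ : ℂ) (t : ℝ) (hw : ∀ i, c + t * ξ ≠ b i) :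
    ∀ᶠ s : ℝ in nhds t, ∀ i, c + s * ξ ≠ b i := by
  rw [Filter.eventually_all]
  intro i
  have hc : ContinuousAt (fun s : ℝ => c + s * ξ) t := (numd1_line c ξ t).continuousAt
  exact hc.eventually_ne (hw i)

/-- `Λ` increases at most like this -/
theorem tay_Lam (b : ι → ℂ) (z : ℂ) (α : ℝ) (c : ℂ) (R M : ℝ)
    (hav : ∀ w ∈ Metric.closedBall c R, (∀ i, w ≠ b i) ∧ w ≠ z)
    (hM : ∀ w ∈ Metric.closedBall c R, ‖ff2 b z α w‖ ≤ M) (w : ℂ)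
    (hw : w ∈ Metric.closedBall c R) :
    |Lam b z α w - Lam b z α c| ≤ ‖ff b z α c‖ * R + ‖ff1 b z α c‖ * R ^ 2 / 2 +
      M * R ^ 3 / 6 := by
  have hR : 0 ≤ R := dist_nonneg.trans (Metric.mem_closedBall.1 hw)
  have hM0 : 0 ≤ M := (norm_nonneg _).trans (hM c (Metric.mem_closedBall_self hR))
  have hxi : ‖w - c‖ ≤ R := by
    rw [← dist_eq_norm]; exact Metric.mem_closedBall.1 hw
  set ξ := w - c with hξ
  have hn : 0 ≤ ‖ξ‖ := norm_nonneg _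
  have hF : ∀ t ∈ Icc (0 : ℝ) 1, HasDerivAt (fun s : ℝ => Lam b z α (c + s * ξ) - Lam b z α c)
      (ff b z α (c + t * ξ) * ξ).re t := by
    intro t ht
    have h1 := hav _ (numd1_seg hw ht)
    exact (numd1_Lam b z α c ξ t h1.1 h1.2 (numd1_ev b c ξ t h1.1)).sub_const _
  have h := numd1_bound (fun s : ℝ => Lam b z α (c + s * ξ) - Lam b z α c)
    (fun t => (ff b z α (c + t * ξ) * ξ).re)
    (fun t => ‖ff b z α c‖ * ‖ξ‖ * t + ‖ff1 b z α c‖ * ‖ξ‖ ^ 2 * (t ^ 2 / 2) + M * ‖ξ‖ ^ 3 * (t ^ 3 / 6))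
    (fun t => ‖ff b z α c‖ * ‖ξ‖ + ‖ff1 b z α c‖ * ‖ξ‖ ^ 2 * t + M * ‖ξ‖ ^ 3 * (t ^ 2 / 2)) hF ?_ ?_ ?_ ?_
  · simp only [Complex.ofReal_one, one_mul, one_pow, mul_one] at h
    have e : c + ξ = w := by rw [hξ]; ring
    rw [e, Real.norm_eq_abs] at h
    refine h.trans ?_
    have a1 : ‖ff b z α c‖ * ‖ξ‖ ≤ ‖ff b z α c‖ * R := mul_le_mul_of_nonneg_left hxi (norm_nonneg _)
    have a2 : ‖ff1 b z α c‖ * ‖ξ‖ ^ 2 ≤ ‖ff1 b z α c‖ * R ^ 2 :=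
      mul_le_mul_of_nonneg_left (pow_le_pow_left₀ hn hxi 2) (norm_nonneg _)
    have a3 : M * ‖ξ‖ ^ 3 ≤ M * R ^ 3 := mul_le_mul_of_nonneg_left (pow_le_pow_left₀ hn hxi 3) hM0
    linarith
  · intro t
    have h1 := (hasDerivAt_id t).const_mul (‖ff b z α c‖ * ‖ξ‖)
    have h2 := (((hasDerivAt_pow 2 t).div_const 2).const_mul (‖ff1 b z α c‖ * ‖ξ‖ ^ 2))
    have h3 := (((hasDerivAt_pow 3 t).div_const 6).const_mul (M * ‖ξ‖ ^ 3))
    refine ((h1.add h2).add h3).congr_deriv ?_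
    rw [show (2 : ℕ) - 1 = 1 from rfl, show (3 : ℕ) - 1 = 2 from rfl]
    push_cast
    ring
  · simp
  · simp
  · intro t ht
    have h1 := tay2 (ff b z α) (ff1 b z α) (ff2 b z α) c R M
      (fun x hx => ff_hasDeriv b z α x (hav x hx).1 (hav x hx).2)
      (fun x hx => ff1_hasDeriv b z α x (hav x hx).1 (hav x hx).2) hM _ (numd1_seg hw ht)
    have e : c + t * (w - c) - c = t * ξ := by rw [hξ]; ring
    rw [e] at h1
    have e2 : ‖(t : ℂ) * ξ‖ = t * ‖ξ‖ := by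
      rw [norm_mul, Complex.norm_real, Real.norm_of_nonneg ht.1]
    rw [e2, ← hξ] at h1
    have h2 : ‖ff b z α (c + t * ξ)‖ ≤ ‖ff b z α c‖ + ‖ff1 b z α c‖ * (t * ‖ξ‖) + M * (t * ‖ξ‖) ^ 2 / 2 := by
      have e3 : ff b z α (c + t * ξ) = (ff b z α (c + t * ξ) - ff b z α c - ff1 b z α c * (t * ξ)) +
          (ff b z α c + ff1 b z α c * (t * ξ)) := by ring
      have h3 : ‖ff b z α c + ff1 b z α c * (t * ξ)‖ ≤ ‖ff b z α c‖ + ‖ff1 b z α c‖ * (t * ‖ξ‖) := by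
        refine (norm_add_le _ _).trans ?_
        rw [norm_mul, e2]
      rw [e3]
      refine (norm_add_le _ _).trans ?_
      linarith
    rw [Real.norm_eq_abs]
    refine (Complex.abs_re_le_norm _).trans ?_
    rw [norm_mul]
    refine (mul_le_mul_of_nonneg_right h2 hn).trans (le_of_eq ?_)
    ring

/-- the difference of `Λ` between a saddle point and a near point -/
theorem tay_saddle (b : ι → ℂ) (z : ℂ) (α : ℝ) (c : ℂ) (R M : ℝ)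
    (hav : ∀ w ∈ Metric.closedBall c R, (∀ i, w ≠ b i) ∧ w ≠ z)
    (hM : ∀ w ∈ Metric.closedBall c R, ‖ff1 b z α w‖ ≤ M) (w : ℂ)
    (hw : w ∈ Metric.closedBall c R) (h0 : ff b z α w = 0) :
    |Lam b z α w - Lam b z α c| ≤ M * R ^ 2 / 2 := by
  have hR : 0 ≤ R := dist_nonneg.trans (Metric.mem_closedBall.1 hw)
  have hM0 : 0 ≤ M := (norm_nonneg _).trans (hM c (Metric.mem_closedBall_self hR))
  set ξ := c - w with hξ
  have hxi : ‖ξ‖ ≤ R := by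
    rw [hξ, ← dist_eq_norm, dist_comm]; exact Metric.mem_closedBall.1 hw
  have hn : 0 ≤ ‖ξ‖ := norm_nonneg _
  have hseg : ∀ t ∈ Icc (0 : ℝ) 1, w + t * ξ ∈ Metric.closedBall c R := by
    intro t ht
    rw [Metric.mem_closedBall, dist_eq_norm]
    have e : w + t * ξ - c = ((1 - t : ℝ) : ℂ) * (w - c) := by rw [hξ]; push_cast; ring
    rw [e, norm_mul, Complex.norm_real, Real.norm_of_nonneg (by linarith [ht.2])]
    have h1 : ‖w - c‖ ≤ R := by rw [← dist_eq_norm]; exact Metric.mem_closedBall.1 hw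
    have h2 := norm_nonneg (w - c)
    nlinarith [ht.1, ht.2]
  have hF : ∀ t ∈ Icc (0 : ℝ) 1, HasDerivAt (fun s : ℝ => Lam b z α (w + s * ξ) - Lam b z α w)
      (ff b z α (w + t * ξ) * ξ).re t := by
    intro t ht
    have h1 := hav _ (hseg t ht)
    exact (numd1_Lam b z α w ξ t h1.1 h1.2 (numd1_ev b w ξ t h1.1)).sub_const _
  have h := numd1_bound (fun s : ℝ => Lam b z α (w + s * ξ) - Lam b z α w)
    (fun t => (ff b z α (w + t * ξ) * ξ).re)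
    (fun t => M * ‖ξ‖ ^ 2 * (t ^ 2 / 2)) (fun t => M * ‖ξ‖ ^ 2 * t) hF ?_ ?_ ?_ ?_
  · simp only [Complex.ofReal_one, one_mul, one_pow] at h
    have e : w + ξ = c := by rw [hξ]; ring
    rw [e, Real.norm_eq_abs, abs_sub_comm] at h
    refine h.trans ?_
    have a2 : M * ‖ξ‖ ^ 2 ≤ M * R ^ 2 := mul_le_mul_of_nonneg_left (pow_le_pow_left₀ hn hxi 2) hM0
    linarith
  · intro t
    have h2 := (((hasDerivAt_pow 2 t).div_const 2).const_mul (M * ‖ξ‖ ^ 2))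
    refine h2.congr_deriv ?_
    simp
  · simp
  · simp
  · intro t ht
    have h1 := (convex_closedBall c R).norm_image_sub_le_of_norm_hasDerivWithin_le
      (f := ff b z α) (f' := ff1 b z α) (C := M)
      (fun x hx => (ff_hasDeriv b z α x (hav x hx).1 (hav x hx).2).hasDerivWithinAt) hM hw (hseg t ht)
    rw [h0, sub_zero] at h1
    have e : w + t * ξ - w = t * ξ := by ring
    rw [e, norm_mul, Complex.norm_real, Real.norm_of_nonneg ht.1] at h1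
    rw [Real.norm_eq_abs]
    refine (Complex.abs_re_le_norm _).trans ?_
    rw [norm_mul]
    refine (mul_le_mul_of_nonneg_right h1 hn).trans (le_of_eq ?_)
    ring

/-! bounds in the ball -/

private theorem ND2_b (b : ι → ℂ) (c : ℂ) (R : ℝ) (hfar : ∀ i, R < ‖c - b i‖) (w : ℂ)
    (hw : w ∈ Metric.closedBall c R) (k : ℕ) :
    ‖∑ i, ((w - b i)⁻¹) ^ k‖ ≤ ∑ i, (‖c - b i‖ - R)⁻¹ ^ k := by
  refine (norm_sum_le _ _).trans (Finset.sum_le_sum fun i _ => ?_)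
  rw [norm_pow, norm_inv]
  have h1 : ‖w - c‖ ≤ R := by rwa [Metric.mem_closedBall, dist_eq_norm] at hw
  have h2 : 0 < ‖c - b i‖ - R := sub_pos.mpr (hfar i)
  have h3 : ‖c - b i‖ ≤ ‖w - c‖ + ‖w - b i‖ := by
    have : c - b i = -(w - c) + (w - b i) := by ring
    rw [this]
    exact (norm_add_le _ _).trans (by rw [norm_neg])
  have h4 : ‖c - b i‖ - R ≤ ‖w - b i‖ := by linarith
  exact pow_le_pow_left₀ (by positivity) (inv_anti₀ h2 h4) k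

private theorem ND2_z (z c : ℂ) (R : ℝ) (ρ : ℕ) (h0 : 0 < ρ)
    (h : (ρ : ℝ) / 2 ^ 30 ≤ ‖c - z‖ - R) (w : ℂ)
    (hw : w ∈ Metric.closedBall c R) (k : ℕ) :
    ‖((w - z)⁻¹) ^ k‖ ≤ ((2 : ℝ) ^ 30 / ρ) ^ k := by
  rw [norm_pow, norm_inv]
  have h1 : ‖w - c‖ ≤ R := by rwa [Metric.mem_closedBall, dist_eq_norm] at hw
  have h2 : 0 < (ρ : ℝ) / 2 ^ 30 := by positivity
  have h3 : ‖c - z‖ ≤ ‖w - c‖ + ‖w - z‖ := by
    have : c - z = -(w - c) + (w - z) := by ring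
    rw [this]
    exact (norm_add_le _ _).trans (by rw [norm_neg])
  have h4 : (ρ : ℝ) / 2 ^ 30 ≤ ‖w - z‖ := by linarith
  have h5 : ((2 : ℝ) ^ 30 / ρ) = ((ρ : ℝ) / 2 ^ 30)⁻¹ := by rw [inv_div]
  rw [h5]
  exact pow_le_pow_left₀ (by positivity) (inv_anti₀ h2 h4) k

/-- the bounds of `∑ (|c - b| - R)⁻¹ ^ p + α (|c - z| - R)⁻¹ ^ p` for `p = 3, 4, 5` -/
theorem avoid_ball (b : ι → ℂ) (z c : ℂ) (R : ℝ) (E : Ev) (Z : Zv) (hE : EvI E c R b)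
    (hZ : ZvI Z c R z) (w : ℂ) (hw : w ∈ Metric.closedBall c R) : (∀ i, w ≠ b i) ∧ w ≠ z := by
  have h1 : ‖c - w‖ ≤ R := by rwa [Metric.mem_closedBall', dist_eq_norm] at hw
  refine ⟨fun i hi => ?_, fun hz => ?_⟩
  · have := hE.far i
    rw [← hi] at this
    linarith
  · have h2 := hZ.rho
    rw [← hz] at h2
    have h3 : 0 < (Z.ρ : ℝ) / 2 ^ 30 := by
      have := hZ.rho0
      positivity
    linarith

theorem ff2_ball (b : ι → ℂ) (z c : ℂ) (R : ℝ) (E : Ev) (Z : Zv) (hE : EvI E c R b)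
    (hZ : ZvI Z c R z) (α : ℝ) (hα : 0 ≤ α) (w : ℂ) (hw : w ∈ Metric.closedBall c R) :
    ‖ff2 b z α w‖ ≤ 2 * (E.M3 / 2 ^ 60 + α * ((2 : ℝ) ^ 30 / Z.ρ) ^ 3) := by
  have h1 := (ND2_b b c R hE.far w hw 3).trans hE.m3
  have h2 := ND2_z z c R Z.ρ hZ.rho0 hZ.rho w hw 3
  have h3 : ff2 b z α w = (2 : ℂ) * ((∑ i, ((w - b i)⁻¹) ^ 3) + -((α : ℂ) * ((w - z)⁻¹) ^ 3)) := by
    unfold ff2 hh2
    ring
  rw [h3, norm_mul]
  have h4 : ‖(2 : ℂ)‖ = 2 := by simp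
  rw [h4]
  refine mul_le_mul_of_nonneg_left ?_ (by norm_num)
  refine (norm_add_le _ _).trans (add_le_add ?_ ?_)
  · exact h1
  · rw [norm_neg, norm_mul, Complex.norm_real, Real.norm_of_nonneg hα]
    exact mul_le_mul_of_nonneg_left h2 hα

theorem ff3_ball (b : ι → ℂ) (z c : ℂ) (R : ℝ) (E : Ev) (Z : Zv) (hE : EvI E c R b)
    (hZ : ZvI Z c R z) (α : ℝ) (hα : 0 ≤ α) (w : ℂ) (hw : w ∈ Metric.closedBall c R) :
    ‖ff3 b z α w‖ ≤ 6 * (E.M4 / 2 ^ 60 + α * ((2 : ℝ) ^ 30 / Z.ρ) ^ 4) := by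
  have h1 := (ND2_b b c R hE.far w hw 4).trans hE.m4
  have h2 := ND2_z z c R Z.ρ hZ.rho0 hZ.rho w hw 4
  have h3 : ff3 b z α w = (6 : ℂ) * (-(∑ i, ((w - b i)⁻¹) ^ 4) + ((α : ℂ) * ((w - z)⁻¹) ^ 4)) := by
    unfold ff3 hh3
    ring
  rw [h3, norm_mul]
  have h4 : ‖(6 : ℂ)‖ = 6 := by simp
  rw [h4]
  refine mul_le_mul_of_nonneg_left ?_ (by norm_num)
  refine (norm_add_le _ _).trans (add_le_add ?_ ?_)
  · rw [norm_neg]; exact h1
  · rw [norm_mul, Complex.norm_real, Real.norm_of_nonneg hα]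
    exact mul_le_mul_of_nonneg_left h2 hα

theorem ff4_ball (b : ι → ℂ) (z c : ℂ) (R : ℝ) (E : Ev) (Z : Zv) (hE : EvI E c R b)
    (hZ : ZvI Z c R z) (α : ℝ) (hα : 0 ≤ α) (w : ℂ) (hw : w ∈ Metric.closedBall c R) :
    ‖ff4 b z α w‖ ≤ 24 * (E.M5 / 2 ^ 60 + α * ((2 : ℝ) ^ 30 / Z.ρ) ^ 5) := by
  have h1 := (ND2_b b c R hE.far w hw 5).trans hE.m5
  have h2 := ND2_z z c R Z.ρ hZ.rho0 hZ.rho w hw 5
  have h3 : ff4 b z α w = (24 : ℂ) * ((∑ i, ((w - b i)⁻¹) ^ 5) + -((α : ℂ) * ((w - z)⁻¹) ^ 5)) := by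
    unfold ff4
    ring
  rw [h3, norm_mul]
  have h4 : ‖(24 : ℂ)‖ = 24 := by simp
  rw [h4]
  refine mul_le_mul_of_nonneg_left ?_ (by norm_num)
  refine (norm_add_le _ _).trans (add_le_add ?_ ?_)
  · exact h1
  · rw [norm_neg, norm_mul, Complex.norm_real, Real.norm_of_nonneg hα]
    exact mul_le_mul_of_nonneg_left h2 hα

/-! values at the centre, `α = A / 2 ^ 30 ≤ 1000` -/

private theorem amul_err (A : ℕ) (hA : A ≤ 1000 * 2 ^ 30) (v : CP) (w : ℂ) (e : ℝ)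
    (h : ‖v.val - w‖ ≤ e / 2 ^ 80) :
    ‖((((A : ℝ) / 2 ^ 30 : ℝ) : ℂ)) * w - (CP.amul A v).val‖ ≤ (2 + 1000 * e) / 2 ^ 80 := by
  have h1 := CP.val_amul A v
  have hα : (A : ℝ) / 2 ^ 30 ≤ 1000 := by
    rw [div_le_iff₀ (by positivity)]
    exact_mod_cast hA
  have hα0 : 0 ≤ (A : ℝ) / 2 ^ 30 := by positivity
  have h2 : ((((A : ℝ) / 2 ^ 30 : ℝ) : ℂ)) * w - (CP.amul A v).val =
      -(((CP.amul A v).val - ((((A : ℝ) / 2 ^ 30 : ℝ) : ℂ)) * v.val) +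
        ((((A : ℝ) / 2 ^ 30 : ℝ) : ℂ)) * (v.val - w)) := by ring
  rw [h2, norm_neg]
  have h3 : ‖((((A : ℝ) / 2 ^ 30 : ℝ) : ℂ)) * (v.val - w)‖ ≤ 1000 * (e / 2 ^ 80) := by
    rw [norm_mul, Complex.norm_real, Real.norm_of_nonneg hα0]
    exact mul_le_mul hα h (norm_nonneg _) (by norm_num)
  refine (norm_add_le _ _).trans ((add_le_add h1 h3).trans (le_of_eq ?_))
  ring

private theorem F0_val (b : ι → ℂ) (z c : ℂ) (R : ℝ) (E : Ev) (Z : Zv) (hE : EvI E c R b)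
    (hZ : ZvI Z c R z) (A : ℕ) (hA : A ≤ 1000 * 2 ^ 30) :
    ‖ff b z (A / 2 ^ 30) c - (CP.sub E.S1 (CP.amul A Z.v)).val‖ ≤ 2 ^ 51 / 2 ^ 80 := by
  have h1 := amul_err A hA Z.v ((c - z)⁻¹) (2 ^ 41) hZ.v1
  have h2 := hE.s1
  rw [CP.val_sub]
  unfold ff hh
  have h3 : ∑ i, (c - b i)⁻¹ - ((((A : ℝ) / 2 ^ 30 : ℝ) : ℂ)) * (c - z)⁻¹ -
      (E.S1.val - (CP.amul A Z.v).val) = -((E.S1.val - ∑ i, (c - b i)⁻¹) +
      (((((A : ℝ) / 2 ^ 30 : ℝ) : ℂ)) * (c - z)⁻¹ - (CP.amul A Z.v).val)) := by ring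
  rw [h3, norm_neg]
  refine (norm_add_le _ _).trans ((add_le_add h2 h1).trans ?_)
  rw [← add_div]
  exact div_le_div_of_nonneg_right (by norm_num) (by positivity)

theorem F0_ok (b : ι → ℂ) (z c : ℂ) (R : ℝ) (E : Ev) (Z : Zv) (hE : EvI E c R b)
    (hZ : ZvI Z c R z) (A : ℕ) (hA : A ≤ 1000 * 2 ^ 30) :
    ‖ff b z (A / 2 ^ 30) c‖ ≤ F0 A E.S1 Z.v / 2 ^ 80 := by
  have h1 := F0_val b z c R E Z hE hZ A hA
  have h2 := CP.nup_ge (CP.sub E.S1 (CP.amul A Z.v))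
  have h3 : (F0 A E.S1 Z.v : ℝ) = (CP.nup (CP.sub E.S1 (CP.amul A Z.v)) : ℝ) + 2 ^ 51 := by
    have : F0 A E.S1 Z.v = CP.nup (CP.sub E.S1 (CP.amul A Z.v)) + 2251799813685248 := rfl
    rw [this]
    push_cast
    norm_num
  rw [h3, add_div]
  have h4 := norm_le_norm_add_norm_sub' (ff b z (A / 2 ^ 30) c)
    (CP.sub E.S1 (CP.amul A Z.v)).val
  exact h4.trans (add_le_add h2 h1)

theorem F1_val (b : ι → ℂ) (z c : ℂ) (R : ℝ) (E : Ev) (Z : Zv) (hE : EvI E c R b)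
    (hZ : ZvI Z c R z) (A : ℕ) (hA : A ≤ 1000 * 2 ^ 30) :
    ‖ff1 b z (A / 2 ^ 30) c - (CP.sub (CP.amul A Z.v2) E.S2).val‖ ≤ 2 ^ 60 / 2 ^ 80 := by
  have h1 := amul_err A hA Z.v2 ((c - z)⁻¹ ^ 2) (2 ^ 50) hZ.v2
  have h2 := hE.s2
  rw [CP.val_sub]
  unfold ff1 hh1
  have h3 : -∑ i, (c - b i)⁻¹ ^ 2 + ((((A : ℝ) / 2 ^ 30 : ℝ) : ℂ)) * (c - z)⁻¹ ^ 2 -
      ((CP.amul A Z.v2).val - E.S2.val) = (E.S2.val - ∑ i, (c - b i)⁻¹ ^ 2) +
      (((((A : ℝ) / 2 ^ 30 : ℝ) : ℂ)) * (c - z)⁻¹ ^ 2 - (CP.amul A Z.v2).val) := by ring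
  rw [h3]
  refine (norm_add_le _ _).trans ((add_le_add h2 h1).trans ?_)
  rw [← add_div]
  exact div_le_div_of_nonneg_right (by norm_num) (by positivity)

theorem F1_ok (b : ι → ℂ) (z c : ℂ) (R : ℝ) (E : Ev) (Z : Zv) (hE : EvI E c R b)
    (hZ : ZvI Z c R z) (A : ℕ) (hA : A ≤ 1000 * 2 ^ 30) :
    ‖ff1 b z (A / 2 ^ 30) c‖ ≤ F1 A E.S2 Z.v2 / 2 ^ 80 := by
  have h1 := F1_val b z c R E Z hE hZ A hA
  have h2 := CP.nup_ge (CP.sub (CP.amul A Z.v2) E.S2)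
  have h3 : (F1 A E.S2 Z.v2 : ℝ) = (CP.nup (CP.sub (CP.amul A Z.v2) E.S2) : ℝ) + 2 ^ 60 := by
    have : F1 A E.S2 Z.v2 = CP.nup (CP.sub (CP.amul A Z.v2) E.S2) + 1152921504606846976 := rfl
    rw [this]
    push_cast
    norm_num
  rw [h3, add_div]
  have h4 := norm_le_norm_add_norm_sub' (ff1 b z (A / 2 ^ 30) c)
    (CP.sub (CP.amul A Z.v2) E.S2).val
  exact h4.trans (add_le_add h2 h1)

theorem F2_val (b : ι → ℂ) (z c : ℂ) (R : ℝ) (E : Ev) (Z : Zv) (hE : EvI E c R b)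
    (hZ : ZvI Z c R z) (A : ℕ) (hA : A ≤ 1000 * 2 ^ 30) :
    ‖ff2 b z (A / 2 ^ 30) c - 2 * (CP.sub E.S3 (CP.amul A Z.v3)).val‖ ≤ 2 ^ 69 / 2 ^ 80 := by
  have h1 := amul_err A hA Z.v3 ((c - z)⁻¹ ^ 3) (2 ^ 58) hZ.v3
  have h2 := hE.s3
  rw [CP.val_sub]
  unfold ff2 hh2
  have h3 : 2 * ∑ i, (c - b i)⁻¹ ^ 3 - 2 * ((((A : ℝ) / 2 ^ 30 : ℝ) : ℂ)) * (c - z)⁻¹ ^ 3 -
      2 * (E.S3.val - (CP.amul A Z.v3).val) = -(2 * ((E.S3.val - ∑ i, (c - b i)⁻¹ ^ 3) +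
      (((((A : ℝ) / 2 ^ 30 : ℝ) : ℂ)) * (c - z)⁻¹ ^ 3 - (CP.amul A Z.v3).val))) := by ring
  rw [h3, norm_neg, norm_mul, Complex.norm_ofNat]
  have h4 := (norm_add_le (E.S3.val - ∑ i, (c - b i)⁻¹ ^ 3)
    (((((A : ℝ) / 2 ^ 30 : ℝ) : ℂ)) * (c - z)⁻¹ ^ 3 - (CP.amul A Z.v3).val)).trans
      (add_le_add h2 h1)
  refine (mul_le_mul_of_nonneg_left h4 (by norm_num)).trans ?_
  rw [← add_div, ← mul_div_assoc]
  exact div_le_div_of_nonneg_right (by norm_num) (by positivity)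

theorem F2_ok (b : ι → ℂ) (z c : ℂ) (R : ℝ) (E : Ev) (Z : Zv) (hE : EvI E c R b)
    (hZ : ZvI Z c R z) (A : ℕ) (hA : A ≤ 1000 * 2 ^ 30) :
    ‖ff2 b z (A / 2 ^ 30) c‖ ≤ F2 A E.S3 Z.v3 / 2 ^ 80 := by
  have h1 := F2_val b z c R E Z hE hZ A hA
  have h2 := CP.nup_ge (CP.sub E.S3 (CP.amul A Z.v3))
  have h3 : (F2 A E.S3 Z.v3 : ℝ) =
      2 * (CP.nup (CP.sub E.S3 (CP.amul A Z.v3)) : ℝ) + 2 ^ 69 := by
    have : F2 A E.S3 Z.v3 =
      2 * CP.nup (CP.sub E.S3 (CP.amul A Z.v3)) + 590295810358705651712 := rfl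
    rw [this]
    push_cast
    norm_num
  rw [h3, add_div]
  have h4 := norm_le_norm_add_norm_sub' (ff2 b z (A / 2 ^ 30) c)
    (2 * (CP.sub E.S3 (CP.amul A Z.v3)).val)
  refine h4.trans (add_le_add ?_ h1)
  rw [norm_mul, Complex.norm_ofNat, mul_div_assoc]
  exact mul_le_mul_of_nonneg_left h2 (by norm_num)

theorem F3_ok (b : ι → ℂ) (z c : ℂ) (R : ℝ) (E : Ev) (Z : Zv) (hE : EvI E c R b)
    (hZ : ZvI Z c R z) (A : ℕ) (hA : A ≤ 1000 * 2 ^ 30) :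
    ‖ff3 b z (A / 2 ^ 30) c‖ ≤ F3 A E.S4 (CP.mul Z.v2 Z.v2) / 2 ^ 80 := by
  have h1 := amul_err A hA (CP.mul Z.v2 Z.v2) ((c - z)⁻¹ ^ 4) (80 * 2 ^ 60) hZ.v4
  have h2 := hE.s4
  have h5 := CP.nup_ge (CP.sub (CP.amul A (CP.mul Z.v2 Z.v2)) E.S4)
  have h6 : (F3 A E.S4 (CP.mul Z.v2 Z.v2) : ℝ) =
      6 * (CP.nup (CP.sub (CP.amul A (CP.mul Z.v2 Z.v2)) E.S4) : ℝ) + 2 ^ 79 := by
    have : F3 A E.S4 (CP.mul Z.v2 Z.v2) =
      6 * CP.nup (CP.sub (CP.amul A (CP.mul Z.v2 Z.v2)) E.S4) + 604462909807314587353088 := rfl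
    rw [this]
    push_cast
    norm_num
  rw [CP.val_sub] at h5
  rw [h6, add_div]
  unfold ff3 hh3
  have h3 : -(6 * ∑ i, (c - b i)⁻¹ ^ 4) + 6 * ((((A : ℝ) / 2 ^ 30 : ℝ) : ℂ)) * (c - z)⁻¹ ^ 4 =
      6 * ((CP.amul A (CP.mul Z.v2 Z.v2)).val - E.S4.val) +
      6 * ((E.S4.val - ∑ i, (c - b i)⁻¹ ^ 4) +
      (((((A : ℝ) / 2 ^ 30 : ℝ) : ℂ)) * (c - z)⁻¹ ^ 4 -
        (CP.amul A (CP.mul Z.v2 Z.v2)).val)) := by ring
  rw [h3]
  refine (norm_add_le _ _).trans (add_le_add ?_ ?_)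
  · rw [norm_mul, Complex.norm_ofNat, mul_div_assoc]
    exact mul_le_mul_of_nonneg_left h5 (by norm_num)
  · rw [norm_mul, Complex.norm_ofNat]
    have h4 := (norm_add_le (E.S4.val - ∑ i, (c - b i)⁻¹ ^ 4)
      (((((A : ℝ) / 2 ^ 30 : ℝ) : ℂ)) * (c - z)⁻¹ ^ 4 -
        (CP.amul A (CP.mul Z.v2 Z.v2)).val)).trans (add_le_add h2 h1)
    refine (mul_le_mul_of_nonneg_left h4 (by norm_num)).trans ?_
    rw [← add_div, ← mul_div_assoc]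
    exact div_le_div_of_nonneg_right (by norm_num) (by positivity)

end Pool.Agent.SHD
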