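import Mathlib
import Pool.Agent.SHD.ND

set_option autoImplicit false

/-!
Soundness of the ray cells (module NUMF).
-/

noncomputable section

namespace Pool.Agent.SHD

open Polynomial Set

variable {ι : Type} [Fintype ι]

private theorem NF_comb {a c α : ℝ} (hα : α ∈ Icc a c) :
    ∃ s t : ℝ, 0 ≤ s ∧ 0 ≤ t ∧ s + t = 1 ∧ α = s * a + t * c := by
  have h : α ∈ segment ℝ a c := by
    rw [segment_eq_Icc (hα.1.trans hα.2)]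
    exact hα
  obtain ⟨s, t, hs, ht, hst, h⟩ := h
  exact ⟨s, t, hs, ht, hst, by simpa using h.symm⟩

/-- the expression is a convex function of the parameter -/
private theorem NF_lin (v P0 P1 Q0 Q1 : ℂ) (L r k U V a0 a1 s t : ℝ) (hL : 0 ≤ L) (hr : 0 ≤ r)
    (hs : 0 ≤ s) (ht : 0 ≤ t) (hst : s + t = 1)
    (h0 : (v * P0).re + L * (‖Q0‖ * r + k * (U + a0 * V) * r ^ 2) < 0)
    (h1 : (v * P1).re + L * (‖Q1‖ * r + k * (U + a1 * V) * r ^ 2) < 0) :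
    (v * ((s : ℂ) * P0 + (t : ℂ) * P1)).re + L * (‖(s : ℂ) * Q0 + (t : ℂ) * Q1‖ * r +
      k * (U + (s * a0 + t * a1) * V) * r ^ 2) < 0 := by
  have e1 : (v * ((s : ℂ) * P0 + (t : ℂ) * P1)).re = s * (v * P0).re + t * (v * P1).re := by
    have : v * ((s : ℂ) * P0 + (t : ℂ) * P1) = (s : ℂ) * (v * P0) + (t : ℂ) * (v * P1) := by ring
    rw [this, Complex.add_re, Complex.re_ofReal_mul, Complex.re_ofReal_mul]
  have e2 : ‖(s : ℂ) * Q0 + (t : ℂ) * Q1‖ ≤ s * ‖Q0‖ + t * ‖Q1‖ := by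
    refine (norm_add_le _ _).trans (le_of_eq ?_)
    rw [norm_mul, norm_mul, Complex.norm_real, Complex.norm_real, Real.norm_of_nonneg hs,
      Real.norm_of_nonneg ht]
  have e3 : L * (‖(s : ℂ) * Q0 + (t : ℂ) * Q1‖ * r) ≤ L * ((s * ‖Q0‖ + t * ‖Q1‖) * r) :=
    mul_le_mul_of_nonneg_left (mul_le_mul_of_nonneg_right e2 hr) hL
  have e4 : k * (U + (s * a0 + t * a1) * V) * r ^ 2 =
      s * (k * (U + a0 * V) * r ^ 2) + t * (k * (U + a1 * V) * r ^ 2) := by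
    have : U = (s + t) * U := by rw [hst, one_mul]
    calc k * (U + (s * a0 + t * a1) * V) * r ^ 2
        = k * ((s + t) * U + (s * a0 + t * a1) * V) * r ^ 2 := by rw [← this]
      _ = _ := by ring
  have e5 : (v * ((s : ℂ) * P0 + (t : ℂ) * P1)).re + L * (‖(s : ℂ) * Q0 + (t : ℂ) * Q1‖ * r +
      k * (U + (s * a0 + t * a1) * V) * r ^ 2) ≤
      s * ((v * P0).re + L * (‖Q0‖ * r + k * (U + a0 * V) * r ^ 2)) +
      t * ((v * P1).re + L * (‖Q1‖ * r + k * (U + a1 * V) * r ^ 2)) := by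
    rw [e1, e4, mul_add]
    linarith
  refine e5.trans_lt ?_
  rcases hs.eq_or_lt with hs0 | hs0
  · have ht1 : t = 1 := by linarith
    rw [← hs0, ht1]
    linarith
  · have := mul_neg_of_pos_of_neg hs0 h0
    have := mul_nonpos_of_nonneg_of_nonpos ht h1.le
    linarith

/-- the passage from the centre to a point of the ball -/
private theorem NF_pt (g g1 g2 : ℂ → ℂ) (c v w : ℂ) (r k M L : ℝ) (hv : ‖v‖ ≤ L)
    (hg : ∀ w ∈ Metric.closedBall c r, HasDerivAt g (g1 w) w)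
    (hg1 : ∀ w ∈ Metric.closedBall c r, HasDerivAt g1 (g2 w) w)
    (hM : ∀ w ∈ Metric.closedBall c r, ‖g2 w‖ ≤ 2 * k * M) (hw : w ∈ Metric.closedBall c r)
    (h : (v * g c).re + L * (‖g1 c‖ * r + k * M * r ^ 2) < 0) : (v * g w).re < 0 := by
  have hd : ‖w - c‖ ≤ r := by
    rw [← dist_eq_norm]
    exact hw
  have h0 : 0 ≤ ‖w - c‖ := norm_nonneg _
  have hr : 0 ≤ r := h0.trans hd
  have hc : c ∈ Metric.closedBall c r := Metric.mem_closedBall_self hr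
  have hkM : 0 ≤ 2 * k * M := (norm_nonneg _).trans (hM c hc)
  have h1 := tay2 g g1 g2 c r (2 * k * M) hg hg1 hM w hw
  have h2 : ‖g w - g c‖ ≤ ‖g1 c‖ * r + k * M * r ^ 2 := by
    have e : g w - g c = (g w - g c - g1 c * (w - c)) + g1 c * (w - c) := by ring
    rw [e]
    refine (norm_add_le _ _).trans ?_
    rw [norm_mul]
    have h3 : ‖g1 c‖ * ‖w - c‖ ≤ ‖g1 c‖ * r := mul_le_mul_of_nonneg_left hd (norm_nonneg _)
    have h4 : ‖w - c‖ ^ 2 ≤ r ^ 2 := pow_le_pow_left₀ h0 hd 2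
    have h5 : 2 * k * M * ‖w - c‖ ^ 2 / 2 ≤ k * M * r ^ 2 := by
      have := mul_le_mul_of_nonneg_left h4 hkM
      linarith
    linarith
  have h3 : (v * (g w - g c)).re ≤ L * (‖g1 c‖ * r + k * M * r ^ 2) := by
    refine (Complex.re_le_norm _).trans ?_
    rw [norm_mul]
    exact mul_le_mul hv h2 (norm_nonneg _) ((norm_nonneg _).trans hv)
  have h4 : (v * g w).re = (v * g c).re + (v * (g w - g c)).re := by
    rw [← Complex.add_re]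
    congr 1
    ring
  linarith

private theorem NF_num (x x' F R M m L T1 T2 T3 k n1 n2 : ℕ) (e X q l a : ℝ) (hn : n1 < n2)
    (hT1 : (F : ℝ) * R / 2 ^ 30 < T1) (hT2 : (k : ℝ) * ((M + m) * (R * R)) / 2 ^ 40 < T2)
    (hT3 : (L : ℝ) * (e + (T1 + T2)) / 2 ^ 80 < T3)
    (hm : a * (2 : ℝ) ^ 60 ≤ m) (he : 0 ≤ e) (hl : 0 ≤ l) (hlL : l ≤ L / 2 ^ 80)
    (hq : q ≤ F / 2 ^ 80) (hX : X ≤ ((x : ℝ) - x' + n1) / 2 ^ 80 + l * (e / 2 ^ 80))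
    (h : x + (n2 + T3) ≤ x') :
    X + l * (q * (R / 2 ^ 30) + k * (M / 2 ^ 60 + a) * (R / 2 ^ 30) ^ 2) < 0 := by
  have h1 : q * (R / 2 ^ 30) ≤ T1 / 2 ^ 80 := by
    have : q * (R / 2 ^ 30) ≤ F / 2 ^ 80 * (R / 2 ^ 30) :=
      mul_le_mul_of_nonneg_right hq (by positivity)
    have e1 : (F : ℝ) / 2 ^ 80 * (R / 2 ^ 30) = (F : ℝ) * R / 2 ^ 30 / 2 ^ 80 := by ring
    rw [e1] at this
    exact this.trans (div_le_div_of_nonneg_right hT1.le (by positivity))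
  have h2 : (k : ℝ) * (M / 2 ^ 60 + a) * (R / 2 ^ 30) ^ 2 ≤ T2 / 2 ^ 80 := by
    have ha : a ≤ m / 2 ^ 60 := by
      rw [le_div_iff₀ (by positivity)]
      exact hm
    have : (k : ℝ) * (M / 2 ^ 60 + a) * (R / 2 ^ 30) ^ 2 ≤
        k * (M / 2 ^ 60 + m / 2 ^ 60) * (R / 2 ^ 30) ^ 2 := by
      gcongr
    have e1 : (k : ℝ) * (M / 2 ^ 60 + m / 2 ^ 60) * (R / 2 ^ 30) ^ 2 =
        (k : ℝ) * ((M + m) * (R * R)) / 2 ^ 40 / 2 ^ 80 := by ring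
    rw [e1] at this
    exact this.trans (div_le_div_of_nonneg_right hT2.le (by positivity))
  have h3 : l * (e / 2 ^ 80) + l * (q * (R / 2 ^ 30) + k * (M / 2 ^ 60 + a) * (R / 2 ^ 30) ^ 2) ≤
      T3 / 2 ^ 80 := by
    calc l * (e / 2 ^ 80) + l * (q * (R / 2 ^ 30) + k * (M / 2 ^ 60 + a) * (R / 2 ^ 30) ^ 2)
        ≤ l * (e / 2 ^ 80) + l * (T1 / 2 ^ 80 + T2 / 2 ^ 80) := by
          gcongr
      _ = l * ((e + (T1 + T2)) / 2 ^ 80) := by ring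
      _ ≤ L / 2 ^ 80 * ((e + (T1 + T2)) / 2 ^ 80) :=
          mul_le_mul_of_nonneg_right hlL (by positivity)
      _ = L * (e + (T1 + T2)) / 2 ^ 80 / 2 ^ 80 := by ring
      _ ≤ T3 / 2 ^ 80 := div_le_div_of_nonneg_right hT3.le (by positivity)
  have h4 : (x : ℝ) + (n2 + T3) ≤ x' := by exact_mod_cast h
  have h4' : (n1 : ℝ) < n2 := by exact_mod_cast hn
  have h5 : ((x : ℝ) - x' + n1) / 2 ^ 80 + T3 / 2 ^ 80 < 0 := by
    rw [← add_div]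
    exact div_neg_of_neg_of_pos (by linarith) (by positivity)
  calc X + l * (q * (R / 2 ^ 30) + k * (M / 2 ^ 60 + a) * (R / 2 ^ 30) ^ 2)
      ≤ ((x : ℝ) - x' + n1) / 2 ^ 80 + (l * (e / 2 ^ 80) +
        l * (q * (R / 2 ^ 30) + k * (M / 2 ^ 60 + a) * (R / 2 ^ 30) ^ 2)) := by
        rw [← add_assoc]
        exact add_le_add_left hX _
    _ ≤ ((x : ℝ) - x' + n1) / 2 ^ 80 + T3 / 2 ^ 80 := add_le_add_right h3 _
    _ < 0 := h5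

/-- `rsh_gt` for a natural expression -/
private theorem NF_rsh (a k : ℕ) (y : ℝ) (hy : (a : ℝ) = y) : y / 2 ^ k < rsh a k := by
  rw [← hy]
  exact rsh_gt a k

private theorem NF_rayA (A R ρ L2 M4 F : ℕ) (uu g : CP) (h : rayA A R ρ L2 M4 F uu g = true) :
    (CP.mul uu g).xp + (3 + rsh (L2 * (2 ^ 60 + (rsh (F * R) 30 +
      rsh (3 * ((M4 + mterm A ρ 4 150) * (R * R))) 40))) 80) ≤ (CP.mul uu g).xq := by
  unfold rayA at h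
  generalize CP.mul uu g = q at h ⊢
  cases q
  exact Nat.le_of_ble_eq_true h

private theorem NF_ray3A (A R ρ L3 M5 F : ℕ) (uuu g : CP)
    (h : ray3A A R ρ L3 M5 F uuu g = true) :
    (2 * (CP.mul uuu g).xp + rsh (4 * CP.nup g) 80) + (5 + rsh (L3 * (2 ^ 69 + (rsh (F * R) 30 +
      rsh (12 * ((M5 + mterm A ρ 5 180) * (R * R))) 40))) 80) ≤ 2 * (CP.mul uuu g).xq := by
  unfold ray3A at h
  generalize CP.mul uuu g = q at h ⊢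
  cases q
  exact Nat.le_of_ble_eq_true h

private theorem NF_rayCell (A0 A1 : ℕ) (uu : CP) (L2 : ℕ) (cx cy R : ℕ)
    (h : rayCell A0 A1 uu L2 cx cy R = true) :
    (ev cx cy R clusters).ok = true ∧ (zv cx cy R).ok = true ∧
    rayA A0 R (zv cx cy R).ρ L2 (ev cx cy R clusters).M4
      (F2 A0 (ev cx cy R clusters).S3 (zv cx cy R).v3) uu
      (CP.sub (CP.amul A0 (zv cx cy R).v2) (ev cx cy R clusters).S2) = true ∧
    rayA A1 R (zv cx cy R).ρ L2 (ev cx cy R clusters).M4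
      (F2 A1 (ev cx cy R clusters).S3 (zv cx cy R).v3) uu
      (CP.sub (CP.amul A1 (zv cx cy R).v2) (ev cx cy R clusters).S2) = true := by
  unfold rayCell at h
  generalize zv cx cy R = Z at h ⊢
  generalize ev cx cy R clusters = E at h ⊢
  cases Z
  cases E
  simp only [Bool.and_eq_true] at h
  exact ⟨h.1.1, h.1.2, h.2.1, h.2.2⟩

private theorem NF_ray3Cell (A0 A1 : ℕ) (uuu : CP) (L3 : ℕ) (cx cy R : ℕ)
    (h : ray3Cell A0 A1 uuu L3 cx cy R = true) :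
    (ev cx cy R clusters).ok = true ∧ (zv cx cy R).ok = true ∧
    ray3A A0 R (zv cx cy R).ρ L3 (ev cx cy R clusters).M5
      (F3 A0 (ev cx cy R clusters).S4 (CP.mul (zv cx cy R).v2 (zv cx cy R).v2)) uuu
      (CP.sub (ev cx cy R clusters).S3 (CP.amul A0 (zv cx cy R).v3)) = true ∧
    ray3A A1 R (zv cx cy R).ρ L3 (ev cx cy R clusters).M5
      (F3 A1 (ev cx cy R clusters).S4 (CP.mul (zv cx cy R).v2 (zv cx cy R).v2)) uuu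
      (CP.sub (ev cx cy R clusters).S3 (CP.amul A1 (zv cx cy R).v3)) = true := by
  unfold ray3Cell at h
  generalize zv cx cy R = Z at h ⊢
  generalize ev cx cy R clusters = E at h ⊢
  cases Z
  cases E
  simp only [Bool.and_eq_true] at h
  exact ⟨h.1.1, h.1.2, h.2.1, h.2.2⟩

/-- the inequality for one value of the parameter -/
private theorem NF_one (b : ι → ℂ) (z c : ℂ) (R : ℕ) (E : Ev) (Z : Zv)
    (hE : EvI E c (R / 2 ^ 30) b) (hZ : ZvI Z c (R / 2 ^ 30) z) (A : ℕ) (hA : A ≤ 1000 * 2 ^ 30)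
    (uu : CP) (u : ℂ) (huu : uu.val = u ^ 2) (L2 : ℕ) (hL2 : ‖u‖ ^ 2 ≤ (L2 : ℝ) / 2 ^ 80)
    (h : rayA A R Z.ρ L2 E.M4 (F2 A E.S3 Z.v3) uu (CP.sub (CP.amul A Z.v2) E.S2) = true) :
    (u ^ 2 * ff1 b z (A / 2 ^ 30) c).re + ‖u‖ ^ 2 * (‖ff2 b z (A / 2 ^ 30) c‖ * (R / 2 ^ 30) +
      3 * ((E.M4 : ℝ) / 2 ^ 60 + (A / 2 ^ 30) * ((2 : ℝ) ^ 30 / Z.ρ) ^ 4) * (R / 2 ^ 30) ^ 2) < 0 := by
  set g := CP.sub (CP.amul A Z.v2) E.S2 with hg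
  have h1 := NF_rayA _ _ _ _ _ _ _ _ h
  have h2 := F1_val b z c (R / 2 ^ 30) E Z hE hZ A hA
  rw [← hg] at h2
  have hX : (u ^ 2 * ff1 b z (A / 2 ^ 30) c).re ≤
      (((CP.mul uu g).xp : ℝ) - (CP.mul uu g).xq + (1 : ℕ)) / 2 ^ 80 +
        ‖u‖ ^ 2 * ((2 : ℝ) ^ 60 / 2 ^ 80) := by
    have e1 : u ^ 2 * ff1 b z (A / 2 ^ 30) c =
        uu.val * g.val + u ^ 2 * (ff1 b z (A / 2 ^ 30) c - g.val) := by
      rw [huu]
      ring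
    rw [e1, Complex.add_re]
    refine add_le_add (by simpa using CP.val_mul_re uu g) ?_
    refine (Complex.re_le_norm _).trans ?_
    rw [norm_mul, norm_pow]
    exact mul_le_mul_of_nonneg_left h2 (by positivity)
  have hρ : (0 : ℝ) < Z.ρ := by exact_mod_cast hZ.rho0
  have hm : (A / 2 ^ 30 : ℝ) * ((2 : ℝ) ^ 30 / Z.ρ) ^ 4 * (2 : ℝ) ^ 60 ≤ (mterm A Z.ρ 4 150 : ℕ) := by
    refine le_trans (le_of_eq ?_) (mterm_gt A Z.ρ 4 150 hZ.rho0).le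
    field_simp
  have h3 := NF_num (CP.mul uu g).xp (CP.mul uu g).xq (F2 A E.S3 Z.v3) R E.M4
    (mterm A Z.ρ 4 150) L2 (rsh (F2 A E.S3 Z.v3 * R) 30)
    (rsh (3 * ((E.M4 + mterm A Z.ρ 4 150) * (R * R))) 40)
    (rsh (L2 * (2 ^ 60 + (rsh (F2 A E.S3 Z.v3 * R) 30 +
      rsh (3 * ((E.M4 + mterm A Z.ρ 4 150) * (R * R))) 40))) 80) 3 1 3 (2 ^ 60)
    (u ^ 2 * ff1 b z (A / 2 ^ 30) c).re ‖ff2 b z (A / 2 ^ 30) c‖ (‖u‖ ^ 2)
    ((A / 2 ^ 30) * ((2 : ℝ) ^ 30 / Z.ρ) ^ 4) (by norm_num)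
    (NF_rsh _ _ _ (by push_cast; ring)) (NF_rsh _ _ _ (by push_cast; ring))
    (NF_rsh _ _ _ (by push_cast; ring)) hm (by positivity) (by positivity) hL2
    (F2_ok b z c (R / 2 ^ 30) E Z hE hZ A hA) hX h1
  simpa using h3

theorem rayCell_ok (b : ι → ℂ) (hb : Near b) (z : ℂ) (hz : ‖z - zcv‖ ≤ 1 / 2 ^ 56) (A0 A1 : ℕ)
    (hA : A0 ≤ A1) (hA1 : A1 ≤ 1000 * 2 ^ 30) (uu : CP) (u : ℂ) (huu : uu.val = u ^ 2) (L2 : ℕ)
    (hL2 : ‖u‖ ^ 2 ≤ (L2 : ℝ) / 2 ^ 80) (cx cy R : ℕ) (h : rayCell A0 A1 uu L2 cx cy R = true)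
    (α : ℝ) (hα : α ∈ Icc ((A0 : ℝ) / 2 ^ 30) ((A1 : ℝ) / 2 ^ 30)) (w : ℂ)
    (hw : w ∈ Metric.closedBall (ptv cx cy) (R / 2 ^ 30)) :
    (w ≠ z ∧ ∀ i, w ≠ b i) ∧ (u ^ 2 * ff1 b z α w).re < 0 := by
  obtain ⟨hok, hokz, h0, h1⟩ := NF_rayCell _ _ _ _ _ _ _ h
  have hE := ev_ok b hb cx cy R hok
  have hZ := zv_ok z hz cx cy R hokz
  generalize zv cx cy R = Z at h0 h1 hZ
  generalize ev cx cy R clusters = E at h0 h1 hE
  generalize ptv cx cy = c at hE hZ hw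
  have hav : ∀ w ∈ Metric.closedBall c (R / 2 ^ 30), (∀ i, w ≠ b i) ∧ w ≠ z :=
    fun w hw => avoid_ball b z c (R / 2 ^ 30) E Z hE hZ w hw
  refine ⟨⟨(hav w hw).2, (hav w hw).1⟩, ?_⟩
  have hα0 : 0 ≤ α := le_trans (by positivity) hα.1
  obtain ⟨s, t, hs, ht, hst, rfl⟩ := NF_comb hα
  have k0 := NF_one b z c R E Z hE hZ A0 (hA.trans hA1) uu u huu L2 hL2 h0
  have k1 := NF_one b z c R E Z hE hZ A1 hA1 uu u huu L2 hL2 h1
  have k2 := NF_lin (u ^ 2) _ _ _ _ (‖u‖ ^ 2) (R / 2 ^ 30) 3 _ _ _ _ s t (by positivity)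
    (by positivity) hs ht hst k0 k1
  refine NF_pt (ff1 b z (s * (A0 / 2 ^ 30) + t * (A1 / 2 ^ 30)))
    (ff2 b z (s * (A0 / 2 ^ 30) + t * (A1 / 2 ^ 30)))
    (ff3 b z (s * (A0 / 2 ^ 30) + t * (A1 / 2 ^ 30))) c (u ^ 2) w (R / 2 ^ 30) 3
    ((E.M4 : ℝ) / 2 ^ 60 + (s * (A0 / 2 ^ 30) + t * (A1 / 2 ^ 30)) * ((2 : ℝ) ^ 30 / Z.ρ) ^ 4)
    (‖u‖ ^ 2) (by rw [norm_pow]) (fun w hw => ff1_hasDeriv b z _ w (hav w hw).1 (hav w hw).2)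
    (fun w hw => ff2_hasDeriv b z _ w (hav w hw).1 (hav w hw).2) ?_ hw ?_
  · intro w hw
    have := ff3_ball b z c (R / 2 ^ 30) E Z hE hZ _ hα0 w hw
    linarith
  · have hS : (s : ℂ) + t = 1 := by exact_mod_cast hst
    have e1 : ff1 b z (s * (A0 / 2 ^ 30) + t * (A1 / 2 ^ 30)) c =
        (s : ℂ) * ff1 b z (A0 / 2 ^ 30) c + (t : ℂ) * ff1 b z (A1 / 2 ^ 30) c := by
      unfold ff1
      push_cast
      linear_combination (-(hh1 b c)) * hS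
    have e2 : ff2 b z (s * (A0 / 2 ^ 30) + t * (A1 / 2 ^ 30)) c =
        (s : ℂ) * ff2 b z (A0 / 2 ^ 30) c + (t : ℂ) * ff2 b z (A1 / 2 ^ 30) c := by
      unfold ff2
      push_cast
      linear_combination (-(hh2 b c)) * hS
    rw [e1, e2]
    exact k2

/-- the inequality for one value of the parameter -/
private theorem NF_one3 (b : ι → ℂ) (z c : ℂ) (R : ℕ) (E : Ev) (Z : Zv)
    (hE : EvI E c (R / 2 ^ 30) b) (hZ : ZvI Z c (R / 2 ^ 30) z) (A : ℕ) (hA : A ≤ 1000 * 2 ^ 30)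
    (uuu : CP) (u : ℂ) (huuu : ‖uuu.val - u ^ 3‖ ≤ 2 / 2 ^ 80) (L3 : ℕ)
    (hL3 : ‖u‖ ^ 3 ≤ (L3 : ℝ) / 2 ^ 80)
    (h : ray3A A R Z.ρ L3 E.M5 (F3 A E.S4 (CP.mul Z.v2 Z.v2)) uuu
      (CP.sub E.S3 (CP.amul A Z.v3)) = true) :
    (u ^ 3 * ff2 b z (A / 2 ^ 30) c).re + ‖u‖ ^ 3 * (‖ff3 b z (A / 2 ^ 30) c‖ * (R / 2 ^ 30) +
      12 * ((E.M5 : ℝ) / 2 ^ 60 + (A / 2 ^ 30) * ((2 : ℝ) ^ 30 / Z.ρ) ^ 5) * (R / 2 ^ 30) ^ 2) < 0 := by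
  set g := CP.sub E.S3 (CP.amul A Z.v3) with hg
  have h1 := NF_ray3A _ _ _ _ _ _ _ _ h
  have h2 := F2_val b z c (R / 2 ^ 30) E Z hE hZ A hA
  rw [← hg] at h2
  have h4 : 4 * (CP.nup g : ℝ) / 2 ^ 80 < rsh (4 * CP.nup g) 80 :=
    NF_rsh _ _ _ (by push_cast; ring)
  have hX : (u ^ 3 * ff2 b z (A / 2 ^ 30) c).re ≤
      (((2 * (CP.mul uuu g).xp + rsh (4 * CP.nup g) 80 : ℕ) : ℝ) -
        (2 * (CP.mul uuu g).xq : ℕ) + (2 : ℕ)) / 2 ^ 80 + ‖u‖ ^ 3 * ((2 : ℝ) ^ 69 / 2 ^ 80) := by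
    have e1 : u ^ 3 * ff2 b z (A / 2 ^ 30) c =
        ((uuu.val * g.val + uuu.val * g.val) + 2 * ((u ^ 3 - uuu.val) * g.val)) +
          u ^ 3 * (ff2 b z (A / 2 ^ 30) c - 2 * g.val) := by
      ring
    rw [e1, Complex.add_re, Complex.add_re, Complex.add_re]
    have e2 := CP.val_mul_re uuu g
    have e3 : (2 * ((u ^ 3 - uuu.val) * g.val)).re ≤ (rsh (4 * CP.nup g) 80 : ℝ) / 2 ^ 80 := by
      refine (Complex.re_le_norm _).trans ?_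
      rw [norm_mul, norm_mul, norm_sub_rev, Complex.norm_two]
      calc 2 * (‖uuu.val - u ^ 3‖ * ‖g.val‖) ≤ 2 * (2 / 2 ^ 80 * (CP.nup g / 2 ^ 80)) := by
            have := CP.nup_ge g
            gcongr
        _ = 4 * (CP.nup g : ℝ) / 2 ^ 80 / 2 ^ 80 := by ring
        _ ≤ _ := div_le_div_of_nonneg_right h4.le (by positivity)
    have e4 : (u ^ 3 * (ff2 b z (A / 2 ^ 30) c - 2 * g.val)).re ≤
        ‖u‖ ^ 3 * ((2 : ℝ) ^ 69 / 2 ^ 80) := by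
      refine (Complex.re_le_norm _).trans ?_
      rw [norm_mul, norm_pow]
      exact mul_le_mul_of_nonneg_left h2 (by positivity)
    push_cast
    have e5 : (2 * ((CP.mul uuu g).xp : ℝ) + rsh (4 * CP.nup g) 80 -
        2 * (CP.mul uuu g).xq + 2) / 2 ^ 80 =
        ((CP.mul uuu g).xp - (CP.mul uuu g).xq + 1) / 2 ^ 80 +
        ((CP.mul uuu g).xp - (CP.mul uuu g).xq + 1) / 2 ^ 80 +
        (rsh (4 * CP.nup g) 80 : ℝ) / 2 ^ 80 := by ring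
    rw [e5]
    linarith
  have hρ : (0 : ℝ) < Z.ρ := by exact_mod_cast hZ.rho0
  have hm : (A / 2 ^ 30 : ℝ) * ((2 : ℝ) ^ 30 / Z.ρ) ^ 5 * (2 : ℝ) ^ 60 ≤ (mterm A Z.ρ 5 180 : ℕ) := by
    refine le_trans (le_of_eq ?_) (mterm_gt A Z.ρ 5 180 hZ.rho0).le
    field_simp
  have h3 := NF_num (2 * (CP.mul uuu g).xp + rsh (4 * CP.nup g) 80) (2 * (CP.mul uuu g).xq)
    (F3 A E.S4 (CP.mul Z.v2 Z.v2)) R E.M5
    (mterm A Z.ρ 5 180) L3 (rsh (F3 A E.S4 (CP.mul Z.v2 Z.v2) * R) 30)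
    (rsh (12 * ((E.M5 + mterm A Z.ρ 5 180) * (R * R))) 40)
    (rsh (L3 * (2 ^ 69 + (rsh (F3 A E.S4 (CP.mul Z.v2 Z.v2) * R) 30 +
      rsh (12 * ((E.M5 + mterm A Z.ρ 5 180) * (R * R))) 40))) 80) 12 2 5 (2 ^ 69)
    (u ^ 3 * ff2 b z (A / 2 ^ 30) c).re ‖ff3 b z (A / 2 ^ 30) c‖ (‖u‖ ^ 3)
    ((A / 2 ^ 30) * ((2 : ℝ) ^ 30 / Z.ρ) ^ 5) (by norm_num)
    (NF_rsh _ _ _ (by push_cast; ring)) (NF_rsh _ _ _ (by push_cast; ring))
    (NF_rsh _ _ _ (by push_cast; ring)) hm (by positivity) (by positivity) hL3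
    (F3_ok b z c (R / 2 ^ 30) E Z hE hZ A hA) hX h1
  simpa using h3

theorem ray3Cell_ok (b : ι → ℂ) (hb : Near b) (z : ℂ) (hz : ‖z - zcv‖ ≤ 1 / 2 ^ 56) (A0 A1 : ℕ)
    (hA : A0 ≤ A1) (hA1 : A1 ≤ 1000 * 2 ^ 30) (uuu : CP) (u : ℂ)
    (huuu : ‖uuu.val - u ^ 3‖ ≤ 2 / 2 ^ 80) (L3 : ℕ)
    (hL3 : ‖u‖ ^ 3 ≤ (L3 : ℝ) / 2 ^ 80) (cx cy R : ℕ) (h : ray3Cell A0 A1 uuu L3 cx cy R = true)
    (α : ℝ) (hα : α ∈ Icc ((A0 : ℝ) / 2 ^ 30) ((A1 : ℝ) / 2 ^ 30)) (w : ℂ)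
    (hw : w ∈ Metric.closedBall (ptv cx cy) (R / 2 ^ 30)) :
    (w ≠ z ∧ ∀ i, w ≠ b i) ∧ (u ^ 3 * ff2 b z α w).re < 0 := by
  obtain ⟨hok, hokz, h0, h1⟩ := NF_ray3Cell _ _ _ _ _ _ _ h
  have hE := ev_ok b hb cx cy R hok
  have hZ := zv_ok z hz cx cy R hokz
  generalize zv cx cy R = Z at h0 h1 hZ
  generalize ev cx cy R clusters = E at h0 h1 hE
  generalize ptv cx cy = c at hE hZ hw
  have hav : ∀ w ∈ Metric.closedBall c (R / 2 ^ 30), (∀ i, w ≠ b i) ∧ w ≠ z :=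
    fun w hw => avoid_ball b z c (R / 2 ^ 30) E Z hE hZ w hw
  refine ⟨⟨(hav w hw).2, (hav w hw).1⟩, ?_⟩
  have hα0 : 0 ≤ α := le_trans (by positivity) hα.1
  obtain ⟨s, t, hs, ht, hst, rfl⟩ := NF_comb hα
  have k0 := NF_one3 b z c R E Z hE hZ A0 (hA.trans hA1) uuu u huuu L3 hL3 h0
  have k1 := NF_one3 b z c R E Z hE hZ A1 hA1 uuu u huuu L3 hL3 h1
  have k2 := NF_lin (u ^ 3) _ _ _ _ (‖u‖ ^ 3) (R / 2 ^ 30) 12 _ _ _ _ s t (by positivity)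
    (by positivity) hs ht hst k0 k1
  refine NF_pt (ff2 b z (s * (A0 / 2 ^ 30) + t * (A1 / 2 ^ 30)))
    (ff3 b z (s * (A0 / 2 ^ 30) + t * (A1 / 2 ^ 30)))
    (ff4 b z (s * (A0 / 2 ^ 30) + t * (A1 / 2 ^ 30))) c (u ^ 3) w (R / 2 ^ 30) 12
    ((E.M5 : ℝ) / 2 ^ 60 + (s * (A0 / 2 ^ 30) + t * (A1 / 2 ^ 30)) * ((2 : ℝ) ^ 30 / Z.ρ) ^ 5)
    (‖u‖ ^ 3) (by rw [norm_pow]) (fun w hw => ff2_hasDeriv b z _ w (hav w hw).1 (hav w hw).2)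
    (fun w hw => ff3_hasDeriv b z _ w (hav w hw).1 (hav w hw).2) ?_ hw ?_
  · intro w hw
    have := ff4_ball b z c (R / 2 ^ 30) E Z hE hZ _ hα0 w hw
    linarith
  · have hS : (s : ℂ) + t = 1 := by exact_mod_cast hst
    have e1 : ff2 b z (s * (A0 / 2 ^ 30) + t * (A1 / 2 ^ 30)) c =
        (s : ℂ) * ff2 b z (A0 / 2 ^ 30) c + (t : ℂ) * ff2 b z (A1 / 2 ^ 30) c := by
      unfold ff2
      push_cast
      linear_combination (-(hh2 b c)) * hS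
    have e2 : ff3 b z (s * (A0 / 2 ^ 30) + t * (A1 / 2 ^ 30)) c =
        (s : ℂ) * ff3 b z (A0 / 2 ^ 30) c + (t : ℂ) * ff3 b z (A1 / 2 ^ 30) c := by
      unfold ff3
      push_cast
      linear_combination (-(hh3 b c)) * hS
    rw [e1, e2]
    exact k2

end Pool.Agent.SHD
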