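import Mathlib
import Pool.Agent.SHD.ND
import Pool.Agent.SHD.NB

set_option autoImplicit false

/-!
Soundness of the value cells (module NUME).
-/

noncomputable section

namespace Pool.Agent.SHD

open Polynomial Set

variable {ι : Type} [Fintype ι]

/-- the bound of `f'` in the ball `wc, r0`, an explicit convex function of `α` -/
def M1w (b : ι → ℂ) (z wc : ℂ) (r0 U V α : ℝ) : ℝ :=
  ‖ff1 b z α wc‖ + ‖ff2 b z α wc‖ * r0 + 3 * (U + α * V) * r0 ^ 2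

/-- meaning of the constants `C` of a block with the centre `wc` and the radius `r0` -/
structure BCok (b : ι → ℂ) (z : ℂ) (C : BC) (wc : ℂ) (r0 : ℝ) : Prop where
  a1 : C.A1 ≤ 1000 * 2 ^ 30
  a0 : C.A0 ≤ C.A1
  hw : |(C.HW : ℝ) / 2 ^ 80 - (2 * Real.log ‖(PP b).eval wc‖ + 60000 * Real.log 2)| ≤
    1 / 2 ^ 41 + 1 / 2 ^ 60
  lw : |(C.LW : ℝ) / 2 ^ 80 - (2 * Real.log ‖wc - z‖ + 160 * Real.log 2)| ≤
    1 / 2 ^ 41 + 1 / 2 ^ 46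
  av : ∀ w ∈ Metric.closedBall wc r0, (∀ i, w ≠ b i) ∧ w ≠ z
  sl : ∃ U V : ℝ, 0 ≤ U ∧ 0 ≤ V ∧
    (∀ α : ℝ, 0 ≤ α → ∀ w ∈ Metric.closedBall wc r0, ‖ff3 b z α w‖ ≤ 6 * (U + α * V)) ∧
    M1w b z wc r0 U V (C.A0 / 2 ^ 30) * r0 ^ 2 / 2 + 1 / 2 ^ 30 ≤ (C.s0 : ℝ) / 2 ^ 80 ∧
    M1w b z wc r0 U V (C.A1 / 2 ^ 30) * r0 ^ 2 / 2 + 1 / 2 ^ 30 ≤ (C.s1 : ℝ) / 2 ^ 80

theorem NE_slack_eq (A r0 ρ M4 F1w F2w : ℕ) : slack A r0 ρ M4 F1w F2w =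
    1125899906842624 + rsh ((F1w + (rsh (F2w * r0) 30 +
      rsh (3 * ((M4 + mterm A ρ 4 150) * (r0 * r0))) 40)) * (r0 * r0)) 61 := rfl

/-- soundness of `slack` -/
theorem slack_ok (b : ι → ℂ) (z wc : ℂ) (r0 : ℕ) (E : Ev) (Z : Zv)
    (hE : EvI E wc (r0 / 2 ^ 30) b) (hZ : ZvI Z wc (r0 / 2 ^ 30) z) (A : ℕ)
    (hA : A ≤ 1000 * 2 ^ 30) :
    M1w b z wc ((r0 : ℝ) / 2 ^ 30) ((E.M4 : ℝ) / 2 ^ 60) (((2 : ℝ) ^ 30 / Z.ρ) ^ 4) ((A : ℝ) / 2 ^ 30) *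
      ((r0 : ℝ) / 2 ^ 30) ^ 2 / 2 + 1 / 2 ^ 30 ≤
      ((slack A r0 Z.ρ E.M4 (F1 A E.S2 Z.v2) (F2 A E.S3 Z.v3) : ℕ) : ℝ) / 2 ^ 80 := by
  have h1 := F1_ok b z wc _ E Z hE hZ A hA
  have h2 := F2_ok b z wc _ E Z hE hZ A hA
  have hρ : (0 : ℝ) < Z.ρ := by exact_mod_cast hZ.rho0
  have hm := mterm_gt A Z.ρ 4 150 hZ.rho0
  rw [NE_slack_eq]
  generalize F1 A E.S2 Z.v2 = F1w at h1 ⊢
  generalize F2 A E.S3 Z.v3 = F2w at h2 ⊢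
  generalize mterm A Z.ρ 4 150 = mt at hm ⊢
  have g2 := rsh_gt (F2w * r0) 30
  generalize rsh (F2w * r0) 30 = x2 at g2 ⊢
  have g3 := rsh_gt (3 * ((E.M4 + mt) * (r0 * r0))) 40
  generalize rsh (3 * ((E.M4 + mt) * (r0 * r0))) 40 = x3 at g3 ⊢
  have g4 := rsh_gt ((F1w + (x2 + x3)) * (r0 * r0)) 61
  generalize rsh ((F1w + (x2 + x3)) * (r0 * r0)) 61 = x4 at g4 ⊢
  push_cast at g2 g3 g4 ⊢
  unfold M1w
  generalize ‖ff1 b z (A / 2 ^ 30) wc‖ = n1 at h1 ⊢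
  generalize ‖ff2 b z (A / 2 ^ 30) wc‖ = n2 at h2 ⊢
  have hr : (0 : ℝ) ≤ r0 := Nat.cast_nonneg _
  have hr2 : (0 : ℝ) ≤ (r0 : ℝ) * r0 := mul_nonneg hr hr
  have k2 : n2 * ((r0 : ℝ) / 2 ^ 30) ≤ x2 / 2 ^ 80 := by
    have e1 : n2 * ((r0 : ℝ) / 2 ^ 30) ≤ F2w / 2 ^ 80 * ((r0 : ℝ) / 2 ^ 30) :=
      mul_le_mul_of_nonneg_right h2 (by positivity)
    have e2 : (F2w : ℝ) / 2 ^ 80 * ((r0 : ℝ) / 2 ^ 30) = (F2w * r0 / 2 ^ 30) / 2 ^ 80 := by ring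
    rw [e2] at e1
    refine e1.trans ?_
    exact div_le_div_of_nonneg_right g2.le (by positivity)
  have k3 : 3 * ((E.M4 : ℝ) / 2 ^ 60 + A / 2 ^ 30 * ((2 : ℝ) ^ 30 / Z.ρ) ^ 4) * ((r0 : ℝ) / 2 ^ 30) ^ 2 ≤
      x3 / 2 ^ 80 := by
    have e1 : 3 * ((E.M4 : ℝ) / 2 ^ 60 + A / 2 ^ 30 * ((2 : ℝ) ^ 30 / Z.ρ) ^ 4) * ((r0 : ℝ) / 2 ^ 30) ^ 2 =
        (3 * ((E.M4 + A * 2 ^ 150 / (Z.ρ : ℝ) ^ 4) * (r0 * r0)) / 2 ^ 40) / 2 ^ 80 := by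
      field_simp
    rw [e1]
    apply div_le_div_of_nonneg_right _ (by positivity)
    refine le_trans ?_ g3.le
    apply div_le_div_of_nonneg_right _ (by positivity)
    have e2 : ((E.M4 : ℝ) + A * 2 ^ 150 / (Z.ρ : ℝ) ^ 4) * (r0 * r0) ≤ ((E.M4 : ℝ) + mt) * (r0 * r0) :=
      mul_le_mul_of_nonneg_right (by linarith) hr2
    linarith
  have k4 : n1 + n2 * ((r0 : ℝ) / 2 ^ 30) +
      3 * ((E.M4 : ℝ) / 2 ^ 60 + A / 2 ^ 30 * ((2 : ℝ) ^ 30 / Z.ρ) ^ 4) * ((r0 : ℝ) / 2 ^ 30) ^ 2 ≤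
      (F1w + (x2 + x3)) / 2 ^ 80 := by
    have e3 : ((F1w : ℝ) + (x2 + x3)) / 2 ^ 80 = F1w / 2 ^ 80 + x2 / 2 ^ 80 + x3 / 2 ^ 80 := by ring
    rw [e3]
    linarith
  have k5 : (n1 + n2 * ((r0 : ℝ) / 2 ^ 30) +
      3 * ((E.M4 : ℝ) / 2 ^ 60 + A / 2 ^ 30 * ((2 : ℝ) ^ 30 / Z.ρ) ^ 4) * ((r0 : ℝ) / 2 ^ 30) ^ 2) *
      ((r0 : ℝ) / 2 ^ 30) ^ 2 ≤ (F1w + (x2 + x3)) / 2 ^ 80 * ((r0 : ℝ) / 2 ^ 30) ^ 2 :=
    mul_le_mul_of_nonneg_right k4 (by positivity)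
  have k6 : ((F1w : ℝ) + (x2 + x3)) / 2 ^ 80 * ((r0 : ℝ) / 2 ^ 30) ^ 2 =
      2 * (((F1w + (x2 + x3)) * (r0 * r0) / 2 ^ 61) / 2 ^ 80) := by ring
  have k7 : (((F1w : ℝ) + (x2 + x3)) * (r0 * r0) / 2 ^ 61) / 2 ^ 80 ≤ x4 / 2 ^ 80 :=
    div_le_div_of_nonneg_right g4.le (by positivity)
  have k8 : ((1125899906842624 : ℝ) + x4) / 2 ^ 80 = 1 / 2 ^ 30 + x4 / 2 ^ 80 := by
    rw [add_div]
    congr 1
    norm_num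
  rw [k8]
  linarith

/-- a convex function which is negative at both ends of an interval is negative -/
theorem convex_neg (G : ℝ → ℝ) (a c : ℝ) (hG : ConvexOn ℝ (Icc a c) G) (ha : G a < 0)
    (hc : G c < 0) (α : ℝ) (hα : α ∈ Icc a c) : G α < 0 := by
  have hac : a ≤ c := hα.1.trans hα.2
  have h1 := hG.le_max_of_mem_Icc (left_mem_Icc.2 hac) (right_mem_Icc.2 hac) hα
  exact lt_of_le_of_lt h1 (max_lt ha hc)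

/-- the norm of an affine function is convex -/
theorem NE_convex (s : Set ℝ) (hs : Convex ℝ s) (u v : ℂ) : ConvexOn ℝ s (fun α : ℝ => ‖u + α * v‖) := by
  refine ⟨hs, ?_⟩
  intro x _ y _ p q hp hq hpq
  have e1 : u + ((p • x + q • y : ℝ) : ℂ) * v = (p : ℂ) * (u + x * v) + (q : ℂ) * (u + y * v) := by
    have e2 : (p : ℂ) + q = 1 := by exact_mod_cast hpq
    simp only [smul_eq_mul]
    push_cast
    linear_combination (-1 : ℂ) * u * e2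
  show ‖u + ((p • x + q • y : ℝ) : ℂ) * v‖ ≤ p • ‖u + x * v‖ + q • ‖u + y * v‖
  rw [e1]
  refine (norm_add_le _ _).trans (le_of_eq ?_)
  rw [norm_mul, norm_mul, Complex.norm_real, Complex.norm_real, Real.norm_of_nonneg hp,
    Real.norm_of_nonneg hq]
  simp only [smul_eq_mul]

theorem NE_ff (b : ι → ℂ) (z : ℂ) (α : ℝ) (w : ℂ) : ff b z α w = hh b w + α * (-(w - z)⁻¹) := by
  unfold ff
  ring

theorem NE_ff1 (b : ι → ℂ) (z : ℂ) (α : ℝ) (w : ℂ) :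
    ff1 b z α w = hh1 b w + α * ((w - z)⁻¹) ^ 2 := rfl

theorem NE_ff2 (b : ι → ℂ) (z : ℂ) (α : ℝ) (w : ℂ) :
    ff2 b z α w = hh2 b w + α * (-2 * ((w - z)⁻¹) ^ 3) := by
  unfold ff2
  ring

/-- the function whose sign is checked -/
def NE_G (b : ι → ℂ) (z c wc : ℂ) (R r0 U3 V3 U V α : ℝ) : ℝ :=
  Lam b z α c - Lam b z α wc + (‖ff b z α c‖ * R + ‖ff1 b z α c‖ * R ^ 2 / 2 +
    2 * (U3 + α * V3) * R ^ 3 / 6) + M1w b z wc r0 U V α * r0 ^ 2 / 2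

theorem NE_G_convex (b : ι → ℂ) (z c wc : ℂ) (R r0 U3 V3 U V : ℝ) (hR : 0 ≤ R) (hr0 : 0 ≤ r0)
    (s : Set ℝ) (hs : Convex ℝ s) : ConvexOn ℝ s (NE_G b z c wc R r0 U3 V3 U V) := by
  have h1 := (NE_convex s hs (hh b c) (-(c - z)⁻¹)).smul hR
  have h2 := (NE_convex s hs (hh1 b c) (((c - z)⁻¹) ^ 2)).smul (show 0 ≤ R ^ 2 / 2 by positivity)
  have h3 := (NE_convex s hs (hh1 b wc) (((wc - z)⁻¹) ^ 2)).smul (show 0 ≤ r0 ^ 2 / 2 by positivity)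
  have h4 := (NE_convex s hs (hh2 b wc) (-2 * ((wc - z)⁻¹) ^ 3)).smul
    (show 0 ≤ r0 * (r0 ^ 2 / 2) by positivity)
  have h5 : ConvexOn ℝ s (fun α : ℝ => (Real.log ‖(PP b).eval c‖ - Real.log ‖(PP b).eval wc‖ +
      2 * U3 * R ^ 3 / 6 + 3 * U * r0 ^ 2 * r0 ^ 2 / 2) +
      (Real.log ‖wc - z‖ - Real.log ‖c - z‖ + 2 * V3 * R ^ 3 / 6 + 3 * V * r0 ^ 2 * r0 ^ 2 / 2) * α) := by
    refine ⟨hs, ?_⟩
    intro x _ y _ p q _ _ hpq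
    apply le_of_eq
    simp only [smul_eq_mul]
    generalize (Real.log ‖(PP b).eval c‖ - Real.log ‖(PP b).eval wc‖ +
      2 * U3 * R ^ 3 / 6 + 3 * U * r0 ^ 2 * r0 ^ 2 / 2) = κ
    linear_combination (-1 : ℝ) * κ * hpq
  have h6 := (((h1.add h2).add h3).add h4).add h5
  refine h6.congr ?_
  intro α _
  show R • ‖hh b c + α * (-(c - z)⁻¹)‖ + (R ^ 2 / 2) • ‖hh1 b c + α * ((c - z)⁻¹) ^ 2‖ +
    (r0 ^ 2 / 2) • ‖hh1 b wc + α * ((wc - z)⁻¹) ^ 2‖ +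
    (r0 * (r0 ^ 2 / 2)) • ‖hh2 b wc + α * (-2 * ((wc - z)⁻¹) ^ 3)‖ + _ = _
  simp only [smul_eq_mul]
  unfold NE_G M1w Lam
  rw [NE_ff, NE_ff1, NE_ff1, NE_ff2]
  ring

theorem NE_shift_lo (a k : ℕ) : (a : ℝ) / 2 ^ k - 1 ≤ ((a >>> k : ℕ) : ℝ) := by
  rw [Nat.shiftRight_eq_div_pow]
  have h2 : (0 : ℝ) < 2 ^ k := by positivity
  have h1 : a < (a / 2 ^ k + 1) * 2 ^ k := by
    have := Nat.lt_div_mul_add (a := a) (b := 2 ^ k) (by positivity)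
    rw [add_mul, one_mul]
    exact this
  have h3 : (a : ℝ) < ((a / 2 ^ k : ℕ) + 1) * 2 ^ k := by exact_mod_cast h1
  rw [sub_le_iff_le_add, div_le_iff₀ h2]
  exact h3.le

theorem NE_shift_hi (a k : ℕ) : ((a >>> k : ℕ) : ℝ) ≤ (a : ℝ) / 2 ^ k := by
  rw [Nat.shiftRight_eq_div_pow]
  have h2 : (0 : ℝ) < 2 ^ k := by positivity
  rw [le_div_iff₀ h2]
  exact_mod_cast Nat.div_mul_le_self a (2 ^ k)

theorem NE_valA (A R H lz HW LW s ρ M3 : ℕ) (S1 S2 v v2 : CP) (hρ : 0 < ρ)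
    (h : valA A R H lz HW LW s ρ M3 S1 S2 v v2 = true) :
    (H : ℝ) / 2 + A * LW / 2 ^ 31 + (F0 A S1 v * R / 2 ^ 30 + F1 A S2 v2 * (R * R) / 2 ^ 61 +
      (M3 + A * 2 ^ 120 / (ρ : ℝ) ^ 3) * R ^ 3 / 3 / 2 ^ 70 + s) ≤
      (HW : ℝ) / 2 + A * lz / 2 ^ 31 + 4 := by
  have h1 : (H >>> 1) + ((A * LW) >>> 31) + ((rsh (F0 A S1 v * R) 30 + rsh (F1 A S2 v2 * (R * R)) 61) +
      (rsh (((M3 + mterm A ρ 3 120) * (R * (R * R))) / 3) 70 + s)) ≤ (HW >>> 1) + ((A * lz) >>> 31) :=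
    Nat.le_of_ble_eq_true h
  have hm := mterm_gt A ρ 3 120 hρ
  generalize mterm A ρ 3 120 = mt at h1 hm
  have g1 := rsh_gt (F0 A S1 v * R) 30
  have g2 := rsh_gt (F1 A S2 v2 * (R * R)) 61
  have g3 := rsh_gt (((M3 + mt) * (R * (R * R))) / 3) 70
  have g4 := NE_shift_lo H 1
  have g5 := NE_shift_lo (A * LW) 31
  have g6 := NE_shift_hi HW 1
  have g7 := NE_shift_hi (A * lz) 31
  have h2 : ((H >>> 1 : ℕ) : ℝ) + (((A * LW) >>> 31 : ℕ) : ℝ) + (((rsh (F0 A S1 v * R) 30 : ℕ) +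
      (rsh (F1 A S2 v2 * (R * R)) 61 : ℕ)) +
      ((rsh (((M3 + mt) * (R * (R * R))) / 3) 70 : ℕ) + (s : ℝ))) ≤
      ((HW >>> 1 : ℕ) : ℝ) + (((A * lz) >>> 31 : ℕ) : ℝ) := by exact_mod_cast h1
  have g8 : (((M3 + mt) * (R * (R * R)) : ℕ) : ℝ) / 3 - 1 ≤ ((((M3 + mt) * (R * (R * R))) / 3 : ℕ) : ℝ) := by
    generalize (M3 + mt) * (R * (R * R)) = X
    have h3 : X < (X / 3 + 1) * 3 := by omega
    have h4 : (X : ℝ) < ((X / 3 : ℕ) + 1) * 3 := by exact_mod_cast h3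
    linarith
  have g9 : ((M3 : ℝ) + A * 2 ^ 120 / (ρ : ℝ) ^ 3) * R ^ 3 / 3 / 2 ^ 70 - 1 ≤
      ((((M3 + mt) * (R * (R * R))) / 3 : ℕ) : ℝ) / 2 ^ 70 := by
    push_cast at g8
    have e1 : ((M3 : ℝ) + A * 2 ^ 120 / (ρ : ℝ) ^ 3) * R ^ 3 ≤ (M3 + mt) * (R * (R * R)) := by
      have e2 : ((M3 : ℝ) + A * 2 ^ 120 / (ρ : ℝ) ^ 3) * (R * (R * R)) ≤ (M3 + mt) * (R * (R * R)) :=
        mul_le_mul_of_nonneg_right (by linarith) (by positivity)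
      refine le_trans (le_of_eq ?_) e2
      ring
    have e3 : ((M3 : ℝ) + A * 2 ^ 120 / (ρ : ℝ) ^ 3) * R ^ 3 / 3 - 1 ≤
        ((((M3 + mt) * (R * (R * R))) / 3 : ℕ) : ℝ) := by linarith
    have e4 : (((M3 : ℝ) + A * 2 ^ 120 / (ρ : ℝ) ^ 3) * R ^ 3 / 3 - 1) / 2 ^ 70 ≤
        ((((M3 + mt) * (R * (R * R))) / 3 : ℕ) : ℝ) / 2 ^ 70 :=
      div_le_div_of_nonneg_right e3 (by positivity)
    refine le_trans ?_ e4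
    rw [sub_div]
    have : (1 : ℝ) / 2 ^ 70 ≤ 1 := by norm_num
    linarith
  push_cast at g1 g2 g5 g7
  rw [pow_one] at g4 g6
  linarith

/-- the meaning of the check for one `α` -/
theorem NE_neg (b : ι → ℂ) (z c wc : ℂ) (R : ℕ) (r0 U V : ℝ) (E : Ev) (Z : Zv)
    (hE : EvI E c (R / 2 ^ 30) b) (hZ : ZvI Z c (R / 2 ^ 30) z) (A HW LW s H lz : ℕ)
    (hA : A ≤ 1000 * 2 ^ 30) (hH : |(H : ℝ) / 2 ^ 80 - Real.log E.Q| ≤ 1 / 2 ^ 41)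
    (hlz : |(lz : ℝ) / 2 ^ 80 - Real.log Z.N| ≤ 1 / 2 ^ 41)
    (hw : |(HW : ℝ) / 2 ^ 80 - (2 * Real.log ‖(PP b).eval wc‖ + 60000 * Real.log 2)| ≤
      1 / 2 ^ 41 + 1 / 2 ^ 60)
    (lw : |(LW : ℝ) / 2 ^ 80 - (2 * Real.log ‖wc - z‖ + 160 * Real.log 2)| ≤
      1 / 2 ^ 41 + 1 / 2 ^ 46)
    (hs : M1w b z wc r0 U V (A / 2 ^ 30) * r0 ^ 2 / 2 + 1 / 2 ^ 30 ≤ (s : ℝ) / 2 ^ 80)
    (h : valA A R H lz HW LW s Z.ρ E.M3 E.S1 E.S2 Z.v Z.v2 = true) :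
    NE_G b z c wc (R / 2 ^ 30) r0 (E.M3 / 2 ^ 60) (((2 : ℝ) ^ 30 / Z.ρ) ^ 3) U V (A / 2 ^ 30) < 0 := by
  have h1 := NE_valA A R H lz HW LW s Z.ρ E.M3 E.S1 E.S2 Z.v Z.v2 hZ.rho0 h
  have f0 := F0_ok b z c _ E Z hE hZ A hA
  have f1 := F1_ok b z c _ E Z hE hZ A hA
  have hρ : (0 : ℝ) < Z.ρ := by exact_mod_cast hZ.rho0
  have q1 := hE.q
  have q2 := hZ.n
  rw [abs_le] at q1 q2 hH hlz hw lw
  have hR : (0 : ℝ) ≤ R := Nat.cast_nonneg _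
  have hα0 : (0 : ℝ) ≤ (A : ℝ) / 2 ^ 30 := by positivity
  have hα1 : (A : ℝ) / 2 ^ 30 ≤ 1000 := by
    rw [div_le_iff₀ (by positivity)]
    exact_mod_cast hA
  unfold NE_G Lam
  generalize ‖ff b z (A / 2 ^ 30) c‖ = n0 at f0 ⊢
  generalize ‖ff1 b z (A / 2 ^ 30) c‖ = n1 at f1 ⊢
  generalize M1w b z wc r0 U V (A / 2 ^ 30) * r0 ^ 2 / 2 = m1 at hs ⊢
  generalize F0 A E.S1 Z.v = F0w at h1 f0
  generalize F1 A E.S2 Z.v2 = F1w at h1 f1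
  generalize Real.log E.Q = lQ at hH q1
  generalize Real.log Z.N = lN at hlz q2
  generalize Real.log ‖(PP b).eval c‖ = lc at q1 ⊢
  generalize Real.log ‖(PP b).eval wc‖ = lwc at hw ⊢
  generalize Real.log ‖c - z‖ = lcz at q2 ⊢
  generalize Real.log ‖wc - z‖ = lwz at lw ⊢
  -- divide by 2 ^ 80
  have h2 : (H : ℝ) / 2 ^ 80 / 2 + (A : ℝ) / 2 ^ 30 * (LW / 2 ^ 80) / 2 + (F0w / 2 ^ 80 * (R / 2 ^ 30) +
      F1w / 2 ^ 80 * (R / 2 ^ 30) ^ 2 / 2 +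
      2 * (E.M3 / 2 ^ 60 + A / 2 ^ 30 * ((2 : ℝ) ^ 30 / Z.ρ) ^ 3) * (R / 2 ^ 30) ^ 3 / 6 + s / 2 ^ 80) ≤
      (HW : ℝ) / 2 ^ 80 / 2 + (A : ℝ) / 2 ^ 30 * (lz / 2 ^ 80) / 2 + 4 / 2 ^ 80 := by
    have h3 := div_le_div_of_nonneg_right h1 (show (0 : ℝ) ≤ 2 ^ 80 by positivity)
    have e1 : ((H : ℝ) / 2 + A * LW / 2 ^ 31 + (F0w * R / 2 ^ 30 + F1w * (R * R) / 2 ^ 61 +
        (E.M3 + A * 2 ^ 120 / (Z.ρ : ℝ) ^ 3) * R ^ 3 / 3 / 2 ^ 70 + s)) / 2 ^ 80 =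
        (H : ℝ) / 2 ^ 80 / 2 + (A : ℝ) / 2 ^ 30 * (LW / 2 ^ 80) / 2 + (F0w / 2 ^ 80 * (R / 2 ^ 30) +
        F1w / 2 ^ 80 * (R / 2 ^ 30) ^ 2 / 2 +
        2 * (E.M3 / 2 ^ 60 + A / 2 ^ 30 * ((2 : ℝ) ^ 30 / Z.ρ) ^ 3) * (R / 2 ^ 30) ^ 3 / 6 + s / 2 ^ 80) := by
      field_simp
      ring
    have e2 : ((HW : ℝ) / 2 + A * lz / 2 ^ 31 + 4) / 2 ^ 80 =
        (HW : ℝ) / 2 ^ 80 / 2 + (A : ℝ) / 2 ^ 30 * (lz / 2 ^ 80) / 2 + 4 / 2 ^ 80 := by ring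
    rw [e1, e2] at h3
    exact h3
  have k0 : n0 * (R / 2 ^ 30) ≤ F0w / 2 ^ 80 * (R / 2 ^ 30) :=
    mul_le_mul_of_nonneg_right f0 (by positivity)
  have k1 : n1 * ((R : ℝ) / 2 ^ 30) ^ 2 / 2 ≤ F1w / 2 ^ 80 * (R / 2 ^ 30) ^ 2 / 2 := by
    have := mul_le_mul_of_nonneg_right f1 (show 0 ≤ ((R : ℝ) / 2 ^ 30) ^ 2 by positivity)
    linarith
  generalize 2 * (E.M3 / 2 ^ 60 + A / 2 ^ 30 * ((2 : ℝ) ^ 30 / Z.ρ) ^ 3) * (R / 2 ^ 30) ^ 3 / 6 = m3 at h2 ⊢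
  generalize n0 * ((R : ℝ) / 2 ^ 30) = p0 at k0 ⊢
  generalize (F0w : ℝ) / 2 ^ 80 * (R / 2 ^ 30) = P0 at k0 h2
  generalize n1 * ((R : ℝ) / 2 ^ 30) ^ 2 / 2 = p1 at k1 ⊢
  generalize (F1w : ℝ) / 2 ^ 80 * (R / 2 ^ 30) ^ 2 / 2 = P1 at k1 h2
  generalize (A : ℝ) / 2 ^ 30 = α at h2 hα0 hα1 ⊢
  have k2 : α * (lz / 2 ^ 80) ≤ α * (2 * lcz + 160 * Real.log 2 + (1 / 2 ^ 41 + 1 / 2 ^ 46)) :=
    mul_le_mul_of_nonneg_left (by linarith [hlz.2, q2.2]) hα0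
  have k3 : α * (2 * lwz + 160 * Real.log 2 - (1 / 2 ^ 41 + 1 / 2 ^ 46)) ≤ α * (LW / 2 ^ 80) :=
    mul_le_mul_of_nonneg_left (by linarith [lw.1]) hα0
  have k4 : α * (1 / 2 ^ 41 + 1 / 2 ^ 46) ≤ 1000 * (1 / 2 ^ 41 + 1 / 2 ^ 46) :=
    mul_le_mul_of_nonneg_right hα1 (by norm_num)
  have k5 : (1 : ℝ) / 2 ^ 41 + 1 / 2 ^ 60 + 1000 * (1 / 2 ^ 41 + 1 / 2 ^ 46) + 4 / 2 ^ 80 < 1 / 2 ^ 30 := by
    norm_num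
  nlinarith [k0, k1, k2, k3, k4, k5, h2, hs, hH.1, q1.1, hw.2]

theorem valCell_ok (b : ι → ℂ) (hb : Near b) (z : ℂ) (hz : ‖z - zcv‖ ≤ 1 / 2 ^ 56) (C : BC)
    (wc : ℂ) (r0 : ℝ) (hr0 : 0 ≤ r0) (hC : BCok b z C wc r0) (cx cy R t tz : ℕ)
    (h : valCell C cx cy R t tz = true) (α : ℝ)
    (hα : α ∈ Icc ((C.A0 : ℝ) / 2 ^ 30) ((C.A1 : ℝ) / 2 ^ 30)) (w₀ : ℂ)
    (hw₀ : w₀ ∈ Metric.closedBall wc r0) (h0 : ff b z α w₀ = 0) (w : ℂ)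
    (hw : w ∈ Metric.closedBall (ptv cx cy) (R / 2 ^ 30)) :
    w ≠ z ∧ lev b z α w < lev b z α w₀ := by
  have hE' := ev_ok b hb cx cy R
  have hZ' := zv_ok z hz cx cy R
  have hchk : ∃ (E : Ev) (Z : Zv), EvI E (ptv cx cy) (R / 2 ^ 30) b ∧
      ZvI Z (ptv cx cy) (R / 2 ^ 30) z ∧ 1 ≤ lg E.Q t ∧ 1 ≤ lg Z.N tz ∧
      valA C.A0 R (lg E.Q t) (lg Z.N tz) C.HW C.LW C.s0 Z.ρ E.M3 E.S1 E.S2 Z.v Z.v2 = true ∧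
      valA C.A1 R (lg E.Q t) (lg Z.N tz) C.HW C.LW C.s1 Z.ρ E.M3 E.S1 E.S2 Z.v Z.v2 = true := by
    unfold valCell at h
    generalize ev cx cy R clusters = E at h hE'
    generalize zv cx cy R = Z at h hZ'
    obtain ⟨S1, S2, S3, S4, M3, M4, M5, Q, ok⟩ := E
    obtain ⟨N, ρ, v, v2, v3, okz⟩ := Z
    obtain ⟨A0, A1, HW, LW, s0, s1⟩ := C
    dsimp only at h
    rw [Bool.and_eq_true, Bool.and_eq_true, Bool.and_eq_true, Bool.and_eq_true, Bool.and_eq_true] at h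
    obtain ⟨⟨h1, h2⟩, ⟨h3, h4⟩, h5, h6⟩ := h
    exact ⟨_, _, hE' h1, hZ' h2, Nat.le_of_ble_eq_true h3, Nat.le_of_ble_eq_true h4, h5, h6⟩
  obtain ⟨E, Z, hE, hZ, l1, l2, v1, v2⟩ := hchk
  obtain ⟨U, V, hU, hV, hff3, hs0, hs1⟩ := hC.sl
  obtain ⟨-, hH⟩ := lg_spec _ _ l1
  obtain ⟨-, hlz⟩ := lg_spec _ _ l2
  have hA0 : C.A0 ≤ 1000 * 2 ^ 30 := hC.a0.trans hC.a1
  have hR : (0 : ℝ) ≤ (R : ℝ) / 2 ^ 30 := by positivity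
  have n0 := NE_neg b z (ptv cx cy) wc R r0 U V E Z hE hZ C.A0 C.HW C.LW C.s0 _ _ hA0 hH hlz hC.hw hC.lw
    hs0 v1
  have n1 := NE_neg b z (ptv cx cy) wc R r0 U V E Z hE hZ C.A1 C.HW C.LW C.s1 _ _ hC.a1 hH hlz hC.hw hC.lw
    hs1 v2
  have hG := convex_neg _ _ _ (NE_G_convex b z (ptv cx cy) wc (R / 2 ^ 30) r0 (E.M3 / 2 ^ 60)
    (((2 : ℝ) ^ 30 / Z.ρ) ^ 3) U V hR hr0 _ (convex_Icc _ _)) n0 n1 α hα
  have hα0 : 0 ≤ α := le_trans (by positivity) hα.1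
  have av1 := avoid_ball b z _ _ E Z hE hZ
  have hwav := av1 w hw
  have hw0av := hC.av w₀ hw₀
  refine ⟨hwav.2, ?_⟩
  have t1 := tay_Lam b z α (ptv cx cy) (R / 2 ^ 30) _ av1 (ff2_ball b z _ _ E Z hE hZ α hα0) w hw
  have hM1 : ∀ w ∈ Metric.closedBall wc r0, ‖ff1 b z α w‖ ≤ M1w b z wc r0 U V α := by
    intro w hw
    have t2 := tay2 (ff1 b z α) (ff2 b z α) (ff3 b z α) wc r0 (6 * (U + α * V))
      (fun w hw => ff1_hasDeriv b z α w (hC.av w hw).1 (hC.av w hw).2)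
      (fun w hw => ff2_hasDeriv b z α w (hC.av w hw).1 (hC.av w hw).2)
      (hff3 α hα0) w hw
    have hd : ‖w - wc‖ ≤ r0 := by
      rw [← dist_eq_norm]
      exact Metric.mem_closedBall.1 hw
    have hUV : 0 ≤ U + α * V := by positivity
    have e1 : ff1 b z α w = (ff1 b z α w - ff1 b z α wc - ff2 b z α wc * (w - wc)) +
        (ff1 b z α wc + ff2 b z α wc * (w - wc)) := by ring
    have e2 : ‖ff1 b z α w‖ ≤ ‖ff1 b z α w - ff1 b z α wc - ff2 b z α wc * (w - wc)‖ +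
        (‖ff1 b z α wc‖ + ‖ff2 b z α wc‖ * ‖w - wc‖) := by
      rw [← norm_mul]
      conv_lhs => rw [e1]
      refine (norm_add_le _ _).trans ?_
      have := norm_add_le (ff1 b z α wc) (ff2 b z α wc * (w - wc))
      linarith
    have e3 : ‖ff2 b z α wc‖ * ‖w - wc‖ ≤ ‖ff2 b z α wc‖ * r0 :=
      mul_le_mul_of_nonneg_left hd (norm_nonneg _)
    have e4 : 6 * (U + α * V) * ‖w - wc‖ ^ 2 / 2 ≤ 3 * (U + α * V) * r0 ^ 2 := by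
      have : ‖w - wc‖ ^ 2 ≤ r0 ^ 2 := pow_le_pow_left₀ (norm_nonneg _) hd 2
      have := mul_le_mul_of_nonneg_left this hUV
      linarith
    unfold M1w
    linarith
  have t3 := tay_saddle b z α wc r0 _ hC.av hM1 w₀ hw₀ h0
  apply lev_lt_of_Lam b z α w w₀ hwav.1 hwav.2 hw0av.1 hw0av.2
  rw [abs_le] at t1 t3
  unfold NE_G at hG
  linarith [t1.2, t3.1]

end Pool.Agent.SHD
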