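import Mathlib
import Pool.Agent.SHD.NE
import Pool.Agent.SHD.NCheck
import Pool.Agent.SHD.RootSeq

set_option autoImplicit false

/-!
Soundness of the root condition and of the constants of a block (module NUMG).
-/

noncomputable section

namespace Pool.Agent.SHD

open Polynomial Set

variable {ι : Type} [Fintype ι]

private lemma NG_unfold (r0 Am A1 ρ M4 : ℕ) (S1 S2 S3 v v2 v3 : CP) :
    root1 r0 Am A1 ρ M4 S1 S2 S3 v v2 v3 =
      root3 r0 (F0 Am S1 v) (rsh ((A1 - Am) * (CP.nup v + 2199023255552)) 30)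
        (rsh ((A1 - Am) * (CP.nup v2 + 1125899906842624)) 30)
        (rsh ((A1 - Am) * (CP.nup v3 + 288230376151711744)) 30)
        (adist (CP.sub (CP.amul Am v2) S2).xp (CP.sub (CP.amul Am v2) S2).xq)
        (adist (CP.sub (CP.amul Am v2) S2).yp (CP.sub (CP.amul Am v2) S2).yq)
        (F2 Am S3 v3) (M4 + mterm A1 ρ 4 150) := rfl

private lemma NG_unfold3 (r0 F d1 d2 d3 X Y F2m M : ℕ) :
    root3 r0 F d1 d2 d3 X Y F2m M =
      Nat.ble (F + d1) (((((X * X + Y * Y) / mup X Y - 1152921504606846976) -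
        (d2 + (rsh ((F2m + 2 * d3) * r0) 30 + rsh (3 * (M * (r0 * r0))) 40))) * r0) >>> 30) := rfl

private lemma NG_norm (g : CP) : ‖g.val‖ * 2 ^ 80 =
    Real.sqrt ((adist g.xp g.xq : ℝ) ^ 2 + (adist g.yp g.yq : ℝ) ^ 2) := by
  rw [Complex.norm_eq_sqrt_sq_add_sq, adist_eq, adist_eq, sq_abs, sq_abs]
  have h1 : g.val.re ^ 2 + g.val.im ^ 2 =
      (((g.xp : ℝ) - g.xq) ^ 2 + ((g.yp : ℝ) - g.yq) ^ 2) / (2 ^ 80) ^ 2 := by
    simp only [CP.val]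
    ring
  rw [h1, Real.sqrt_div (by positivity), Real.sqrt_sq (by positivity)]
  field_simp

/-- the difference in `α` -/
private lemma NG_dA (x : ℂ) (v : CP) (d : ℝ) (dA D K : ℕ) (hd : |d| ≤ (dA : ℝ) / 2 ^ 30)
    (hv : ‖v.val - x‖ ≤ (K : ℝ) / 2 ^ 80)
    (hD : D = rsh (dA * (CP.nup v + K)) 30) : |d| * ‖x‖ ≤ (D : ℝ) / 2 ^ 80 := by
  have h1 : ‖x‖ ≤ ((CP.nup v : ℝ) + K) / 2 ^ 80 := by
    have h2 : ‖x‖ ≤ ‖v.val‖ + ‖v.val - x‖ := by
      have : x = v.val - (v.val - x) := by ring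
      calc ‖x‖ = ‖v.val - (v.val - x)‖ := by rw [← this]
        _ ≤ _ := norm_sub_le _ _
    have h3 := CP.nup_ge v
    rw [add_div]
    linarith
  have h4 := rsh_gt (dA * (CP.nup v + K)) 30
  rw [← hD] at h4
  push_cast at h4
  calc |d| * ‖x‖ ≤ ((dA : ℝ) / 2 ^ 30) * (((CP.nup v : ℝ) + K) / 2 ^ 80) :=
        mul_le_mul hd h1 (norm_nonneg _) (by positivity)
    _ = ((dA : ℝ) * ((CP.nup v : ℝ) + K) / 2 ^ 30) / 2 ^ 80 := by ring
    _ ≤ _ := by gcongr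

theorem root1_ok (b : ι → ℂ) (z : ℂ) (x y r0 A0 A1 : ℕ) (hA : A0 < A1)
    (hA1 : A1 ≤ 1000 * 2 ^ 30) (hr0 : 1 ≤ r0) (E : Ev) (Z : Zv)
    (hE : EvI E (ptv x y) (r0 / 2 ^ 30) b) (hZ : ZvI Z (ptv x y) (r0 / 2 ^ 30) z)
    (h : root1 r0 (Nat.shiftRight (Nat.add A0 A1) 1) A1 Z.ρ E.M4 E.S1 E.S2 E.S3 Z.v Z.v2 Z.v3 =
      true) (α : ℝ) (hα : α ∈ Icc ((A0 : ℝ) / 2 ^ 30) ((A1 : ℝ) / 2 ^ 30)) :
    ∃ w ∈ Metric.closedBall (ptv x y) (r0 / 2 ^ 30), ff b z α w = 0 := by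
  set Am := Nat.shiftRight (Nat.add A0 A1) 1 with hAm
  have hAm' : Am = (A0 + A1) / 2 := by
    rw [hAm]
    show (A0 + A1) >>> 1 = _
    rw [Nat.shiftRight_eq_div_pow, pow_one]
  have hAmA1 : Am ≤ A1 := by omega
  have hAmle : 2 * Am ≤ A0 + A1 := by omega
  have hAm1000 : Am ≤ 1000 * 2 ^ 30 := le_trans hAmA1 hA1
  set c := ptv x y with hc
  set αm : ℝ := (Am : ℝ) / 2 ^ 30 with hαm
  -- the difference of the parameters
  have hd : |α - αm| ≤ ((A1 - Am : ℕ) : ℝ) / 2 ^ 30 := by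
    rw [Nat.cast_sub hAmA1, abs_le]
    have h1 : (2 : ℝ) * Am ≤ A0 + A1 := by exact_mod_cast hAmle
    have h2 := hα.1
    have h3 := hα.2
    rw [hαm]
    constructor
    · have : -(((A1 : ℝ) - Am) / 2 ^ 30) ≤ (A0 : ℝ) / 2 ^ 30 - (Am : ℝ) / 2 ^ 30 := by
        rw [← neg_div, ← sub_div]
        gcongr
        linarith
      linarith
    · rw [sub_div]
      linarith
  have hα0 : 0 ≤ α := le_trans (by positivity) hα.1
  rw [NG_unfold, NG_unfold3] at h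
  have h := Nat.le_of_ble_eq_true h
  rw [Nat.shiftRight_eq_div_pow] at h
  set g := CP.sub (CP.amul Am Z.v2) E.S2 with hg
  set d1 := rsh ((A1 - Am) * (CP.nup Z.v + 2199023255552)) 30 with hd1
  set d2 := rsh ((A1 - Am) * (CP.nup Z.v2 + 1125899906842624)) 30 with hd2
  set d3 := rsh ((A1 - Am) * (CP.nup Z.v3 + 288230376151711744)) 30 with hd3
  set G0 := (adist g.xp g.xq * adist g.xp g.xq + adist g.yp g.yq * adist g.yp g.yq) /
    mup (adist g.xp g.xq) (adist g.yp g.yq) with hG0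
  set e1 := rsh ((F2 Am E.S3 Z.v3 + 2 * d3) * r0) 30 with he1
  set e2 := rsh (3 * ((E.M4 + mterm A1 Z.ρ 4 150) * (r0 * r0))) 40 with he2
  set e := d2 + (e1 + e2) with he
  set F := F0 Am E.S1 Z.v with hF
  clear_value F e e1 e2 G0 d1 d2 d3
  -- the bounds
  have b1 : |α - αm| * ‖(c - z)⁻¹‖ ≤ (d1 : ℝ) / 2 ^ 80 :=
    NG_dA _ Z.v _ (A1 - Am) d1 2199023255552 hd
      (hZ.v1.trans (by norm_num)) hd1
  have b2 : |α - αm| * ‖(c - z)⁻¹ ^ 2‖ ≤ (d2 : ℝ) / 2 ^ 80 :=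
    NG_dA _ Z.v2 _ (A1 - Am) d2 1125899906842624 hd
      (hZ.v2.trans (by norm_num)) hd2
  have b3 : |α - αm| * ‖(c - z)⁻¹ ^ 3‖ ≤ (d3 : ℝ) / 2 ^ 80 :=
    NG_dA _ Z.v3 _ (A1 - Am) d3 288230376151711744 hd
      (hZ.v3.trans (by norm_num)) hd3
  have hd1pos : 1 ≤ d1 := by
    rw [hd1]
    exact Nat.succ_le_succ (Nat.zero_le _)
  -- natural numbers
  have hGe : 1 ≤ (G0 - 1152921504606846976) - e := by
    by_contra hcon
    have h0 : (G0 - 1152921504606846976) - e = 0 := by omega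
    rw [h0] at h
    simp at h
    omega
  have hG1 : ((G0 - 1152921504606846976 - e : ℕ) : ℝ) = (G0 : ℝ) - 1152921504606846976 - e := by
    rw [Nat.cast_sub (by omega), Nat.cast_sub (by omega)]
    norm_num
  have hgn : (G0 : ℝ) ≤ ‖g.val‖ * 2 ^ 80 := by
    rw [NG_norm, hG0]
    exact div_mup_le _ _
  have ha : ((G0 : ℝ) - 1152921504606846976) / 2 ^ 80 ≤ ‖ff1 b z αm c‖ := by
    have h1 := F1_val b z c _ E Z hE hZ Am hAm1000
    rw [← hg, ← hαm] at h1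
    have h2 : ‖g.val‖ ≤ ‖ff1 b z αm c‖ + ‖ff1 b z αm c - g.val‖ := by
      have : g.val = ff1 b z αm c - (ff1 b z αm c - g.val) := by ring
      calc ‖g.val‖ = ‖ff1 b z αm c - (ff1 b z αm c - g.val)‖ := by rw [← this]
        _ ≤ _ := norm_sub_le _ _
    have h3 : (G0 : ℝ) / 2 ^ 80 ≤ ‖g.val‖ := by
      rw [div_le_iff₀ (by positivity)]
      exact hgn
    have h4 : (2 : ℝ) ^ 60 = 1152921504606846976 := by norm_num
    rw [h4] at h1
    rw [sub_div]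
    linarith
  have hGe' : (1 : ℝ) ≤ (G0 : ℝ) - 1152921504606846976 - e := by
    rw [← hG1]
    exact_mod_cast hGe
  -- the inequality
  have hmain : ((F : ℝ) + d1) ≤ ((G0 : ℝ) - 1152921504606846976 - e) * r0 / 2 ^ 30 := by
    have h1 : ((F + d1 : ℕ) : ℝ) ≤ (((G0 - 1152921504606846976 - e) * r0 / 2 ^ 30 : ℕ) : ℝ) := by
      exact_mod_cast h
    have h2 := @Nat.cast_div_le ℝ _ _ _ ((G0 - 1152921504606846976 - e) * r0) (2 ^ 30)
    rw [Nat.cast_mul, hG1] at h2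
    push_cast at h1 h2
    push_cast at h2
    linarith
  have hav := avoid_ball b z c (r0 / 2 ^ 30) E Z hE hZ
  refine root_ball (ff b z α) (ff1 b z α) c (ff1 b z αm c) (r0 / 2 ^ 30) ((e : ℝ) / 2 ^ 80)
    (by positivity) (fun w hw => ff_hasDeriv b z α w (hav w hw).1 (hav w hw).2) ?_ ?_ ?_
  · intro w hw
    -- first part
    have h1 : ‖ff1 b z α c - ff1 b z αm c‖ ≤ (d2 : ℝ) / 2 ^ 80 := by
      have : ff1 b z α c - ff1 b z αm c = ((α - αm : ℝ) : ℂ) * (c - z)⁻¹ ^ 2 := by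
        simp only [ff1]
        push_cast
        ring
      rw [this, norm_mul, Complex.norm_real, Real.norm_eq_abs]
      exact b2
    have hcb : c ∈ Metric.closedBall c ((r0 : ℝ) / 2 ^ 30) :=
      Metric.mem_closedBall_self (by positivity)
    have h2 : ‖ff2 b z α c‖ ≤ ((F2 Am E.S3 Z.v3 : ℝ) + 2 * d3) / 2 ^ 80 := by
      have h3 : ff2 b z α c = ff2 b z αm c - 2 * ((α - αm : ℝ) : ℂ) * (c - z)⁻¹ ^ 3 := by
        simp only [ff2]
        push_cast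
        ring
      have h4 := F2_ok b z c _ E Z hE hZ Am hAm1000
      rw [← hαm] at h4
      rw [h3]
      refine (norm_sub_le _ _).trans ?_
      rw [norm_mul, norm_mul, Complex.norm_real, Real.norm_eq_abs]
      have h5 : ‖(2 : ℂ)‖ = 2 := by simp
      rw [h5, add_div]
      have h6 : 2 * |α - αm| * ‖(c - z)⁻¹ ^ 3‖ ≤ 2 * (d3 : ℝ) / 2 ^ 80 := by
        rw [mul_assoc, mul_div_assoc]
        exact mul_le_mul_of_nonneg_left b3 (by norm_num)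
      exact add_le_add h4 h6
    have hwc : ‖w - c‖ ≤ (r0 : ℝ) / 2 ^ 30 := by
      rw [← dist_eq_norm]
      exact hw
    set M : ℝ := 6 * (E.M4 / 2 ^ 60 + α * ((2 : ℝ) ^ 30 / Z.ρ) ^ 4) with hM
    have h3 : ‖ff1 b z α w - ff1 b z α c - ff2 b z α c * (w - c)‖ ≤ M * ‖w - c‖ ^ 2 / 2 :=
      tay2 (ff1 b z α) (ff2 b z α) (ff3 b z α) c (r0 / 2 ^ 30) M
        (fun w hw => ff1_hasDeriv b z α w (hav w hw).1 (hav w hw).2)
        (fun w hw => ff2_hasDeriv b z α w (hav w hw).1 (hav w hw).2)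
        (fun w hw => ff3_ball b z c _ E Z hE hZ α hα0 w hw) w hw
    have hρ : (0 : ℝ) < Z.ρ := by exact_mod_cast hZ.rho0
    have h4 : M ≤ 6 * (((E.M4 + mterm A1 Z.ρ 4 150 : ℕ) : ℝ) / 2 ^ 60) := by
      rw [hM]
      have h5 := mterm_gt A1 Z.ρ 4 150 hZ.rho0
      have h6 : α * ((2 : ℝ) ^ 30 / Z.ρ) ^ 4 ≤ (mterm A1 Z.ρ 4 150 : ℝ) / 2 ^ 60 := by
        calc α * ((2 : ℝ) ^ 30 / Z.ρ) ^ 4 ≤ ((A1 : ℝ) / 2 ^ 30) * ((2 : ℝ) ^ 30 / Z.ρ) ^ 4 := by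
              gcongr
              exact hα.2
          _ = ((A1 : ℝ) * 2 ^ 150 / (Z.ρ : ℝ) ^ 4) / 2 ^ 60 := by
              field_simp
          _ ≤ _ := by gcongr
      push_cast
      rw [add_div]
      gcongr
    have h7 : M * ‖w - c‖ ^ 2 / 2 ≤ (e2 : ℝ) / 2 ^ 80 := by
      have h8 := rsh_gt (3 * ((E.M4 + mterm A1 Z.ρ 4 150) * (r0 * r0))) 40
      rw [← he2] at h8
      have hM0 : 0 ≤ M := by rw [hM]; positivity
      generalize E.M4 + mterm A1 Z.ρ 4 150 = T at h4 h8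
      calc M * ‖w - c‖ ^ 2 / 2 ≤
          (6 * ((T : ℝ) / 2 ^ 60)) * ((r0 : ℝ) / 2 ^ 30) ^ 2 / 2 := by
            gcongr
        _ = (((3 * (T * (r0 * r0)) : ℕ) : ℝ) / 2 ^ 40) / 2 ^ 80 := by
            push_cast
            ring
        _ ≤ _ := by gcongr
    have h9 : ‖ff2 b z α c * (w - c)‖ ≤ (e1 : ℝ) / 2 ^ 80 := by
      have h8 := rsh_gt ((F2 Am E.S3 Z.v3 + 2 * d3) * r0) 30
      rw [← he1] at h8
      rw [norm_mul]
      generalize F2 Am E.S3 Z.v3 = T at h2 h8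
      calc ‖ff2 b z α c‖ * ‖w - c‖ ≤
          (((T : ℝ) + 2 * d3) / 2 ^ 80) * ((r0 : ℝ) / 2 ^ 30) := by gcongr
        _ = ((((T + 2 * d3) * r0 : ℕ) : ℝ) / 2 ^ 30) / 2 ^ 80 := by
            push_cast
            ring
        _ ≤ _ := by gcongr
    have h10 : ff1 b z α w - ff1 b z αm c =
        (ff1 b z α c - ff1 b z αm c) + (ff2 b z α c * (w - c) +
          (ff1 b z α w - ff1 b z α c - ff2 b z α c * (w - c))) := by ring
    rw [h10]
    refine (norm_add_le _ _).trans ?_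
    have h11 := norm_add_le (ff2 b z α c * (w - c))
      (ff1 b z α w - ff1 b z α c - ff2 b z α c * (w - c))
    have h12 : ((e : ℕ) : ℝ) / 2 ^ 80 = (d2 : ℝ) / 2 ^ 80 + ((e1 : ℝ) / 2 ^ 80 + (e2 : ℝ) / 2 ^ 80) := by
      rw [he]
      push_cast
      ring
    rw [h12]
    linarith
  · refine lt_of_lt_of_le ?_ ha
    gcongr
    linarith
  · have h1 : ‖ff b z α c‖ ≤ ((F : ℝ) + d1) / 2 ^ 80 := by
      have h3 : ff b z α c = ff b z αm c - ((α - αm : ℝ) : ℂ) * (c - z)⁻¹ := by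
        simp only [ff]
        push_cast
        ring
      have h4 := F0_ok b z c _ E Z hE hZ Am hAm1000
      rw [← hαm, ← hF] at h4
      rw [h3]
      refine (norm_sub_le _ _).trans ?_
      rw [norm_mul, Complex.norm_real, Real.norm_eq_abs, add_div]
      exact add_le_add h4 b1
    refine h1.trans ?_
    calc ((F : ℝ) + d1) / 2 ^ 80 ≤
        (((G0 : ℝ) - 1152921504606846976 - e) * r0 / 2 ^ 30) / 2 ^ 80 := by gcongr
      _ = (((G0 : ℝ) - 1152921504606846976) / 2 ^ 80 - (e : ℝ) / 2 ^ 80) * (r0 / 2 ^ 30) := by ring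
      _ ≤ _ := by gcongr

private theorem NUMG2_blkC2 (root : Bool) (A0 A1 r0 t tz : Nat) (Z : Zv) (E : Ev) (k : BC → Bool)
    (h1 : blkC2 root A0 A1 r0 t tz Z E k = true) :
    (and (and E.ok Z.ok) (and (and (Nat.ble 1 (lg E.Q t)) (Nat.ble 1 (lg Z.N tz)))
      (and (cond root (root1 r0 (Nat.shiftRight (Nat.add A0 A1) 1) A1 Z.ρ E.M4 E.S1 E.S2 E.S3
        Z.v Z.v2 Z.v3) true)
        (k ⟨A0, A1, lg E.Q t, lg Z.N tz,
          slack A0 r0 Z.ρ E.M4 (F1 A0 E.S2 Z.v2) (F2 A0 E.S3 Z.v3),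
          slack A1 r0 Z.ρ E.M4 (F1 A1 E.S2 Z.v2) (F2 A1 E.S3 Z.v3)⟩)))) = true := by
  cases Z
  cases E
  exact h1

theorem blkC_ok (b : ι → ℂ) (hb : Near b) (z : ℂ) (hz : ‖z - zcv‖ ≤ 1 / 2 ^ 56) (root : Bool)
    (A0 A1 x y r0 t tz : ℕ) (hA : A0 < A1) (hA1 : A1 ≤ 1000 * 2 ^ 30) (hr0 : 1 ≤ r0)
    (k : BC → Bool) (h : blkC root A0 A1 x y r0 t tz k = true) :
    ∃ C : BC, BCok b z C (ptv x y) (r0 / 2 ^ 30) ∧ C.A0 = A0 ∧ C.A1 = A1 ∧ k C = true ∧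
      (root = true → ∀ α ∈ Icc ((A0 : ℝ) / 2 ^ 30) ((A1 : ℝ) / 2 ^ 30),
        ∃ w ∈ Metric.closedBall (ptv x y) (r0 / 2 ^ 30), ff b z α w = 0) := by
  have h1 : blkC2 root A0 A1 r0 t tz (zv x y r0) (ev x y r0 clusters) k = true := h
  have hZ' := zv_ok z hz x y r0
  have hE' := ev_ok b hb x y r0
  generalize zv x y r0 = Z at h1 hZ'
  generalize ev x y r0 clusters = E at h1 hE'
  have h2 := NUMG2_blkC2 root A0 A1 r0 t tz Z E k h1
  simp only [Bool.and_eq_true] at h2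
  obtain ⟨⟨hok, hokz⟩, ⟨hl1, hl2⟩, hroot, hk⟩ := h2
  have hZ := hZ' hokz
  have hE := hE' hok
  have hl1 : 1 ≤ lg E.Q t := Nat.le_of_ble_eq_true hl1
  have hl2 : 1 ≤ lg Z.N tz := Nat.le_of_ble_eq_true hl2
  obtain ⟨-, hq⟩ := lg_spec E.Q t hl1
  obtain ⟨-, hn⟩ := lg_spec Z.N tz hl2
  refine ⟨_, ⟨hA1, hA.le, ?_, ?_, ?_, ?_⟩, rfl, rfl, hk, ?_⟩
  · have h3 := hE.q
    calc _ = |((lg E.Q t : ℝ) / 2 ^ 80 - Real.log E.Q) + (Real.log E.Q -
        (2 * Real.log ‖(PP b).eval (ptv x y)‖ + 60000 * Real.log 2))| := by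
          congr 1; ring
      _ ≤ _ := (abs_add_le _ _).trans (add_le_add hq h3)
  · have h3 := hZ.n
    calc _ = |((lg Z.N tz : ℝ) / 2 ^ 80 - Real.log Z.N) + (Real.log Z.N -
        (2 * Real.log ‖ptv x y - z‖ + 160 * Real.log 2))| := by
          congr 1; ring
      _ ≤ _ := (abs_add_le _ _).trans (add_le_add hn h3)
  · intro w hw
    exact avoid_ball b z (ptv x y) _ E Z hE hZ w hw
  · refine ⟨E.M4 / 2 ^ 60, ((2 : ℝ) ^ 30 / Z.ρ) ^ 4, by positivity, by positivity, ?_, ?_, ?_⟩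
    · intro α hα w hw
      exact ff3_ball b z (ptv x y) _ E Z hE hZ α hα w hw
    · exact slack_ok b z (ptv x y) r0 E Z hE hZ A0 (hA.le.trans hA1)
    · exact slack_ok b z (ptv x y) r0 E Z hE hZ A1 hA1
  · intro hr α hα
    rw [hr, cond_true] at hroot
    exact root1_ok b z x y r0 A0 A1 hA hA1 hr0 E Z hE hZ hroot α hα

end Pool.Agent.SHD
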