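import Mathlib
import Pool.Agent.SHD.NC
import Pool.Agent.SHD.NCheck

set_option autoImplicit false

/-!
Soundness of the chains of cells: rays and paths (module NUMH). Only geometry.
-/

noncomputable section

namespace Pool.Agent.SHD

open Set

/-- the vector with the coordinates `(xp - xq) / 2 ^ 30`, `(yp - yq) / 2 ^ 30` -/
def vec (xp xq yp yq : ℕ) : ℂ := ⟨((xp : ℝ) - xq) / 2 ^ 30, ((yp : ℝ) - yq) / 2 ^ 30⟩

theorem NH1_rayList_nil (cell : ℕ → ℕ → ℕ → Bool) (L r0 x y xp xq yp yq s R : ℕ) :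
    rayList cell L r0 x y xp xq yp yq [] s R = Nat.beq s one30 := rfl

theorem NH1_rayList_cons (cell : ℕ → ℕ → ℕ → Bool) (L r0 x y xp xq yp yq s R s' R' : ℕ)
    (l : List RC) :
    rayList cell L r0 x y xp xq yp yq (⟨s', R'⟩ :: l) s R = (and (Nat.ble s s')
      (and (Nat.ble (Nat.add (Nat.shiftRight (Nat.mul L (Nat.sub s' s)) 30)
          (Nat.add 8 (Nat.mul 2 r0))) (Nat.add R R'))
        (and (cell (rpt x xp xq s') (rpt y yp yq s') R')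
          (rayList cell L r0 x y xp xq yp yq l s' R')))) := rfl

theorem NH1_rayChk_cons (cell : ℕ → ℕ → ℕ → Bool) (r0 x y xp xq yp yq s R : ℕ)
    (l : List RC) :
    rayChk cell r0 x y xp xq yp yq (⟨s, R⟩ :: l) = (and (and (Nat.ble xq x) (Nat.ble yq y))
    (and (Nat.beq s 0) (and (Nat.ble (Nat.add r0 4) R) (and (cell x y R)
      (rayList cell (mup (Nat.add xp xq) (Nat.add yp yq)) r0 x y xp xq yp yq l 0 R))))) := rfl

/-- the content of one step of the list -/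
theorem NH1_cons_spec (cell : ℕ → ℕ → ℕ → Bool) (L r0 x y xp xq yp yq s R s' R' : ℕ)
    (l : List RC) (h : rayList cell L r0 x y xp xq yp yq (⟨s', R'⟩ :: l) s R = true) :
    s ≤ s' ∧ L * (s' - s) / 2 ^ 30 + (8 + 2 * r0) ≤ R + R' ∧
      cell (rpt x xp xq s') (rpt y yp yq s') R' = true ∧
      rayList cell L r0 x y xp xq yp yq l s' R' = true := by
  rw [NH1_rayList_cons] at h
  have h1 := (Bool.and_eq_true _ _).mp h
  have h2 := (Bool.and_eq_true _ _).mp h1.2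
  have h3 := (Bool.and_eq_true _ _).mp h2.2
  refine ⟨Nat.le_of_ble_eq_true h1.1, ?_, h3.1, h3.2⟩
  have h4 := Nat.le_of_ble_eq_true h2.1
  have h5 : Nat.shiftRight (Nat.mul L (Nat.sub s' s)) 30 = L * (s' - s) / 2 ^ 30 :=
    Nat.shiftRight_eq_div_pow _ _
  rw [h5] at h4
  exact h4

theorem NH1_list_le (cell : ℕ → ℕ → ℕ → Bool) (L r0 x y xp xq yp yq : ℕ) (l : List RC) :
    ∀ s R : ℕ, rayList cell L r0 x y xp xq yp yq l s R = true → s ≤ 2 ^ 30 := by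
  induction l with
  | nil =>
    intro s R h
    rw [NH1_rayList_nil] at h
    have h1 := Nat.eq_of_beq_eq_true h
    rw [h1, one30]
    norm_num
  | cons q l ih =>
    intro s R h
    obtain ⟨s', R'⟩ := q
    obtain ⟨h1, -, -, h4⟩ := NH1_cons_spec cell L r0 x y xp xq yp yq s R s' R' l h
    exact h1.trans (ih s' R' h4)

/-- the error of a coordinate of a point of the ray -/
theorem NH1_rpt (x up uq s : ℕ) (hs : s ≤ 2 ^ 30) (hx : uq ≤ x) :
    |(rpt x up uq s : ℝ) - (x + (s : ℝ) / 2 ^ 30 * ((up : ℝ) - uq))| ≤ 1 := by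
  have e1 : rpt x up uq s = x + s * up / 2 ^ 30 - s * uq / 2 ^ 30 := by
    have a1 : Nat.shiftRight (Nat.mul s up) 30 = s * up / 2 ^ 30 := Nat.shiftRight_eq_div_pow _ _
    have a2 : Nat.shiftRight (Nat.mul s uq) 30 = s * uq / 2 ^ 30 := Nat.shiftRight_eq_div_pow _ _
    unfold rpt
    rw [a1, a2]
    rfl
  have e2 : s * uq / 2 ^ 30 ≤ x + s * up / 2 ^ 30 := by
    have : s * uq / 2 ^ 30 ≤ uq := by
      apply Nat.div_le_of_le_mul
      exact Nat.mul_le_mul_right _ hs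
    omega
  have e3 : (rpt x up uq s : ℝ) = x + ((s * up / 2 ^ 30 : ℕ) : ℝ) - ((s * uq / 2 ^ 30 : ℕ) : ℝ) := by
    rw [e1, Nat.cast_sub e2]
    push_cast
    ring
  have f1 : ∀ a : ℕ, ((a / 2 ^ 30 : ℕ) : ℝ) ≤ (a : ℝ) / 2 ^ 30 ∧
      (a : ℝ) / 2 ^ 30 < ((a / 2 ^ 30 : ℕ) : ℝ) + 1 := by
    intro a
    have h1 := Nat.div_mul_le_self a (2 ^ 30)
    have h2 := Nat.lt_div_mul_add (a := a) (b := 2 ^ 30) (by norm_num)
    have h3 : ((a / 2 ^ 30 : ℕ) : ℝ) * 2 ^ 30 ≤ a := by exact_mod_cast h1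
    have h4 : (a : ℝ) < ((a / 2 ^ 30 : ℕ) : ℝ) * 2 ^ 30 + 2 ^ 30 := by exact_mod_cast h2
    constructor
    · rw [le_div_iff₀ (by norm_num)]
      exact h3
    · rw [div_lt_iff₀ (by norm_num)]
      linarith
  have g1 := f1 (s * up)
  have g2 := f1 (s * uq)
  have g3 : (((s * up : ℕ) : ℝ)) / 2 ^ 30 = (s : ℝ) / 2 ^ 30 * up := by push_cast; ring
  have g4 : (((s * uq : ℕ) : ℝ)) / 2 ^ 30 = (s : ℝ) / 2 ^ 30 * uq := by push_cast; ring
  rw [g3] at g1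
  rw [g4] at g2
  rw [e3, abs_le]
  constructor
  · nlinarith [g1.1, g1.2, g2.1, g2.2]
  · nlinarith [g1.1, g1.2, g2.1, g2.2]

/-- the norm of a complex number in terms of bounds of its coordinates -/
theorem NH1_norm_le (z : ℂ) (a b : ℝ) (ha : |z.re| ≤ a) (hb : |z.im| ≤ b) :
    ‖z‖ ≤ a + b :=
  (Complex.norm_le_abs_re_add_abs_im z).trans (add_le_add ha hb)

/-- the length of the direction -/
theorem NH1_vec_norm (xp xq yp yq : ℕ) (hx : xp = 0 ∨ xq = 0) (hy : yp = 0 ∨ yq = 0) :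
    ‖vec xp xq yp yq‖ = Real.sqrt (((xp + xq : ℕ) : ℝ) ^ 2 + ((yp + yq : ℕ) : ℝ) ^ 2) / 2 ^ 30 := by
  have e1 : ((xp : ℝ) - xq) ^ 2 = ((xp + xq : ℕ) : ℝ) ^ 2 := by
    rcases hx with rfl | rfl <;> push_cast <;> ring
  have e2 : ((yp : ℝ) - yq) ^ 2 = ((yp + yq : ℕ) : ℝ) ^ 2 := by
    rcases hy with rfl | rfl <;> push_cast <;> ring
  rw [← e1, ← e2]
  have e3 : ‖vec xp xq yp yq‖ ^ 2 = (((xp : ℝ) - xq) ^ 2 + ((yp : ℝ) - yq) ^ 2) / (2 ^ 30) ^ 2 := by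
    rw [← Complex.normSq_eq_norm_sq, Complex.normSq_apply]
    simp only [vec]
    ring
  have e4 : (0 : ℝ) ≤ ((xp : ℝ) - xq) ^ 2 + ((yp : ℝ) - yq) ^ 2 := by positivity
  have e5 : ‖vec xp xq yp yq‖ =
      Real.sqrt ((((xp : ℝ) - xq) ^ 2 + ((yp : ℝ) - yq) ^ 2) / (2 ^ 30) ^ 2) := by
    rw [← e3, Real.sqrt_sq (norm_nonneg _)]
  rw [e5, Real.sqrt_div e4, Real.sqrt_sq (by positivity)]

theorem NH1_vec_le (xp xq yp yq : ℕ) (hx : xp = 0 ∨ xq = 0) (hy : yp = 0 ∨ yq = 0) :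
    ‖vec xp xq yp yq‖ ≤ (mup (Nat.add xp xq) (Nat.add yp yq) : ℝ) / 2 ^ 30 := by
  rw [NH1_vec_norm xp xq yp yq hx hy]
  apply div_le_div_of_nonneg_right _ (by positivity)
  exact mup_ge (xp + xq) (yp + yq)

/-- the distance of the centre of a cell and the point of the ray -/
theorem NH1_centre (x y xp xq yp yq s : ℕ) (hs : s ≤ 2 ^ 30) (hx : xq ≤ x) (hy : yq ≤ y) :
    ‖ptv x y + ((s : ℝ) / 2 ^ 30 : ℝ) * vec xp xq yp yq -
      ptv (rpt x xp xq s) (rpt y yp yq s)‖ ≤ 2 / 2 ^ 30 := by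
  have h1 := NH1_rpt x xp xq s hs hx
  have h2 := NH1_rpt y yp yq s hs hy
  have e : (2 : ℝ) / 2 ^ 30 = 1 / 2 ^ 30 + 1 / 2 ^ 30 := by norm_num
  rw [e]
  refine NH1_norm_le _ _ _ ?_ ?_
  · have : (ptv x y + ((s : ℝ) / 2 ^ 30 : ℝ) * vec xp xq yp yq -
      ptv (rpt x xp xq s) (rpt y yp yq s)).re =
        -((rpt x xp xq s : ℝ) - (x + (s : ℝ) / 2 ^ 30 * ((xp : ℝ) - xq))) / 2 ^ 30 := by
      simp only [ptv, vec, Complex.sub_re, Complex.add_re, Complex.re_ofReal_mul]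
      ring
    rw [this, abs_div, abs_neg, abs_of_pos (show (0 : ℝ) < 2 ^ 30 by norm_num)]
    exact div_le_div_of_nonneg_right h1 (by norm_num)
  · have : (ptv x y + ((s : ℝ) / 2 ^ 30 : ℝ) * vec xp xq yp yq -
      ptv (rpt x xp xq s) (rpt y yp yq s)).im =
        -((rpt y yp yq s : ℝ) - (y + (s : ℝ) / 2 ^ 30 * ((yp : ℝ) - yq))) / 2 ^ 30 := by
      simp only [ptv, vec, Complex.sub_im, Complex.add_im, Complex.im_ofReal_mul]
      ring
    rw [this, abs_div, abs_neg, abs_of_pos (show (0 : ℝ) < 2 ^ 30 by norm_num)]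
    exact div_le_div_of_nonneg_right h2 (by norm_num)

/-- a point of the ray is in the ball of a cell with a near parameter -/
theorem NH1_mem (x y xp xq yp yq r0 s₁ R : ℕ) (hs : s₁ ≤ 2 ^ 30) (hx : xq ≤ x) (hy : yq ≤ y)
    (w₀ : ℂ) (hw₀ : w₀ ∈ Metric.closedBall (ptv x y) ((r0 : ℝ) / 2 ^ 30)) (s : ℝ)
    (h : |s - (s₁ : ℝ) / 2 ^ 30| * (‖vec xp xq yp yq‖ * 2 ^ 30) ≤ R - r0 - 2) :
    w₀ + s * vec xp xq yp yq ∈
      Metric.closedBall (ptv (rpt x xp xq s₁) (rpt y yp yq s₁)) ((R : ℝ) / 2 ^ 30) := by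
  rw [mem_closedBall_iff_norm] at hw₀ ⊢
  have h1 := NH1_centre x y xp xq yp yq s₁ hs hx hy
  have e : w₀ + s * vec xp xq yp yq - ptv (rpt x xp xq s₁) (rpt y yp yq s₁) =
      (w₀ - ptv x y) + ((s - (s₁ : ℝ) / 2 ^ 30 : ℝ) : ℂ) * vec xp xq yp yq +
      (ptv x y + ((s₁ : ℝ) / 2 ^ 30 : ℝ) * vec xp xq yp yq -
      ptv (rpt x xp xq s₁) (rpt y yp yq s₁)) := by
    push_cast
    ring
  rw [e]
  have h2 : ‖((s - (s₁ : ℝ) / 2 ^ 30 : ℝ) : ℂ) * vec xp xq yp yq‖ =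
      |s - (s₁ : ℝ) / 2 ^ 30| * ‖vec xp xq yp yq‖ := by
    rw [norm_mul, Complex.norm_real, Real.norm_eq_abs]
  have h3 := norm_add₃_le (a := w₀ - ptv x y)
    (b := ((s - (s₁ : ℝ) / 2 ^ 30 : ℝ) : ℂ) * vec xp xq yp yq)
    (c := ptv x y + ((s₁ : ℝ) / 2 ^ 30 : ℝ) * vec xp xq yp yq -
      ptv (rpt x xp xq s₁) (rpt y yp yq s₁))
  refine h3.trans ?_
  rw [h2]
  have h4 : |s - (s₁ : ℝ) / 2 ^ 30| * ‖vec xp xq yp yq‖ ≤ ((R : ℝ) - r0 - 2) / 2 ^ 30 := by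
    rw [le_div_iff₀ (by norm_num)]
    linarith [h]
  have h5 : (R : ℝ) / 2 ^ 30 = (r0 : ℝ) / 2 ^ 30 + ((R : ℝ) - r0 - 2) / 2 ^ 30 + 2 / 2 ^ 30 := by
    ring
  rw [h5]
  exact add_le_add (add_le_add hw₀ h4) h1

/-- the part of the ray after a cell -/
theorem NH1_chain (cell : ℕ → ℕ → ℕ → Bool) (Pd : ℂ → Prop)
    (hcell : ∀ cx cy R, cell cx cy R = true →
      ∀ w ∈ Metric.closedBall (ptv cx cy) ((R : ℝ) / 2 ^ 30), Pd w)
    (r0 x y xp xq yp yq : ℕ) (hx : xp = 0 ∨ xq = 0) (hy : yp = 0 ∨ yq = 0)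
    (hx' : xq ≤ x) (hy' : yq ≤ y) (w₀ : ℂ)
    (hw₀ : w₀ ∈ Metric.closedBall (ptv x y) ((r0 : ℝ) / 2 ^ 30)) (l : List RC) :
    ∀ s R : ℕ, rayList cell (mup (Nat.add xp xq) (Nat.add yp yq)) r0 x y xp xq yp yq l s R = true →
      (∀ w ∈ Metric.closedBall (ptv (rpt x xp xq s) (rpt y yp yq s)) ((R : ℝ) / 2 ^ 30), Pd w) →
      ∀ t : ℝ, (s : ℝ) / 2 ^ 30 < t → t ≤ 1 → Pd (w₀ + t * vec xp xq yp yq) := by
  have hL := NH1_vec_le xp xq yp yq hx hy
  set u : ℝ := ‖vec xp xq yp yq‖ * 2 ^ 30 with hu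
  have hu0 : 0 ≤ u := by positivity
  have hL' : u ≤ (mup (Nat.add xp xq) (Nat.add yp yq) : ℝ) := by
    rw [le_div_iff₀ (by norm_num)] at hL
    exact hL
  induction l with
  | nil =>
    intro s R h _ t h1 h2
    exfalso
    rw [NH1_rayList_nil] at h
    have h3 := Nat.eq_of_beq_eq_true h
    rw [h3, one30] at h1
    norm_num at h1
    linarith
  | cons q l ih =>
    intro s R h hR t h1 h2
    have hs := NH1_list_le _ _ _ _ _ _ _ _ _ _ _ _ h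
    obtain ⟨s', R'⟩ := q
    obtain ⟨a1, a2, a3, a4⟩ := NH1_cons_spec cell _ r0 x y xp xq yp yq s R s' R' l h
    have hs' := NH1_list_le _ _ _ _ _ _ _ _ _ _ _ _ a4
    have hR' := hcell _ _ _ a3
    by_cases c : (s' : ℝ) / 2 ^ 30 < t
    · exact ih s' R' a4 hR' t c h2
    · rw [not_lt] at c
      by_cases d : |t - (s : ℝ) / 2 ^ 30| * u ≤ R - r0 - 2
      · exact hR _ (NH1_mem x y xp xq yp yq r0 s R hs hx' hy' w₀ hw₀ t d)
      · rw [not_le, abs_of_pos (by linarith)] at d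
        refine hR' _ (NH1_mem x y xp xq yp yq r0 s' R' hs' hx' hy' w₀ hw₀ t ?_)
        rw [abs_of_nonpos (by linarith), ← hu]
        have b1 : (((mup (Nat.add xp xq) (Nat.add yp yq)) * (s' - s) / 2 ^ 30 : ℕ) : ℝ) +
            (8 + 2 * r0) ≤ R + R' := by exact_mod_cast a2
        have b2 := Nat.lt_div_mul_add (a := (mup (Nat.add xp xq) (Nat.add yp yq)) * (s' - s))
          (b := 2 ^ 30) (by norm_num)
        have b3 : ((((mup (Nat.add xp xq) (Nat.add yp yq)) * (s' - s) : ℕ)) : ℝ) <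
          (((mup (Nat.add xp xq) (Nat.add yp yq)) * (s' - s) / 2 ^ 30 : ℕ) : ℝ) * 2 ^ 30 + 2 ^ 30 := by
          exact_mod_cast b2
        have b4 : ((((mup (Nat.add xp xq) (Nat.add yp yq)) * (s' - s) : ℕ)) : ℝ) =
            (mup (Nat.add xp xq) (Nat.add yp yq) : ℝ) * ((s' : ℝ) - s) := by
          rw [Nat.cast_mul, Nat.cast_sub a1]
        rw [b4] at b3
        have b5 : u * ((s' : ℝ) - s) ≤ (mup (Nat.add xp xq) (Nat.add yp yq) : ℝ) * ((s' : ℝ) - s) := by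
          apply mul_le_mul_of_nonneg_right hL'
          have : (s : ℝ) ≤ s' := by exact_mod_cast a1
          linarith
        have b6 : ((s' : ℝ) / 2 ^ 30 - (s : ℝ) / 2 ^ 30) * u ≤
            (((mup (Nat.add xp xq) (Nat.add yp yq)) * (s' - s) / 2 ^ 30 : ℕ) : ℝ) + 1 := by
          have : ((s' : ℝ) / 2 ^ 30 - (s : ℝ) / 2 ^ 30) * u = u * ((s' : ℝ) - s) / 2 ^ 30 := by ring
          rw [this, div_le_iff₀ (by norm_num)]
          linarith
        have b7 : -(t - (s' : ℝ) / 2 ^ 30) * u =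
            ((s' : ℝ) / 2 ^ 30 - (s : ℝ) / 2 ^ 30) * u - (t - (s : ℝ) / 2 ^ 30) * u := by ring
        rw [b7]
        linarith

theorem NH1_chk_spec (cell : ℕ → ℕ → ℕ → Bool) (r0 x y xp xq yp yq : ℕ) (l : List RC)
    (h : rayChk cell r0 x y xp xq yp yq l = true) : xq ≤ x ∧ yq ≤ y ∧ ∃ (R : ℕ) (l' : List RC),
      r0 + 4 ≤ R ∧ cell x y R = true ∧
      rayList cell (mup (Nat.add xp xq) (Nat.add yp yq)) r0 x y xp xq yp yq l' 0 R = true := by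
  cases l with
  | nil => exact absurd h (by intro h'; exact Bool.noConfusion h')
  | cons q l =>
    obtain ⟨s, R⟩ := q
    rw [NH1_rayChk_cons] at h
    have h1 := (Bool.and_eq_true _ _).mp h
    have h2 := (Bool.and_eq_true _ _).mp h1.1
    have h3 := (Bool.and_eq_true _ _).mp h1.2
    have h4 := (Bool.and_eq_true _ _).mp h3.2
    have h5 := (Bool.and_eq_true _ _).mp h4.2
    exact ⟨Nat.le_of_ble_eq_true h2.1, Nat.le_of_ble_eq_true h2.2, R, l,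
      Nat.le_of_ble_eq_true h4.1, h5.1, h5.2⟩

theorem NH1_rpt_zero (x up uq : ℕ) : rpt x up uq 0 = x := by
  unfold rpt
  have a1 : ∀ a : ℕ, Nat.shiftRight (Nat.mul 0 a) 30 = 0 := by
    intro a
    have : Nat.mul 0 a = 0 := Nat.zero_mul a
    rw [this]
    rfl
  rw [a1, a1]
  rfl

private theorem NUMH2_and {a b : Bool} (h : and a b = true) : a = true ∧ b = true := by
  revert h
  cases a <;> cases b <;> decide

private theorem NUMH2_shl (a k : ℕ) : ((Nat.shiftLeft a k : ℕ) : ℝ) = (a : ℝ) * 2 ^ k := by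
  have h : Nat.shiftLeft a k = a * 2 ^ k := Nat.shiftLeft_eq a k
  rw [h]
  push_cast
  ring

private theorem NUMH2_un3 (X Y : ℕ) : un3 X Y = rsh (unsq X Y * mup X Y) 30 := rfl

private theorem NUMH2_norm_mk (a b : ℝ) : ‖(⟨a, b⟩ : ℂ)‖ = Real.sqrt (a ^ 2 + b ^ 2) := by
  rw [Complex.norm_def, Complex.normSq_mk]
  congr 1
  ring

private theorem NUMH2_dist (x y x' y' : ℕ) :
    ‖ptv x y - ptv x' y'‖ ≤ (dist2 x y x' y' : ℝ) / 2 ^ 30 := by
  have h1 : ptv x y - ptv x' y' = ⟨((x : ℝ) - x') / 2 ^ 30, ((y : ℝ) - y') / 2 ^ 30⟩ := by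
    apply Complex.ext
    · simp only [ptv, Complex.sub_re]
      ring
    · simp only [ptv, Complex.sub_im]
      ring
  rw [h1, NUMH2_norm_mk]
  have h2 := mup_ge (adist x x') (adist y y')
  rw [adist_eq, adist_eq, sq_abs, sq_abs] at h2
  have h3 : (((x : ℝ) - x') / 2 ^ 30) ^ 2 + (((y : ℝ) - y') / 2 ^ 30) ^ 2 =
      (((x : ℝ) - x') ^ 2 + ((y : ℝ) - y') ^ 2) * ((1 / 2 ^ 30) ^ 2) := by ring
  rw [h3, Real.sqrt_mul (by positivity), Real.sqrt_sq (by positivity)]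
  have h4 : (dist2 x y x' y' : ℝ) = (mup (adist x x') (adist y y') : ℝ) := rfl
  rw [h4]
  have h5 := mul_le_mul_of_nonneg_right h2 (by positivity : (0 : ℝ) ≤ 1 / 2 ^ 30)
  calc _ ≤ (mup (adist x x') (adist y y') : ℝ) * (1 / 2 ^ 30) := h5
    _ = _ := by ring

private theorem NUMH2_cells {P Q a b w : ℂ} {r R R' : ℝ} (ha : ‖a - P‖ ≤ r) (hb : ‖b - Q‖ ≤ r)
    (hd : ‖P - Q‖ + 2 * r ≤ R + R') (hw : w ∈ segment ℝ a b) : ‖w - P‖ ≤ R ∨ ‖w - Q‖ ≤ R' := by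
  obtain ⟨s, t, hs, ht, hst, rfl⟩ := hw
  by_contra hcon
  push Not at hcon
  obtain ⟨h1, h2⟩ := hcon
  have e1 : s • a + t • b - P = (s • (a - P) + t • (b - Q)) + t • (Q - P) := by
    have : P = s • P + t • P := by rw [← add_smul, hst, one_smul]
    conv_lhs => rw [this]
    simp only [smul_sub]
    abel
  have e2 : s • a + t • b - Q = (s • (a - P) + t • (b - Q)) + s • (P - Q) := by
    have : Q = s • Q + t • Q := by rw [← add_smul, hst, one_smul]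
    conv_lhs => rw [this]
    simp only [smul_sub]
    abel
  have h3 : ‖s • (a - P) + t • (b - Q)‖ ≤ r := by
    refine (norm_add_le _ _).trans ?_
    rw [norm_smul, norm_smul, Real.norm_of_nonneg hs, Real.norm_of_nonneg ht]
    calc s * ‖a - P‖ + t * ‖b - Q‖ ≤ s * r + t * r :=
          add_le_add (mul_le_mul_of_nonneg_left ha hs) (mul_le_mul_of_nonneg_left hb ht)
      _ = r := by rw [← add_mul, hst, one_mul]
  have h4 : ‖s • a + t • b - P‖ ≤ r + t * ‖P - Q‖ := by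
    rw [e1]
    refine (norm_add_le _ _).trans ?_
    rw [norm_smul, Real.norm_of_nonneg ht, norm_sub_rev Q P]
    linarith
  have h5 : ‖s • a + t • b - Q‖ ≤ r + s * ‖P - Q‖ := by
    rw [e2]
    refine (norm_add_le _ _).trans ?_
    rw [norm_smul, Real.norm_of_nonneg hs]
    linarith
  have h6 : s * ‖P - Q‖ + t * ‖P - Q‖ = ‖P - Q‖ := by rw [← add_mul, hst, one_mul]
  linarith

private theorem NUMH2_step {P Q a b w : ℂ} {r0 R R' d : ℕ} (ha : ‖a - P‖ ≤ (r0 : ℝ) / 2 ^ 30)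
    (hb : ‖b - Q‖ ≤ (r0 : ℝ) / 2 ^ 30) (hPQ : ‖P - Q‖ ≤ (d : ℝ) / 2 ^ 30)
    (hd : Nat.ble (Nat.add d (Nat.mul 2 r0)) (Nat.add R R') = true) (hw : w ∈ segment ℝ a b) :
    ‖w - P‖ ≤ (R : ℝ) / 2 ^ 30 ∨ ‖w - Q‖ ≤ (R' : ℝ) / 2 ^ 30 := by
  refine NUMH2_cells ha hb ?_ hw
  have h1 : d + 2 * r0 ≤ R + R' := Nat.le_of_ble_eq_true hd
  have h2 : (d : ℝ) + 2 * r0 ≤ R + R' := by exact_mod_cast h1
  have h3 := div_le_div_of_nonneg_right h2 (by positivity : (0 : ℝ) ≤ 2 ^ 30)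
  calc _ ≤ (d : ℝ) / 2 ^ 30 + 2 * ((r0 : ℝ) / 2 ^ 30) := by linarith
    _ = ((d : ℝ) + 2 * r0) / 2 ^ 30 := by ring
    _ ≤ ((R : ℝ) + R') / 2 ^ 30 := h3
    _ = _ := by ring

private theorem NUMH2_list (cell : ℕ → ℕ → ℕ → ℕ → ℕ → Bool) (Pd : ℂ → Prop)
    (hcell : ∀ cx cy R t tz, cell cx cy R t tz = true →
      ∀ w ∈ Metric.closedBall (ptv cx cy) ((R : ℝ) / 2 ^ 30), Pd w) (r0 dx dy Rd : ℕ) (w₁ : ℂ)
    (hw₁ : w₁ ∈ Metric.closedBall (ptv dx dy) ((r0 : ℝ) / 2 ^ 30))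
    (hend : ∀ w ∈ Metric.closedBall (ptv dx dy) ((Rd : ℝ) / 2 ^ 30), Pd w) (l : List PC) :
    ∀ (x y R : ℕ) (a : ℂ), pathList cell r0 dx dy Rd l x y R = true →
      a ∈ Metric.closedBall (ptv x y) ((r0 : ℝ) / 2 ^ 30) →
      (∀ w ∈ Metric.closedBall (ptv x y) ((R : ℝ) / 2 ^ 30), Pd w) →
      ∀ w ∈ segs (a :: ((l.map fun q => ptv q.x q.y) ++ [w₁])), Pd w := by
  induction l with
  | nil =>
    intro x y R a h ha hR w hw
    have h' : Nat.ble (Nat.add (dist2 x y dx dy) (Nat.mul 2 r0)) (Nat.add R Rd) = true := h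
    simp only [List.map_nil, List.nil_append, segs, Set.union_empty] at hw
    rw [mem_closedBall_iff_norm] at ha hw₁
    rcases NUMH2_step ha hw₁ (NUMH2_dist x y dx dy) h' hw with h1 | h1
    · exact hR w (mem_closedBall_iff_norm.2 h1)
    · exact hend w (mem_closedBall_iff_norm.2 h1)
  | cons q l ih =>
    intro x y R a h ha hR w hw
    obtain ⟨x', y', R', t, tz⟩ := q
    have h' : and (Nat.ble (Nat.add (dist2 x y x' y') (Nat.mul 2 r0)) (Nat.add R R'))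
        (and (cell x' y' R' t tz) (pathList cell r0 dx dy Rd l x' y' R')) = true := h
    obtain ⟨h1, h2⟩ := NUMH2_and h'
    obtain ⟨h3, h4⟩ := NUMH2_and h2
    have hc := hcell _ _ _ _ _ h3
    have hself : ptv x' y' ∈ Metric.closedBall (ptv x' y') ((r0 : ℝ) / 2 ^ 30) :=
      Metric.mem_closedBall_self (by positivity)
    rw [List.map_cons, List.cons_append] at hw
    have hw' : w ∈ segment ℝ a (ptv x' y') ∪
        segs (ptv x' y' :: ((l.map fun q => ptv q.x q.y) ++ [w₁])) := hw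
    rcases hw' with hw' | hw'
    · rw [mem_closedBall_iff_norm] at ha hself
      rcases NUMH2_step ha hself (NUMH2_dist x y x' y') h1 hw' with h5 | h5
      · exact hR w (mem_closedBall_iff_norm.2 h5)
      · exact hc w (mem_closedBall_iff_norm.2 h5)
    · exact ih x' y' R' _ h4 hself hc w hw'

theorem rayChk_ok (cell : ℕ → ℕ → ℕ → Bool) (Pd : ℂ → Prop)
    (hcell : ∀ cx cy R, cell cx cy R = true →
      ∀ w ∈ Metric.closedBall (ptv cx cy) ((R : ℝ) / 2 ^ 30), Pd w)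
    (r0 x y xp xq yp yq : ℕ) (hx : xp = 0 ∨ xq = 0) (hy : yp = 0 ∨ yq = 0) (l : List RC)
    (h : rayChk cell r0 x y xp xq yp yq l = true) (w₀ : ℂ)
    (hw₀ : w₀ ∈ Metric.closedBall (ptv x y) ((r0 : ℝ) / 2 ^ 30)) (s : ℝ)
    (hs : s ∈ Icc (0 : ℝ) 1) : Pd (w₀ + s * vec xp xq yp yq) := by
  obtain ⟨hx', hy', R, l', h1, h2, h3⟩ := NH1_chk_spec cell r0 x y xp xq yp yq l h
  have hR := hcell _ _ _ h2
  rcases eq_or_lt_of_le hs.1 with h0 | h0
  · apply hR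
    have e := NH1_mem x y xp xq yp yq r0 0 R (by norm_num) hx' hy' w₀ hw₀ s (by
      rw [← h0]
      have : (r0 : ℝ) + 4 ≤ R := by exact_mod_cast h1
      norm_num
      linarith)
    rw [NH1_rpt_zero, NH1_rpt_zero] at e
    exact e
  · refine NH1_chain cell Pd hcell r0 x y xp xq yp yq hx hy hx' hy' w₀ hw₀ l' 0 R h3 ?_ s
      (by simpa using h0) hs.2
    rw [NH1_rpt_zero, NH1_rpt_zero]
    exact hR

/-- the end of a ray is the first point of the path, if no coordinate is truncated -/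
theorem ptv_end (x y xp xq yp yq : ℕ) (hx : xq ≤ x) (hy : yq ≤ y) :
    ptv (Nat.sub (Nat.add x xp) xq) (Nat.sub (Nat.add y yp) yq) = ptv x y + vec xp xq yp yq := by
  have e1 : ((Nat.sub (Nat.add x xp) xq : ℕ) : ℝ) = x + xp - xq := by
    have : ((x + xp - xq : ℕ) : ℝ) = x + xp - xq := by
      rw [Nat.cast_sub (by omega)]
      push_cast
      ring
    exact this
  have e2 : ((Nat.sub (Nat.add y yp) yq : ℕ) : ℝ) = y + yp - yq := by
    have : ((y + yp - yq : ℕ) : ℝ) = y + yp - yq := by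
      rw [Nat.cast_sub (by omega)]
      push_cast
      ring
    exact this
  apply Complex.ext
  · simp only [ptv, vec, Complex.add_re, e1]
    ring
  · simp only [ptv, vec, Complex.add_im, e2]
    ring

/-- `rayChk` contains the check that no coordinate is truncated -/
theorem rayChk_le (cell : ℕ → ℕ → ℕ → Bool) (r0 x y xp xq yp yq : ℕ) (l : List RC)
    (h : rayChk cell r0 x y xp xq yp yq l = true) : xq ≤ x ∧ yq ≤ y := by
  obtain ⟨h1, h2, -⟩ := NH1_chk_spec cell r0 x y xp xq yp yq l h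
  exact ⟨h1, h2⟩

theorem pathChk_ok (cell : ℕ → ℕ → ℕ → ℕ → ℕ → Bool) (Pd : ℂ → Prop)
    (hcell : ∀ cx cy R t tz, cell cx cy R t tz = true →
      ∀ w ∈ Metric.closedBall (ptv cx cy) ((R : ℝ) / 2 ^ 30), Pd w)
    (r0 cx cy dx dy : ℕ) (e0 e1 : PC) (l : List PC)
    (h : pathChk cell r0 cx cy dx dy e0 e1 l = true) (w₀ w₁ : ℂ)
    (hw₀ : w₀ ∈ Metric.closedBall (ptv cx cy) ((r0 : ℝ) / 2 ^ 30))
    (hw₁ : w₁ ∈ Metric.closedBall (ptv dx dy) ((r0 : ℝ) / 2 ^ 30)) :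
    ∀ w ∈ segs (w₀ :: ((l.map fun q => ptv q.x q.y) ++ [w₁])), Pd w := by
  obtain ⟨x0, y0, R0, t0, tz0⟩ := e0
  obtain ⟨x1, y1, R1, t1, tz1⟩ := e1
  have h' : and (cell cx cy R0 t0 tz0) (and (cell dx dy R1 t1 tz1)
      (pathList cell r0 dx dy R1 l cx cy R0)) = true := h
  obtain ⟨h1, h2⟩ := NUMH2_and h'
  obtain ⟨h3, h4⟩ := NUMH2_and h2
  exact NUMH2_list cell Pd hcell r0 dx dy R1 w₁ hw₁ (hcell _ _ _ _ _ h3) l cx cy R0 w₀ h4 hw₀
    (hcell _ _ _ _ _ h1)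

theorem uvNeg_ok (xp xq yp yq xp' xq' yp' yq' : ℕ)
    (h : uvNeg xp xq yp yq xp' xq' yp' yq' = true) :
    (vec xp xq yp yq * (starRingEnd ℂ) (vec xp' xq' yp' yq')).re < 0 := by
  have h1 : (xp * xp' + xq * xq') + (yp * yp' + yq * yq') + 1 ≤
      (xp * xq' + xq * xp') + (yp * yq' + yq * yp') := Nat.le_of_ble_eq_true h
  have h2 : ((xp : ℝ) * xp' + xq * xq') + (yp * yp' + yq * yq') + 1 ≤
      (xp * xq' + xq * xp') + (yp * yq' + yq * yp') := by exact_mod_cast h1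
  have h3 : (vec xp xq yp yq * (starRingEnd ℂ) (vec xp' xq' yp' yq')).re =
      (((xp : ℝ) - xq) * (xp' - xq') + (yp - yq) * (yp' - yq')) / 2 ^ 60 := by
    simp only [vec, Complex.mul_re, Complex.conj_re, Complex.conj_im]
    ring
  rw [h3]
  apply div_neg_of_neg_of_pos
  · nlinarith
  · positivity

theorem usq_ok (xp xq yp yq : ℕ) : (usq xp xq yp yq).val = vec xp xq yp yq ^ 2 := by
  apply Complex.ext
  · have h1 : (vec xp xq yp yq ^ 2).re =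
        (((xp : ℝ) - xq) ^ 2 - ((yp : ℝ) - yq) ^ 2) / 2 ^ 60 := by
      simp only [vec, pow_two, Complex.mul_re]
      ring
    have h2 : (usq xp xq yp yq).val.re =
        (((Nat.shiftLeft ((xp * xp + xq * xq) + 2 * (yp * yq)) 20 : ℕ) : ℝ) -
          ((Nat.shiftLeft ((yp * yp + yq * yq) + 2 * (xp * xq)) 20 : ℕ) : ℝ)) / 2 ^ 80 := rfl
    rw [h1, h2, NUMH2_shl, NUMH2_shl]
    push_cast
    ring
  · have h1 : (vec xp xq yp yq ^ 2).im =
        2 * (((xp : ℝ) - xq) * ((yp : ℝ) - yq)) / 2 ^ 60 := by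
      simp only [vec, pow_two, Complex.mul_im]
      ring
    have h2 : (usq xp xq yp yq).val.im =
        (((Nat.shiftLeft (2 * (xp * yp + xq * yq)) 20 : ℕ) : ℝ) -
          ((Nat.shiftLeft (2 * (xp * yq + xq * yp)) 20 : ℕ) : ℝ)) / 2 ^ 80 := rfl
    rw [h1, h2, NUMH2_shl, NUMH2_shl]
    push_cast
    ring

theorem unsq_ok (xp xq yp yq : ℕ) (hx : xp = 0 ∨ xq = 0) (hy : yp = 0 ∨ yq = 0) :
    ‖vec xp xq yp yq‖ ^ 2 ≤ (unsq (Nat.add xp xq) (Nat.add yp yq) : ℝ) / 2 ^ 80 := by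
  have h1 : ‖vec xp xq yp yq‖ ^ 2 = (((xp : ℝ) - xq) ^ 2 + ((yp : ℝ) - yq) ^ 2) / 2 ^ 60 := by
    unfold vec
    rw [NUMH2_norm_mk, Real.sq_sqrt (by positivity)]
    ring
  have h2 : (unsq (Nat.add xp xq) (Nat.add yp yq) : ℝ) =
      ((Nat.shiftLeft ((xp + xq) * (xp + xq) + (yp + yq) * (yp + yq)) 20 : ℕ) : ℝ) := rfl
  have h3 : ((xp : ℝ) - xq) ^ 2 = ((xp : ℝ) + xq) ^ 2 := by
    rcases hx with h | h
    · rw [h]
      push_cast
      ring
    · rw [h]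
      push_cast
      ring
  have h4 : ((yp : ℝ) - yq) ^ 2 = ((yp : ℝ) + yq) ^ 2 := by
    rcases hy with h | h
    · rw [h]
      push_cast
      ring
    · rw [h]
      push_cast
      ring
  rw [h1, h2, h3, h4, NUMH2_shl]
  push_cast
  apply le_of_eq
  ring

theorem u3_ok (xp xq yp yq : ℕ) :
    ‖(u3 xp xq yp yq).val - vec xp xq yp yq ^ 3‖ ≤ 2 / 2 ^ 80 := by
  have h1 := CP.val_mul (usq xp xq yp yq) (ucp xp xq yp yq)
  have h2 : (ucp xp xq yp yq).val = vec xp xq yp yq := by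
    apply Complex.ext
    · have h3 : (ucp xp xq yp yq).val.re =
          (((Nat.shiftLeft xp 50 : ℕ) : ℝ) - ((Nat.shiftLeft xq 50 : ℕ) : ℝ)) / 2 ^ 80 := rfl
      have h4 : (vec xp xq yp yq).re = ((xp : ℝ) - xq) / 2 ^ 30 := rfl
      rw [h3, h4, NUMH2_shl, NUMH2_shl]
      ring
    · have h3 : (ucp xp xq yp yq).val.im =
          (((Nat.shiftLeft yp 50 : ℕ) : ℝ) - ((Nat.shiftLeft yq 50 : ℕ) : ℝ)) / 2 ^ 80 := rfl
      have h4 : (vec xp xq yp yq).im = ((yp : ℝ) - yq) / 2 ^ 30 := rfl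
      rw [h3, h4, NUMH2_shl, NUMH2_shl]
      ring
  rw [usq_ok, h2, ← pow_succ] at h1
  exact h1

theorem un3_ok (xp xq yp yq : ℕ) (hx : xp = 0 ∨ xq = 0) (hy : yp = 0 ∨ yq = 0) :
    ‖vec xp xq yp yq‖ ^ 3 ≤ (un3 (Nat.add xp xq) (Nat.add yp yq) : ℝ) / 2 ^ 80 := by
  have h1 := unsq_ok xp xq yp yq hx hy
  have h3 : ((xp : ℝ) - xq) ^ 2 = ((xp : ℝ) + xq) ^ 2 := by
    rcases hx with h | h
    · rw [h]
      push_cast
      ring
    · rw [h]
      push_cast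
      ring
  have h4 : ((yp : ℝ) - yq) ^ 2 = ((yp : ℝ) + yq) ^ 2 := by
    rcases hy with h | h
    · rw [h]
      push_cast
      ring
    · rw [h]
      push_cast
      ring
  have h2 : ‖vec xp xq yp yq‖ ≤ (mup (Nat.add xp xq) (Nat.add yp yq) : ℝ) / 2 ^ 30 := by
    unfold vec
    rw [NUMH2_norm_mk]
    have h5 : (((xp : ℝ) - xq) / 2 ^ 30) ^ 2 + (((yp : ℝ) - yq) / 2 ^ 30) ^ 2 =
        (((xp : ℝ) + xq) ^ 2 + ((yp : ℝ) + yq) ^ 2) * ((1 / 2 ^ 30) ^ 2) := by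
      rw [div_pow, div_pow, h3, h4]
      ring
    rw [h5, Real.sqrt_mul (by positivity), Real.sqrt_sq (by positivity)]
    have h6 := mup_ge (Nat.add xp xq) (Nat.add yp yq)
    have h7 : ((Nat.add xp xq : ℕ) : ℝ) = (xp : ℝ) + xq := Nat.cast_add xp xq
    have h8 : ((Nat.add yp yq : ℕ) : ℝ) = (yp : ℝ) + yq := Nat.cast_add yp yq
    rw [h7, h8] at h6
    have h9 := mul_le_mul_of_nonneg_right h6 (by positivity : (0 : ℝ) ≤ 1 / 2 ^ 30)
    calc _ ≤ (mup (Nat.add xp xq) (Nat.add yp yq) : ℝ) * (1 / 2 ^ 30) := h9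
      _ = _ := by ring
  revert h1 h2
  generalize Nat.add xp xq = X
  generalize Nat.add yp yq = Y
  intro h1 h2
  have h10 := rsh_gt (unsq X Y * mup X Y) 30
  rw [NUMH2_un3]
  calc ‖vec xp xq yp yq‖ ^ 3 = ‖vec xp xq yp yq‖ ^ 2 * ‖vec xp xq yp yq‖ := by ring
    _ ≤ ((unsq X Y : ℝ) / 2 ^ 80) * ((mup X Y : ℝ) / 2 ^ 30) :=
      mul_le_mul h1 h2 (norm_nonneg _) (by positivity)
    _ = (((unsq X Y * mup X Y : ℕ) : ℝ) / 2 ^ 30) / 2 ^ 80 := by
      push_cast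
      ring
    _ ≤ _ := div_le_div_of_nonneg_right h10.le (by positivity)

end Pool.Agent.SHD
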