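import Mathlib
import Pool.Agent.SHD.NF
import Pool.Agent.SHD.NG
import Pool.Agent.SHD.NH

set_option autoImplicit false

/-!
Soundness of the check of a block (module NUMI).
-/

noncomputable section

namespace Pool.Agent.SHD

open Polynomial Set

variable {ι : Type} [Fintype ι]

private theorem NI_and (x y : Bool) (h : and x y = true) : x = true ∧ y = true := by
  revert h; cases x <;> cases y <;> decide

private theorem NI_mem (x y r0 xp xq yp yq : ℕ) (hx : xq ≤ x) (hy : yq ≤ y) (w₀ : ℂ)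
    (hw₀ : w₀ ∈ Metric.closedBall (ptv x y) ((r0 : ℝ) / 2 ^ 30)) :
    w₀ + vec xp xq yp yq ∈ Metric.closedBall
      (ptv (Nat.sub (Nat.add x xp) xq) (Nat.sub (Nat.add y yp) yq)) ((r0 : ℝ) / 2 ^ 30) := by
  rw [ptv_end x y xp xq yp yq hx hy]
  rw [Metric.mem_closedBall] at hw₀ ⊢
  rwa [dist_add_right]

private theorem NI_chk3 (b : ι → ℂ) (hb : Near b) (z : ℂ) (hz : ‖z - zcv‖ ≤ 1 / 2 ^ 56)
    (root : Bool) (rcu rcv : ℕ → ℕ → ℕ → Bool) (A0 A1 x y r0 t tz : ℕ) (e0 e1 : PC)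
    (ru rv : List RC) (p : List PC) (xp xq yp yq xp' xq' yp' yq' : ℕ)
    (h : chk3 root rcu rcv A0 A1 x y r0 t tz e0 e1 ru rv p xp xq yp yq xp' xq' yp' yq' = true)
    (α : ℝ) (hα : α ∈ Icc ((A0 : ℝ) / 2 ^ 30) ((A1 : ℝ) / 2 ^ 30)) :
    A0 ≤ A1 ∧ A1 ≤ 1000 * 2 ^ 30 ∧
    (vec xp xq yp yq * (starRingEnd ℂ) (vec xp' xq' yp' yq')).re < 0 ∧
    rayChk rcu r0 x y xp xq yp yq ru = true ∧ rayChk rcv r0 x y xp' xq' yp' yq' rv = true ∧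
    (root = true → ∃ w ∈ Metric.closedBall (ptv x y) ((r0 : ℝ) / 2 ^ 30), ff b z α w = 0) ∧
    ∀ w₀ ∈ Metric.closedBall (ptv x y) ((r0 : ℝ) / 2 ^ 30), ff b z α w₀ = 0 →
      ∀ w ∈ segs ((w₀ + vec xp xq yp yq) :: ((p.map fun q => ptv q.x q.y) ++
        [w₀ + vec xp' xq' yp' yq'])), w ≠ z ∧ lev b z α w < lev b z α w₀ := by
  unfold chk3 at h
  obtain ⟨h1, h2⟩ := NI_and _ _ h
  obtain ⟨h3, h4⟩ := NI_and _ _ h1
  obtain ⟨h5, h6⟩ := NI_and _ _ h4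
  obtain ⟨h7, h8⟩ := NI_and _ _ h2
  obtain ⟨h9, h10⟩ := NI_and _ _ h8
  obtain ⟨h11, h12⟩ := NI_and _ _ h9
  have hA : A0 < A1 := Nat.le_of_ble_eq_true h3
  have hr0 : 1 ≤ r0 := Nat.le_of_ble_eq_true h5
  have hA1 : A1 ≤ 1000 * 2 ^ 30 := by
    have := Nat.le_of_ble_eq_true h6
    omega
  obtain ⟨C, hC, hC0, hC1, hk, hroot⟩ := blkC_ok b hb z hz root A0 A1 x y r0 t tz hA hA1 hr0 _ h10
  refine ⟨hA.le, hA1, uvNeg_ok _ _ _ _ _ _ _ _ h7, h11, h12, fun hr => hroot hr α hα, ?_⟩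
  intro w₀ hw₀ h0
  have hu := rayChk_le rcu r0 x y xp xq yp yq ru h11
  have hv := rayChk_le rcv r0 x y xp' xq' yp' yq' rv h12
  refine pathChk_ok (valCell C) (fun w => w ≠ z ∧ lev b z α w < lev b z α w₀) ?_ r0 _ _ _ _ e0 e1 p
    hk _ _ (NI_mem x y r0 xp xq yp yq hu.1 hu.2 w₀ hw₀)
    (NI_mem x y r0 xp' xq' yp' yq' hv.1 hv.2 w₀ hw₀)
  intro cx cy R t tz hcell w hw
  refine valCell_ok b hb z hz C (ptv x y) ((r0 : ℝ) / 2 ^ 30) (by positivity) hC cx cy R t tz hcell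
    α ?_ w₀ hw₀ h0 w hw
  rw [hC0, hC1]
  exact hα

theorem chkBlk_ok (b : ι → ℂ) (hb : Near b) (z : ℂ) (hz : ‖z - zcv‖ ≤ 1 / 2 ^ 56) (B : BD)
    (h : chkBlk B = true) (α : ℝ) (hα : α ∈ Icc ((B.A0 : ℝ) / 2 ^ 30) ((B.A1 : ℝ) / 2 ^ 30)) :
    ∃ w₀ u v p, Dom b z α w₀ u v p := by
  obtain ⟨A0, A1, x, y, r0, t, tz, ux, uy, vx, vy, e0, e1, ru, rv, p⟩ := B
  have hux : Nat.sub ux off = 0 ∨ Nat.sub off ux = 0 := by
    change ux - off = 0 ∨ off - ux = 0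
    omega
  have huy : Nat.sub uy off = 0 ∨ Nat.sub off uy = 0 := by
    change uy - off = 0 ∨ off - uy = 0
    omega
  have hvx : Nat.sub vx off = 0 ∨ Nat.sub off vx = 0 := by
    change vx - off = 0 ∨ off - vx = 0
    omega
  have hvy : Nat.sub vy off = 0 ∨ Nat.sub off vy = 0 := by
    change vy - off = 0 ∨ off - vy = 0
    omega
  obtain ⟨hA, hA1, huv, hru, hrv, hroot, hpath⟩ := NI_chk3 b hb z hz true _ _ A0 A1 x y r0 t tz e0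
    e1 ru rv p _ _ _ _ _ _ _ _ h α hα
  obtain ⟨w₀, hw₀, h0⟩ := hroot rfl
  have hu := fun (s : ℝ) (hs : s ∈ Icc (0 : ℝ) 1) => rayChk_ok _
    (fun w => (w ≠ z ∧ ∀ i, w ≠ b i) ∧
      (vec (Nat.sub ux off) (Nat.sub off ux) (Nat.sub uy off) (Nat.sub off uy) ^ 2 *
        ff1 b z α w).re < 0)
    (fun cx cy R hc w hw => rayCell_ok b hb z hz A0 A1 hA hA1 _ _ (usq_ok _ _ _ _) _
      (unsq_ok _ _ _ _ hux huy) cx cy R hc α hα w hw) r0 x y _ _ _ _ hux huy ru hru w₀ hw₀ s hs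
  have hv := fun (s : ℝ) (hs : s ∈ Icc (0 : ℝ) 1) => rayChk_ok _
    (fun w => (w ≠ z ∧ ∀ i, w ≠ b i) ∧
      (vec (Nat.sub vx off) (Nat.sub off vx) (Nat.sub vy off) (Nat.sub off vy) ^ 2 *
        ff1 b z α w).re < 0)
    (fun cx cy R hc w hw => rayCell_ok b hb z hz A0 A1 hA hA1 _ _ (usq_ok _ _ _ _) _
      (unsq_ok _ _ _ _ hvx hvy) cx cy R hc α hα w hw) r0 x y _ _ _ _ hvx hvy rv hrv w₀ hw₀ s hs
  exact ⟨w₀, _, _, _, h0, fun s hs => (hu s hs).1, fun s hs => (hv s hs).1,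
    fun s hs => (hu s hs).2, fun s hs => (hv s hs).2, huv, hpath w₀ hw₀ h0⟩

/-- `u` of a block -/
def BD.u (B : BD) : ℂ :=
  vec (Nat.sub B.ux off) (Nat.sub off B.ux) (Nat.sub B.uy off) (Nat.sub off B.uy)

/-- `v` of a block -/
def BD.v (B : BD) : ℂ :=
  vec (Nat.sub B.vx off) (Nat.sub off B.vx) (Nat.sub B.vy off) (Nat.sub off B.vy)

/-- the path of a block -/
def BD.path (B : BD) : List ℂ := B.p.map fun q => ptv q.x q.y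

theorem chkReg_ok (b : ι → ℂ) (hb : Near b) (z : ℂ) (hz : ‖z - zcv‖ ≤ 1 / 2 ^ 56) (B : BD)
    (h : chkReg B = true) (α : ℝ) (hα : α ∈ Icc ((B.A0 : ℝ) / 2 ^ 30) ((B.A1 : ℝ) / 2 ^ 30))
    (w₀ : ℂ) (hw₀ : w₀ ∈ Metric.closedBall (ptv B.x B.y) ((B.r : ℝ) / 2 ^ 30))
    (h0 : ff b z α w₀ = 0) :
    (∀ s ∈ Icc (0 : ℝ) 1, w₀ + s * B.u ≠ z ∧ ∀ i, w₀ + s * B.u ≠ b i) ∧
    (∀ s ∈ Icc (0 : ℝ) 1, w₀ + s * B.v ≠ z ∧ ∀ i, w₀ + s * B.v ≠ b i) ∧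
    (∀ s ∈ Icc (0 : ℝ) 1, (B.u ^ 3 * ff2 b z α (w₀ + s * B.u)).re < 0) ∧
    (∀ s ∈ Icc (0 : ℝ) 1, (B.v ^ 3 * ff2 b z α (w₀ + s * B.v)).re < 0) ∧
    (B.u * (starRingEnd ℂ) B.v).re < 0 ∧
    ∀ w ∈ segs ((w₀ + B.u) :: (B.path ++ [w₀ + B.v])), w ≠ z ∧ lev b z α w < lev b z α w₀ := by
  obtain ⟨A0, A1, x, y, r0, t, tz, ux, uy, vx, vy, e0, e1, ru, rv, p⟩ := B
  have hux : Nat.sub ux off = 0 ∨ Nat.sub off ux = 0 := by
    change ux - off = 0 ∨ off - ux = 0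
    omega
  have huy : Nat.sub uy off = 0 ∨ Nat.sub off uy = 0 := by
    change uy - off = 0 ∨ off - uy = 0
    omega
  have hvx : Nat.sub vx off = 0 ∨ Nat.sub off vx = 0 := by
    change vx - off = 0 ∨ off - vx = 0
    omega
  have hvy : Nat.sub vy off = 0 ∨ Nat.sub off vy = 0 := by
    change vy - off = 0 ∨ off - vy = 0
    omega
  obtain ⟨hA, hA1, huv, hru, hrv, -, hpath⟩ := NI_chk3 b hb z hz false _ _ A0 A1 x y r0 t tz e0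
    e1 ru rv p _ _ _ _ _ _ _ _ h α hα
  have hu := fun (s : ℝ) (hs : s ∈ Icc (0 : ℝ) 1) => rayChk_ok _
    (fun w => (w ≠ z ∧ ∀ i, w ≠ b i) ∧
      (vec (Nat.sub ux off) (Nat.sub off ux) (Nat.sub uy off) (Nat.sub off uy) ^ 3 *
        ff2 b z α w).re < 0)
    (fun cx cy R hc w hw => ray3Cell_ok b hb z hz A0 A1 hA hA1 _ _ (u3_ok _ _ _ _) _
      (un3_ok _ _ _ _ hux huy) cx cy R hc α hα w hw) r0 x y _ _ _ _ hux huy ru hru w₀ hw₀ s hs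
  have hv := fun (s : ℝ) (hs : s ∈ Icc (0 : ℝ) 1) => rayChk_ok _
    (fun w => (w ≠ z ∧ ∀ i, w ≠ b i) ∧
      (vec (Nat.sub vx off) (Nat.sub off vx) (Nat.sub vy off) (Nat.sub off vy) ^ 3 *
        ff2 b z α w).re < 0)
    (fun cx cy R hc w hw => ray3Cell_ok b hb z hz A0 A1 hA hA1 _ _ (u3_ok _ _ _ _) _
      (un3_ok _ _ _ _ hvx hvy) cx cy R hc α hα w hw) r0 x y _ _ _ _ hvx hvy rv hrv w₀ hw₀ s hs
  exact ⟨fun s hs => (hu s hs).1, fun s hs => (hv s hs).1,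
    fun s hs => (hu s hs).2, fun s hs => (hv s hs).2, huv, hpath w₀ hw₀ h0⟩

end Pool.Agent.SHD
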