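import Mathlib
import Pool.Agent.SHD.NI
import Pool.Agent.SHD.Data.Da00
import Pool.Agent.SHD.Data.Da01
import Pool.Agent.SHD.Data.Da02
import Pool.Agent.SHD.Data.Da03
import Pool.Agent.SHD.Data.Da04
import Pool.Agent.SHD.Data.Da05
import Pool.Agent.SHD.Data.Da06
import Pool.Agent.SHD.Data.Da07
import Pool.Agent.SHD.Data.Da08
import Pool.Agent.SHD.Data.Db00
import Pool.Agent.SHD.Data.Db01
import Pool.Agent.SHD.Data.Db02
import Pool.Agent.SHD.Data.Db03
import Pool.Agent.SHD.Data.Db04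
import Pool.Agent.SHD.Data.Db05
import Pool.Agent.SHD.Data.Db06
import Pool.Agent.SHD.Data.Db07
import Pool.Agent.SHD.Data.Db08
import Pool.Agent.SHD.Data.Db09
import Pool.Agent.SHD.Data.Db10
import Pool.Agent.SHD.Data.Db11

set_option autoImplicit false

/-!
The blocks cover all `α` away from the double saddle point.
-/

noncomputable section

namespace Pool.Agent.SHD

open Set

variable {ι : Type} [Fintype ι]

/-- the intervals of the blocks cover `(lo, hi]` -/
def cov : List BD → ℕ → ℕ → Bool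
  | [], lo, hi => Nat.ble hi lo
  | B :: l, lo, hi => and (Nat.ble B.A0 lo) (cov l B.A1 hi)

theorem cov_ok (l : List BD) (lo hi : ℕ) (h : cov l lo hi = true) (α : ℝ)
    (h1 : (lo : ℝ) / 2 ^ 30 < α) (h2 : α ≤ (hi : ℝ) / 2 ^ 30) :
    ∃ B ∈ l, α ∈ Icc ((B.A0 : ℝ) / 2 ^ 30) ((B.A1 : ℝ) / 2 ^ 30) := by
  induction l generalizing lo with
  | nil =>
    exfalso
    have h3 : hi ≤ lo := Nat.le_of_ble_eq_true h
    have h4 : (hi : ℝ) / 2 ^ 30 ≤ (lo : ℝ) / 2 ^ 30 := by
      have : (hi : ℝ) ≤ lo := by exact_mod_cast h3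
      gcongr
    linarith
  | cons B l ih =>
    simp only [cov, Bool.and_eq_true] at h
    obtain ⟨h3, h4⟩ := h
    have h3 : B.A0 ≤ lo := Nat.le_of_ble_eq_true h3
    have h5 : (B.A0 : ℝ) / 2 ^ 30 ≤ (lo : ℝ) / 2 ^ 30 := by
      have : (B.A0 : ℝ) ≤ lo := by exact_mod_cast h3
      gcongr
    by_cases h6 : α ≤ (B.A1 : ℝ) / 2 ^ 30
    · exact ⟨B, by simp, by linarith, h6⟩
    · obtain ⟨B', hB', h7⟩ := ih B.A1 h4 (not_le.mp h6)
      exact ⟨B', by simp [hB'], h7⟩

/-- all blocks of one side -/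
def lowL : List BD :=
  dla00 ++
  (dla01 ++
  (dla02 ++
  (dla03 ++
  (dla04 ++
  (dla05 ++
  (dla06 ++
  (dla07 ++
  (dla08))))))))

theorem lowL_chk : ∀ B ∈ lowL, chkBlk B = true := by
  intro B hB
  simp only [lowL, List.mem_append] at hB
  rcases hB with h | h | h | h | h | h | h | h | h
  · exact dla00_ok B h
  · exact dla01_ok B h
  · exact dla02_ok B h
  · exact dla03_ok B h
  · exact dla04_ok B h
  · exact dla05_ok B h
  · exact dla06_ok B h
  · exact dla07_ok B h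
  · exact dla08_ok B h

/-- all blocks of one side -/
def uppL : List BD :=
  dlb00 ++
  (dlb01 ++
  (dlb02 ++
  (dlb03 ++
  (dlb04 ++
  (dlb05 ++
  (dlb06 ++
  (dlb07 ++
  (dlb08 ++
  (dlb09 ++
  (dlb10 ++
  (dlb11)))))))))))

theorem uppL_chk : ∀ B ∈ uppL, chkBlk B = true := by
  intro B hB
  simp only [uppL, List.mem_append] at hB
  rcases hB with h | h | h | h | h | h | h | h | h | h | h | h
  · exact dlb00_ok B h
  · exact dlb01_ok B h
  · exact dlb02_ok B h
  · exact dlb03_ok B h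
  · exact dlb04_ok B h
  · exact dlb05_ok B h
  · exact dlb06_ok B h
  · exact dlb07_ok B h
  · exact dlb08_ok B h
  · exact dlb09_ok B h
  · exact dlb10_ok B h
  · exact dlb11_ok B h

theorem lowL_cov : cov lowL 55818740595 967422759380 = true := by decide +kernel

theorem uppL_cov : cov uppL 967424001527 1061606714463 = true := by decide +kernel

theorem dom_low (b : ι → ℂ) (hb : Near b) (z : ℂ) (hz : ‖z - zcv‖ ≤ 1 / 2 ^ 56) (α : ℝ)
    (h1 : 52 ≤ α) (h2 : α ≤ 900982655 / 1000000) : ∃ w₀ u v p, Dom b z α w₀ u v p := by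
  obtain ⟨B, hB, hα⟩ := cov_ok lowL 55818740595 967422759380 lowL_cov α (by norm_num; linarith) (by norm_num; linarith)
  exact chkBlk_ok b hb z hz B (lowL_chk B hB) α hα

theorem dom_upp (b : ι → ℂ) (hb : Near b) (z : ℂ) (hz : ‖z - zcv‖ ≤ 1 / 2 ^ 56) (α : ℝ)
    (h1 : 900983812 / 1000000 ≤ α) (h2 : α ≤ 9886 / 10) : ∃ w₀ u v p, Dom b z α w₀ u v p := by
  obtain ⟨B, hB, hα⟩ := cov_ok uppL 967424001527 1061606714463 uppL_cov α (by norm_num; linarith) (by norm_num; linarith)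
  exact chkBlk_ok b hb z hz B (uppL_chk B hB) α hα

end Pool.Agent.SHD
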