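import Mathlib
import Pool.Agent.SHD.NC

set_option autoImplicit false

/-!
The zeros of the polynomial (modules NUML1: near, card; NUML2: convex position; NUML3: not a regular
polygon).
-/

noncomputable section

namespace Pool.Agent.SHD

open Polynomial Set

/-- the number of zeros of the seven clusters -/
def wt : Fin 7 → ℕ := ![54, 16, 49, 71, 307, 479, 24]

/-- the centres of the clusters -/
def cen : Fin 7 → ℂ := ![⟨705 / 1024, 166 / 1024⟩, ⟨659 / 1024, 399 / 1024⟩,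
  ⟨-(1774 / 1024), 1055 / 1024⟩, ⟨-(1619 / 1024), -(983 / 1024)⟩, ⟨638 / 1024, -(322 / 1024)⟩,
  ⟨728 / 1024, -(79 / 1024)⟩, ⟨-(645 / 1024), 3655 / 1024⟩]

/-- outward directions -/
def nor : Fin 7 → ℂ := ![⟨7, 1⟩, ⟨8, 3⟩, ⟨-5, 1⟩, ⟨-4, -7⟩, ⟨2, -5⟩, ⟨7, -1⟩, ⟨1, 4⟩]

/-- the 1000 zeros: cluster `j` consists of `wt j` points on a parabola -/
def zer (i : Σ j : Fin 7, Fin (wt j)) : ℂ :=
  cen i.1 + nor i.1 * ⟨-((i.2 : ℕ) : ℝ) ^ 2 / 2 ^ 124, ((i.2 : ℕ) : ℝ) / 2 ^ 100⟩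

theorem zer_card : Fintype.card (Σ j : Fin 7, Fin (wt j)) = 1000 := by
  rw [Fintype.card_sigma]
  simp only [Fintype.card_fin]
  decide

private theorem numl1_map (f : (Σ j : Fin 7, Fin (wt j)) → ℂ) :
    (Finset.univ : Finset (Σ j : Fin 7, Fin (wt j))).val.map f =
      ∑ j : Fin 7, (Finset.univ : Finset (Fin (wt j))).val.map (fun k => f ⟨j, k⟩) := by
  have h : (Finset.univ : Finset (Σ j : Fin 7, Fin (wt j))).val =
      (Finset.univ : Finset (Fin 7)).val.bind fun j =>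
        (Finset.univ : Finset (Fin (wt j))).val.map (Sigma.mk j) := rfl
  rw [h, Multiset.map_bind]
  simp only [Multiset.map_map, Function.comp_def]
  rfl

private theorem numl1_wt (j : Fin 7) : wt j ≤ 512 := by
  revert j
  decide

private theorem numl1_nor (j : Fin 7) : ‖nor j‖ ≤ 11 := by
  refine (Complex.norm_le_abs_re_add_abs_im _).trans ?_
  fin_cases j <;> norm_num [nor]

private theorem numl1_near (j : Fin 7) (q : Cl) (hw : q.w = wt j) (hc : ptv q.x q.y = cen j) :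
    NearC q ((Finset.univ : Finset (Fin (wt j))).val.map (fun k => zer ⟨j, k⟩)) := by
  refine ⟨?_, ?_⟩
  · rw [Multiset.card_map, Finset.card_val, Finset.card_univ, Fintype.card_fin, hw]
  · intro z hz
    obtain ⟨k, _, rfl⟩ := Multiset.mem_map.mp hz
    rw [hc]
    simp only [zer, add_sub_cancel_left]
    have hk : ((k : ℕ) : ℝ) ≤ 512 := by
      exact_mod_cast k.2.le.trans (numl1_wt j)
    have hk0 : (0 : ℝ) ≤ ((k : ℕ) : ℝ) := Nat.cast_nonneg _
    rw [norm_mul]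
    have h1 : ‖(⟨-((k : ℕ) : ℝ) ^ 2 / 2 ^ 124, ((k : ℕ) : ℝ) / 2 ^ 100⟩ : ℂ)‖ ≤ 1 / 2 ^ 90 := by
      refine (Complex.norm_le_abs_re_add_abs_im _).trans ?_
      have h2 : |(-((k : ℕ) : ℝ) ^ 2 / 2 ^ 124)| ≤ 512 ^ 2 / 2 ^ 124 := by
        rw [neg_div, abs_neg, abs_of_nonneg (by positivity)]
        gcongr
      have h3 : |(((k : ℕ) : ℝ) / 2 ^ 100)| ≤ 512 / 2 ^ 100 := by
        rw [abs_of_nonneg (by positivity)]
        gcongr
      have h4 : (512 ^ 2 / 2 ^ 124 + 512 / 2 ^ 100 : ℝ) ≤ 1 / 2 ^ 90 := by norm_num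
      exact (add_le_add h2 h3).trans h4
    have h5 := mul_le_mul (numl1_nor j) h1 (norm_nonneg _) (by norm_num)
    refine h5.trans ?_
    norm_num

private theorem numl1_pt {x y : ℕ} {j : Fin 7} (a c : ℝ) (h : cen j = ⟨a, c⟩)
    (ha : ((x : ℝ) - 2 ^ 36) / 2 ^ 30 = a) (hc : ((y : ℝ) - 2 ^ 36) / 2 ^ 30 = c) :
    ptv x y = cen j := by
  rw [h, ptv, ha, hc]

theorem zer_near : Near zer := by
  unfold Near
  rw [numl1_map, Fin.sum_univ_seven]
  refine ⟨_, _, ?_, numl1_near 0 _ rfl (numl1_pt _ _ rfl ?_ ?_), _, _, rfl,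
    numl1_near 1 _ rfl (numl1_pt _ _ rfl ?_ ?_), _, _, rfl,
    numl1_near 2 _ rfl (numl1_pt _ _ rfl ?_ ?_), _, _, rfl,
    numl1_near 3 _ rfl (numl1_pt _ _ rfl ?_ ?_), _, _, rfl,
    numl1_near 4 _ rfl (numl1_pt _ _ rfl ?_ ?_), _, _, rfl,
    numl1_near 5 _ rfl (numl1_pt _ _ rfl ?_ ?_), _, _, rfl,
    numl1_near 6 _ rfl (numl1_pt _ _ rfl ?_ ?_), rfl⟩
  · simp only [add_zero, add_assoc]
  all_goals norm_num

private theorem NL2_wt (j : Fin 7) : wt j ≤ 479 := by
  fin_cases j <;> simp [wt]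

private theorem NL2_nor (j : Fin 7) : |(nor j).re| ≤ 8 ∧ |(nor j).im| ≤ 8 := by
  fin_cases j <;> simp [nor] <;> norm_num [abs_le]

private theorem NL2_nor_pos (j : Fin 7) : 0 < (nor j).re ^ 2 + (nor j).im ^ 2 := by
  fin_cases j <;> simp [nor] <;> norm_num

private theorem NL2_cen (j k : Fin 7) :
    |(cen k).re - (cen j).re| ≤ 5 ∧ |(cen k).im - (cen j).im| ≤ 5 := by
  fin_cases j <;> fin_cases k <;> simp [cen] <;> norm_num [abs_le]

private theorem NL2_cn (j k : Fin 7) (h : k ≠ j) :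
    ((cen k).re - (cen j).re) * (nor j).re + ((cen k).im - (cen j).im) * (nor j).im ≤ -(8 / 100) := by
  fin_cases j <;> fin_cases k <;> first | exact absurd rfl h | (simp [cen, nor]; norm_num)

private theorem NL2_small {x : ℕ} (h : x < 479) :
    |-(x : ℝ) ^ 2 / 2 ^ 124| ≤ 1 / 10 ^ 9 ∧ |(x : ℝ) / 2 ^ 100| ≤ 1 / 10 ^ 9 := by
  have h1 : (x : ℝ) ≤ 479 := by exact_mod_cast h.le
  have h0 : (0 : ℝ) ≤ x := by positivity
  constructor
  · rw [neg_div, abs_neg, abs_of_nonneg (by positivity), div_le_div_iff₀ (by positivity) (by positivity)]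
    nlinarith
  · rw [abs_of_nonneg (by positivity), div_le_div_iff₀ (by positivity) (by positivity)]
    nlinarith

private theorem NL2_main {dx dy p q p' q' a b a' b' t : ℝ} (hdx : |dx| ≤ 5) (hdy : |dy| ≤ 5)
    (hp : |p| ≤ 8) (hq : |q| ≤ 8) (hp' : |p'| ≤ 8) (hq' : |q'| ≤ 8)
    (ha : |a| ≤ 1 / 10 ^ 9) (hb : |b| ≤ 1 / 10 ^ 9) (ha' : |a'| ≤ 1 / 10 ^ 9)
    (hb' : |b'| ≤ 1 / 10 ^ 9) (ht : |t| ≤ 1 / 10 ^ 4) (h : dx * p + dy * q ≤ -(8 / 100)) :
    (dx + (p' * a' - q' * b') - (p * a - q * b)) * (p - q * t) +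
      (dy + (p' * b' + q' * a') - (p * b + q * a)) * (q + p * t) < 0 := by
  have mul : ∀ {x y X Y : ℝ}, |x| ≤ X → |y| ≤ Y → 0 ≤ X → |x * y| ≤ X * Y := by
    intro x y X Y hx hy hX
    rw [abs_mul]
    exact mul_le_mul hx hy (abs_nonneg _) hX
  have e1 : |(p' * a' - q' * b') - (p * a - q * b)| ≤ 1 / 10 ^ 6 := by
    have h1 := abs_le.1 (mul hp' ha' (by norm_num))
    have h2 := abs_le.1 (mul hq' hb' (by norm_num))
    have h3 := abs_le.1 (mul hp ha (by norm_num))
    have h4 := abs_le.1 (mul hq hb (by norm_num))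
    rw [abs_le]
    constructor <;> linarith [h1.1, h1.2, h2.1, h2.2, h3.1, h3.2, h4.1, h4.2]
  have e2 : |(p' * b' + q' * a') - (p * b + q * a)| ≤ 1 / 10 ^ 6 := by
    have h1 := abs_le.1 (mul hp' hb' (by norm_num))
    have h2 := abs_le.1 (mul hq' ha' (by norm_num))
    have h3 := abs_le.1 (mul hp hb (by norm_num))
    have h4 := abs_le.1 (mul hq ha (by norm_num))
    rw [abs_le]
    constructor <;> linarith [h1.1, h1.2, h2.1, h2.2, h3.1, h3.2, h4.1, h4.2]
  have qt := abs_le.1 (mul hq ht (by norm_num))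
  have pt := abs_le.1 (mul hp ht (by norm_num))
  have n1 : |p - q * t| ≤ 9 := by
    rw [abs_le]
    constructor <;> linarith [(abs_le.1 hp).1, (abs_le.1 hp).2, qt.1, qt.2]
  have n2 : |q + p * t| ≤ 9 := by
    rw [abs_le]
    constructor <;> linarith [(abs_le.1 hq).1, (abs_le.1 hq).2, pt.1, pt.2]
  have f1 := abs_le.1 (mul e1 n1 (by norm_num))
  have f2 := abs_le.1 (mul e2 n2 (by norm_num))
  have g1 := abs_le.1 (mul hdx (abs_le.2 qt) (by norm_num))
  have g2 := abs_le.1 (mul hdy (abs_le.2 pt) (by norm_num))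
  nlinarith [f1.2, f2.2, g1.1, g2.2]

/-- for every zero there is a real linear functional with a strict maximum there -/
theorem zer_support (i : Σ j : Fin 7, Fin (wt j)) :
    ∃ n : ℂ, ∀ k, k ≠ i → ((zer k - zer i) * (starRingEnd ℂ) n).re < 0 := by
  obtain ⟨j, x₀⟩ := i
  refine ⟨nor j * ⟨1, ((x₀ : ℕ) : ℝ) / 2 ^ 23⟩, ?_⟩
  rintro ⟨k, x⟩ hk
  have hx₀ : (x₀ : ℕ) < 479 := lt_of_lt_of_le x₀.2 (NL2_wt j)
  have hx : (x : ℕ) < 479 := lt_of_lt_of_le x.2 (NL2_wt k)
  by_cases hkj : k = j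
  · subst hkj
    have hne : (x : ℕ) ≠ (x₀ : ℕ) := by
      intro h
      apply hk
      rw [Fin.ext h]
    have hne' : ((x : ℕ) : ℝ) - ((x₀ : ℕ) : ℝ) ≠ 0 := by
      rw [sub_ne_zero]
      exact_mod_cast hne
    have hpos := NL2_nor_pos k
    have hsq : 0 < (((x : ℕ) : ℝ) - ((x₀ : ℕ) : ℝ)) ^ 2 := by positivity
    have key : ((zer ⟨k, x⟩ - zer ⟨k, x₀⟩) * (starRingEnd ℂ)
        (nor k * ⟨1, ((x₀ : ℕ) : ℝ) / 2 ^ 23⟩)).re =
        -(((nor k).re ^ 2 + (nor k).im ^ 2) * (((x : ℕ) : ℝ) - ((x₀ : ℕ) : ℝ)) ^ 2 / 2 ^ 124) := by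
      simp only [zer, Complex.mul_re, Complex.sub_re, Complex.add_re, Complex.sub_im,
        Complex.add_im, Complex.mul_im, Complex.conj_re, Complex.conj_im]
      ring
    rw [key]
    have := mul_pos hpos hsq
    have h2 : 0 < ((nor k).re ^ 2 + (nor k).im ^ 2) *
        (((x : ℕ) : ℝ) - ((x₀ : ℕ) : ℝ)) ^ 2 / 2 ^ 124 := by positivity
    linarith
  · have s1 := NL2_small hx₀
    have s2 := NL2_small hx
    have t1 : |((x₀ : ℕ) : ℝ) / 2 ^ 23| ≤ 1 / 10 ^ 4 := by
      have h1 : ((x₀ : ℕ) : ℝ) ≤ 479 := by exact_mod_cast hx₀.le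
      rw [abs_of_nonneg (by positivity), div_le_div_iff₀ (by positivity) (by positivity)]
      nlinarith
    have := NL2_main (NL2_cen j k).1 (NL2_cen j k).2 (NL2_nor j).1 (NL2_nor j).2 (NL2_nor k).1
      (NL2_nor k).2 s1.1 s1.2 s2.1 s2.2 t1 (NL2_cn j k hkj)
    refine lt_of_eq_of_lt ?_ this
    simp only [zer, Complex.mul_re, Complex.sub_re, Complex.add_re, Complex.sub_im,
        Complex.add_im, Complex.mul_im, Complex.conj_re, Complex.conj_im]
    ring

private theorem NL2_inj : Function.Injective zer := by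
  intro k i h
  by_contra hne
  obtain ⟨n, hn⟩ := zer_support i
  have := hn k hne
  rw [h] at this
  simp at this

private theorem NL2_roots : (PP zer).roots = Finset.univ.val.map zer := by
  have h : PP zer = ((Finset.univ.val.map zer).map (fun a => X - C a)).prod := by
    rw [Multiset.map_map]
    rfl
  rw [h, Polynomial.roots_multiset_prod_X_sub_C]

theorem zer_convex : ConvexPosition (PP zer) := by
  have hr := NL2_roots
  refine ⟨?_, ?_⟩
  · rw [hr]
    exact Multiset.Nodup.map NL2_inj Finset.univ.nodup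
  · intro z hz
    rw [hr] at hz ⊢
    obtain ⟨i, -, rfl⟩ := Multiset.mem_map.1 hz
    obtain ⟨n, hn⟩ := zer_support i
    have hadd : ∀ (a b : ℝ) (x y : ℂ), a + b = 1 →
        ((a • x + b • y - zer i) * (starRingEnd ℂ) n).re =
          a * ((x - zer i) * (starRingEnd ℂ) n).re + b * ((y - zer i) * (starRingEnd ℂ) n).re := by
      intro a b x y hab
      have hb : b = 1 - a := by linarith
      subst hb
      simp only [Complex.mul_re, Complex.sub_re, Complex.add_re, Complex.sub_im,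
        Complex.add_im, Complex.conj_re, Complex.conj_im, Complex.real_smul, Complex.mul_im,
        Complex.ofReal_re, Complex.ofReal_im]
      ring
    set T : Set ℂ := {w | w = zer i ∨ ((w - zer i) * (starRingEnd ℂ) n).re < 0} with hT
    have hconv : Convex ℝ T := by
      intro x hx y hy a b ha hb hab
      rcases hx with hx | hx <;> rcases hy with hy | hy
      · left
        rw [hx, hy, ← add_smul, hab, one_smul]
      · rcases hb.eq_or_lt with h0 | h0
        · left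
          rw [← h0] at hab ⊢
          rw [add_zero] at hab
          rw [hab, hx]; simp
        · right
          rw [hadd a b x y hab, hx]
          simp only [sub_self, zero_mul, Complex.zero_re, mul_zero, zero_add]
          exact mul_neg_of_pos_of_neg h0 hy
      · rcases ha.eq_or_lt with h0 | h0
        · left
          rw [← h0] at hab ⊢
          rw [zero_add] at hab
          rw [hab, hy]; simp
        · right
          rw [hadd a b x y hab, hy]
          simp only [sub_self, zero_mul, Complex.zero_re, mul_zero, add_zero]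
          exact mul_neg_of_pos_of_neg h0 hx
      · right
        rw [hadd a b x y hab]
        rcases ha.eq_or_lt with h0 | h0
        · have : b = 1 := by linarith
          rw [← h0, this]; linarith
        · nlinarith [mul_neg_of_pos_of_neg h0 hx, mul_nonpos_of_nonneg_of_nonpos hb hy.le]
    have hsub : convexHull ℝ {w : ℂ | w ∈ Finset.univ.val.map zer} ⊆ T := by
      apply convexHull_min _ hconv
      intro w hw
      obtain ⟨k, -, rfl⟩ := Multiset.mem_map.1 (show w ∈ Finset.univ.val.map zer from hw)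
      by_cases hk : k = i
      · left; rw [hk]
      · right; exact hn k hk
    rw [mem_extremePoints]
    refine ⟨subset_convexHull ℝ _ hz, ?_⟩
    intro x₁ h₁ x₂ h₂ hseg
    obtain ⟨a, b, ha, hb, hab, he⟩ := hseg
    have h0 := hadd a b x₁ x₂ hab
    rw [he] at h0
    simp only [sub_self, zero_mul, Complex.zero_re] at h0
    rcases hsub h₁ with e1 | e1
    · rcases hsub h₂ with e2 | e2
      · exact ⟨e1, e2⟩
      · rw [e1] at h0
        simp only [sub_self, zero_mul, Complex.zero_re, mul_zero, zero_add] at h0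
        have := mul_neg_of_pos_of_neg hb e2
        linarith
    · rcases hsub h₂ with e2 | e2
      · rw [e2] at h0
        simp only [sub_self, zero_mul, Complex.zero_re, mul_zero, add_zero] at h0
        have := mul_neg_of_pos_of_neg ha e1
        linarith
      · have := mul_neg_of_pos_of_neg ha e1
        have := mul_neg_of_pos_of_neg hb e2
        linarith

private theorem NL3_natDegree : (PP zer).natDegree = Fintype.card (Σ j : Fin 7, Fin (wt j)) := by
  unfold PP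
  rw [natDegree_prod_of_monic _ _ (fun i _ => monic_X_sub_C (zer i))]
  simp

private theorem NL3_root (i : Σ j : Fin 7, Fin (wt j)) : zer i ∈ (PP zer).roots := by
  have h0 : PP zer ≠ 0 := (monic_prod_of_monic _ _ (fun i _ => monic_X_sub_C (zer i))).ne_zero
  rw [mem_roots h0, IsRoot.def]
  unfold PP
  rw [eval_prod]
  exact Finset.prod_eq_zero (Finset.mem_univ i) (by simp)

private theorem NL3_alg {a b q x0 x1 x2 x3 : ℝ} (h0 : x0 = a ^ 2 + b ^ 2)
    (h1 : x1 = (a - 7 / 2 ^ 124 - 1 / 2 ^ 100) ^ 2 + (b + 7 / 2 ^ 100 - 1 / 2 ^ 124) ^ 2)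
    (h2 : x2 = (a - 28 / 2 ^ 124 - 2 / 2 ^ 100) ^ 2 + (b + 14 / 2 ^ 100 - 4 / 2 ^ 124) ^ 2)
    (h3 : x3 = (a - 63 / 2 ^ 124 - 3 / 2 ^ 100) ^ 2 + (b + 21 / 2 ^ 100 - 9 / 2 ^ 124) ^ 2)
    (e0 : x0 = q) (e1 : x1 = q) (e2 : x2 = q) (e3 : x3 = q) : False := by
  have h : x3 - 3 * x2 + 3 * x1 - x0 = 1800 / 2 ^ 248 := by
    rw [h0, h1, h2, h3]
    ring
  rw [e0, e1, e2, e3] at h
  norm_num at h

private theorem NL3_pt (c : ℂ) (i : Fin (wt 0)) : Complex.normSq (zer ⟨0, i⟩ - c) =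
    (705 / 1024 - c.re - 7 * ((i : ℕ) : ℝ) ^ 2 / 2 ^ 124 - ((i : ℕ) : ℝ) / 2 ^ 100) ^ 2 +
    (166 / 1024 - c.im + 7 * (((i : ℕ) : ℝ) / 2 ^ 100) - ((i : ℕ) : ℝ) ^ 2 / 2 ^ 124) ^ 2 := by
  have e1 : (zer ⟨0, i⟩).re = 705 / 1024 + (7 * (-((i : ℕ) : ℝ) ^ 2 / 2 ^ 124) -
      1 * (((i : ℕ) : ℝ) / 2 ^ 100)) := rfl
  have e2 : (zer ⟨0, i⟩).im = 166 / 1024 + (7 * (((i : ℕ) : ℝ) / 2 ^ 100) +
      1 * (-((i : ℕ) : ℝ) ^ 2 / 2 ^ 124)) := rfl
  rw [Complex.normSq_apply, Complex.sub_re, Complex.sub_im, e1, e2]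
  ring

theorem zer_regular : ¬ RegularPolygon (PP zer) := by
  rintro ⟨c, r, _, hset⟩
  have hN : (PP zer).natDegree ≠ 0 := by
    rw [NL3_natDegree]
    have : Nonempty (Σ j : Fin 7, Fin (wt j)) := ⟨⟨0, ⟨0, by decide⟩⟩⟩
    exact Fintype.card_ne_zero
  have key : ∀ i : Fin (wt 0), Complex.normSq (zer ⟨0, i⟩ - c) = Complex.normSq r := by
    intro i
    have h1 : zer ⟨0, i⟩ ∈ {w : ℂ | (w - c) ^ (PP zer).natDegree = r ^ (PP zer).natDegree} := by
      rw [← hset]
      exact NL3_root ⟨0, i⟩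
    have h2 : (zer ⟨0, i⟩ - c) ^ (PP zer).natDegree = r ^ (PP zer).natDegree := h1
    have h3 := congrArg Complex.normSq h2
    rw [map_pow, map_pow] at h3
    exact (pow_left_inj₀ (Complex.normSq_nonneg _) (Complex.normSq_nonneg _) hN).1 h3
  have k0 := key ⟨0, by decide⟩
  have k1 := key ⟨1, by decide⟩
  have k2 := key ⟨2, by decide⟩
  have k3 := key ⟨3, by decide⟩
  rw [NL3_pt] at k0 k1 k2 k3
  refine NL3_alg (a := 705 / 1024 - c.re) (b := 166 / 1024 - c.im) rfl rfl rfl rfl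
    (Eq.trans ?_ k0) (Eq.trans ?_ k1) (Eq.trans ?_ k2) (Eq.trans ?_ k3) <;>
  · push_cast
    ring

end Pool.Agent.SHD
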