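import Mathlib
import Pool.Agent.SHD.NC
import Pool.Agent.SHD.Ends

set_option autoImplicit false

/-!
The conditions for few and for many derivatives (module ENDN).
-/

noncomputable section

namespace Pool.Agent.SHD

open Polynomial Set Filter Topology

variable {ι : Type} [Fintype ι]

private theorem endl_sum_le (F : ℂ → ℝ) (B : Cl → ℝ) :
    ∀ (l : List Cl) (m : Multiset ℂ), NearL l m →
      (∀ q ∈ l, ∀ b : ℂ, ‖b - ptv q.x q.y‖ ≤ 1 / 2 ^ 80 → F b ≤ B q) →
      (m.map F).sum ≤ (l.map fun q => (q.w : ℝ) * B q).sum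
  | [], m, hm, _ => by
      have h0 : m = 0 := hm
      subst h0
      simp
  | q :: l, m, hm, h => by
      obtain ⟨m₁, m₂, rfl, ⟨hc, hb⟩, hm₂⟩ := hm
      have h1 : (m₁.map F).sum ≤ (q.w : ℝ) * B q := by
        have h3 := Multiset.sum_le_card_nsmul (m₁.map F) (B q) (by
          intro x hx
          obtain ⟨b, hb', rfl⟩ := Multiset.mem_map.1 hx
          exact h q (by simp) b (hb b hb'))
        simpa [hc] using h3
      have h2 := endl_sum_le F B l m₂ hm₂ (fun q' hq => h q' (List.mem_cons_of_mem _ hq))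
      simp only [Multiset.map_add, Multiset.sum_add, List.map_cons, List.sum_cons]
      linarith

private theorem endl_mem : ∀ (l : List Cl) (m : Multiset ℂ), NearL l m → ∀ x ∈ m,
    ∃ q ∈ l, ‖x - ptv q.x q.y‖ ≤ 1 / 2 ^ 80
  | [], m, hm, x, hx => by
      have h0 : m = 0 := hm
      subst h0
      simp at hx
  | q :: l, m, hm, x, hx => by
      obtain ⟨m₁, m₂, rfl, ⟨_, hb⟩, hm₂⟩ := hm
      rcases Multiset.mem_add.1 hx with h | h
      · exact ⟨q, by simp, hb x h⟩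
      · obtain ⟨q', hq', h'⟩ := endl_mem l m₂ hm₂ x h
        exact ⟨q', List.mem_cons_of_mem _ hq', h'⟩

/-- the coordinates of `z - b` -/
private theorem endl_coord (x y : ℕ) (a c : ℝ) (z b : ℂ) (hz : ‖z - zcv‖ ≤ 1 / 2 ^ 56)
    (hb : ‖b - ptv x y‖ ≤ 1 / 2 ^ 80)
    (ha : |(((zX : ℝ) - 2 ^ 86) / 2 ^ 80 - ((x : ℝ) - 2 ^ 36) / 2 ^ 30) - a| ≤ 9 / 10 ^ 7)
    (hc : |(((zY : ℝ) - 2 ^ 86) / 2 ^ 80 - ((y : ℝ) - 2 ^ 36) / 2 ^ 30) - c| ≤ 9 / 10 ^ 7) :
    |(z - b).re - a| ≤ 1 / 10 ^ 6 ∧ |(z - b).im - c| ≤ 1 / 10 ^ 6 := by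
  have h1 := (Complex.abs_re_le_norm (z - zcv)).trans hz
  have h2 := (Complex.abs_im_le_norm (z - zcv)).trans hz
  have h3 := (Complex.abs_re_le_norm (b - ptv x y)).trans hb
  have h4 := (Complex.abs_im_le_norm (b - ptv x y)).trans hb
  have e1 : (z - zcv).re = z.re - ((zX : ℝ) - 2 ^ 86) / 2 ^ 80 := rfl
  have e2 : (z - zcv).im = z.im - ((zY : ℝ) - 2 ^ 86) / 2 ^ 80 := rfl
  have e3 : (b - ptv x y).re = b.re - ((x : ℝ) - 2 ^ 36) / 2 ^ 30 := rfl
  have e4 : (b - ptv x y).im = b.im - ((y : ℝ) - 2 ^ 36) / 2 ^ 30 := rfl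
  rw [e1] at h1
  rw [e2] at h2
  rw [e3] at h3
  rw [e4] at h4
  have e5 : (z - b).re = z.re - b.re := rfl
  have e6 : (z - b).im = z.im - b.im := rfl
  rw [e5, e6]
  have k1 : (1 : ℝ) / 2 ^ 56 ≤ 1 / 10 ^ 8 := by norm_num
  have k2 : (1 : ℝ) / 2 ^ 80 ≤ 1 / 10 ^ 8 := by norm_num
  rw [abs_le] at h1 h2 h3 h4 ha hc ⊢
  rw [abs_le]
  refine ⟨⟨?_, ?_⟩, ⟨?_, ?_⟩⟩ <;> linarith [h1.1, h1.2, h2.1, h2.2, h3.1, h3.2, h4.1, h4.2,
    ha.1, ha.2, hc.1, hc.2]

private theorem endl_sq (a s : ℝ) (h : |s - a| ≤ 1 / 10 ^ 6) :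
    |s ^ 2 - a ^ 2| ≤ (2 * |a| + 1 / 10 ^ 6) * (1 / 10 ^ 6) := by
  have e : s ^ 2 - a ^ 2 = (2 * a + (s - a)) * (s - a) := by ring
  rw [e, abs_mul]
  have h1 : |2 * a + (s - a)| ≤ 2 * |a| + 1 / 10 ^ 6 := by
    have := abs_add_le (2 * a) (s - a)
    rw [abs_mul, abs_two] at this
    linarith
  exact mul_le_mul h1 h (abs_nonneg _) (by positivity)

/-- a lower bound of the component of `(z - b)⁻¹` in the direction of `-9677 + 2518 i` and an upper
bound of the modulus -/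
private theorem endl_inv (a c L Y : ℝ) (w : ℂ) (ha : |w.re - a| ≤ 1 / 10 ^ 6)
    (hc : |w.im - c| ≤ 1 / 10 ^ 6) (hY : 0 < Y)
    (h1 : 1 ≤ Y ^ 2 * (a ^ 2 + c ^ 2 - (2 * |a| + 2 * |c| + 2 / 10 ^ 6) * (1 / 10 ^ 6)))
    (h2 : L * (a ^ 2 + c ^ 2) + |L| * ((2 * |a| + 2 * |c| + 2 / 10 ^ 6) * (1 / 10 ^ 6)) +
      2 / 10 ^ 6 ≤ -(9677 / 10000) * a - 2518 / 10000 * c) :
    w ≠ 0 ∧ ‖w⁻¹‖ ≤ Y ∧
      L ≤ -(9677 / 10000) * (w⁻¹).re + 2518 / 10000 * (w⁻¹).im := by
  have s1 := endl_sq a w.re ha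
  have s2 := endl_sq c w.im hc
  set N : ℝ := w.re ^ 2 + w.im ^ 2 with hN
  have hd : |N - (a ^ 2 + c ^ 2)| ≤ (2 * |a| + 2 * |c| + 2 / 10 ^ 6) * (1 / 10 ^ 6) := by
    rw [abs_le] at s1 s2 ⊢
    constructor <;> (rw [hN]; linarith [s1.1, s1.2, s2.1, s2.2])
  have hNY : 1 ≤ Y ^ 2 * N := by
    have := (abs_le.1 hd).1
    have h3 : Y ^ 2 * (a ^ 2 + c ^ 2 - (2 * |a| + 2 * |c| + 2 / 10 ^ 6) * (1 / 10 ^ 6)) ≤
        Y ^ 2 * N := mul_le_mul_of_nonneg_left (by linarith) (by positivity)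
    linarith
  have hN0 : 0 < N := by
    by_contra hcon
    push Not at hcon
    have : Y ^ 2 * N ≤ 0 := mul_nonpos_of_nonneg_of_nonpos (by positivity) hcon
    linarith
  have hns : Complex.normSq w = N := by
    rw [Complex.normSq_apply, hN]
    ring
  have hw0 : w ≠ 0 := by
    intro h0
    rw [h0] at hns
    simp at hns
    linarith
  have hnorm : ‖w‖ ^ 2 = N := by rw [← hns, Complex.normSq_eq_norm_sq]
  refine ⟨hw0, ?_, ?_⟩
  · rw [norm_inv]
    have hpos : 0 < ‖w‖ := norm_pos_iff.2 hw0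
    rw [inv_le_comm₀ hpos hY]
    rw [← hnorm] at hNY
    have h4 : 1 ≤ Y * ‖w‖ := by
      by_contra hcon
      push Not at hcon
      have h5 : 0 ≤ Y * ‖w‖ := by positivity
      have : (Y * ‖w‖) ^ 2 < 1 := by nlinarith
      nlinarith
    rw [inv_eq_one_div, div_le_iff₀ hY]
    linarith
  · rw [Complex.inv_re, Complex.inv_im, hns]
    have e : -(9677 / 10000) * (w.re / N) + 2518 / 10000 * (-w.im / N) =
        (-(9677 / 10000) * w.re - 2518 / 10000 * w.im) / N := by ring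
    rw [e, le_div_iff₀ hN0]
    have h5 : L * N ≤ L * (a ^ 2 + c ^ 2) +
        |L| * ((2 * |a| + 2 * |c| + 2 / 10 ^ 6) * (1 / 10 ^ 6)) := by
      have h6 : L * (N - (a ^ 2 + c ^ 2)) ≤ |L| * |N - (a ^ 2 + c ^ 2)| := by
        rw [← abs_mul]
        exact le_abs_self _
      have h7 := mul_le_mul_of_nonneg_left hd (abs_nonneg L)
      nlinarith
    have h8 := (abs_le.1 ha)
    have h9 := (abs_le.1 hc)
    linarith [h8.1, h8.2, h9.1, h9.2]

/-- upper bounds of `‖(z - b)⁻¹‖` -/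
private def endl_Y (k : ℕ) : ℝ :=
  if k = 54 then 349 / 100 else if k = 16 then 197 / 100 else if k = 49 then 39 / 100
  else if k = 71 then 43 / 100 else if k = 307 then 512 / 100 else if k = 479 then 1128 / 100
  else 26 / 100

/-- lower bounds of the component of `(z - b)⁻¹` -/
private def endl_L (k : ℕ) : ℝ :=
  if k = 54 then 151 / 100 else if k = 16 then 53 / 100 else if k = 49 then -(29 / 100)
  else if k = 71 then -(42 / 100) else if k = 307 then -(154 / 100)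
  else if k = 479 then 1095 / 100 else -(2 / 100)

private theorem endl_cl (q : Cl) (hq : q ∈ clusters) (z b : ℂ) (hz : ‖z - zcv‖ ≤ 1 / 2 ^ 56)
    (hb : ‖b - ptv q.x q.y‖ ≤ 1 / 2 ^ 80) :
    z - b ≠ 0 ∧ ‖(z - b)⁻¹‖ ≤ endl_Y q.w ∧
      endl_L q.w ≤ -(9677 / 10000) * ((z - b)⁻¹).re + 2518 / 10000 * ((z - b)⁻¹).im := by
  simp only [clusters, List.mem_cons, List.not_mem_nil, or_false] at hq
  rcases hq with rfl | rfl | rfl | rfl | rfl | rfl | rfl
  · obtain ⟨ha, hc⟩ := endl_coord _ _ (-(27793 / 500000)) (-(70331 / 250000)) z b hz hb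
      (by norm_num [zX, abs_le]) (by norm_num [zY, abs_le])
    exact endl_inv _ _ _ _ _ ha hc (by norm_num [endl_Y]) (by norm_num [endl_Y, abs_of_nonneg])
      (by norm_num [endl_L, abs_of_nonneg])
  · obtain ⟨ha, hc⟩ := endl_coord _ _ (-(1333 / 125000)) (-(508863 / 1000000)) z b hz hb
      (by norm_num [zX, abs_le]) (by norm_num [zY, abs_le])
    exact endl_inv _ _ _ _ _ ha hc (by norm_num [endl_Y]) (by norm_num [endl_Y, abs_of_nonneg])
      (by norm_num [endl_L, abs_of_nonneg])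
  · obtain ⟨ha, hc⟩ := endl_coord _ _ (36958 / 15625) (-(71843 / 62500)) z b hz hb
      (by norm_num [zX, abs_le]) (by norm_num [zY, abs_le])
    exact endl_inv _ _ _ _ _ ha hc (by norm_num [endl_Y]) (by norm_num [endl_Y, abs_of_nonneg])
      (by norm_num [endl_L, abs_of_nonneg])
  · obtain ⟨ha, hc⟩ := endl_coord _ _ (442789 / 200000) (420373 / 500000) z b hz hb
      (by norm_num [zX, abs_le]) (by norm_num [zY, abs_le])
    exact endl_inv _ _ _ _ _ ha hc (by norm_num [endl_Y]) (by norm_num [endl_Y, abs_of_nonneg])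
      (by norm_num [endl_L, abs_of_nonneg])
  · obtain ⟨ha, hc⟩ := endl_coord _ _ (2461 / 250000) (97619 / 500000) z b hz hb
      (by norm_num [zX, abs_le]) (by norm_num [zY, abs_le])
    exact endl_inv _ _ _ _ _ ha hc (by norm_num [endl_Y]) (by norm_num [endl_Y, abs_of_nonneg])
      (by norm_num [endl_L, abs_of_nonneg])
  · obtain ⟨ha, hc⟩ := endl_coord _ _ (-(78047 / 1000000)) (-(21033 / 500000)) z b hz hb
      (by norm_num [zX, abs_le]) (by norm_num [zY, abs_le])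
    exact endl_inv _ _ _ _ _ ha hc (by norm_num [endl_Y]) (by norm_num [endl_Y, abs_of_nonneg])
      (by norm_num [endl_L, abs_of_nonneg])
  · obtain ⟨ha, hc⟩ := endl_coord _ _ (1262773 / 1000000) (-(3688551 / 1000000)) z b hz hb
      (by norm_num [zX, abs_le]) (by norm_num [zY, abs_le])
    exact endl_inv _ _ _ _ _ ha hc (by norm_num [endl_Y]) (by norm_num [endl_Y, abs_of_nonneg])
      (by norm_num [endl_L, abs_of_nonneg])

private theorem endl_Y_le (q : Cl) (hq : q ∈ clusters) : endl_Y q.w ≤ 1128 / 100 := by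
  simp only [clusters, List.mem_cons, List.not_mem_nil, or_false] at hq
  rcases hq with rfl | rfl | rfl | rfl | rfl | rfl | rfl <;> norm_num [endl_Y]

theorem ends_low (b : ι → ℂ) (hb : Near b) (z : ℂ) (hz : ‖z - zcv‖ ≤ 1 / 2 ^ 56) :
    ∀ᶠ z' in 𝓝 z, ∀ n m : ℕ, (m : ℝ) ≤ 52 * n → Tn b n m z' ≠ 0 := by
  have hi : ∀ i, ∃ q ∈ clusters, ‖b i - ptv q.x q.y‖ ≤ 1 / 2 ^ 80 := fun i =>
    endl_mem _ _ hb (b i) (Multiset.mem_map.2 ⟨i, Finset.mem_univ_val i, rfl⟩)
  set S : ℂ := ∑ i, (z - b i)⁻¹ with hS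
  -- the lower bound of `‖S‖`
  have hlow : (48 : ℝ) * 100 ≤ ‖S‖ := by
    have h1 := endl_sum_le
      (fun x : ℂ => -(-(9677 / 10000) * ((z - x)⁻¹).re + 2518 / 10000 * ((z - x)⁻¹).im))
      (fun q => -endl_L q.w) clusters _ hb (by
        intro q hq x hx
        have := (endl_cl q hq z x hz hx).2.2
        simp only [neg_le_neg_iff]
        exact this)
    rw [Multiset.map_map] at h1
    have h2 : (Multiset.map ((fun x : ℂ => -(-(9677 / 10000) * ((z - x)⁻¹).re +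
        2518 / 10000 * ((z - x)⁻¹).im)) ∘ b) Finset.univ.val).sum =
        -(-(9677 / 10000) * S.re + 2518 / 10000 * S.im) := by
      change (∑ i, -(-(9677 / 10000) * ((z - b i)⁻¹).re + 2518 / 10000 * ((z - b i)⁻¹).im)) = _
      rw [hS, Complex.re_sum, Complex.im_sum, Finset.sum_neg_distrib, Finset.sum_add_distrib,
        Finset.mul_sum, Finset.mul_sum]
    rw [h2] at h1
    have h3 : (clusters.map fun q => (q.w : ℝ) * (fun q : Cl => -endl_L q.w) q).sum ≤ -4810 := by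
      norm_num [clusters, endl_L]
    have h4 : (4810 : ℝ) ≤ -(9677 / 10000) * S.re + 2518 / 10000 * S.im := by linarith
    have h5 : S.re ^ 2 + S.im ^ 2 = ‖S‖ ^ 2 := by
      rw [← Complex.normSq_eq_norm_sq, Complex.normSq_apply]
      ring
    by_contra hcon
    push Not at hcon
    have h6 : ‖S‖ ^ 2 < 4800 ^ 2 := by
      have := norm_nonneg S
      nlinarith
    nlinarith [sq_nonneg (2518 * S.re + 9677 * S.im)]
  have hYi : ∀ i, ‖(z - b i)⁻¹‖ ≤ 1128 / 100 := fun i => by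
    obtain ⟨q, hq, hqi⟩ := hi i
    exact (endl_cl q hq z (b i) hz hqi).2.1.trans (endl_Y_le q hq)
  refine end_low b z (fun i => ?_) 52 (by norm_num) (by linarith) (fun i => ?_) ?_
  · obtain ⟨q, hq, hqi⟩ := hi i
    exact sub_ne_zero.1 (endl_cl q hq z (b i) hz hqi).1
  · have := hYi i
    rw [← hS]
    linarith
  · rw [← hS]
    have h1 := endl_sum_le
      (fun x : ℂ => ‖(z - x)⁻¹‖ ^ 2 * (2 * 52) / (‖S‖ - 2 * 52 * ‖(z - x)⁻¹‖))
      (fun q => (endl_Y q.w) ^ 2 * 104 / (4800 - 104 * endl_Y q.w)) clusters _ hb (by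
        intro q hq x hx
        have h2 := (endl_cl q hq z x hz hx).2.1
        have h3 := endl_Y_le q hq
        have h4 : (0 : ℝ) ≤ ‖(z - x)⁻¹‖ := norm_nonneg _
        have h5 : 0 < 4800 - 104 * endl_Y q.w := by linarith
        apply div_le_div₀
        · positivity
        · nlinarith
        · exact h5
        · linarith)
    rw [Multiset.map_map] at h1
    have h2 : (∑ i, ‖(z - b i)⁻¹‖ ^ 2 * (2 * 52) / (‖S‖ - 2 * 52 * ‖(z - b i)⁻¹‖)) ≤
        (clusters.map fun q => (q.w : ℝ) *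
          (fun q : Cl => (endl_Y q.w) ^ 2 * 104 / (4800 - 104 * endl_Y q.w)) q).sum := h1
    have h3 : (clusters.map fun q => (q.w : ℝ) *
        (fun q : Cl => (endl_Y q.w) ^ 2 * 104 / (4800 - 104 * endl_Y q.w)) q).sum < 2400 := by
      norm_num [clusters, endl_Y]
    linarith

private lemma ENDH_norm_le (z : ℂ) (D : ℝ) (hD : 0 ≤ D) (h : z.re ^ 2 + z.im ^ 2 ≤ D ^ 2) :
    ‖z‖ ≤ D := by
  rw [Complex.norm_eq_sqrt_sq_add_sq]
  exact Real.sqrt_le_iff.2 ⟨hD, h⟩

private lemma ENDH_le_norm (z : ℂ) (D : ℝ) (h : D ^ 2 ≤ z.re ^ 2 + z.im ^ 2) :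
    D ≤ ‖z‖ := by
  rw [Complex.norm_eq_sqrt_sq_add_sq]
  exact Real.le_sqrt_of_sq_le h

private lemma ENDH_sum_le (m : Multiset ℂ) (F : ℂ → ℝ) (c : ℝ) (h : ∀ b ∈ m, F b ≤ c) :
    (m.map F).sum ≤ m.card * c := by
  induction m using Multiset.induction_on with
  | empty => simp
  | cons a s ih =>
    have h1 := ih (fun b hb => h b (Multiset.mem_cons_of_mem hb))
    have h2 := h a (Multiset.mem_cons_self a s)
    simp only [Multiset.map_cons, Multiset.sum_cons, Multiset.card_cons]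
    push_cast
    linarith

private lemma ENDH_sum_near (m : Multiset ℂ) (a : ℂ) (e : ℝ) (h : ∀ b ∈ m, ‖b - a‖ ≤ e) :
    ‖m.sum - m.card * a‖ ≤ m.card * e := by
  induction m using Multiset.induction_on with
  | empty => simp
  | cons c s ih =>
    have h1 := ih (fun b hb => h b (Multiset.mem_cons_of_mem hb))
    have h2 := h c (Multiset.mem_cons_self c s)
    have h3 : (c ::ₘ s).sum - ((c ::ₘ s).card : ℂ) * a = (c - a) + (s.sum - s.card * a) := by
      simp only [Multiset.sum_cons, Multiset.card_cons]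
      push_cast
      ring
    rw [h3]
    refine (norm_add_le _ _).trans ?_
    simp only [Multiset.card_cons]
    push_cast
    linarith

/-- one cluster -/
private lemma ENDH_cl (w x y : ℕ) (m : Multiset ℂ) (hm : NearC ⟨w, x, y⟩ m) (z : ℂ)
    (hz : ‖z - zcv‖ ≤ 1 / 2 ^ 56) (D : ℝ) (hD : 1 / 10000 ≤ D)
    (h : (zcv - ptv x y).re ^ 2 + (zcv - ptv x y).im ^ 2 ≤ (D - 1 / 10000) ^ 2) :
    ∀ b ∈ m, ‖z - b‖ ≤ D := by
  intro b hb
  have h1 : ‖b - ptv x y‖ ≤ 1 / 2 ^ 80 := hm.2 b hb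
  have h2 : ‖zcv - ptv x y‖ ≤ D - 1 / 10000 := ENDH_norm_le _ _ (by linarith) h
  have h3 : z - b = (z - zcv) + (zcv - ptv x y) - (b - ptv x y) := by ring
  rw [h3]
  have h4 := norm_sub_le ((z - zcv) + (zcv - ptv x y)) (b - ptv x y)
  have h5 := norm_add_le (z - zcv) (zcv - ptv x y)
  have h6 : (1 : ℝ) / 2 ^ 56 + 1 / 2 ^ 80 ≤ 1 / 10000 := by norm_num
  linarith

private lemma ENDH_mono (N D d c : ℝ) (hd : 0 ≤ d) (hdD : d ≤ D) (hN : 549 / 2 ≤ N)
    (hD : 228 / 10 * D < 549 / 2)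
    (hc : D ^ 2 * (228 / 10) ≤ c * (549 / 2 - 228 / 10 * D)) :
    d ^ 2 * (2 * (114 / 10)) / (N - 2 * (114 / 10) * d) ≤ c := by
  have h1 : 0 < 549 / 2 - 228 / 10 * D := by linarith
  have h2 : 549 / 2 - 228 / 10 * D ≤ N - 2 * (114 / 10) * d := by linarith
  have hc0 : 0 ≤ c := by
    by_contra hcn
    push Not at hcn
    have := mul_neg_of_neg_of_pos hcn h1
    have h3 : 0 ≤ D ^ 2 * (228 / 10) := by positivity
    linarith
  rw [div_le_iff₀ (by linarith)]
  have h3 : d ^ 2 ≤ D ^ 2 := by gcongr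
  have h4 := mul_le_mul_of_nonneg_left h2 hc0
  linarith

theorem ends_high (b : ι → ℂ) (hb : Near b) (z : ℂ) (hz : ‖z - zcv‖ ≤ 1 / 2 ^ 56) :
    ∀ᶠ z' in 𝓝 z, ∀ n m : ℕ, m ≤ n * Fintype.card ι →
      ((Fintype.card ι : ℝ) - 114 / 10) * n ≤ m → Tn b n m z' ≠ 0 := by
  have hb' := hb
  obtain ⟨m1, r1, e1, c1, m2, r2, e2, c2, m3, r3, e3, c3, m4, r4, e4, c4, m5, r5, e5, c5,
    m6, r6, e6, c6, m7, r7, e7, c7, e8⟩ := hb'
  have e8' : r7 = 0 := e8
  have eM : Finset.univ.val.map b = m1 + (m2 + (m3 + (m4 + (m5 + (m6 + m7))))) := by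
    rw [e1, e2, e3, e4, e5, e6, e7, e8', add_zero]
  have k1 := c1.1
  have k2 := c2.1
  have k3 := c3.1
  have k4 := c4.1
  have k5 := c5.1
  have k6 := c6.1
  have k7 := c7.1
  simp only at k1 k2 k3 k4 k5 k6 k7
  -- distances
  have d1 : ∀ b ∈ m1, ‖z - b‖ ≤ 287 / 1000 := ENDH_cl _ _ _ m1 c1 z hz _ (by norm_num) (by
    simp only [zcv, ptv, Complex.sub_re, Complex.sub_im, zX, zY]; norm_num)
  have d2 : ∀ b ∈ m2, ‖z - b‖ ≤ 510 / 1000 := ENDH_cl _ _ _ m2 c2 z hz _ (by norm_num) (by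
    simp only [zcv, ptv, Complex.sub_re, Complex.sub_im, zX, zY]; norm_num)
  have d3 : ∀ b ∈ m3, ‖z - b‖ ≤ 2630 / 1000 := ENDH_cl _ _ _ m3 c3 z hz _ (by norm_num) (by
    simp only [zcv, ptv, Complex.sub_re, Complex.sub_im, zX, zY]; norm_num)
  have d4 : ∀ b ∈ m4, ‖z - b‖ ≤ 2369 / 1000 := ENDH_cl _ _ _ m4 c4 z hz _ (by norm_num) (by
    simp only [zcv, ptv, Complex.sub_re, Complex.sub_im, zX, zY]; norm_num)
  have d5 : ∀ b ∈ m5, ‖z - b‖ ≤ 196 / 1000 := ENDH_cl _ _ _ m5 c5 z hz _ (by norm_num) (by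
    simp only [zcv, ptv, Complex.sub_re, Complex.sub_im, zX, zY]; norm_num)
  have d6 : ∀ b ∈ m6, ‖z - b‖ ≤ 89 / 1000 := ENDH_cl _ _ _ m6 c6 z hz _ (by norm_num) (by
    simp only [zcv, ptv, Complex.sub_re, Complex.sub_im, zX, zY]; norm_num)
  have d7 : ∀ b ∈ m7, ‖z - b‖ ≤ 3899 / 1000 := ENDH_cl _ _ _ m7 c7 z hz _ (by norm_num) (by
    simp only [zcv, ptv, Complex.sub_re, Complex.sub_im, zX, zY]; norm_num)
  -- the sum
  have hcard : (Fintype.card ι : ℂ) = 1000 := by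
    have h := congrArg Multiset.card eM
    simp only [Multiset.card_map, Multiset.card_add, k1, k2, k3, k4, k5, k6, k7] at h
    have h2 : Fintype.card ι = 1000 := by
      rw [← Finset.card_univ]
      exact h
    rw [h2]
    norm_num
  have hsum : ∑ i, b i = m1.sum + (m2.sum + (m3.sum + (m4.sum + (m5.sum + (m6.sum + m7.sum))))) := by
    have h := congrArg Multiset.sum eM
    simp only [Multiset.sum_add] at h
    exact h
  have s1 := ENDH_sum_near m1 _ _ c1.2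
  have s2 := ENDH_sum_near m2 _ _ c2.2
  have s3 := ENDH_sum_near m3 _ _ c3.2
  have s4 := ENDH_sum_near m4 _ _ c4.2
  have s5 := ENDH_sum_near m5 _ _ c5.2
  have s6 := ENDH_sum_near m6 _ _ c6.2
  have s7 := ENDH_sum_near m7 _ _ c7.2
  rw [k1] at s1
  rw [k2] at s2
  rw [k3] at s3
  rw [k4] at s4
  rw [k5] at s5
  rw [k6] at s6
  rw [k7] at s7
  simp only at s1 s2 s3 s4 s5 s6 s7
  have hN : 549 / 2 ≤ ‖∑ i, (z - b i)‖ := by
    set A : ℂ := 1000 * zcv - (54 * ptv 69458722816 68893540352 +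
      16 * ptv 69410488320 69137858560 + 49 * ptv 66859302912 69825724416 +
      71 * ptv 67021832192 67688726528 + 307 * ptv 69388468224 68381835264 +
      479 * ptv 69482840064 68636639232 + 24 * ptv 68043145216 72552022016) with hA
    have hA1 : 549 / 2 + 1 / 100 ≤ ‖A‖ := by
      apply ENDH_le_norm
      rw [hA]
      simp only [zcv, ptv, Complex.sub_re, Complex.sub_im, Complex.add_re, Complex.add_im,
        Complex.mul_re, Complex.mul_im, Complex.re_ofNat, Complex.im_ofNat, zX, zY]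
      norm_num
    have h1 : A = ∑ i, (z - b i) - (1000 * (z - zcv) -
        ((m1.sum - 54 * ptv 69458722816 68893540352) +
        (m2.sum - 16 * ptv 69410488320 69137858560) +
        (m3.sum - 49 * ptv 66859302912 69825724416) +
        (m4.sum - 71 * ptv 67021832192 67688726528) +
        (m5.sum - 307 * ptv 69388468224 68381835264) +
        (m6.sum - 479 * ptv 69482840064 68636639232) +
        (m7.sum - 24 * ptv 68043145216 72552022016))) := by
      rw [Finset.sum_sub_distrib, Finset.sum_const, Finset.card_univ, nsmul_eq_mul, hcard, hsum, hA]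
      ring
    have h2 : ‖A‖ ≤ ‖∑ i, (z - b i)‖ + (1000 * (1 / 2 ^ 56) + 1000 * (1 / 2 ^ 80)) := by
      rw [h1]
      refine (norm_sub_le _ _).trans ?_
      gcongr
      refine (norm_sub_le _ _).trans ?_
      have h3 : ‖(1000 : ℂ) * (z - zcv)‖ ≤ 1000 * (1 / 2 ^ 56) := by
        rw [norm_mul]
        simp only [Complex.norm_ofNat]
        gcongr
      push_cast at s1 s2 s3 s4 s5 s6 s7
      have h4 : ‖(m1.sum - 54 * ptv 69458722816 68893540352) +
        (m2.sum - 16 * ptv 69410488320 69137858560) +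
        (m3.sum - 49 * ptv 66859302912 69825724416) +
        (m4.sum - 71 * ptv 67021832192 67688726528) +
        (m5.sum - 307 * ptv 69388468224 68381835264) +
        (m6.sum - 479 * ptv 69482840064 68636639232) +
        (m7.sum - 24 * ptv 68043145216 72552022016)‖ ≤ 1000 * (1 / 2 ^ 80) := by
        refine (norm_add_le_of_le (norm_add_le_of_le (norm_add_le_of_le (norm_add_le_of_le
          (norm_add_le_of_le (norm_add_le_of_le s1 s2) s3) s4) s5) s6) s7).trans ?_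
        norm_num
      linarith
    have h3 : (1000 * (1 / 2 ^ 56) + 1000 * (1 / 2 ^ 80) : ℝ) ≤ 1 / 100 := by norm_num
    linarith
  have hmem : ∀ i, b i ∈ m1 + (m2 + (m3 + (m4 + (m5 + (m6 + m7))))) := by
    intro i
    rw [← eM]
    exact Multiset.mem_map_of_mem b (Finset.mem_univ i)
  have hfar : ∀ i, ‖z - b i‖ ≤ 3899 / 1000 := by
    intro i
    have h := hmem i
    simp only [Multiset.mem_add] at h
    rcases h with h | h | h | h | h | h | h
    · exact (d1 _ h).trans (by norm_num)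
    · exact (d2 _ h).trans (by norm_num)
    · exact (d3 _ h).trans (by norm_num)
    · exact (d4 _ h).trans (by norm_num)
    · exact (d5 _ h).trans (by norm_num)
    · exact (d6 _ h).trans (by norm_num)
    · exact (d7 _ h).trans (by norm_num)
  refine end_high b z (114 / 10) (by norm_num) (by linarith) (fun i => ?_) ?_
  · have := hfar i
    linarith
  · set N : ℝ := ‖∑ i, (z - b i)‖ with hNd
    have key : ∑ i, ‖z - b i‖ ^ 2 * (2 * (114 / 10)) / (N - 2 * (114 / 10) * ‖z - b i‖) =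
        ((Finset.univ.val.map b).map (fun c => ‖z - c‖ ^ 2 * (2 * (114 / 10)) /
          (N - 2 * (114 / 10) * ‖z - c‖))).sum := by
      rw [Multiset.map_map]
      rfl
    rw [key, eM]
    simp only [Multiset.map_add, Multiset.sum_add]
    have t1 := ENDH_sum_le m1 (fun c => ‖z - c‖ ^ 2 * (2 * (114 / 10)) /
      (N - 2 * (114 / 10) * ‖z - c‖)) (8 / 1000) (fun c hc =>
        ENDH_mono N _ _ _ (norm_nonneg _) (d1 c hc) hN (by norm_num) (by norm_num))
    have t2 := ENDH_sum_le m2 (fun c => ‖z - c‖ ^ 2 * (2 * (114 / 10)) /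
      (N - 2 * (114 / 10) * ‖z - c‖)) (23 / 1000) (fun c hc =>
        ENDH_mono N _ _ _ (norm_nonneg _) (d2 c hc) hN (by norm_num) (by norm_num))
    have t3 := ENDH_sum_le m3 (fun c => ‖z - c‖ ^ 2 * (2 * (114 / 10)) /
      (N - 2 * (114 / 10) * ‖z - c‖)) (736 / 1000) (fun c hc =>
        ENDH_mono N _ _ _ (norm_nonneg _) (d3 c hc) hN (by norm_num) (by norm_num))
    have t4 := ENDH_sum_le m4 (fun c => ‖z - c‖ ^ 2 * (2 * (114 / 10)) /
      (N - 2 * (114 / 10) * ‖z - c‖)) (581 / 1000) (fun c hc =>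
        ENDH_mono N _ _ _ (norm_nonneg _) (d4 c hc) hN (by norm_num) (by norm_num))
    have t5 := ENDH_sum_le m5 (fun c => ‖z - c‖ ^ 2 * (2 * (114 / 10)) /
      (N - 2 * (114 / 10) * ‖z - c‖)) (4 / 1000) (fun c hc =>
        ENDH_mono N _ _ _ (norm_nonneg _) (d5 c hc) hN (by norm_num) (by norm_num))
    have t6 := ENDH_sum_le m6 (fun c => ‖z - c‖ ^ 2 * (2 * (114 / 10)) /
      (N - 2 * (114 / 10) * ‖z - c‖)) (1 / 1000) (fun c hc =>
        ENDH_mono N _ _ _ (norm_nonneg _) (d6 c hc) hN (by norm_num) (by norm_num))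
    have t7 := ENDH_sum_le m7 (fun c => ‖z - c‖ ^ 2 * (2 * (114 / 10)) /
      (N - 2 * (114 / 10) * ‖z - c‖)) (1870 / 1000) (fun c hc =>
        ENDH_mono N _ _ _ (norm_nonneg _) (d7 c hc) hN (by norm_num) (by norm_num))
    rw [k1] at t1
    rw [k2] at t2
    rw [k3] at t3
    rw [k4] at t4
    rw [k5] at t5
    rw [k6] at t6
    rw [k7] at t7
    push_cast at t1 t2 t3 t4 t5 t6 t7
    linarith

end Pool.Agent.SHD
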