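import Mathlib
import Pool.Agent.SHD.ExpRay
import Pool.Agent.SHD.RootSeq

set_option autoImplicit false

/-!
The saddle points near a double saddle point, quantitatively (module NUMJ).
-/

noncomputable section

namespace Pool.Agent.SHD

open Polynomial Set

variable {ι : Type} [Fintype ι]

/-- the hypotheses of `reg_root`; `s2` is the radius of a ball around `ws`, `A2`, `A3` are Taylor
constants, `ε` the relative error, `s1` the largest distance -/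
structure RegHyp (b : ι → ℂ) (z : ℂ) (ts : ℝ) (ws σ : ℂ) (A2 A3 ε s1 s2 : ℝ) : Prop where
  f0 : ff b z ts ws = 0
  f1 : ff1 b z ts ws = 0
  hσ : σ ^ 2 * (ff2 b z ts ws * (ws - z)) = 2
  av : ∀ w ∈ Metric.closedBall ws s2, (∀ i, w ≠ b i) ∧ w ≠ z
  a3 : ∀ w ∈ Metric.closedBall ws s2,
    ‖ff b z ts w - ff2 b z ts ws * (w - ws) ^ 2 / 2‖ ≤ A3 * ‖w - ws‖ ^ 3
  a2 : ∀ w ∈ Metric.closedBall ws s2,
    ‖ff1 b z ts w - ff2 b z ts ws * (w - ws)‖ ≤ A2 * ‖w - ws‖ ^ 2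
  A2p : 0 ≤ A2
  A3p : 0 ≤ A3
  e0 : 0 < ε
  e1 : ε ≤ 1 / 4
  s0 : 0 < s1
  s12 : s1 * (1 + ε) ≤ s2
  sD : s2 < ‖ws - z‖
  c2 : 0 < ‖ff2 b z ts ws‖
  ineq : s1 * (A3 + ‖ff2 b z ts ws‖ / (2 * (‖ws - z‖ - s2))) ≤
    ε * (‖ff2 b z ts ws‖ * (1 - ε) - s1 * (A2 * (1 + ε) ^ 2 +
      ‖ff2 b z ts ws‖ * ‖ws - z‖ / (2 * (‖ws - z‖ - s2) ^ 2)))

/-- existence of the saddle point near `ws + σ ρ` -/
theorem reg_root (b : ι → ℂ) (z : ℂ) (ts : ℝ) (ws σ : ℂ) (A2 A3 ε s1 s2 : ℝ)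
    (H : RegHyp b z ts ws σ A2 A3 ε s1 s2) (ρ : ℂ) (η : ℝ) (hρ : ρ ^ 2 = η) (hρ0 : ρ ≠ 0)
    (hs : ‖σ * ρ‖ ≤ s1) :
    ∃ w, ‖w - ws - σ * ρ‖ ≤ ε * ‖σ * ρ‖ ∧ ff b z (ts + η) w = 0 ∧
      ‖ff1 b z (ts + η) w - ff2 b z ts ws * (σ * ρ)‖ ≤
        (ε + s1 * (A2 * (1 + ε) ^ 2 + ‖ff2 b z ts ws‖ * ‖ws - z‖ / (2 * (‖ws - z‖ - s2) ^ 2)) /
          ‖ff2 b z ts ws‖) * (‖ff2 b z ts ws‖ * ‖σ * ρ‖) := by
  obtain ⟨f0, f1, hσ, av, a3, a2, A2p, A3p, e0, e1, s0, s12, sD, c2p, ineq⟩ := H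
  set c2 : ℂ := ff2 b z ts ws with hc2
  set D : ℝ := ‖ws - z‖ with hD
  set s : ℝ := ‖σ * ρ‖ with hsdef
  have hσ0 : σ ≠ 0 := by
    rintro rfl
    norm_num at hσ
  have hspos : 0 < s := norm_pos_iff.2 (mul_ne_zero hσ0 hρ0)
  have hs2 : 0 < s2 := lt_of_lt_of_le (mul_pos s0 (by linarith)) s12
  have hDpos : 0 < D := hs2.trans sD
  have hDs : 0 < D - s2 := by linarith
  have hwz0 : ws - z ≠ 0 := norm_pos_iff.1 hDpos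
  have hσn : ‖σ‖ ^ 2 * (‖c2‖ * D) = 2 := by
    have h := congrArg norm hσ
    rw [norm_mul, norm_pow, norm_mul] at h
    simpa using h
  have hη : |η| = s ^ 2 * (‖c2‖ * D) / 2 := by
    have h1 : |η| = ‖ρ‖ ^ 2 := by
      rw [← norm_pow, hρ, Complex.norm_real, Real.norm_eq_abs]
    rw [h1, hsdef, norm_mul, mul_pow]
    calc ‖ρ‖ ^ 2 = ‖ρ‖ ^ 2 * 2 / 2 := by ring
      _ = ‖ρ‖ ^ 2 * (‖σ‖ ^ 2 * (‖c2‖ * D)) / 2 := by rw [hσn]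
      _ = ‖σ‖ ^ 2 * ‖ρ‖ ^ 2 * (‖c2‖ * D) / 2 := by ring
  set Q : ℝ := A2 * (1 + ε) ^ 2 + ‖c2‖ * D / (2 * (D - s2) ^ 2) with hQ
  have hQ0 : 0 ≤ Q := by
    rw [hQ]
    positivity
  have he : (ε + s1 * Q / ‖c2‖) * (‖c2‖ * s) = ε * ‖c2‖ * s + s1 * Q * s := by
    field_simp
  -- the ball
  have hball : ∀ w ∈ Metric.closedBall (ws + σ * ρ) (ε * s), ‖w - ws‖ ≤ s * (1 + ε) ∧ ‖w - ws - σ * ρ‖ ≤ ε * s := by
    intro w hw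
    rw [Metric.mem_closedBall, dist_eq_norm] at hw
    have e1 : w - (ws + σ * ρ) = w - ws - σ * ρ := by ring
    rw [e1] at hw
    refine ⟨?_, hw⟩
    calc ‖w - ws‖ = ‖(w - ws - σ * ρ) + σ * ρ‖ := by
          congr 1
          ring
      _ ≤ ‖w - ws - σ * ρ‖ + ‖σ * ρ‖ := norm_add_le _ _
      _ ≤ ε * s + s := add_le_add hw le_rfl
      _ = s * (1 + ε) := by ring
  have hball2 : ∀ w ∈ Metric.closedBall (ws + σ * ρ) (ε * s), w ∈ Metric.closedBall ws s2 := by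
    intro w hw
    rw [Metric.mem_closedBall, dist_eq_norm]
    refine (hball w hw).1.trans (le_trans ?_ s12)
    exact mul_le_mul_of_nonneg_right hs (by linarith)
  have hinv : ∀ w ∈ Metric.closedBall (ws + σ * ρ) (ε * s), ‖(w - z)⁻¹‖ ≤ 1 / (D - s2) := by
    intro w hw
    have h1 := hball2 w hw
    rw [Metric.mem_closedBall, dist_eq_norm] at h1
    have h2 : D - s2 ≤ ‖w - z‖ := by
      have h3 : D ≤ ‖w - z‖ + ‖w - ws‖ := by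
        calc D = ‖(w - z) - (w - ws)‖ := by
              rw [hD]
              congr 1
              ring
          _ ≤ ‖w - z‖ + ‖w - ws‖ := norm_sub_le _ _
      linarith
    rw [norm_inv, ← one_div]
    exact one_div_le_one_div_of_le hDs h2
  have hder : ∀ w ∈ Metric.closedBall (ws + σ * ρ) (ε * s),
      ‖ff1 b z (ts + η) w - c2 * (σ * ρ)‖ ≤ (ε + s1 * Q / ‖c2‖) * (‖c2‖ * s) := by
    intro w hw
    obtain ⟨h1, h2⟩ := hball w hw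
    have h3 := a2 w (hball2 w hw)
    have h4 := hinv w hw
    have e2 : ff1 b z (ts + η) w - c2 * (σ * ρ) =
        (ff1 b z ts w - c2 * (w - ws)) + c2 * (w - ws - σ * ρ) + η * ((w - z)⁻¹) ^ 2 := by
      unfold ff1
      push_cast
      ring
    rw [e2, he]
    have h5 : ‖(η : ℂ) * ((w - z)⁻¹) ^ 2‖ ≤ s ^ 2 * (‖c2‖ * D / (2 * (D - s2) ^ 2)) := by
      rw [norm_mul, Complex.norm_real, Real.norm_eq_abs, norm_pow, hη]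
      have h6 : ‖(w - z)⁻¹‖ ^ 2 ≤ (1 / (D - s2)) ^ 2 := pow_le_pow_left₀ (norm_nonneg _) h4 2
      calc s ^ 2 * (‖c2‖ * D) / 2 * ‖(w - z)⁻¹‖ ^ 2 ≤ s ^ 2 * (‖c2‖ * D) / 2 * (1 / (D - s2)) ^ 2 :=
            mul_le_mul_of_nonneg_left h6 (by positivity)
        _ = s ^ 2 * (‖c2‖ * D / (2 * (D - s2) ^ 2)) := by
            field_simp
    have h6 : ‖ff1 b z ts w - c2 * (w - ws)‖ ≤ s ^ 2 * (A2 * (1 + ε) ^ 2) := by
      refine h3.trans ?_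
      have h7 : ‖w - ws‖ ^ 2 ≤ (s * (1 + ε)) ^ 2 := pow_le_pow_left₀ (norm_nonneg _) h1 2
      calc A2 * ‖w - ws‖ ^ 2 ≤ A2 * (s * (1 + ε)) ^ 2 := mul_le_mul_of_nonneg_left h7 A2p
        _ = s ^ 2 * (A2 * (1 + ε) ^ 2) := by ring
    have h7 : ‖c2 * (w - ws - σ * ρ)‖ ≤ ε * ‖c2‖ * s := by
      rw [norm_mul]
      calc ‖c2‖ * ‖w - ws - σ * ρ‖ ≤ ‖c2‖ * (ε * s) := mul_le_mul_of_nonneg_left h2 (norm_nonneg _)
        _ = ε * ‖c2‖ * s := by ring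
    have h8 : ‖(ff1 b z ts w - c2 * (w - ws)) + c2 * (w - ws - σ * ρ) + η * ((w - z)⁻¹) ^ 2‖ ≤
        s ^ 2 * (A2 * (1 + ε) ^ 2) + ε * ‖c2‖ * s + s ^ 2 * (‖c2‖ * D / (2 * (D - s2) ^ 2)) :=
      (norm_add₃_le).trans (add_le_add (add_le_add h6 h7) h5)
    have h9 : s ^ 2 * Q ≤ s1 * Q * s := by
      calc s ^ 2 * Q = s * (Q * s) := by ring
        _ ≤ s1 * (Q * s) := mul_le_mul_of_nonneg_right hs (by positivity)
        _ = s1 * Q * s := by ring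
    have h10 : s ^ 2 * (A2 * (1 + ε) ^ 2) + ε * ‖c2‖ * s + s ^ 2 * (‖c2‖ * D / (2 * (D - s2) ^ 2)) =
        ε * ‖c2‖ * s + s ^ 2 * Q := by
      rw [hQ]
      ring
    linarith
  have hgap : 0 < ‖c2‖ * (1 - ε) - s1 * Q := by
    have h1 : 0 < s1 * (A3 + ‖c2‖ / (2 * (D - s2))) := by positivity
    have h2 := lt_of_lt_of_le h1 ineq
    exact pos_of_mul_pos_right h2 e0.le
  have ha : ‖c2 * (σ * ρ)‖ = ‖c2‖ * s := norm_mul _ _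
  have hea : (ε + s1 * Q / ‖c2‖) * (‖c2‖ * s) < ‖c2 * (σ * ρ)‖ := by
    rw [he, ha]
    have h1 := mul_pos hgap hspos
    linarith [h1, show (‖c2‖ * (1 - ε) - s1 * Q) * s = ‖c2‖ * s - (ε * ‖c2‖ * s + s1 * Q * s) by ring]
  have hcen : ws + σ * ρ ∈ Metric.closedBall (ws + σ * ρ) (ε * s) :=
    Metric.mem_closedBall_self (by positivity)
  have h0 : ‖ff b z (ts + η) (ws + σ * ρ)‖ ≤ (‖c2 * (σ * ρ)‖ - (ε + s1 * Q / ‖c2‖) * (‖c2‖ * s)) * (ε * s) := by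
    have hwz : ws + σ * ρ - z ≠ 0 := sub_ne_zero.2 (av _ (hball2 _ hcen)).2
    have h3 := a3 _ (hball2 _ hcen)
    have e3 : ws + σ * ρ - ws = σ * ρ := by ring
    rw [e3] at h3
    have hkey : c2 * (σ * ρ) ^ 2 / 2 = η * (ws - z)⁻¹ := by
      have h4 : c2 * σ ^ 2 = 2 * (ws - z)⁻¹ := by
        rw [eq_mul_inv_iff_mul_eq₀ hwz0, ← hσ]
        ring
      calc c2 * (σ * ρ) ^ 2 / 2 = (c2 * σ ^ 2) * ρ ^ 2 / 2 := by ring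
        _ = 2 * (ws - z)⁻¹ * η / 2 := by rw [h4, hρ]
        _ = η * (ws - z)⁻¹ := by ring
    have e4 : ff b z (ts + η) (ws + σ * ρ) = (ff b z ts (ws + σ * ρ) - c2 * (σ * ρ) ^ 2 / 2) +
        η * (σ * ρ) * ((ws - z)⁻¹ * (ws + σ * ρ - z)⁻¹) := by
      rw [hkey]
      unfold ff
      push_cast
      field_simp
      ring
    rw [e4, ha, he]
    have h5 : ‖(η : ℂ) * (σ * ρ) * ((ws - z)⁻¹ * (ws + σ * ρ - z)⁻¹)‖ ≤ s ^ 3 * (‖c2‖ / (2 * (D - s2))) := by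
      rw [norm_mul, norm_mul (η : ℂ), norm_mul (ws - z)⁻¹, Complex.norm_real, Real.norm_eq_abs, hη,
        norm_inv (ws - z)]
      have h6 := hinv _ hcen
      have h7 : D⁻¹ * ‖(ws + σ * ρ - z)⁻¹‖ ≤ D⁻¹ * (1 / (D - s2)) :=
        mul_le_mul_of_nonneg_left h6 (by positivity)
      calc s ^ 2 * (‖c2‖ * D) / 2 * s * (D⁻¹ * ‖(ws + σ * ρ - z)⁻¹‖)
          ≤ s ^ 2 * (‖c2‖ * D) / 2 * s * (D⁻¹ * (1 / (D - s2))) := mul_le_mul_of_nonneg_left h7 (by positivity)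
        _ = s ^ 3 * (‖c2‖ / (2 * (D - s2))) := by
            field_simp
    have h8 : s ^ 3 * (A3 + ‖c2‖ / (2 * (D - s2))) ≤ s ^ 2 * (ε * (‖c2‖ * (1 - ε) - s1 * Q)) := by
      have h9 : s * (A3 + ‖c2‖ / (2 * (D - s2))) ≤ s1 * (A3 + ‖c2‖ / (2 * (D - s2))) :=
        mul_le_mul_of_nonneg_right hs (by positivity)
      have h10 := h9.trans ineq
      calc s ^ 3 * (A3 + ‖c2‖ / (2 * (D - s2))) = s ^ 2 * (s * (A3 + ‖c2‖ / (2 * (D - s2)))) := by ring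
        _ ≤ s ^ 2 * (ε * (‖c2‖ * (1 - ε) - s1 * Q)) := mul_le_mul_of_nonneg_left h10 (by positivity)
    have h9 : ‖(ff b z ts (ws + σ * ρ) - c2 * (σ * ρ) ^ 2 / 2) +
        η * (σ * ρ) * ((ws - z)⁻¹ * (ws + σ * ρ - z)⁻¹)‖ ≤ A3 * s ^ 3 + s ^ 3 * (‖c2‖ / (2 * (D - s2))) :=
      (norm_add_le _ _).trans (add_le_add h3 h5)
    calc _ ≤ A3 * s ^ 3 + s ^ 3 * (‖c2‖ / (2 * (D - s2))) := h9
      _ = s ^ 3 * (A3 + ‖c2‖ / (2 * (D - s2))) := by ring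
      _ ≤ s ^ 2 * (ε * (‖c2‖ * (1 - ε) - s1 * Q)) := h8
      _ = _ := by ring
  obtain ⟨w, hw, hfw⟩ := root_ball (ff b z (ts + η)) (ff1 b z (ts + η)) (ws + σ * ρ) (c2 * (σ * ρ)) (ε * s)
    ((ε + s1 * Q / ‖c2‖) * (‖c2‖ * s)) (by positivity)
    (fun w hw => ff_hasDeriv b z (ts + η) w (av w (hball2 w hw)).1 (av w (hball2 w hw)).2) hder hea h0
  exact ⟨w, (hball w hw).2, hfw, hder w hw⟩

/-- what the check of the region proves for a pair `α, w₀` -/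
structure RayPath (b : ι → ℂ) (z : ℂ) (α : ℝ) (w₀ u v : ℂ) (p : List ℂ) : Prop where
  avu : ∀ s ∈ Icc (0 : ℝ) 1, w₀ + s * u ≠ z ∧ ∀ i, w₀ + s * u ≠ b i
  avv : ∀ s ∈ Icc (0 : ℝ) 1, w₀ + s * v ≠ z ∧ ∀ i, w₀ + s * v ≠ b i
  rayu : ∀ s ∈ Icc (0 : ℝ) 1, (u ^ 3 * ff2 b z α (w₀ + s * u)).re < 0
  rayv : ∀ s ∈ Icc (0 : ℝ) 1, (v ^ 3 * ff2 b z α (w₀ + s * v)).re < 0
  uv : (u * (starRingEnd ℂ) v).re < 0
  path : ∀ w ∈ segs ((w₀ + u) :: (p ++ [w₀ + v])), w ≠ z ∧ lev b z α w < lev b z α w₀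

theorem RayPath.domA (b : ι → ℂ) (z : ℂ) (α : ℝ) (w₀ u v : ℂ) (p : List ℂ)
    (H : RayPath b z α w₀ u v p) (h0 : ff b z α w₀ = 0) (h1 : ff1 b z α w₀ = 0) :
    DomA b z α w₀ u v p :=
  ⟨h0, h1, H.avu, H.avv, H.rayu, H.rayv, H.uv, H.path⟩

/-- along a ray: from the third order condition to the second order condition -/
private theorem numj_ray (b : ι → ℂ) (z : ℂ) (α : ℝ) (w₀ ξ : ℂ)
    (hav : ∀ s ∈ Icc (0 : ℝ) 1, w₀ + s * ξ ≠ z ∧ ∀ i, w₀ + s * ξ ≠ b i)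
    (h3 : ∀ s ∈ Icc (0 : ℝ) 1, (ξ ^ 3 * ff2 b z α (w₀ + s * ξ)).re < 0)
    (h0 : (ξ ^ 2 * ff1 b z α w₀).re < 0) :
    ∀ s ∈ Icc (0 : ℝ) 1, (ξ ^ 2 * ff1 b z α (w₀ + s * ξ)).re < 0 := by
  have hd : ∀ t ∈ Icc (0 : ℝ) 1,
      HasDerivAt (fun t : ℝ => (ξ ^ 2 * ff1 b z α (w₀ + t * ξ)).re)
        (ξ ^ 3 * ff2 b z α (w₀ + t * ξ)).re t := by
    intro t ht
    obtain ⟨hz, hb⟩ := hav t ht
    have h1 := ff1_hasDeriv b z α (w₀ + t * ξ) hb hz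
    have h2 : HasDerivAt (fun t : ℝ => w₀ + (t : ℂ) * ξ) ξ t := by
      have := ((hasDerivAt_id (t : ℝ)).ofReal_comp.mul_const ξ).const_add w₀
      simpa using this
    have h4 := (h1.scomp t h2).const_mul (ξ ^ 2)
    have h5 := Complex.reCLM.hasFDerivAt.comp_hasDerivAt t h4
    have h6 : Complex.reCLM (ξ ^ 2 * (ξ • ff2 b z α (w₀ + t * ξ))) =
        (ξ ^ 3 * ff2 b z α (w₀ + t * ξ)).re := by
      rw [Complex.reCLM_apply, smul_eq_mul]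
      congr 1
      ring
    rw [h6] at h5
    exact h5
  have hanti : AntitoneOn (fun t : ℝ => (ξ ^ 2 * ff1 b z α (w₀ + t * ξ)).re) (Icc (0 : ℝ) 1) := by
    refine antitoneOn_of_deriv_nonpos (convex_Icc 0 1)
      (fun t ht => (hd t ht).continuousAt.continuousWithinAt)
      (fun t ht => (hd t (interior_subset ht)).differentiableAt.differentiableWithinAt) ?_
    intro t ht
    rw [(hd t (interior_subset ht)).deriv]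
    exact (h3 t (interior_subset ht)).le
  intro s hs
  have h7 := hanti (left_mem_Icc.2 zero_le_one) hs hs.1
  simp only [Complex.ofReal_zero, zero_mul, add_zero] at h7
  exact lt_of_le_of_lt h7 h0

/-- from the third order condition to the second order condition -/
theorem RayPath.dom (b : ι → ℂ) (z : ℂ) (α : ℝ) (w₀ u v : ℂ) (p : List ℂ)
    (H : RayPath b z α w₀ u v p) (h0 : ff b z α w₀ = 0) (hu : (u ^ 2 * ff1 b z α w₀).re < 0)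
    (hv : (v ^ 2 * ff1 b z α w₀).re < 0) : Dom b z α w₀ u v p :=
  ⟨h0, H.avu, H.avv, numj_ray b z α w₀ u H.avu H.rayu hu,
    numj_ray b z α w₀ v H.avv H.rayv hv, H.uv, H.path⟩

/-- the cone estimate -/
private theorem numj_cone (u c σ ρ₀ g : ℂ) (x κ κ' : ℝ) (hx : 0 < x) (hκ : κ' < κ) (hu : u ≠ 0)
    (hc : c ≠ 0) (hσ : σ ≠ 0) (hρ : ‖ρ₀‖ = 1)
    (h1 : (u ^ 2 * (c * (ρ₀ * σ))).re ≤ -(κ * ‖u‖ ^ 2 * ‖c * σ‖))
    (h2 : ‖g - c * (σ * (ρ₀ * x))‖ ≤ κ' * (‖c‖ * ‖σ * (ρ₀ * x)‖)) :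
    (u ^ 2 * g).re < 0 := by
  have h3 : u ^ 2 * g = u ^ 2 * (c * (ρ₀ * σ)) * (x : ℂ) + u ^ 2 * (g - c * (σ * (ρ₀ * x))) := by
    ring
  have h4 : (u ^ 2 * (c * (ρ₀ * σ)) * (x : ℂ)).re = (u ^ 2 * (c * (ρ₀ * σ))).re * x := by
    rw [Complex.mul_re, Complex.ofReal_re, Complex.ofReal_im]
    ring
  have h5 : (u ^ 2 * (g - c * (σ * (ρ₀ * x)))).re ≤ ‖u‖ ^ 2 * (κ' * (‖c‖ * ‖σ * (ρ₀ * x)‖)) := by
    refine (Complex.re_le_norm _).trans ?_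
    rw [norm_mul, norm_pow]
    exact mul_le_mul_of_nonneg_left h2 (by positivity)
  have h6 : ‖σ * (ρ₀ * x)‖ = ‖σ‖ * x := by
    rw [norm_mul, norm_mul, hρ, Complex.norm_real, Real.norm_of_nonneg hx.le, one_mul]
  rw [h6] at h5
  rw [h3, Complex.add_re, h4]
  have h7 : (u ^ 2 * (c * (ρ₀ * σ))).re * x ≤ -(κ * ‖u‖ ^ 2 * (‖c‖ * ‖σ‖)) * x := by
    rw [norm_mul] at h1
    exact mul_le_mul_of_nonneg_right h1 hx.le
  have h8 : 0 < (κ - κ') * (‖u‖ ^ 2 * (‖c‖ * (‖σ‖ * x))) := by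
    have : 0 < κ - κ' := sub_pos.2 hκ
    have hu' := norm_pos_iff.2 hu
    have hc' := norm_pos_iff.2 hc
    have hσ' := norm_pos_iff.2 hσ
    positivity
  nlinarith [h5, h7, h8]

/-- all `α` close to `ts` -/
theorem reg_dom (b : ι → ℂ) (z : ℂ) (ts : ℝ) (ws σ u v : ℂ) (p : List ℂ) (A2 A3 ε s1 s2 κ : ℝ)
    (H : RegHyp b z ts ws σ A2 A3 ε s1 s2)
    (hκ : ε + s1 * (A2 * (1 + ε) ^ 2 + ‖ff2 b z ts ws‖ * ‖ws - z‖ / (2 * (‖ws - z‖ - s2) ^ 2)) /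
          ‖ff2 b z ts ws‖ < κ)
    (hu : u ≠ 0) (hv : v ≠ 0)
    (cu : (u ^ 2 * (ff2 b z ts ws * σ)).re ≤ -(κ * ‖u‖ ^ 2 * ‖ff2 b z ts ws * σ‖))
    (cui : (u ^ 2 * (ff2 b z ts ws * (Complex.I * σ))).re ≤
      -(κ * ‖u‖ ^ 2 * ‖ff2 b z ts ws * σ‖))
    (cv : (v ^ 2 * (ff2 b z ts ws * σ)).re ≤ -(κ * ‖v‖ ^ 2 * ‖ff2 b z ts ws * σ‖))
    (cvi : (v ^ 2 * (ff2 b z ts ws * (Complex.I * σ))).re ≤
      -(κ * ‖v‖ ^ 2 * ‖ff2 b z ts ws * σ‖))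
    (η₁ : ℝ) (hη₁ : ‖σ‖ ^ 2 * η₁ ≤ s1 ^ 2)
    (HR : ∀ α : ℝ, |α - ts| ≤ η₁ → ∀ w₀ ∈ Metric.closedBall ws (s1 * (1 + ε)),
      ff b z α w₀ = 0 → RayPath b z α w₀ u v p) (η : ℝ) (hη : 0 < η) (hη' : η ≤ η₁) :
    (∃ w₀, Dom b z (ts + η) w₀ u v p ∧
      ‖w₀ - ws - σ * Real.sqrt η‖ ≤ ‖σ‖ * Real.sqrt η / 4) ∧
    (∃ w₀, Dom b z (ts - η) w₀ u v p ∧
      ‖w₀ - ws - Complex.I * σ * Real.sqrt η‖ ≤ ‖σ‖ * Real.sqrt η / 4) := by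
  have hc0 : ff2 b z ts ws ≠ 0 := norm_pos_iff.1 H.c2
  have hσ0 : σ ≠ 0 := by
    intro h
    have h1 := H.hσ
    rw [h] at h1
    norm_num at h1
  have hx : 0 < Real.sqrt η := Real.sqrt_pos.2 hη
  have hx2 : Real.sqrt η ^ 2 = η := Real.sq_sqrt hη.le
  have main : ∀ (ρ₀ : ℂ) (η' : ℝ), ‖ρ₀‖ = 1 → (ρ₀ * (Real.sqrt η : ℂ)) ^ 2 = (η' : ℂ) →
      |η'| ≤ η₁ →
      (u ^ 2 * (ff2 b z ts ws * (ρ₀ * σ))).re ≤ -(κ * ‖u‖ ^ 2 * ‖ff2 b z ts ws * σ‖) →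
      (v ^ 2 * (ff2 b z ts ws * (ρ₀ * σ))).re ≤ -(κ * ‖v‖ ^ 2 * ‖ff2 b z ts ws * σ‖) →
      ∃ w₀, Dom b z (ts + η') w₀ u v p ∧
        ‖w₀ - ws - σ * (ρ₀ * (Real.sqrt η : ℂ))‖ ≤ ‖σ‖ * Real.sqrt η / 4 := by
    intro ρ₀ η' hρ h1 h2 h3 h4
    have hn : ‖σ * (ρ₀ * (Real.sqrt η : ℂ))‖ = ‖σ‖ * Real.sqrt η := by
      rw [norm_mul, norm_mul, hρ, Complex.norm_real, Real.norm_of_nonneg hx.le, one_mul]
    have hρ0 : ρ₀ * (Real.sqrt η : ℂ) ≠ 0 := by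
      refine mul_ne_zero ?_ (Complex.ofReal_ne_zero.2 hx.ne')
      intro h
      rw [h, norm_zero] at hρ
      exact zero_ne_one hρ
    have hs : ‖σ * (ρ₀ * (Real.sqrt η : ℂ))‖ ≤ s1 := by
      rw [hn]
      refine le_of_sq_le_sq ?_ H.s0.le
      rw [mul_pow, hx2]
      exact (mul_le_mul_of_nonneg_left hη' (by positivity)).trans hη₁
    obtain ⟨w, hw1, hw2, hw3⟩ := reg_root b z ts ws σ A2 A3 ε s1 s2 H
      (ρ₀ * (Real.sqrt η : ℂ)) η' h1 hρ0 hs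
    refine ⟨w, ?_, ?_⟩
    · have hball : w ∈ Metric.closedBall ws (s1 * (1 + ε)) := by
        rw [Metric.mem_closedBall, dist_eq_norm]
        have h5 : w - ws = (w - ws - σ * (ρ₀ * (Real.sqrt η : ℂ))) +
            σ * (ρ₀ * (Real.sqrt η : ℂ)) := by ring
        rw [h5]
        refine (norm_add_le _ _).trans ?_
        have h6 : ε * ‖σ * (ρ₀ * (Real.sqrt η : ℂ))‖ ≤ ε * s1 :=
          mul_le_mul_of_nonneg_left hs H.e0.le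
        linarith
      have hR := HR (ts + η') (by rwa [add_sub_cancel_left]) w hball hw2
      exact RayPath.dom b z (ts + η') w u v p hR hw2
        (numj_cone u _ σ ρ₀ _ _ κ _ hx hκ hu hc0 hσ0 hρ h3 hw3)
        (numj_cone v _ σ ρ₀ _ _ κ _ hx hκ hv hc0 hσ0 hρ h4 hw3)
    · refine hw1.trans ?_
      rw [hn]
      have h5 : ε * (‖σ‖ * Real.sqrt η) ≤ 1 / 4 * (‖σ‖ * Real.sqrt η) :=
        mul_le_mul_of_nonneg_right H.e1 (by positivity)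
      linarith
  constructor
  · obtain ⟨w, h1, h2⟩ := main 1 η norm_one
      (by rw [one_mul, ← Complex.ofReal_pow, hx2]) (by rwa [abs_of_pos hη])
      (by rwa [one_mul]) (by rwa [one_mul])
    rw [one_mul] at h2
    exact ⟨w, h1, h2⟩
  · obtain ⟨w, h1, h2⟩ := main Complex.I (-η) Complex.norm_I
      (by rw [mul_pow, Complex.I_sq, ← Complex.ofReal_pow, hx2, Complex.ofReal_neg]; ring)
      (by rwa [abs_neg, abs_of_pos hη]) cui cvi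
    rw [← sub_eq_add_neg] at h1
    refine ⟨w, h1, ?_⟩
    have h3 : w - ws - Complex.I * σ * (Real.sqrt η : ℂ) =
        w - ws - σ * (Complex.I * (Real.sqrt η : ℂ)) := by ring
    rw [h3]
    exact h2

end Pool.Agent.SHD
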