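import Pool.Agent.SHD.NK

/-!
The high precision evaluation at the double saddle point: executable check.
-/

set_option autoImplicit false

noncomputable section

namespace Pool.Agent.SHD

/-- the numerical double saddle point -/
def wsC : CP := ⟨1145816687682067065820155, 0, 469881647024044861838062, 0⟩

/-- the numerical value of `t`, unit `2 ^ (-80)` -/
def tsN : Nat := 1089221893929616477272472568

/-- the numerical centre -/
def zsC : CP := ⟨zX, 77371252455336267181195264, zY, 77371252455336267181195264⟩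

/-- a cluster as a ball -/
def clC (x y : Nat) : CB :=
  ⟨⟨Nat.shiftLeft x 50, 77371252455336267181195264, Nat.shiftLeft y 50,
    77371252455336267181195264⟩, 1⟩

structure S4 where
  s1 : CB
  s2 : CB
  s3 : CB
  s4 : CB
  ok : Bool

def cb0 : CB := ⟨⟨0, 0, 0, 0⟩, 0⟩

def s40 : S4 := ⟨cb0, cb0, cb0, cb0, true⟩

def sst3 (w : Nat) (d u u2 : CB) (E : S4) : S4 :=
  S4.rec (fun s1 s2 s3 s4 ok =>
    ⟨CB.add s1 (CB.smul w u), CB.add s2 (CB.smul w u2), CB.add s3 (CB.smul w (CB.mul u2 u)),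
      CB.add s4 (CB.smul w (CB.mul u2 u2)), and ok (Nat.ble 1 (CB.lo d))⟩) E

def sst2 (w : Nat) (d u : CB) (E : S4) : S4 := sst3 w d u (CB.mul u u) E

def sst1 (w : Nat) (d : CB) (E : S4) : S4 := sst2 w d (CB.inv d) E

/-- the sums `∑ (w - b)⁻¹ ^ p` for `w` in the ball `W` -/
def sums (W : CB) (l : List Cl) : S4 :=
  List.rec s40 (fun q _ ih => Cl.rec (fun w x y => sst1 w (CB.sub W (clC x y)) ih) q) l

/-- all elements of the ball `a` are at most `e / 2 ^ 80` away from `c` -/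
def CB.within (a : CB) (c : CP) (e : Nat) : Bool :=
  Nat.ble (Nat.add (CP.nup (CP.sub a.c c)) a.r) e

/-- `K = 2 (S2 ^ 2 - S1 S3)` -/
def kfC (s1 s2 s3 : CB) : CB := CB.smul 2 (CB.sub (CB.mul s2 s2) (CB.mul s1 s3))

def pw4 (a i : CB) : CB := CB.mul (CB.mul (CB.mul (CB.mul a i) i) i) i

/-- the derivative of `t`: `- S1 K / S2 ^ 2` -/
def dtC (s1 K i2 : CB) : CB := CB.sub cb0 (CB.mul (CB.mul (CB.mul s1 K) i2) i2)

/-- the derivative of `K / h ^ 4` -/
def dpC (s1 s2 s3 s4 K i1 : CB) : CB :=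
  pw4 (CB.add (CB.smul 6 (CB.sub (CB.mul s1 s4) (CB.mul s2 s3)))
    (CB.smul 4 (CB.mul (CB.mul K s2) i1))) i1

/-- numerical derivative of `t` -/
def daC : CP := ⟨0, 43008585402099189343900983, 69365629748050171835823086, 0⟩

/-- numerical value of the quotient of the derivatives of `K / h ^ 4` and `t` -/
def qaC : CP := ⟨0, 13479910892027453, 14692072203939159, 0⟩

def star3 (s1 s2 s3 i1 i2 K : CB) : Bool :=
  and (CB.within (CB.mul (CB.mul s1 s1) i2) ⟨tsN, 0, 0, 0⟩ 16777216)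
    (and (CB.within (CB.sub ⟨wsC, 0⟩ (CB.mul s1 i2)) zsC 8192)
      (CB.within (pw4 K i1) ⟨66686442372142663, 0, 0, 0⟩ 4))

/-- the check at the point itself -/
def starA : Bool :=
  S4.rec (fun s1 s2 s3 _ ok => and (and ok (and (Nat.ble 1 (CB.lo s1)) (Nat.ble 1 (CB.lo s2))))
    (star3 s1 s2 s3 (CB.inv s1) (CB.inv s2) (kfC s1 s2 s3))) (sums ⟨wsC, 0⟩ clusters)

def star5 (dt dp K i2 : CB) : Bool :=
  and (CB.within dt daC 144115188075855872)
    (and (CB.within (CB.sub dp (CB.mul ⟨qaC, 1⟩ dt)) ⟨0, 0, 0, 0⟩ 4294967296)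
      (CB.within (CB.mul (CB.mul K i2) i2) ⟨0, 0, 0, 0⟩ 60446290980731458735308))

def star4 (s1 s2 s3 s4 i1 i2 K : CB) : Bool :=
  and (Nat.ble 1 (CB.lo K)) (star5 (dtC s1 K i2) (dpC s1 s2 s3 s4 K i1) K i2)

/-- the check in the ball with the radius `2 ^ (-40)` -/
def starB : Bool :=
  S4.rec (fun s1 s2 s3 s4 ok => and (and ok (and (Nat.ble 1 (CB.lo s1)) (Nat.ble 1 (CB.lo s2))))
    (star4 s1 s2 s3 s4 (CB.inv s1) (CB.inv s2) (kfC s1 s2 s3)))
    (sums ⟨wsC, 1099511627776⟩ clusters)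

end Pool.Agent.SHD
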