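import Mathlib
import Pool.Agent.SHD.NRegD
import Pool.Agent.SHD.NStar
import Pool.Agent.SHD.NI
import Pool.Agent.SHD.NJ
import Pool.Agent.SHD.Loc1

set_option autoImplicit false

/-!
The neighbourhood of the double saddle point (modules REGN, REGC, REGF).
-/

noncomputable section

namespace Pool.Agent.SHD

open Polynomial Set

variable {ι : Type} [Fintype ι]

/-- the numerical facts in the region -/
structure RegNum (b : ι → ℂ) (z : ℂ) (ts : ℝ) (ws : ℂ) : Prop where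
  c2 : ‖ff2 b z ts ws - ⟨188.20646, 17.79118⟩‖ ≤ 1 / 100
  d : ‖ws - z - ⟨0.3149067361, 0.5078917118⟩‖ ≤ 1 / 10 ^ 8
  av : ∀ w ∈ Metric.closedBall ws (34 / 10000), (∀ i, w ≠ b i) ∧ w ≠ z
  f3 : ∀ w ∈ Metric.closedBall ws (34 / 10000), ‖ff3 b z ts w‖ ≤ 6700

namespace RegNaux

lemma split (Z : Zv) (E : Ev) (A r : ℕ)
    (h : (Zv.rec (fun _ ρ _ v2 v3 okz => Ev.rec (fun _ _ S3 S4 _ _ M5 _ ok =>
      and (and ok okz) (regN2 A r ρ M5 S3 S4 v2 v3)) E) Z : Bool) = true) :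
    E.ok = true ∧ Z.ok = true ∧ regN2 A r Z.ρ E.M5 E.S3 E.S4 Z.v2 Z.v3 = true := by
  cases Z
  cases E
  have h' := Bool.and_eq_true_iff.1 h
  have h'' := Bool.and_eq_true_iff.1 h'.1
  exact ⟨h''.1, h''.2, h'.2⟩

lemma regN2_split (A r ρ M5 : ℕ) (S3 S4 v2 v3 : CP) (h : regN2 A r ρ M5 S3 S4 v2 v3 = true) :
    CP.nup (CP.sub (CP.smul 2 (CP.sub S3 (CP.amul A v3)))
      ⟨227527648912267921184170925, 0, 21508216863411398280449024, 0⟩) ≤ 6044629098073145873530 ∧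
    F3 A S4 (CP.mul v2 v2) + rsh (24 * ((M5 + mterm A ρ 5 180) * r)) 10 ≤ 8087713733221869178784317440 := by
  have h' := Bool.and_eq_true_iff.1 h
  exact ⟨Nat.le_of_ble_eq_true h'.1, Nat.le_of_ble_eq_true h'.2⟩

lemma facts_c2 (b : ι → ℂ) (z c : ℂ) (R : ℝ) (E : Ev) (Z : Zv) (hE : EvI E c R b) (hZ : ZvI Z c R z)
    (h : CP.nup (CP.sub (CP.smul 2 (CP.sub E.S3 (CP.amul 967423380453 Z.v3)))
      ⟨227527648912267921184170925, 0, 21508216863411398280449024, 0⟩) ≤ 6044629098073145873530) :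
    ‖ff2 b z ((967423380453 : ℕ) / 2 ^ 30) c - ⟨188.20646, 17.79118⟩‖ ≤ 6 / 1000 := by
  have h1 := F2_val b z c R E Z hE hZ 967423380453 (by norm_num)
  have h2 := CP.nup_ge (CP.sub (CP.smul 2 (CP.sub E.S3 (CP.amul 967423380453 Z.v3)))
      ⟨227527648912267921184170925, 0, 21508216863411398280449024, 0⟩)
  have h3 : ((CP.nup (CP.sub (CP.smul 2 (CP.sub E.S3 (CP.amul 967423380453 Z.v3)))
      ⟨227527648912267921184170925, 0, 21508216863411398280449024, 0⟩) : ℕ) : ℝ) / 2 ^ 80 ≤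
      6044629098073145873530 / 2 ^ 80 := by
    apply div_le_div_of_nonneg_right _ (by positivity)
    exact_mod_cast h
  rw [CP.val_sub, CP.val_smul] at h2
  have h4 : ‖(CP.mk 227527648912267921184170925 0 21508216863411398280449024 0).val -
      ⟨188.20646, 17.79118⟩‖ ≤ 1 / 2 ^ 60 := by
    refine (Complex.norm_le_abs_re_add_abs_im _).trans ?_
    simp only [CP.val, Complex.sub_re, Complex.sub_im]
    have a1 : |((227527648912267921184170925 : ℕ) : ℝ) / 2 ^ 80 - 188.20646| ≤ 1 / 2 ^ 61 := by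
      rw [abs_le]
      constructor <;> norm_num
    have a2 : |((21508216863411398280449024 : ℕ) : ℝ) / 2 ^ 80 - 17.79118| ≤ 1 / 2 ^ 61 := by
      rw [abs_le]
      constructor <;> norm_num
    have e : (1 : ℝ) / 2 ^ 60 = 1 / 2 ^ 61 + 1 / 2 ^ 61 := by norm_num
    rw [e]
    refine add_le_add ?_ ?_
    · simpa using a1
    · simpa using a2
  have e : ff2 b z ((967423380453 : ℕ) / 2 ^ 30) c - ⟨188.20646, 17.79118⟩ =
      (ff2 b z ((967423380453 : ℕ) / 2 ^ 30) c - 2 * (CP.sub E.S3 (CP.amul 967423380453 Z.v3)).val) +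
      (((2 : ℕ) : ℂ) * (CP.sub E.S3 (CP.amul 967423380453 Z.v3)).val -
        (CP.mk 227527648912267921184170925 0 21508216863411398280449024 0).val) +
      ((CP.mk 227527648912267921184170925 0 21508216863411398280449024 0).val -
      ⟨188.20646, 17.79118⟩) := by
    push_cast
    ring
  rw [e]
  refine (norm_add_le _ _).trans ?_
  refine (add_le_add (norm_add_le _ _) le_rfl).trans ?_
  have hh : (2 : ℝ) ^ 69 / 2 ^ 80 + 6044629098073145873530 / 2 ^ 80 + 1 / 2 ^ 60 ≤ 6 / 1000 := by norm_num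
  linarith [h2.trans h3]

lemma facts_f3 (b : ι → ℂ) (z c : ℂ) (E : Ev) (Z : Zv) (hE : EvI E c ((3758099 : ℕ) / 2 ^ 30) b)
    (hZ : ZvI Z c ((3758099 : ℕ) / 2 ^ 30) z)
    (h : F3 967423380453 E.S4 (CP.mul Z.v2 Z.v2) + rsh (24 * ((E.M5 + mterm 967423380453 Z.ρ 5 180) * 3758099)) 10 ≤
      8087713733221869178784317440) (w : ℂ) (hw : w ∈ Metric.closedBall c ((3758099 : ℕ) / 2 ^ 30)) :
    ‖ff3 b z ((967423380453 : ℕ) / 2 ^ 30) w‖ ≤ 6690 := by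
  obtain ⟨R, hR⟩ : ∃ R : ℝ, R = ((3758099 : ℕ) : ℝ) / 2 ^ 30 := ⟨_, rfl⟩
  obtain ⟨α, hα⟩ : ∃ α : ℝ, α = ((967423380453 : ℕ) : ℝ) / 2 ^ 30 := ⟨_, rfl⟩
  have hα0 : 0 ≤ α := by rw [hα]; positivity
  have hR0 : 0 ≤ R := by rw [hR]; positivity
  have h0 := F3_ok b z c _ E Z hE hZ 967423380453 (by norm_num)
  rw [← hα] at h0 ⊢
  rw [← hR] at hE hZ hw
  have hρ0 : 0 < Z.ρ := hZ.rho0
  have hρ : (0 : ℝ) < Z.ρ := by exact_mod_cast hρ0
  have hav := fun w hw => avoid_ball b z c R E Z hE hZ w hw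
  have h4 := fun w hw => ff4_ball b z c R E Z hE hZ α hα0 w hw
  have t := tay1 (ff3 b z α) (ff4 b z α) c R _ (fun w hw => ff3_hasDeriv b z α w (hav w hw).1 (hav w hw).2) h4 w hw
  have hwR : ‖w - c‖ ≤ R := by rwa [Metric.mem_closedBall, dist_eq_norm] at hw
  have hm := mterm_gt 967423380453 Z.ρ 5 180 hρ0
  obtain ⟨mt, hmt⟩ : ∃ mt : ℕ, mt = mterm 967423380453 Z.ρ 5 180 := ⟨_, rfl⟩
  obtain ⟨FF, hFF⟩ : ∃ FF : ℕ, FF = F3 967423380453 E.S4 (CP.mul Z.v2 Z.v2) := ⟨_, rfl⟩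
  rw [← hmt] at hm h
  rw [← hFF] at h h0
  have hr := rsh_gt (24 * ((E.M5 + mt) * 3758099)) 10
  -- the bound of the fourth derivative times R
  have k1 : 24 * (E.M5 / 2 ^ 60 + α * ((2 : ℝ) ^ 30 / Z.ρ) ^ 5) * ‖w - c‖ ≤
      ((rsh (24 * ((E.M5 + mt) * 3758099)) 10 : ℕ) : ℝ) / 2 ^ 80 := by
    have e1 : α * ((2 : ℝ) ^ 30 / Z.ρ) ^ 5 = (967423380453 : ℕ) * 2 ^ 180 / (Z.ρ : ℝ) ^ 5 / 2 ^ 60 := by
      rw [hα, div_pow]
      ring
    have e2 : α * ((2 : ℝ) ^ 30 / Z.ρ) ^ 5 ≤ ((mt : ℕ) : ℝ) / 2 ^ 60 := by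
      rw [e1]
      exact div_le_div_of_nonneg_right hm.le (by positivity)
    have e3 : 24 * (E.M5 / 2 ^ 60 + α * ((2 : ℝ) ^ 30 / Z.ρ) ^ 5) * ‖w - c‖ ≤
        24 * (E.M5 / 2 ^ 60 + ((mt : ℕ) : ℝ) / 2 ^ 60) * R := by
      have : 0 ≤ α * ((2 : ℝ) ^ 30 / Z.ρ) ^ 5 := by positivity
      gcongr
    refine e3.trans ?_
    have e4 : 24 * (E.M5 / 2 ^ 60 + ((mt : ℕ) : ℝ) / 2 ^ 60) * R =
        (((24 * ((E.M5 + mt) * 3758099) : ℕ) : ℝ) / 2 ^ 10) / 2 ^ 80 := by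
      rw [hR]
      push_cast
      ring
    rw [e4]
    exact div_le_div_of_nonneg_right hr.le (by positivity)
  have k2 : ((FF : ℕ) : ℝ) / 2 ^ 80 +
      ((rsh (24 * ((E.M5 + mt) * 3758099)) 10 : ℕ) : ℝ) / 2 ^ 80 ≤ 6690 := by
    have h' : ((FF : ℕ) : ℝ) +
        ((rsh (24 * ((E.M5 + mt) * 3758099)) 10 : ℕ) : ℝ) ≤ 8087713733221869178784317440 := by
      exact_mod_cast h
    rw [← add_div, div_le_iff₀ (by positivity)]
    refine h'.trans ?_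
    norm_num
  calc ‖ff3 b z α w‖ = ‖ff3 b z α c + (ff3 b z α w - ff3 b z α c)‖ := by congr 1; ring
    _ ≤ ‖ff3 b z α c‖ + ‖ff3 b z α w - ff3 b z α c‖ := norm_add_le _ _
    _ ≤ _ := add_le_add h0 (t.trans k1)
    _ ≤ 6690 := k2

end RegNaux

/-- REGN -/
theorem reg_num (b : ι → ℂ) (hb : Near b) (z : ℂ) (hz : ‖z - zcv‖ ≤ 1 / 2 ^ 56) (ts : ℝ)
    (hts : |ts - (tsN : ℝ) / 2 ^ 80| ≤ 1 / 2 ^ 50) (ws : ℂ) (hws : ‖ws - wsC.val‖ ≤ 1 / 2 ^ 55) :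
    RegNum b z ts ws := by
  have hr := regNum_ok
  unfold regNum at hr
  obtain ⟨hEok, hZok, h2⟩ := RegNaux.split (zv 69737166391 69136815475 3758099)
    (ev 69737166391 69136815475 3758099 clusters) 967423380453 3758099 hr
  have hE := ev_ok b hb 69737166391 69136815475 3758099 hEok
  have hZ := zv_ok z hz 69737166391 69136815475 3758099 hZok
  obtain ⟨n1, n2⟩ := RegNaux.regN2_split _ _ _ _ _ _ _ _ h2
  have hc2 := RegNaux.facts_c2 b z _ _ _ _ hE hZ n1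
  have hf3 := fun w hw => RegNaux.facts_f3 b z _ _ _ hE hZ n2 w hw
  have hav := fun w hw => avoid_ball b z _ _ _ _ hE hZ w hw
  clear hr hEok hZok h2 n1 n2 hE hZ
  obtain ⟨c, hc⟩ : ∃ c : ℂ, c = ptv 69737166391 69136815475 := ⟨_, rfl⟩
  rw [← hc] at hc2 hf3 hav
  obtain ⟨α, hα⟩ : ∃ α : ℝ, α = ((967423380453 : ℕ) : ℝ) / 2 ^ 30 := ⟨_, rfl⟩
  rw [← hα] at hc2 hf3
  -- ws is close to c
  have hwc : ‖ws - c‖ ≤ 1 / 2 ^ 28 := by
    have h1 : ‖wsC.val - c‖ ≤ 1 / 2 ^ 29 := by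
      refine (Complex.norm_le_abs_re_add_abs_im _).trans ?_
      rw [hc]
      simp only [CP.val, ptv, wsC, Complex.sub_re, Complex.sub_im]
      have a1 : |(((1145816687682067065820155 : ℕ) : ℝ) - ((0 : ℕ) : ℝ)) / 2 ^ 80 -
          (((69737166391 : ℕ) : ℝ) - 2 ^ 36) / 2 ^ 30| ≤ 1 / 2 ^ 30 := by
        rw [abs_le]
        constructor <;> norm_num
      have a2 : |(((469881647024044861838062 : ℕ) : ℝ) - ((0 : ℕ) : ℝ)) / 2 ^ 80 -
          (((69136815475 : ℕ) : ℝ) - 2 ^ 36) / 2 ^ 30| ≤ 1 / 2 ^ 30 := by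
        rw [abs_le]
        constructor <;> norm_num
      have e : (1 : ℝ) / 2 ^ 29 = 1 / 2 ^ 30 + 1 / 2 ^ 30 := by norm_num
      rw [e]
      exact add_le_add a1 a2
    have h2 : ws - c = (ws - wsC.val) + (wsC.val - c) := by ring
    rw [h2]
    refine (norm_add_le _ _).trans ?_
    have h3 : (1 : ℝ) / 2 ^ 55 + 1 / 2 ^ 29 ≤ 1 / 2 ^ 28 := by norm_num
    linarith
  have hα' : |ts - α| ≤ 1 / 2 ^ 30 := by
    have h1 : |(tsN : ℝ) / 2 ^ 80 - α| ≤ 1 / 2 ^ 31 := by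
      rw [hα]
      unfold tsN
      rw [abs_le]
      constructor <;> norm_num
    have h2 : ts - α = (ts - (tsN : ℝ) / 2 ^ 80) + ((tsN : ℝ) / 2 ^ 80 - α) := by ring
    rw [h2]
    refine (abs_add_le _ _).trans ?_
    have h3 : (1 : ℝ) / 2 ^ 50 + 1 / 2 ^ 31 ≤ 1 / 2 ^ 30 := by norm_num
    linarith
  -- the difference to the centre
  have hd : ‖ws - z - ⟨0.3149067361, 0.5078917118⟩‖ ≤ 1 / 10 ^ 8 := by
    have h1 : ‖wsC.val - zcv - ⟨0.3149067361, 0.5078917118⟩‖ ≤ 5 / 10 ^ 9 := by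
      refine (Complex.norm_le_abs_re_add_abs_im _).trans ?_
      simp only [CP.val, zcv, wsC, zX, zY, Complex.sub_re, Complex.sub_im]
      have a1 : |(((1145816687682067065820155 : ℕ) : ℝ) - ((0 : ℕ) : ℝ)) / 2 ^ 80 -
          (((78136370258991714766621959 : ℕ) : ℝ) - 2 ^ 86) / 2 ^ 80 - 0.3149067361| ≤ 1 / 10 ^ 9 := by
        rw [abs_le]
        constructor <;> norm_num
      have a2 : |(((469881647024044861838062 : ℕ) : ℝ) - ((0 : ℕ) : ℝ)) / 2 ^ 80 -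
          (((77227130698435348977117863 : ℕ) : ℝ) - 2 ^ 86) / 2 ^ 80 - 0.5078917118| ≤ 1 / 10 ^ 9 := by
        rw [abs_le]
        constructor <;> norm_num
      linarith
    have h2 : ws - z - ⟨0.3149067361, 0.5078917118⟩ = (ws - wsC.val) - (z - zcv) +
        (wsC.val - zcv - ⟨0.3149067361, 0.5078917118⟩) := by ring
    rw [h2]
    refine (norm_add_le _ _).trans ?_
    refine (add_le_add (norm_sub_le _ _) le_rfl).trans ?_
    have h3 : (1 : ℝ) / 2 ^ 55 + 1 / 2 ^ 56 + 5 / 10 ^ 9 ≤ 1 / 10 ^ 8 := by norm_num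
    linarith
  have hwz : (0.59 : ℝ) ≤ ‖ws - z‖ := by
    have h1 : (0.597 : ℝ) ≤ ‖(⟨0.3149067361, 0.5078917118⟩ : ℂ)‖ := by
      rw [Complex.norm_eq_sqrt_sq_add_sq]
      apply Real.le_sqrt_of_sq_le
      norm_num
    have h2 : ‖(⟨0.3149067361, 0.5078917118⟩ : ℂ)‖ ≤ ‖ws - z‖ + ‖ws - z - ⟨0.3149067361, 0.5078917118⟩‖ := by
      have := norm_sub_le (ws - z) (ws - z - ⟨0.3149067361, 0.5078917118⟩)
      rwa [sub_sub_cancel] at this
    have h3 : (1 : ℝ) / 10 ^ 8 ≤ 0.001 := by norm_num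
    linarith
  have hball : ∀ w ∈ Metric.closedBall ws (34 / 10000), w ∈ Metric.closedBall c ((3758099 : ℕ) / 2 ^ 30) := by
    intro w hw
    rw [Metric.mem_closedBall, dist_eq_norm] at hw ⊢
    have h1 : w - c = (w - ws) + (ws - c) := by ring
    rw [h1]
    refine (norm_add_le _ _).trans ?_
    have h3 : (34 : ℝ) / 10000 + 1 / 2 ^ 28 ≤ ((3758099 : ℕ) : ℝ) / 2 ^ 30 := by norm_num
    linarith
  have hws0 : ws ∈ Metric.closedBall ws (34 / 10000 : ℝ) := Metric.mem_closedBall_self (by norm_num)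
  have hcc : c ∈ Metric.closedBall c (((3758099 : ℕ) : ℝ) / 2 ^ 30) := Metric.mem_closedBall_self (by positivity)
  refine ⟨?_, hd, fun w hw => hav w (hball w hw), ?_⟩
  · -- second derivative
    have h1 : ‖ff2 b z ts ws - ff2 b z α ws‖ ≤ 1 / 1000 := by
      have e : ff2 b z ts ws - ff2 b z α ws = ((-2 * (ts - α) : ℝ) : ℂ) * ((ws - z)⁻¹) ^ 3 := by
        unfold ff2
        push_cast
        ring
      rw [e, norm_mul, norm_pow, norm_inv, Complex.norm_real, Real.norm_eq_abs, abs_mul, abs_neg, abs_two]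
      have h5 : ‖ws - z‖⁻¹ ≤ 2 := by
        rw [inv_le_comm₀ (by linarith) (by norm_num)]
        norm_num at hwz ⊢
        linarith
      have h6 : (‖ws - z‖⁻¹) ^ 3 ≤ 2 ^ 3 := pow_le_pow_left₀ (by positivity) h5 3
      calc 2 * |ts - α| * ‖ws - z‖⁻¹ ^ 3 ≤ 2 * (1 / 2 ^ 30) * 2 ^ 3 := by gcongr
        _ ≤ 1 / 1000 := by norm_num
    have h2 : ‖ff2 b z α ws - ff2 b z α c‖ ≤ 1 / 1000 := by
      have t := tay1 (ff2 b z α) (ff3 b z α) c (((3758099 : ℕ) : ℝ) / 2 ^ 30) 6690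
        (fun w hw => ff2_hasDeriv b z α w (hav w hw).1 (hav w hw).2) hf3 ws (hball ws hws0)
      refine t.trans ?_
      calc (6690 : ℝ) * ‖ws - c‖ ≤ 6690 * (1 / 2 ^ 28) := by gcongr
        _ ≤ 1 / 1000 := by norm_num
    have e : ff2 b z ts ws - ⟨188.20646, 17.79118⟩ = (ff2 b z ts ws - ff2 b z α ws) +
        (ff2 b z α ws - ff2 b z α c) + (ff2 b z α c - ⟨188.20646, 17.79118⟩) := by ring
    rw [e]
    refine (norm_add_le _ _).trans ?_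
    refine (add_le_add (norm_add_le _ _) le_rfl).trans ?_
    linarith
  · intro w hw
    have h1 := hf3 w (hball w hw)
    have hwz2 : (0.5 : ℝ) ≤ ‖w - z‖ := by
      rw [Metric.mem_closedBall, dist_eq_norm] at hw
      have h2 : ‖ws - z‖ ≤ ‖w - z‖ + ‖w - ws‖ := by
        have := norm_sub_le (w - z) (w - ws)
        rwa [show w - z - (w - ws) = ws - z by ring] at this
      linarith
    have h2 : ‖ff3 b z ts w - ff3 b z α w‖ ≤ 1 := by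
      have e : ff3 b z ts w - ff3 b z α w = ((6 * (ts - α) : ℝ) : ℂ) * ((w - z)⁻¹) ^ 4 := by
        unfold ff3
        push_cast
        ring
      rw [e, norm_mul, norm_pow, norm_inv, Complex.norm_real, Real.norm_eq_abs, abs_mul]
      have h5 : ‖w - z‖⁻¹ ≤ 2 := by
        rw [inv_le_comm₀ (by linarith) (by norm_num)]
        norm_num at hwz2 ⊢
        linarith
      have h6 : (‖w - z‖⁻¹) ^ 4 ≤ 2 ^ 4 := pow_le_pow_left₀ (by positivity) h5 4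
      have h7 : |(6 : ℝ)| = 6 := by norm_num
      rw [h7]
      calc 6 * |ts - α| * ‖w - z‖⁻¹ ^ 4 ≤ 6 * (1 / 2 ^ 30) * 2 ^ 4 := by gcongr
        _ ≤ 1 := by norm_num
    calc ‖ff3 b z ts w‖ = ‖(ff3 b z ts w - ff3 b z α w) + ff3 b z α w‖ := by congr 1; ring
      _ ≤ ‖ff3 b z ts w - ff3 b z α w‖ + ‖ff3 b z α w‖ := norm_add_le _ _
      _ ≤ 6700 := by linarith

private theorem regc_cone (u g g0 : ℂ) (N : ℝ) (hN : ‖g0‖ ≤ N) (hg : ‖g - g0‖ ≤ 1 / 100)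
    (h : (u ^ 2 * g0).re ≤ -(1 / 4 * (N + 1 / 10)) * ‖u‖ ^ 2) :
    (u ^ 2 * g).re ≤ -(1 / 4 * ‖u‖ ^ 2 * ‖g‖) := by
  have e : u ^ 2 * g = u ^ 2 * g0 + u ^ 2 * (g - g0) := by ring
  have h1 : (u ^ 2 * (g - g0)).re ≤ ‖u‖ ^ 2 * (1 / 100) := by
    refine (Complex.re_le_norm _).trans ?_
    rw [norm_mul, norm_pow]
    exact mul_le_mul_of_nonneg_left hg (sq_nonneg _)
  have h2 : ‖g‖ ≤ N + 1 / 100 := by
    have := norm_add_le g0 (g - g0)
    rw [add_sub_cancel] at this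
    linarith
  have h3 : ‖u‖ ^ 2 * ‖g‖ ≤ ‖u‖ ^ 2 * (N + 1 / 100) :=
    mul_le_mul_of_nonneg_left h2 (sq_nonneg _)
  rw [e, Complex.add_re]
  have h4 : 0 ≤ ‖u‖ ^ 2 := sq_nonneg _
  nlinarith

private theorem regc_u : regB.u = ⟨35021318 / 2 ^ 30, 122133850 / 2 ^ 30⟩ := by
  unfold BD.u vec
  simp only [regB, off]
  apply Complex.ext <;> norm_num

private theorem regc_v : regB.v = ⟨4784320 / 2 ^ 30, -(54685029 / 2 ^ 30)⟩ := by
  unfold BD.v vec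
  simp only [regB, off]
  apply Complex.ext <;> norm_num

/-- REGC: the scale `σ` and the cones -/
theorem reg_sigma (c D : ℂ) (hc : ‖c - ⟨188.20646, 17.79118⟩‖ ≤ 1 / 100)
    (hD : ‖D - ⟨0.3149067361, 0.5078917118⟩‖ ≤ 1 / 10 ^ 8) :
    ∃ σ : ℂ, σ ^ 2 * (c * D) = 2 ∧
      (regB.u ^ 2 * (c * σ)).re ≤ -(1 / 4 * ‖regB.u‖ ^ 2 * ‖c * σ‖) ∧
      (regB.u ^ 2 * (c * (Complex.I * σ))).re ≤ -(1 / 4 * ‖regB.u‖ ^ 2 * ‖c * σ‖) ∧
      (regB.v ^ 2 * (c * σ)).re ≤ -(1 / 4 * ‖regB.v‖ ^ 2 * ‖c * σ‖) ∧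
      (regB.v ^ 2 * (c * (Complex.I * σ))).re ≤ -(1 / 4 * ‖regB.v‖ ^ 2 * ‖c * σ‖) := by
  set c0 : ℂ := ⟨188.20646, 17.79118⟩ with hc0
  set D0 : ℂ := ⟨0.3149067361, 0.5078917118⟩ with hD0
  set g0 : ℂ := ⟨22.5301, -11.1840⟩ with hg0
  have nsq : ∀ w : ℂ, ‖w‖ ^ 2 = w.re ^ 2 + w.im ^ 2 := fun w => by
    rw [← Complex.normSq_eq_norm_sq, Complex.normSq_apply]; ring
  -- norms of the constants
  have nD0 : 0.5975 ≤ ‖D0‖ := by
    refine le_of_sq_le_sq ?_ (norm_nonneg _)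
    rw [nsq, hD0]; norm_num
  have ng0 : ‖g0‖ ≤ 25.2 := by
    refine le_of_sq_le_sq ?_ (by norm_num)
    rw [nsq, hg0]; norm_num
  have ng0' : 25 ≤ ‖g0‖ := by
    refine le_of_sq_le_sq ?_ (norm_nonneg _)
    rw [nsq, hg0]; norm_num
  have nc0 : 189 ≤ ‖c0‖ := by
    refine le_of_sq_le_sq ?_ (norm_nonneg _)
    rw [nsq, hc0]; norm_num
  have nD : 0.597 ≤ ‖D‖ := by
    have := norm_sub_norm_le D0 D
    rw [norm_sub_rev] at this
    have : (1 : ℝ) / 10 ^ 8 ≤ 0.0001 := by norm_num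
    linarith
  have nc : 188 ≤ ‖c‖ := by
    have := norm_sub_norm_le c0 c
    rw [norm_sub_rev] at this
    linarith
  have c00 : c ≠ 0 := by
    intro h
    rw [h, norm_zero] at nc
    linarith
  have D00 : D ≠ 0 := by
    intro h
    rw [h, norm_zero] at nD
    linarith
  -- the key bound
  have key0 : ‖2 * c0 - g0 ^ 2 * D0‖ ≤ 0.01 := by
    refine le_of_sq_le_sq ?_ (by norm_num)
    rw [nsq, pow_two g0, hc0, hD0, hg0]
    simp only [Complex.sub_re, Complex.sub_im, Complex.mul_re, Complex.mul_im, Complex.re_ofNat,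
      Complex.im_ofNat]
    norm_num
  have key : ‖2 * c - g0 ^ 2 * D‖ ≤ 0.031 := by
    have e : 2 * c - g0 ^ 2 * D = 2 * (c - c0) + (2 * c0 - g0 ^ 2 * D0) - g0 ^ 2 * (D - D0) := by
      ring
    rw [e]
    refine (norm_sub_le _ _).trans ?_
    have h1 := norm_add_le (2 * (c - c0)) (2 * c0 - g0 ^ 2 * D0)
    have h2 : ‖2 * (c - c0)‖ = 2 * ‖c - c0‖ := by
      rw [norm_mul, Complex.norm_ofNat]
    have h3 : ‖g0 ^ 2 * (D - D0)‖ ≤ 25.2 ^ 2 * (1 / 10 ^ 8) := by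
      rw [norm_mul, norm_pow]
      exact mul_le_mul (pow_le_pow_left₀ (norm_nonneg _) ng0 2) hD (norm_nonneg _) (by norm_num)
    have h4 : (25.2 : ℝ) ^ 2 * (1 / 10 ^ 8) ≤ 0.001 := by norm_num
    linarith
  -- the square root
  obtain ⟨σ0, hσ0⟩ := IsAlgClosed.exists_pow_nat_eq (2 / (c * D)) (n := 2) (by norm_num)
  have hcD : c * D ≠ 0 := mul_ne_zero c00 D00
  -- both signs
  have main : ∃ σ : ℂ, σ ^ 2 * (c * D) = 2 ∧ 0 ≤ ((c * σ) * (starRingEnd ℂ) g0).re := by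
    by_cases hs : 0 ≤ ((c * σ0) * (starRingEnd ℂ) g0).re
    · exact ⟨σ0, by rw [hσ0]; field_simp, hs⟩
    · refine ⟨-σ0, by rw [neg_sq, hσ0]; field_simp, ?_⟩
      have e : c * -σ0 * (starRingEnd ℂ) g0 = -(c * σ0 * (starRingEnd ℂ) g0) := by ring
      rw [e, Complex.neg_re]
      linarith
  obtain ⟨σ, hσ, hpos⟩ := main
  refine ⟨σ, hσ, ?_⟩
  set g : ℂ := c * σ with hg
  have hg2 : g ^ 2 * D = 2 * c := by
    have : g ^ 2 * D = c * (σ ^ 2 * (c * D)) := by rw [hg]; ring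
    rw [this, hσ]; ring
  have hdiff : ‖g - g0‖ ≤ 1 / 100 := by
    have e1 : ‖g - g0‖ * ‖g + g0‖ * ‖D‖ = ‖2 * c - g0 ^ 2 * D‖ := by
      rw [← norm_mul, ← norm_mul, ← hg2]
      congr 1; ring
    have e2 : ‖g0‖ ≤ ‖g + g0‖ := by
      refine le_of_sq_le_sq ?_ (norm_nonneg _)
      rw [nsq, nsq, Complex.add_re, Complex.add_im]
      have h1 : ((c * σ) * (starRingEnd ℂ) g0).re = g.re * g0.re + g.im * g0.im := by
        rw [← hg, Complex.mul_re, Complex.conj_re, Complex.conj_im]; ring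
      rw [h1] at hpos
      nlinarith [sq_nonneg g.re, sq_nonneg g.im]
    have e3 : ‖g - g0‖ * (25 * 0.597) ≤ ‖g - g0‖ * (‖g + g0‖ * ‖D‖) := by
      refine mul_le_mul_of_nonneg_left ?_ (norm_nonneg _)
      exact mul_le_mul (ng0'.trans e2) nD (by norm_num) (norm_nonneg _)
    have e4 : ‖g - g0‖ * (‖g + g0‖ * ‖D‖) ≤ 0.031 := by
      rw [← mul_assoc, e1]; exact key
    have e5 : ‖g - g0‖ * (25 * 0.597) ≤ 0.031 := e3.trans e4
    nlinarith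
  have hI : ‖Complex.I * g‖ = ‖g‖ := by rw [norm_mul, Complex.norm_I, one_mul]
  have eI : c * (Complex.I * σ) = Complex.I * g := by rw [hg]; ring
  have hdiffI : ‖Complex.I * g - Complex.I * g0‖ ≤ 1 / 100 := by
    rw [← mul_sub, norm_mul, Complex.norm_I, one_mul]; exact hdiff
  have ngI : ‖Complex.I * g0‖ ≤ 25.2 := by
    rw [norm_mul, Complex.norm_I, one_mul]; exact ng0
  rw [eI]
  refine ⟨regc_cone _ _ g0 25.2 ng0 hdiff ?_, ?_, regc_cone _ _ g0 25.2 ng0 hdiff ?_, ?_⟩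
  · rw [nsq, regc_u, hg0, pow_two]
    simp only [Complex.mul_re, Complex.mul_im]
    norm_num
  · rw [← hI]
    refine regc_cone _ _ (Complex.I * g0) 25.2 ngI hdiffI ?_
    rw [nsq, regc_u, hg0, pow_two]
    simp only [Complex.mul_re, Complex.mul_im, Complex.I_re, Complex.I_im]
    norm_num
  · rw [nsq, regc_v, hg0, pow_two]
    simp only [Complex.mul_re, Complex.mul_im]
    norm_num
  · rw [← hI]
    refine regc_cone _ _ (Complex.I * g0) 25.2 ngI hdiffI ?_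
    rw [nsq, regc_v, hg0, pow_two]
    simp only [Complex.mul_re, Complex.mul_im, Complex.I_re, Complex.I_im]
    norm_num

private lemma tay3_step (g g' : ℝ → ℂ) (K : ℝ) (n : ℕ)
    (hg : ∀ s ∈ Icc (0 : ℝ) 1, HasDerivAt g (g' s) s) (h0 : g 0 = 0)
    (hb : ∀ s ∈ Icc (0 : ℝ) 1, ‖g' s‖ ≤ K * s ^ n) :
    ∀ s ∈ Icc (0 : ℝ) 1, ‖g s‖ ≤ K * s ^ (n + 1) / (n + 1) := by
  intro s hs
  refine image_norm_le_of_norm_deriv_right_le_deriv_boundary (f := g) (f' := g') (a := 0) (b := 1)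
    (B := fun s => K * s ^ (n + 1) / (n + 1)) (B' := fun s => K * s ^ n) ?_ ?_ ?_ ?_ ?_ hs
  · exact fun x hx => (hg x hx).continuousAt.continuousWithinAt
  · exact fun x hx => (hg x ⟨hx.1, hx.2.le⟩).hasDerivWithinAt
  · rw [h0]
    simp
  · intro x
    have hn : (n : ℝ) + 1 ≠ 0 := by positivity
    have h1 := (((hasDerivAt_pow (n + 1) x).const_mul K).div_const ((n : ℝ) + 1))
    refine h1.congr_deriv ?_
    rw [Nat.add_sub_cancel]
    push_cast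
    field_simp
  · exact fun x hx => hb x ⟨hx.1, hx.2.le⟩

/-- REGT: third order Taylor estimate -/
theorem tay3 (f f1 f2 f3 : ℂ → ℂ) (c : ℂ) (R M : ℝ)
    (hf : ∀ w ∈ Metric.closedBall c R, HasDerivAt f (f1 w) w)
    (hf1 : ∀ w ∈ Metric.closedBall c R, HasDerivAt f1 (f2 w) w)
    (hf2 : ∀ w ∈ Metric.closedBall c R, HasDerivAt f2 (f3 w) w)
    (hM : ∀ w ∈ Metric.closedBall c R, ‖f3 w‖ ≤ M) (w : ℂ) (hw : w ∈ Metric.closedBall c R) :
    ‖f w - f c - f1 c * (w - c) - f2 c * (w - c) ^ 2 / 2‖ ≤ M * ‖w - c‖ ^ 3 / 6 := by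
  obtain ⟨h, hh⟩ : ∃ h : ℂ, h = w - c := ⟨_, rfl⟩
  have hwc : w = c + h := by rw [hh]; ring
  have hR : ‖h‖ ≤ R := by
    rw [hh]
    rw [Metric.mem_closedBall, dist_eq_norm] at hw
    exact hw
  have hmem : ∀ s ∈ Icc (0 : ℝ) 1, c + (s : ℂ) * h ∈ Metric.closedBall c R := by
    intro s hs
    rw [Metric.mem_closedBall, dist_eq_norm, add_sub_cancel_left, norm_mul, Complex.norm_real,
      Real.norm_of_nonneg hs.1]
    calc s * ‖h‖ ≤ 1 * ‖h‖ := mul_le_mul_of_nonneg_right hs.2 (norm_nonneg _)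
      _ = ‖h‖ := one_mul _
      _ ≤ R := hR
  have hγ : ∀ s : ℝ, HasDerivAt (fun s : ℝ => c + (s : ℂ) * h) h s := by
    intro s
    have h1 : HasDerivAt (fun s : ℝ => (s : ℂ)) 1 s := Complex.ofRealCLM.hasDerivAt
    refine ((h1.mul_const h).const_add c).congr_deriv (one_mul h)
  have hcomp : ∀ (g g1 : ℂ → ℂ), (∀ w ∈ Metric.closedBall c R, HasDerivAt g (g1 w) w) →
      ∀ s ∈ Icc (0 : ℝ) 1, HasDerivAt (fun s : ℝ => g (c + (s : ℂ) * h)) (g1 (c + (s : ℂ) * h) * h) s :=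
    fun g g1 hg s hs => (hg _ (hmem s hs)).comp s (hγ s)
  have hid : ∀ s : ℝ, HasDerivAt (fun s : ℝ => (s : ℂ)) 1 s := fun s => Complex.ofRealCLM.hasDerivAt
  -- second derivative
  have s1 := tay3_step (fun s => f2 (c + (s : ℂ) * h) - f2 c) (fun s => f3 (c + (s : ℂ) * h) * h) (M * ‖h‖) 0
    (fun s hs => (hcomp f2 f3 hf2 s hs).sub_const _) (by simp) (fun s hs => by
      rw [norm_mul, pow_zero, mul_one]
      exact mul_le_mul_of_nonneg_right (hM _ (hmem s hs)) (norm_nonneg _))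
  have s2 := tay3_step (fun s => f1 (c + (s : ℂ) * h) - f1 c - (s : ℂ) * (f2 c * h))
    (fun s => (f2 (c + (s : ℂ) * h) - f2 c) * h) (M * ‖h‖ ^ 2) 1
    (fun s hs => (((hcomp f1 f2 hf1 s hs).sub_const _).sub ((hid s).mul_const (f2 c * h))).congr_deriv (by ring))
    (by simp) (fun s hs => by
      rw [norm_mul, pow_one]
      have h2 := s1 s hs
      rw [zero_add, pow_one, Nat.cast_zero, zero_add, div_one] at h2
      calc ‖f2 (c + (s : ℂ) * h) - f2 c‖ * ‖h‖ ≤ M * ‖h‖ * s * ‖h‖ := mul_le_mul_of_nonneg_right h2 (norm_nonneg _)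
        _ = M * ‖h‖ ^ 2 * s := by ring)
  have s3 := tay3_step (fun s => f (c + (s : ℂ) * h) - f c - (s : ℂ) * (f1 c * h) - (s : ℂ) ^ 2 * (f2 c * h ^ 2 / 2))
    (fun s => (f1 (c + (s : ℂ) * h) - f1 c - (s : ℂ) * (f2 c * h)) * h) (M * ‖h‖ ^ 3 / 2) 2
    (fun s hs => ((((hcomp f f1 hf s hs).sub_const _).sub ((hid s).mul_const (f1 c * h))).sub
      (((hid s).pow 2).mul_const (f2 c * h ^ 2 / 2))).congr_deriv (by push_cast; ring))
    (by simp) (fun s hs => by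
      rw [norm_mul]
      have h2 := s2 s hs
      norm_num at h2
      calc ‖f1 (c + (s : ℂ) * h) - f1 c - (s : ℂ) * (f2 c * h)‖ * ‖h‖ ≤ M * ‖h‖ ^ 2 * s ^ 2 / 2 * ‖h‖ :=
            mul_le_mul_of_nonneg_right h2 (norm_nonneg _)
        _ = M * ‖h‖ ^ 3 / 2 * s ^ 2 := by ring)
  have h3 := s3 1 ⟨zero_le_one, le_rfl⟩
  have e1 : f w - f c - f1 c * (w - c) - f2 c * (w - c) ^ 2 / 2 =
      f (c + ((1 : ℝ) : ℂ) * h) - f c - ((1 : ℝ) : ℂ) * (f1 c * h) - ((1 : ℝ) : ℂ) ^ 2 * (f2 c * h ^ 2 / 2) := by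
    rw [Complex.ofReal_one, one_mul, one_mul, ← hwc, ← hh]
    ring
  rw [e1, ← hh]
  refine h3.trans (le_of_eq ?_)
  norm_num
  ring

private lemma REGH_norm {x : ℂ} {a b e lo hi : ℝ} (h : ‖x - ⟨a, b⟩‖ ≤ e)
    (h1 : (lo + e) ^ 2 ≤ a ^ 2 + b ^ 2) (hhi : 0 ≤ hi - e) (h2 : a ^ 2 + b ^ 2 ≤ (hi - e) ^ 2) :
    lo ≤ ‖x‖ ∧ ‖x‖ ≤ hi := by
  have h3 : ‖(⟨a, b⟩ : ℂ)‖ = Real.sqrt (a ^ 2 + b ^ 2) := by
    rw [Complex.norm_def, Complex.normSq_mk]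
    congr 1
    ring
  have h4 : lo + e ≤ ‖(⟨a, b⟩ : ℂ)‖ := by
    rw [h3]
    exact Real.le_sqrt_of_sq_le h1
  have h5 : ‖(⟨a, b⟩ : ℂ)‖ ≤ hi - e := by
    rw [h3]
    exact Real.sqrt_le_iff.2 ⟨hhi, h2⟩
  have h6 := abs_le.1 ((abs_norm_sub_norm_le x ⟨a, b⟩).trans h)
  constructor
  · linarith [h6.1]
  · linarith [h6.2]

/-- REGH: the hypotheses of `reg_dom` -/
theorem reg_hyp (b : ι → ℂ) (z : ℂ) (ts : ℝ) (ws σ : ℂ) (h0 : ff b z ts ws = 0)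
    (h1 : ff1 b z ts ws = 0) (hσ : σ ^ 2 * (ff2 b z ts ws * (ws - z)) = 2)
    (H : RegNum b z ts ws) :
    RegHyp b z ts ws σ 3350 (6700 / 6) (3 / 100) (33 / 10000) (34 / 10000) ∧
      3 / 100 + 33 / 10000 * (3350 * (1 + 3 / 100) ^ 2 +
        ‖ff2 b z ts ws‖ * ‖ws - z‖ / (2 * (‖ws - z‖ - 34 / 10000) ^ 2)) / ‖ff2 b z ts ws‖ <
        1 / 4 ∧ ‖σ‖ ^ 2 * (614 / 1000000) ≤ (33 / 10000) ^ 2 := by
  obtain ⟨hc2, hd, hav, hf3⟩ := H
  obtain ⟨hC1, hC2⟩ := REGH_norm (lo := 189) (hi := 1891 / 10) hc2 (by norm_num)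
    (by norm_num) (by norm_num)
  obtain ⟨hD1, hD2⟩ := REGH_norm (lo := 5975 / 10000) (hi := 5977 / 10000) hd (by norm_num)
    (by norm_num) (by norm_num)
  have hder : ∀ w ∈ Metric.closedBall ws (34 / 10000), HasDerivAt (ff b z ts) (ff1 b z ts w) w :=
    fun w hw => ff_hasDeriv b z ts w (hav w hw).1 (hav w hw).2
  have hder1 : ∀ w ∈ Metric.closedBall ws (34 / 10000), HasDerivAt (ff1 b z ts) (ff2 b z ts w) w :=
    fun w hw => ff1_hasDeriv b z ts w (hav w hw).1 (hav w hw).2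
  have hder2 : ∀ w ∈ Metric.closedBall ws (34 / 10000), HasDerivAt (ff2 b z ts) (ff3 b z ts w) w :=
    fun w hw => ff2_hasDeriv b z ts w (hav w hw).1 (hav w hw).2
  have hσn : ‖σ‖ ^ 2 * (‖ff2 b z ts ws‖ * ‖ws - z‖) = 2 := by
    have h2 := congrArg norm hσ
    rw [norm_mul, norm_mul, norm_pow] at h2
    rw [h2]
    norm_num
  set C := ‖ff2 b z ts ws‖ with hCdef
  set D := ‖ws - z‖ with hDdef
  have hDs : (5941 : ℝ) / 10000 ≤ D - 34 / 10000 := by linarith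
  have hDs0 : 0 < D - 34 / 10000 := by linarith
  have hC0 : 0 < C := by linarith
  have hq1 : C / (2 * (D - 34 / 10000)) ≤ 160 := by
    rw [div_le_iff₀ (by positivity)]
    linarith
  have hq2 : C * D / (2 * (D - 34 / 10000) ^ 2) ≤ 162 := by
    rw [div_le_iff₀ (by positivity)]
    have e1 : (5941 / 10000 : ℝ) ^ 2 ≤ (D - 34 / 10000) ^ 2 := by gcongr
    have e2 : C * D ≤ 1891 / 10 * (5977 / 10000) := by gcongr
    have e3 : (1891 / 10 * (5977 / 10000) : ℝ) ≤ 162 * (2 * (5941 / 10000) ^ 2) := by norm_num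
    linarith
  refine ⟨⟨h0, h1, hσ, hav, ?_, ?_, by norm_num, by norm_num, by norm_num, by norm_num, by norm_num,
    by norm_num, by linarith, hC0, ?_⟩, ?_, ?_⟩
  · intro w hw
    have h2 := tay3 (ff b z ts) (ff1 b z ts) (ff2 b z ts) (ff3 b z ts) ws (34 / 10000) 6700 hder hder1
      hder2 hf3 w hw
    rw [h0, h1, zero_mul, sub_zero, sub_zero] at h2
    refine h2.trans (le_of_eq ?_)
    ring
  · intro w hw
    have h2 := tay2 (ff1 b z ts) (ff2 b z ts) (ff3 b z ts) ws (34 / 10000) 6700 hder1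
      hder2 hf3 w hw
    rw [h1, sub_zero] at h2
    refine h2.trans (le_of_eq ?_)
    ring
  · have e1 : (33 : ℝ) / 10000 * (6700 / 6 + C / (2 * (D - 34 / 10000))) ≤
        33 / 10000 * (6700 / 6 + 160) := by gcongr
    have e2 : (3 : ℝ) / 100 * (189 * (1 - 3 / 100) - 33 / 10000 * (3350 * (1 + 3 / 100) ^ 2 + 162)) ≤
        3 / 100 * (C * (1 - 3 / 100) - 33 / 10000 * (3350 * (1 + 3 / 100) ^ 2 +
          C * D / (2 * (D - 34 / 10000) ^ 2))) := by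
      linarith
    refine e1.trans (le_trans ?_ e2)
    norm_num
  · have e1 : (33 : ℝ) / 10000 * (3350 * (1 + 3 / 100) ^ 2 + C * D / (2 * (D - 34 / 10000) ^ 2)) / C ≤
        33 / 10000 * (3350 * (1 + 3 / 100) ^ 2 + 162) / 189 := by
      gcongr
    have e2 : (3 : ℝ) / 100 + 33 / 10000 * (3350 * (1 + 3 / 100) ^ 2 + 162) / 189 < 1 / 4 := by
      norm_num
    linarith
  · have e1 : (189 * (5975 / 10000) : ℝ) ≤ C * D := by gcongr
    have e2 : ‖σ‖ ^ 2 * (189 * (5975 / 10000)) ≤ 2 := by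
      rw [← hσn]
      gcongr
    have e3 : (614 / 1000000 : ℝ) ≤ (33 / 10000) ^ 2 / 2 * (189 * (5975 / 10000)) := by norm_num
    calc ‖σ‖ ^ 2 * (614 / 1000000) ≤ ‖σ‖ ^ 2 * ((33 / 10000) ^ 2 / 2 * (189 * (5975 / 10000))) := by
          gcongr
      _ = (33 / 10000) ^ 2 / 2 * (‖σ‖ ^ 2 * (189 * (5975 / 10000))) := by ring
      _ ≤ (33 / 10000) ^ 2 / 2 * 2 := by gcongr
      _ = (33 / 10000) ^ 2 := by ring

/-- the vector of a ray is not zero -/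
theorem REGF_u : regB.u ≠ 0 := by
  intro h
  have h1 : regB.u.re = 0 := by rw [h]; rfl
  have h2 : regB.u.re = (((35021318 : ℕ) : ℝ) - ((0 : ℕ) : ℝ)) / 2 ^ 30 := rfl
  rw [h2] at h1
  norm_num at h1

theorem REGF_v : regB.v ≠ 0 := by
  intro h
  have h1 : regB.v.re = 0 := by rw [h]; rfl
  have h2 : regB.v.re = (((4784320 : ℕ) : ℝ) - ((0 : ℕ) : ℝ)) / 2 ^ 30 := rfl
  rw [h2] at h1
  norm_num at h1

/-- the interval of the parameters -/
theorem REGF_alpha (ts α : ℝ) (hts : |ts - (tsN : ℝ) / 2 ^ 80| ≤ 1 / 2 ^ 50)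
    (hα : |α - ts| ≤ 614 / 1000000) :
    α ∈ Icc ((regB.A0 : ℝ) / 2 ^ 30) ((regB.A1 : ℝ) / 2 ^ 30) := by
  have e0 : regB.A0 = 967422719955 := rfl
  have e1 : regB.A1 = 967424040951 := rfl
  have e2 : tsN = 1089221893929616477272472568 := rfl
  rw [e0, e1]
  rw [e2] at hts
  rw [abs_le] at hts hα
  push_cast at hts ⊢
  constructor
  · have h1 : (967422719955 : ℝ) / 2 ^ 30 ≤
        1089221893929616477272472568 / 2 ^ 80 - 1 / 2 ^ 50 - 614 / 1000000 := by norm_num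
    linarith [hts.1, hα.1]
  · have h1 : (1089221893929616477272472568 : ℝ) / 2 ^ 80 + 1 / 2 ^ 50 + 614 / 1000000 ≤
        967424040951 / 2 ^ 30 := by norm_num
    linarith [hts.2, hα.2]

/-- the ball of the saddle points -/
theorem REGF_ball (ws w₀ : ℂ) (hws : ‖ws - wsC.val‖ ≤ 1 / 2 ^ 55)
    (hw₀ : w₀ ∈ Metric.closedBall ws (33 / 10000 * (1 + 3 / 100))) :
    w₀ ∈ Metric.closedBall (ptv regB.x regB.y) ((regB.r : ℝ) / 2 ^ 30) := by
  have e0 : regB.x = 69737166391 := rfl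
  have e1 : regB.y = 69136815475 := rfl
  have e2 : regB.r = 3758099 := rfl
  have e3 : wsC.val = ⟨((1145816687682067065820155 : ℕ) - ((0 : ℕ) : ℝ)) / 2 ^ 80,
    ((469881647024044861838062 : ℕ) - ((0 : ℕ) : ℝ)) / 2 ^ 80⟩ := rfl
  rw [e0, e1, e2]
  rw [Metric.mem_closedBall, dist_eq_norm] at hw₀ ⊢
  have h1 : ‖wsC.val - ptv 69737166391 69136815475‖ ≤ 1 / 2 ^ 29 := by
    rw [e3]
    unfold ptv
    refine (Complex.norm_le_abs_re_add_abs_im _).trans ?_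
    rw [Complex.sub_re, Complex.sub_im]
    push_cast
    have a1 : |((1145816687682067065820155 : ℝ) - 0) / 2 ^ 80 - (69737166391 - 2 ^ 36) / 2 ^ 30| ≤
        1 / 2 ^ 30 := by
      rw [abs_le]
      constructor <;> norm_num
    have a2 : |((469881647024044861838062 : ℝ) - 0) / 2 ^ 80 - (69136815475 - 2 ^ 36) / 2 ^ 30| ≤
        1 / 2 ^ 30 := by
      rw [abs_le]
      constructor <;> norm_num
    have a3 : (1 : ℝ) / 2 ^ 30 + 1 / 2 ^ 30 = 1 / 2 ^ 29 := by norm_num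
    linarith
  have h2 : w₀ - ptv 69737166391 69136815475 = (w₀ - ws) + (ws - wsC.val) +
      (wsC.val - ptv 69737166391 69136815475) := by ring
  rw [h2]
  refine (norm_add₃_le).trans ?_
  push_cast
  have h3 : (33 : ℝ) / 10000 * (1 + 3 / 100) + 1 / 2 ^ 55 + 1 / 2 ^ 29 ≤ 3758099 / 2 ^ 30 := by norm_num
  linarith

theorem REGF_neg (u g : ℂ) (hu : u ≠ 0) (hg : g ≠ 0) (x : ℝ) (h : x ≤ -(1 / 4 * ‖u‖ ^ 2 * ‖g‖)) :
    x < 0 := by
  have h1 : 0 < ‖u‖ := norm_pos_iff.2 hu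
  have h2 : 0 < ‖g‖ := norm_pos_iff.2 hg
  have h3 : 0 < 1 / 4 * ‖u‖ ^ 2 * ‖g‖ := by positivity
  linarith

/-- REGF: everything near the double saddle point -/
theorem reg_final (b : ι → ℂ) (hb : Near b) (ws : ℂ) (ts : ℝ) (hws : ‖ws - wsC.val‖ ≤ 1 / 2 ^ 55)
    (hts : |ts - (tsN : ℝ) / 2 ^ 80| ≤ 1 / 2 ^ 50) (hz : ‖Zf b ws - zcv‖ ≤ 1 / 2 ^ 56)
    (htf : tf b ws = ts) (n0 : hh b ws ≠ 0) (n1 : hh1 b ws ≠ 0) :
    ∃ σ : ℂ, σ ^ 2 * (ff2 b (Zf b ws) ts ws * (ws - Zf b ws)) = 2 ∧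
      DomA b (Zf b ws) ts ws regB.u regB.v regB.path ∧
      (regB.u ^ 2 * (ff2 b (Zf b ws) ts ws * σ)).re < 0 ∧
      (regB.u ^ 2 * (ff2 b (Zf b ws) ts ws * (Complex.I * σ))).re < 0 ∧
      (regB.v ^ 2 * (ff2 b (Zf b ws) ts ws * σ)).re < 0 ∧
      (regB.v ^ 2 * (ff2 b (Zf b ws) ts ws * (Complex.I * σ))).re < 0 ∧
      ∀ η : ℝ, 0 < η → η ≤ 614 / 1000000 →
        (∃ w₀, Dom b (Zf b ws) (ts + η) w₀ regB.u regB.v regB.path ∧
          ‖w₀ - ws - σ * Real.sqrt η‖ ≤ ‖σ‖ * Real.sqrt η / 4) ∧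
        (∃ w₀, Dom b (Zf b ws) (ts - η) w₀ regB.u regB.v regB.path ∧
          ‖w₀ - ws - Complex.I * σ * Real.sqrt η‖ ≤ ‖σ‖ * Real.sqrt η / 4) := by
  obtain ⟨f0, f1, -⟩ := ff_Zf b ws ts n0 n1 htf
  have H := reg_num b hb (Zf b ws) hz ts hts ws hws
  obtain ⟨σ, hσ, cu, cui, cv, cvi⟩ := reg_sigma _ _ H.c2 H.d
  obtain ⟨HR, hκ, hη₁⟩ := reg_hyp b (Zf b ws) ts ws σ f0 f1 hσ H
  have hray : ∀ α : ℝ, |α - ts| ≤ 614 / 1000000 →
      ∀ w₀ ∈ Metric.closedBall ws (33 / 10000 * (1 + 3 / 100)),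
      ff b (Zf b ws) α w₀ = 0 → RayPath b (Zf b ws) α w₀ regB.u regB.v regB.path := by
    intro α hα w₀ hw₀ h0
    obtain ⟨r1, r2, r3, r4, r5, r6⟩ := chkReg_ok b hb (Zf b ws) hz regB regB_ok α
      (REGF_alpha ts α hts hα) w₀ (REGF_ball ws w₀ hws hw₀) h0
    exact ⟨r1, r2, r3, r4, r5, r6⟩
  have hg : ff2 b (Zf b ws) ts ws * σ ≠ 0 := by
    intro h
    have h1 : σ ^ 2 * (ff2 b (Zf b ws) ts ws * (ws - Zf b ws)) =
        (ff2 b (Zf b ws) ts ws * σ) * (σ * (ws - Zf b ws)) := by ring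
    rw [h1, h, zero_mul] at hσ
    norm_num at hσ
  refine ⟨σ, hσ, ?_, REGF_neg _ _ REGF_u hg _ cu, REGF_neg _ _ REGF_u hg _ cui,
    REGF_neg _ _ REGF_v hg _ cv, REGF_neg _ _ REGF_v hg _ cvi, ?_⟩
  · refine RayPath.domA b _ ts ws _ _ _ (hray ts ?_ ws ?_ f0) f0 f1
    · rw [sub_self, abs_zero]
      norm_num
    · exact Metric.mem_closedBall_self (by norm_num)
  · intro η hη hη'
    exact reg_dom b (Zf b ws) ts ws σ regB.u regB.v regB.path 3350 (6700 / 6) (3 / 100) (33 / 10000)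
      (34 / 10000) (1 / 4) HR hκ REGF_u REGF_v cu cui cv cvi (614 / 1000000) hη₁ hray η hη hη'

end Pool.Agent.SHD
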