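import Pool.Agent.SHD.NDefs

/-!
Complex balls, for the high precision evaluation at the double saddle point.
-/

set_option autoImplicit false

noncomputable section

namespace Pool.Agent.SHD

/-- the ball with the centre `c` and the radius `r / 2 ^ 80` -/
structure CB where
  c : CP
  r : Nat

def CB.add (a b : CB) : CB := ⟨CP.add a.c b.c, Nat.add a.r b.r⟩

def CB.sub (a b : CB) : CB := ⟨CP.sub a.c b.c, Nat.add a.r b.r⟩

def CB.smul (k : Nat) (a : CB) : CB := ⟨CP.smul k a.c, Nat.mul k a.r⟩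

def CB.mul (a b : CB) : CB :=
  ⟨CP.mul a.c b.c, Nat.add 2 (rsh (Nat.add (Nat.add (Nat.mul (CP.nup a.c) b.r)
    (Nat.mul (CP.nup b.c) a.r)) (Nat.mul a.r b.r)) 80)⟩

/-- reduced centre -/
def CP.red (a : CP) : CP :=
  CP.rec (fun x x' y y' => ⟨Nat.sub x x', Nat.sub x' x, Nat.sub y y', Nat.sub y' y⟩) a

/-- inverse; `lo` a lower bound of the modulus of the centre; correct if `a.r < lo` -/
def cbInv2 (r N lo : Nat) (c : CP) : CB :=
  ⟨CP.rec (fun x x' y y' => inv 160 x x' y y' N) c,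
    Nat.add 3 (Nat.div (Nat.shiftLeft r 160) (Nat.mul lo (Nat.sub lo r)))⟩

def cbInv1 (r X Y : Nat) (c : CP) : CB :=
  cbInv2 r (Nat.add (Nat.mul X X) (Nat.mul Y Y))
    (Nat.div (Nat.add (Nat.mul X X) (Nat.mul Y Y)) (mup X Y)) c

def CB.inv (a : CB) : CB :=
  CP.rec (fun x x' y y' => cbInv1 a.r (adist x x') (adist y y') (CP.red a.c)) a.c

/-- a lower bound of the modulus of the elements of the ball -/
def CB.lo (a : CB) : Nat :=
  CP.rec (fun x x' y y' => Nat.sub (Nat.div (Nat.add (Nat.mul (adist x x') (adist x x'))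
    (Nat.mul (adist y y') (adist y y'))) (mup (adist x x') (adist y y'))) a.r) a.c

end Pool.Agent.SHD
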