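import Mathlib
import Pool.Agent.SHD.NK
import Pool.Agent.SHD.NC

set_option autoImplicit false

/-!
Soundness of the ball arithmetic (module NUMK).
-/

noncomputable section

namespace Pool.Agent.SHD

/-- `x` is in the ball `a` -/
def CB.Mem (a : CB) (x : ℂ) : Prop := ‖a.c.val - x‖ ≤ (a.r : ℝ) / 2 ^ 80

theorem CB.mem_add (a b : CB) (x y : ℂ) (hx : a.Mem x) (hy : b.Mem y) :
    (CB.add a b).Mem (x + y) := by
  unfold CB.Mem at *
  have h1 : (CB.add a b).c = CP.add a.c b.c := rfl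
  have h2 : (CB.add a b).r = a.r + b.r := rfl
  rw [h1, h2, CP.val_add]
  have h3 : a.c.val + b.c.val - (x + y) = (a.c.val - x) + (b.c.val - y) := by ring
  rw [h3]
  refine (norm_add_le _ _).trans ?_
  push_cast
  rw [add_div]
  exact add_le_add hx hy

theorem CB.mem_sub (a b : CB) (x y : ℂ) (hx : a.Mem x) (hy : b.Mem y) :
    (CB.sub a b).Mem (x - y) := by
  unfold CB.Mem at *
  have h1 : (CB.sub a b).c = CP.sub a.c b.c := rfl
  have h2 : (CB.sub a b).r = a.r + b.r := rfl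
  rw [h1, h2, CP.val_sub]
  have h3 : a.c.val - b.c.val - (x - y) = (a.c.val - x) - (b.c.val - y) := by ring
  rw [h3]
  refine (norm_sub_le _ _).trans ?_
  push_cast
  rw [add_div]
  exact add_le_add hx hy

theorem CB.mem_smul (k : ℕ) (a : CB) (x : ℂ) (hx : a.Mem x) : (CB.smul k a).Mem (k * x) := by
  unfold CB.Mem at *
  have h1 : (CB.smul k a).c = CP.smul k a.c := rfl
  have h2 : (CB.smul k a).r = k * a.r := rfl
  rw [h1, h2, CP.val_smul, ← mul_sub, norm_mul, Complex.norm_natCast]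
  push_cast
  rw [mul_div_assoc]
  exact mul_le_mul_of_nonneg_left hx (Nat.cast_nonneg k)

theorem CB.mem_mul (a b : CB) (x y : ℂ) (hx : a.Mem x) (hy : b.Mem y) :
    (CB.mul a b).Mem (x * y) := by
  unfold CB.Mem at *
  have h1 : (CB.mul a b).c = CP.mul a.c b.c := rfl
  have h2 : (CB.mul a b).r = 2 + rsh (CP.nup a.c * b.r + CP.nup b.c * a.r + a.r * b.r) 80 := rfl
  rw [h1, h2]
  have hm := CP.val_mul a.c b.c
  have hna := CP.nup_ge a.c
  have hnb := CP.nup_ge b.c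
  have hr := rsh_gt (CP.nup a.c * b.r + CP.nup b.c * a.r + a.r * b.r) 80
  have h3 : (CP.mul a.c b.c).val - x * y = ((CP.mul a.c b.c).val - a.c.val * b.c.val) +
      (a.c.val * (b.c.val - y) + (a.c.val - x) * b.c.val - (a.c.val - x) * (b.c.val - y)) := by
    ring
  rw [h3]
  have hp : (0 : ℝ) < 2 ^ 80 := by positivity
  have e1 : ‖a.c.val * (b.c.val - y)‖ ≤ (CP.nup a.c : ℝ) / 2 ^ 80 * ((b.r : ℝ) / 2 ^ 80) := by
    rw [norm_mul]
    exact mul_le_mul hna hy (norm_nonneg _) (by positivity)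
  have e2 : ‖(a.c.val - x) * b.c.val‖ ≤ (a.r : ℝ) / 2 ^ 80 * ((CP.nup b.c : ℝ) / 2 ^ 80) := by
    rw [norm_mul]
    exact mul_le_mul hx hnb (norm_nonneg _) (by positivity)
  have e3 : ‖(a.c.val - x) * (b.c.val - y)‖ ≤ (a.r : ℝ) / 2 ^ 80 * ((b.r : ℝ) / 2 ^ 80) := by
    rw [norm_mul]
    exact mul_le_mul hx hy (norm_nonneg _) (by positivity)
  have e4 : ‖((CP.mul a.c b.c).val - a.c.val * b.c.val) +
      (a.c.val * (b.c.val - y) + (a.c.val - x) * b.c.val - (a.c.val - x) * (b.c.val - y))‖ ≤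
      2 / 2 ^ 80 + ((CP.nup a.c : ℝ) / 2 ^ 80 * ((b.r : ℝ) / 2 ^ 80) +
        (a.r : ℝ) / 2 ^ 80 * ((CP.nup b.c : ℝ) / 2 ^ 80) +
        (a.r : ℝ) / 2 ^ 80 * ((b.r : ℝ) / 2 ^ 80)) := by
    refine (norm_add_le _ _).trans (add_le_add hm ?_)
    refine (norm_sub_le _ _).trans (add_le_add ?_ e3)
    exact (norm_add_le _ _).trans (add_le_add e1 e2)
  refine e4.trans ?_
  have e5 : (CP.nup a.c : ℝ) / 2 ^ 80 * ((b.r : ℝ) / 2 ^ 80) +
        (a.r : ℝ) / 2 ^ 80 * ((CP.nup b.c : ℝ) / 2 ^ 80) +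
        (a.r : ℝ) / 2 ^ 80 * ((b.r : ℝ) / 2 ^ 80) =
      (((CP.nup a.c * b.r + CP.nup b.c * a.r + a.r * b.r : ℕ) : ℝ) / 2 ^ 80) / 2 ^ 80 := by
    push_cast
    ring
  rw [e5]
  rw [Nat.cast_add 2, add_div ((2 : ℕ) : ℝ)]
  exact add_le_add (by norm_num) (div_le_div_of_nonneg_right hr.le hp.le)

private theorem norm_val (a : CP) : ‖a.val‖ =
    Real.sqrt (((adist a.xp a.xq : ℕ) : ℝ) ^ 2 + ((adist a.yp a.yq : ℕ) : ℝ) ^ 2) / 2 ^ 80 := by
  rw [adist_eq, adist_eq, sq_abs, sq_abs]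
  have h : a.val = ((1 / 2 ^ 80 : ℝ) : ℂ) * ⟨(a.xp : ℝ) - a.xq, (a.yp : ℝ) - a.yq⟩ := by
    apply Complex.ext
    · simp only [CP.val, Complex.mul_re, Complex.ofReal_re, Complex.ofReal_im]
      ring
    · simp only [CP.val, Complex.mul_im, Complex.ofReal_re, Complex.ofReal_im]
      ring
  rw [h, norm_mul, Complex.norm_real, Complex.norm_eq_sqrt_sq_add_sq, Real.norm_of_nonneg (by positivity)]
  ring

private theorem lo_eq (a : CB) : CB.lo a = (adist a.c.xp a.c.xq * adist a.c.xp a.c.xq +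
    adist a.c.yp a.c.yq * adist a.c.yp a.c.yq) / mup (adist a.c.xp a.c.xq) (adist a.c.yp a.c.yq) -
    a.r := rfl

theorem CB.lo_le (a : CB) (x : ℂ) (hx : a.Mem x) : (CB.lo a : ℝ) / 2 ^ 80 ≤ ‖x‖ := by
  unfold CB.Mem at hx
  have h1 := div_mup_le (adist a.c.xp a.c.xq) (adist a.c.yp a.c.yq)
  have h2 := norm_val a.c
  have h3 : ‖a.c.val‖ ≤ ‖x‖ + (a.r : ℝ) / 2 ^ 80 := by
    have := norm_le_norm_add_norm_sub' a.c.val x
    linarith
  rw [lo_eq]
  set L := (adist a.c.xp a.c.xq * adist a.c.xp a.c.xq +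
    adist a.c.yp a.c.yq * adist a.c.yp a.c.yq) / mup (adist a.c.xp a.c.xq) (adist a.c.yp a.c.yq)
    with hL
  rcases le_total a.r L with h | h
  · rw [Nat.cast_sub h, sub_div]
    have h4 : (L : ℝ) / 2 ^ 80 ≤ ‖a.c.val‖ := by
      rw [h2]
      exact div_le_div_of_nonneg_right h1 (by positivity)
    linarith
  · rw [Nat.sub_eq_zero_of_le h]
    simp

private theorem inv_c (a : CB) : (CB.inv a).c = inv 160 (a.c.xp - a.c.xq) (a.c.xq - a.c.xp)
    (a.c.yp - a.c.yq) (a.c.yq - a.c.yp) (((a.c.xp - a.c.xq) + (a.c.xq - a.c.xp)) *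
      ((a.c.xp - a.c.xq) + (a.c.xq - a.c.xp)) + ((a.c.yp - a.c.yq) + (a.c.yq - a.c.yp)) *
      ((a.c.yp - a.c.yq) + (a.c.yq - a.c.yp))) := rfl

private theorem inv_r (a : CB) (L : ℕ) (hL : L = (adist a.c.xp a.c.xq * adist a.c.xp a.c.xq +
    adist a.c.yp a.c.yq * adist a.c.yp a.c.yq) /
      mup (adist a.c.xp a.c.xq) (adist a.c.yp a.c.yq)) :
    (CB.inv a).r = 3 + (a.r <<< 160) / (L * (L - a.r)) := by
  subst hL
  rfl

theorem CB.mem_inv (a : CB) (x : ℂ) (hx : a.Mem x) (h : 0 < CB.lo a) :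
    (CB.inv a).Mem x⁻¹ := by
  have hlo := CB.lo_le a x hx
  unfold CB.Mem at *
  have h1 := div_mup_le (adist a.c.xp a.c.xq) (adist a.c.yp a.c.yq)
  have h2 := norm_val a.c
  rw [lo_eq] at h hlo
  obtain ⟨L, hL⟩ : ∃ L, L = (adist a.c.xp a.c.xq * adist a.c.xp a.c.xq +
    adist a.c.yp a.c.yq * adist a.c.yp a.c.yq) /
      mup (adist a.c.xp a.c.xq) (adist a.c.yp a.c.yq) := ⟨_, rfl⟩
  have hir := inv_r a L hL
  rw [← hL] at h hlo h1
  have hLr : a.r < L := by omega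
  have h4 : (L : ℝ) / 2 ^ 80 ≤ ‖a.c.val‖ := by
    rw [h2]
    exact div_le_div_of_nonneg_right h1 (by positivity)
  have hN : 0 < ((a.c.xp - a.c.xq) + (a.c.xq - a.c.xp)) *
      ((a.c.xp - a.c.xq) + (a.c.xq - a.c.xp)) + ((a.c.yp - a.c.yq) + (a.c.yq - a.c.yp)) *
      ((a.c.yp - a.c.yq) + (a.c.yq - a.c.yp)) := by
    rcases Nat.eq_zero_or_pos (((a.c.xp - a.c.xq) + (a.c.xq - a.c.xp)) *
      ((a.c.xp - a.c.xq) + (a.c.xq - a.c.xp)) + ((a.c.yp - a.c.yq) + (a.c.yq - a.c.yp)) *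
      ((a.c.yp - a.c.yq) + (a.c.yq - a.c.yp))) with h0 | h0
    · exfalso
      have : L = 0 := by
        rw [hL]
        have e : adist a.c.xp a.c.xq * adist a.c.xp a.c.xq +
          adist a.c.yp a.c.yq * adist a.c.yp a.c.yq = 0 := h0
        rw [e, Nat.zero_div]
      omega
    · exact h0
  have hiv := inv_val 160 (a.c.xp - a.c.xq) (a.c.xq - a.c.xp) (a.c.yp - a.c.yq)
    (a.c.yq - a.c.yp) (by omega) (by omega) hN
  rw [← inv_c a] at hiv
  have cs : ∀ p q : ℕ, (((p - q : ℕ) : ℝ) - ((q - p : ℕ) : ℝ)) = (p : ℝ) - q := by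
    intro p q
    rcases le_total p q with hpq | hpq
    · rw [Nat.sub_eq_zero_of_le hpq, Nat.cast_sub hpq]
      simp
    · rw [Nat.sub_eq_zero_of_le hpq, Nat.cast_sub hpq]
      simp
  rw [cs, cs] at hiv
  have hv : a.c.val = (1 / 2 ^ 80 : ℂ) * ⟨(a.c.xp : ℝ) - a.c.xq, (a.c.yp : ℝ) - a.c.yq⟩ := by
    have e : (1 / 2 ^ 80 : ℂ) = ((1 / 2 ^ 80 : ℝ) : ℂ) := by push_cast; ring
    rw [e]
    apply Complex.ext
    · simp only [CP.val, Complex.mul_re, Complex.ofReal_re, Complex.ofReal_im]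
      ring
    · simp only [CP.val, Complex.mul_im, Complex.ofReal_re, Complex.ofReal_im]
      ring
  have hv2 : (a.c.val)⁻¹ = ((2 : ℂ) ^ 160 / 2 ^ 80) *
      ((⟨(a.c.xp : ℝ) - a.c.xq, (a.c.yp : ℝ) - a.c.yq⟩ : ℂ))⁻¹ := by
    rw [hv, mul_inv]
    congr 1
    norm_num
  rw [← hv2] at hiv
  have hp : (0 : ℝ) < 2 ^ 80 := by positivity
  have hLp : (0 : ℝ) < L := by exact_mod_cast (by omega : 0 < L)
  have hLr2 : (0 : ℝ) < (L : ℝ) - a.r := by
    have : (a.r : ℝ) < L := by exact_mod_cast hLr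
    linarith
  have ha0 : a.c.val ≠ 0 := by
    intro h0
    rw [h0, norm_zero] at h4
    have : 0 < (L : ℝ) / 2 ^ 80 := by positivity
    linarith
  have hx1 : ((L : ℝ) - a.r) / 2 ^ 80 ≤ ‖x‖ := by
    rw [Nat.cast_sub hLr.le] at hlo
    exact hlo
  have hx0 : x ≠ 0 := by
    intro h0
    rw [h0, norm_zero] at hx1
    have : 0 < ((L : ℝ) - a.r) / 2 ^ 80 := by positivity
    linarith
  have hd : ‖(a.c.val)⁻¹ - x⁻¹‖ ≤ ((a.r : ℝ) * 2 ^ 160 / (L * (L - a.r))) / 2 ^ 80 := by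
    rw [inv_sub_inv ha0 hx0, norm_div, norm_mul, norm_sub_rev]
    have e : ((a.r : ℝ) * 2 ^ 160 / (L * (L - a.r))) / 2 ^ 80 =
        ((a.r : ℝ) / 2 ^ 80) / ((L / 2 ^ 80) * (((L : ℝ) - a.r) / 2 ^ 80)) := by
      field_simp
    rw [e]
    refine div_le_div₀ (by positivity) hx (by positivity) ?_
    exact mul_le_mul h4 hx1 (by positivity) (norm_nonneg _)
  have hr : (a.r : ℝ) * (2 : ℝ) ^ 160 / ((L : ℝ) * ((L : ℝ) - a.r)) <
      (((a.r <<< 160) / (L * (L - a.r)) : ℕ) : ℝ) + 1 := by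
    have hpos : 0 < L * (L - a.r) := Nat.mul_pos (by omega) (by omega)
    have e1 := Nat.lt_div_mul_add (a := a.r <<< 160) hpos
    have e2 : ((a.r <<< 160 : ℕ) : ℝ) = (a.r : ℝ) * 2 ^ 160 := by
      rw [Nat.shiftLeft_eq]
      push_cast
      ring
    have e3 : (((L * (L - a.r) : ℕ)) : ℝ) = L * (L - a.r) := by
      rw [Nat.cast_mul, Nat.cast_sub hLr.le]
    rw [← e2, ← e3, div_lt_iff₀ (by exact_mod_cast hpos)]
    exact_mod_cast (by rw [add_mul, one_mul]; exact e1)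
  have h3 : (CB.inv a).c.val - x⁻¹ = ((CB.inv a).c.val - (a.c.val)⁻¹) + ((a.c.val)⁻¹ - x⁻¹) := by
    ring
  rw [h3, hir]
  refine (norm_add_le _ _).trans ((add_le_add hiv hd).trans ?_)
  rw [← add_div]
  refine div_le_div_of_nonneg_right ?_ hp.le
  push_cast at hr ⊢
  linarith

end Pool.Agent.SHD
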