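import Pool.Agent.SHD.NStar

/-!
The kernel evaluation of the check at the double saddle point.
-/

set_option autoImplicit false
set_option maxRecDepth 100000

namespace Pool.Agent.SHD

theorem starA_true : starA = true := by decide +kernel

theorem starB_true : starB = true := by decide +kernel

end Pool.Agent.SHD
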