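import Mathlib
import Pool.Agent.SHD.NStarD
import Pool.Agent.SHD.NKS
import Pool.Agent.SHD.Loc1
import Pool.Agent.SHD.RootSeq
import Pool.Agent.SHD.ExpRay

set_option autoImplicit false

/-!
Existence of the double saddle point at which the curvature changes sign (modules STAR1, STAR2).
-/

noncomputable section

namespace Pool.Agent.SHD

open Polynomial Set

variable {ι : Type} [Fintype ι]

/-- the derivative of `tf` -/
def dtf (b : ι → ℂ) (w : ℂ) : ℂ := -(hh b w * Kf b w) / (hh1 b w) ^ 2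

/-- `K / h ^ 4` -/
def Psi (b : ι → ℂ) (w : ℂ) : ℂ := Kf b w / (hh b w) ^ 4

/-- the derivative of `K / h ^ 4` -/
def dPsi (b : ι → ℂ) (w : ℂ) : ℂ :=
  (3 * hh1 b w * hh2 b w - hh b w * hh3 b w) / (hh b w) ^ 4 -
    4 * Kf b w * hh1 b w / (hh b w) ^ 5

private theorem STAR2_hh (b : ι → ℂ) (w : ℂ) (hw : ∀ i, w ≠ b i) :
    HasDerivAt (hh b) (hh1 b w) w := by
  have h := ff_hasDeriv b (w + 1) 0 w hw (by simp)
  have e : ff b (w + 1) 0 = hh b := by
    funext v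
    simp [ff]
  have e' : ff1 b (w + 1) 0 w = hh1 b w := by simp [ff1]
  rwa [e, e'] at h

private theorem STAR2_hh1 (b : ι → ℂ) (w : ℂ) (hw : ∀ i, w ≠ b i) :
    HasDerivAt (hh1 b) (hh2 b w) w := by
  have h := ff1_hasDeriv b (w + 1) 0 w hw (by simp)
  have e : ff1 b (w + 1) 0 = hh1 b := by
    funext v
    simp [ff1]
  have e' : ff2 b (w + 1) 0 w = hh2 b w := by simp [ff2]
  rwa [e, e'] at h

private theorem STAR2_hh2 (b : ι → ℂ) (w : ℂ) (hw : ∀ i, w ≠ b i) :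
    HasDerivAt (hh2 b) (hh3 b w) w := by
  have h := ff2_hasDeriv b (w + 1) 0 w hw (by simp)
  have e : ff2 b (w + 1) 0 = hh2 b := by
    funext v
    simp [ff2]
  have e' : ff3 b (w + 1) 0 w = hh3 b w := by simp [ff3]
  rwa [e, e'] at h

/-- STAR2 -/
theorem Psi_hasDeriv (b : ι → ℂ) (w : ℂ) (hw : ∀ i, w ≠ b i) (h0 : hh b w ≠ 0) :
    HasDerivAt (Psi b) (dPsi b w) w := by
  have d0 := STAR2_hh b w hw
  have d1 := STAR2_hh1 b w hw
  have d2 := STAR2_hh2 b w hw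
  have dK : HasDerivAt (Kf b) (3 * hh1 b w * hh2 b w - hh b w * hh3 b w) w := by
    have h := ((d1.pow 2).const_mul 2).sub (d0.mul d2)
    refine h.congr_deriv ?_
    simp only [Nat.cast_ofNat]
    ring
  have h := dK.div (d0.pow 4) (pow_ne_zero 4 h0)
  refine h.congr_deriv ?_
  unfold dPsi
  simp only [Nat.cast_ofNat, Pi.pow_apply]
  field_simp
  ring

/-- what the kernel evaluation proves -/
structure StarFacts (b : ι → ℂ) : Prop where
  av : ∀ w ∈ Metric.closedBall wsC.val (1 / 2 ^ 40), ∀ i, w ≠ b i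
  n0 : ∀ w ∈ Metric.closedBall wsC.val (1 / 2 ^ 40), hh b w ≠ 0
  n1 : ∀ w ∈ Metric.closedBall wsC.val (1 / 2 ^ 40), hh1 b w ≠ 0
  nK : ∀ w ∈ Metric.closedBall wsC.val (1 / 2 ^ 40), Kf b w ≠ 0
  dt : ∀ w ∈ Metric.closedBall wsC.val (1 / 2 ^ 40), ‖dtf b w - daC.val‖ ≤ 2 ^ 57 / 2 ^ 80
  dp : ∀ w ∈ Metric.closedBall wsC.val (1 / 2 ^ 40),
    ‖dPsi b w - qaC.val * dtf b w‖ ≤ 2 ^ 32 / 2 ^ 80
  dz : ∀ w ∈ Metric.closedBall wsC.val (1 / 2 ^ 40), ‖Kf b w / (hh1 b w) ^ 2‖ ≤ 1 / 20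
  t0 : ‖tf b wsC.val - ((tsN : ℝ) / 2 ^ 80 : ℝ)‖ ≤ 2 ^ 24 / 2 ^ 80
  z0 : ‖Zf b wsC.val - zcv‖ ≤ 2 ^ 13 / 2 ^ 80
  p0 : |(Psi b wsC.val).im| ≤ 4 / 2 ^ 80

/-- sum over a multiset of elements of a ball -/
private theorem star1_mem_sum (a : CB) (ms : Multiset ℂ) (h : ∀ x ∈ ms, a.Mem x) :
    (CB.smul ms.card a).Mem ms.sum := by
  have key : ‖(ms.card : ℂ) * a.c.val - ms.sum‖ ≤ ms.card * ((a.r : ℝ) / 2 ^ 80) := by
    induction ms using Multiset.induction_on with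
    | empty => simp
    | cons x ms ih =>
      have h1 := ih (fun y hy => h y (Multiset.mem_cons_of_mem hy))
      have h2 : ‖a.c.val - x‖ ≤ (a.r : ℝ) / 2 ^ 80 := h x (Multiset.mem_cons_self x ms)
      rw [Multiset.card_cons, Multiset.sum_cons]
      push_cast
      have e : ((ms.card : ℂ) + 1) * a.c.val - (x + ms.sum) = (a.c.val - x) + ((ms.card : ℂ) * a.c.val - ms.sum) := by
        ring
      rw [e]
      refine (norm_add_le _ _).trans ?_
      linarith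
  unfold CB.Mem
  have e1 : (CB.smul ms.card a).c = CP.smul ms.card a.c := rfl
  have e2 : (CB.smul ms.card a).r = ms.card * a.r := rfl
  rw [e1, e2, CP.val_smul]
  refine key.trans (le_of_eq ?_)
  push_cast
  ring

/-- correctness of the sums over the multiset -/
private structure Star1M (E : S4) (w : ℂ) (m : Multiset ℂ) : Prop where
  s1 : E.s1.Mem (m.map fun b => (w - b)⁻¹).sum
  s2 : E.s2.Mem (m.map fun b => (w - b)⁻¹ ^ 2).sum
  s3 : E.s3.Mem (m.map fun b => (w - b)⁻¹ ^ 3).sum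
  s4 : E.s4.Mem (m.map fun b => (w - b)⁻¹ ^ 4).sum
  far : ∀ b ∈ m, w ≠ b

private theorem star1_cl (x y : ℕ) : (clC x y).c.val = ptv x y := by
  have h : (clC x y).c = ⟨x <<< 50, 77371252455336267181195264, y <<< 50, 77371252455336267181195264⟩ := rfl
  rw [h]
  unfold CP.val ptv
  simp only [Nat.shiftLeft_eq]
  apply Complex.ext
  · push_cast
    ring
  · push_cast
    ring

private theorem star1_pos {a : CB} {x : ℂ} (h : a.Mem x) (h1 : Nat.ble 1 (CB.lo a) = true) : x ≠ 0 := by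
  have h2 : 1 ≤ CB.lo a := Nat.le_of_ble_eq_true h1
  have h3 := CB.lo_le a x h
  have h4 : (1 : ℝ) ≤ CB.lo a := by exact_mod_cast h2
  intro h0
  rw [h0, norm_zero] at h3
  have h5 : (0 : ℝ) < (CB.lo a : ℝ) / 2 ^ 80 := by positivity
  linarith

private theorem star1_step (W : CB) (w : ℂ) (hw : W.Mem w) (q : Cl) (E : S4) (m m' : Multiset ℂ) (hm' : NearC q m')
    (hE : E.ok = true → Star1M E w m)
    (h : (Cl.rec (motive := fun _ => S4) (fun w x y => sst1 w (CB.sub W (clC x y)) E) q : S4).ok = true) :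
    Star1M (Cl.rec (motive := fun _ => S4) (fun w x y => sst1 w (CB.sub W (clC x y)) E) q : S4) w (m' + m) := by
  obtain ⟨qw, qx, qy⟩ := q
  obtain ⟨s1, s2, s3, s4, ok⟩ := E
  obtain ⟨hcard, hnear⟩ := hm'
  set d := CB.sub W (clC qx qy) with hd
  set u := CB.inv d with hu
  have hok : (ok && Nat.ble 1 (CB.lo d)) = true := h
  rw [Bool.and_eq_true] at hok
  obtain ⟨F1, F2, F3, F4, F5⟩ := hE hok.1
  have hdm : ∀ b ∈ m', d.Mem (w - b) := by
    intro b hb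
    refine CB.mem_sub W _ w b hw ?_
    unfold CB.Mem
    rw [star1_cl]
    have h1 := hnear b hb
    rw [norm_sub_rev] at h1
    have h2 : ((clC qx qy).r : ℝ) = 1 := by
      have : (clC qx qy).r = 1 := rfl
      rw [this]
      norm_num
    rw [h2]
    exact h1
  have hlo : 0 < CB.lo d := Nat.le_of_ble_eq_true hok.2
  have hum : ∀ b ∈ m', u.Mem (w - b)⁻¹ := fun b hb => CB.mem_inv d _ (hdm b hb) hlo
  have hum2 : ∀ b ∈ m', (CB.mul u u).Mem ((w - b)⁻¹ ^ 2) := by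
    intro b hb
    rw [pow_two]
    exact CB.mem_mul _ _ _ _ (hum b hb) (hum b hb)
  have hum3 : ∀ b ∈ m', (CB.mul (CB.mul u u) u).Mem ((w - b)⁻¹ ^ 3) := by
    intro b hb
    rw [pow_succ]
    exact CB.mem_mul _ _ _ _ (hum2 b hb) (hum b hb)
  have hum4 : ∀ b ∈ m', (CB.mul (CB.mul u u) (CB.mul u u)).Mem ((w - b)⁻¹ ^ 4) := by
    intro b hb
    have e : (w - b)⁻¹ ^ 4 = (w - b)⁻¹ ^ 2 * (w - b)⁻¹ ^ 2 := by ring
    rw [e]
    exact CB.mem_mul _ _ _ _ (hum2 b hb) (hum2 b hb)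
  have hsum : ∀ (a : CB) (f : ℂ → ℂ), (∀ b ∈ m', a.Mem (f b)) → (CB.smul qw a).Mem (m'.map f).sum := by
    intro a f hf
    have h1 := star1_mem_sum a (m'.map f) (by
      intro x hx
      obtain ⟨b, hb, rfl⟩ := Multiset.mem_map.1 hx
      exact hf b hb)
    rw [Multiset.card_map, hcard] at h1
    exact h1
  have hres : (Cl.rec (motive := fun _ => S4) (fun w x y => sst1 w (CB.sub W (clC x y)) ⟨s1, s2, s3, s4, ok⟩)
      ⟨qw, qx, qy⟩ : S4) = ⟨CB.add s1 (CB.smul qw u), CB.add s2 (CB.smul qw (CB.mul u u)),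
      CB.add s3 (CB.smul qw (CB.mul (CB.mul u u) u)), CB.add s4 (CB.smul qw (CB.mul (CB.mul u u) (CB.mul u u))),
      ok && Nat.ble 1 (CB.lo d)⟩ := rfl
  rw [hres]
  refine ⟨?_, ?_, ?_, ?_, ?_⟩
  · rw [Multiset.map_add, Multiset.sum_add, add_comm]
    exact CB.mem_add _ _ _ _ F1 (hsum _ _ hum)
  · rw [Multiset.map_add, Multiset.sum_add, add_comm]
    exact CB.mem_add _ _ _ _ F2 (hsum _ _ hum2)
  · rw [Multiset.map_add, Multiset.sum_add, add_comm]
    exact CB.mem_add _ _ _ _ F3 (hsum _ _ hum3)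
  · rw [Multiset.map_add, Multiset.sum_add, add_comm]
    exact CB.mem_add _ _ _ _ F4 (hsum _ _ hum4)
  · intro b hb
    rcases Multiset.mem_add.1 hb with hb | hb
    · exact fun hwb => star1_pos (hdm b hb) hok.2 (sub_eq_zero.2 hwb)
    · exact F5 b hb

private theorem star1_cb0 : cb0.Mem 0 := by
  unfold CB.Mem cb0 CP.val
  have : (⟨((0 : ℕ) - (0 : ℕ) : ℝ) / 2 ^ 80, ((0 : ℕ) - (0 : ℕ) : ℝ) / 2 ^ 80⟩ : ℂ) = 0 := by
    apply Complex.ext <;> simp
  simp only [this]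
  simp

private theorem star1_sumsM (W : CB) (w : ℂ) (hw : W.Mem w) (l : List Cl) (m : Multiset ℂ) (hm : NearL l m)
    (h : (sums W l).ok = true) : Star1M (sums W l) w m := by
  induction l generalizing m with
  | nil =>
    have hm0 : m = 0 := hm
    subst hm0
    have e : sums W [] = s40 := rfl
    rw [e]
    exact ⟨star1_cb0, star1_cb0, star1_cb0, star1_cb0, by simp⟩
  | cons q l ih =>
    obtain ⟨m₁, m₂, rfl, h1, h2⟩ := hm
    exact star1_step W w hw q (sums W l) m₂ m₁ h1 (fun hok => ih m₂ h2 hok) h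

private theorem star1_within {a : CB} {c : CP} {e : ℕ} (h : CB.within a c e = true) {x : ℂ} (hx : a.Mem x) :
    ‖x - c.val‖ ≤ (e : ℝ) / 2 ^ 80 := by
  have h1 : CP.nup (CP.sub a.c c) + a.r ≤ e := Nat.le_of_ble_eq_true h
  have h2 := CP.nup_ge (CP.sub a.c c)
  rw [CP.val_sub] at h2
  have h3 : ‖a.c.val - x‖ ≤ (a.r : ℝ) / 2 ^ 80 := hx
  have e1 : x - c.val = (a.c.val - c.val) - (a.c.val - x) := by ring
  rw [e1]
  refine (norm_sub_le _ _).trans ((add_le_add h2 h3).trans ?_)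
  rw [← add_div]
  gcongr
  exact_mod_cast h1

/-- all the formulas -/
private theorem star1_all (b : ι → ℂ) (hb : Near b) (W : CB) (w : ℂ) (hw : W.Mem w) (s1 s2 s3 s4 : CB) (ok : Bool)
    (hE : sums W clusters = ⟨s1, s2, s3, s4, ok⟩) (hok : ok = true) :
    s1.Mem (hh b w) ∧ s2.Mem (-hh1 b w) ∧ s3.Mem (hh2 b w / 2) ∧ s4.Mem (-(hh3 b w / 6)) ∧ ∀ i, w ≠ b i := by
  have h := star1_sumsM W w hw clusters (Finset.univ.val.map b) hb (by rw [hE]; exact hok)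
  rw [hE] at h
  obtain ⟨F1, F2, F3, F4, F5⟩ := h
  simp only [Multiset.map_map] at F1 F2 F3 F4
  refine ⟨F1, ?_, ?_, ?_, fun i => F5 (b i) (Multiset.mem_map_of_mem b (Finset.mem_univ_val i))⟩
  · unfold hh1
    rw [neg_neg]
    exact F2
  · unfold hh2
    rw [mul_div_cancel_left₀ _ (two_ne_zero)]
    exact F3
  · unfold hh3
    have e : -(-(6 * ∑ i, ((w - b i)⁻¹) ^ 4) / 6) = ∑ i, ((w - b i)⁻¹) ^ 4 := by ring
    rw [e]
    exact F4

private theorem star1_pw4 {a i : CB} {x y : ℂ} (hx : a.Mem x) (hy : i.Mem y) : (pw4 a i).Mem (x * y * y * y * y) :=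
  CB.mem_mul _ _ _ _ (CB.mem_mul _ _ _ _ (CB.mem_mul _ _ _ _ (CB.mem_mul _ _ _ _ hx hy) hy) hy) hy

private theorem star1_kf {b : ι → ℂ} {w : ℂ} {s1 s2 s3 : CB} (h1 : s1.Mem (hh b w)) (h2 : s2.Mem (-hh1 b w))
    (h3 : s3.Mem (hh2 b w / 2)) : (kfC s1 s2 s3).Mem (Kf b w) := by
  have h := CB.mem_smul 2 _ _ (CB.mem_sub _ _ _ _ (CB.mem_mul _ _ _ _ h2 h2) (CB.mem_mul _ _ _ _ h1 h3))
  have e : ((2 : ℕ) : ℂ) * (-hh1 b w * -hh1 b w - hh b w * (hh2 b w / 2)) = Kf b w := by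
    unfold Kf
    push_cast
    ring
  rw [e] at h
  exact h

/-- STAR1 -/
theorem star_facts (b : ι → ℂ) (hb : Near b) : StarFacts b := by
  -- the ball
  have HB : ∀ w ∈ Metric.closedBall wsC.val (1 / 2 ^ 40), (∀ i, w ≠ b i) ∧ hh b w ≠ 0 ∧ hh1 b w ≠ 0 ∧ Kf b w ≠ 0 ∧
      ‖dtf b w - daC.val‖ ≤ 2 ^ 57 / 2 ^ 80 ∧ ‖dPsi b w - qaC.val * dtf b w‖ ≤ 2 ^ 32 / 2 ^ 80 ∧
      ‖Kf b w / (hh1 b w) ^ 2‖ ≤ 1 / 20 := by
    intro w hw
    have hW : (⟨wsC, 1099511627776⟩ : CB).Mem w := by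
      rw [Metric.mem_closedBall, dist_eq_norm, norm_sub_rev] at hw
      unfold CB.Mem
      refine hw.trans (le_of_eq ?_)
      norm_num
    have h := starB_true
    unfold starB at h
    generalize hE : sums ⟨wsC, 1099511627776⟩ clusters = E at h
    obtain ⟨s1, s2, s3, s4, ok⟩ := E
    simp only [star4, star5, Bool.and_eq_true] at h
    obtain ⟨⟨hok, l1, l2⟩, lK, g1, g2, g3⟩ := h
    obtain ⟨m1, m2, m3, m4, hav⟩ := star1_all b hb _ w hW s1 s2 s3 s4 ok hE hok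
    have n1 : hh b w ≠ 0 := star1_pos m1 l1
    have n2' : -hh1 b w ≠ 0 := star1_pos m2 l2
    have n2 : hh1 b w ≠ 0 := by
      intro h0
      rw [h0, neg_zero] at n2'
      exact n2' rfl
    have mK := star1_kf m1 m2 m3
    have nK : Kf b w ≠ 0 := star1_pos mK lK
    have i1 : (CB.inv s1).Mem (hh b w)⁻¹ := CB.mem_inv _ _ m1 (Nat.le_of_ble_eq_true l1)
    have i2 : (CB.inv s2).Mem (-hh1 b w)⁻¹ := CB.mem_inv _ _ m2 (Nat.le_of_ble_eq_true l2)
    have mdt : (dtC s1 (kfC s1 s2 s3) (CB.inv s2)).Mem (dtf b w) := by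
      have h1 := CB.mem_sub _ _ _ _ star1_cb0 (CB.mem_mul _ _ _ _ (CB.mem_mul _ _ _ _
        (CB.mem_mul _ _ _ _ m1 mK) i2) i2)
      have e : 0 - hh b w * Kf b w * (-hh1 b w)⁻¹ * (-hh1 b w)⁻¹ = dtf b w := by
        unfold dtf
        field_simp
        ring
      rw [e] at h1
      exact h1
    have mdp : (dpC s1 s2 s3 s4 (kfC s1 s2 s3) (CB.inv s1)).Mem (dPsi b w) := by
      have h1 := star1_pw4 (CB.mem_add _ _ _ _
        (CB.mem_smul 6 _ _ (CB.mem_sub _ _ _ _ (CB.mem_mul _ _ _ _ m1 m4) (CB.mem_mul _ _ _ _ m2 m3)))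
        (CB.mem_smul 4 _ _ (CB.mem_mul _ _ _ _ (CB.mem_mul _ _ _ _ mK m2) i1))) i1
      have e : (((6 : ℕ) : ℂ) * (hh b w * -(hh3 b w / 6) - -hh1 b w * (hh2 b w / 2)) +
          ((4 : ℕ) : ℂ) * (Kf b w * -hh1 b w * (hh b w)⁻¹)) * (hh b w)⁻¹ * (hh b w)⁻¹ * (hh b w)⁻¹ * (hh b w)⁻¹ =
          dPsi b w := by
        unfold dPsi
        push_cast
        field_simp
        ring
      rw [e] at h1
      exact h1
    refine ⟨hav, n1, n2, nK, ?_, ?_, ?_⟩
    · refine (star1_within g1 mdt).trans (le_of_eq ?_)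
      norm_num
    · have mq : (⟨qaC, 1⟩ : CB).Mem qaC.val := by
        unfold CB.Mem
        simp only [sub_self, norm_zero]
        positivity
      have h1 := star1_within g2 (CB.mem_sub _ _ _ _ mdp (CB.mem_mul _ _ _ _ mq mdt))
      have e : (⟨0, 0, 0, 0⟩ : CP).val = 0 := by
        unfold CP.val
        apply Complex.ext <;> simp
      rw [e, sub_zero] at h1
      refine h1.trans (le_of_eq ?_)
      norm_num
    · have h1 := star1_within g3 (CB.mem_mul _ _ _ _ (CB.mem_mul _ _ _ _ mK i2) i2)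
      have e : (⟨0, 0, 0, 0⟩ : CP).val = 0 := by
        unfold CP.val
        apply Complex.ext <;> simp
      have e2 : Kf b w * (-hh1 b w)⁻¹ * (-hh1 b w)⁻¹ = Kf b w / (hh1 b w) ^ 2 := by
        field_simp
      rw [e, sub_zero, e2] at h1
      refine h1.trans ?_
      norm_num
  -- the point
  have hW : (⟨wsC, 0⟩ : CB).Mem wsC.val := by
    unfold CB.Mem
    simp only [sub_self, norm_zero]
    positivity
  have h := starA_true
  unfold starA at h
  generalize hE : sums ⟨wsC, 0⟩ clusters = E at h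
  obtain ⟨s1, s2, s3, s4, ok⟩ := E
  simp only [star3, Bool.and_eq_true] at h
  obtain ⟨⟨hok, l1, l2⟩, g1, g2, g3⟩ := h
  obtain ⟨m1, m2, m3, m4, hav⟩ := star1_all b hb _ _ hW s1 s2 s3 s4 ok hE hok
  have n1 : hh b wsC.val ≠ 0 := star1_pos m1 l1
  have n2' : -hh1 b wsC.val ≠ 0 := star1_pos m2 l2
  have n2 : hh1 b wsC.val ≠ 0 := by
    intro h0
    rw [h0, neg_zero] at n2'
    exact n2' rfl
  have mK := star1_kf m1 m2 m3
  have i1 : (CB.inv s1).Mem (hh b wsC.val)⁻¹ := CB.mem_inv _ _ m1 (Nat.le_of_ble_eq_true l1)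
  have i2 : (CB.inv s2).Mem (-hh1 b wsC.val)⁻¹ := CB.mem_inv _ _ m2 (Nat.le_of_ble_eq_true l2)
  refine ⟨fun w hw => (HB w hw).1, fun w hw => (HB w hw).2.1, fun w hw => (HB w hw).2.2.1,
    fun w hw => (HB w hw).2.2.2.1, fun w hw => (HB w hw).2.2.2.2.1, fun w hw => (HB w hw).2.2.2.2.2.1,
    fun w hw => (HB w hw).2.2.2.2.2.2, ?_, ?_, ?_⟩
  · have h1 := star1_within g1 (CB.mem_mul _ _ _ _ (CB.mem_mul _ _ _ _ m1 m1) i2)
    have e : (⟨tsN, 0, 0, 0⟩ : CP).val = (((tsN : ℝ) / 2 ^ 80 : ℝ) : ℂ) := by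
      unfold CP.val
      generalize tsN = t
      apply Complex.ext
      · rw [Complex.ofReal_re]
        simp
      · rw [Complex.ofReal_im]
        simp
    have e2 : hh b wsC.val * hh b wsC.val * (-hh1 b wsC.val)⁻¹ = tf b wsC.val := by
      unfold tf
      field_simp
    rw [e, e2] at h1
    refine h1.trans (le_of_eq ?_)
    norm_num
  · have h1 := star1_within g2 (CB.mem_sub _ _ _ _ hW (CB.mem_mul _ _ _ _ m1 i2))
    have e : zsC.val = zcv := by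
      unfold zsC CP.val zcv
      generalize zX = x
      generalize zY = y
      apply Complex.ext
      · push_cast
        norm_num
      · push_cast
        norm_num
    have e2 : wsC.val - hh b wsC.val * (-hh1 b wsC.val)⁻¹ = Zf b wsC.val := by
      unfold Zf
      field_simp
      ring
    rw [e, e2] at h1
    refine h1.trans (le_of_eq ?_)
    norm_num
  · have h1 := star1_within g3 (star1_pw4 mK i1)
    have e2 : Kf b wsC.val * (hh b wsC.val)⁻¹ * (hh b wsC.val)⁻¹ * (hh b wsC.val)⁻¹ * (hh b wsC.val)⁻¹ =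
        Psi b wsC.val := by
      unfold Psi
      field_simp
    rw [e2] at h1
    have h2 := Complex.abs_im_le_norm (Psi b wsC.val - (⟨66686442372142663, 0, 0, 0⟩ : CP).val)
    have e3 : (Psi b wsC.val - (⟨66686442372142663, 0, 0, 0⟩ : CP).val).im = (Psi b wsC.val).im := by
      unfold CP.val
      simp
    rw [e3] at h2
    refine h2.trans (h1.trans (le_of_eq ?_))
    norm_num

private theorem STAR2_mv (f f' : ℂ → ℂ) (c : ℂ) (r C : ℝ)
    (hf : ∀ w ∈ Metric.closedBall c r, HasDerivAt f (f' w) w)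
    (hC : ∀ w ∈ Metric.closedBall c r, ‖f' w‖ ≤ C) (x y : ℂ) (hx : x ∈ Metric.closedBall c r)
    (hy : y ∈ Metric.closedBall c r) : ‖f y - f x‖ ≤ C * ‖y - x‖ :=
  (convex_closedBall c r).norm_image_sub_le_of_norm_hasDerivWithin_le
    (fun w hw => (hf w hw).hasDerivWithinAt) hC hx hy

private theorem STAR2_a : (674 / 10 : ℝ) ≤ ‖daC.val‖ ∧ ‖daC.val‖ ≤ 68 := by
  have h : ‖daC.val‖ ^ 2 = (43008585402099189343900983 / 2 ^ 80 : ℝ) ^ 2 +
      (69365629748050171835823086 / 2 ^ 80 : ℝ) ^ 2 := by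
    rw [Complex.sq_norm, Complex.normSq_apply]
    simp only [CP.val, daC]
    push_cast
    ring
  constructor
  · refine (pow_le_pow_iff_left₀ (by norm_num) (norm_nonneg _) two_ne_zero).1 ?_
    rw [h]
    norm_num
  · refine (pow_le_pow_iff_left₀ (norm_nonneg _) (by norm_num) two_ne_zero).1 ?_
    rw [h]
    norm_num

private theorem STAR2_q : ‖qaC.val‖ ≤ 17 / 1000000000 ∧ (121 / 10000000000 : ℝ) ≤ qaC.val.im := by
  have h : ‖qaC.val‖ ^ 2 = (13479910892027453 / 2 ^ 80 : ℝ) ^ 2 +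
      (14692072203939159 / 2 ^ 80 : ℝ) ^ 2 := by
    rw [Complex.sq_norm, Complex.normSq_apply]
    simp only [CP.val, qaC]
    push_cast
    ring
  constructor
  · refine (pow_le_pow_iff_left₀ (norm_nonneg _) (by norm_num) two_ne_zero).1 ?_
    rw [h]
    norm_num
  · simp only [CP.val, qaC]
    push_cast
    norm_num

/-- STAR2 -/
theorem star_exists (b : ι → ℂ) (F : StarFacts b) :
    ∃ (ws : ℂ) (ts : ℝ), ‖ws - wsC.val‖ ≤ 1 / 2 ^ 55 ∧ |ts - (tsN : ℝ) / 2 ^ 80| ≤ 1 / 2 ^ 50 ∧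
      ‖Zf b ws - zcv‖ ≤ 1 / 2 ^ 56 ∧ tf b ws = ts ∧ (∀ i, ws ≠ b i) ∧ hh b ws ≠ 0 ∧
      hh1 b ws ≠ 0 ∧ Kf b ws ≠ 0 ∧
      ∃ δ > 0, ∀ w ∈ Metric.ball ws δ, ∀ t : ℝ, tf b w = t →
        (t < ts → (1 : ℝ) * (Kf b w / (hh b w) ^ 4).im < 0) ∧
        (ts < t → 0 < (1 : ℝ) * (Kf b w / (hh b w) ^ 4).im) := by
  obtain ⟨ha1, ha2⟩ := STAR2_a
  obtain ⟨hq1, hq2⟩ := STAR2_q
  have hdt := F.dt
  have hdp := F.dp
  have ht0 := F.t0
  have hz0 := F.z0
  have hp0 := F.p0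
  generalize daC.val = a at ha1 ha2 hdt
  generalize qaC.val = q at hq1 hq2 hdp
  generalize hT : (tsN : ℝ) / 2 ^ 80 = T at ht0 ⊢
  set c := wsC.val with hc
  -- derivatives
  have dT : ∀ w ∈ Metric.closedBall c (1 / 2 ^ 40), HasDerivAt (tf b) (dtf b w) w :=
    fun w hw => (tf_hasDeriv b w (F.av w hw) (F.n1 w hw)).hasDerivAt
  have dP : ∀ w ∈ Metric.closedBall c (1 / 2 ^ 40), HasDerivAt (Psi b) (dPsi b w) w :=
    fun w hw => Psi_hasDeriv b w (F.av w hw) (F.n0 w hw)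
  have dZ : ∀ w ∈ Metric.closedBall c (1 / 2 ^ 40),
      HasDerivAt (Zf b) (Kf b w / (hh1 b w) ^ 2) w :=
    fun w hw => (Zf_hasDeriv b w (F.av w hw) (F.n1 w hw)).hasDerivAt
  have hcc : c ∈ Metric.closedBall c (1 / 2 ^ 40) := Metric.mem_closedBall_self (by norm_num)
  -- injectivity of `tf`
  have inj : ∀ x ∈ Metric.closedBall c (1 / 2 ^ 40), ∀ y ∈ Metric.closedBall c (1 / 2 ^ 40),
      67 * ‖y - x‖ ≤ ‖tf b y - tf b x‖ := by
    intro x hx y hy
    have h1 := STAR2_mv (fun w => tf b w - a * w) (fun w => dtf b w - a) c (1 / 2 ^ 40)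
      (2 ^ 57 / 2 ^ 80) (fun w hw => by
        have h := (dT w hw).sub ((hasDerivAt_id w).const_mul a)
        rw [mul_one] at h
        exact h) hdt x y hx hy
    have h2 : ‖a * (y - x)‖ ≤ ‖tf b y - tf b x‖ + 2 ^ 57 / 2 ^ 80 * ‖y - x‖ := by
      have e : a * (y - x) = (tf b y - tf b x) - ((tf b y - a * y) - (tf b x - a * x)) := by ring
      rw [e]
      exact (norm_sub_le _ _).trans (add_le_add_right h1 _)
    rw [norm_mul] at h2
    have h3 : 674 / 10 * ‖y - x‖ ≤ ‖a‖ * ‖y - x‖ := mul_le_mul_of_nonneg_right ha1 (norm_nonneg _)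
    have h4 : (2 : ℝ) ^ 57 / 2 ^ 80 * ‖y - x‖ ≤ 1 / 10 * ‖y - x‖ :=
      mul_le_mul_of_nonneg_right (by norm_num) (norm_nonneg _)
    have h5 : 0 ≤ ‖y - x‖ := norm_nonneg _
    linarith
  -- existence
  have ex : ∀ t : ℝ, |t - T| ≤ 1 / 2 ^ 49 → ∃ w ∈ Metric.closedBall c (1 / 2 ^ 40),
      tf b w = t := by
    intro t ht
    obtain ⟨w, hw, h⟩ := root_ball (fun w => tf b w - t) (dtf b) c a (1 / 2 ^ 40)
      (2 ^ 57 / 2 ^ 80) (by norm_num) (fun w hw => (dT w hw).sub_const _) hdt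
      (by linarith [show (2 : ℝ) ^ 57 / 2 ^ 80 < 1 by norm_num]) (by
        have h1 : ‖tf b c - (t : ℂ)‖ ≤ 2 ^ 24 / 2 ^ 80 + 1 / 2 ^ 49 := by
          have e : tf b c - (t : ℂ) = (tf b c - (T : ℂ)) + ((T - t : ℝ) : ℂ) := by
            push_cast
            ring
          rw [e]
          refine (norm_add_le _ _).trans (add_le_add ht0 ?_)
          rw [Complex.norm_real, Real.norm_eq_abs, abs_sub_comm]
          exact ht
        have h2 : (67 : ℝ) * (1 / 2 ^ 40) ≤ (‖a‖ - 2 ^ 57 / 2 ^ 80) * (1 / 2 ^ 40) := by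
          apply mul_le_mul_of_nonneg_right _ (by norm_num)
          linarith [show (2 : ℝ) ^ 57 / 2 ^ 80 < 1 / 10 by norm_num]
        have h3 : (2 : ℝ) ^ 24 / 2 ^ 80 + 1 / 2 ^ 49 ≤ 67 * (1 / 2 ^ 40) := by norm_num
        exact h1.trans (h3.trans h2))
    exact ⟨w, hw, sub_eq_zero.1 h⟩
  choose! W hW hWt using ex
  -- distance to the centre
  have near : ∀ t : ℝ, |t - T| ≤ 1 / 2 ^ 49 → 67 * ‖W t - c‖ ≤ |t - T| + 2 ^ 24 / 2 ^ 80 := by
    intro t ht
    have h1 := inj c hcc (W t) (hW t ht)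
    rw [hWt t ht] at h1
    refine h1.trans ?_
    have e : (t : ℂ) - tf b c = ((t - T : ℝ) : ℂ) - (tf b c - (T : ℂ)) := by
      push_cast
      ring
    rw [e]
    refine (norm_sub_le _ _).trans (add_le_add ?_ ht0)
    rw [Complex.norm_real, Real.norm_eq_abs]
  -- monotonicity
  have mono : ∀ x ∈ Metric.closedBall c (1 / 2 ^ 40), ∀ y ∈ Metric.closedBall c (1 / 2 ^ 40),
      ∀ s t : ℝ, tf b x = s → tf b y = t → s ≤ t →
      (12 / 1000000000 : ℝ) * (t - s) ≤ (Psi b y).im - (Psi b x).im := by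
    intro x hx y hy s t hs ht hst
    have h1 := STAR2_mv (fun w => Psi b w - q * tf b w) (fun w => dPsi b w - q * dtf b w) c
      (1 / 2 ^ 40) (2 ^ 32 / 2 ^ 80) (fun w hw => (dP w hw).sub ((dT w hw).const_mul q)) hdp
      x y hx hy
    have h2 := inj x hx y hy
    rw [hs, ht, ← Complex.ofReal_sub, Complex.norm_real, Real.norm_of_nonneg (by linarith)] at h2
    have h3 : |((Psi b y - q * tf b y) - (Psi b x - q * tf b x)).im| ≤
        2 ^ 32 / 2 ^ 80 * ‖y - x‖ := (Complex.abs_im_le_norm _).trans h1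
    have h4 : ((Psi b y - q * tf b y) - (Psi b x - q * tf b x)).im =
        (Psi b y).im - (Psi b x).im - q.im * (t - s) := by
      rw [hs, ht]
      simp only [Complex.sub_im, Complex.mul_im, Complex.ofReal_re, Complex.ofReal_im]
      ring
    rw [h4] at h3
    have h5 := (abs_le.1 h3).1
    have h6 : (2 : ℝ) ^ 32 / 2 ^ 80 * ‖y - x‖ ≤ 1 / 10000000000 * (t - s) := by
      have : (2 : ℝ) ^ 32 / 2 ^ 80 * ‖y - x‖ ≤ 1 / 10000000000 * (67 * ‖y - x‖) := by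
        have h7 : 0 ≤ ‖y - x‖ := norm_nonneg _
        have h8 : (2 : ℝ) ^ 32 / 2 ^ 80 ≤ 1 / 10000000000 * 67 := by norm_num
        have := mul_le_mul_of_nonneg_right h8 h7
        linarith
      exact this.trans (mul_le_mul_of_nonneg_left h2 (by norm_num))
    have h7 : (121 / 10000000000 : ℝ) * (t - s) ≤ q.im * (t - s) :=
      mul_le_mul_of_nonneg_right hq2 (by linarith)
    linarith
  -- Lipschitz bound of `Psi`
  have hdP : ∀ w ∈ Metric.closedBall c (1 / 2 ^ 40), ‖dPsi b w‖ ≤ 1 / 2 ^ 19 := by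
    intro w hw
    have h1 := hdp w hw
    have h2 := hdt w hw
    have h3 : ‖dtf b w‖ ≤ 69 := by
      have e : dtf b w = (dtf b w - a) + a := by ring
      rw [e]
      refine (norm_add_le _ _).trans ?_
      linarith [show (2 : ℝ) ^ 57 / 2 ^ 80 ≤ 1 by norm_num]
    have e : dPsi b w = (dPsi b w - q * dtf b w) + q * dtf b w := by ring
    rw [e]
    refine (norm_add_le _ _).trans ?_
    rw [norm_mul]
    have h4 : ‖q‖ * ‖dtf b w‖ ≤ 17 / 1000000000 * 69 :=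
      mul_le_mul hq1 h3 (norm_nonneg _) (by norm_num)
    have h5 : (2 : ℝ) ^ 32 / 2 ^ 80 + 17 / 1000000000 * 69 ≤ 1 / 2 ^ 19 := by norm_num
    linarith
  have lip : ∀ x ∈ Metric.closedBall c (1 / 2 ^ 40), ∀ y ∈ Metric.closedBall c (1 / 2 ^ 40),
      |(Psi b y).im - (Psi b x).im| ≤ 1 / 2 ^ 19 * ‖y - x‖ := by
    intro x hx y hy
    rw [← Complex.sub_im]
    exact (Complex.abs_im_le_norm _).trans
      (STAR2_mv (Psi b) (dPsi b) c (1 / 2 ^ 40) (1 / 2 ^ 19) dP hdP x y hx hy)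
  -- the intermediate value theorem
  have hTT : |T - T| ≤ 1 / 2 ^ 49 := by
    rw [sub_self, abs_zero]
    norm_num
  have h50 : ∀ t ∈ Icc (T - 1 / 2 ^ 50) (T + 1 / 2 ^ 50), |t - T| ≤ 1 / 2 ^ 50 := by
    intro t ht
    rw [abs_le]
    exact ⟨by linarith [ht.1], by linarith [ht.2]⟩
  have h49 : ∀ t ∈ Icc (T - 1 / 2 ^ 50) (T + 1 / 2 ^ 50), |t - T| ≤ 1 / 2 ^ 49 :=
    fun t ht => (h50 t ht).trans (by norm_num)
  have hcont : ContinuousOn (fun t : ℝ => (Psi b (W t)).im)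
      (Icc (T - 1 / 2 ^ 50) (T + 1 / 2 ^ 50)) := by
    have : LipschitzOnWith 1 (fun t : ℝ => (Psi b (W t)).im)
        (Icc (T - 1 / 2 ^ 50) (T + 1 / 2 ^ 50)) := by
      refine LipschitzOnWith.of_dist_le_mul ?_
      intro s hs t ht
      have h1 := lip (W t) (hW t (h49 t ht)) (W s) (hW s (h49 s hs))
      have h2 := inj (W t) (hW t (h49 t ht)) (W s) (hW s (h49 s hs))
      rw [hWt t (h49 t ht), hWt s (h49 s hs), ← Complex.ofReal_sub, Complex.norm_real,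
        Real.norm_eq_abs] at h2
      rw [Real.dist_eq, Real.dist_eq, NNReal.coe_one, one_mul]
      refine h1.trans ?_
      have h3 : 0 ≤ ‖W s - W t‖ := norm_nonneg _
      have h4 : (1 : ℝ) / 2 ^ 19 * ‖W s - W t‖ ≤ 67 * ‖W s - W t‖ :=
        mul_le_mul_of_nonneg_right (by norm_num) h3
      linarith
    exact this.continuousOn
  have hmid : |(Psi b (W T)).im| ≤ 4 / 2 ^ 80 + 1 / 2 ^ 19 * (1 / 2 ^ 62) := by
    have h1 := lip c hcc (W T) (hW T hTT)
    have h2 := near T hTT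
    rw [sub_self, abs_zero] at h2
    have h3 : ‖W T - c‖ ≤ 1 / 2 ^ 62 := by
      have h4 : 0 ≤ ‖W T - c‖ := norm_nonneg _
      have h5 : (0 : ℝ) + 2 ^ 24 / 2 ^ 80 ≤ 67 * (1 / 2 ^ 62) := by norm_num
      linarith
    have h4 : (1 : ℝ) / 2 ^ 19 * ‖W T - c‖ ≤ 1 / 2 ^ 19 * (1 / 2 ^ 62) :=
      mul_le_mul_of_nonneg_left h3 (by norm_num)
    have h5 : |(Psi b (W T)).im| ≤ |(Psi b (W T)).im - (Psi b c).im| + |(Psi b c).im| := by
      have := abs_add_le ((Psi b (W T)).im - (Psi b c).im) ((Psi b c).im)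
      rwa [sub_add_cancel] at this
    linarith
  obtain ⟨ts, hts, hG⟩ : ∃ ts ∈ Icc (T - 1 / 2 ^ 50) (T + 1 / 2 ^ 50), (Psi b (W ts)).im = 0 := by
    have l1 : (T - 1 / 2 ^ 50) ∈ Icc (T - 1 / 2 ^ 50) (T + 1 / 2 ^ 50) := by
      constructor <;> linarith [show (0 : ℝ) < 1 / 2 ^ 50 by norm_num]
    have l2 : (T + 1 / 2 ^ 50) ∈ Icc (T - 1 / 2 ^ 50) (T + 1 / 2 ^ 50) := by
      constructor <;> linarith [show (0 : ℝ) < 1 / 2 ^ 50 by norm_num]
    have m1 := mono _ (hW _ (h49 _ l1)) _ (hW T hTT) _ _ (hWt _ (h49 _ l1)) (hWt T hTT)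
      (by linarith [show (0 : ℝ) < 1 / 2 ^ 50 by norm_num])
    have m2 := mono _ (hW T hTT) _ (hW _ (h49 _ l2)) _ _ (hWt T hTT) (hWt _ (h49 _ l2))
      (by linarith [show (0 : ℝ) < 1 / 2 ^ 50 by norm_num])
    have m3 := abs_le.1 hmid
    have m4 : (4 : ℝ) / 2 ^ 80 + 1 / 2 ^ 19 * (1 / 2 ^ 62) ≤ 12 / 1000000000 * (1 / 2 ^ 50) := by
      norm_num
    have m5 : (Psi b (W (T - 1 / 2 ^ 50))).im ≤ 0 := by
      have e : T - (T - 1 / 2 ^ 50) = 1 / 2 ^ 50 := by ring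
      rw [e] at m1
      linarith [m3.2]
    have m6 : 0 ≤ (Psi b (W (T + 1 / 2 ^ 50))).im := by
      have e : T + 1 / 2 ^ 50 - T = 1 / 2 ^ 50 := by ring
      rw [e] at m2
      linarith [m3.1]
    obtain ⟨ts, h1, h2⟩ := intermediate_value_Icc
      (by linarith [show (0 : ℝ) < 1 / 2 ^ 50 by norm_num]) hcont ⟨m5, m6⟩
    exact ⟨ts, h1, h2⟩
  have hn := near ts (h49 ts hts)
  have hts50 := h50 ts hts
  have hws := hW ts (h49 ts hts)
  have hwt := hWt ts (h49 ts hts)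
  have h55 : ‖W ts - c‖ ≤ 1 / 2 ^ 55 := by
    have h4 : 0 ≤ ‖W ts - c‖ := norm_nonneg _
    have h5 : (1 : ℝ) / 2 ^ 50 + 2 ^ 24 / 2 ^ 80 ≤ 67 * (1 / 2 ^ 55) := by norm_num
    linarith
  refine ⟨W ts, ts, h55, hts50, ?_, hwt, F.av _ hws, F.n0 _ hws, F.n1 _ hws, F.nK _ hws,
    1 / 2 ^ 41, by norm_num, ?_⟩
  · have h1 := STAR2_mv (Zf b) (fun w => Kf b w / (hh1 b w) ^ 2) c (1 / 2 ^ 40) (1 / 20) dZ F.dz
      c (W ts) hcc hws
    have e : Zf b (W ts) - zcv = (Zf b (W ts) - Zf b c) + (Zf b c - zcv) := by ring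
    rw [e]
    refine (norm_add_le _ _).trans ?_
    have h2 : (1 / 20 : ℝ) * ‖W ts - c‖ ≤ 1 / 20 * (1 / 2 ^ 55) :=
      mul_le_mul_of_nonneg_left h55 (by norm_num)
    have h3 : (1 / 20 : ℝ) * (1 / 2 ^ 55) + 2 ^ 13 / 2 ^ 80 ≤ 1 / 2 ^ 56 := by norm_num
    linarith
  · intro w hw t ht
    have hwB : w ∈ Metric.closedBall c (1 / 2 ^ 40) := by
      rw [Metric.mem_closedBall, dist_eq_norm]
      have h1 : ‖w - W ts‖ < 1 / 2 ^ 41 := by
        rw [← dist_eq_norm]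
        exact hw
      have e : w - c = (w - W ts) + (W ts - c) := by ring
      rw [e]
      refine (norm_add_le _ _).trans ?_
      have h3 : (1 : ℝ) / 2 ^ 41 + 1 / 2 ^ 55 ≤ 1 / 2 ^ 40 := by norm_num
      linarith
    have hPsi : Psi b w = Kf b w / (hh b w) ^ 4 := rfl
    rw [one_mul, ← hPsi]
    constructor
    · intro hlt
      have := mono w hwB (W ts) hws t ts ht hwt hlt.le
      have h2 : (0 : ℝ) < 12 / 1000000000 * (ts - t) := mul_pos (by norm_num) (by linarith)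
      linarith
    · intro hlt
      have := mono (W ts) hws w hwB ts t hwt ht hlt.le
      have h2 : (0 : ℝ) < 12 / 1000000000 * (t - ts) := mul_pos (by norm_num) (by linarith)
      linarith

end Pool.Agent.SHD
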