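import Mathlib
import Pool.Agent.SHD.NCov
import Pool.Agent.SHD.NStarS
import Pool.Agent.SHD.NReg
import Pool.Agent.SHD.NN
import Pool.Agent.SHD.NL
import Pool.Agent.SHD.MainA

set_option autoImplicit false

/-!
The frontier of the shadow of the polynomial with the zeros `zer` has an inflection point.
-/

noncomputable section

namespace Pool.Agent.SHD

open Polynomial Set Filter Topology

theorem zer_inflection : ∃ p : ℂ, IsInflectionPoint (frontier (shadow (PP zer))) p := by
  obtain ⟨ws, ts, hws, hts, hz, htf, hnb, n0, n1, nK, δ, hδ, hsign⟩ :=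
    star_exists zer (star_facts zer zer_near)
  obtain ⟨σ, hσ, hA, cu, cui, cv, cvi, hnear⟩ :=
    reg_final zer zer_near ws ts hws hts hz htf n0 n1
  have hcard : (Fintype.card (Σ j : Fin 7, Fin (wt j)) : ℝ) = 1000 := by
    rw [zer_card]
    norm_num
  have hT : (tsN : ℝ) / 2 ^ 80 < 9009832335 / 10000000 := by
    norm_num [tsN]
  have hT' : 9009832334 / 10000000 < (tsN : ℝ) / 2 ^ 80 := by
    norm_num [tsN]
  have hts' := abs_le.mp hts
  have h50 : (1 : ℝ) / 2 ^ 50 < 1 / 10 ^ 12 := by norm_num
  have t1 : ts < 90098324 / 100000 := by linarith [hts'.2]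
  have t2 : 90098323 / 100000 < ts := by linarith [hts'.1]
  have hG : Good zer ws ts σ regB.u regB.v regB.path 52 (114 / 10) := by
    refine ⟨hnb, n0, n1, nK, htf, by linarith, ?_, hσ, hA, cu, cui, cv, cvi,
      ends_low zer zer_near _ hz, ends_high zer zer_near _ hz, ?_, ?_⟩
    · rw [hcard]; linarith
    · intro α hα hne
      rw [hcard] at hα
      obtain ⟨hα1, hα2⟩ := hα
      by_cases h1 : α ≤ 900982655 / 1000000
      · exact dom_low zer zer_near _ hz α hα1 h1
      by_cases h2 : 900983812 / 1000000 ≤ α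
      · exact dom_upp zer zer_near _ hz α h2 (by linarith)
      push Not at h1 h2
      rcases lt_or_gt_of_ne hne with h3 | h3
      · obtain ⟨-, w₀, hw, -⟩ := hnear (ts - α) (by linarith) (by linarith)
        refine ⟨w₀, regB.u, regB.v, regB.path, ?_⟩
        have : ts - (ts - α) = α := by ring
        rw [this] at hw
        exact hw
      · obtain ⟨⟨w₀, hw, -⟩, -⟩ := hnear (α - ts) (by linarith) (by linarith)
        refine ⟨w₀, regB.u, regB.v, regB.path, ?_⟩
        have : ts + (α - ts) = α := by ring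
        rw [this] at hw
        exact hw
    · intro ε hε
      refine ⟨min (ε / 2) (614 / 1000000), by positivity, ?_, ?_, ?_⟩
      · exact lt_of_le_of_lt (min_le_left _ _) (by linarith)
      · obtain ⟨⟨w₀, hw, h⟩, -⟩ := hnear (min (ε / 2) (614 / 1000000)) (by positivity)
          (min_le_right _ _)
        exact ⟨w₀, regB.u, regB.v, regB.path, hw, h⟩
      · obtain ⟨-, w₀, hw, h⟩ := hnear (min (ε / 2) (614 / 1000000)) (by positivity)
          (min_le_right _ _)
        exact ⟨w₀, regB.u, regB.v, regB.path, hw, h⟩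
  exact ⟨_, good_inflection zer ws ts σ regB.u regB.v regB.path 52 (114 / 10) hG 1 one_ne_zero
    ⟨δ, hδ, hsign⟩⟩

/-- the answer to the question -/
theorem cex : ∃ P : ℂ[X], P.natDegree = 1000 ∧ ConvexPosition P ∧ ¬ RegularPolygon P ∧
    ∃ p : ℂ, IsInflectionPoint (frontier (shadow P)) p :=
  ⟨PP zer, by rw [PP_natDegree, zer_card], zer_convex, zer_regular, zer_inflection⟩

end Pool.Agent.SHD
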