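import Pool.Agent.SHD.NCheck

/-!
The data of the region around the double saddle point.
-/

set_option autoImplicit false

noncomputable section

namespace Pool.Agent.SHD

def regB : BD :=
  ⟨967422719955, 967424040951, 69737166391, 69136815475, 3758099, 58982, 38, 68754498054, 68841610586, 68724261056, 68664791707,
   ⟨0, 0, 20872911, 59438, 39⟩, ⟨0, 0, 4932187, 58801, 38⟩,
   [⟨0, 12573063⟩, ⟨145264957, 15306984⟩, ⟨335583161, 18130422⟩, ⟨572429774, 20351285⟩, ⟨845874765, 21042382⟩, ⟨1073741824, 19971292⟩],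
   [⟨0, 8646567⟩, ⟨186459069, 9209527⟩, ⟨394390894, 9264136⟩, ⟨562402691, 8936283⟩, ⟨720410343, 8354795⟩, ⟨860674439, 7627470⟩, ⟨978744885, 6871311⟩, ⟨1073741824, 6185139⟩],
   [⟨69789446367, 69286509604, 27765542, 59546, 39⟩, ⟨69804690313, 69329501148, 37122958, 59688, 39⟩, ⟨69789204784, 69409472874, 51969725, 59878, 39⟩, ⟨69747761645, 69499927427, 68260504, 60062, 39⟩, ⟨69717653309, 69667098638, 111714025, 60426, 40⟩, ⟨69652094067, 69956840024, 194270710, 60967, 40⟩, ⟨69309079184, 70307984651, 321328192, 61485, 41⟩, ⟨68580352022, 70724220420, 550565492, 62141, 42⟩, ⟨67414466194, 71177815048, 739360943, 62967, 43⟩, ⟨66073420338, 70877104498, 722943966, 63503, 43⟩, ⟨64609711031, 70010134139, 999081007, 64137, 44⟩, ⟨64405726321, 68460716437, 1021209542, 64140, 44⟩, ⟨65314796069, 67145165030, 843265566, 63722, 44⟩, ⟨66622058692, 66460619843, 643593560, 63137, 43⟩, ⟨67797360383, 66261015715, 630705771, 62659, 42⟩, ⟨68794750358, 66551430490, 476734791, 61991, 41⟩, ⟨69360008691,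 67101007160, 327235853, 61100, 40⟩, ⟨69717653309, 67515843165, 232853864, 60373, 40⟩, ⟨69912364883, 67844575446, 175647341, 59824, 39⟩, ⟨69968034588, 68130706435, 130906040, 59281, 38⟩, ⟨69985783543, 68348432881, 95258941, 58930, 38⟩, ⟨69983246769, 68498941300, 71793805, 58758, 38⟩, ⟨69989718389, 68622427157, 60306313, 58764, 38⟩, ⟨69937885933, 68706006596, 49816901, 58582, 38⟩, ⟨69913334489, 68788890882, 44419928, 58583, 38⟩, ⟨69883166131, 68854331107, 38190392, 58584, 38⟩, ⟨69853037653, 68903496316, 32173221, 58584, 38⟩, ⟨69827156891, 68938154859, 27218205, 58585, 38⟩, ⟨69815222263, 68978357460, 22714350, 58666, 38⟩, ⟨69802649041, 69005071972, 19297794, 58710, 38⟩, ⟨69791286576, 69026307897, 16434223, 58744, 38⟩, ⟨69781250834, 69043069915, 14040551, 58771, 38⟩, ⟨69772388126, 69056061206, 12035172, 58790, 38⟩, ⟨69764511161, 69065779548, 10342150, 58802, 38⟩, ⟨69757580273, 69072638802, 8890323, 58808, 38⟩, ⟨69751753104, 69077113207, 7624856, 58808, 38⟩, ⟨69747227316, 69079799916,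 6528194, 58806, 38⟩, ⟨69744025723, 69081311490, 5621508, 58804, 38⟩]⟩

def regN2 (A r ρ M5 : Nat) (S3 S4 v2 v3 : CP) : Bool :=
  and (Nat.ble (CP.nup (CP.sub (CP.smul 2 (CP.sub S3 (CP.amul A v3)))
      ⟨227527648912267921184170925, 0, 21508216863411398280449024, 0⟩)) 6044629098073145873530)
    (Nat.ble (Nat.add (F3 A S4 (CP.mul v2 v2)) (rsh (Nat.mul 24 (Nat.mul (Nat.add M5
      (mterm A ρ 5 180)) r)) 10)) 8087713733221869178784317440)

/-- numerical facts in the region: an enclosure of the second derivative and a bound for the third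
derivative, `α = 967423380453 / 2 ^ 30` -/
def regNum : Bool :=
  Zv.rec (fun _ ρ _ v2 v3 okz => Ev.rec (fun _ _ S3 S4 _ _ M5 _ ok =>
    and (and ok okz) (regN2 967423380453 3758099 ρ M5 S3 S4 v2 v3))
    (ev 69737166391 69136815475 3758099 clusters)) (zv 69737166391 69136815475 3758099)

end Pool.Agent.SHD
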